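import Pool.Agent.JR.StM

/-!
From bounded rank to all ranks, asymptotically: a linear hypergraph with edges of any sizes has a
matching of weight at least `(1 - ε) w(H) / (D + 1)` if `D` is large.
-/

set_option autoImplicit false

namespace Pool.Agent.JR

open Finset

variable {V : Type} [DecidableEq V]

/-- edges of `B` at `x` -/
theorem ar_deg (B : Finset (Finset V)) (K D : ℕ) (hB : ∀ E ∈ B, K + 1 ≤ E.card)
    (hD : ∀ x, ∑ E ∈ B.filter (fun E => x ∈ E), (E.card - 1) ≤ D) (x : V) :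
    (B.filter (fun E => x ∈ E)).card * K ≤ D := by
  refine le_trans ?_ (hD x)
  rw [← smul_eq_mul]
  apply Finset.card_nsmul_le_sum
  intro E hE
  have := hB E (Finset.mem_filter.1 hE).1
  omega

/-- edges of `B` which meet `E` -/
theorem ar_meet (B : Finset (Finset V)) (K D : ℕ) (hB : ∀ E ∈ B, K + 1 ≤ E.card)
    (hD : ∀ x, ∑ E ∈ B.filter (fun E => x ∈ E), (E.card - 1) ≤ D) (E : Finset V) :
    (B.filter (fun F => ¬ Disjoint E F)).card * K ≤ E.card * D := by
  have h1 : (B.filter (fun F => ¬ Disjoint E F)) ⊆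
      E.biUnion (fun x => B.filter (fun F => x ∈ F)) := by
    intro F hF
    rw [Finset.mem_filter, Finset.not_disjoint_iff] at hF
    obtain ⟨hF1, x, hx1, hx2⟩ := hF
    rw [Finset.mem_biUnion]
    exact ⟨x, hx1, Finset.mem_filter.2 ⟨hF1, hx2⟩⟩
  have h2 := (Finset.card_le_card h1).trans Finset.card_biUnion_le
  calc (B.filter (fun F => ¬ Disjoint E F)).card * K
      ≤ (∑ x ∈ E, (B.filter (fun F => x ∈ F)).card) * K := Nat.mul_le_mul_right _ h2
    _ = ∑ x ∈ E, (B.filter (fun F => x ∈ F)).card * K := Finset.sum_mul _ _ _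
    _ ≤ ∑ _x ∈ E, D := Finset.sum_le_sum (fun x _ => ar_deg B K D hB hD x)
    _ = E.card * D := by rw [Finset.sum_const, smul_eq_mul]

/-- greedy colouring of the large edges, by decreasing size -/
theorem ar_greedy (K N D : ℕ) (hK : 1 ≤ K) (hN0 : 0 < N) (hN : D * (K + 1) ≤ N * K) (n : ℕ) :
    ∀ B : Finset (Finset V), B.card = n → (∀ E ∈ B, K + 1 ≤ E.card) →
      (∀ x, ∑ E ∈ B.filter (fun E => x ∈ E), (E.card - 1) ≤ D) →
      ∃ c : Finset V → Fin N, ∀ E ∈ B, ∀ F ∈ B, E ≠ F → c E = c F → Disjoint E F := by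
  induction n with
  | zero =>
    intro B hB _ _
    rw [Finset.card_eq_zero] at hB
    subst hB
    exact ⟨fun _ => ⟨0, hN0⟩, fun E hE => absurd hE (Finset.notMem_empty _)⟩
  | succ n ih =>
    intro B hBn hB hD
    have hne : B.Nonempty := by
      rw [← Finset.card_pos]; omega
    obtain ⟨E0, hE0, hmin⟩ := Finset.exists_min_image B (fun E => E.card) hne
    obtain ⟨c, hc⟩ := ih (B.erase E0) (by rw [Finset.card_erase_of_mem hE0, hBn]; rfl)
      (fun E hE => hB E (Finset.mem_of_mem_erase hE))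
      (fun x => le_trans (Finset.sum_le_sum_of_subset (Finset.filter_subset_filter _
        (Finset.erase_subset _ _))) (hD x))
    set s := E0.card with hs
    have hsK : K + 1 ≤ s := hB E0 hE0
    set Nb := (B.erase E0).filter (fun F => ¬ Disjoint E0 F) with hNb
    -- the number of neighbours
    have hcard : Nb.card < N := by
      have hx : ∀ x ∈ E0, ((B.erase E0).filter (fun F => x ∈ F)).card * (s - 1) + (s - 1) ≤ D := by
        intro x hxE
        have h1 := ar_deg B (s - 1) D (fun E hE => by have := hmin E hE; omega) hD x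
        have h2 : (B.erase E0).filter (fun F => x ∈ F) = (B.filter (fun F => x ∈ F)).erase E0 := by
          rw [Finset.filter_erase]
        have h3 : E0 ∈ B.filter (fun F => x ∈ F) := Finset.mem_filter.2 ⟨hE0, hxE⟩
        rw [h2, Finset.card_erase_of_mem h3]
        have h4 : 0 < (B.filter (fun F => x ∈ F)).card := Finset.card_pos.2 ⟨E0, h3⟩
        obtain ⟨m, hm⟩ := Nat.exists_eq_succ_of_ne_zero h4.ne'
        rw [hm] at h1 ⊢
        rw [Nat.succ_mul] at h1
        simpa using h1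
      have h1 : Nb ⊆ E0.biUnion (fun x => (B.erase E0).filter (fun F => x ∈ F)) := by
        intro F hF
        rw [hNb, Finset.mem_filter, Finset.not_disjoint_iff] at hF
        obtain ⟨hF1, x, hx1, hx2⟩ := hF
        rw [Finset.mem_biUnion]
        exact ⟨x, hx1, Finset.mem_filter.2 ⟨hF1, hx2⟩⟩
      have h2 := (Finset.card_le_card h1).trans Finset.card_biUnion_le
      have h3 : Nb.card * (s - 1) + s * (s - 1) ≤ s * D := by
        calc Nb.card * (s - 1) + s * (s - 1)
            ≤ (∑ x ∈ E0, ((B.erase E0).filter (fun F => x ∈ F)).card) * (s - 1) + s * (s - 1) :=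
              Nat.add_le_add_right (Nat.mul_le_mul_right _ h2) _
          _ = ∑ x ∈ E0, (((B.erase E0).filter (fun F => x ∈ F)).card * (s - 1) + (s - 1)) := by
              rw [Finset.sum_add_distrib, Finset.sum_mul, Finset.sum_const, smul_eq_mul]
          _ ≤ ∑ _x ∈ E0, D := Finset.sum_le_sum hx
          _ = s * D := by rw [Finset.sum_const, smul_eq_mul]
      by_contra hcon
      push Not at hcon
      obtain ⟨t, ht⟩ : ∃ t, s = t + 1 := ⟨s - 1, by omega⟩
      have ht1 : K ≤ t := by omega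
      rw [ht] at h3
      simp only [Nat.add_sub_cancel] at h3
      have h4 : N * t ≤ Nb.card * t := Nat.mul_le_mul_right _ hcon
      have h5 : N * t + (t + 1) * t ≤ (t + 1) * D := le_trans (by omega) h3
      have h6 : D * (K + 1) * t ≤ N * K * t := Nat.mul_le_mul_right _ hN
      have h7 : D * K ≤ D * t := Nat.mul_le_mul_left _ ht1
      have h8 : K * (N * t + (t + 1) * t) ≤ K * ((t + 1) * D) := Nat.mul_le_mul_left K h5
      have h9 : 0 < K * ((t + 1) * t) :=
        Nat.mul_pos (by omega) (Nat.mul_pos (Nat.succ_pos _) (by omega))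
      nlinarith [h8, h9, h6, h7]
    -- a free colour
    obtain ⟨a, ha⟩ : ∃ a : Fin N, a ∉ Nb.image c := by
      have : (Nb.image c).card < (Finset.univ : Finset (Fin N)).card := by
        rw [Finset.card_univ, Fintype.card_fin]
        exact lt_of_le_of_lt Finset.card_image_le hcard
      obtain ⟨a, _, ha⟩ := Finset.exists_mem_notMem_of_card_lt_card this
      exact ⟨a, ha⟩
    have key : ∀ F ∈ B, F ≠ E0 → a = c F → Disjoint E0 F := by
      intro F hF hne' hcF
      by_contra hdis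
      apply ha
      rw [hcF]
      exact Finset.mem_image_of_mem _ (Finset.mem_filter.2 ⟨Finset.mem_erase.2 ⟨hne', hF⟩, hdis⟩)
    refine ⟨Function.update c E0 a, ?_⟩
    intro E hE F hF hEF hcol
    by_cases h1 : E = E0
    · subst h1
      rw [Function.update_self, Function.update_of_ne hEF.symm] at hcol
      exact key F hF hEF.symm hcol
    · by_cases h2 : F = E0
      · subst h2
        rw [Function.update_self, Function.update_of_ne hEF] at hcol
        exact (key E hE hEF hcol.symm).symm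
      · rw [Function.update_of_ne h1, Function.update_of_ne h2] at hcol
        exact hc E (Finset.mem_erase.2 ⟨h1, hE⟩) F (Finset.mem_erase.2 ⟨h2, hF⟩) hEF hcol

/-- small edges (at most `k` vertices) and large edges (more than `K` vertices) together -/
theorem ar_combine (k K D : ℕ) (hk : 1 ≤ k) (hkK : k ≤ K) (hD1 : 1 ≤ D)
    (hbr : ∀ S : Finset (Finset V), (∀ E ∈ S, E.card ≤ k) →
      (∀ E ∈ S, ∀ F ∈ S, E ≠ F → (E ∩ F).card ≤ 1) →
      (∀ x, ∑ E ∈ S.filter (fun E => x ∈ E), (E.card - 1) ≤ D) →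
      ∀ w : Finset V → ℝ, (∀ E ∈ S, 0 ≤ w E) →
      ∃ M : Finset (Finset V), M ⊆ S ∧ (∀ E ∈ M, ∀ F ∈ M, E ≠ F → Disjoint E F) ∧
        (∑ E ∈ S, w E) / ((D : ℝ) + 1) ≤ ∑ E ∈ M, w E)
    (H : Finset (Finset V)) (hlin : ∀ E ∈ H, ∀ F ∈ H, E ≠ F → (E ∩ F).card ≤ 1)
    (hD : ∀ x, ∑ E ∈ H.filter (fun E => x ∈ E), (E.card - 1) ≤ D)
    (w : Finset V → ℝ) (hw : ∀ E ∈ H, 0 ≤ w E) :
    ∃ M : Finset (Finset V), M ⊆ H ∧ (∀ E ∈ M, ∀ F ∈ M, E ≠ F → Disjoint E F) ∧
      (1 - (k : ℝ) / K) * ((∑ E ∈ H.filter (fun E => E.card ≤ k), w E) +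
        ∑ E ∈ H.filter (fun E => K < E.card), w E) / ((D : ℝ) + 1) ≤ ∑ E ∈ M, w E := by
  set S := H.filter (fun E => E.card ≤ k) with hS
  set B := H.filter (fun E => K < E.card) with hB
  have hSH : S ⊆ H := Finset.filter_subset _ _
  have hBH : B ⊆ H := Finset.filter_subset _ _
  have hSk : ∀ E ∈ S, E.card ≤ k := fun E hE => (Finset.mem_filter.1 hE).2
  have hBK : ∀ E ∈ B, K + 1 ≤ E.card := fun E hE => (Finset.mem_filter.1 hE).2
  have hsub : ∀ T : Finset (Finset V), T ⊆ H →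
      ∀ x, ∑ E ∈ T.filter (fun E => x ∈ E), (E.card - 1) ≤ D := fun T hT x =>
    le_trans (Finset.sum_le_sum_of_subset (Finset.filter_subset_filter _ hT)) (hD x)
  -- the number of colours
  have hK1 : 1 ≤ K := hk.trans hkK
  obtain ⟨N, hN1, hN2⟩ : ∃ N : ℕ, D * (K + 1) ≤ N * K ∧ N * K ≤ (D + 1) * (K + 1) := by
    refine ⟨D * (K + 1) / K + 1, ?_, ?_⟩
    · have h1 := Nat.div_add_mod (D * (K + 1)) K
      have h2 := Nat.mod_lt (D * (K + 1)) hK1
      nlinarith
    · have h1 := Nat.div_mul_le_self (D * (K + 1)) K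
      nlinarith
  have hDN : D ≤ N := by
    by_contra hcon
    push Not at hcon
    have : N * K ≤ D * K := Nat.mul_le_mul_right _ hcon.le
    nlinarith
  have hN0 : 0 < N := lt_of_lt_of_le hD1 hDN
  obtain ⟨c, hc⟩ := ar_greedy K N D hK1 hN0 hN1 B.card B rfl hBK (hsub B hBH)
  -- the matchings
  let Mi : Fin N → Finset (Finset V) := fun i => B.filter (fun E => c E = i)
  let Si : Fin N → Finset (Finset V) := fun i => S.filter (fun E => ∀ F ∈ Mi i, Disjoint E F)
  have hSiS : ∀ i, Si i ⊆ S := fun i => Finset.filter_subset _ _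
  have hex : ∀ i, ∃ M : Finset (Finset V), M ⊆ Si i ∧
      (∀ E ∈ M, ∀ F ∈ M, E ≠ F → Disjoint E F) ∧
      (∑ E ∈ Si i, w E) / ((D : ℝ) + 1) ≤ ∑ E ∈ M, w E := fun i =>
    hbr (Si i) (fun E hE => hSk E (hSiS i hE))
      (fun E hE F hF => hlin E (hSH (hSiS i hE)) F (hSH (hSiS i hF)))
      (hsub _ ((hSiS i).trans hSH)) w (fun E hE => hw E (hSH (hSiS i hE)))
  choose M' hM'1 hM'2 hM'3 using hex
  have hMdis : ∀ i, Disjoint (Mi i) (M' i) := by
    intro i
    rw [Finset.disjoint_left]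
    intro E hE hE'
    have h1 := hBK E (Finset.mem_filter.1 hE).1
    have h2 := hSk E (hSiS i (hM'1 i hE'))
    omega
  -- the count of colours good for a small edge
  have hcount : ∀ E ∈ S, (N : ℝ) - (k : ℝ) * D / K ≤
      ((Finset.univ.filter (fun i : Fin N => E ∈ Si i)).card : ℝ) := by
    intro E hE
    have h1 : (Finset.univ.filter (fun i : Fin N => ¬ E ∈ Si i)) ⊆
        (B.filter (fun F => ¬ Disjoint E F)).image c := by
      intro i hi
      have hi' := (Finset.mem_filter.1 hi).2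
      have : ¬ ∀ F ∈ Mi i, Disjoint E F := fun h => hi' (Finset.mem_filter.2 ⟨hE, h⟩)
      push Not at this
      obtain ⟨F, hF, hdis⟩ := this
      rw [Finset.mem_image]
      exact ⟨F, Finset.mem_filter.2 ⟨(Finset.mem_filter.1 hF).1, hdis⟩, (Finset.mem_filter.1 hF).2⟩
    have h2 : (Finset.univ.filter (fun i : Fin N => ¬ E ∈ Si i)).card ≤
        (B.filter (fun F => ¬ Disjoint E F)).card :=
      (Finset.card_le_card h1).trans Finset.card_image_le
    have h3 := ar_meet B K D hBK (hsub B hBH) E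
    have h4 : (Finset.univ.filter (fun i : Fin N => E ∈ Si i)).card +
        (Finset.univ.filter (fun i : Fin N => ¬ E ∈ Si i)).card = N := by
      rw [Finset.card_filter_add_card_filter_not, Finset.card_univ, Fintype.card_fin]
    have h5 : (Finset.univ.filter (fun i : Fin N => ¬ E ∈ Si i)).card * K ≤ k * D :=
      (Nat.mul_le_mul_right _ h2).trans (h3.trans (Nat.mul_le_mul_right _ (hSk E hE)))
    have hKpos : (0 : ℝ) < K := by exact_mod_cast hK1
    have h6 : ((Finset.univ.filter (fun i : Fin N => ¬ E ∈ Si i)).card : ℝ) ≤ (k : ℝ) * D / K := by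
      rw [le_div_iff₀ hKpos]
      exact_mod_cast h5
    have h7 : ((Finset.univ.filter (fun i : Fin N => E ∈ Si i)).card : ℝ) +
        ((Finset.univ.filter (fun i : Fin N => ¬ E ∈ Si i)).card : ℝ) = N := by exact_mod_cast h4
    linarith
  set wB := ∑ E ∈ B, w E with hwB
  set wS := ∑ E ∈ S, w E with hwS
  have hwB0 : 0 ≤ wB := Finset.sum_nonneg fun E hE => hw E (hBH hE)
  have hwS0 : 0 ≤ wS := Finset.sum_nonneg fun E hE => hw E (hSH hE)
  have hsumB : ∑ i, ∑ E ∈ Mi i, w E = wB :=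
    Finset.sum_fiberwise B c w
  have hsumS : ((N : ℝ) - (k : ℝ) * D / K) * wS ≤ ∑ i, ∑ E ∈ Si i, w E := by
    have h1 : ∑ i, ∑ E ∈ Si i, w E =
        ∑ E ∈ S, ((Finset.univ.filter (fun i : Fin N => E ∈ Si i)).card : ℝ) * w E := by
      have h2 : ∀ i, ∑ E ∈ Si i, w E = ∑ E ∈ S, if E ∈ Si i then w E else 0 := by
        intro i
        rw [← Finset.sum_filter]
        apply Finset.sum_congr _ (fun _ _ => rfl)
        ext E
        exact ⟨fun h => Finset.mem_filter.2 ⟨hSiS i h, h⟩, fun h => (Finset.mem_filter.1 h).2⟩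
      rw [Finset.sum_congr rfl (fun i _ => h2 i), Finset.sum_comm]
      apply Finset.sum_congr rfl
      intro E _
      rw [← Finset.sum_filter, Finset.sum_const, nsmul_eq_mul]
    rw [h1, hwS, Finset.mul_sum]
    exact Finset.sum_le_sum fun E hE => mul_le_mul_of_nonneg_right (hcount E hE) (hw E (hSH hE))
  have hDpos : (0 : ℝ) < (D : ℝ) + 1 := by positivity
  have hKpos : (0 : ℝ) < K := by exact_mod_cast hK1
  have hNpos : (0 : ℝ) < N := by exact_mod_cast hN0
  have htotal : wB + ((N : ℝ) - (k : ℝ) * D / K) * wS / ((D : ℝ) + 1) ≤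
      ∑ i, (∑ E ∈ Mi i, w E + ∑ E ∈ M' i, w E) := by
    rw [Finset.sum_add_distrib, hsumB]
    have h1 : ∑ i, (∑ E ∈ Si i, w E) / ((D : ℝ) + 1) ≤ ∑ i, ∑ E ∈ M' i, w E :=
      Finset.sum_le_sum fun i _ => hM'3 i
    rw [← Finset.sum_div] at h1
    have h2 : ((N : ℝ) - (k : ℝ) * D / K) * wS / ((D : ℝ) + 1) ≤
        (∑ i, ∑ E ∈ Si i, w E) / ((D : ℝ) + 1) := div_le_div_of_nonneg_right hsumS hDpos.le
    linarith
  -- the averages
  have hgoal : (N : ℝ) * ((1 - (k : ℝ) / K) * (wS + wB) / ((D : ℝ) + 1)) ≤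
      wB + ((N : ℝ) - (k : ℝ) * D / K) * wS / ((D : ℝ) + 1) := by
    have hkR : (1 : ℝ) ≤ k := by exact_mod_cast hk
    have hkK' : (k : ℝ) ≤ K := by exact_mod_cast hkK
    have hN2' : (N : ℝ) * K ≤ ((D : ℝ) + 1) * (K + 1) := by exact_mod_cast hN2
    have hDN' : (D : ℝ) ≤ N := by exact_mod_cast hDN
    have e1 : (N : ℝ) * (1 - (k : ℝ) / K) ≤ (D : ℝ) + 1 := by
      have e2 : (N : ℝ) * (1 - (k : ℝ) / K) = N * (K - k) / K := by
        field_simp
      rw [e2, div_le_iff₀ hKpos]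
      have e3 : (N : ℝ) * K * (K - k) ≤ ((D : ℝ) + 1) * (K + 1) * (K - k) :=
        mul_le_mul_of_nonneg_right hN2' (by linarith)
      have e4 : ((K : ℝ) + 1) * (K - k) ≤ K * K := by nlinarith
      have e5 : ((D : ℝ) + 1) * ((K + 1) * (K - k)) ≤ ((D : ℝ) + 1) * (K * K) :=
        mul_le_mul_of_nonneg_left e4 hDpos.le
      have e6 : (N : ℝ) * (K - k) * K ≤ (((D : ℝ) + 1) * K) * K := by nlinarith
      exact le_of_mul_le_mul_right e6 hKpos
    have e7 : (N : ℝ) * (1 - (k : ℝ) / K) ≤ (N : ℝ) - (k : ℝ) * D / K := by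
      have : (k : ℝ) * D / K ≤ (k : ℝ) * N / K :=
        div_le_div_of_nonneg_right (mul_le_mul_of_nonneg_left hDN' (by linarith)) hKpos.le
      have e8 : (N : ℝ) * (1 - (k : ℝ) / K) = N - (k : ℝ) * N / K := by ring
      rw [e8]; linarith
    have e9 : (N : ℝ) * ((1 - (k : ℝ) / K) * (wS + wB) / ((D : ℝ) + 1)) =
        ((N : ℝ) * (1 - (k : ℝ) / K)) * wB / ((D : ℝ) + 1) +
        ((N : ℝ) * (1 - (k : ℝ) / K)) * wS / ((D : ℝ) + 1) := by ring
    rw [e9]
    have e10 : ((N : ℝ) * (1 - (k : ℝ) / K)) * wB / ((D : ℝ) + 1) ≤ wB := by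
      rw [div_le_iff₀ hDpos, mul_comm wB]
      exact mul_le_mul_of_nonneg_right e1 hwB0
    have e11 : ((N : ℝ) * (1 - (k : ℝ) / K)) * wS / ((D : ℝ) + 1) ≤
        ((N : ℝ) - (k : ℝ) * D / K) * wS / ((D : ℝ) + 1) :=
      div_le_div_of_nonneg_right (mul_le_mul_of_nonneg_right e7 hwS0) hDpos.le
    linarith
  obtain ⟨i, hi⟩ : ∃ i : Fin N, (1 - (k : ℝ) / K) * (wS + wB) / ((D : ℝ) + 1) ≤
      ∑ E ∈ Mi i, w E + ∑ E ∈ M' i, w E := by
    by_contra hcon
    push Not at hcon
    have hlt : ∑ i, (∑ E ∈ Mi i, w E + ∑ E ∈ M' i, w E) <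
        ∑ _i : Fin N, (1 - (k : ℝ) / K) * (wS + wB) / ((D : ℝ) + 1) := by
      apply Finset.sum_lt_sum_of_nonempty
      · exact ⟨⟨0, hN0⟩, Finset.mem_univ _⟩
      · intro i _; exact hcon i
    rw [Finset.sum_const, Finset.card_univ, Fintype.card_fin, nsmul_eq_mul] at hlt
    linarith
  refine ⟨Mi i ∪ M' i, ?_, ?_, ?_⟩
  · exact Finset.union_subset ((Finset.filter_subset _ _).trans hBH)
      ((hM'1 i).trans ((hSiS i).trans hSH))
  · intro E hE F hF hEF
    rw [Finset.mem_union] at hE hF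
    rcases hE with hE | hE <;> rcases hF with hF | hF
    · exact hc E (Finset.mem_filter.1 hE).1 F (Finset.mem_filter.1 hF).1 hEF
        ((Finset.mem_filter.1 hE).2.trans (Finset.mem_filter.1 hF).2.symm)
    · exact ((Finset.mem_filter.1 (hM'1 i hF)).2 E hE).symm
    · exact (Finset.mem_filter.1 (hM'1 i hE)).2 F hF
    · exact hM'2 i E hE F hF hEF
  · rw [Finset.sum_union (hMdis i)]
    exact hi

/-- all ranks, asymptotically -/
theorem ar_all (hmain : StMain) (ε : ℝ) (hε : 0 < ε) : ∃ D0 : ℕ, ∀ (V : Type) [Fintype V]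
    [DecidableEq V] (H : Finset (Finset V)) (D : ℕ), D0 ≤ D →
    (∀ E ∈ H, ∀ F ∈ H, E ≠ F → (E ∩ F).card ≤ 1) →
    (∀ x, ∑ E ∈ H.filter (fun E => x ∈ E), (E.card - 1) ≤ D) →
    ∀ w : Finset V → ℝ, (∀ E ∈ H, 0 ≤ w E) →
    ∃ M : Finset (Finset V), M ⊆ H ∧ (∀ E ∈ M, ∀ F ∈ M, E ≠ F → Disjoint E F) ∧
      (1 - ε) * (∑ E ∈ H, w E) / ((D : ℝ) + 1) ≤ ∑ E ∈ M, w E := by
  choose f hf using hmain
  obtain ⟨R0, hR0⟩ := exists_nat_ge (2 / ε)
  set R := max R0 2 with hR
  have hR2 : 2 ≤ R := le_max_right _ _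
  have hRε : 2 / ε ≤ (R : ℝ) := hR0.trans (by exact_mod_cast le_max_left _ _)
  refine ⟨max 1 ((Finset.range R).sup (fun i => f (R ^ i))), ?_⟩
  intro V _ _ H D hDD hlin hD w hw
  have hD1 : 1 ≤ D := (le_max_left _ _).trans hDD
  have hDf : ∀ i ∈ Finset.range R, f (R ^ i) ≤ D := fun i hi =>
    (Finset.le_sup (f := fun i => f (R ^ i)) hi).trans ((le_max_right _ _).trans hDD)
  set W := ∑ E ∈ H, w E with hW
  have hW0 : 0 ≤ W := Finset.sum_nonneg hw
  have hRpos : (0 : ℝ) < R := by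
    have : (2 : ℝ) ≤ R := by exact_mod_cast hR2
    linarith
  -- a class of medium edges of small weight
  obtain ⟨i, hi, hwi⟩ : ∃ i ∈ Finset.range R,
      ∑ E ∈ H.filter (fun E => R ^ i < E.card ∧ E.card ≤ R ^ (i + 1)), w E ≤ W / R := by
    by_contra hcon
    push Not at hcon
    have h1 : ∑ _i ∈ Finset.range R, W / R <
        ∑ i ∈ Finset.range R, ∑ E ∈ H.filter (fun E => R ^ i < E.card ∧ E.card ≤ R ^ (i + 1)), w E :=
      Finset.sum_lt_sum_of_nonempty ⟨0, Finset.mem_range.2 (by omega)⟩ hcon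
    rw [Finset.sum_const, Finset.card_range, nsmul_eq_mul, mul_div_cancel₀ _ hRpos.ne'] at h1
    have h2 : ∑ i ∈ Finset.range R, ∑ E ∈ H.filter
        (fun E => R ^ i < E.card ∧ E.card ≤ R ^ (i + 1)), w E ≤ W := by
      rw [Finset.sum_congr rfl (fun i _ => Finset.sum_filter _ _), Finset.sum_comm]
      apply Finset.sum_le_sum
      intro E hE
      rw [← Finset.sum_filter, Finset.sum_const, nsmul_eq_mul]
      have h3 : ((Finset.range R).filter
          (fun i => R ^ i < E.card ∧ E.card ≤ R ^ (i + 1))).card ≤ 1 := by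
        rw [Finset.card_le_one]
        intro a ha b hb
        have ha' := (Finset.mem_filter.1 ha).2
        have hb' := (Finset.mem_filter.1 hb).2
        by_contra hab
        rcases lt_or_gt_of_ne hab with h | h
        · have : R ^ (a + 1) ≤ R ^ b := Nat.pow_le_pow_right (by omega) h
          omega
        · have : R ^ (b + 1) ≤ R ^ a := Nat.pow_le_pow_right (by omega) h
          omega
      have h4 : (((Finset.range R).filter
          (fun i => R ^ i < E.card ∧ E.card ≤ R ^ (i + 1))).card : ℝ) ≤ 1 := by exact_mod_cast h3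
      calc _ ≤ 1 * w E := mul_le_mul_of_nonneg_right h4 (hw E hE)
        _ = w E := one_mul _
    linarith
  obtain ⟨M, hM1, hM2, hM3⟩ := ar_combine (R ^ i) (R ^ (i + 1)) D (Nat.one_le_pow _ _ (by omega))
    (Nat.pow_le_pow_right (by omega) (Nat.le_succ i)) hD1
    (fun S hS1 hS2 hS3 w' hw' => hf (R ^ i) V S D (hDf i hi) hS1 hS2 hS3 w' hw') H hlin hD w hw
  refine ⟨M, hM1, hM2, le_trans ?_ hM3⟩
  have hsplit : W = (∑ E ∈ H.filter (fun E => E.card ≤ R ^ i), w E) +
      (∑ E ∈ H.filter (fun E => R ^ i < E.card ∧ E.card ≤ R ^ (i + 1)), w E) +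
      ∑ E ∈ H.filter (fun E => R ^ (i + 1) < E.card), w E := by
    rw [hW, Finset.sum_filter, Finset.sum_filter, Finset.sum_filter, ← Finset.sum_add_distrib,
      ← Finset.sum_add_distrib]
    apply Finset.sum_congr rfl
    intro E _
    have hle : R ^ i ≤ R ^ (i + 1) := Nat.pow_le_pow_right (by omega) (Nat.le_succ i)
    by_cases h1 : E.card ≤ R ^ i
    · rw [if_pos h1, if_neg (by omega), if_neg (by omega)]; ring
    · by_cases h2 : E.card ≤ R ^ (i + 1)
      · rw [if_neg h1, if_pos (by omega), if_neg (by omega)]; ring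
      · rw [if_neg h1, if_neg (by omega), if_pos (by omega)]; ring
  have hratio : ((R ^ i : ℕ) : ℝ) / ((R ^ (i + 1) : ℕ) : ℝ) = 1 / R := by
    push_cast
    rw [pow_succ]
    have : (R : ℝ) ^ i ≠ 0 := pow_ne_zero _ hRpos.ne'
    field_simp
  rw [hratio]
  have hDpos : (0 : ℝ) < (D : ℝ) + 1 := by positivity
  apply div_le_div_of_nonneg_right _ hDpos.le
  have hR1 : 1 / (R : ℝ) ≤ 1 := by
    rw [div_le_one hRpos]
    have : (2 : ℝ) ≤ R := by exact_mod_cast hR2
    linarith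
  have h1 : W - W / R ≤ (∑ E ∈ H.filter (fun E => E.card ≤ R ^ i), w E) +
      ∑ E ∈ H.filter (fun E => R ^ (i + 1) < E.card), w E := by linarith
  have h2 : (1 - 1 / (R : ℝ)) * (W - W / R) ≤ (1 - 1 / (R : ℝ)) *
      ((∑ E ∈ H.filter (fun E => E.card ≤ R ^ i), w E) +
      ∑ E ∈ H.filter (fun E => R ^ (i + 1) < E.card), w E) :=
    mul_le_mul_of_nonneg_left h1 (by linarith)
  refine le_trans ?_ h2
  have h3 : 2 / (R : ℝ) ≤ ε := by
    rw [div_le_iff₀ hRpos]
    rw [div_le_iff₀ hε] at hRε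
    linarith
  have h4 : (1 - 1 / (R : ℝ)) * (W - W / R) = W - 2 / R * W + (1 / R) ^ 2 * W := by ring
  rw [h4]
  have h5 : 2 / (R : ℝ) * W ≤ ε * W := mul_le_mul_of_nonneg_right h3 hW0
  have h6 : 0 ≤ (1 / (R : ℝ)) ^ 2 * W := by positivity
  linarith

end Pool.Agent.JR
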