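import Pool.Agent.JR.Defs
import Pool.Agent.LawB.Rpt

/-!
# JR: the law conditioned on a free vertex
-/

set_option autoImplicit false

namespace Pool.Agent.JR

open Finset
open Pool.Agent.LawB (ev ins ali Law CB NB Conc CC ali_mem)

variable {V : Type*} [Fintype V] [DecidableEq V]

omit [Fintype V] in
lemma Big.nonempty {k N : ℕ} {H : Finset (Finset V)} (h : Big k N H) :
    ∀ F ∈ H, F.Nonempty := by
  intro F hF
  rw [← Finset.card_pos]
  have := h.three F hF
  omega

omit [Fintype V] in
/-- `2 b ≤ t` -/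
lemma Big.two_bd_le {k N : ℕ} {H : Finset (Finset V)} (h : Big k N H) (x : V) :
    2 * bd H x ≤ td H x := by
  unfold bd td
  rw [Finset.card_eq_sum_ones, Finset.mul_sum]
  apply Finset.sum_le_sum
  intro F hF
  have := h.three F (Finset.mem_filter.1 hF).1
  omega

omit [Fintype V] in
/-- `t ≤ k b` -/
lemma Big.td_le {k N : ℕ} {H : Finset (Finset V)} (h : Big k N H) (x : V) :
    td H x ≤ k * bd H x := by
  unfold bd td
  rw [Finset.card_eq_sum_ones, Finset.mul_sum]
  apply Finset.sum_le_sum
  intro F hF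
  have := h.card F (Finset.mem_filter.1 hF).1
  omega

omit [Fintype V] in
lemma Big.two_bd_lt {k N : ℕ} {H : Finset (Finset V)} (h : Big k N H) (x : V) :
    2 * bd H x + 1 ≤ N := by
  have h1 := h.two_bd_le x
  have h2 := h.deg x
  omega

/-- LAW B for the big edges, with concentration -/
theorem Big.exists_law {k N : ℕ} (hk : 0 < k) (hN : NB k ≤ N) {H : Finset (Finset V)}
    (h : Big k N H) : ∃ w : Finset (Finset V) → ℝ, Law (CB k) N H w ∧ Conc (CC k) N H w := by
  refine LawB.exists_law_conc k hk H N hN (fun F hF => ⟨h.nonempty F hF, h.card F hF⟩) h.lin ?_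
  intro x
  have := h.two_bd_lt x
  unfold bd at this
  omega

/-- the chance that `v` is free -/
theorem free_eq {C : ℝ} {N : ℕ} {H : Finset (Finset V)} {w : Finset (Finset V) → ℝ}
    (h : Law C N H w) (v : V) : ev w (ali {v}) = 1 - (bd H v : ℝ) / N := h.free v

theorem half_le_free {C : ℝ} {k N : ℕ} {H : Finset (Finset V)} {w : Finset (Finset V) → ℝ}
    (hB : Big k N H) (h : Law C N H w) (v : V) : 1 / 2 ≤ ev w (ali {v}) := by
  rw [free_eq h v]
  have h1 := hB.two_bd_lt v
  have h2 : 2 * (bd H v : ℝ) ≤ N := by exact_mod_cast (by omega : 2 * bd H v ≤ N)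
  have hN : (0 : ℝ) < N := by
    have : 0 < N := by omega
    exact_mod_cast this
  have h3 : (bd H v : ℝ) / N ≤ 1 / 2 := by
    rw [div_le_iff₀ hN]; linarith
  linarith

/-- the law conditioned on `v` free -/
noncomputable def wv (w : Finset (Finset V) → ℝ) (v : V) : Finset (Finset V) → ℝ :=
  fun B => w B * ali {v} B / ev w (ali {v})

lemma ev_wv (w : Finset (Finset V) → ℝ) (v : V) (g : Finset (Finset V) → ℝ) :
    ev (wv w v) g = ev w (fun B => ali {v} B * g B) / ev w (ali {v}) := by
  unfold ev wv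
  rw [Finset.sum_div]
  apply Finset.sum_congr rfl
  intro B _
  unfold ev
  ring

/-- the constant of the conditioned law -/
noncomputable def Kq (k : ℕ) : ℝ := 16 * (k : ℝ) ^ 2 * CB k

theorem qlaw_v {k N : ℕ} (hk : 0 < k) {H : Finset (Finset V)} {w : Finset (Finset V) → ℝ}
    (hB : Big k N H) (h : Law (CB k) N H w) (v : V) :
    QLaw (Kq k) N (H.filter fun F => v ∉ F) (wv w v) := by
  have hP := half_le_free hB h v
  have hP0 : 0 < ev w (ali {v}) := by linarith
  have hN1 : 1 ≤ N := by have := hB.two_bd_lt v; omega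
  have hNr : (0 : ℝ) < N := by exact_mod_cast hN1
  refine ⟨?_, ?_, ?_, ?_⟩
  · intro B
    exact div_nonneg (mul_nonneg (h.nonneg B) (ali_mem {v} B).1) hP0.le
  · have h1 := ev_wv w v (fun _ => 1)
    unfold ev at h1
    simp only [mul_one] at h1
    rw [h1]
    have h2 : ev w (ali {v}) = ∑ B, w B * ali {v} B := rfl
    rw [← h2]
    exact div_self hP0.ne'
  · intro B hB0
    have hw : w B ≠ 0 := by
      intro h0
      apply hB0
      unfold wv
      rw [h0]; simp
    have ha : ali {v} B ≠ 0 := by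
      intro h0
      apply hB0
      unfold wv
      rw [h0]; simp
    have hv : v ∉ LawB.cov B := by
      intro hv
      apply ha
      unfold ali
      rw [if_neg]
      simpa using hv
    obtain ⟨h1, h2⟩ := h.supp B hw
    refine ⟨fun F hF => Finset.mem_filter.2 ⟨h1 hF, fun hvF => ?_⟩, h2⟩
    exact hv (Finset.mem_biUnion.2 ⟨F, hF, hvF⟩)
  · intro A hA hPD
    have hCB := LawB.one_le_CB k
    have h1 := h.rpt_free hCB hN1 k hk (fun F hF => ⟨hB.nonempty F hF, hB.card F hF⟩) {v} A
      (fun F hF => (Finset.mem_filter.1 (hA hF)).1) hPD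
      (fun F hF => Finset.disjoint_singleton_right.2 (Finset.mem_filter.1 (hA hF)).2)
    rw [Finset.card_singleton] at h1
    rw [ev_wv]
    have e1 : (fun B => ali {v} B * ins A B) = fun B => ins A B * ali {v} B := by
      funext B; ring
    rw [e1]
    set E := ev w (fun B => ins A B * ali {v} B) with hE
    set P := ev w (ali {v}) with hPdef
    set r := A.card with hr
    set D := 4 * (k : ℝ) ^ 2 * CB k with hD
    have hD0 : 0 < D := by
      have : (0 : ℝ) < k := by exact_mod_cast hk
      have := LawB.CB_pos k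
      positivity
    have e2 : E / P - (1 / (N : ℝ)) ^ r = ((N : ℝ) ^ r * E - P) / (P * (N : ℝ) ^ r) := by
      rw [one_div, inv_pow]
      field_simp
    rw [e2, abs_div, abs_of_pos (by positivity : 0 < P * (N : ℝ) ^ r), div_le_iff₀ (by positivity)]
    refine h1.trans ?_
    have e3 : Kq k = 4 * D := by unfold Kq; rw [hD]; ring
    rw [e3]
    have h4 : (4 : ℝ) ≤ 4 ^ (r + 1) := by
      have : (1 : ℝ) ≤ 4 ^ r := one_le_pow₀ (by norm_num)
      rw [pow_succ]; linarith
    have h5 : ((1 : ℕ) + 1 : ℝ) * D ^ (r + 1) / N = (2 * D ^ (r + 1)) / N := by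
      push_cast; ring
    rw [h5]
    have e6 : (4 * D / N) ^ (r + 1) * (P * (N : ℝ) ^ r) = (4 ^ (r + 1) * P * D ^ (r + 1)) / N := by
      rw [div_pow, mul_pow, pow_succ (N : ℝ) r]
      field_simp
    rw [e6]
    apply div_le_div_of_nonneg_right _ hNr.le
    have h7 : (2 : ℝ) ≤ 4 ^ (r + 1) * P := by nlinarith
    exact mul_le_mul_of_nonneg_right h7 (by positivity)

end Pool.Agent.JR
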