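import Mathlib
import Pool.Agent.LawB.Cor
import Pool.Agent.FBR.Feas

/-!
# JR: common definitions for the criterion

`H` is here always the set of the big edges (size at least three).
-/

set_option autoImplicit false

namespace Pool.Agent.JR

open Finset
open Pool.Agent.LawB (ev ins ali Law)

variable {V : Type*} [DecidableEq V]

/-- the number of edges at `x` -/
def bd (H : Finset (Finset V)) (x : V) : ℕ := (H.filter fun F => x ∈ F).card

/-- the degree of `x` in the 2-section -/
def td (H : Finset (Finset V)) (x : V) : ℕ := ∑ F ∈ H.filter (fun F => x ∈ F), (F.card - 1)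

/-- `H` is a linear set of big edges of size at most `k` with 2-section degrees less than `N` -/
structure Big (k N : ℕ) (H : Finset (Finset V)) : Prop where
  three : ∀ F ∈ H, 3 ≤ F.card
  card : ∀ F ∈ H, F.card ≤ k
  lin : ∀ F ∈ H, ∀ G ∈ H, F ≠ G → (F ∩ G).card ≤ 1
  deg : ∀ x, td H x + 1 ≤ N

/-- pairwise disjoint -/
def PD (A : Finset (Finset V)) : Prop := ∀ F ∈ A, ∀ G ∈ A, F ≠ G → Disjoint F G

/-- a random matching of `H` all of whose finite correlation functions are close to those of
independent edges with chance `1 / N` -/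
structure QLaw [Fintype V] (K : ℝ) (N : ℕ) (H : Finset (Finset V)) (w : Finset (Finset V) → ℝ) :
    Prop where
  nonneg : ∀ B, 0 ≤ w B
  total : ∑ B, w B = 1
  supp : ∀ B, w B ≠ 0 → B ⊆ H ∧ PD B
  rpt : ∀ A ⊆ H, PD A → |ev w (ins A) - (1 / N) ^ A.card| ≤ (K / N) ^ (A.card + 1)

/-- `X`: a free vertex counts `x w`, a covered vertex counts `-1` -/
noncomputable def Xv (W : Finset V) (x : V → ℝ) (B : Finset (Finset V)) : ℝ :=
  ∑ w ∈ W, if w ∈ LawB.cov B then -1 else x w

/-- the number of covered vertices of `W` -/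
noncomputable def Yv (W : Finset V) (B : Finset (Finset V)) : ℝ := ((W ∩ LawB.cov B).card : ℝ)

/-- indicator of: some vertex of `W` is covered -/
noncomputable def hit (W : Finset V) (B : Finset (Finset V)) : ℝ :=
  if Disjoint W (LawB.cov B) then 0 else 1

noncomputable def phi (x : ℝ) : ℝ := min x (min (x / 2) 1)

noncomputable def Psi (rho err z x : ℝ) : ℝ := min (x + rho) (min ((x - err) / 2) (1 + z))

/-- `err` of the value lemma -/
noncomputable def errv (M : ℝ) (U : Finset V) (B : Finset (Finset V)) : ℝ :=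
  2 * Yv U B / M + max 0 (Yv U B - 0.45 * M)

/-- the uncapped value `t_w / (N - t_w)` -/
noncomputable def xu (H : Finset (Finset V)) (N : ℕ) (w : V) : ℝ :=
  (td H w : ℝ) / ((N : ℝ) - td H w)

/-- the value capped at `c` -/
noncomputable def xc (H : Finset (Finset V)) (N : ℕ) (c : ℝ) (w : V) : ℝ := min (xu H N w) c

/-- the weight of the edge `F`: the sum of `1 + x w` over the vertices of `F` in `R` -/
noncomputable def aw (R : Finset V) (x : V → ℝ) (F : Finset V) : ℝ := ∑ w ∈ F ∩ R, (1 + x w)

/-- the number of marked edges at `w`, for a vertex with at most two big edges -/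
def mk (H Mk : Finset (Finset V)) (w : V) : ℕ :=
  if bd H w ≤ 2 then (Mk.filter fun F => w ∈ F).card else 0

/-- the total load `∑ b_w / N` of `W` -/
noncomputable def load (H : Finset (Finset V)) (N : ℕ) (W : Finset V) : ℝ :=
  ∑ w ∈ W, (bd H w : ℝ) / N

/-- very heavy: `b_w ≥ 0.4 N` -/
def vh (H : Finset (Finset V)) (N : ℕ) (w : V) : Prop := 2 * N ≤ 5 * bd H w

/-- the variance functional -/
noncomputable def VF (H : Finset (Finset V)) (N : ℕ) (a : Finset V → ℝ) : ℝ :=
  (∑ F ∈ H, a F ^ 2) / N -
    (∑ F ∈ H, ∑ G ∈ H.filter (fun G => ¬ Disjoint F G), a F * a G) / (N : ℝ) ^ 2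

end Pool.Agent.JR
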