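import Mathlib
import Pool.Agent.JR.Defs

/-!
# JR: the targets of section 4
-/

set_option autoImplicit false

namespace Pool.Agent.JR

open Finset
open Pool.Agent.LawB (ev ins ali Law)

/-- additive functional of the matching -/
def Ja {V : Type*} (a : Finset V → ℝ) (B : Finset (Finset V)) : ℝ := ∑ F ∈ B, a F

/-- basic facts on `phi` and `Xv` -/
def StJ1 : Prop :=
  (∀ x s : ℝ, 3 ≤ s → 1 - (x - s) ^ 2 / (4 * (s - 1)) ≤ phi x) ∧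
  (∀ x : ℝ, 1 - 3 * Real.exp (-(2 / 3)) * Real.exp (-x / 3) ≤ phi x) ∧
  (∀ x y : ℝ, x ≤ y → phi x ≤ phi y ∧ phi y ≤ phi x + (y - x)) ∧
  (∀ x : ℝ, phi x ≤ 1 ∧ phi x ≤ x) ∧
  (∀ rho err z x : ℝ, 0 ≤ err → phi (x - max (-rho) 0) - err / 2 - max (-z) 0 ≤ Psi rho err z x) ∧
  (∀ (V : Type) [Fintype V] [DecidableEq V] (W : Finset V) (x : V → ℝ)
    (B : Finset (Finset V)), PD B →
    Xv W x B = ∑ z ∈ W, x z - Ja (aw W x) B)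

/-- thresholds -/
def StJ2 : Prop := ∀ (V : Type) [DecidableEq V] (U : Finset V) (mu : V → ℝ),
  (∀ z ∈ U, 0 ≤ mu z) → (∀ z ∈ U, mu z ≤ 1) → ∃ c : Finset V → ℝ,
    (∀ W, 0 ≤ c W) ∧ (∀ W, c W ≠ 0 → W ⊆ U ∧ ∀ z ∈ W, 0 < mu z) ∧
    ∑ W ∈ U.powerset, c W = 1 ∧
    (∀ z ∈ U, ∑ W ∈ U.powerset.filter (fun W => z ∈ W), c W = mu z) ∧
    (∀ t : ℝ, ∀ T ⊆ U, 0 ≤ t → (∀ z ∈ T, 1 - t ≤ mu z) →
      ∑ W ∈ U.powerset.filter (fun W => ¬ T ⊆ W), c W ≤ t) ∧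
    (∀ rho err z X0 : ℝ, ∀ y i : V → ℝ, (∀ x, 0 ≤ i x) →
      ∑ W ∈ U.powerset, c W * Psi rho err z (X0 + ∑ x ∈ W, y x) - ∑ x ∈ U, (1 - mu x) * i x ≤
        Psi rho err z (X0 + ∑ x ∈ U, (mu x * y x - (1 - mu x) * i x)))

/-- first moments -/
def StQ1 : Prop := ∀ (V : Type) [Fintype V] [DecidableEq V] (k N : ℕ) (K : ℝ)
  (H : Finset (Finset V)) (w : Finset (Finset V) → ℝ) (a : Finset V → ℝ), 0 < N → Big k N H →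
  QLaw K N H w → (∀ F ∈ H, 0 ≤ a F) →
  |ev w (Ja a) - (∑ F ∈ H, a F) / N| ≤ K ^ 2 * ((∑ F ∈ H, a F) / N) / N

/-- second moments -/
def StQ2 : Prop := ∀ (k : ℕ) (K a0 S0 c0 : ℝ), ∃ C : ℝ, ∀ (V : Type) [Fintype V] [DecidableEq V]
  (N : ℕ) (H : Finset (Finset V)) (w : Finset (Finset V) → ℝ) (a : Finset V → ℝ) (c : ℝ), 0 < N →
  Big k N H → QLaw K N H w → (∀ F ∈ H, 0 ≤ a F ∧ a F ≤ a0) → (∑ F ∈ H, a F) / N ≤ S0 → |c| ≤ c0 →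
  ev w (fun B => (Ja a B - c) ^ 2) ≤ ((∑ F ∈ H, a F) / N - c) ^ 2 + VF H N a + C / N

/-- moments with a distinguished vertex `u` -/
def StQ3 : Prop := ∀ (k : ℕ) (K a0 S0 c0 : ℝ), ∃ C : ℝ, ∀ (V : Type) [Fintype V] [DecidableEq V]
  (N : ℕ) (H : Finset (Finset V)) (w : Finset (Finset V) → ℝ) (a : Finset V → ℝ) (c : ℝ) (u : V),
  0 < N → Big k N H → QLaw K N H w → (∀ F ∈ H, 0 ≤ a F ∧ a F ≤ a0) → (∑ F ∈ H, a F) / N ≤ S0 →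
  |c| ≤ c0 →
  |ev w (fun B => if u ∈ LawB.cov B then 1 else 0) - bd H u / N| ≤ C / N ∧
  ev w (fun B => if u ∈ LawB.cov B then 0 else (Ja a B - c) ^ 2) ≤
    (1 - (bd H u : ℝ) / N) * (((∑ F ∈ H.filter (fun F => u ∉ F), a F) / N - c) ^ 2 +
      VF (H.filter fun F => u ∉ F) N a) + C / N ∧
  ev w (fun B => if u ∈ LawB.cov B then (Ja a B - c) ^ 2 else 0) ≤
    (∑ G ∈ H.filter (fun G => u ∈ G), ((a G + (∑ F ∈ H.filter (fun F => u ∉ F), a F) / N - c) ^ 2 +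
      VF (H.filter fun F => u ∉ F) N a)) / N + C / N

end Pool.Agent.JR
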