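import Mathlib
import Pool.Agent.JR.St4

/-!
# JR, module J1: facts on `phi` and `Xv`
-/

set_option autoImplicit false

namespace Pool.Agent.JR

open Finset
open Pool.Agent.LawB (ev ins ali Law)

private theorem J1_a (x s : ℝ) (hs : 3 ≤ s) : 1 - (x - s) ^ 2 / (4 * (s - 1)) ≤ phi x := by
  have h0 : 0 < 4 * (s - 1) := by linarith
  have key : ∀ y : ℝ, (1 - y) * (4 * (s - 1)) ≤ (x - s) ^ 2 →
      1 - (x - s) ^ 2 / (4 * (s - 1)) ≤ y := by
    intro y hy
    have : 1 - y ≤ (x - s) ^ 2 / (4 * (s - 1)) := by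
      rw [le_div_iff₀ h0]
      exact hy
    linarith
  refine le_min (key _ ?_) (le_min (key _ ?_) (key _ ?_))
  · nlinarith [sq_nonneg (x + s - 2)]
  · nlinarith [sq_nonneg (x - 1), mul_nonneg (sub_nonneg.mpr hs) (sub_nonneg.mpr hs)]
  · nlinarith [sq_nonneg (x - s)]

private theorem J1_b (x : ℝ) :
    1 - 3 * Real.exp (-(2 / 3)) * Real.exp (-x / 3) ≤ phi x := by
  have he : 3 * Real.exp (-(2 / 3)) * Real.exp (-x / 3) = 3 * Real.exp ((-2 - x) / 3) := by
    rw [mul_assoc, ← Real.exp_add]
    congr 2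
    ring
  rw [he]
  refine le_min ?_ (le_min ?_ ?_)
  · have := Real.add_one_le_exp ((-2 - x) / 3)
    linarith
  · have h1 := Real.add_one_le_exp ((-2 - x) / 3 + Real.log 2)
    rw [Real.exp_add, Real.exp_log (by norm_num)] at h1
    have h2 := Real.log_two_gt_d9
    linarith
  · have := Real.exp_pos ((-2 - x) / 3)
    linarith

private theorem J1_le (x : ℝ) : phi x ≤ x ∧ phi x ≤ x / 2 ∧ phi x ≤ 1 :=
  ⟨min_le_left _ _, (min_le_right _ _).trans (min_le_left _ _),
    (min_le_right _ _).trans (min_le_right _ _)⟩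

private theorem J1_cov {V : Type} [Fintype V] [DecidableEq V] (W : Finset V) (x : V → ℝ)
    (B : Finset (Finset V)) (hB : PD B) : Xv W x B = ∑ z ∈ W, x z - Ja (aw W x) B := by
  classical
  have h1 : ∀ z : V, (if z ∈ LawB.cov B then (-1 : ℝ) else x z) =
      x z - ∑ F ∈ B, if z ∈ F then 1 + x z else 0 := by
    intro z
    by_cases hz : z ∈ LawB.cov B
    · rw [if_pos hz]
      obtain ⟨F, hF, hzF⟩ : ∃ F ∈ B, z ∈ F := by
        simpa [LawB.cov] using hz
      rw [sum_eq_single F, if_pos hzF]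
      · ring
      · intro G hG hne
        rw [if_neg]
        intro hzG
        exact disjoint_left.mp (hB G hG F hF hne) hzG hzF
      · intro h
        exact absurd hF h
    · rw [if_neg hz, sum_eq_zero, sub_zero]
      intro F hF
      rw [if_neg]
      intro hzF
      apply hz
      simpa [LawB.cov] using ⟨F, hF, hzF⟩
  unfold Xv Ja aw
  rw [sum_congr rfl fun z _ => h1 z, sum_sub_distrib, sum_comm]
  congr 1
  refine sum_congr rfl fun F _ => ?_
  rw [← sum_filter]
  refine sum_congr ?_ fun _ _ => rfl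
  ext z
  rw [mem_filter, mem_inter]
  exact and_comm

/-- **J1**: facts on `phi` and `Xv`. -/
theorem thm_J1 : StJ1 := by
  refine ⟨fun x s hs => J1_a x s hs, J1_b, ?_, fun x => ⟨(J1_le x).2.2, (J1_le x).1⟩, ?_,
    fun V _ _ W x B hB => J1_cov W x B hB⟩
  · intro x y hxy
    obtain ⟨h1, h2, h3⟩ := J1_le x
    obtain ⟨h4, h5, h6⟩ := J1_le y
    refine ⟨le_min (by linarith) (le_min (by linarith) h3), ?_⟩
    have h7 : phi y - (y - x) ≤ phi x :=
      le_min (by linarith) (le_min (by linarith) (by linarith))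
    linarith
  · intro rho err z x he
    obtain ⟨h1, h2, h3⟩ := J1_le (x - max (-rho) 0)
    have a1 := le_max_left (-rho) 0
    have a2 := le_max_right (-rho) 0
    have b1 := le_max_left (-z) 0
    have b2 := le_max_right (-z) 0
    exact le_min (by linarith) (le_min (by linarith) (by linarith))

end Pool.Agent.JR
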