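import Mathlib

/-!
# JR: real inequalities for section 3
-/

set_option autoImplicit false

namespace Pool.Agent.JR

section

variable (N tu tv bu bv : ℝ)

/-- first mean inequality -/
lemma mean_one (h0 : 0 < N) (hbu : 0 ≤ bu) (hbv : 0 ≤ bv) (h1 : 2 * bu ≤ tu) (h2 : tu < N)
    (h3 : 2 * bv ≤ tv) (h4 : 10 * tv ≤ 7 * N) (h5 : tv ≤ tu) (ρ : ℝ)
    (hρ : ρ ≤ 0 ∨ (tv = 0 ∧ ρ ≤ 0.16 * (bu / N))) (p : ℝ) (hp : 1 - bu / (N - bv) ≤ p) :
    0.15 * min ((tu - tv) / (N - tu)) 10 ≤
      (1 + min ((tu - tv) / (N - tu)) 10) * p - 1 + (tv - bv) / (N - bv) - ρ := by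
  have a1 : 0 < N - tu := by linarith
  have a2 : 0 < N - bv := by linarith
  have a3 : 0 ≤ tu - tv := by linarith
  have hη : 0 ≤ (tu - tv) / (N - tu) := div_nonneg a3 a1.le
  have hd : 0 ≤ (tv - bv) / (N - bv) := div_nonneg (by linarith) a2.le
  have hx : 0 ≤ min ((tu - tv) / (N - tu)) 10 := le_min hη (by norm_num)
  have hpm : (1 + min ((tu - tv) / (N - tu)) 10) * (1 - bu / (N - bv))
      ≤ (1 + min ((tu - tv) / (N - tu)) 10) * p :=
    mul_le_mul_of_nonneg_left hp (by linarith)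
  suffices hs : 0.15 * min ((tu - tv) / (N - tu)) 10 ≤
      (1 + min ((tu - tv) / (N - tu)) 10) * (1 - bu / (N - bv)) - 1
        + (tv - bv) / (N - bv) - ρ by linarith
  rcases le_total ((tu - tv) / (N - tu)) 10 with hc | hc
  · rw [min_eq_left hc]
    have e1 : (1 + (tu - tv) / (N - tu)) * (1 - bu / (N - bv)) - 1 + (tv - bv) / (N - bv)
        = (N - tv) / (N - bv) * ((tu - bu - bv) / (N - tu)) := by
      field_simp
      ring
    rw [e1]
    have e2 : (tu - tv) / (N - tu) / 2 ≤ (tu - bu - bv) / (N - tu) := by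
      rw [div_div, mul_comm, ← div_div]
      apply div_le_div_of_nonneg_right _ a1.le
      linarith
    rcases hρ with hρ | ⟨ht, hρ⟩
    · have e3 : 0.3 ≤ (N - tv) / (N - bv) := by
        rw [le_div_iff₀ a2]; linarith
      have e4 : 0.3 * ((tu - tv) / (N - tu) / 2)
          ≤ (N - tv) / (N - bv) * ((tu - bu - bv) / (N - tu)) :=
        mul_le_mul e3 e2 (by positivity) (by linarith)
      linarith
    · subst ht
      have hbv0 : bv = 0 := by linarith
      subst hbv0
      have e3 : (N - 0) / (N - 0) = (1 : ℝ) := div_self (by simpa using h0.ne')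
      rw [e3, one_mul]
      have e5 : bu / N ≤ (tu - 0) / (N - tu) / 2 := by
        rw [sub_zero, div_div]
        rw [div_le_div_iff₀ h0 (by linarith)]
        nlinarith
      linarith
  · rw [min_eq_right hc]
    have e1 : bu / (N - bv) ≤ 0.77 := by
      rw [div_le_iff₀ a2]; linarith
    rcases hρ with hρ | ⟨ht, hρ⟩
    · have e3 : bu / (N - bv) ≤ 10 / 13 := by
        rw [div_le_iff₀ a2]; linarith
      linarith
    · subst ht
      have hbv0 : bv = 0 := by linarith
      subst hbv0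
      have e3 : bu / (N - 0) ≤ 1 / 2 := by
        rw [div_le_iff₀ a2]; linarith
      have e4 : bu / N ≤ 1 / 2 := by
        rw [div_le_iff₀ h0]; linarith
      linarith

/-- second mean inequality -/
lemma mean_two (h0 : 0 < N) (hbu : 0 ≤ bu) (hbv : 0 ≤ bv) (h1 : 2 * bu ≤ tu) (h2 : tu < N)
    (h3 : 2 * bv ≤ tv) (h4 : 10 * tv ≤ 7 * N) (h5 : tv ≤ tu) (p : ℝ)
    (hp : 1 - bu / (N - bv) ≤ p) :
    0 ≤ (1 + min ((tu - tv) / (N - tu)) 10 / 2) * p - 1 + (tv - bv) / (N - bv) := by
  have a1 : 0 < N - tu := by linarith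
  have a2 : 0 < N - bv := by linarith
  have a3 : 0 ≤ tu - tv := by linarith
  have hη : 0 ≤ (tu - tv) / (N - tu) := div_nonneg a3 a1.le
  have hd : 0 ≤ (tv - bv) / (N - bv) := div_nonneg (by linarith) a2.le
  have hx : 0 ≤ min ((tu - tv) / (N - tu)) 10 := le_min hη (by norm_num)
  have hpm : (1 + min ((tu - tv) / (N - tu)) 10 / 2) * (1 - bu / (N - bv))
      ≤ (1 + min ((tu - tv) / (N - tu)) 10 / 2) * p :=
    mul_le_mul_of_nonneg_left hp (by linarith)
  suffices hs : 0 ≤ (1 + min ((tu - tv) / (N - tu)) 10 / 2) * (1 - bu / (N - bv)) - 1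
        + (tv - bv) / (N - bv) by linarith
  rcases le_total ((tu - tv) / (N - tu)) 10 with hc | hc
  · rw [min_eq_left hc]
    have e1 : (1 + (tu - tv) / (N - tu) / 2) * (1 - bu / (N - bv)) - 1 + (tv - bv) / (N - bv)
        = ((2 * N - tu - tv) * (N - bv - bu) - 2 * (N - tu) * (N - tv))
          / (2 * (N - tu) * (N - bv)) := by
      field_simp
      ring
    rw [e1]
    apply div_nonneg _ (by positivity)
    have e2 : (2 * N - tu - tv) * (N - (tu + tv) / 2) ≤ (2 * N - tu - tv) * (N - bv - bu) :=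
      mul_le_mul_of_nonneg_left (by linarith) (by linarith)
    nlinarith [sq_nonneg (tu - tv)]
  · rw [min_eq_right hc]
    have e1 : bu / (N - bv) ≤ 0.77 := by
      rw [div_le_iff₀ a2]; linarith
    linarith

end

end Pool.Agent.JR
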