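import Pool.Agent.LawB.Rpt

/-!
# JR: tails from the exponential inequality
-/

set_option autoImplicit false

namespace Pool.Agent.JR

open Finset Pool.Agent.LawB

variable {V : Type*} [Fintype V] [DecidableEq V]

lemma pos_le_exp (l x : ℝ) (hl : 0 < l) : max 0 x ≤ 1 / l * Real.exp (l * x) := by
  have h1 := Real.add_one_le_exp (l * x)
  have h2 := Real.exp_pos (l * x)
  rw [one_div, ← div_eq_inv_mul, le_div_iff₀ hl]
  rcases le_total x 0 with hx | hx
  · rw [max_eq_left hx, zero_mul]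
    exact h2.le
  · rw [max_eq_right hx]
    linarith

/-- upper tail: the mean excess -/
theorem excess {C C' : ℝ} {N : ℕ} {H : Finset (Finset V)} {w : Finset (Finset V) → ℝ}
    (hL : Law C' N H w) (h : Conc C N H w) (a : Finset V → ℝ) (a₀ l T : ℝ) (ha₀ : 0 ≤ a₀)
    (ha : ∀ F ∈ H, 0 ≤ a F ∧ a F ≤ a₀) (hl : 0 < l) (hl1 : l * a₀ * C ≤ 1) :
    ev w (fun B => max 0 (∑ F ∈ B, a F - (∑ F ∈ H, a F) / N - T))
      ≤ 1 / l * Real.exp (-(l * T) + C * l ^ 2 * a₀ * ((∑ F ∈ H, a F) / N)) := by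
  have h1 := h a a₀ l ha₀ ha (by rwa [abs_of_pos hl])
  have h2 : ev w (fun B => max 0 (∑ F ∈ B, a F - (∑ F ∈ H, a F) / N - T))
      ≤ ev w (fun B => (1 / l * Real.exp (-(l * T)))
        * Real.exp (l * (∑ F ∈ B, a F - (∑ F ∈ H, a F) / N))) := by
    apply hL.ev_mono
    intro B _ _
    refine (pos_le_exp l _ hl).trans (le_of_eq ?_)
    rw [mul_assoc, ← Real.exp_add]
    congr 2
    ring
  rw [ev_smul] at h2
  refine h2.trans ?_
  have h3 := mul_le_mul_of_nonneg_left h1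
    (by positivity : 0 ≤ 1 / l * Real.exp (-(l * T)))
  refine h3.trans (le_of_eq ?_)
  rw [mul_assoc, ← Real.exp_add]

/-- lower tail: the chance -/
theorem lower {C C' : ℝ} {N : ℕ} {H : Finset (Finset V)} {w : Finset (Finset V) → ℝ}
    (hL : Law C' N H w) (h : Conc C N H w) (a : Finset V → ℝ) (a₀ l T : ℝ) (ha₀ : 0 ≤ a₀)
    (ha : ∀ F ∈ H, 0 ≤ a F ∧ a F ≤ a₀) (hl : 0 < l) (hl1 : l * a₀ * C ≤ 1) :
    ev w (fun B => if ∑ F ∈ B, a F ≤ (∑ F ∈ H, a F) / N - T then 1 else 0)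
      ≤ Real.exp (-(l * T) + C * l ^ 2 * a₀ * ((∑ F ∈ H, a F) / N)) := by
  have h1 := h a a₀ (-l) ha₀ ha (by rwa [abs_neg, abs_of_pos hl])
  have h2 : ev w (fun B => if ∑ F ∈ B, a F ≤ (∑ F ∈ H, a F) / N - T then 1 else 0)
      ≤ ev w (fun B => Real.exp (-(l * T))
        * Real.exp (-l * (∑ F ∈ B, a F - (∑ F ∈ H, a F) / N))) := by
    apply hL.ev_mono
    intro B _ _
    rw [← Real.exp_add]
    split_ifs with hc
    · apply Real.one_le_exp
      nlinarith
    · exact (Real.exp_pos _).le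
  rw [ev_smul] at h2
  refine h2.trans ?_
  have h3 := mul_le_mul_of_nonneg_left h1 (Real.exp_pos (-(l * T))).le
  refine h3.trans (le_of_eq ?_)
  rw [← Real.exp_add]
  congr 1
  ring

/-- conditioning on `v` free costs a factor two for nonnegative functions -/
theorem cond_le {C : ℝ} {N : ℕ} {H : Finset (Finset V)} {w : Finset (Finset V) → ℝ}
    (hL : Law C N H w) (v : V) (g : Finset (Finset V) → ℝ) (hg : ∀ B, 0 ≤ g B) :
    ev w (fun B => ali {v} B * g B) ≤ ev w g := by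
  apply hL.ev_mono
  intro B _ _
  have h1 := (ali_mem {v} B).2
  have h2 := hg B
  nlinarith

end Pool.Agent.JR
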