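import Pool.Agent.JR.Cond
import Pool.Agent.JR.Tail
import Pool.Agent.JR.LReal

/-!
# JR, section 3: large load
-/

set_option autoImplicit false

namespace Pool.Agent.JR

open Finset
open Pool.Agent.LawB (ev ins ali Law CB NB Conc CC ali_mem ev_add ev_sub ev_smul ev_sum)

variable {V : Type*} [DecidableEq V]

/-! ### sums over the covered vertices -/

lemma sum_cov (B : Finset (Finset V)) (hB : PD B) (U : Finset V) (g : V → ℝ) :
    ∑ F ∈ B, ∑ u ∈ F ∩ U, g u = ∑ u ∈ U ∩ LawB.cov B, g u := by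
  have e : U ∩ LawB.cov B = B.biUnion (fun F => F ∩ U) := by
    ext z
    simp only [LawB.cov, Finset.mem_inter, Finset.mem_biUnion, id]
    constructor
    · rintro ⟨h1, F, h2, h3⟩
      exact ⟨F, h2, h3, h1⟩
    · rintro ⟨F, h2, h3, h1⟩
      exact ⟨h1, F, h2, h3⟩
  rw [e, Finset.sum_biUnion]
  intro F hF G hG hFG
  have := hB F hF G hG hFG
  exact Finset.disjoint_of_subset_left Finset.inter_subset_left
    (Finset.disjoint_of_subset_right Finset.inter_subset_left this)

lemma sum_bd (H : Finset (Finset V)) (U : Finset V) (g : V → ℝ) :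
    ∑ F ∈ H, ∑ u ∈ F ∩ U, g u = ∑ u ∈ U, (bd H u : ℝ) * g u := by
  have h1 : ∑ F ∈ H, ∑ u ∈ F ∩ U, g u = ∑ u ∈ U, ∑ F ∈ H.filter (fun F => u ∈ F), g u := by
    apply Finset.sum_comm'
    intro F u
    simp only [Finset.mem_inter, Finset.mem_filter]
    tauto
  rw [h1]
  apply Finset.sum_congr rfl
  intro u _
  rw [Finset.sum_const, nsmul_eq_mul]
  rfl

lemma Xv_eq (U : Finset V) (x : V → ℝ) (B : Finset (Finset V)) :
    Xv U x B = ∑ u ∈ U, x u - ∑ u ∈ U ∩ LawB.cov B, (1 + x u) := by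
  unfold Xv
  rw [← Finset.sum_inter_add_sum_sdiff U (LawB.cov B) (fun u => x u)]
  rw [← Finset.sum_inter_add_sum_sdiff U (LawB.cov B)
    (fun u => if u ∈ LawB.cov B then (-1 : ℝ) else x u)]
  have e1 : ∑ u ∈ U ∩ LawB.cov B, (if u ∈ LawB.cov B then (-1 : ℝ) else x u)
      = ∑ u ∈ U ∩ LawB.cov B, (-1 : ℝ) :=
    Finset.sum_congr rfl fun u hu => if_pos (Finset.mem_inter.1 hu).2
  have e2 : ∑ u ∈ U \ LawB.cov B, (if u ∈ LawB.cov B then (-1 : ℝ) else x u)
      = ∑ u ∈ U \ LawB.cov B, x u :=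
    Finset.sum_congr rfl fun u hu => if_neg (Finset.mem_sdiff.1 hu).2
  rw [e1, e2, Finset.sum_add_distrib]
  simp only [Finset.sum_const, nsmul_eq_mul]
  ring

lemma Xv_eq_ali (U : Finset V) (x : V → ℝ) (B : Finset (Finset V)) :
    Xv U x B = ∑ u ∈ U, ((1 + x u) * ali {u} B - 1) := by
  unfold Xv
  apply Finset.sum_congr rfl
  intro u _
  unfold ali
  by_cases hu : u ∈ LawB.cov B
  · rw [if_pos hu, if_neg (by simpa using hu)]
    ring
  · rw [if_neg hu, if_pos (by simpa using hu)]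
    ring

lemma Xv_mono (U : Finset V) (x y : V → ℝ) (h : ∀ u ∈ U, x u ≤ y u) (B : Finset (Finset V)) :
    Xv U x B ≤ Xv U y B := by
  unfold Xv
  apply Finset.sum_le_sum
  intro u hu
  split_ifs
  · exact le_rfl
  · exact h u hu

lemma Yv_eq (U : Finset V) (B : Finset (Finset V)) :
    Yv U B = ∑ u ∈ U ∩ LawB.cov B, (1 : ℝ) := by
  unfold Yv
  rw [Finset.sum_const, nsmul_eq_mul, mul_one]

lemma Psi_mono (rho err z : ℝ) {x y : ℝ} (h : x ≤ y) : Psi rho err z x ≤ Psi rho err z y := by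
  unfold Psi
  exact min_le_min (by linarith) (min_le_min (by linarith) le_rfl)

variable [Fintype V]

lemma QLaw.mono' {K : ℝ} {N : ℕ} {H : Finset (Finset V)} {w : Finset (Finset V) → ℝ}
    (h : QLaw K N H w) {f g : Finset (Finset V) → ℝ}
    (hfg : ∀ B, B ⊆ H → PD B → f B ≤ g B) : ev w f ≤ ev w g := by
  unfold ev
  apply Finset.sum_le_sum
  intro B _
  by_cases hB : w B = 0
  · rw [hB, zero_mul, zero_mul]
  · exact mul_le_mul_of_nonneg_left (hfg B (h.supp B hB).1 (h.supp B hB).2) (h.nonneg B)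

lemma QLaw.const' {K : ℝ} {N : ℕ} {H : Finset (Finset V)} {w : Finset (Finset V) → ℝ}
    (h : QLaw K N H w) (r : ℝ) : ev w (fun _ => r) = r := by
  unfold ev
  rw [← Finset.sum_mul, h.total, one_mul]

/-- conditioning costs a factor two for nonnegative functions -/
lemma ev_wv_le {C : ℝ} {k N : ℕ} {H : Finset (Finset V)} {w : Finset (Finset V) → ℝ}
    (hB : Big k N H) (h : Law C N H w) (v : V) (g : Finset (Finset V) → ℝ) (hg : ∀ B, 0 ≤ g B) :
    ev (wv w v) g ≤ 2 * ev w g := by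
  have h1 := half_le_free hB h v
  have h2 := cond_le h v g hg
  have h3 : 0 ≤ ev w (fun B => ali {v} B * g B) := by
    unfold ev
    exact Finset.sum_nonneg fun B _ => mul_nonneg (h.nonneg B)
      (mul_nonneg (ali_mem {v} B).1 (hg B))
  rw [ev_wv, div_le_iff₀ (by linarith)]
  nlinarith

/-- lower bound for the chance that `u` is free if `v` is free -/
lemma free_cond {C : ℝ} {k N : ℕ} {H : Finset (Finset V)} {w : Finset (Finset V) → ℝ}
    (hB : Big k N H) (h : Law C N H w) (v u : V) :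
    1 - (bd H u : ℝ) / (N - bd H v) ≤ ev (wv w v) (ali {u}) := by
  have hN : (0 : ℝ) < N := by
    have := hB.two_bd_lt v
    have : 0 < N := by omega
    exact_mod_cast this
  have h2 : 2 * (bd H v : ℝ) + 1 ≤ N := by exact_mod_cast hB.two_bd_lt v
  have h3 : 0 < (N : ℝ) - bd H v := by
    have : (0 : ℝ) ≤ bd H v := by positivity
    linarith
  have h4 : ev w (ali {v}) = ((N : ℝ) - bd H v) / N := by
    rw [free_eq h v]; field_simp
  have h5 : ev w (ali {u}) = 1 - (bd H u : ℝ) / N := free_eq h u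
  have h6 : ev w (ali {v}) - (bd H u : ℝ) / N ≤ ev w (fun B => ali {v} B * ali {u} B) := by
    have e : ev w (ali {v}) - (bd H u : ℝ) / N
        = ev w (fun B => (ali {v} B + ali {u} B) - 1) := by
      rw [ev_sub w (fun B => ali {v} B + ali {u} B) (fun _ => 1), ev_add, h.ev_const, h5]
      ring
    rw [e]
    apply h.ev_mono
    intro B _ _
    have a1 := ali_mem {v} B
    have a2 := ali_mem {u} B
    nlinarith [mul_nonneg (sub_nonneg.2 a1.2) (sub_nonneg.2 a2.2)]
  rw [ev_wv, le_div_iff₀ (by rw [h4]; positivity)]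
  refine le_trans (le_of_eq ?_) h6
  rw [h4]
  field_simp

lemma exp_neg_le {x : ℝ} (hx : 0 < x) : Real.exp (-x) ≤ 1 / x := by
  rw [Real.exp_neg, ← one_div]
  apply one_div_le_one_div_of_le hx
  have := Real.add_one_le_exp x
  linarith

/-- the constant `l` -/
noncomputable def lc (k : ℕ) : ℝ := 1 / (7200 * k * CC k)

/-- the threshold for the load -/
noncomputable def SL (k : ℕ) : ℝ := 400 / lc k ^ 2

lemma CC_pos {k : ℕ} (hk : 0 < k) : 0 < CC k := by
  have : (0 : ℝ) < k := by exact_mod_cast hk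
  unfold CC
  positivity

lemma one_le_CC {k : ℕ} (hk : 0 < k) : 1 ≤ CC k := by
  have h1 : (1 : ℝ) ≤ k := by exact_mod_cast hk
  have h2 : (1 : ℝ) ≤ 2 ^ (k + 1) := one_le_pow₀ (by norm_num)
  have h3 : (1 : ℝ) ≤ (3 / 2) ^ (2 * LawB.Tn k) := one_le_pow₀ (by norm_num)
  unfold CC
  have h4 : 1 ≤ (k : ℝ) * 2 ^ (k + 1) := by nlinarith
  nlinarith

lemma lc_pos {k : ℕ} (hk : 0 < k) : 0 < lc k := by
  have h1 : (0 : ℝ) < k := by exact_mod_cast hk
  have h2 := CC_pos hk
  unfold lc
  positivity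

lemma lc_mul {k : ℕ} (hk : 0 < k) : lc k * (k * CC k) = 1 / 7200 := by
  have h1 : (0 : ℝ) < k := by exact_mod_cast hk
  have h2 := CC_pos hk
  unfold lc
  field_simp

lemma lc_le {k : ℕ} (hk : 0 < k) : lc k ≤ 1 / 7200 := by
  have h1 : (1 : ℝ) ≤ k := by exact_mod_cast hk
  have h2 := one_le_CC hk
  have h3 := lc_mul hk
  have h4 := lc_pos hk
  have h5 : 1 ≤ (k : ℝ) * CC k := by nlinarith
  nlinarith

/-- the excess of a linear functional -/
theorem cond_excess {k N : ℕ} (hk : 0 < k) {H : Finset (Finset V)} {w : Finset (Finset V) → ℝ}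
    (hB : Big k N H) (hL : Law (CB k) N H w) (hC : Conc (CC k) N H w) (v : V) (U : Finset V)
    (g : V → ℝ) (hg : ∀ u ∈ U, 0 ≤ g u ∧ g u ≤ 12) (T : ℝ) (hT : 0.04 * load H N U ≤ T)
    (hS : SL k ≤ load H N U) :
    ev (wv w v) (fun B => max 0 (∑ u ∈ U ∩ LawB.cov B, g u
      - ∑ u ∈ U, (bd H u : ℝ) / N * g u - T)) ≤ 1 / 4 := by
  have hk0 : (0 : ℝ) < k := by exact_mod_cast hk
  have hCC := CC_pos hk
  have hl := lc_pos hk
  have hlm := lc_mul hk
  have hN : (0 : ℝ) < N := by
    have := hB.two_bd_lt v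
    have : 0 < N := by omega
    exact_mod_cast this
  set S := load H N U with hSdef
  have hS0 : 0 < S := lt_of_lt_of_le (by unfold SL; positivity) hS
  set a : Finset V → ℝ := fun F => ∑ u ∈ F ∩ U, g u with ha
  have ha0 : ∀ F ∈ H, 0 ≤ a F ∧ a F ≤ 12 * k := by
    intro F hF
    constructor
    · exact Finset.sum_nonneg fun u hu => (hg u (Finset.mem_inter.1 hu).2).1
    · have h1 : ∑ u ∈ F ∩ U, g u ≤ ∑ _u ∈ F ∩ U, (12 : ℝ) :=
        Finset.sum_le_sum fun u hu => (hg u (Finset.mem_inter.1 hu).2).2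
      rw [Finset.sum_const, nsmul_eq_mul] at h1
      have h2 : ((F ∩ U).card : ℝ) ≤ k := by
        have := (Finset.card_le_card (Finset.inter_subset_left (s₁ := F) (s₂ := U))).trans
          (hB.card F hF)
        exact_mod_cast this
      have h3 : a F = ∑ u ∈ F ∩ U, g u := rfl
      rw [h3]
      linarith
  have hmean : (∑ F ∈ H, a F) / N = ∑ u ∈ U, (bd H u : ℝ) / N * g u := by
    have e : ∑ F ∈ H, a F = ∑ u ∈ U, (bd H u : ℝ) * g u := sum_bd H U g
    rw [e, Finset.sum_div]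
    exact Finset.sum_congr rfl fun u _ => by ring
  have hmean_le : (∑ F ∈ H, a F) / N ≤ 12 * S := by
    rw [hmean, hSdef]
    unfold load
    rw [Finset.mul_sum]
    apply Finset.sum_le_sum
    intro u hu
    have h1 := mul_le_mul_of_nonneg_left (hg u hu).2 (by positivity : 0 ≤ (bd H u : ℝ) / N)
    linarith
  have h1 := excess hL hC a (12 * k) (lc k) T (by positivity) ha0 hl (by
    have : lc k * (12 * k) * CC k = 12 * (lc k * (k * CC k)) := by ring
    rw [this, hlm]; norm_num)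
  rw [hmean] at h1
  have h2 := ev_wv_le hB hL v (fun B => max 0 (∑ F ∈ B, a F
      - ∑ u ∈ U, (bd H u : ℝ) / N * g u - T)) (fun B => le_max_left _ _)
  have h3 : ev (wv w v) (fun B => max 0 (∑ u ∈ U ∩ LawB.cov B, g u
      - ∑ u ∈ U, (bd H u : ℝ) / N * g u - T))
      ≤ ev (wv w v) (fun B => max 0 (∑ F ∈ B, a F
      - ∑ u ∈ U, (bd H u : ℝ) / N * g u - T)) := by
    apply (qlaw_v hk hB hL v).mono'
    intro B _ hPD
    have e : ∑ F ∈ B, a F = ∑ u ∈ U ∩ LawB.cov B, g u := sum_cov B hPD U g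
    rw [e]
  refine h3.trans (h2.trans ?_)
  have h4 : 1 / lc k * Real.exp (-(lc k * T)
      + CC k * lc k ^ 2 * (12 * k) * ∑ u ∈ U, (bd H u : ℝ) / N * g u)
      ≤ 1 / lc k * Real.exp (-(0.02 * lc k * S)) := by
    apply mul_le_mul_of_nonneg_left _ (by positivity)
    apply Real.exp_le_exp.2
    have e1 : CC k * lc k ^ 2 * (12 * k) * ∑ u ∈ U, (bd H u : ℝ) / N * g u
        ≤ CC k * lc k ^ 2 * (12 * k) * (12 * S) := by
      rw [← hmean]
      exact mul_le_mul_of_nonneg_left hmean_le (by positivity)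
    have e2 : CC k * lc k ^ 2 * (12 * k) * (12 * S) = 144 * (lc k * (k * CC k)) * (lc k * S) := by
      ring
    rw [e2, hlm] at e1
    have e3 := mul_le_mul_of_nonneg_left hT hl.le
    linarith
  have h5 : Real.exp (-(0.02 * lc k * S)) ≤ 1 / (0.02 * lc k * S) :=
    exp_neg_le (by positivity)
  have h6 : 1 / lc k * (1 / (0.02 * lc k * S)) ≤ 1 / 8 := by
    have e1 : 1 / lc k * (1 / (0.02 * lc k * S)) = 50 / (lc k ^ 2 * S) := by
      field_simp
      norm_num
    rw [e1, div_le_div_iff₀ (by positivity) (by norm_num)]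
    have e2 : 400 ≤ lc k ^ 2 * S := by
      have := mul_le_mul_of_nonneg_left hS (by positivity : 0 ≤ lc k ^ 2)
      have e3 : lc k ^ 2 * SL k = 400 := by
        unfold SL; field_simp
      linarith
    linarith
  have h7 := mul_le_mul_of_nonneg_left h5 (by positivity : 0 ≤ 1 / lc k)
  linarith

/-- few covered vertices are unlikely -/
theorem cond_low {k N : ℕ} (hk : 0 < k) {H : Finset (Finset V)} {w : Finset (Finset V) → ℝ}
    (hB : Big k N H) (hL : Law (CB k) N H w) (hC : Conc (CC k) N H w) (v : V) (U : Finset V)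
    (hS : SL k ≤ load H N U) :
    ev (wv w v) (fun B => if Yv U B < 0.8 * load H N U then 1 else 0) ≤ 0.07 := by
  have hk0 : (0 : ℝ) < k := by exact_mod_cast hk
  have hCC := CC_pos hk
  have hl := lc_pos hk
  have hlm := lc_mul hk
  have hll := lc_le hk
  have hN : (0 : ℝ) < N := by
    have := hB.two_bd_lt v
    have : 0 < N := by omega
    exact_mod_cast this
  set S := load H N U with hSdef
  have hS0 : 0 < S := lt_of_lt_of_le (by unfold SL; positivity) hS
  set a : Finset V → ℝ := fun F => ∑ u ∈ F ∩ U, (1 : ℝ) with ha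
  have ha0 : ∀ F ∈ H, 0 ≤ a F ∧ a F ≤ k := by
    intro F hF
    have h3 : a F = ((F ∩ U).card : ℝ) := by
      rw [ha]; simp
    rw [h3]
    refine ⟨by positivity, ?_⟩
    have := (Finset.card_le_card (Finset.inter_subset_left (s₁ := F) (s₂ := U))).trans
      (hB.card F hF)
    exact_mod_cast this
  have hmean : (∑ F ∈ H, a F) / N = S := by
    have e : ∑ F ∈ H, a F = ∑ u ∈ U, (bd H u : ℝ) * 1 := sum_bd H U (fun _ => 1)
    rw [e, Finset.sum_div, hSdef]
    unfold load
    exact Finset.sum_congr rfl fun u _ => by ring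
  have h1 := lower hL hC a k (lc k) (0.2 * S) (by positivity) ha0 hl (by
    have : lc k * k * CC k = lc k * (k * CC k) := by ring
    rw [this, hlm]; norm_num)
  rw [hmean] at h1
  have h2 := ev_wv_le hB hL v (fun B => if ∑ F ∈ B, a F ≤ S - 0.2 * S then (1 : ℝ) else 0)
    (fun B => by split_ifs <;> norm_num)
  have h3 : ev (wv w v) (fun B => if Yv U B < 0.8 * S then 1 else 0)
      ≤ ev (wv w v) (fun B => if ∑ F ∈ B, a F ≤ S - 0.2 * S then (1 : ℝ) else 0) := by
    apply (qlaw_v hk hB hL v).mono'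
    intro B _ hPD
    have e : ∑ F ∈ B, a F = ∑ u ∈ U ∩ LawB.cov B, (1 : ℝ) := sum_cov B hPD U (fun _ => 1)
    rw [e, ← Yv_eq]
    by_cases hY : Yv U B < 0.8 * S
    · rw [if_pos hY, if_pos (by linarith)]
    · rw [if_neg hY]
      split_ifs <;> norm_num
  refine h3.trans (h2.trans ?_)
  have h4 : Real.exp (-(lc k * (0.2 * S)) + CC k * lc k ^ 2 * k * S)
      ≤ Real.exp (-(0.1 * lc k * S)) := by
    apply Real.exp_le_exp.2
    have e2 : CC k * lc k ^ 2 * k * S = (lc k * (k * CC k)) * (lc k * S) := by ring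
    rw [e2, hlm]
    have : 0 < lc k * S := by positivity
    linarith
  have h5 : Real.exp (-(0.1 * lc k * S)) ≤ 1 / (0.1 * lc k * S) := exp_neg_le (by positivity)
  have h6 : 1 / (0.1 * lc k * S) ≤ 0.03 := by
    rw [div_le_iff₀ (by positivity)]
    have e2 : 400 ≤ lc k ^ 2 * S := by
      have := mul_le_mul_of_nonneg_left hS (by positivity : 0 ≤ lc k ^ 2)
      have e3 : lc k ^ 2 * SL k = 400 := by
        unfold SL; field_simp
      linarith
    have e4 : lc k ^ 2 * S ≤ 1 / 7200 * (lc k * S) := by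
      have := mul_le_mul_of_nonneg_right hll (by positivity : 0 ≤ lc k * S)
      linarith [this, (by ring : lc k ^ 2 * S = lc k * (lc k * S))]
    nlinarith
  linarith

end Pool.Agent.JR
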