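import Pool.Agent.JR.St4
import Pool.Agent.JR.Large

/-!
# JR, section 4: first and second moments
-/

set_option autoImplicit false

namespace Pool.Agent.JR

open Finset
open Pool.Agent.LawB (ev ins ali Law CB NB Conc CC ali_mem ev_add ev_sub ev_smul ev_sum)

section general

variable {V : Type*} [DecidableEq V]

lemma ins_mul_self (F : Finset V) (B : Finset (Finset V)) :
    ins {F} B * ins {F} B = ins {F} B := by
  unfold ins; split_ifs <;> norm_num

lemma ins_single (F : Finset V) (B : Finset (Finset V)) :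
    ins {F} B = if F ∈ B then 1 else 0 := by
  unfold ins; simp only [Finset.singleton_subset_iff]

lemma Ja_eq (H : Finset (Finset V)) (a : Finset V → ℝ) (B : Finset (Finset V)) (hB : B ⊆ H) :
    Ja a B = ∑ F ∈ H, a F * ins {F} B := by
  unfold Ja
  rw [← Finset.sum_subset hB]
  · apply Finset.sum_congr rfl
    intro F hF
    rw [ins_single, if_pos hF, mul_one]
  · intro F _ hF
    rw [ins_single, if_neg hF, mul_zero]

variable [Fintype V]

/-- the square of an additive functional -/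
theorem sq_ev (ω : Finset (Finset V) → ℝ) (hω : ∀ B, ω B ≠ 0 → PD B) (H : Finset (Finset V))
    (hne : ∀ F ∈ H, F.Nonempty) (a : Finset V → ℝ) (c : ℝ) :
    ev ω (fun B => (∑ F ∈ H, a F * ins {F} B + c) ^ 2)
      = c ^ 2 * ev ω (fun _ => 1) + 2 * c * ∑ F ∈ H, a F * ev ω (ins {F})
        + ∑ F ∈ H, a F ^ 2 * ev ω (ins {F})
        + ∑ F ∈ H, ∑ G ∈ H.filter (fun G => Disjoint F G),
          a F * a G * ev ω (fun B => ins {F} B * ins {G} B) := by
  have e1 : (fun B => (∑ F ∈ H, a F * ins {F} B + c) ^ 2)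
      = fun B => (c ^ 2 * 1 + (2 * c) * ∑ F ∈ H, a F * ins {F} B)
        + ∑ F ∈ H, ∑ G ∈ H, (a F * a G) * (ins {F} B * ins {G} B) := by
    funext B
    have : (∑ F ∈ H, a F * ins {F} B) * (∑ G ∈ H, a G * ins {G} B)
        = ∑ F ∈ H, ∑ G ∈ H, (a F * a G) * (ins {F} B * ins {G} B) := by
      rw [Finset.sum_mul_sum]
      exact Finset.sum_congr rfl fun F _ => Finset.sum_congr rfl fun G _ => by ring
    rw [← this]
    ring
  rw [e1, ev_add, ev_add, ev_smul, ev_smul, ev_sum, ev_sum]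
  have e2 : ∑ F ∈ H, ev ω (fun B => a F * ins {F} B) = ∑ F ∈ H, a F * ev ω (ins {F}) :=
    Finset.sum_congr rfl fun F _ => ev_smul ω (ins {F}) (a F)
  have e3 : ∑ F ∈ H, ev ω (fun B => ∑ G ∈ H, (a F * a G) * (ins {F} B * ins {G} B))
      = ∑ F ∈ H, (a F ^ 2 * ev ω (ins {F}) + ∑ G ∈ H.filter (fun G => Disjoint F G),
          a F * a G * ev ω (fun B => ins {F} B * ins {G} B)) := by
    apply Finset.sum_congr rfl
    intro F hF
    rw [ev_sum]
    rw [← Finset.sum_filter_add_sum_filter_not H (fun G => Disjoint F G), add_comm]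
    congr 1
    · have hFF : F ∈ H.filter (fun G => ¬ Disjoint F G) := by
        refine Finset.mem_filter.2 ⟨hF, fun h => ?_⟩
        have h2 := disjoint_self.1 h
        exact (hne F hF).ne_empty (by simpa using h2)
      rw [Finset.sum_eq_single_of_mem F hFF]
      · rw [ev_smul]
        have : (fun B => ins {F} B * ins {F} B) = ins ({F} : Finset (Finset V)) := by
          funext B; exact ins_mul_self F B
        rw [this]; ring
      · intro G hG hGF
        rw [ev_smul]
        have : ev ω (fun B => ins {F} B * ins {G} B) = 0 := by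
          unfold ev
          apply Finset.sum_eq_zero
          intro B _
          by_cases hB : ω B = 0
          · rw [hB, zero_mul]
          · have hPD := hω B hB
            beta_reduce
            rw [ins_single, ins_single]
            by_cases h1 : F ∈ B
            · by_cases h2 : G ∈ B
              · exact absurd (hPD F h1 G h2 (Ne.symm hGF)) (Finset.mem_filter.1 hG).2
              · rw [if_neg h2]; ring
            · rw [if_neg h1]; ring
        rw [this, mul_zero]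
    · exact Finset.sum_congr rfl fun G _ => ev_smul ω _ _
  rw [e2, e3, Finset.sum_add_distrib]
  ring

omit [Fintype V] in
/-- the main term -/
theorem sq_target (H : Finset (Finset V)) (N : ℕ) (a : Finset V → ℝ) (c : ℝ) :
    ((∑ F ∈ H, a F) / N + c) ^ 2 + VF H N a
      = c ^ 2 + 2 * c * ∑ F ∈ H, a F * (1 / N) + ∑ F ∈ H, a F ^ 2 * (1 / N)
        + ∑ F ∈ H, ∑ G ∈ H.filter (fun G => Disjoint F G), a F * a G * (1 / N ^ 2) := by
  have e1 : (∑ F ∈ H, a F) ^ 2 = ∑ F ∈ H, ∑ G ∈ H.filter (fun G => Disjoint F G), a F * a G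
      + ∑ F ∈ H, ∑ G ∈ H.filter (fun G => ¬ Disjoint F G), a F * a G := by
    rw [sq, Finset.sum_mul_sum, ← Finset.sum_add_distrib]
    apply Finset.sum_congr rfl
    intro F _
    rw [Finset.sum_filter_add_sum_filter_not]
  have e2 : ∑ F ∈ H, ∑ G ∈ H.filter (fun G => Disjoint F G), a F * a G * (1 / (N : ℝ) ^ 2)
      = (∑ F ∈ H, ∑ G ∈ H.filter (fun G => Disjoint F G), a F * a G) * (1 / (N : ℝ) ^ 2) := by
    rw [Finset.sum_mul]
    exact Finset.sum_congr rfl fun F _ => (Finset.sum_mul _ _ _).symm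
  unfold VF
  rw [e2, ← Finset.sum_mul, ← Finset.sum_mul]
  have e3 : ((∑ F ∈ H, a F) / N + c) ^ 2
      = (∑ F ∈ H, a F) ^ 2 / (N : ℝ) ^ 2 + 2 * c * ((∑ F ∈ H, a F) * (1 / N)) + c ^ 2 := by
    ring
  rw [e3, e1]
  ring

/-- the error, for a nonnegative weight `ω` of mass about `m` -/
theorem sq_err (ω : Finset (Finset V) → ℝ) (hω : ∀ B, ω B ≠ 0 → PD B) (H : Finset (Finset V))
    (hne : ∀ F ∈ H, F.Nonempty) (N : ℕ) (a : Finset V → ℝ) (a0 c m : ℝ)
    (ha : ∀ F ∈ H, 0 ≤ a F ∧ a F ≤ a0) :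
    |ev ω (fun B => (∑ F ∈ H, a F * ins {F} B + c) ^ 2)
        - m * (((∑ F ∈ H, a F) / N + c) ^ 2 + VF H N a)|
      ≤ c ^ 2 * |ev ω (fun _ => 1) - m|
        + (2 * |c| + a0) * ∑ F ∈ H, a F * |ev ω (ins {F}) - m / N|
        + ∑ F ∈ H, ∑ G ∈ H.filter (fun G => Disjoint F G),
          a F * a G * |ev ω (fun B => ins {F} B * ins {G} B) - m / N ^ 2| := by
  rw [sq_ev ω hω H hne a c, sq_target]
  set T1 := ev ω (fun _ => 1) with hT1
  have e1 : c ^ 2 * T1 + 2 * c * ∑ F ∈ H, a F * ev ω (ins {F})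
        + ∑ F ∈ H, a F ^ 2 * ev ω (ins {F})
        + ∑ F ∈ H, ∑ G ∈ H.filter (fun G => Disjoint F G),
          a F * a G * ev ω (fun B => ins {F} B * ins {G} B)
      - m * (c ^ 2 + 2 * c * ∑ F ∈ H, a F * (1 / N) + ∑ F ∈ H, a F ^ 2 * (1 / N)
        + ∑ F ∈ H, ∑ G ∈ H.filter (fun G => Disjoint F G), a F * a G * (1 / N ^ 2))
      = c ^ 2 * (T1 - m) + (2 * c * ∑ F ∈ H, a F * (ev ω (ins {F}) - m / N)
        + (∑ F ∈ H, a F ^ 2 * (ev ω (ins {F}) - m / N)
        + ∑ F ∈ H, ∑ G ∈ H.filter (fun G => Disjoint F G),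
          a F * a G * (ev ω (fun B => ins {F} B * ins {G} B) - m / N ^ 2))) := by
    have s1 : ∑ F ∈ H, a F * (ev ω (ins {F}) - m / N)
        = ∑ F ∈ H, a F * ev ω (ins {F}) - m * ∑ F ∈ H, a F * (1 / N) := by
      rw [Finset.mul_sum, ← Finset.sum_sub_distrib]
      exact Finset.sum_congr rfl fun F _ => by ring
    have s2 : ∑ F ∈ H, a F ^ 2 * (ev ω (ins {F}) - m / N)
        = ∑ F ∈ H, a F ^ 2 * ev ω (ins {F}) - m * ∑ F ∈ H, a F ^ 2 * (1 / N) := by
      rw [Finset.mul_sum, ← Finset.sum_sub_distrib]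
      exact Finset.sum_congr rfl fun F _ => by ring
    have s3 : ∑ F ∈ H, ∑ G ∈ H.filter (fun G => Disjoint F G),
          a F * a G * (ev ω (fun B => ins {F} B * ins {G} B) - m / N ^ 2)
        = ∑ F ∈ H, ∑ G ∈ H.filter (fun G => Disjoint F G),
          a F * a G * ev ω (fun B => ins {F} B * ins {G} B)
          - m * ∑ F ∈ H, ∑ G ∈ H.filter (fun G => Disjoint F G), a F * a G * (1 / N ^ 2) := by
      rw [Finset.mul_sum, ← Finset.sum_sub_distrib]
      apply Finset.sum_congr rfl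
      intro F _
      rw [Finset.mul_sum, ← Finset.sum_sub_distrib]
      exact Finset.sum_congr rfl fun G _ => by ring
    rw [s1, s2, s3]
    ring
  rw [e1]
  have h1 : |c ^ 2 * (T1 - m)| = c ^ 2 * |T1 - m| := by
    rw [abs_mul, abs_of_nonneg (sq_nonneg c)]
  have h2 : |2 * c * ∑ F ∈ H, a F * (ev ω (ins {F}) - m / N)|
      ≤ 2 * |c| * ∑ F ∈ H, a F * |ev ω (ins {F}) - m / N| := by
    rw [abs_mul, abs_mul, abs_of_pos (by norm_num : (0 : ℝ) < 2)]
    apply mul_le_mul_of_nonneg_left _ (by positivity)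
    refine (Finset.abs_sum_le_sum_abs _ _).trans ?_
    apply Finset.sum_le_sum
    intro F hF
    rw [abs_mul, abs_of_nonneg (ha F hF).1]
  have h3 : |∑ F ∈ H, a F ^ 2 * (ev ω (ins {F}) - m / N)|
      ≤ a0 * ∑ F ∈ H, a F * |ev ω (ins {F}) - m / N| := by
    refine (Finset.abs_sum_le_sum_abs _ _).trans ?_
    rw [Finset.mul_sum]
    apply Finset.sum_le_sum
    intro F hF
    rw [abs_mul, abs_of_nonneg (sq_nonneg _), ← mul_assoc]
    apply mul_le_mul_of_nonneg_right _ (abs_nonneg _)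
    rw [sq]
    exact mul_le_mul_of_nonneg_right (ha F hF).2 (ha F hF).1
  have h4 : |∑ F ∈ H, ∑ G ∈ H.filter (fun G => Disjoint F G),
        a F * a G * (ev ω (fun B => ins {F} B * ins {G} B) - m / N ^ 2)|
      ≤ ∑ F ∈ H, ∑ G ∈ H.filter (fun G => Disjoint F G),
        a F * a G * |ev ω (fun B => ins {F} B * ins {G} B) - m / N ^ 2| := by
    refine (Finset.abs_sum_le_sum_abs _ _).trans ?_
    apply Finset.sum_le_sum
    intro F hF
    refine (Finset.abs_sum_le_sum_abs _ _).trans ?_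
    apply Finset.sum_le_sum
    intro G hG
    rw [abs_mul, abs_of_nonneg (mul_nonneg (ha F hF).1 (ha G (Finset.mem_filter.1 hG).1).1)]
  refine (abs_add_le _ _).trans ?_
  rw [h1]
  have h5 := (abs_add_le (2 * c * ∑ F ∈ H, a F * (ev ω (ins {F}) - m / N))
    (∑ F ∈ H, a F ^ 2 * (ev ω (ins {F}) - m / N)
        + ∑ F ∈ H, ∑ G ∈ H.filter (fun G => Disjoint F G),
          a F * a G * (ev ω (fun B => ins {F} B * ins {G} B) - m / N ^ 2)))
  have h6 := (abs_add_le (∑ F ∈ H, a F ^ 2 * (ev ω (ins {F}) - m / N))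
        (∑ F ∈ H, ∑ G ∈ H.filter (fun G => Disjoint F G),
          a F * a G * (ev ω (fun B => ins {F} B * ins {G} B) - m / N ^ 2)))
  linarith

/-! ### correlations of a `QLaw` -/

variable {K : ℝ} {N : ℕ} {H : Finset (Finset V)} {w : Finset (Finset V) → ℝ}

lemma QLaw.K_nonneg (h : QLaw K N H w) (hN : 0 < N) : 0 ≤ K := by
  have hNr : (0 : ℝ) < N := by exact_mod_cast hN
  have h1 := h.rpt ∅ (Finset.empty_subset _) (by intro F hF; simp at hF)
  have h2 := (abs_nonneg _).trans h1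
  rw [Finset.card_empty, zero_add, pow_one] at h2
  by_contra hK
  push Not at hK
  have : K / N < 0 := div_neg_of_neg_of_pos hK hNr
  linarith

lemma QLaw.one (h : QLaw K N H w) {F : Finset V} (hF : F ∈ H) :
    |ev w (ins {F}) - 1 / N| ≤ (K / N) ^ 2 := by
  have h1 := h.rpt {F} (Finset.singleton_subset_iff.2 hF) (by
    intro A hA B hB hAB
    rw [Finset.mem_singleton] at hA hB
    exact absurd (hA.trans hB.symm) hAB)
  rw [Finset.card_singleton, pow_one] at h1
  exact h1

lemma QLaw.two (h : QLaw K N H w) {F G : Finset V} (hF : F ∈ H) (hG : G ∈ H)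
    (hF0 : F.Nonempty) (hd : Disjoint F G) :
    |ev w (fun B => ins {F} B * ins {G} B) - 1 / N ^ 2| ≤ (K / N) ^ 3 := by
  have hne : F ≠ G := by
    rintro rfl
    have h2 := disjoint_self.1 hd
    exact hF0.ne_empty (by simpa using h2)
  have h1 := h.rpt {F, G} (by
    intro A hA
    rcases Finset.mem_insert.1 hA with rfl | hA
    · exact hF
    · rw [Finset.mem_singleton] at hA; subst hA; exact hG) (by
    intro A hA B hB hAB
    rcases Finset.mem_insert.1 hA with rfl | hA
    · rcases Finset.mem_insert.1 hB with rfl | hB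
      · exact absurd rfl hAB
      · rw [Finset.mem_singleton] at hB; subst hB; exact hd
    · rw [Finset.mem_singleton] at hA; subst hA
      rcases Finset.mem_insert.1 hB with rfl | hB
      · exact hd.symm
      · rw [Finset.mem_singleton] at hB; exact absurd hB.symm hAB)
  rw [Finset.card_pair hne] at h1
  have e : (fun B => ins {F} B * ins {G} B) = ins ({F, G} : Finset (Finset V)) := by
    funext B; exact (LawB.ins_insert F {G} B).symm
  rw [e]
  have e2 : (1 / (N : ℝ)) ^ 2 = 1 / (N : ℝ) ^ 2 := by ring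
  rw [← e2]
  exact h1

lemma QLaw.three (h : QLaw K N H w) {E F G : Finset V} (hE : E ∈ H) (hF : F ∈ H) (hG : G ∈ H)
    (hE0 : E.Nonempty) (hF0 : F.Nonempty) (hEF : Disjoint E F) (hEG : Disjoint E G)
    (hFG : Disjoint F G) :
    |ev w (fun B => ins {E} B * (ins {F} B * ins {G} B)) - 1 / N ^ 3| ≤ (K / N) ^ 4 := by
  have hne : ∀ {A B : Finset V}, A.Nonempty → Disjoint A B → A ≠ B := by
    rintro A B hA hd rfl
    have h2 := disjoint_self.1 hd
    exact hA.ne_empty (by simpa using h2)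
  have n1 := hne hE0 hEF
  have n2 := hne hE0 hEG
  have n3 := hne hF0 hFG
  have h1 := h.rpt {E, F, G} (by
    intro A hA
    simp only [Finset.mem_insert, Finset.mem_singleton] at hA
    rcases hA with rfl | rfl | rfl <;> assumption) (by
    intro A hA B hB hAB
    simp only [Finset.mem_insert, Finset.mem_singleton] at hA hB
    rcases hA with rfl | rfl | rfl <;> rcases hB with rfl | rfl | rfl
    · exact absurd rfl hAB
    · exact hEF
    · exact hEG
    · exact hEF.symm
    · exact absurd rfl hAB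
    · exact hFG
    · exact hEG.symm
    · exact hFG.symm
    · exact absurd rfl hAB)
  have hc : ({E, F, G} : Finset (Finset V)).card = 3 := by
    rw [Finset.card_insert_of_notMem, Finset.card_pair n3]
    simp only [Finset.mem_insert, Finset.mem_singleton, not_or]
    exact ⟨n1, n2⟩
  rw [hc] at h1
  have e : (fun B => ins {E} B * (ins {F} B * ins {G} B)) = ins ({E, F, G} : Finset (Finset V)) := by
    funext B
    rw [LawB.ins_insert E {F, G} B, LawB.ins_insert F {G} B]
  rw [e]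
  have e2 : (1 / (N : ℝ)) ^ 3 = 1 / (N : ℝ) ^ 3 := by ring
  rw [← e2]
  exact h1

end general

/-! ### the targets -/

theorem thm_Q1 : StQ1 := by
  intro V _ _ k N K H w a hN hB hQ ha
  have hNr : (0 : ℝ) < N := by exact_mod_cast hN
  have e1 : ev w (Ja a) = ∑ F ∈ H, a F * ev w (ins {F}) := by
    have h1 : ev w (Ja a) = ev w (fun B => ∑ F ∈ H, a F * ins {F} B) := by
      apply le_antisymm
      · exact hQ.mono' fun B hBH _ => (Ja_eq H a B hBH).le
      · exact hQ.mono' fun B hBH _ => (Ja_eq H a B hBH).ge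
    rw [h1, ev_sum]
    exact Finset.sum_congr rfl fun F _ => ev_smul w (ins {F}) (a F)
  rw [e1]
  have e2 : ∑ F ∈ H, a F * ev w (ins {F}) - (∑ F ∈ H, a F) / N
      = ∑ F ∈ H, a F * (ev w (ins {F}) - 1 / N) := by
    rw [Finset.sum_div, ← Finset.sum_sub_distrib]
    exact Finset.sum_congr rfl fun F _ => by ring
  rw [e2]
  refine (Finset.abs_sum_le_sum_abs _ _).trans ?_
  have h3 : ∑ F ∈ H, |a F * (ev w (ins {F}) - 1 / N)| ≤ ∑ F ∈ H, a F * (K / N) ^ 2 := by
    apply Finset.sum_le_sum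
    intro F hF
    rw [abs_mul, abs_of_nonneg (ha F hF)]
    exact mul_le_mul_of_nonneg_left (hQ.one hF) (ha F hF)
  refine h3.trans (le_of_eq ?_)
  rw [← Finset.sum_mul]
  field_simp

theorem thm_Q2 : StQ2 := by
  intro k K a0 S0 c0
  refine ⟨(2 * |c0| + |a0|) * |S0| * K ^ 2 + S0 ^ 2 * |K| ^ 3, ?_⟩
  intro V _ _ N H w a c hN hB hQ ha hS hc
  have hNr : (0 : ℝ) < N := by exact_mod_cast hN
  have hK := hQ.K_nonneg hN
  have hne := hB.nonempty
  have h1 : ev w (fun B => (Ja a B - c) ^ 2)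
      = ev w (fun B => (∑ F ∈ H, a F * ins {F} B + (-c)) ^ 2) := by
    apply le_antisymm
    · exact hQ.mono' fun B hBH _ => by rw [Ja_eq H a B hBH]; exact le_of_eq (by ring)
    · exact hQ.mono' fun B hBH _ => by rw [Ja_eq H a B hBH]; exact le_of_eq (by ring)
  have h2 := sq_err w (fun B hB => (hQ.supp B hB).2) H hne N a a0 (-c) 1 ha
  rw [← h1, hQ.const'] at h2
  have h3 := (abs_le.1 h2).2
  simp only [sub_self, abs_zero, mul_zero, zero_add, one_mul, abs_neg] at h3
  set S := (∑ F ∈ H, a F) / N with hSdef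
  have hS0 : 0 ≤ S := div_nonneg (Finset.sum_nonneg fun F hF => (ha F hF).1) hNr.le
  have h4 : ∑ F ∈ H, a F * |ev w (ins {F}) - 1 / N| ≤ K ^ 2 * S / N := by
    have : ∑ F ∈ H, a F * |ev w (ins {F}) - 1 / N| ≤ ∑ F ∈ H, a F * (K / N) ^ 2 :=
      Finset.sum_le_sum fun F hF => mul_le_mul_of_nonneg_left (hQ.one hF) (ha F hF).1
    refine this.trans (le_of_eq ?_)
    rw [← Finset.sum_mul, hSdef]
    field_simp
  have h5 : ∑ F ∈ H, ∑ G ∈ H.filter (fun G => Disjoint F G),
      a F * a G * |ev w (fun B => ins {F} B * ins {G} B) - 1 / N ^ 2| ≤ K ^ 3 * S ^ 2 / N := by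
    have h6 : ∑ F ∈ H, ∑ G ∈ H.filter (fun G => Disjoint F G),
        a F * a G * |ev w (fun B => ins {F} B * ins {G} B) - 1 / N ^ 2|
        ≤ ∑ F ∈ H, ∑ G ∈ H, a F * a G * (K / N) ^ 3 := by
      apply Finset.sum_le_sum
      intro F hF
      refine (Finset.sum_le_sum (g := fun G => a F * a G * (K / N) ^ 3) ?_).trans ?_
      · intro G hG
        obtain ⟨hG1, hG2⟩ := Finset.mem_filter.1 hG
        exact mul_le_mul_of_nonneg_left (hQ.two hF hG1 (hne F hF) hG2)
          (mul_nonneg (ha F hF).1 (ha G hG1).1)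
      · apply Finset.sum_le_sum_of_subset_of_nonneg (Finset.filter_subset _ _)
        intro G hG _
        have := (ha F hF).1
        have := (ha G hG).1
        positivity
    refine h6.trans (le_of_eq ?_)
    have e : ∑ F ∈ H, ∑ G ∈ H, a F * a G * (K / N) ^ 3 = (∑ F ∈ H, a F) ^ 2 * (K / N) ^ 3 := by
      rw [sq, Finset.sum_mul_sum, Finset.sum_mul]
      exact Finset.sum_congr rfl fun F _ => (Finset.sum_mul _ _ _).symm
    rw [e, hSdef]
    field_simp
  have hSS : S ≤ |S0| := hS.trans (le_abs_self _)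
  have hcc : |c| ≤ |c0| := hc.trans (le_abs_self _)
  have hX : (2 * |c| + a0) * ∑ F ∈ H, a F * |ev w (ins {F}) - 1 / N|
      ≤ (2 * |c0| + |a0|) * (K ^ 2 * |S0| / N) := by
    have hsum0 : 0 ≤ ∑ F ∈ H, a F * |ev w (ins {F}) - 1 / N| :=
      Finset.sum_nonneg fun F hF => mul_nonneg (ha F hF).1 (abs_nonneg _)
    have g1 : (2 * |c| + a0) * ∑ F ∈ H, a F * |ev w (ins {F}) - 1 / N|
        ≤ (2 * |c0| + |a0|) * ∑ F ∈ H, a F * |ev w (ins {F}) - 1 / N| :=
      mul_le_mul_of_nonneg_right (by linarith [le_abs_self a0]) hsum0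
    refine g1.trans (mul_le_mul_of_nonneg_left (h4.trans ?_) (by positivity))
    apply div_le_div_of_nonneg_right _ hNr.le
    exact mul_le_mul_of_nonneg_left hSS (sq_nonneg K)
  have hY : K ^ 3 * S ^ 2 / N ≤ |K| ^ 3 * S0 ^ 2 / N := by
    apply div_le_div_of_nonneg_right _ hNr.le
    rw [abs_of_nonneg hK]
    apply mul_le_mul_of_nonneg_left _ (by positivity)
    rw [← sq_abs S0]
    exact pow_le_pow_left₀ hS0 hSS 2
  have e7 : ((2 * |c0| + |a0|) * |S0| * K ^ 2 + S0 ^ 2 * |K| ^ 3) / N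
      = (2 * |c0| + |a0|) * (K ^ 2 * |S0| / N) + |K| ^ 3 * S0 ^ 2 / N := by ring
  rw [e7]
  have e8 : (S - c) ^ 2 = (S + -c) ^ 2 := by ring
  rw [e8]
  linarith

end Pool.Agent.JR
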