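import Pool.Agent.JR.StA
import Pool.Agent.JR.J1
import Pool.Agent.JR.Cond
import Pool.Agent.JR.Large
import Pool.Agent.JR.Mom

/-!
# JR, module B0: the case `b_v = 0`
-/

set_option autoImplicit false

namespace Pool.Agent.JR

open Finset
open Pool.Agent.LawB (ev ins ali Law)

section general

variable {V : Type} [DecidableEq V] {k N : ℕ} {H : Finset (Finset V)}

theorem B0_arch (C c : ℝ) (hc : 0 < c) : ∃ N1 : ℕ, ∀ N : ℕ, N1 ≤ N → 0 < N → C / N ≤ c := by
  obtain ⟨N1, hN1⟩ := exists_nat_gt (C / c)
  refine ⟨N1, fun N hN h0 => ?_⟩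
  have h1 : (0 : ℝ) < N := by exact_mod_cast h0
  have h2 : (N1 : ℝ) ≤ N := by exact_mod_cast hN
  rw [div_le_iff₀ h1]
  rw [div_lt_iff₀ hc] at hN1
  nlinarith

theorem B0_omx (hB : Big k N H) (y : V) : 0 ≤ omx H N y ∧ omx H N y ≤ 0.16 := by
  unfold omx
  have h1 := hB.two_bd_lt y
  have h0 : (0 : ℝ) < N := by
    have : 0 < N := by omega
    exact_mod_cast this
  have h2 : 2 * (bd H y : ℝ) ≤ N := by exact_mod_cast (by omega : 2 * bd H y ≤ N)
  have h3 : 2 * (bd H y : ℝ) / N ≤ 1 := by rw [div_le_one h0]; exact h2
  constructor
  · have := le_max_left (0 : ℝ) (0.1 - (1 - 2 * (bd H y : ℝ) / N))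
    linarith
  · have : max (0 : ℝ) (0.1 - (1 - 2 * (bd H y : ℝ) / N)) ≤ 0.1 :=
      max_le (by norm_num) (by linarith)
    linarith

theorem B0_xu (hB : Big k N H) (z : V) : 0 ≤ xu H N z ∧ (td H z : ℝ) / N ≤ xu H N z ∧
    2 * (bd H z : ℝ) / (N - 2 * bd H z) ≤ xu H N z := by
  have h1 := hB.deg z
  have h2 := hB.two_bd_le z
  have h1' : (td H z : ℝ) + 1 ≤ N := by exact_mod_cast h1
  have h2' : 2 * (bd H z : ℝ) ≤ td H z := by exact_mod_cast h2
  have h3 : (0 : ℝ) ≤ td H z := Nat.cast_nonneg _
  have h4 : (0 : ℝ) ≤ bd H z := Nat.cast_nonneg _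
  unfold xu
  refine ⟨div_nonneg h3 (by linarith), ?_, ?_⟩
  · apply div_le_div_of_nonneg_left h3 (by linarith) (by linarith)
  · apply div_le_div₀ h3 h2' (by linarith) (by linarith)

/-- the counting of the triples -/
theorem B0_card (hN : 5 ≤ N) (z : V) (hz : bd H z ≤ 2) (S : Finset V) (M : Finset (Finset V))
    (hS : ∀ y ∈ S, 9 * N ≤ 20 * bd H y ∧ ∃ x, ¬ vh H N x ∧ ({y, z, x} : Finset V) ∈ M) :
    S.card ≤ (M.filter fun F => z ∈ F).card := by
  classical
  have hS' : ∀ y, ∃ x, y ∈ S → (¬ vh H N x ∧ ({y, z, x} : Finset V) ∈ M) := by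
    intro y
    by_cases hy : y ∈ S
    · obtain ⟨x, hx⟩ := (hS y hy).2
      exact ⟨x, fun _ => hx⟩
    · exact ⟨y, fun h => absurd h hy⟩
  choose f hf using hS'
  refine card_le_card_of_injOn (fun y => ({y, z, f y} : Finset V)) ?_ ?_
  · intro y hy
    have hy' : y ∈ S := hy
    simp only [coe_filter, Set.mem_ofPred_eq]
    exact ⟨(hf y hy').2, by simp⟩
  · intro y hy y' hy' he
    have hy1 : y ∈ S := hy
    have hy1' : y' ∈ S := hy'
    simp only at he
    have h1 : y' ∈ ({y, z, f y} : Finset V) := by rw [he]; simp
    simp only [mem_insert, mem_singleton] at h1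
    rcases h1 with h1 | h1 | h1
    · exact h1.symm
    · exfalso
      have := (hS y' hy1').1
      rw [h1] at this
      omega
    · exfalso
      apply (hf y hy1).1
      rw [← h1]
      have := (hS y' hy1').1
      unfold vh
      omega

/-- the contribution of `z` to `rho` -/
noncomputable def B0_r (H : Finset (Finset V)) (N : ℕ) (S : Finset V)
    (B : Finset (Finset V)) : ℝ :=
  (∑ y ∈ S, omx H N y * (if y ∈ LawB.cov B then 1 else -1)) / N

theorem B0_rho (U : Finset V) (sp : V → Finset V) (B : Finset (Finset V)) :
    rho H N U sp B = ∑ z ∈ U, if z ∈ LawB.cov B then 0 else B0_r H N (sp z) B := by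
  unfold rho B0_r
  rw [sum_div, sum_filter]
  refine sum_congr rfl fun z _ => ?_
  by_cases hz : z ∈ LawB.cov B
  · rw [if_neg (by simpa using hz), if_pos hz]
  · rw [if_pos hz, if_neg hz]

theorem B0_r_ge (hB : Big k N H) (S T : Finset V) (B : Finset (Finset V))
    (hT : ∀ y ∈ S, y ∉ T → y ∈ LawB.cov B) :
    -(0.16 * ((S ∩ T).card : ℝ) / N) ≤ B0_r H N S B := by
  have h0 : (0 : ℝ) ≤ N := Nat.cast_nonneg _
  unfold B0_r
  rw [← neg_div]
  apply div_le_div_of_nonneg_right _ h0
  have e : -(0.16 * ((S ∩ T).card : ℝ)) = ∑ y ∈ S, if y ∈ T then (-0.16 : ℝ) else 0 := by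
    rw [← sum_filter, sum_const, nsmul_eq_mul, filter_mem_eq_inter]
    ring
  rw [e]
  refine sum_le_sum fun y hy => ?_
  obtain ⟨h1, h2⟩ := B0_omx hB y
  by_cases hyT : y ∈ T
  · rw [if_pos hyT]
    split_ifs <;> linarith
  · rw [if_neg hyT, if_pos (hT y hy hyT)]
    linarith

theorem B0_psi {rh er x x' : ℝ} (h1 : x' ≤ x + rh) (h2 : x' ≤ x) (he : 0 ≤ er) :
    phi x' - er / 2 ≤ Psi rh er 0 x := by
  have a1 : phi x' ≤ x' := min_le_left _ _
  have a2 : phi x' ≤ x' / 2 := (min_le_right _ _).trans (min_le_left _ _)
  have a3 : phi x' ≤ 1 := (min_le_right _ _).trans (min_le_right _ _)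
  unfold Psi
  exact le_min (by linarith) (le_min (by linarith) (by linarith))

theorem B0_add (U : Finset V) (sp : V → Finset V) (x g : V → ℝ) (B : Finset (Finset V))
    (h : ∀ z ∈ U, z ∉ LawB.cov B → g z ≤ x z + B0_r H N (sp z) B) :
    Xv U g B ≤ Xv U x B + rho H N U sp B := by
  rw [B0_rho]
  unfold Xv
  rw [← sum_add_distrib]
  refine sum_le_sum fun z hz => ?_
  by_cases hc : z ∈ LawB.cov B
  · rw [if_pos hc, if_pos hc, if_pos hc]
    linarith
  · rw [if_neg hc, if_neg hc, if_neg hc]
    exact h z hz hc

theorem B0_err (U : Finset V) (M : ℝ) (hM : 0 ≤ M) (B : Finset (Finset V)) :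
    0 ≤ errv M U B := by
  unfold errv
  have h1 : 0 ≤ Yv U B := Nat.cast_nonneg _
  have h2 := le_max_left (0 : ℝ) (Yv U B - 0.45 * M)
  have h3 : 0 ≤ 2 * Yv U B / M := by positivity
  linarith

theorem B0_insert (R : Finset V) (u : V) (hu : u ∉ R) (x : V → ℝ) (B : Finset (Finset V)) :
    Xv (insert u R) x B = (if u ∈ LawB.cov B then -1 else x u) + Xv R x B := by
  unfold Xv
  rw [sum_insert hu]

theorem B0_load (U R : Finset V) (hR : R ⊆ U) : load H N R ≤ load H N U := by
  unfold load
  exact sum_le_sum_of_subset_of_nonneg hR fun z _ _ =>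
    div_nonneg (Nat.cast_nonneg _) (Nat.cast_nonneg _)

end general

section prob

variable {V : Type} [Fintype V] [DecidableEq V] {k N : ℕ} {H : Finset (Finset V)}

theorem B0_fin {K : ℝ} {w : Finset (Finset V) → ℝ} (hQ : QLaw K N H w)
    {f g e : Finset (Finset V) → ℝ} {c C1 C2 : ℝ} (h1 : ∀ B, B ⊆ H → PD B → g B - e B / 2 ≤ f B)
    (h2 : c - C1 / N ≤ ev w g) (h3 : ev w e ≤ C2 / N) (h4 : (C1 + C2 / 2) / N ≤ c) :
    0 ≤ ev w f := by
  have h5 : ev w (fun B => g B - e B / 2) ≤ ev w f := hQ.mono' h1
  have h6 : ev w (fun B => g B - e B / 2) = ev w g - ev w e / 2 := by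
    unfold ev
    rw [sum_div, ← sum_sub_distrib]
    exact sum_congr rfl fun B _ => by ring
  have h7 : (C1 + C2 / 2) / N = C1 / N + C2 / N / 2 := by ring
  rw [h6] at h5
  linarith

end prob

/-- **B0**: the case `b_v = 0`. -/
theorem thm_B0 : StE1L → StE1H → StE2 → StE3 → StE45 → StERR → StB0 := by
  intro hE1L hE1H hE2 hE3 hE45 hERR k K S0
  obtain ⟨c1, C1, N1, hc1, hE1L⟩ := hE1L k K
  obtain ⟨C2, N2, hE1H⟩ := hE1H k K S0
  obtain ⟨C3, N3, hE2⟩ := hE2 k K S0
  obtain ⟨C4, N4, hE3⟩ := hE3 k K S0
  obtain ⟨N5, hE45⟩ := hE45 k K S0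
  obtain ⟨C0, hERR⟩ := hERR k K S0
  obtain ⟨A1, hA1⟩ := B0_arch (C1 + C0 / 2) c1 hc1
  obtain ⟨A2, hA2⟩ := B0_arch (C2 + C0 / 2) 0.011 (by norm_num)
  obtain ⟨A3, hA3⟩ := B0_arch (C3 + C0 / 2) 0.05 (by norm_num)
  obtain ⟨A4, hA4⟩ := B0_arch (C4 + C0 / 2) 0.004 (by norm_num)
  refine ⟨N1 + N2 + N3 + N4 + N5 + A1 + A2 + A3 + A4 + 100 * k + 10, ?_⟩
  intro V _ _ N H w U sp hN hB hQ hex hsp hld hU
  classical
  have hN0 : 0 < N := by omega
  have hNr : (0 : ℝ) < N := by exact_mod_cast hN0
  have hNn : (0 : ℝ) ≤ N := hNr.le
  have herr : ev w (errv N U) ≤ C0 / N :=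
    hERR V N H w U N hN0 hB hQ hld (by linarith) le_rfl
  have hxu := fun z => B0_xu hB z
  have hom := fun y => B0_omx hB y
  have hvh : ∀ y, 9 * N ≤ 20 * bd H y → vh H N y := fun y hy => by unfold vh; omega
  have hbd2 : ∀ z, bd H z ≤ 2 → ¬ 9 * N ≤ 20 * bd H z := fun z hz h => by omega
  -- the number of special vertices
  have hspc : ∀ z ∈ U, (sp z).card ≤ bd H z := by
    intro z hz
    by_cases he : (sp z).Nonempty
    · have h2 := hsp.two z hz he
      exact B0_card (N := N) (by omega) z h2 (sp z) H fun y hy => by
        obtain ⟨h3, x, h4, h5, _⟩ := hsp.tri z hz y hy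
        exact ⟨h3, x, h4, h5⟩
    · rw [not_nonempty_iff_eq_empty] at he
      rw [he, card_empty]
      exact Nat.zero_le _
  have hspx : ∀ z ∈ U, 0.16 * ((sp z).card : ℝ) / N ≤ 0.08 * xu H N z := by
    intro z hz
    have h1 : ((sp z).card : ℝ) ≤ bd H z := by exact_mod_cast hspc z hz
    have h2 : 2 * (bd H z : ℝ) ≤ td H z := by exact_mod_cast hB.two_bd_le z
    have h3 := (hxu z).2.1
    have h4 : 0.16 * ((sp z).card : ℝ) / N ≤ 0.08 * (td H z / N) := by
      rw [← mul_div_assoc]
      apply div_le_div_of_nonneg_right _ hNn
      linarith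
    linarith
  have hr1 : ∀ z ∈ U, ∀ B, -(0.08 * xu H N z) ≤ B0_r H N (sp z) B := by
    intro z hz B
    have h1 := B0_r_ge hB (sp z) (sp z) B fun y hy hy' => absurd hy hy'
    rw [inter_self] at h1
    have := hspx z hz
    linarith
  by_cases hn0 : ∀ z ∈ U, ¬ vh H N z
  · -- no very heavy vertex
    by_cases hh : ∑ z ∈ U, xu H N z ≤ 1.9
    · -- small
      have hE := (hE1L V N H w U (by omega) hB hQ hh).2 (by linarith)
      refine B0_fin hQ (e := errv N U) ?_ hE herr (hA1 N (by omega) hN0)
      intro B _ _
      set h := ∑ z ∈ U, xu H N z with hhdef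
      have hrho : -(0.08 * h) ≤ rho H N U sp B := by
        rw [B0_rho, hhdef, mul_sum, ← sum_neg_distrib]
        refine sum_le_sum fun z hz => ?_
        split_ifs
        · have := (hxu z).1
          linarith
        · exact hr1 z hz B
      have hXh : Xv U (xu H N) B ≤ h := by
        unfold Xv
        refine sum_le_sum fun z _ => ?_
        have := (hxu z).1
        split_ifs <;> linarith
      have h0h : 0 ≤ h := by linarith
      unfold hit
      by_cases hd : Disjoint U (LawB.cov B)
      · have hX : Xv U (xu H N) B = h := by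
          unfold Xv
          refine sum_congr rfl fun z hz => ?_
          rw [if_neg (disjoint_left.1 hd hz)]
        have hY : Yv U B = 0 := by
          unfold Yv
          rw [disjoint_iff_inter_eq_empty.1 hd]
          simp
        have he : errv N U B = 0 := by
          unfold errv
          rw [hY, max_eq_left (by linarith)]
          simp
        rw [if_pos hd, hX, he, max_eq_left h0h]
        unfold Psi
        refine le_min (by linarith) (le_min (by linarith) (by linarith))
      · rw [if_neg hd]
        have he := B0_err U N hNn B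
        have m1 := le_max_left (Xv U (xu H N) B) 0
        have m2 := le_max_right (Xv U (xu H N) B) 0
        unfold Psi
        refine le_min (by linarith) (le_min (by linarith) ?_)
        rcases le_total 0 (Xv U (xu H N) B) with hx | hx
        · rw [max_eq_left hx]
          linarith
        · rw [max_eq_right hx]
          linarith
    · -- large
      push Not at hh
      have hsum : 1.9 ≤ ∑ z ∈ U, xc H N 2 z := by
        by_cases hall : ∀ z ∈ U, xu H N z ≤ 2
        · have e : ∀ z ∈ U, xc H N 2 z = xu H N z := fun z hz => min_eq_left (hall z hz)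
          rw [sum_congr rfl e]
          exact hh.le
        · push Not at hall
          obtain ⟨z, hz, hz2⟩ := hall
          have h1 : xc H N 2 z ≤ ∑ z ∈ U, xc H N 2 z :=
            single_le_sum (f := fun z => xc H N 2 z)
              (fun y _ => le_min (hxu y).1 zero_le_two) hz
          have h2 : xc H N 2 z = 2 := min_eq_right hz2.le
          linarith
      set Mk : Finset (Finset V) := H.filter fun F =>
        F.card = 3 ∧ ∃ y ∈ F, y ∉ U ∧ 9 * N ≤ 20 * bd H y with hMk
      have hMkH : Mk ⊆ H := filter_subset _ _
      have hMk3 : ∀ F ∈ Mk, F.card = 3 ∧ (F ∩ U).card ≤ 2 := by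
        intro F hF
        obtain ⟨_, h3, y, hy, hyU, _⟩ := mem_filter.1 hF
        refine ⟨h3, ?_⟩
        have h4 : F ∩ U ⊆ F.erase y := by
          intro t ht
          obtain ⟨h5, h6⟩ := mem_inter.1 ht
          exact mem_erase.2 ⟨fun h => hyU (h ▸ h6), h5⟩
        have h5 := card_le_card h4
        rw [card_erase_of_mem hy, h3] at h5
        exact h5
      have hE := hE1H V N H w U Mk (by omega) hB hQ hn0 hld hMkH hMk3 hsum
      have hmk : ∀ z ∈ U, (sp z).card ≤ mk H Mk z := by
        intro z hz
        by_cases he : (sp z).Nonempty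
        · have h2 := hsp.two z hz he
          unfold mk
          rw [if_pos h2]
          refine B0_card (N := N) (by omega) z h2 (sp z) Mk fun y hy => ?_
          obtain ⟨h3, x, h4, h5, h6⟩ := hsp.tri z hz y hy
          refine ⟨h3, x, h4, mem_filter.2 ⟨h5, h6, y, by simp, ?_, h3⟩⟩
          intro hyU
          exact hn0 y hyU (hvh y h3)
        · rw [not_nonempty_iff_eq_empty] at he
          rw [he, card_empty]
          exact Nat.zero_le _
      refine B0_fin hQ (e := errv N U) ?_ hE herr (hA2 N (by omega) hN0)
      intro B _ _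
      have hg : ∀ z ∈ U, (0 : ℝ) ≤ 0.16 * mk H Mk z / N := fun z _ => by positivity
      refine B0_psi (B0_add U sp (xu H N) _ B fun z hz _ => ?_) (Xv_mono U _ _ (fun z hz => ?_) B)
        (B0_err U N hNn B)
      · have h1 := B0_r_ge hB (sp z) (sp z) B fun y hy hy' => absurd hy hy'
        rw [inter_self] at h1
        have h2 : 0.16 * ((sp z).card : ℝ) / N ≤ 0.16 * mk H Mk z / N := by
          apply div_le_div_of_nonneg_right _ hNn
          have : ((sp z).card : ℝ) ≤ mk H Mk z := by exact_mod_cast hmk z hz
          linarith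
        have h3 : xc H N 2 z ≤ xu H N z := min_le_left _ _
        linarith
      · have h3 : xc H N 2 z ≤ xu H N z := min_le_left _ _
        have := hg z hz
        linarith
  · push Not at hn0
    obtain ⟨u, huU, hu⟩ := hn0
    by_cases hn2 : ∃ u' ∈ U, u ≠ u' ∧ vh H N u'
    · -- two very heavy vertices
      obtain ⟨u', hu'U, hne, hu'⟩ := hn2
      have hE := hE2 V N H w U u u' (by omega) hB hQ huU hu'U hne hu hu' hld
      refine B0_fin hQ (e := errv N U) ?_ hE herr (hA3 N (by omega) hN0)
      intro B _ _
      refine B0_psi (B0_add U sp (xu H N) _ B fun z hz _ => ?_) (Xv_mono U _ _ (fun z hz => ?_) B)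
        (B0_err U N hNn B)
      · by_cases hl : 50 * td H z < N
        · rw [if_pos hl]
          have := hr1 z hz B
          linarith
        · rw [if_neg hl]
          have he : sp z = ∅ := by
            rw [← not_nonempty_iff_eq_empty]
            intro he
            have h2 := hsp.two z hz he
            have h3 := hB.td_le z
            have h4 : k * bd H z ≤ k * 2 := Nat.mul_le_mul_left k h2
            omega
          have h5 : B0_r H N (sp z) B = 0 := by
            unfold B0_r
            rw [he]
            simp
          have h6 : xc H N 9 z ≤ xu H N z := min_le_left _ _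
          linarith
      · have h6 : xc H N 9 z ≤ xu H N z := min_le_left _ _
        have h7 := (hxu z).1
        split_ifs <;> linarith
    · -- exactly one
      push Not at hn2
      set R := U.erase u with hR
      have huR : u ∉ R := notMem_erase u U
      have hUR : insert u R = U := insert_erase huU
      have hRU : R ⊆ U := erase_subset _ _
      have hRv : ∀ z ∈ R, ¬ vh H N z := by
        intro z hz
        obtain ⟨h1, h2⟩ := mem_erase.1 hz
        exact hn2 z h2 (Ne.symm h1)
      have hbu : 2 < bd H u := by
        unfold vh at hu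
        omega
      have hspu : sp u = ∅ := by
        rw [← not_nonempty_iff_eq_empty]
        intro he
        have := hsp.two u huU he
        omega
      set Mk : Finset (Finset V) := H.filter fun F =>
        F.card = 3 ∧ u ∉ F ∧ ∃ y ∈ F, y ∉ U ∧ 9 * N ≤ 20 * bd H y with hMk
      have hMkH : Mk ⊆ H := filter_subset _ _
      have hMk3 : ∀ F ∈ Mk, F.card = 3 ∧ (F ∩ R).card ≤ 2 ∧ u ∉ F := by
        intro F hF
        obtain ⟨_, h3, hu3, y, hy, hyU, _⟩ := mem_filter.1 hF
        refine ⟨h3, ?_, hu3⟩
        have h4 : F ∩ R ⊆ F.erase y := by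
          intro t ht
          obtain ⟨h5, h6⟩ := mem_inter.1 ht
          exact mem_erase.2 ⟨fun h => hyU (h ▸ hRU h6), h5⟩
        have h5 := card_le_card h4
        rw [card_erase_of_mem hy, h3] at h5
        exact h5
      have hmk : ∀ z ∈ R, ((sp z).erase u).card ≤ mk H Mk z := by
        intro z hz
        have hzU := hRU hz
        have hzu : z ≠ u := (mem_erase.1 hz).1
        by_cases he : (sp z).Nonempty
        · have h2 := hsp.two z hzU he
          unfold mk
          rw [if_pos h2]
          refine B0_card (N := N) (by omega) z h2 ((sp z).erase u) Mk fun y hy => ?_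
          obtain ⟨hyu, hy⟩ := mem_erase.1 hy
          obtain ⟨h3, x, h4, h5, h6⟩ := hsp.tri z hzU y hy
          refine ⟨h3, x, h4, mem_filter.2 ⟨h5, h6, ?_, y, by simp, ?_, h3⟩⟩
          · simp only [mem_insert, mem_singleton, not_or]
            refine ⟨Ne.symm hyu, Ne.symm hzu, ?_⟩
            intro hux
            exact h4 (hux ▸ hu)
          · intro hyU
            exact hn2 y hyU (Ne.symm hyu) (hvh y h3)
        · rw [not_nonempty_iff_eq_empty] at he
          rw [he, erase_empty, card_empty]
          exact Nat.zero_le _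
      have hspG : ∀ z ∈ R, u ∈ sp z → ∃ G ∈ H, u ∈ G ∧ z ∈ G := by
        intro z hz huz
        obtain ⟨h3, x, h4, h5, h6⟩ := hsp.tri z (hRU hz) u huz
        exact ⟨_, h5, by simp, by simp⟩
      have hldR : load H N R ≤ S0 := (B0_load U R hRU).trans hld
      have hrhoR : ∀ B, rho H N U sp B = rho H N R sp B := by
        intro B
        rw [B0_rho, B0_rho, ← hUR, sum_insert huR]
        have h5 : B0_r H N (sp u) B = 0 := by
          unfold B0_r
          rw [hspu]
          simp
        rw [h5]
        simp
      by_cases hc : 100 * bd H u ≤ 43 * N ∨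
          0.3 ≤ m2 H N u R (fun z => xc H N 2 z - 0.16 * mk H Mk z / N) (aw R (xc H N 2))
      · have hE := (hE3 V N H w u R Mk (xu H N u) (by omega) hB hQ huR hu hRv hldR hMkH hMk3
          (by
            have h1 := (hxu u).2.2
            have h2 := min_le_left (2 * (bd H u : ℝ) / (N - 2 * bd H u)) 20
            linarith) hc).1
        refine B0_fin hQ (e := errv N U) ?_ hE herr (hA4 N (by omega) hN0)
        intro B _ _
        rw [hrhoR B]
        have hXU : Xv U (xu H N) B = (if u ∈ LawB.cov B then -1 else xu H N u) +
            Xv R (xu H N) B := by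
          rw [← hUR]
          exact B0_insert R u huR _ B
        rw [hXU]
        have hxc : ∀ z, xc H N 2 z ≤ xu H N z := fun z => min_le_left _ _
        by_cases huc : u ∈ LawB.cov B
        · rw [if_pos huc, if_pos huc]
          have h1 : Xv R (fun z => xc H N 2 z - 0.16 * mk H Mk z / N) B ≤
              Xv R (xu H N) B + rho H N R sp B := by
            refine B0_add R sp (xu H N) _ B fun z hz _ => ?_
            have h1 := B0_r_ge hB (sp z) (univ.erase u) B fun y _ hy' => by
              have : y = u := by
                by_contra hne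
                exact hy' (mem_erase.2 ⟨hne, mem_univ y⟩)
              rw [this]
              exact huc
            have e1 : sp z ∩ univ.erase u = (sp z).erase u := by
              ext t
              simp [mem_erase, and_comm]
            rw [e1] at h1
            have h2 : 0.16 * (((sp z).erase u).card : ℝ) / N ≤ 0.16 * mk H Mk z / N := by
              apply div_le_div_of_nonneg_right _ hNn
              have : (((sp z).erase u).card : ℝ) ≤ mk H Mk z := by exact_mod_cast hmk z hz
              linarith
            have h3 := hxc z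
            linarith
          have h2 : Xv R (fun z => xc H N 2 z - 0.16 * mk H Mk z / N) B ≤ Xv R (xu H N) B := by
            refine Xv_mono R _ _ (fun z _ => ?_) B
            have h3 := hxc z
            have h4 : (0 : ℝ) ≤ 0.16 * mk H Mk z / N := by positivity
            linarith
          exact B0_psi (by linarith) (by linarith) (B0_err U N hNn B)
        · rw [if_neg huc, if_neg huc]
          set g : V → ℝ := fun z => xc H N 2 z - 0.16 * mk H Mk z / N
            - 0.16 * (H.filter fun G => u ∈ G ∧ z ∈ G).card / N with hg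
          have h1 : Xv R g B ≤ Xv R (xu H N) B + rho H N R sp B := by
            refine B0_add R sp (xu H N) _ B fun z hz _ => ?_
            have h1 := B0_r_ge hB (sp z) (sp z) B fun y hy hy' => absurd hy hy'
            rw [inter_self] at h1
            have hcard : ((sp z).card : ℝ) ≤ mk H Mk z +
                (H.filter fun G => u ∈ G ∧ z ∈ G).card := by
              have h5 := hmk z hz
              by_cases huz : u ∈ sp z
              · obtain ⟨G, hG, huG, hzG⟩ := hspG z hz huz
                have h6 : 1 ≤ (H.filter fun G => u ∈ G ∧ z ∈ G).card :=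
                  card_pos.2 ⟨G, mem_filter.2 ⟨hG, huG, hzG⟩⟩
                have h7 := card_erase_add_one huz
                exact_mod_cast (by omega : (sp z).card ≤ mk H Mk z +
                  (H.filter fun G => u ∈ G ∧ z ∈ G).card)
              · rw [erase_eq_of_notMem huz] at h5
                exact_mod_cast (by omega : (sp z).card ≤ mk H Mk z +
                  (H.filter fun G => u ∈ G ∧ z ∈ G).card)
            have h2 : 0.16 * ((sp z).card : ℝ) / N ≤ 0.16 * mk H Mk z / N +
                0.16 * (H.filter fun G => u ∈ G ∧ z ∈ G).card / N := by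
              rw [← add_div]
              apply div_le_div_of_nonneg_right _ hNn
              linarith
            have h3 := hxc z
            simp only [hg]
            linarith
          have h2 : Xv R g B ≤ Xv R (xu H N) B := by
            refine Xv_mono R _ _ (fun z _ => ?_) B
            have h3 := hxc z
            have h4 : (0 : ℝ) ≤ 0.16 * mk H Mk z / N := by positivity
            have h5 : (0 : ℝ) ≤ 0.16 * (H.filter fun G => u ∈ G ∧ z ∈ G).card / N := by positivity
            simp only [hg]
            linarith
          exact B0_psi (by linarith) (by linarith) (B0_err U N hNn B)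
      · push Not at hc
        obtain ⟨hc1, hc2⟩ := hc
        have hD : D45 k N S0 H u R Mk sp :=
          { big := hB
            uR := huR
            hu := hc1
            hR := hRv
            ld := hldR
            MkH := hMkH
            Mk3 := hMk3
            sp2 := fun z hz he => hsp.two z (hRU hz) he
            spu := hspG
            spb := hmk
            spc := by
              intro z hz hz2 hu9 G hG hG3 huG hzG hall
              have hzu : z ≠ u := (mem_erase.1 hz).1
              obtain ⟨x, hx⟩ : ∃ x, G = {u, z, x} := by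
                have h1 : ((G.erase u).erase z).card = 1 := by
                  rw [card_erase_of_mem (mem_erase.2 ⟨hzu, hzG⟩), card_erase_of_mem huG, hG3]
                obtain ⟨x, hx⟩ := card_eq_one.1 h1
                refine ⟨x, ?_⟩
                rw [← hx, insert_erase (mem_erase.2 ⟨hzu, hzG⟩), insert_erase huG]
              have hxG : x ∈ G := by rw [hx]; simp
              have hxne : x ≠ u ∧ x ≠ z := by
                constructor
                · intro h
                  rw [hx, h] at hG3
                  have : ({u, z, u} : Finset V).card ≤ 2 := by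
                    have e : ({u, z, u} : Finset V) = {u, z} := by
                      ext t
                      simp only [mem_insert, mem_singleton]
                      tauto
                    rw [e]
                    exact card_le_two
                  omega
                · intro h
                  rw [hx, h] at hG3
                  have : ({u, z, z} : Finset V).card ≤ 2 := by
                    have e : ({u, z, z} : Finset V) = {u, z} := by
                      ext t
                      simp only [mem_insert, mem_singleton]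
                      tauto
                    rw [e]
                    exact card_le_two
                  omega
              exact hsp.comp z (hRU hz) hz2 u huU hu9 x (hall x hxG hxne.1 hxne.2)
                (hx ▸ hG) (hx ▸ hG3)
            m2s := hc2 }
        have hE := hE45 V N H w u R Mk sp (by omega) hD hQ hex
        rw [hUR] at hE
        have e1 : (fun B => Psi (rho H N U sp B) (errv N U B) 0 (Xv U (xu H N) B)) =
            fun B => Psi (rho H N R sp B) (errv N U B) 0 (Xv U (xu H N) B) := by
          funext B
          rw [hrhoR B]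
        rw [e1]
        exact hE

end Pool.Agent.JR
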