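import Mathlib
import Pool.Agent.JR.St4

/-!
# JR: thresholds (finite layer cake decomposition) and Jensen for Psi
-/

set_option autoImplicit false

namespace Pool.Agent.JR

open Finset

/-- adding an element with the smallest value -/
private theorem J2_step {V : Type} [DecidableEq V] (mu : V → ℝ) (a : V) (s : Finset V)
    (ha : a ∉ s) (c c' : Finset V → ℝ) (hc : ∀ W, c W ≠ 0 → W ⊆ s)
    (h1 : c' (insert a s) = mu a) (h2 : c' s = c s - mu a)
    (h3 : ∀ W, W ≠ insert a s → W ≠ s → c' W = c W) (F : Finset V → ℝ) :
    ∑ W ∈ (insert a s).powerset, c' W * F W =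
      ∑ W ∈ s.powerset, c W * F W + mu a * (F (insert a s) - F s) := by
  have hne : s ≠ insert a s := fun h => ha (h ▸ mem_insert_self a s)
  rw [Finset.sum_powerset_insert ha]
  have e1 : ∑ W ∈ s.powerset, c' W * F W = ∑ W ∈ s.powerset, c W * F W - mu a * F s := by
    have e2 : ∀ W ∈ s.powerset, c' W * F W = c W * F W - if W = s then mu a * F s else 0 := by
      intro W hW
      have hW1 : W ≠ insert a s := by
        intro h
        rw [mem_powerset, h] at hW
        exact ha (hW (mem_insert_self a s))
      by_cases h : W = s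
      · subst h
        rw [h2, if_pos rfl]
        ring
      · rw [h3 W hW1 h, if_neg h, sub_zero]
    rw [Finset.sum_congr rfl e2, Finset.sum_sub_distrib, Finset.sum_ite_eq' s.powerset s,
      if_pos (mem_powerset_self s)]
  have e3 : ∑ W ∈ s.powerset, c' (insert a W) * F (insert a W) = mu a * F (insert a s) := by
    rw [Finset.sum_eq_single s]
    · rw [h1]
    · intro W hW hWs
      rw [mem_powerset] at hW
      have h4 : insert a W ≠ insert a s := by
        intro h
        apply hWs
        have h5 := congrArg (fun Z => Z.erase a) h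
        rwa [erase_insert (fun h6 => ha (hW h6)), erase_insert ha] at h5
      have h5 : insert a W ≠ s := fun h => ha (h ▸ mem_insert_self a W)
      rw [h3 _ h4 h5]
      have h6 : c (insert a W) = 0 := by
        by_contra h7
        exact ha (hc _ h7 (mem_insert_self a W))
      rw [h6, zero_mul]
    · intro h
      exact absurd (mem_powerset_self s) h
  rw [e1, e3]
  ring

private theorem J2_filter {V : Type} (S : Finset (Finset V)) (c : Finset V → ℝ)
    (P : Finset V → Prop) (dec : DecidablePred P) :
    ∑ W ∈ S.filter P, c W = ∑ W ∈ S, c W * (if P W then 1 else 0) := by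
  rw [Finset.sum_filter]
  refine Finset.sum_congr rfl fun W _ => ?_
  split_ifs <;> simp

/-- the decomposition -/
private theorem J2_main {V : Type} [DecidableEq V] (mu : V → ℝ) (U : Finset V) :
    (∀ z ∈ U, 0 ≤ mu z) → (∀ z ∈ U, mu z ≤ 1) → ∃ c : Finset V → ℝ,
    (∀ W, 0 ≤ c W) ∧ (∀ W, c W ≠ 0 → W ⊆ U ∧ ∀ z ∈ W, 0 < mu z) ∧
    ∑ W ∈ U.powerset, c W = 1 ∧
    (∀ z ∈ U, ∑ W ∈ U.powerset.filter (fun W => z ∈ W), c W = mu z) ∧
    (∀ t : ℝ, ∀ T ⊆ U, 0 ≤ t → (∀ z ∈ T, 1 - t ≤ mu z) →
      ∑ W ∈ U.powerset.filter (fun W => ¬ T ⊆ W), c W ≤ t) ∧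
    ∀ m : ℝ, m ≤ 1 → (∀ z ∈ U, m ≤ mu z) → m ≤ c U := by
  induction U using Finset.induction_on_min_value mu with
  | empty =>
    intro _ _
    refine ⟨fun W => if W = ∅ then 1 else 0, fun W => by
      show (0 : ℝ) ≤ if W = ∅ then 1 else 0
      split_ifs <;> norm_num, ?_, by simp,
      by simp, ?_, fun m hm _ => by simpa using hm⟩
    · intro W hW
      have h : W = ∅ := by
        by_contra h
        exact hW (if_neg h)
      subst h
      simp
    · intro t T hT ht _
      have h : T = ∅ := subset_empty.1 hT
      subst h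
      simpa using ht
  | insert a s ha hmin ih =>
    intro hm0 hm1
    obtain ⟨c, c1, c2, c3, c4, c5, c6⟩ := ih (fun z hz => hm0 z (mem_insert_of_mem hz))
      (fun z hz => hm1 z (mem_insert_of_mem hz))
    have ha0 := hm0 a (mem_insert_self a s)
    have ha1 := hm1 a (mem_insert_self a s)
    have hcs : mu a ≤ c s := c6 _ ha1 hmin
    have hne : s ≠ insert a s := fun h => ha (h ▸ mem_insert_self a s)
    obtain ⟨c', hc'⟩ : ∃ c' : Finset V → ℝ, c' = fun W => if W = insert a s then mu a
      else if W = s then c s - mu a else c W := ⟨_, rfl⟩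
    have h1 : c' (insert a s) = mu a := by rw [hc']; simp
    have h2 : c' s = c s - mu a := by rw [hc']; simp only [if_neg hne, if_true]
    have h3 : ∀ W, W ≠ insert a s → W ≠ s → c' W = c W := by
      intro W hW hW'
      rw [hc']
      simp only [if_neg hW, if_neg hW']
    have key := J2_step mu a s ha c c' (fun W hW => (c2 W hW).1) h1 h2 h3
    refine ⟨c', ?_, ?_, ?_, ?_, ?_, ?_⟩
    · intro W
      by_cases hW : W = insert a s
      · rw [hW, h1]; exact ha0
      · by_cases hW' : W = s
        · rw [hW', h2]; linarith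
        · rw [h3 W hW hW']; exact c1 W
    · intro W hW0
      by_cases hW : W = insert a s
      · subst hW
        refine ⟨Subset.refl _, ?_⟩
        rw [h1] at hW0
        have hpos : 0 < mu a := lt_of_le_of_ne ha0 (Ne.symm hW0)
        intro z hz
        rcases mem_insert.1 hz with rfl | hz
        · exact hpos
        · exact hpos.trans_le (hmin z hz)
      · have hc0 : c W ≠ 0 := by
          intro h
          apply hW0
          by_cases hW' : W = s
          · subst hW'
            rw [h2]
            linarith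
          · rw [h3 W hW hW', h]
        exact ⟨(c2 W hc0).1.trans (subset_insert _ _), (c2 W hc0).2⟩
    · have h := key (fun _ => 1)
      simp only [mul_one, sub_self, mul_zero, add_zero] at h
      rw [h, c3]
    · intro z hz
      rw [J2_filter, key]
      rcases mem_insert.1 hz with rfl | hzs
      · rw [if_pos (mem_insert_self _ _), if_neg ha, ← J2_filter]
        have h : s.powerset.filter (fun W => z ∈ W) = ∅ := by
          rw [filter_eq_empty_iff]
          intro W hW hzW
          exact ha (mem_powerset.1 hW hzW)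
        rw [h, sum_empty]
        ring
      · rw [if_pos hz, if_pos hzs, ← J2_filter, c4 z hzs]
        ring
    · intro t T hT ht hTt
      rw [J2_filter, key]
      by_cases haT : a ∈ T
      · have h4 : ¬ T ⊆ s := fun h => ha (h haT)
        rw [if_neg (not_not.2 hT), if_pos h4]
        have h5 : ∑ W ∈ s.powerset, c W * (if ¬ T ⊆ W then (1 : ℝ) else 0) = 1 := by
          refine Eq.trans (Finset.sum_congr rfl fun W hW => ?_) c3
          rw [if_pos (fun h => h4 (h.trans (mem_powerset.1 hW))), mul_one]
        rw [h5]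
        have := hTt a haT
        linarith
      · have hTs : T ⊆ s := fun z hz => by
          rcases mem_insert.1 (hT hz) with rfl | h
          · exact absurd hz haT
          · exact h
        rw [if_neg (not_not.2 hT), if_neg (not_not.2 hTs), ← J2_filter]
        have := c5 t T hTs ht hTt
        linarith
    · intro m _ hm
      rw [h1]
      exact hm a (mem_insert_self a s)

theorem thm_J2 : StJ2 := by
  intro V _ U mu h0 h1
  obtain ⟨c, c1, c2, c3, c4, c5, -⟩ := J2_main mu U h0 h1
  refine ⟨c, c1, c2, c3, c4, c5, ?_⟩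
  intro rho err z X0 y i hi
  obtain ⟨v, hv⟩ : ∃ v : Finset V → ℝ, v = fun W => X0 + ∑ x ∈ W, y x := ⟨_, rfl⟩
  have hmean : ∑ W ∈ U.powerset, c W * v W = X0 + ∑ x ∈ U, mu x * y x := by
    have e1 : ∀ W ∈ U.powerset, c W * v W =
        c W * X0 + ∑ x ∈ U, (if x ∈ W then c W else 0) * y x := by
      intro W hW
      rw [hv]
      simp only [mul_add, Finset.mul_sum]
      congr 1
      rw [← Finset.sum_filter_add_sum_filter_not U (fun x => x ∈ W)]
      have e2 : ∑ x ∈ U.filter (fun x => x ∉ W), (if x ∈ W then c W else 0) * y x = 0 := by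
        refine Finset.sum_eq_zero fun x hx => ?_
        rw [if_neg (mem_filter.1 hx).2, zero_mul]
      have e3 : U.filter (fun x => x ∈ W) = W := by
        ext x
        rw [mem_filter]
        exact ⟨fun h => h.2, fun h => ⟨mem_powerset.1 hW h, h⟩⟩
      rw [e2, add_zero, e3]
      refine Finset.sum_congr rfl fun x hx => ?_
      rw [if_pos hx]
    rw [Finset.sum_congr rfl e1, Finset.sum_add_distrib, ← Finset.sum_mul, c3, one_mul,
      Finset.sum_comm]
    congr 1
    refine Finset.sum_congr rfl fun x hx => ?_
    rw [← Finset.sum_mul, ← c4 x hx, Finset.sum_filter]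
  have hd : 0 ≤ ∑ x ∈ U, (1 - mu x) * i x := Finset.sum_nonneg fun x hx =>
    mul_nonneg (by linarith [h1 x hx]) (hi x)
  have harg : X0 + ∑ x ∈ U, (mu x * y x - (1 - mu x) * i x) =
      (X0 + ∑ x ∈ U, mu x * y x) - ∑ x ∈ U, (1 - mu x) * i x := by
    rw [Finset.sum_sub_distrib]
    ring
  rw [harg]
  generalize ∑ x ∈ U, (1 - mu x) * i x = d at hd ⊢
  have hlin : ∀ α β : ℝ, (∀ W, Psi rho err z (v W) ≤ α * v W + β) →
      ∑ W ∈ U.powerset, c W * Psi rho err z (X0 + ∑ x ∈ W, y x) ≤
        α * (X0 + ∑ x ∈ U, mu x * y x) + β := by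
    intro α β h
    rw [← hmean]
    calc ∑ W ∈ U.powerset, c W * Psi rho err z (X0 + ∑ x ∈ W, y x)
        ≤ ∑ W ∈ U.powerset, c W * (α * v W + β) := by
          refine Finset.sum_le_sum fun W _ => mul_le_mul_of_nonneg_left ?_ (c1 W)
          have := h W
          rwa [hv] at this ⊢
      _ = α * ∑ W ∈ U.powerset, c W * v W + β * ∑ W ∈ U.powerset, c W := by
          rw [Finset.mul_sum, Finset.mul_sum, ← Finset.sum_add_distrib]
          refine Finset.sum_congr rfl fun W _ => ?_
          ring
      _ = _ := by rw [c3, mul_one]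
  have g1 := hlin 1 rho (fun W => by
    unfold Psi
    exact (min_le_left _ _).trans (by linarith))
  have g2 := hlin (1 / 2) (-err / 2) (fun W => by
    unfold Psi
    exact ((min_le_right _ _).trans (min_le_left _ _)).trans (by linarith))
  have g3 := hlin 0 (1 + z) (fun W => by
    unfold Psi
    exact ((min_le_right _ _).trans (min_le_right _ _)).trans (by linarith))
  generalize ∑ W ∈ U.powerset, c W * Psi rho err z (X0 + ∑ x ∈ W, y x) = A at g1 g2 g3 ⊢
  unfold Psi
  refine le_min ?_ (le_min ?_ ?_)
  · linarith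
  · linarith
  · linarith

end Pool.Agent.JR
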