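import Pool.Agent.JR.StA
import Pool.Agent.JR.J2

/-!
# JR, module B1: the case `b_v ≥ 1` from the bounds for the threshold sets
-/

set_option autoImplicit false

namespace Pool.Agent.JR

open Finset
open Pool.Agent.LawB (ev ins ali Law)

private theorem B1_two {V : Type} [DecidableEq V] {k N : ℕ} {H : Finset (Finset V)}
    (h : Big k N H) (x : V) : 2 * bd H x ≤ td H x := by
  unfold bd td
  rw [Finset.card_eq_sum_ones, Finset.mul_sum]
  apply Finset.sum_le_sum
  intro F hF
  have := h.three F (Finset.mem_filter.1 hF).1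
  omega

private theorem B1_td {V : Type} [DecidableEq V] {k N : ℕ} {H : Finset (Finset V)}
    (h : Big k N H) (x : V) : td H x ≤ k * bd H x := by
  unfold bd td
  rw [Finset.card_eq_sum_ones, Finset.mul_sum]
  apply Finset.sum_le_sum
  intro F hF
  have := h.card F (Finset.mem_filter.1 hF).1
  omega

/-! ### numbers -/

private theorem B1_lam {n t b bz T P : ℝ} (hb : 1 ≤ b) (hbt : 2 * b ≤ t) (htT : t ≤ T)
    (hbz : 2 * bz ≤ T) (hT : T + 1 ≤ n) (hP : P ≤ bz / (n - b)) :
    t / T * P ≤ (t - b) / (n - b) := by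
  have hT0 : 0 < T := by linarith
  have hnb : 0 < n - b := by linarith
  have h1 : t / T * P ≤ t / T * (bz / (n - b)) :=
    mul_le_mul_of_nonneg_left hP (div_nonneg (by linarith) hT0.le)
  have h2 : t / T * (bz / (n - b)) = (t * bz / T) / (n - b) := by
    field_simp
  have h3 : t * bz / T ≤ t - b := by
    rw [div_le_iff₀ hT0]
    have h4 : t * bz ≤ t * (T / 2) := mul_le_mul_of_nonneg_left (by linarith) (by linarith)
    nlinarith
  rw [h2] at h1
  exact h1.trans (div_le_div_of_nonneg_right h3 hnb.le)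

private theorem B1_heavy {n t b bz T P C1 : ℝ} (hb : 1 ≤ b) (hbt : 2 * b ≤ t) (htT : t ≤ T)
    (hbz : 2 * bz ≤ T) (hT : T + 1 ≤ n)
    (hP : P ≤ bz / n + C1 * b / n ^ 2) :
    (t / n) ^ 2 / 4 - |C1| / n ≤ (t - b) / (n - b) - t / T * P := by
  have hT0 : 0 < T := by linarith
  have hn : 0 < n := by linarith
  have hnb : 0 < n - b := by linarith
  have hC : 0 ≤ |C1| := abs_nonneg C1
  have h1 : t / T * P ≤ t / T * (bz / n + |C1| / n) := by
    refine mul_le_mul_of_nonneg_left (hP.trans ?_) (div_nonneg (by linarith) hT0.le)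
    have h2 : C1 * b / n ^ 2 ≤ |C1| / n := by
      rw [div_le_div_iff₀ (by positivity) hn]
      have h3 : C1 * b ≤ |C1| * n := by
        refine (mul_le_mul_of_nonneg_right (le_abs_self C1) (by linarith)).trans ?_
        exact mul_le_mul_of_nonneg_left (by linarith) hC
      nlinarith
    linarith
  have h2 : t / T * (bz / n) ≤ t / n / 2 := by
    rw [div_mul_div_comm, div_div, div_le_div_iff₀ (by positivity) (by positivity)]
    have h4 : t * bz ≤ t * (T / 2) := mul_le_mul_of_nonneg_left (by linarith) (by linarith)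
    nlinarith
  have h3 : t / T * (|C1| / n) ≤ |C1| / n := by
    have h4 : t / T ≤ 1 := (div_le_one hT0).2 htT
    exact mul_le_of_le_one_left (by positivity) h4
  have h5 : t / n / 2 + (t / n) ^ 2 / 4 ≤ (t - b) / (n - b) := by
    rw [le_div_iff₀ hnb]
    obtain ⟨s, hs⟩ : ∃ s : ℝ, s = t / n := ⟨_, rfl⟩
    have hts : t = s * n := by rw [hs]; field_simp
    have hs0 : 0 ≤ s := by rw [hs]; exact div_nonneg (by linarith) hn.le
    have hs1 : s ≤ 1 := by rw [hs]; exact (div_le_one hn).2 (by linarith)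
    rw [← hs]
    have h6 : (s / 2 + s ^ 2 / 4) ≤ 1 := by nlinarith
    have h7 : b * (1 - (s / 2 + s ^ 2 / 4)) ≤ (s * n / 2) * (1 - (s / 2 + s ^ 2 / 4)) :=
      mul_le_mul_of_nonneg_right (by linarith) (by linarith)
    have h8 : 0 ≤ s ^ 3 * n := by positivity
    nlinarith
  rw [mul_add] at h1
  linarith

private theorem B1_eta {n t bz T : ℝ} (hs : 2200 * t ≤ n) (ht : 0 ≤ t)
    (hbz : 2 * bz ≤ T) (hT : T + 1 ≤ n) :
    min (2 * bz / (n - 2 * bz)) 20 - 0.01 ≤ (T - t) / (n - T) := by
  have hnT : 0 < n - T := by linarith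
  rcases le_or_gt T (20.5 * (n - T)) with h | h
  · have h1 : 2 * bz / (n - 2 * bz) ≤ T / (n - T) := by
      rw [div_le_div_iff₀ (by linarith) hnT]
      nlinarith
    have h2 : t / (n - T) ≤ 0.01 := by
      rw [div_le_iff₀ hnT]
      linarith
    have h3 : (T - t) / (n - T) = T / (n - T) - t / (n - T) := sub_div _ _ _
    have h4 := min_le_left (2 * bz / (n - 2 * bz)) 20
    linarith
  · have h4 := min_le_right (2 * bz / (n - 2 * bz)) 20
    have h5 : 19.99 ≤ (T - t) / (n - T) := by
      rw [le_div_iff₀ hnT]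
      linarith
    linarith

private theorem B1_mul {n t T : ℝ} (hT0 : 0 < T) (hT : T + 1 ≤ n) :
    (1 - t / T) * (T / (n - T)) = (T - t) / (n - T) := by
  have h1 : n - T ≠ 0 := by
    have : 0 < n - T := by linarith
    exact this.ne'
  field_simp

/-! ### averages -/

private theorem B1_cmp {V : Type} (S : Finset (Finset V)) (c : Finset V → ℝ)
    (h1 : ∑ W ∈ S, c W = 1) (P : Finset V → Prop) (dec : DecidablePred P) (a e : ℝ) :
    ∑ W ∈ S, c W * (a + if P W then e else 0) = a + e * ∑ W ∈ S.filter P, c W := by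
  simp only [mul_add, sum_add_distrib]
  rw [← sum_mul, h1, one_mul, sum_filter, mul_sum]
  congr 1
  refine sum_congr rfl fun W _ => ?_
  split_ifs
  · ring
  · ring

private theorem B1_avg {V : Type} (S : Finset (Finset V)) (c g : Finset V → ℝ)
    (hc : ∀ W, 0 ≤ c W) (h1 : ∑ W ∈ S, c W = 1) (P : Finset V → Prop) (dec : DecidablePred P)
    (a e m : ℝ) (he : 0 ≤ e) (hm : m ≤ ∑ W ∈ S.filter P, c W)
    (hg : ∀ W ∈ S, c W ≠ 0 → a ≤ g W) (hg2 : ∀ W ∈ S, c W ≠ 0 → P W → a + e ≤ g W) :
    a + e * m ≤ ∑ W ∈ S, c W * g W := by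
  have h2 : ∑ W ∈ S, c W * (a + if P W then e else 0) ≤ ∑ W ∈ S, c W * g W := by
    refine sum_le_sum fun W hW => ?_
    rcases eq_or_ne (c W) 0 with h0 | h0
    · rw [h0, zero_mul, zero_mul]
    · refine mul_le_mul_of_nonneg_left ?_ (hc W)
      split_ifs with hP
      · exact hg2 W hW h0 hP
      · rw [add_zero]
        exact hg W hW h0
  rw [B1_cmp S c h1 P dec a e] at h2
  have h4 := mul_le_mul_of_nonneg_left hm he
  linarith

private theorem B1_min {V : Type} (S : Finset (Finset V)) (c g : Finset V → ℝ)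
    (hc : ∀ W, 0 ≤ c W) (h1 : ∑ W ∈ S, c W = 1) (a : ℝ)
    (hg : ∀ W ∈ S, c W ≠ 0 → a ≤ g W) : a ≤ ∑ W ∈ S, c W * g W := by
  have h := B1_avg S c g hc h1 (fun _ => False) (fun _ => instDecidableFalse) a 0 0 le_rfl
    (by simp) hg (fun _ _ _ h => h.elim)
  rwa [zero_mul, add_zero] at h

private theorem B1_jen {V : Type} [Fintype V] [DecidableEq V] (R : Finset V)
    (mu x eta : V → ℝ) (c : Finset V → ℝ) (w : Finset (Finset V) → ℝ) (hw : ∀ B, 0 ≤ w B)
    (err Z X0 : Finset (Finset V) → ℝ)
    (hJ : ∀ rho err z X0 : ℝ, ∀ y i : V → ℝ, (∀ x, 0 ≤ i x) →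
      ∑ W ∈ R.powerset, c W * Psi rho err z (X0 + ∑ x ∈ W, y x) - ∑ x ∈ R, (1 - mu x) * i x ≤
        Psi rho err z (X0 + ∑ x ∈ R, (mu x * y x - (1 - mu x) * i x)))
    (hη : ∀ z ∈ R, mu z * x z = eta z) :
    ∑ W ∈ R.powerset, c W * ev w (fun B => Psi 0 (err B) (Z B) (X0 B + Xv W x B)) -
      ∑ z ∈ R, (1 - mu z) * ev w (fun B => if z ∈ LawB.cov B then 1 else 0) ≤
      ev w (fun B => Psi 0 (err B) (Z B) (X0 B + Xv R eta B)) := by
  have key : ∀ B, ∑ W ∈ R.powerset, c W * Psi 0 (err B) (Z B) (X0 B + Xv W x B) -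
      ∑ z ∈ R, (1 - mu z) * (if z ∈ LawB.cov B then 1 else 0) ≤
      Psi 0 (err B) (Z B) (X0 B + Xv R eta B) := by
    intro B
    have h1 := hJ 0 (err B) (Z B) (X0 B) (fun z => if z ∈ LawB.cov B then -1 else x z)
      (fun z => if z ∈ LawB.cov B then 1 else 0) (fun z => by
        show (0 : ℝ) ≤ if z ∈ LawB.cov B then 1 else 0
        split_ifs
        · exact zero_le_one
        · exact le_rfl)
    have h2 : ∑ z ∈ R, (mu z * (if z ∈ LawB.cov B then -1 else x z) -
        (1 - mu z) * (if z ∈ LawB.cov B then (1 : ℝ) else 0)) = Xv R eta B := by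
      unfold Xv
      refine sum_congr rfl fun z hz => ?_
      split_ifs
      · ring
      · rw [← hη z hz]
        ring
    rw [h2] at h1
    exact h1
  have h3 : ∑ W ∈ R.powerset, c W * ev w (fun B => Psi 0 (err B) (Z B) (X0 B + Xv W x B)) -
      ∑ z ∈ R, (1 - mu z) * ev w (fun B => if z ∈ LawB.cov B then 1 else 0) =
      ∑ B, w B * (∑ W ∈ R.powerset, c W * Psi 0 (err B) (Z B) (X0 B + Xv W x B) -
      ∑ z ∈ R, (1 - mu z) * (if z ∈ LawB.cov B then 1 else 0)) := by
    unfold ev
    simp only [mul_sub, mul_sum, sum_sub_distrib]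
    rw [sum_comm, sum_comm (s := R)]
    congr 1
    · refine sum_congr rfl fun B _ => sum_congr rfl fun W _ => by ring
    · refine sum_congr rfl fun B _ => sum_congr rfl fun z _ => by ring
  rw [h3]
  unfold ev
  exact sum_le_sum fun B _ => mul_le_mul_of_nonneg_left (key B) (hw B)

theorem thm_B1 (hW : StW) : StB1 := by
  classical
  intro k K S0 C1
  obtain ⟨c, C, N1, hc, hSW⟩ := hW k K S0 C1
  obtain ⟨C', hC'⟩ : ∃ C' : ℝ, C' = max C 0 := ⟨_, rfl⟩
  have hC0 : 0 ≤ C' := by rw [hC']; exact le_max_right _ _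
  have hCC : C ≤ C' := by rw [hC']; exact le_max_left _ _
  obtain ⟨m0, hm0⟩ : ∃ m0 : ℝ, m0 = min (1 / 2) (0.45 / (3 * k * S0)) := ⟨_, rfl⟩
  obtain ⟨D, hD⟩ : ∃ D : ℝ, D = (C' + |C1|) * (4 * 2200 ^ 2) + |C' / (m0 * c)| + 1000 * C' + 1 :=
    ⟨_, rfl⟩
  refine ⟨max N1 ⌈D⌉₊, ?_⟩
  intro V _ _ N H w U t b Z hN hBig hQ hload htU hb hbt ht7 hZ hP1 hP2 hP3 hP4 hU
  have hN1 : N1 ≤ N := (le_max_left _ _).trans hN
  have hND : D ≤ N := by
    have h1 : (⌈D⌉₊ : ℝ) ≤ N := by exact_mod_cast (le_max_right _ _).trans hN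
    exact (Nat.le_ceil D).trans h1
  -- real numbers
  obtain ⟨n, hn⟩ : ∃ n : ℝ, n = (N : ℝ) := ⟨_, rfl⟩
  have hbR : (1 : ℝ) ≤ b := by exact_mod_cast hb
  have hbtR : 2 * (b : ℝ) ≤ t := by exact_mod_cast hbt
  have ht7R : 10 * (t : ℝ) ≤ 7 * N := by exact_mod_cast ht7
  have hC1 : 0 ≤ |C1| := abs_nonneg C1
  have hq0 : 0 ≤ |C' / (m0 * c)| := abs_nonneg _
  have hNpos : (0 : ℝ) < N := by
    have : 0 ≤ (C' + |C1|) * (4 * 2200 ^ 2) := by positivity
    linarith
  have hNC : 1000 * C' ≤ N := by
    have : 0 ≤ (C' + |C1|) * (4 * 2200 ^ 2) := by positivity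
    linarith
  have hNh : (C' + |C1|) * (4 * 2200 ^ 2) ≤ N := by linarith
  have hNm : C' / (m0 * c) ≤ N := by
    have : 0 ≤ (C' + |C1|) * (4 * 2200 ^ 2) := by positivity
    have := le_abs_self (C' / (m0 * c))
    linarith
  have hCN : ∀ C'' : ℝ, C'' = C' → C'' / N ≤ 1 / 1000 := by
    rintro _ rfl
    rw [div_le_div_iff₀ hNpos (by norm_num)]
    linarith
  have hCN' := hCN C' rfl
  have hCNC : C / N ≤ C' / N := div_le_div_of_nonneg_right hCC hNpos.le
  have hCN0 : 0 ≤ C' / N := by positivity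
  -- vertices of `U`
  have hz1 : ∀ z, 2 * (bd H z : ℝ) ≤ td H z := fun z => by exact_mod_cast B1_two hBig z
  have hz2 : ∀ z, (td H z : ℝ) + 1 ≤ N := fun z => by exact_mod_cast hBig.deg z
  have hz3 : ∀ z ∈ U, (t : ℝ) ≤ td H z := fun z hz => by exact_mod_cast htU z hz
  have hz4 : ∀ z ∈ U, (0 : ℝ) < td H z := fun z hz => by linarith [hz3 z hz]
  have hxu0 : ∀ z, 0 ≤ xu H N z := fun z => by
    unfold xu
    exact div_nonneg (Nat.cast_nonneg _) (by linarith [hz2 z])
  obtain ⟨mu, hmu⟩ : ∃ mu : V → ℝ, mu = fun z => 1 - (t : ℝ) / td H z := ⟨_, rfl⟩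
  obtain ⟨eta, heta⟩ : ∃ eta : V → ℝ, eta = fun z => ((td H z : ℝ) - t) / (N - td H z) := ⟨_, rfl⟩
  have hmu0 : ∀ z ∈ U, 0 ≤ mu z := fun z hz => by
    rw [hmu]
    have := (div_le_one (hz4 z hz)).2 (hz3 z hz)
    simp only
    linarith
  have hmu1 : ∀ z ∈ U, mu z ≤ 1 := fun z hz => by
    rw [hmu]
    have : 0 ≤ (t : ℝ) / td H z := by positivity
    simp only
    linarith
  have hmue : ∀ z ∈ U, mu z * xu H N z = eta z := fun z hz => by
    rw [hmu, heta]
    exact B1_mul (hz4 z hz) (hz2 z)
  obtain ⟨lam, hlam⟩ : ∃ lam : V → ℝ, lam = fun z => ((t : ℝ) - b) / (N - b) -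
    (1 - mu z) * ev w (fun B => if z ∈ LawB.cov B then 1 else 0) := ⟨_, rfl⟩
  have hlam0 : ∀ z ∈ U, 0 ≤ lam z := fun z hz => by
    have := B1_lam hbR hbtR (hz3 z hz) (hz1 z) (hz2 z) (hP1 z hz)
    rw [hlam, hmu]
    simp only [sub_sub_cancel]
    linarith
  -- the threshold sets
  obtain ⟨g, hg⟩ : ∃ g : Finset V → ℝ, g = fun W =>
    ev w (fun B => Psi 0 (errv ((N : ℝ) - t) U B) (Z B) (Xv W (xu H N) B)) := ⟨_, rfl⟩
  have hM1 : 0.3 * (N : ℝ) ≤ (N : ℝ) - t := by linarith
  have hM2 : (N : ℝ) - t ≤ N := by linarith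
  have hbN : (b : ℝ) ≤ N := by linarith
  have hS := fun (W : Finset V) (hWU : W ⊆ U) (h3 : ∀ z ∈ W, 3 ≤ td H z) =>
    hSW V N H w U W ((N : ℝ) - t) b Z hN1 hBig hQ hWU hload h3 hM1 hM2 hbR hbN hZ hP2 hP3 hP4
  have hmu3 : ∀ R ⊆ U, ∀ W ⊆ R, (∀ z ∈ W, 0 < mu z) → ∀ z ∈ W, 3 ≤ td H z := by
    intro R hR W hW hpos z hz
    have h1 := hpos z hz
    rw [hmu] at h1
    simp only at h1
    have h2 : (t : ℝ) / td H z < 1 := by linarith
    rw [div_lt_one (hz4 z (hR (hW hz)))] at h2
    have h3 : t < td H z := by exact_mod_cast h2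
    omega
  -- one very heavy vertex kept apart
  have hone : ∀ u ∈ U, vh H N u → ∀ W ⊆ U, u ∉ W → (∀ z ∈ W, ¬ vh H N z) →
      (∀ z ∈ W, 3 ≤ td H z) → ∀ xx : ℝ,
      min (2 * (bd H u : ℝ) / (N - 2 * bd H u)) 20 - 0.01 ≤ xx →
      min (0.005 - C' / N) (1 - 2 * (bd H u : ℝ) / N - C' * b / (N : ℝ) ^ 2) ≤
      ev w (fun B => Psi 0 (errv ((N : ℝ) - t) U B) (Z B)
        ((if u ∈ LawB.cov B then -1 else xx) + Xv W (xu H N) B)) := by
    intro u hu hvu W hW huW hnv h3 xx hxx
    refine le_trans ?_ ((hS W hW h3).2.2.2 u hu huW hvu hnv xx hxx)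
    refine min_le_min (by linarith) ?_
    have h4 : C * b / (N : ℝ) ^ 2 ≤ C' * b / (N : ℝ) ^ 2 :=
      div_le_div_of_nonneg_right (mul_le_mul_of_nonneg_right hCC (by linarith)) (by positivity)
    linarith
  have hCb : C' * b / (N : ℝ) ^ 2 ≤ b / N := by
    rw [div_le_div_iff₀ (by positivity) hNpos]
    have h1 : C' * b ≤ N * b := mul_le_mul_of_nonneg_right (by linarith) (by linarith)
    nlinarith
  have hCb2 : C' * b / (N : ℝ) ^ 2 ≤ C' / N := by
    rw [div_le_div_iff₀ (by positivity) hNpos]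
    have h1 : C' * b ≤ C' * N := mul_le_mul_of_nonneg_left hbN hC0
    nlinarith
  have hsplit : ∀ (W : Finset V) (x : V → ℝ) (u : V), u ∈ W → ∀ B, Xv W x B =
      (if u ∈ LawB.cov B then -1 else x u) + Xv (W.erase u) x B := by
    intro W x u hu B
    unfold Xv
    exact (add_sum_erase W _ hu).symm
  have hbeta : ∀ z, 2 * (bd H z : ℝ) / N ≤ 1 - 1 / N := by
    intro z
    have h1 := hz1 z
    have h2 := hz2 z
    rw [div_le_iff₀ hNpos, sub_mul, one_mul, div_mul_cancel₀ _ hNpos.ne']
    linarith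
  have hgen : ∀ W ⊆ U, (∀ z ∈ W, 3 ≤ td H z) → -(C' / N) ≤ g W := by
    intro W hW h3
    obtain ⟨i1, -, i3, -⟩ := hS W hW h3
    rw [hg]
    by_cases hnv : ∀ z ∈ W, ¬ vh H N z
    · refine le_trans ?_ (i1 hnv)
      rw [neg_div]
      linarith
    · push Not at hnv
      obtain ⟨u, hu, hvu⟩ := hnv
      by_cases hnv2 : ∃ u₂ ∈ W, u ≠ u₂ ∧ vh H N u₂
      · obtain ⟨u₂, hu₂, hne, hvu₂⟩ := hnv2
        refine le_trans ?_ (i3 u hu u₂ hu₂ hne hvu hvu₂)
        linarith
      · have h4 : ∀ z ∈ W.erase u, ¬ vh H N z := by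
          intro z hz hv
          exact hnv2 ⟨z, mem_of_mem_erase hz, (ne_of_mem_erase hz).symm, hv⟩
        have h5 : min (2 * (bd H u : ℝ) / (N - 2 * bd H u)) 20 - 0.01 ≤ xu H N u := by
          have h6 : 2 * (bd H u : ℝ) / (N - 2 * bd H u) ≤ xu H N u := by
            unfold xu
            have h7 := hz1 u
            have h8 := hz2 u
            rw [div_le_div_iff₀ (by linarith) (by linarith)]
            nlinarith
          have h9 := min_le_left (2 * (bd H u : ℝ) / (N - 2 * bd H u)) 20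
          linarith
        have h6 := hone u (hW hu) hvu (W.erase u) ((erase_subset u W).trans hW)
          (notMem_erase u W) h4 (fun z hz => h3 z (mem_of_mem_erase hz)) (xu H N u) h5
        have h7 : (fun B => Psi 0 (errv ((N : ℝ) - t) U B) (Z B) (Xv W (xu H N) B)) =
            fun B => Psi 0 (errv ((N : ℝ) - t) U B) (Z B)
              ((if u ∈ LawB.cov B then -1 else xu H N u) + Xv (W.erase u) (xu H N) B) := by
          funext B
          rw [hsplit W (xu H N) u hu B]
        simp only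
        rw [h7]
        refine le_trans (le_min ?_ ?_) h6
        · linarith
        · have h8 := hbeta u
          have h9 : 0 < 1 / (N : ℝ) := by positivity
          linarith
  -- the sum over the vertices
  have hcard : (U.card : ℝ) * (((t : ℝ) - b) / (N - b)) =
      ∑ z ∈ U, ((t : ℝ) - b) / (N - b) := by
    rw [sum_const, nsmul_eq_mul]
  have hnv0 : ∀ z, vh H N z → 0.8 * (N : ℝ) ≤ td H z := by
    intro z hz
    unfold vh at hz
    have h1 : 2 * (N : ℝ) ≤ 5 * bd H z := by exact_mod_cast hz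
    have h2 := hz1 z
    linarith
  rw [← heta] at hU ⊢
  -- reduction to the threshold sets
  have hred : ∀ c' : Finset V → ℝ, (∀ rho err z X0 : ℝ, ∀ y i : V → ℝ, (∀ x, 0 ≤ i x) →
      ∑ W ∈ U.powerset, c' W * Psi rho err z (X0 + ∑ x ∈ W, y x) -
        ∑ x ∈ U, (1 - mu x) * i x ≤
        Psi rho err z (X0 + ∑ x ∈ U, (mu x * y x - (1 - mu x) * i x))) →
      ∑ W ∈ U.powerset, c' W * g W + ∑ z ∈ U, lam z ≤
      ev w (fun B => Psi 0 (errv ((N : ℝ) - t) U B) (Z B) (Xv U eta B)) +
        U.card * (((t : ℝ) - b) / (N - b)) := by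
    intro c' hJ
    have h1 := B1_jen U mu (xu H N) eta c' w hQ.nonneg (errv ((N : ℝ) - t) U) Z (fun _ => 0) hJ hmue
    simp only [zero_add] at h1
    rw [hcard, hg, hlam, sum_sub_distrib]
    linarith
  have hne : U.Nonempty := by
    rw [nonempty_iff_ne_empty]
    rintro rfl
    rw [sum_empty] at hU
    linarith
  obtain ⟨z0, hz0⟩ := hne
  by_cases hheavy : (N : ℝ) ≤ 2200 * t
  · -- heavy
    obtain ⟨c', c1, c2, c3, -, -, c6⟩ := thm_J2 V U mu hmu0 hmu1
    refine le_trans ?_ (hred c' c6)
    have h1 : -(C' / N) ≤ ∑ W ∈ U.powerset, c' W * g W := by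
      refine B1_min U.powerset c' g c1 c3 _ fun W hW h0 => ?_
      have hWU := mem_powerset.1 hW
      exact hgen W hWU (hmu3 U (Subset.refl _) W hWU (c2 W h0).2)
    have h2 : lam z0 ≤ ∑ z ∈ U, lam z := single_le_sum hlam0 hz0
    have h3 := B1_heavy hbR hbtR (hz3 z0 hz0) (hz1 z0) (hz2 z0) (hP2 z0 hz0)
    have h4 : lam z0 = ((t : ℝ) - b) / (N - b) - t / td H z0 *
        ev w (fun B => if z0 ∈ LawB.cov B then 1 else 0) := by
      rw [hlam, hmu]
      simp only [sub_sub_cancel]
    rw [← h4] at h3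
    have h5 : (1 / 2200 : ℝ) ≤ t / N := by
      rw [div_le_div_iff₀ (by norm_num) hNpos]
      linarith
    have h6 : (1 / 2200 : ℝ) ^ 2 / 4 ≤ ((t : ℝ) / N) ^ 2 / 4 :=
      div_le_div_of_nonneg_right (pow_le_pow_left₀ (by norm_num) h5 2) (by norm_num)
    have h7 : C' / N + |C1| / N ≤ (1 / 2200 : ℝ) ^ 2 / 4 := by
      rw [← add_div, div_le_iff₀ hNpos]
      linarith
    linarith
  · -- light
    push Not at hheavy
    have htN : 0 ≤ (t : ℝ) := Nat.cast_nonneg t
    by_cases hA : ∀ z ∈ U, ¬ vh H N z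
    · -- no very heavy vertex
      obtain ⟨c', c1, c2, c3, c4, c5, c6⟩ := thm_J2 V U mu hmu0 hmu1
      refine le_trans ?_ (hred c' c6)
      have hlam1 : 0 ≤ ∑ z ∈ U, lam z := sum_nonneg hlam0
      have hbd0 : 1 ≤ bd H z0 ∧ 1 ≤ k := by
        have h1 := B1_td hBig z0
        have h2 := htU z0 hz0
        have h3 : 0 < k * bd H z0 := by omega
        exact ⟨Nat.pos_of_mul_pos_left h3, Nat.pos_of_mul_pos_right h3⟩
      have hk0 : (1 : ℝ) ≤ k := by exact_mod_cast hbd0.2
      have hload0 : 0 < load H N U := by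
        unfold load
        refine sum_pos' (fun z _ => by positivity) ⟨z0, hz0, ?_⟩
        have : (1 : ℝ) ≤ bd H z0 := by exact_mod_cast hbd0.1
        positivity
      have hS0 : 0 < S0 := hload0.trans_le hload
      have hT0 : 0 < 3 * (k : ℝ) * S0 := by positivity
      have hm0' : 0 < m0 := by
        rw [hm0]
        exact lt_min (by norm_num) (by positivity)
      have hmass : m0 ≤ ∑ W ∈ U.powerset.filter (fun W => 0.45 ≤ ∑ z ∈ W, xu H N z), c' W := by
        by_cases hx : ∀ z ∈ U, xu H N z ≤ 2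
        · -- small values
          have e1 : ∑ z ∈ U, xu H N z ≤ 3 * k * S0 := by
            have e2 : ∀ z ∈ U, xu H N z ≤ 3 * k * ((bd H z : ℝ) / N) := by
              intro z hz
              have h1 := hx z hz
              have h2 := hz2 z
              have h3 : (td H z : ℝ) ≤ k * bd H z := by exact_mod_cast B1_td hBig z
              unfold xu at h1 ⊢
              rw [div_le_iff₀ (by linarith)] at h1 ⊢
              have h4 : (N : ℝ) / 3 ≤ N - td H z := by linarith
              have h5 : 0 ≤ 3 * k * ((bd H z : ℝ) / N) := by positivity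
              have h6 := mul_le_mul_of_nonneg_left h4 h5
              have h7 : 3 * k * ((bd H z : ℝ) / N) * ((N : ℝ) / 3) = k * bd H z := by
                field_simp
              linarith
            refine (sum_le_sum e2).trans ?_
            rw [← mul_sum]
            exact mul_le_mul_of_nonneg_left hload (by positivity)
          have e3 : ∑ z ∈ U, eta z = ∑ W ∈ U.powerset, c' W * ∑ z ∈ W, xu H N z := by
            have e4 : ∀ z ∈ U, eta z =
                ∑ W ∈ U.powerset, c' W * (if z ∈ W then xu H N z else 0) := by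
              intro z hz
              rw [← hmue z hz, ← c4 z hz, sum_filter, sum_mul]
              refine sum_congr rfl fun W _ => ?_
              split_ifs
              · rfl
              · ring
            rw [sum_congr rfl e4, sum_comm]
            refine sum_congr rfl fun W hW => ?_
            rw [← mul_sum, ← sum_filter]
            congr 2
            ext z
            rw [mem_filter]
            exact ⟨fun h => h.2, fun h => ⟨mem_powerset.1 hW h, h⟩⟩
          have e5 : ∑ W ∈ U.powerset, c' W * ∑ z ∈ W, xu H N z ≤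
              ∑ W ∈ U.powerset, c' W * (0.45 + if 0.45 ≤ ∑ z ∈ W, xu H N z then
                3 * k * S0 else 0) := by
            refine sum_le_sum fun W hW => mul_le_mul_of_nonneg_left ?_ (c1 W)
            split_ifs with h1
            · have h2 : ∑ z ∈ W, xu H N z ≤ ∑ z ∈ U, xu H N z :=
                sum_le_sum_of_subset_of_nonneg (mem_powerset.1 hW) fun z _ _ => hxu0 z
              linarith
            · push Not at h1
              linarith
          rw [B1_cmp U.powerset c' c3 (fun W => 0.45 ≤ ∑ z ∈ W, xu H N z) _ 0.45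
            (3 * k * S0), ← e3] at e5
          have e7 : m0 ≤ 0.45 / (3 * k * S0) := by
            rw [hm0]
            exact min_le_right _ _
          refine e7.trans ?_
          rw [div_le_iff₀ hT0]
          have e6 : 0.9 < ∑ z ∈ U, eta z := hU
          linarith
        · -- a large value
          push Not at hx
          obtain ⟨z1, hz1U, hz1x⟩ := hx
          have h1 : 2 * ((N : ℝ) - td H z1) < td H z1 := by
            unfold xu at hz1x
            rwa [lt_div_iff₀ (by linarith [hz2 z1])] at hz1x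
          have h2 : 1 - 1 / 2 ≤ mu z1 := by
            rw [hmu]
            simp only
            have h2 : (t : ℝ) / td H z1 ≤ 1 / 2 := by
              rw [div_le_div_iff₀ (by linarith) (by norm_num)]
              linarith
            linarith
          have h3 := c5 (1 / 2) {z1} (singleton_subset_iff.2 hz1U) (by norm_num) (by
            intro z hz
            rw [mem_singleton] at hz
            rw [hz]
            exact h2)
          have h4 := sum_filter_add_sum_filter_not U.powerset
            (fun W => ({z1} : Finset V) ⊆ W) c'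
          have h5 : 1 / 2 ≤ ∑ W ∈ U.powerset.filter (fun W => ({z1} : Finset V) ⊆ W), c' W := by
            linarith
          have e7 : m0 ≤ 1 / 2 := by
            rw [hm0]
            exact min_le_left _ _
          refine e7.trans (h5.trans ?_)
          refine sum_le_sum_of_subset_of_nonneg ?_ fun W _ _ => c1 W
          intro W hW
          rw [mem_filter] at hW ⊢
          refine ⟨hW.1, ?_⟩
          have h6 : xu H N z1 ≤ ∑ z ∈ W, xu H N z :=
            single_le_sum (f := xu H N) (fun z _ => hxu0 z) (singleton_subset_iff.1 hW.2)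
          linarith
      have h4 := B1_avg U.powerset c' g c1 c3 _ _ (-(C' / N)) c m0 hc.le hmass
        (fun W hW h0 => hgen W (mem_powerset.1 hW)
          (hmu3 U (Subset.refl _) W (mem_powerset.1 hW) (c2 W h0).2))
        (fun W hW h0 hWP => by
          have h5 := (hS W (mem_powerset.1 hW) (hmu3 U (Subset.refl _) W (mem_powerset.1 hW)
            (c2 W h0).2)).2.1 (fun z hz => hA z (mem_powerset.1 hW hz)) hWP
          rw [hg]
          simp only
          linarith)
      have h5 : C' / N ≤ c * m0 := by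
        rw [div_le_iff₀ hNpos]
        rw [div_le_iff₀ (by positivity)] at hNm
        linarith
      linarith
    · push Not at hA
      obtain ⟨u, hu, hvu⟩ := hA
      have hd : (b : ℝ) / N ≤ ((t : ℝ) - b) / (N - b) := by
        rw [div_le_div_iff₀ hNpos (by linarith)]
        nlinarith
      by_cases hB : ∃ u₂ ∈ U, u ≠ u₂ ∧ vh H N u₂
      · obtain ⟨u₂, hu₂, hne, hvu₂⟩ := hB
        obtain ⟨c', c1, c2, c3, c4, c5, c6⟩ := thm_J2 V U mu hmu0 hmu1
        refine le_trans ?_ (hred c' c6)
        have hlam1 : 0 ≤ ∑ z ∈ U, lam z := sum_nonneg hlam0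
        have hmuv : ∀ z, vh H N z → 1 - 1 / 2 ≤ mu z := by
          intro z hz
          have h1 := hnv0 z hz
          rw [hmu]
          simp only
          have h2 : (t : ℝ) / td H z ≤ 1 / 2 := by
            rw [div_le_div_iff₀ (by linarith) (by norm_num)]
            linarith
          linarith
        have h1 := c5 (1 / 2) {u, u₂} (by
          intro z hz
          rw [mem_insert, mem_singleton] at hz
          rcases hz with rfl | rfl
          · exact hu
          · exact hu₂) (by norm_num) (by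
          intro z hz
          rw [mem_insert, mem_singleton] at hz
          rcases hz with rfl | rfl
          · exact hmuv _ hvu
          · exact hmuv _ hvu₂)
        have h2 := sum_filter_add_sum_filter_not U.powerset
          (fun W => ({u, u₂} : Finset V) ⊆ W) c'
        have h3 : 1 / 2 ≤ ∑ W ∈ U.powerset.filter (fun W => ({u, u₂} : Finset V) ⊆ W), c' W := by
          linarith
        have h4 := B1_avg U.powerset c' g c1 c3 _ _ (-(C' / N)) 0.04 (1 / 2) (by norm_num) h3
          (fun W hW h0 => hgen W (mem_powerset.1 hW)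
            (hmu3 U (Subset.refl _) W (mem_powerset.1 hW) (c2 W h0).2))
          (fun W hW h0 hWT => by
            have h5 := (hS W (mem_powerset.1 hW) (hmu3 U (Subset.refl _) W (mem_powerset.1 hW)
              (c2 W h0).2)).2.2.1 u (hWT (mem_insert_self _ _)) u₂
              (hWT (mem_insert_of_mem (mem_singleton_self _))) hne hvu hvu₂
            rw [hg]
            simp only
            linarith)
        linarith
      · -- exactly one
        have hR : U.erase u ⊆ U := erase_subset u U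
        have hnvR : ∀ z ∈ U.erase u, ¬ vh H N z := by
          intro z hz hv
          exact hB ⟨z, mem_of_mem_erase hz, (ne_of_mem_erase hz).symm, hv⟩
        obtain ⟨c', c1, c2, c3, -, -, c6⟩ := thm_J2 V (U.erase u) mu
          (fun z hz => hmu0 z (hR hz)) (fun z hz => hmu1 z (hR hz))
        have h1 := B1_jen (U.erase u) mu (xu H N) eta c' w hQ.nonneg
          (errv ((N : ℝ) - t) U) Z (fun B => if u ∈ LawB.cov B then -1 else eta u) c6
          (fun z hz => hmue z (hR hz))
        have h2 : (fun B => Psi 0 (errv ((N : ℝ) - t) U B) (Z B) (Xv U eta B)) =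
            fun B => Psi 0 (errv ((N : ℝ) - t) U B) (Z B)
              ((if u ∈ LawB.cov B then -1 else eta u) + Xv (U.erase u) eta B) := by
          funext B
          rw [hsplit U eta u hu B]
        rw [← h2] at h1
        have h3 : min (0.005 - C' / N) (1 - 2 * (bd H u : ℝ) / N - C' * b / (N : ℝ) ^ 2) ≤
            ∑ W ∈ (U.erase u).powerset, c' W * ev w (fun B =>
              Psi 0 (errv ((N : ℝ) - t) U B) (Z B)
                ((if u ∈ LawB.cov B then -1 else eta u) + Xv W (xu H N) B)) := by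
          refine B1_min (U.erase u).powerset c' _ c1 c3 _ fun W hW h0 => ?_
          have hWR := mem_powerset.1 hW
          refine hone u hu hvu W (hWR.trans hR) (fun h => notMem_erase u U (hWR h))
            (fun z hz => hnvR z (hWR hz)) (hmu3 _ hR W hWR (c2 W h0).2) (eta u) ?_
          rw [heta]
          exact B1_eta (by linarith) htN (hz1 u) (hz2 u)
        have h4 : (U.card : ℝ) * (((t : ℝ) - b) / (N - b)) =
            ((t : ℝ) - b) / (N - b) + ∑ z ∈ U.erase u, ((t : ℝ) - b) / (N - b) := by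
          rw [hcard, add_sum_erase U (fun _ => ((t : ℝ) - b) / (N - b)) hu]
        have h5 : 0 ≤ ∑ z ∈ U.erase u, lam z := sum_nonneg fun z hz => hlam0 z (hR hz)
        rw [hlam, sum_sub_distrib] at h5
        have h6 : 0 ≤ min (0.005 - C' / N) (1 - 2 * (bd H u : ℝ) / N - C' * b / (N : ℝ) ^ 2) +
            ((t : ℝ) - b) / (N - b) := by
          have h7 := hbeta u
          have h8 : 0 < 1 / (N : ℝ) := by positivity
          have h9 : 0 ≤ (b : ℝ) / N := by positivity
          rcases min_choice (0.005 - C' / N)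
            (1 - 2 * (bd H u : ℝ) / N - C' * b / (N : ℝ) ^ 2) with h | h
          · rw [h]
            linarith
          · rw [h]
            linarith
        linarith

end Pool.Agent.JR
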