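import Pool.Agent.JR.Mom

/-!
# JR, section 4: moments with a distinguished vertex
-/

set_option autoImplicit false

namespace Pool.Agent.JR

open Finset
open Pool.Agent.LawB (ev ins ali Law CB NB Conc CC ali_mem ev_add ev_sub ev_smul ev_sum)

variable {V : Type*} [DecidableEq V]

/-- at most `k` edges at `u` meet a given edge which does not contain `u` -/
lemma meet_le {k N : ℕ} {H : Finset (Finset V)} (hB : Big k N H) (u : V) {F : Finset V}
    (hF : F ∈ H) (hu : u ∉ F) :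
    ((H.filter fun G => u ∈ G).filter fun G => ¬ Disjoint G F).card ≤ k := by
  have h1 : (H.filter fun G => u ∈ G).filter (fun G => ¬ Disjoint G F)
      ⊆ F.biUnion (fun y => H.filter fun G => u ∈ G ∧ y ∈ G) := by
    intro G hG
    obtain ⟨hG1, hG2⟩ := Finset.mem_filter.1 hG
    obtain ⟨hG3, hG4⟩ := Finset.mem_filter.1 hG1
    obtain ⟨y, hy1, hy2⟩ := Finset.not_disjoint_iff.1 hG2
    exact Finset.mem_biUnion.2 ⟨y, hy2, Finset.mem_filter.2 ⟨hG3, hG4, hy1⟩⟩
  refine (Finset.card_le_card h1).trans ?_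
  refine (Finset.card_biUnion_le_card_mul F _ 1 ?_).trans (by
    rw [mul_one]; exact hB.card F hF)
  intro y hy
  rw [Finset.card_le_one]
  intro A hA B hB'
  obtain ⟨hA1, hA2, hA3⟩ := Finset.mem_filter.1 hA
  obtain ⟨hB1, hB2, hB3⟩ := Finset.mem_filter.1 hB'
  by_contra hAB
  have h2 := hB.lin A hA1 B hB1 hAB
  have h3 : ({u, y} : Finset V) ⊆ A ∩ B := by
    intro z hz
    rcases Finset.mem_insert.1 hz with rfl | hz
    · exact Finset.mem_inter.2 ⟨hA2, hB2⟩
    · rw [Finset.mem_singleton] at hz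
      subst hz
      exact Finset.mem_inter.2 ⟨hA3, hB3⟩
  have h4 := Finset.card_le_card h3
  have huy : u ≠ y := by
    rintro rfl
    exact hu hy
  rw [Finset.card_pair huy] at h4
  omega

/-- the sum over the edges at `u` which meet `F` -/
lemma sum_meet {k N : ℕ} {H : Finset (Finset V)} (hB : Big k N H) (u : V) {F : Finset V}
    (hF : F ∈ H) (hu : u ∉ F) :
    ∑ G ∈ H.filter (fun G => u ∈ G), (if Disjoint G F then (0 : ℝ) else 1) ≤ k := by
  have h1 : ∑ G ∈ H.filter (fun G => u ∈ G), (if Disjoint G F then (0 : ℝ) else 1)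
      = (((H.filter fun G => u ∈ G).filter fun G => ¬ Disjoint G F).card : ℝ) := by
    rw [Finset.card_filter]
    push_cast
    apply Finset.sum_congr rfl
    intro G _
    by_cases h : Disjoint G F <;> simp [h]
  rw [h1]
  exact_mod_cast meet_le hB u hF hu

lemma bd_le {k N : ℕ} {H : Finset (Finset V)} (hB : Big k N H) (u : V) : bd H u ≤ N := by
  have := hB.two_bd_lt u
  omega

variable [Fintype V] {K : ℝ} {k N : ℕ} {H : Finset (Finset V)} {w : Finset (Finset V) → ℝ}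

/-- the weight `w` restricted to the matchings which contain `G` -/
noncomputable def wg (w : Finset (Finset V) → ℝ) (G : Finset V) : Finset (Finset V) → ℝ :=
  fun B => w B * ins {G} B

lemma ev_wg (G : Finset V) (f : Finset (Finset V) → ℝ) :
    ev (wg w G) f = ev w (fun B => ins {G} B * f B) := by
  unfold ev wg
  exact Finset.sum_congr rfl fun B _ => by ring

lemma wg_one (hQ : QLaw K N H w) {G : Finset V} (hG : G ∈ H) :
    |ev (wg w G) (fun _ => 1) - 1 / N| ≤ (K / N) ^ 2 := by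
  have e : ev (wg w G) (fun _ => 1) = ev w (ins {G}) := by
    rw [ev_wg]
    congr 1
    funext B
    ring
  rw [e]
  exact hQ.one hG

lemma pair_zero (hQ : QLaw K N H w) {G F : Finset V} (hGF : G ≠ F) (hd : ¬ Disjoint G F)
    (f : Finset (Finset V) → ℝ) :
    ev w (fun B => ins {G} B * (ins {F} B * f B)) = 0 := by
  unfold ev
  apply Finset.sum_eq_zero
  intro B _
  by_cases hB : w B = 0
  · rw [hB, zero_mul]
  · have hPD := (hQ.supp B hB).2
    beta_reduce
    rw [ins_single, ins_single]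
    by_cases h1 : G ∈ B
    · by_cases h2 : F ∈ B
      · exact absurd (hPD G h1 F h2 hGF) hd
      · rw [if_neg h2]; ring
    · rw [if_neg h1]; ring

lemma wg_two (hQ : QLaw K N H w) (hN : 0 < N) {G F : Finset V} (hG : G ∈ H) (hF : F ∈ H)
    (hG0 : G.Nonempty) (hGF : G ≠ F) :
    |ev (wg w G) (ins {F}) - 1 / N / N|
      ≤ (K / N) ^ 3 + 1 / (N : ℝ) ^ 2 * (if Disjoint G F then 0 else 1) := by
  have hNr : (0 : ℝ) < N := by exact_mod_cast hN
  have hK := hQ.K_nonneg hN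
  have e2 : 1 / (N : ℝ) / N = 1 / (N : ℝ) ^ 2 := by rw [div_div, sq]
  rw [ev_wg, e2]
  by_cases hd : Disjoint G F
  · rw [if_pos hd, mul_zero, add_zero]
    exact hQ.two hG hF hG0 hd
  · rw [if_neg hd, mul_one]
    have h1 := pair_zero hQ hGF hd (fun _ => 1)
    simp only [mul_one] at h1
    rw [h1, zero_sub, abs_neg, abs_of_nonneg (by positivity)]
    have : 0 ≤ (K / N) ^ 3 := by positivity
    linarith

lemma wg_three (hQ : QLaw K N H w) (hN : 0 < N) {G F E : Finset V} (hG : G ∈ H) (hF : F ∈ H)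
    (hE : E ∈ H) (hG0 : G.Nonempty) (hF0 : F.Nonempty) (hGF : G ≠ F) (hGE : G ≠ E)
    (hFE : Disjoint F E) :
    |ev (wg w G) (fun B => ins {F} B * ins {E} B) - 1 / N / N ^ 2|
      ≤ (K / N) ^ 4 + 1 / (N : ℝ) ^ 3 * ((if Disjoint G F then 0 else 1)
        + (if Disjoint G E then 0 else 1)) := by
  have hNr : (0 : ℝ) < N := by exact_mod_cast hN
  have hK := hQ.K_nonneg hN
  have e2 : 1 / (N : ℝ) / (N : ℝ) ^ 2 = 1 / (N : ℝ) ^ 3 := by
    rw [div_div]; congr 1; ring
  rw [ev_wg, e2]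
  have hp4 : 0 ≤ (K / N) ^ 4 := by positivity
  have hp3 : 0 ≤ 1 / (N : ℝ) ^ 3 := by positivity
  by_cases hd : Disjoint G F
  · by_cases hd' : Disjoint G E
    · rw [if_pos hd, if_pos hd', add_zero, mul_zero, add_zero]
      exact hQ.three hG hF hE hG0 hF0 hd hd' hFE
    · rw [if_pos hd, if_neg hd', zero_add, mul_one]
      have h1 := pair_zero hQ hGE hd' (ins {F})
      have e : (fun B => ins {G} B * (ins {F} B * ins {E} B))
          = fun B => ins {G} B * (ins {E} B * ins {F} B) := by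
        funext B; ring
      rw [e, h1, zero_sub, abs_neg, abs_of_nonneg hp3]
      linarith
  · rw [if_neg hd]
    have h1 := pair_zero hQ hGF hd (ins {E})
    rw [h1, zero_sub, abs_neg, abs_of_nonneg hp3]
    have h2 : (0 : ℝ) ≤ if Disjoint G E then 0 else 1 := by split_ifs <;> norm_num
    nlinarith

/-- the errors, summed over the edges at `u` -/
theorem sum_wg (hB : Big k N H) (hQ : QLaw K N H w) (hN : 0 < N) (u : V) (a : Finset V → ℝ)
    (a0 S0 c1 : ℝ) (ha : ∀ F ∈ H, 0 ≤ a F ∧ a F ≤ a0) (hS : (∑ F ∈ H, a F) / N ≤ S0)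
    (cG : Finset V → ℝ) (hc : ∀ G ∈ H, u ∈ G → |cG G| ≤ c1) :
    ∑ G ∈ H.filter (fun G => u ∈ G),
      |ev (wg w G) (fun B => (∑ F ∈ H.filter (fun F => u ∉ F), a F * ins {F} B + cG G) ^ 2)
        - 1 / N * (((∑ F ∈ H.filter (fun F => u ∉ F), a F) / N + cG G) ^ 2
          + VF (H.filter fun F => u ∉ F) N a)|
      ≤ (c1 ^ 2 * K ^ 2 + (2 * |c1| + |a0|) * (|S0| * (K ^ 3 + k))
        + S0 ^ 2 * (K ^ 4 + 2 * k)) / N := by
  have hNr : (0 : ℝ) < N := by exact_mod_cast hN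
  have hK := hQ.K_nonneg hN
  have hne := hB.nonempty
  set H' := H.filter (fun F => u ∉ F) with hH'
  set HU := H.filter (fun G => u ∈ G) with hHU
  have hsub : H' ⊆ H := Finset.filter_subset _ _
  have ha' : ∀ F ∈ H', 0 ≤ a F ∧ a F ≤ a0 := fun F hF => ha F (hsub hF)
  set A := ∑ F ∈ H', a F with hA
  have hA0 : 0 ≤ A := Finset.sum_nonneg fun F hF => (ha' F hF).1
  have hAN : A ≤ N * |S0| := by
    have h1 : A ≤ ∑ F ∈ H, a F :=
      Finset.sum_le_sum_of_subset_of_nonneg hsub fun F hF _ => (ha F hF).1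
    have h2 : ∑ F ∈ H, a F ≤ S0 * N := by rwa [div_le_iff₀ hNr] at hS
    have h3 : S0 * N ≤ |S0| * N := mul_le_mul_of_nonneg_right (le_abs_self _) hNr.le
    linarith
  have hcardU : (HU.card : ℝ) ≤ N := by
    have : HU.card ≤ N := bd_le hB u
    exact_mod_cast this
  -- the bound for one edge
  have hone : ∀ G ∈ HU,
      |ev (wg w G) (fun B => (∑ F ∈ H', a F * ins {F} B + cG G) ^ 2)
        - 1 / N * ((A / N + cG G) ^ 2 + VF H' N a)|
      ≤ c1 ^ 2 * (K / N) ^ 2
        + (2 * |c1| + |a0|) * ∑ F ∈ H', a F * ((K / N) ^ 3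
          + 1 / (N : ℝ) ^ 2 * (if Disjoint G F then 0 else 1))
        + ∑ F ∈ H', ∑ E ∈ H', a F * a E * ((K / N) ^ 4 + 1 / (N : ℝ) ^ 3
          * ((if Disjoint G F then 0 else 1) + (if Disjoint G E then 0 else 1))) := by
    intro G hG
    obtain ⟨hG1, hG2⟩ := Finset.mem_filter.1 hG
    have hGF : ∀ F ∈ H', G ≠ F := by
      intro F hF e
      exact (Finset.mem_filter.1 hF).2 (e ▸ hG2)
    have h1 := sq_err (wg w G) (fun B hB' => by
        have : w B ≠ 0 := by
          intro h0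
          apply hB'
          unfold wg
          rw [h0, zero_mul]
        exact (hQ.supp B this).2) H' (fun F hF => hne F (hsub hF)) N a a0 (cG G) (1 / N) ha'
    refine h1.trans ?_
    have hc1 := hc G hG1 hG2
    have t1 : cG G ^ 2 * |ev (wg w G) (fun _ => 1) - 1 / N| ≤ c1 ^ 2 * (K / N) ^ 2 := by
      apply mul_le_mul _ (wg_one hQ hG1) (abs_nonneg _) (sq_nonneg _)
      rw [← sq_abs (cG G)]
      exact pow_le_pow_left₀ (abs_nonneg _) hc1 2
    have s2 : ∑ F ∈ H', a F * |ev (wg w G) (ins {F}) - 1 / N / N|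
        ≤ ∑ F ∈ H', a F * ((K / N) ^ 3 + 1 / (N : ℝ) ^ 2 * (if Disjoint G F then 0 else 1)) := by
      apply Finset.sum_le_sum
      intro F hF
      exact mul_le_mul_of_nonneg_left (wg_two hQ hN hG1 (hsub hF) (hne G hG1) (hGF F hF))
        (ha' F hF).1
    have s2' : 0 ≤ ∑ F ∈ H', a F * |ev (wg w G) (ins {F}) - 1 / N / N| :=
      Finset.sum_nonneg fun F hF => mul_nonneg (ha' F hF).1 (abs_nonneg _)
    have t2 : (2 * |cG G| + a0) * ∑ F ∈ H', a F * |ev (wg w G) (ins {F}) - 1 / N / N|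
        ≤ (2 * |c1| + |a0|) * ∑ F ∈ H', a F * ((K / N) ^ 3
          + 1 / (N : ℝ) ^ 2 * (if Disjoint G F then 0 else 1)) := by
      have h2 : 2 * |cG G| + a0 ≤ 2 * |c1| + |a0| := by
        have := le_abs_self c1
        have := le_abs_self a0
        linarith
      exact (mul_le_mul_of_nonneg_right h2 s2').trans
        (mul_le_mul_of_nonneg_left s2 (by positivity))
    have t3 : ∑ F ∈ H', ∑ E ∈ H'.filter (fun E => Disjoint F E),
        a F * a E * |ev (wg w G) (fun B => ins {F} B * ins {E} B) - 1 / N / N ^ 2|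
        ≤ ∑ F ∈ H', ∑ E ∈ H', a F * a E * ((K / N) ^ 4 + 1 / (N : ℝ) ^ 3
          * ((if Disjoint G F then 0 else 1) + (if Disjoint G E then 0 else 1))) := by
      apply Finset.sum_le_sum
      intro F hF
      refine (Finset.sum_le_sum (g := fun E => a F * a E * ((K / N) ^ 4 + 1 / (N : ℝ) ^ 3
          * ((if Disjoint G F then 0 else 1) + (if Disjoint G E then 0 else 1)))) ?_).trans ?_
      · intro E hE
        obtain ⟨hE1, hE2⟩ := Finset.mem_filter.1 hE
        exact mul_le_mul_of_nonneg_left (wg_three hQ hN hG1 (hsub hF) (hsub hE1) (hne G hG1)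
          (hne F (hsub hF)) (hGF F hF) (hGF E hE1) hE2) (mul_nonneg (ha' F hF).1 (ha' E hE1).1)
      · apply Finset.sum_le_sum_of_subset_of_nonneg (Finset.filter_subset _ _)
        intro E hE _
        have b1 := (ha' F hF).1
        have b2 := (ha' E hE).1
        have b3 : (0 : ℝ) ≤ (if Disjoint G F then 0 else 1) := by split_ifs <;> norm_num
        have b4 : (0 : ℝ) ≤ (if Disjoint G E then 0 else 1) := by split_ifs <;> norm_num
        positivity
    linarith
  refine (Finset.sum_le_sum hone).trans ?_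
  rw [Finset.sum_add_distrib, Finset.sum_add_distrib]
  -- first term
  have u1 : ∑ _G ∈ HU, c1 ^ 2 * (K / N) ^ 2 ≤ c1 ^ 2 * K ^ 2 / N := by
    rw [Finset.sum_const, nsmul_eq_mul]
    have h1 : (HU.card : ℝ) * (c1 ^ 2 * (K / N) ^ 2) ≤ N * (c1 ^ 2 * (K / N) ^ 2) :=
      mul_le_mul_of_nonneg_right hcardU (by positivity)
    refine h1.trans (le_of_eq ?_)
    field_simp
  -- second term
  have v2 : ∑ G ∈ HU, ∑ F ∈ H', a F * ((K / N) ^ 3
      + 1 / (N : ℝ) ^ 2 * (if Disjoint G F then 0 else 1)) ≤ |S0| * (K ^ 3 + k) / N := by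
    rw [Finset.sum_comm]
    have h1 : ∀ F ∈ H', ∑ G ∈ HU, a F * ((K / N) ^ 3
        + 1 / (N : ℝ) ^ 2 * (if Disjoint G F then 0 else 1))
        ≤ a F * ((K ^ 3 + k) / (N : ℝ) ^ 2) := by
      intro F hF
      rw [← Finset.mul_sum, Finset.sum_add_distrib, ← Finset.mul_sum, Finset.sum_const,
        nsmul_eq_mul]
      apply mul_le_mul_of_nonneg_left _ (ha' F hF).1
      have h2 := sum_meet hB u (hsub hF) (Finset.mem_filter.1 hF).2
      have h3 : (HU.card : ℝ) * (K / N) ^ 3 ≤ N * (K / N) ^ 3 :=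
        mul_le_mul_of_nonneg_right hcardU (by positivity)
      have h4 := mul_le_mul_of_nonneg_left h2 (by positivity : 0 ≤ 1 / (N : ℝ) ^ 2)
      have e : (K ^ 3 + k) / (N : ℝ) ^ 2 = N * (K / N) ^ 3 + 1 / (N : ℝ) ^ 2 * k := by
        field_simp
      rw [e]
      linarith
    refine (Finset.sum_le_sum h1).trans ?_
    rw [← Finset.sum_mul]
    have h5 : A * ((K ^ 3 + k) / (N : ℝ) ^ 2) ≤ (N * |S0|) * ((K ^ 3 + k) / (N : ℝ) ^ 2) :=
      mul_le_mul_of_nonneg_right hAN (by positivity)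
    refine h5.trans (le_of_eq ?_)
    field_simp
  have u2 : ∑ G ∈ HU, (2 * |c1| + |a0|) * ∑ F ∈ H', a F * ((K / N) ^ 3
      + 1 / (N : ℝ) ^ 2 * (if Disjoint G F then 0 else 1))
      ≤ (2 * |c1| + |a0|) * (|S0| * (K ^ 3 + k) / N) := by
    rw [← Finset.mul_sum]
    exact mul_le_mul_of_nonneg_left v2 (by positivity)
  -- third term
  have u3 : ∑ G ∈ HU, ∑ F ∈ H', ∑ E ∈ H', a F * a E * ((K / N) ^ 4 + 1 / (N : ℝ) ^ 3
      * ((if Disjoint G F then 0 else 1) + (if Disjoint G E then 0 else 1)))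
      ≤ S0 ^ 2 * (K ^ 4 + 2 * k) / N := by
    rw [Finset.sum_comm]
    have h1 : ∀ F ∈ H', ∑ G ∈ HU, ∑ E ∈ H', a F * a E * ((K / N) ^ 4 + 1 / (N : ℝ) ^ 3
        * ((if Disjoint G F then 0 else 1) + (if Disjoint G E then 0 else 1)))
        ≤ ∑ E ∈ H', a F * a E * ((K ^ 4 + 2 * k) / (N : ℝ) ^ 3) := by
      intro F hF
      rw [Finset.sum_comm]
      apply Finset.sum_le_sum
      intro E hE
      rw [← Finset.mul_sum, Finset.sum_add_distrib, ← Finset.mul_sum, Finset.sum_add_distrib,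
        Finset.sum_const, nsmul_eq_mul]
      apply mul_le_mul_of_nonneg_left _ (mul_nonneg (ha' F hF).1 (ha' E hE).1)
      have h2 := sum_meet hB u (hsub hF) (Finset.mem_filter.1 hF).2
      have h2' := sum_meet hB u (hsub hE) (Finset.mem_filter.1 hE).2
      have h3 : (HU.card : ℝ) * (K / N) ^ 4 ≤ N * (K / N) ^ 4 :=
        mul_le_mul_of_nonneg_right hcardU (by positivity)
      have h4 := mul_le_mul_of_nonneg_left (add_le_add h2 h2')
        (by positivity : 0 ≤ 1 / (N : ℝ) ^ 3)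
      have e : (K ^ 4 + 2 * k) / (N : ℝ) ^ 3 = N * (K / N) ^ 4 + 1 / (N : ℝ) ^ 3 * (k + k) := by
        field_simp
        ring
      rw [e]
      linarith
    refine (Finset.sum_le_sum h1).trans ?_
    have e1 : ∑ F ∈ H', ∑ E ∈ H', a F * a E * ((K ^ 4 + 2 * k) / (N : ℝ) ^ 3)
        = A ^ 2 * ((K ^ 4 + 2 * k) / (N : ℝ) ^ 3) := by
      rw [sq, hA, Finset.sum_mul_sum, Finset.sum_mul]
      exact Finset.sum_congr rfl fun F _ => (Finset.sum_mul _ _ _).symm
    rw [e1]
    have h5 : A ^ 2 ≤ (N * |S0|) ^ 2 := pow_le_pow_left₀ hA0 hAN 2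
    have h6 : A ^ 2 * ((K ^ 4 + 2 * k) / (N : ℝ) ^ 3)
        ≤ (N * |S0|) ^ 2 * ((K ^ 4 + 2 * k) / (N : ℝ) ^ 3) :=
      mul_le_mul_of_nonneg_right h5 (by positivity)
    refine h6.trans (le_of_eq ?_)
    rw [mul_pow, sq_abs]
    field_simp
  have e9 : (c1 ^ 2 * K ^ 2 + (2 * |c1| + |a0|) * (|S0| * (K ^ 3 + k))
        + S0 ^ 2 * (K ^ 4 + 2 * k)) / N
      = c1 ^ 2 * K ^ 2 / N + (2 * |c1| + |a0|) * (|S0| * (K ^ 3 + k) / N)
        + S0 ^ 2 * (K ^ 4 + 2 * k) / N := by ring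
  rw [e9]
  linarith

/-- the square over a subset of the edges -/
theorem sub_sq (hB : Big k N H) (hQ : QLaw K N H w) (hN : 0 < N) (H' : Finset (Finset V))
    (hsub : H' ⊆ H) (a : Finset V → ℝ) (a0 S0 c1 c : ℝ) (ha : ∀ F ∈ H, 0 ≤ a F ∧ a F ≤ a0)
    (hS : (∑ F ∈ H, a F) / N ≤ S0) (hc : |c| ≤ c1) :
    |ev w (fun B => (∑ F ∈ H', a F * ins {F} B + c) ^ 2)
        - (((∑ F ∈ H', a F) / N + c) ^ 2 + VF H' N a)|
      ≤ ((2 * |c1| + |a0|) * (|S0| * K ^ 2) + S0 ^ 2 * K ^ 3) / N := by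
  have hNr : (0 : ℝ) < N := by exact_mod_cast hN
  have hK := hQ.K_nonneg hN
  have hne := hB.nonempty
  have ha' : ∀ F ∈ H', 0 ≤ a F ∧ a F ≤ a0 := fun F hF => ha F (hsub hF)
  set A := ∑ F ∈ H', a F with hA
  have hA0 : 0 ≤ A := Finset.sum_nonneg fun F hF => (ha' F hF).1
  have hAN : A ≤ N * |S0| := by
    have h1 : A ≤ ∑ F ∈ H, a F :=
      Finset.sum_le_sum_of_subset_of_nonneg hsub fun F hF _ => (ha F hF).1
    have h2 : ∑ F ∈ H, a F ≤ S0 * N := by rwa [div_le_iff₀ hNr] at hS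
    have h3 : S0 * N ≤ |S0| * N := mul_le_mul_of_nonneg_right (le_abs_self _) hNr.le
    linarith
  have h1 := sq_err w (fun B hB' => (hQ.supp B hB').2) H' (fun F hF => hne F (hsub hF)) N a a0 c 1
    ha'
  rw [hQ.const', one_mul, sub_self, abs_zero, mul_zero, zero_add] at h1
  refine h1.trans ?_
  have s2 : ∑ F ∈ H', a F * |ev w (ins {F}) - 1 / N| ≤ |S0| * K ^ 2 / N := by
    have h2 : ∑ F ∈ H', a F * |ev w (ins {F}) - 1 / N| ≤ ∑ F ∈ H', a F * (K / N) ^ 2 :=
      Finset.sum_le_sum fun F hF => mul_le_mul_of_nonneg_left (hQ.one (hsub hF)) (ha' F hF).1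
    rw [← Finset.sum_mul] at h2
    have h3 : A * (K / N) ^ 2 ≤ (N * |S0|) * (K / N) ^ 2 :=
      mul_le_mul_of_nonneg_right hAN (by positivity)
    refine h2.trans (h3.trans (le_of_eq ?_))
    field_simp
  have s2' : 0 ≤ ∑ F ∈ H', a F * |ev w (ins {F}) - 1 / N| :=
    Finset.sum_nonneg fun F hF => mul_nonneg (ha' F hF).1 (abs_nonneg _)
  have t2 : (2 * |c| + a0) * ∑ F ∈ H', a F * |ev w (ins {F}) - 1 / N|
      ≤ (2 * |c1| + |a0|) * (|S0| * K ^ 2 / N) := by
    have h2 : 2 * |c| + a0 ≤ 2 * |c1| + |a0| := by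
      have := le_abs_self c1
      have := le_abs_self a0
      linarith
    exact (mul_le_mul_of_nonneg_right h2 s2').trans
      (mul_le_mul_of_nonneg_left s2 (by positivity))
  have t3 : ∑ F ∈ H', ∑ E ∈ H'.filter (fun E => Disjoint F E),
      a F * a E * |ev w (fun B => ins {F} B * ins {E} B) - 1 / N ^ 2| ≤ S0 ^ 2 * K ^ 3 / N := by
    have h2 : ∑ F ∈ H', ∑ E ∈ H'.filter (fun E => Disjoint F E),
        a F * a E * |ev w (fun B => ins {F} B * ins {E} B) - 1 / N ^ 2|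
        ≤ ∑ F ∈ H', ∑ E ∈ H', a F * a E * (K / N) ^ 3 := by
      apply Finset.sum_le_sum
      intro F hF
      refine (Finset.sum_le_sum (g := fun E => a F * a E * (K / N) ^ 3) ?_).trans ?_
      · intro E hE
        obtain ⟨hE1, hE2⟩ := Finset.mem_filter.1 hE
        exact mul_le_mul_of_nonneg_left (hQ.two (hsub hF) (hsub hE1) (hne F (hsub hF)) hE2)
          (mul_nonneg (ha' F hF).1 (ha' E hE1).1)
      · apply Finset.sum_le_sum_of_subset_of_nonneg (Finset.filter_subset _ _)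
        intro E hE _
        have b1 := (ha' F hF).1
        have b2 := (ha' E hE).1
        positivity
    refine h2.trans ?_
    have e1 : ∑ F ∈ H', ∑ E ∈ H', a F * a E * (K / N) ^ 3 = A ^ 2 * (K / N) ^ 3 := by
      rw [sq, hA, Finset.sum_mul_sum, Finset.sum_mul]
      exact Finset.sum_congr rfl fun F _ => (Finset.sum_mul _ _ _).symm
    rw [e1]
    have h5 : A ^ 2 ≤ (N * |S0|) ^ 2 := pow_le_pow_left₀ hA0 hAN 2
    have h6 : A ^ 2 * (K / N) ^ 3 ≤ (N * |S0|) ^ 2 * (K / N) ^ 3 :=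
      mul_le_mul_of_nonneg_right h5 (by positivity)
    refine h6.trans (le_of_eq ?_)
    rw [mul_pow, sq_abs]
    field_simp
  have e9 : ((2 * |c1| + |a0|) * (|S0| * K ^ 2) + S0 ^ 2 * K ^ 3) / N
      = (2 * |c1| + |a0|) * (|S0| * K ^ 2 / N) + S0 ^ 2 * K ^ 3 / N := by ring
  rw [e9]
  linarith

omit [Fintype V] in
/-- the indicator of `u` covered -/
lemma cov_ind (B : Finset (Finset V)) (hBH : B ⊆ H) (hPD : PD B) (u : V) (f : ℝ) :
    (if u ∈ LawB.cov B then f else 0)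
      = ∑ G ∈ H.filter (fun G => u ∈ G), ins {G} B * f := by
  by_cases hu : u ∈ LawB.cov B
  · rw [if_pos hu]
    obtain ⟨F, hF, huF⟩ := Finset.mem_biUnion.1 hu
    rw [Finset.sum_eq_single_of_mem F (Finset.mem_filter.2 ⟨hBH hF, huF⟩)]
    · rw [ins_single, if_pos hF, one_mul]
    · intro G hG hGF
      rw [ins_single, if_neg, zero_mul]
      intro hGB
      exact Finset.disjoint_left.1 (hPD G hGB F hF hGF) (Finset.mem_filter.1 hG).2 huF
  · rw [if_neg hu]
    symm
    apply Finset.sum_eq_zero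
    intro G hG
    rw [ins_single, if_neg, zero_mul]
    intro hGB
    exact hu (Finset.mem_biUnion.2 ⟨G, hGB, (Finset.mem_filter.1 hG).2⟩)

omit [Fintype V] in
/-- the additive functional if `u` is free -/
lemma Ja_free (a : Finset V → ℝ) (B : Finset (Finset V)) (hBH : B ⊆ H) (u : V)
    (hu : u ∉ LawB.cov B) :
    Ja a B = ∑ F ∈ H.filter (fun F => u ∉ F), a F * ins {F} B := by
  apply Ja_eq
  intro F hF
  refine Finset.mem_filter.2 ⟨hBH hF, fun huF => ?_⟩
  exact hu (Finset.mem_biUnion.2 ⟨F, hF, huF⟩)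

omit [Fintype V] in
/-- the additive functional if `u` is covered by `G` -/
lemma Ja_covered (a : Finset V → ℝ) (B : Finset (Finset V)) (hBH : B ⊆ H) (hPD : PD B) (u : V)
    {G : Finset V} (hG : G ∈ B) (hu : u ∈ G) :
    Ja a B = a G + ∑ F ∈ H.filter (fun F => u ∉ F), a F * ins {F} B := by
  rw [Ja_eq H a B hBH, ← Finset.sum_filter_add_sum_filter_not H (fun F => u ∈ F)]
  congr 1
  rw [Finset.sum_eq_single_of_mem G (Finset.mem_filter.2 ⟨hBH hG, hu⟩)]
  · rw [ins_single, if_pos hG, mul_one]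
  · intro F hF hFG
    rw [ins_single, if_neg, mul_zero]
    intro hFB
    exact Finset.disjoint_left.1 (hPD F hFB G hG hFG) (Finset.mem_filter.1 hF).2 hu

theorem thm_Q3 : StQ3 := by
  intro k K a0 S0 c0
  refine ⟨((2 * |c0| + |a0|) * (|S0| * K ^ 2) + S0 ^ 2 * |K| ^ 3)
    + (((|a0| + |c0|) ^ 2 * K ^ 2 + (2 * (abs (|a0| + |c0|)) + |a0|) * (|S0| * (|K| ^ 3 + k))
        + S0 ^ 2 * (K ^ 4 + 2 * k)) + K ^ 2), ?_⟩
  intro V _ _ N H w a c u hN hB hQ ha hS hc
  have hNr : (0 : ℝ) < N := by exact_mod_cast hN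
  have hK := hQ.K_nonneg hN
  rw [abs_of_nonneg hK]
  set C1 := (2 * |c0| + |a0|) * (|S0| * K ^ 2) + S0 ^ 2 * K ^ 3 with hC1
  set C2 := (|a0| + |c0|) ^ 2 * K ^ 2 + (2 * (abs (|a0| + |c0|)) + |a0|) * (|S0| * (K ^ 3 + k))
        + S0 ^ 2 * (K ^ 4 + 2 * k) with hC2
  have hC10 : 0 ≤ C1 := by positivity
  have hC20 : 0 ≤ C2 := by positivity
  have hK2 : 0 ≤ K ^ 2 := sq_nonneg K
  set H' := H.filter (fun F => u ∉ F) with hH'
  set HU := H.filter (fun G => u ∈ G) with hHU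
  have hsub : H' ⊆ H := Finset.filter_subset _ _
  have hcc : |c| ≤ |c0| := hc.trans (le_abs_self _)
  set A := ∑ F ∈ H', a F with hA
  set VV := VF H' N a with hVV
  refine ⟨?_, ?_, ?_⟩
  · have e1 : ev w (fun B => if u ∈ LawB.cov B then 1 else 0) = ∑ G ∈ HU, ev w (ins {G}) := by
      rw [← ev_sum]
      apply le_antisymm
      · refine hQ.mono' fun B hBH hPD => ?_
        rw [cov_ind B hBH hPD u 1]
        simp
        exact le_rfl
      · refine hQ.mono' fun B hBH hPD => ?_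
        rw [cov_ind B hBH hPD u 1]
        simp
        exact le_rfl
    rw [e1]
    have e2 : ∑ G ∈ HU, ev w (ins {G}) - (bd H u : ℝ) / N
        = ∑ G ∈ HU, (ev w (ins {G}) - 1 / N) := by
      rw [Finset.sum_sub_distrib, Finset.sum_const, nsmul_eq_mul]
      have : (HU.card : ℝ) = bd H u := rfl
      rw [this]; ring
    rw [e2]
    refine (Finset.abs_sum_le_sum_abs _ _).trans ?_
    have h3 : ∑ G ∈ HU, |ev w (ins {G}) - 1 / N| ≤ ∑ _G ∈ HU, (K / N) ^ 2 :=
      Finset.sum_le_sum fun G hG => hQ.one (Finset.mem_filter.1 hG).1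
    rw [Finset.sum_const, nsmul_eq_mul] at h3
    have hcardU : (HU.card : ℝ) ≤ N := by
      have : HU.card ≤ N := bd_le hB u
      exact_mod_cast this
    have h4 : (HU.card : ℝ) * (K / N) ^ 2 ≤ N * (K / N) ^ 2 :=
      mul_le_mul_of_nonneg_right hcardU (by positivity)
    have h5 : (N : ℝ) * (K / N) ^ 2 = K ^ 2 / N := by field_simp
    have h6 : K ^ 2 / N ≤ (C1 + (C2 + K ^ 2)) / N := by
      apply div_le_div_of_nonneg_right _ hNr.le
      linarith
    linarith
  · have e1 : ev w (fun B => if u ∈ LawB.cov B then 0 else (Ja a B - c) ^ 2)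
        = ev w (fun B => (∑ F ∈ H', a F * ins {F} B + (-c)) ^ 2)
          - ∑ G ∈ HU, ev (wg w G) (fun B => (∑ F ∈ H', a F * ins {F} B + (-c)) ^ 2) := by
      have e2 : ∑ G ∈ HU, ev (wg w G) (fun B => (∑ F ∈ H', a F * ins {F} B + (-c)) ^ 2)
          = ev w (fun B => ∑ G ∈ HU, ins {G} B * (∑ F ∈ H', a F * ins {F} B + (-c)) ^ 2) := by
        rw [ev_sum]
        exact Finset.sum_congr rfl fun G _ => ev_wg G _
      rw [e2, ← ev_sub]
      have key : ∀ B, B ⊆ H → PD B → (if u ∈ LawB.cov B then 0 else (Ja a B - c) ^ 2)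
          = (∑ F ∈ H', a F * ins {F} B + (-c)) ^ 2
            - ∑ G ∈ HU, ins {G} B * (∑ F ∈ H', a F * ins {F} B + (-c)) ^ 2 := by
        intro B hBH hPD
        rw [← cov_ind B hBH hPD u]
        by_cases hu : u ∈ LawB.cov B
        · rw [if_pos hu, if_pos hu]; ring
        · rw [if_neg hu, if_neg hu, Ja_free a B hBH u hu]; ring
      apply le_antisymm
      · exact hQ.mono' fun B hBH hPD => (key B hBH hPD).le
      · exact hQ.mono' fun B hBH hPD => (key B hBH hPD).ge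
    rw [e1]
    have h1 := (abs_le.1 (sub_sq hB hQ hN H' hsub a a0 S0 |c0| (-c) ha hS
      (by rw [abs_neg]; exact hcc))).2
    have h2 := sum_wg hB hQ hN u a a0 S0 (|a0| + |c0|) ha hS (fun _ => -c) (fun G _ _ => by
      rw [abs_neg]
      have := abs_nonneg a0
      linarith)
    rw [abs_abs, ← hC1] at h1
    rw [← hC2] at h2
    have h3 : ∑ G ∈ HU, 1 / N * ((A / N + (-c)) ^ 2 + VV)
        - ∑ G ∈ HU, ev (wg w G) (fun B => (∑ F ∈ H', a F * ins {F} B + (-c)) ^ 2) ≤ C2 / N := by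
      rw [← Finset.sum_sub_distrib]
      refine (Finset.sum_le_sum fun G _ => ?_).trans h2
      rw [← neg_sub]
      exact neg_le_abs _
    rw [Finset.sum_const, nsmul_eq_mul] at h3
    have hcU : (HU.card : ℝ) = bd H u := rfl
    rw [hcU] at h3
    have e5 : (A / N - c) ^ 2 = (A / N + (-c)) ^ 2 := by ring
    rw [e5]
    have e6 : (C1 + (C2 + K ^ 2)) / N = C1 / N + C2 / N + K ^ 2 / N := by ring
    rw [e6]
    have e7 : 0 ≤ K ^ 2 / N := by positivity
    have e8 : (1 - (bd H u : ℝ) / N) * ((A / N + (-c)) ^ 2 + VV)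
        = ((A / N + (-c)) ^ 2 + VV) - bd H u * (1 / N * ((A / N + (-c)) ^ 2 + VV)) := by ring
    rw [e8]
    linarith
  · have e1 : ev w (fun B => if u ∈ LawB.cov B then (Ja a B - c) ^ 2 else 0)
        = ∑ G ∈ HU, ev (wg w G) (fun B => (∑ F ∈ H', a F * ins {F} B + (a G - c)) ^ 2) := by
      have e2 : ∑ G ∈ HU, ev (wg w G) (fun B => (∑ F ∈ H', a F * ins {F} B + (a G - c)) ^ 2)
          = ev w (fun B => ∑ G ∈ HU, ins {G} B
            * (∑ F ∈ H', a F * ins {F} B + (a G - c)) ^ 2) := by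
        rw [ev_sum]
        exact Finset.sum_congr rfl fun G _ => ev_wg G _
      rw [e2]
      have key : ∀ B, B ⊆ H → PD B → (if u ∈ LawB.cov B then (Ja a B - c) ^ 2 else 0)
          = ∑ G ∈ HU, ins {G} B * (∑ F ∈ H', a F * ins {F} B + (a G - c)) ^ 2 := by
        intro B hBH hPD
        rw [cov_ind B hBH hPD u]
        apply Finset.sum_congr rfl
        intro G hG
        by_cases hGB : G ∈ B
        · rw [Ja_covered a B hBH hPD u hGB (Finset.mem_filter.1 hG).2]; ring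
        · rw [ins_single, if_neg hGB]; ring
      apply le_antisymm
      · exact hQ.mono' fun B hBH hPD => (key B hBH hPD).le
      · exact hQ.mono' fun B hBH hPD => (key B hBH hPD).ge
    rw [e1]
    have h2 := sum_wg hB hQ hN u a a0 S0 (|a0| + |c0|) ha hS (fun G => a G - c) (fun G hG _ => by
      have h4 := abs_sub (a G) c
      have h5 : |a G| ≤ |a0| := by
        rw [abs_of_nonneg (ha G hG).1]
        exact (ha G hG).2.trans (le_abs_self _)
      linarith)
    rw [← hC2] at h2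
    have h3 : ∑ G ∈ HU, ev (wg w G) (fun B => (∑ F ∈ H', a F * ins {F} B + (a G - c)) ^ 2)
        - ∑ G ∈ HU, 1 / N * ((A / N + (a G - c)) ^ 2 + VV) ≤ C2 / N := by
      rw [← Finset.sum_sub_distrib]
      exact (Finset.sum_le_sum fun G _ => le_abs_self _).trans h2
    have e5 : (∑ G ∈ HU, ((a G + A / N - c) ^ 2 + VV)) / N
        = ∑ G ∈ HU, 1 / N * ((A / N + (a G - c)) ^ 2 + VV) := by
      rw [Finset.sum_div]
      exact Finset.sum_congr rfl fun G _ => by ring
    rw [e5]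
    have e6 : (C1 + (C2 + K ^ 2)) / N = C1 / N + C2 / N + K ^ 2 / N := by ring
    rw [e6]
    have e7 : 0 ≤ K ^ 2 / N := by positivity
    have e8 : 0 ≤ C1 / N := by positivity
    linarith

end Pool.Agent.JR
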