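import Pool.Agent.JR.StF
import Pool.Agent.JR.Mom3

/-!
# JR: the chances given that `v` is free, with errors relative to `b_v`
-/

set_option autoImplicit false

namespace Pool.Agent.JR

open Finset
open Pool.Agent.LawB (ev ins ali Law CB NB Conc CC ali_mem ev_add ev_sub ev_smul ev_sum)

variable {V : Type*} [DecidableEq V] [Fintype V]

private lemma C1_pair {C0 : ℝ} {k N : ℕ} {H : Finset (Finset V)} {w : Finset (Finset V) → ℝ}
    (hN : 0 < N) (hB : Big k N H) (hL : Law C0 N H w) {G F : Finset V} (hG : G ∈ H)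
    (hF : F ∈ H) :
    1 / (N : ℝ) ^ 2 - 1 / (N : ℝ) ^ 2 * (if Disjoint G F then 0 else 1)
      - |C0| ^ 3 * (k : ℝ) ^ 2 / (N : ℝ) ^ 3
      ≤ ev w (fun B => ins {G} B * ins {F} B) := by
  have hNr : (0 : ℝ) < N := by exact_mod_cast hN
  by_cases hd : Disjoint G F
  · rw [if_pos hd, mul_zero, sub_zero]
    have h1 := hL.pair hG hF (hB.nonempty G hG) (hB.nonempty F hF) hd
    have e : (fun B => ins {G} B * ins {F} B) = ins ({G, F} : Finset (Finset V)) := by
      funext B; exact (LawB.ins_insert G {F} B).symm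
    rw [e]
    have h2 := (abs_le.1 h1).1
    have h3 : (C0 / N) ^ 3 * ((G.card : ℝ) * F.card) ≤ |C0| ^ 3 * (k : ℝ) ^ 2 / (N : ℝ) ^ 3 := by
      have g1 : (G.card : ℝ) ≤ k := by exact_mod_cast hB.card G hG
      have g2 : (F.card : ℝ) ≤ k := by exact_mod_cast hB.card F hF
      have g3 : (G.card : ℝ) * F.card ≤ (k : ℝ) ^ 2 := by
        rw [sq]; exact mul_le_mul g1 g2 (by positivity) (by positivity)
      have g4 : (C0 / N) ^ 3 ≤ (|C0| / N) ^ 3 := by
        have h5 : (C0 / N) ^ 3 ≤ |(C0 / N) ^ 3| := le_abs_self _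
        rwa [abs_pow, abs_div, abs_of_pos hNr] at h5
      calc (C0 / N) ^ 3 * ((G.card : ℝ) * F.card) ≤ (|C0| / N) ^ 3 * ((G.card : ℝ) * F.card) :=
            mul_le_mul_of_nonneg_right g4 (by positivity)
        _ ≤ (|C0| / N) ^ 3 * (k : ℝ) ^ 2 := mul_le_mul_of_nonneg_left g3 (by positivity)
        _ = |C0| ^ 3 * (k : ℝ) ^ 2 / (N : ℝ) ^ 3 := by rw [div_pow]; ring
    linarith
  · rw [if_neg hd, mul_one, sub_self, zero_sub]
    have h1 : 0 ≤ ev w (fun B => ins {G} B * ins {F} B) := by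
      unfold ev
      refine Finset.sum_nonneg fun B _ => mul_nonneg (hL.nonneg B) ?_
      beta_reduce
      rw [ins_single, ins_single]
      split_ifs <;> norm_num
    have h2 : 0 ≤ |C0| ^ 3 * (k : ℝ) ^ 2 / (N : ℝ) ^ 3 := by positivity
    linarith

private lemma C1_one {C0 : ℝ} {k N : ℕ} {H : Finset (Finset V)} {w : Finset (Finset V) → ℝ}
    (hN : 0 < N) (hB : Big k N H) (hL : Law C0 N H w) (v : V) {G : Finset V} (hG : G ∈ H) :
    ev w (fun B => ins {G} B * ali {v} B)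
      ≤ 1 / N - (bd H v : ℝ) / (N : ℝ) ^ 2
        + 1 / (N : ℝ) ^ 2 * ∑ F ∈ H.filter (fun F => v ∈ F), (if Disjoint G F then 0 else 1)
        + bd H v * (|C0| ^ 3 * (k : ℝ) ^ 2 / (N : ℝ) ^ 3) := by
  have e1 : ev w (fun B => ins {G} B * ali {v} B)
      = ev w (ins {G}) - ∑ F ∈ H.filter (fun F => v ∈ F), ev w (fun B => ins {G} B * ins {F} B) := by
    rw [← ev_sum, ← ev_sub]
    apply hL.ev_congr
    intro B h1 h2
    rw [LawB.ali_singleton_eq H v B h1 h2, mul_sub, mul_one, Finset.mul_sum]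
  rw [e1, hL.marg G hG]
  have h1 : ∑ F ∈ H.filter (fun F => v ∈ F), (1 / (N : ℝ) ^ 2
      - 1 / (N : ℝ) ^ 2 * (if Disjoint G F then 0 else 1)
      - |C0| ^ 3 * (k : ℝ) ^ 2 / (N : ℝ) ^ 3)
      ≤ ∑ F ∈ H.filter (fun F => v ∈ F), ev w (fun B => ins {G} B * ins {F} B) :=
    Finset.sum_le_sum fun F hF => C1_pair hN hB hL hG (Finset.mem_filter.1 hF).1
  rw [Finset.sum_sub_distrib, Finset.sum_sub_distrib, Finset.sum_const, Finset.sum_const,
    nsmul_eq_mul, nsmul_eq_mul, ← Finset.mul_sum] at h1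
  have e2 : ((H.filter fun F => v ∈ F).card : ℝ) = bd H v := rfl
  rw [e2] at h1
  have e3 : (bd H v : ℝ) / (N : ℝ) ^ 2 = bd H v * (1 / (N : ℝ) ^ 2) := by ring
  rw [e3]
  linarith

private lemma C1_main {C0 : ℝ} {k N : ℕ} {H : Finset (Finset V)} {w : Finset (Finset V) → ℝ}
    (hN : 0 < N) (hB : Big k N H) (hL : Law C0 N H w) (v u : V)
    (huv : ∀ F ∈ H, v ∈ F → u ∉ F) (a : Finset V → ℝ) (a0 : ℝ)
    (ha : ∀ F ∈ H, 0 ≤ a F ∧ a F ≤ a0) (ha0 : 0 ≤ a0) :
    ∑ G ∈ HG H u, a G * ev w (fun B => ins {G} B * ali {v} B) ≤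
      ((∑ G ∈ HG H u, a G) / N + (2 * (a0 * k + a0 * (|C0| ^ 3 * (k : ℝ) ^ 2))) * bd H v
        / (N : ℝ) ^ 2) * ev w (ali {v}) := by
  have hNr : (0 : ℝ) < N := by exact_mod_cast hN
  have hsub : HG H u ⊆ H := Finset.filter_subset _ _
  set A := ∑ G ∈ HG H u, a G with hA
  set E := |C0| ^ 3 * (k : ℝ) ^ 2 with hE
  have hE0 : 0 ≤ E := by positivity
  have h1 : ∑ G ∈ HG H u, a G * ev w (fun B => ins {G} B * ali {v} B)
      ≤ ∑ G ∈ HG H u, (a G * (1 / N - (bd H v : ℝ) / (N : ℝ) ^ 2)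
        + 1 / (N : ℝ) ^ 2 * ∑ F ∈ H.filter (fun F => v ∈ F),
          a G * (if Disjoint G F then 0 else 1)
        + a G * (bd H v * (E / (N : ℝ) ^ 3))) := by
    apply Finset.sum_le_sum
    intro G hG
    have h2 := mul_le_mul_of_nonneg_left (C1_one hN hB hL v (hsub hG)) (ha G (hsub hG)).1
    refine h2.trans (le_of_eq ?_)
    rw [← Finset.mul_sum]
    ring
  refine h1.trans ?_
  rw [Finset.sum_add_distrib, Finset.sum_add_distrib, ← Finset.sum_mul, ← Finset.sum_mul,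
    ← Finset.mul_sum, Finset.sum_comm]
  have h3 : ∑ F ∈ H.filter (fun F => v ∈ F), ∑ G ∈ HG H u,
      a G * (if Disjoint G F then 0 else 1) ≤ bd H v * (a0 * k) := by
    have h4 : ∀ F ∈ H.filter (fun F => v ∈ F), ∑ G ∈ HG H u,
        a G * (if Disjoint G F then (0 : ℝ) else 1) ≤ a0 * k := by
      intro F hF
      obtain ⟨hF1, hF2⟩ := Finset.mem_filter.1 hF
      have h5 : ∑ G ∈ HG H u, a G * (if Disjoint G F then (0 : ℝ) else 1)
          ≤ ∑ G ∈ HG H u, a0 * (if Disjoint G F then (0 : ℝ) else 1) := by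
        apply Finset.sum_le_sum
        intro G hG
        apply mul_le_mul_of_nonneg_right (ha G (hsub hG)).2
        split_ifs <;> norm_num
      rw [← Finset.mul_sum] at h5
      have h6 := mul_le_mul_of_nonneg_left (sum_meet hB u hF1 (huv F hF1 hF2)) ha0
      exact h5.trans h6
    have h7 := Finset.sum_le_sum h4
    rw [Finset.sum_const, nsmul_eq_mul] at h7
    exact h7
  have hAb : A ≤ a0 * N := by
    have h4 : A ≤ ∑ _G ∈ HG H u, a0 := Finset.sum_le_sum fun G hG => (ha G (hsub hG)).2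
    rw [Finset.sum_const, nsmul_eq_mul] at h4
    have h5 : ((HG H u).card : ℝ) ≤ N := by
      have : (HG H u).card ≤ N := bd_le hB u
      exact_mod_cast this
    have h6 := mul_le_mul_of_nonneg_left h5 ha0
    linarith
  have hb0 : (0 : ℝ) ≤ bd H v := by positivity
  have h8 := mul_le_mul_of_nonneg_left h3 (by positivity : 0 ≤ 1 / (N : ℝ) ^ 2)
  have h9 : A * (bd H v * (E / (N : ℝ) ^ 3)) ≤ a0 * N * (bd H v * (E / (N : ℝ) ^ 3)) :=
    mul_le_mul_of_nonneg_right hAb (by positivity)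
  have hP : ev w (ali {v}) = 1 - (bd H v : ℝ) / N := free_eq hL v
  have hPhalf := half_le_free hB hL v
  have h10 : a0 * N * (bd H v * (E / (N : ℝ) ^ 3)) = a0 * E * bd H v / (N : ℝ) ^ 2 := by
    field_simp
  have h11 : 1 / (N : ℝ) ^ 2 * (bd H v * (a0 * k)) = a0 * k * bd H v / (N : ℝ) ^ 2 := by ring
  have h12 : (A / N + (2 * (a0 * k + a0 * E)) * bd H v / (N : ℝ) ^ 2) * ev w (ali {v})
      = A * (1 / N - (bd H v : ℝ) / (N : ℝ) ^ 2)
        + (a0 * k + a0 * E) * bd H v / (N : ℝ) ^ 2 * (2 * ev w (ali {v})) := by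
    rw [hP]
    field_simp
  rw [h12]
  have h13 : (a0 * k + a0 * E) * bd H v / (N : ℝ) ^ 2
      ≤ (a0 * k + a0 * E) * bd H v / (N : ℝ) ^ 2 * (2 * ev w (ali {v})) := by
    have : 0 ≤ (a0 * k + a0 * E) * bd H v / (N : ℝ) ^ 2 := by positivity
    nlinarith
  have h14 : (a0 * k + a0 * E) * bd H v / (N : ℝ) ^ 2
      = a0 * k * bd H v / (N : ℝ) ^ 2 + a0 * E * bd H v / (N : ℝ) ^ 2 := by ring
  linarith

theorem thm_C1 : StC1 := by
  intro k C0 a0
  refine ⟨2 * ((|a0| + 1) * k + (|a0| + 1) * (|C0| ^ 3 * (k : ℝ) ^ 2)), 1, ?_⟩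
  intro V _ _ N H w v u a hN hB hL _ huv ha
  have hN' : 0 < N := by omega
  constructor
  · have h1 := C1_main hN' hB hL v u huv (fun _ => 1) (|a0| + 1)
      (fun F _ => ⟨zero_le_one, by have := abs_nonneg a0; linarith⟩) (by positivity)
    have e1 : ev w (fun B => (if u ∈ LawB.cov B then 1 else 0) * ali {v} B)
        = ∑ G ∈ HG H u, 1 * ev w (fun B => ins {G} B * ali {v} B) := by
      have e2 : ∑ G ∈ HG H u, 1 * ev w (fun B => ins {G} B * ali {v} B)
          = ev w (fun B => ∑ G ∈ HG H u, ins {G} B * ali {v} B) := by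
        rw [ev_sum]
        exact Finset.sum_congr rfl fun G _ => one_mul _
      rw [e2]
      apply hL.ev_congr
      intro B hBH hPD
      have h3 := cov_ind (H := H) B hBH hPD u (ali {v} B)
      have h4 : (if u ∈ LawB.cov B then (1 : ℝ) else 0) * ali {v} B
          = if u ∈ LawB.cov B then ali {v} B else 0 := by split_ifs <;> ring
      rw [h4, h3]
      rfl
    rw [e1]
    refine h1.trans (le_of_eq ?_)
    rw [Finset.sum_const, nsmul_eq_mul, mul_one]
    rfl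
  · exact C1_main hN' hB hL v u huv a (|a0| + 1)
      (fun F hF => ⟨(ha F hF).1, (ha F hF).2.trans (by have := le_abs_self a0; linarith)⟩)
      (by positivity)

end Pool.Agent.JR
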