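import Pool.Agent.JR.StF
import Pool.Agent.JR.Mom3

/-!
# JR: the mean of `Z` on the event that `u` is free
-/

set_option autoImplicit false

namespace Pool.Agent.JR

open Finset
open Pool.Agent.LawB (ev ins ali Law CB NB Conc CC ali_mem ev_add ev_sub ev_smul ev_sum)

section

variable {V : Type*} [DecidableEq V]

private lemma C3_meet {k N : ℕ} {H : Finset (Finset V)} (hN : 0 < N) (hB : Big k N H) (u y : V)
    (huy : u ≠ y) :
    ∑ F ∈ H.filter (fun F => y ∈ F), ∑ G ∈ H.filter (fun G => u ∈ G),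
      (if Disjoint G F then (0 : ℝ) else 1) ≤ (k + 1) * N := by
  have hNr : (0 : ℝ) < N := by exact_mod_cast hN
  have h1 : ∀ F ∈ H.filter (fun F => y ∈ F), ∑ G ∈ H.filter (fun G => u ∈ G),
      (if Disjoint G F then (0 : ℝ) else 1) ≤ k + N * (if u ∈ F then 1 else 0) := by
    intro F hF
    obtain ⟨hF1, hF2⟩ := Finset.mem_filter.1 hF
    by_cases hu : u ∈ F
    · rw [if_pos hu, mul_one]
      have h2 : ∑ G ∈ H.filter (fun G => u ∈ G), (if Disjoint G F then (0 : ℝ) else 1)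
          ≤ ∑ _G ∈ H.filter (fun G => u ∈ G), (1 : ℝ) := by
        apply Finset.sum_le_sum
        intro G _
        split_ifs <;> norm_num
      rw [Finset.sum_const, nsmul_eq_mul, mul_one] at h2
      have h3 : ((H.filter fun G => u ∈ G).card : ℝ) ≤ N := by
        have : (H.filter fun G => u ∈ G).card ≤ N := bd_le hB u
        exact_mod_cast this
      have : (0 : ℝ) ≤ k := by positivity
      linarith
    · rw [if_neg hu, mul_zero, add_zero]
      exact sum_meet hB u hF1 hu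
  refine (Finset.sum_le_sum h1).trans ?_
  rw [Finset.sum_add_distrib, Finset.sum_const, nsmul_eq_mul, ← Finset.mul_sum]
  have h4 : ((H.filter fun F => y ∈ F).card : ℝ) ≤ N := by
    have : (H.filter fun F => y ∈ F).card ≤ N := bd_le hB y
    exact_mod_cast this
  have h5 : ∑ F ∈ H.filter (fun F => y ∈ F), (if u ∈ F then (1 : ℝ) else 0) ≤ 1 := by
    rw [← Finset.sum_filter, Finset.sum_const, nsmul_eq_mul, mul_one]
    have h6 : ((H.filter fun F => y ∈ F).filter fun F => u ∈ F).card ≤ 1 := by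
      rw [Finset.card_le_one]
      intro A hA B hB'
      obtain ⟨hA1, hA2⟩ := Finset.mem_filter.1 hA
      obtain ⟨hA3, hA4⟩ := Finset.mem_filter.1 hA1
      obtain ⟨hB1, hB2⟩ := Finset.mem_filter.1 hB'
      obtain ⟨hB3, hB4⟩ := Finset.mem_filter.1 hB1
      by_contra hAB
      have h7 := hB.lin A hA3 B hB3 hAB
      have h8 : ({u, y} : Finset V) ⊆ A ∩ B := by
        intro z hz
        rcases Finset.mem_insert.1 hz with rfl | hz
        · exact Finset.mem_inter.2 ⟨hA2, hB2⟩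
        · rw [Finset.mem_singleton] at hz
          subst hz
          exact Finset.mem_inter.2 ⟨hA4, hB4⟩
      have h9 := Finset.card_le_card h8
      rw [Finset.card_pair huy] at h9
      omega
    exact_mod_cast h6
  have h10 := mul_le_mul_of_nonneg_left h5 hNr.le
  have h11 := mul_le_mul_of_nonneg_right h4 (by positivity : (0 : ℝ) ≤ k)
  linarith

end

variable {V : Type*} [DecidableEq V] [Fintype V]

private lemma C3_pair {K : ℝ} {k N : ℕ} {H : Finset (Finset V)} {w : Finset (Finset V) → ℝ}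
    (hN : 0 < N) (hB : Big k N H) (hQ : QLaw K N H w) {G F : Finset V} (hG : G ∈ H)
    (hF : F ∈ H) :
    1 / (N : ℝ) ^ 2 - 1 / (N : ℝ) ^ 2 * (if Disjoint G F then 0 else 1)
      - (K / N) ^ 3 ≤ ev w (fun B => ins {G} B * ins {F} B) := by
  have hNr : (0 : ℝ) < N := by exact_mod_cast hN
  have hK := hQ.K_nonneg hN
  by_cases hd : Disjoint G F
  · rw [if_pos hd, mul_zero, sub_zero]
    have h1 := (abs_le.1 (hQ.two hG hF (hB.nonempty G hG) hd)).1
    linarith
  · rw [if_neg hd, mul_one, sub_self, zero_sub]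
    have h1 : 0 ≤ ev w (fun B => ins {G} B * ins {F} B) := by
      unfold ev
      refine Finset.sum_nonneg fun B _ => mul_nonneg (hQ.nonneg B) ?_
      beta_reduce
      rw [ins_single, ins_single]
      split_ifs <;> norm_num
    have h2 : 0 ≤ (K / N) ^ 3 := by positivity
    linarith

lemma C3_one {K : ℝ} {k N : ℕ} {H : Finset (Finset V)} {w : Finset (Finset V) → ℝ}
    (hN : 0 < N) (hB : Big k N H) (hQ : QLaw K N H w) (u y : V) (huy : u ≠ y) :
    (1 - (bd H u : ℝ) / N) * (1 - 2 * (bd H y : ℝ) / N)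
      - (3 * K ^ 2 + 2 * (k + 1) + 2 * K ^ 3) / N
      ≤ ev w (fun B => if u ∈ LawB.cov B then 0 else if y ∈ LawB.cov B then -1 else 1) := by
  have hNr : (0 : ℝ) < N := by exact_mod_cast hN
  have hK := hQ.K_nonneg hN
  set HU := H.filter (fun G => u ∈ G) with hHU
  set HY := H.filter (fun F => y ∈ F) with hHY
  have key : ∀ B, B ⊆ H → PD B →
      (if u ∈ LawB.cov B then (0 : ℝ) else if y ∈ LawB.cov B then -1 else 1)
      = ((1 - ∑ G ∈ HU, ins {G} B) - 2 * ∑ F ∈ HY, ins {F} B)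
        + 2 * ∑ F ∈ HY, ∑ G ∈ HU, ins {G} B * ins {F} B := by
    intro B hBH hPD
    have h1 := cov_ind (H := H) B hBH hPD u 1
    have h2 := cov_ind (H := H) B hBH hPD y 1
    simp only [mul_one] at h1 h2
    have h3 : ∑ F ∈ HY, ∑ G ∈ HU, ins {G} B * ins {F} B
        = (∑ G ∈ HU, ins {G} B) * ∑ F ∈ HY, ins {F} B := by
      rw [Finset.sum_mul_sum, Finset.sum_comm]
    rw [h3, ← h1, ← h2]
    split_ifs <;> norm_num
  have e1 : ev w (fun B => if u ∈ LawB.cov B then 0 else if y ∈ LawB.cov B then -1 else 1)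
      = ((1 - ∑ G ∈ HU, ev w (ins {G})) - 2 * ∑ F ∈ HY, ev w (ins {F}))
        + 2 * ∑ F ∈ HY, ∑ G ∈ HU, ev w (fun B => ins {G} B * ins {F} B) := by
    have e2 : ev w (fun B => ((1 - ∑ G ∈ HU, ins {G} B) - 2 * ∑ F ∈ HY, ins {F} B)
        + 2 * ∑ F ∈ HY, ∑ G ∈ HU, ins {G} B * ins {F} B)
        = ((1 - ∑ G ∈ HU, ev w (ins {G})) - 2 * ∑ F ∈ HY, ev w (ins {F}))
        + 2 * ∑ F ∈ HY, ∑ G ∈ HU, ev w (fun B => ins {G} B * ins {F} B) := by
      rw [ev_add w (fun B => (1 - ∑ G ∈ HU, ins {G} B) - 2 * ∑ F ∈ HY, ins {F} B),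
        ev_sub w (fun B => 1 - ∑ G ∈ HU, ins {G} B), ev_sub w (fun _ => 1), ev_smul, ev_smul,
        hQ.const', ev_sum w HU (fun G => ins {G}), ev_sum w HY (fun F => ins {F}),
        ev_sum w HY (fun F => fun B => ∑ G ∈ HU, ins {G} B * ins {F} B)]
      congr 2
      exact Finset.sum_congr rfl fun F _ => ev_sum w HU (fun G => fun B => ins {G} B * ins {F} B)
    rw [← e2]
    apply le_antisymm
    · exact hQ.mono' fun B hBH hPD => (key B hBH hPD).le
    · exact hQ.mono' fun B hBH hPD => (key B hBH hPD).ge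
  rw [e1]
  have hcU : (HU.card : ℝ) = bd H u := rfl
  have hcY : (HY.card : ℝ) = bd H y := rfl
  have hbu : (bd H u : ℝ) ≤ N := by exact_mod_cast bd_le hB u
  have hby : (bd H y : ℝ) ≤ N := by exact_mod_cast bd_le hB y
  have hbu0 : (0 : ℝ) ≤ bd H u := by positivity
  have hby0 : (0 : ℝ) ≤ bd H y := by positivity
  have s1 : ∑ G ∈ HU, ev w (ins {G}) ≤ (bd H u : ℝ) / N + K ^ 2 / N := by
    have h1 : ∑ G ∈ HU, ev w (ins {G}) ≤ ∑ _G ∈ HU, (1 / (N : ℝ) + (K / N) ^ 2) := by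
      apply Finset.sum_le_sum
      intro G hG
      have := (abs_le.1 (hQ.one (Finset.mem_filter.1 hG).1)).2
      linarith
    rw [Finset.sum_const, nsmul_eq_mul, hcU] at h1
    have h2 : (bd H u : ℝ) * (K / N) ^ 2 ≤ N * (K / N) ^ 2 :=
      mul_le_mul_of_nonneg_right hbu (by positivity)
    have h3 : (N : ℝ) * (K / N) ^ 2 = K ^ 2 / N := by field_simp
    have h4 : (bd H u : ℝ) * (1 / N + (K / N) ^ 2)
        = (bd H u : ℝ) / N + bd H u * (K / N) ^ 2 := by ring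
    linarith
  have s2 : ∑ F ∈ HY, ev w (ins {F}) ≤ (bd H y : ℝ) / N + K ^ 2 / N := by
    have h1 : ∑ G ∈ HY, ev w (ins {G}) ≤ ∑ _G ∈ HY, (1 / (N : ℝ) + (K / N) ^ 2) := by
      apply Finset.sum_le_sum
      intro G hG
      have := (abs_le.1 (hQ.one (Finset.mem_filter.1 hG).1)).2
      linarith
    rw [Finset.sum_const, nsmul_eq_mul, hcY] at h1
    have h2 : (bd H y : ℝ) * (K / N) ^ 2 ≤ N * (K / N) ^ 2 :=
      mul_le_mul_of_nonneg_right hby (by positivity)
    have h3 : (N : ℝ) * (K / N) ^ 2 = K ^ 2 / N := by field_simp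
    have h4 : (bd H y : ℝ) * (1 / N + (K / N) ^ 2)
        = (bd H y : ℝ) / N + bd H y * (K / N) ^ 2 := by ring
    linarith
  have s3 : (bd H y : ℝ) / N * ((bd H u : ℝ) / N) - (k + 1) / N - K ^ 3 / N
      ≤ ∑ F ∈ HY, ∑ G ∈ HU, ev w (fun B => ins {G} B * ins {F} B) := by
    have h1 : ∑ F ∈ HY, ∑ G ∈ HU, (1 / (N : ℝ) ^ 2
        - 1 / (N : ℝ) ^ 2 * (if Disjoint G F then 0 else 1) - (K / N) ^ 3)
        ≤ ∑ F ∈ HY, ∑ G ∈ HU, ev w (fun B => ins {G} B * ins {F} B) :=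
      Finset.sum_le_sum fun F hF => Finset.sum_le_sum fun G hG =>
        C3_pair hN hB hQ (Finset.mem_filter.1 hG).1 (Finset.mem_filter.1 hF).1
    refine le_trans ?_ h1
    have e3 : ∑ F ∈ HY, ∑ G ∈ HU, (1 / (N : ℝ) ^ 2
        - 1 / (N : ℝ) ^ 2 * (if Disjoint G F then 0 else 1) - (K / N) ^ 3)
        = (bd H y : ℝ) * (bd H u * (1 / (N : ℝ) ^ 2))
          - 1 / (N : ℝ) ^ 2 * ∑ F ∈ HY, ∑ G ∈ HU, (if Disjoint G F then 0 else 1)
          - (bd H y : ℝ) * (bd H u * (K / N) ^ 3) := by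
      simp only [Finset.sum_sub_distrib, Finset.sum_const, nsmul_eq_mul, hcU, hcY,
        Finset.mul_sum]
    rw [e3]
    have h2 := mul_le_mul_of_nonneg_left (C3_meet hN hB u y huy)
      (by positivity : 0 ≤ 1 / (N : ℝ) ^ 2)
    have h3 : 1 / (N : ℝ) ^ 2 * ((k + 1) * N) = (k + 1) / N := by field_simp
    have h4 : (bd H y : ℝ) * (bd H u * (K / N) ^ 3) ≤ K ^ 3 / N := by
      have h5 : (bd H y : ℝ) * bd H u ≤ N * N := mul_le_mul hby hbu hbu0 hNr.le
      have h6 := mul_le_mul_of_nonneg_right h5 (by positivity : 0 ≤ (K / N) ^ 3)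
      have h7 : (N : ℝ) * N * (K / N) ^ 3 = K ^ 3 / N := by field_simp
      linarith
    have h8 : (bd H y : ℝ) * (bd H u * (1 / (N : ℝ) ^ 2)) = (bd H y : ℝ) / N * ((bd H u : ℝ) / N) := by
      ring
    linarith
  have e9 : (3 * K ^ 2 + 2 * (k + 1) + 2 * K ^ 3) / N
      = 3 * (K ^ 2 / N) + 2 * ((k + 1) / N) + 2 * (K ^ 3 / N) := by ring
  rw [e9]
  have e10 : (1 - (bd H u : ℝ) / N) * (1 - 2 * (bd H y : ℝ) / N)
      = 1 - (bd H u : ℝ) / N - 2 * ((bd H y : ℝ) / N)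
        + 2 * ((bd H y : ℝ) / N * ((bd H u : ℝ) / N)) := by ring
  rw [e10]
  linarith

lemma C3_real (C N r nu om t b : ℝ) (hN : 0 < N) (hC : 0 ≤ C) (hb : b ≤ 1 / 2)
    (hnu : 0 ≤ nu) (hnr : nu ≤ r) (hom : 0 ≤ om) (hom1 : om ≤ 0.16)
    (ht : (1 - b) * r - C / N ≤ t) : -(0.32 * C ^ 2 / N ^ 2) ≤ nu * om * t := by
  have hr : 0 ≤ r := hnu.trans hnr
  have hCN : 0 ≤ C / N := by positivity
  by_cases h : C / N ≤ (1 - b) * r
  · have h1 : 0 ≤ nu * om * t := mul_nonneg (mul_nonneg hnu hom) (by linarith)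
    have h2 : 0 ≤ 0.32 * C ^ 2 / N ^ 2 := by positivity
    linarith
  · push Not at h
    have h1 : r ≤ 2 * (C / N) := by nlinarith
    have h2 : -(C / N) ≤ t := by
      have : 0 ≤ (1 - b) * r := mul_nonneg (by linarith) hr
      linarith
    have h3 : nu * om ≤ 0.32 * (C / N) := by
      calc nu * om ≤ (2 * (C / N)) * 0.16 :=
            mul_le_mul (hnr.trans h1) hom1 hom (by positivity)
        _ = 0.32 * (C / N) := by ring
    have h4 : 0 ≤ nu * om := mul_nonneg hnu hom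
    have h5 := mul_le_mul_of_nonneg_left h2 h4
    have h6 := mul_le_mul_of_nonneg_right h3 hCN
    have h7 : 0.32 * C ^ 2 / N ^ 2 = 0.32 * (C / N) * (C / N) := by
      field_simp
    rw [h7]
    nlinarith

theorem thm_C3 : StC3 := by
  intro k K
  refine ⟨(3 * K ^ 2 + 2 * (k + 1) + 2 * |K| ^ 3) ^ 2, ?_⟩
  intro V _ _ N H w u P nu hN hB hQ huP hP hnu
  have hNr : (0 : ℝ) < N := by exact_mod_cast hN
  have hK := hQ.K_nonneg hN
  rw [abs_of_nonneg hK]
  set C := 3 * K ^ 2 + 2 * ((k : ℝ) + 1) + 2 * K ^ 3 with hC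
  have hC0 : 0 ≤ C := by positivity
  have e1 : (fun B => if u ∈ LawB.cov B then (0 : ℝ) else
      ∑ y ∈ P, nu y * omx H N y * (if y ∈ LawB.cov B then -1 else 1))
      = fun B => ∑ y ∈ P, (nu y * omx H N y) *
        (if u ∈ LawB.cov B then 0 else if y ∈ LawB.cov B then -1 else 1) := by
    funext B
    by_cases hu : u ∈ LawB.cov B
    · simp [if_pos hu]
    · simp only [if_neg hu]
  rw [e1, ev_sum]
  have h1 : ∀ y ∈ P, -(0.32 * C ^ 2 / (N : ℝ) ^ 2) ≤ ev w (fun B => (nu y * omx H N y) *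
        (if u ∈ LawB.cov B then 0 else if y ∈ LawB.cov B then -1 else 1)) := by
    intro y hy
    rw [ev_smul]
    have huy : u ≠ y := fun e => huP (e ▸ hy)
    have hbu : (bd H u : ℝ) / N ≤ 1 / 2 := by
      have : 2 * (bd H u : ℝ) + 1 ≤ N := by exact_mod_cast hB.two_bd_lt u
      rw [div_le_iff₀ hNr]; linarith
    have hby : (0 : ℝ) ≤ 1 - 2 * (bd H y : ℝ) / N := (hnu y hy).1.trans (hnu y hy).2
    refine C3_real C N (1 - 2 * (bd H y : ℝ) / N) (nu y) (omx H N y) _ ((bd H u : ℝ) / N) hNr hC0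
      hbu (hnu y hy).1 (hnu y hy).2 ?_ ?_ (C3_one hN hB hQ u y huy)
    · unfold omx
      have := le_max_left (0 : ℝ) (0.1 - (1 - 2 * (bd H y : ℝ) / N))
      linarith
    · unfold omx
      have : max (0 : ℝ) (0.1 - (1 - 2 * (bd H y : ℝ) / N)) ≤ 0.1 :=
        max_le (by norm_num) (by linarith)
      linarith
  have h2 := Finset.sum_le_sum h1
  rw [Finset.sum_const, nsmul_eq_mul] at h2
  refine le_trans ?_ h2
  have h3 : (P.card : ℝ) ≤ 2 := by exact_mod_cast hP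
  have h4 : 0 ≤ 0.32 * C ^ 2 / (N : ℝ) ^ 2 := by positivity
  have h5 := mul_le_mul_of_nonneg_right h3 h4
  have h6 : 0 ≤ C ^ 2 / (N : ℝ) ^ 2 := by positivity
  have h7 : 0.32 * C ^ 2 / (N : ℝ) ^ 2 = 0.32 * (C ^ 2 / (N : ℝ) ^ 2) := by ring
  rw [h7] at h5 ⊢
  linarith

end Pool.Agent.JR
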