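import Pool.Agent.JR.Value

/-!
JR, part 3 of team J, section 1: the caps and the room in the star.
-/

set_option autoImplicit false

namespace Pool.Agent.JR

open Finset
open Pool.Agent.FBR

variable {V : Type*} [Fintype V] [DecidableEq V]

/-- The number of edges of size at least three at `x`. -/
def b3 (H : Finset (Finset V)) (x : V) : ℕ := (H.filter fun E => x ∈ E ∧ 3 ≤ E.card).card

/-- `r_x = 1 - 2 b_x / N` -/
noncomputable def rr (H : Finset (Finset V)) (N : ℝ) (x : V) : ℝ := 1 - 2 * (b3 H x : ℝ) / N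

/-- Critical vertices: `b_u ≥ .45 N`. -/
def crit (H : Finset (Finset V)) (N : ℝ) (u : V) : Prop := 9 / 20 * N ≤ (b3 H u : ℝ)

/-- The weight of a critical vertex. -/
noncomputable def omc (H : Finset (Finset V)) (N : ℝ) (u : V) : ℝ :=
  8 / 5 * max 0 (1 / 10 - rr H N u)

/-- The critical vertices `u` which form a big edge of size three with `w` and with a vertex which is not
very heavy. -/
def Tr (H : Finset (Finset V)) (N : ℝ) (w u : V) : Prop :=
  crit H N u ∧ ∃ w', 5 * (b3 H w' : ℝ) < 2 * N ∧ ({u, w, w'} : Finset V) ∈ H ∧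
    ({u, w, w'} : Finset V).card = 3

open Classical in
/-- The special vertices for the edge `v w`. -/
noncomputable def Sp (H : Finset (Finset V)) (N : ℝ) (v w : V) : Finset V :=
  if b3 H v = 0 ∧ 1 ≤ b3 H w ∧ b3 H w ≤ 2 then
    univ.filter fun u => ({v, u} : Finset V) ∈ H ∧ Tr H N w u
  else ∅

/-- `1` if `u` is covered, `-1` if `u` is free. -/
def sg (X : Finset V) (u : V) : ℝ := if u ∈ X then 1 else -1

/-- The caps. -/
noncomputable def kap (H : Finset (Finset V)) (N : ℝ) (X : Finset V) (v w : V) : ℝ :=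
  1 / Mv H N w + 1 / N ^ 2 * ∑ u ∈ Sp H N v w, omc H N u * sg X u

/-- The number of the lower neighbours `v'` of `v` for which `u` is special for the edge `v' v`. -/
noncomputable def nn (H : Finset (Finset V)) (r : V → ℕ) (N : ℝ) (u v : V) : ℕ :=
  ((lo H r v).filter fun v' => u ∈ Sp H N v' v).card

theorem abs_sg (X : Finset V) (u : V) : |sg X u| = 1 := by
  unfold sg
  split_ifs <;> simp

theorem two_b3_le_t3 (H : Finset (Finset V)) (x : V) : 2 * b3 H x ≤ t3 H x := by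
  unfold b3 t3
  rw [card_eq_sum_ones, mul_sum]
  refine sum_le_sum fun E hE => ?_
  have := (mem_filter.1 hE).2.2
  omega

theorem omc_nonneg (H : Finset (Finset V)) (N : ℝ) (u : V) : 0 ≤ omc H N u :=
  mul_nonneg (by norm_num) (le_max_left _ _)

section deg

variable {H : Finset (Finset V)} {D : ℕ}
  (hD : ∀ x, ∑ E ∈ H.filter (fun E => x ∈ E), (E.card - 1) ≤ D)

include hD

theorem t3_le (x : V) : t3 H x ≤ D := by
  have := deg_hilo hD (fun _ => 0) x
  omega

theorem one_le_Mv (x : V) : 1 ≤ Mv H ((D : ℝ) + 1) x := by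
  have h1 : (t3 H x : ℝ) ≤ D := by exact_mod_cast t3_le hD x
  unfold Mv
  linarith

theorem Mv_le (x : V) : Mv H ((D : ℝ) + 1) x ≤ (D : ℝ) + 1 := by
  have h1 : (0 : ℝ) ≤ t3 H x := Nat.cast_nonneg _
  unfold Mv
  linarith

theorem rr_pos (x : V) : 1 / ((D : ℝ) + 1) ≤ rr H ((D : ℝ) + 1) x := by
  have hN : (0 : ℝ) < (D : ℝ) + 1 := by positivity
  have h1 : 2 * b3 H x ≤ D := (two_b3_le_t3 H x).trans (t3_le hD x)
  have h2 : 2 * (b3 H x : ℝ) ≤ D := by exact_mod_cast h1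
  unfold rr
  rw [div_le_iff₀ hN, sub_mul, div_mul_cancel₀ _ hN.ne']
  linarith

theorem omc_le (u : V) : omc H ((D : ℝ) + 1) u ≤ 4 / 25 := by
  have h1 := rr_pos hD u
  have h2 : (0 : ℝ) < 1 / ((D : ℝ) + 1) := by positivity
  unfold omc
  have h3 : max 0 (1 / 10 - rr H ((D : ℝ) + 1) u) ≤ 1 / 10 := max_le (by norm_num) (by linarith)
  linarith

theorem rr_mul_omc_le (u : V) (hu : crit H ((D : ℝ) + 1) u) :
    rr H ((D : ℝ) + 1) u * omc H ((D : ℝ) + 1) u ≤ 1 / 250 := by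
  have h1 := rr_pos hD u
  have h2 : (0 : ℝ) < 1 / ((D : ℝ) + 1) := by positivity
  have hN : (0 : ℝ) < (D : ℝ) + 1 := by positivity
  have h3 : rr H ((D : ℝ) + 1) u ≤ 1 / 10 := by
    unfold crit at hu
    unfold rr
    have h4 : 9 / 10 ≤ 2 * (b3 H u : ℝ) / ((D : ℝ) + 1) := by
      rw [le_div_iff₀ hN]
      linarith
    linarith
  unfold omc
  rw [max_eq_right (by linarith)]
  nlinarith [sq_nonneg (rr H ((D : ℝ) + 1) u - 1 / 20)]

end deg

/-- The critical vertex of a triple with a vertex which is not very heavy is determined. -/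
theorem Tr_card {H : Finset (Finset V)} {N : ℝ} (hN : 0 ≤ N) {w : V} (hw : ¬ crit H N w)
    (S : Finset V)
    (hS : ∀ u ∈ S, Tr H N w u) : S.card ≤ b3 H w := by
  classical
  choose! f hf using fun u hu => (hS u hu).2
  unfold b3
  refine card_le_card_of_injOn (fun u => ({u, w, f u} : Finset V)) ?_ ?_
  · intro u hu
    have h1 := hf u hu
    rw [mem_coe, mem_filter]
    refine ⟨h1.2.1, ?_, h1.2.2.ge⟩
    simp
  · intro u hu u' hu' heq
    simp only at heq
    have h1 := hf u' hu'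
    have hc := (hS u hu).1
    have h2 : u ∈ ({u', w, f u'} : Finset V) := by rw [← heq]; simp
    rw [mem_insert, mem_insert, mem_singleton] at h2
    rcases h2 with h2 | h2 | h2
    · exact h2
    · rw [h2] at hc
      exact absurd hc hw
    · rw [h2] at hc
      unfold crit at hc
      have h3 := h1.1
      linarith

theorem not_crit_of_le {H : Finset (Finset V)} {N : ℝ} (hN : 5 ≤ N) {w : V} (hw : b3 H w ≤ 2) :
    ¬ crit H N w := by
  intro h
  unfold crit at h
  have h1 : (b3 H w : ℝ) ≤ 2 := by exact_mod_cast hw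
  linarith

theorem Sp_card {H : Finset (Finset V)} {N : ℝ} (hN : 5 ≤ N) (v w : V) :
    (Sp H N v w).card ≤ b3 H w := by
  classical
  unfold Sp
  split_ifs with h
  · refine Tr_card (by linarith) (not_crit_of_le hN h.2.2) _ fun u hu => (mem_filter.1 hu).2.2
  · rw [card_empty]
    exact Nat.zero_le _

theorem Sp_card_two {H : Finset (Finset V)} {N : ℝ} (hN : 5 ≤ N) (v w : V) :
    (Sp H N v w).card ≤ 2 := by
  classical
  unfold Sp
  split_ifs with h
  · exact (Tr_card (by linarith) (not_crit_of_le hN h.2.2) _ fun u hu => (mem_filter.1 hu).2.2).trans h.2.2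
  · rw [card_empty]
    exact Nat.zero_le _

theorem Sp_eq_empty {H : Finset (Finset V)} {N : ℝ} {v w : V} (h : 1 ≤ b3 H v) : Sp H N v w = ∅ := by
  unfold Sp
  rw [if_neg (by omega)]

theorem Sp_b3 {H : Finset (Finset V)} {N : ℝ} {v w u : V} (h : u ∈ Sp H N v w) :
    b3 H v = 0 ∧ 1 ≤ b3 H w ∧ b3 H w ≤ 2 ∧ ({v, u} : Finset V) ∈ H ∧ Tr H N w u := by
  classical
  unfold Sp at h
  split_ifs at h with h1
  · rw [mem_filter] at h
    exact ⟨h1.1, h1.2.1, h1.2.2, h.2.1, h.2.2⟩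
  · exact absurd h (notMem_empty _)

theorem t3_eq_zero {H : Finset (Finset V)} {v : V} (h : b3 H v = 0) : t3 H v = 0 := by
  unfold b3 at h
  unfold t3
  rw [card_eq_zero.1 h, sum_empty]

section caps

variable {H : Finset (Finset V)} {D : ℕ}
  (hD : ∀ x, ∑ E ∈ H.filter (fun E => x ∈ E), (E.card - 1) ≤ D)

include hD

theorem sum_omc_abs (X : Finset V) (v w : V) :
    |∑ u ∈ Sp H ((D : ℝ) + 1) v w, omc H ((D : ℝ) + 1) u * sg X u| ≤
      4 / 25 * (Sp H ((D : ℝ) + 1) v w).card := by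
  refine (abs_sum_le_sum_abs _ _).trans ?_
  rw [mul_comm, ← nsmul_eq_mul]
  refine sum_le_card_nsmul _ _ _ fun u _ => ?_
  rw [abs_mul, abs_sg, mul_one, abs_of_nonneg (omc_nonneg _ _ _)]
  exact omc_le hD u

theorem kap_nonneg (hD4 : 4 ≤ D) (X : Finset V) (v w : V) :
    0 ≤ kap H ((D : ℝ) + 1) X v w := by
  set N : ℝ := (D : ℝ) + 1 with hN
  have hN5 : 5 ≤ N := by
    have : (4 : ℝ) ≤ D := by exact_mod_cast hD4
    linarith
  have h1 := sum_omc_abs hD X v w
  rw [← hN] at h1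
  have h2 : ((Sp H N v w).card : ℝ) ≤ 2 := by exact_mod_cast Sp_card_two hN5 v w
  have h3 := one_le_Mv hD w
  have h4 := Mv_le hD w
  rw [← hN] at h3 h4
  have h5 : 1 / N ≤ 1 / Mv H N w := one_div_le_one_div_of_le (by linarith) h4
  have h6 : -(8 / 25) ≤ ∑ u ∈ Sp H N v w, omc H N u * sg X u := by
    have := (abs_le.1 h1).1
    linarith
  have h7 : -(1 / N) ≤ 1 / N ^ 2 * ∑ u ∈ Sp H N v w, omc H N u * sg X u := by
    have h8 : 1 / N ^ 2 * (-(8 / 25)) ≤ 1 / N ^ 2 * ∑ u ∈ Sp H N v w, omc H N u * sg X u :=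
      mul_le_mul_of_nonneg_left h6 (by positivity)
    refine le_trans ?_ h8
    have h9 : 1 / N ^ 2 * (-(8 / 25)) = -(1 / N) * (8 / 25 / N) := by
      field_simp
    rw [h9]
    have h10 : 8 / 25 / N ≤ 1 := by
      rw [div_le_one (by linarith)]
      linarith
    have h11 : 0 ≤ 1 / N := by positivity
    nlinarith
  unfold kap
  linarith

theorem bb_eq (v w : V) :
    bb H ((D : ℝ) + 1) v w = Mv H ((D : ℝ) + 1) v / Mv H ((D : ℝ) + 1) w - 1 := by
  have h3 := one_le_Mv hD w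
  have h4 : Mv H ((D : ℝ) + 1) w ≠ 0 := by linarith
  unfold bb
  rw [div_sub_one h4]
  congr 1
  unfold Mv
  ring

theorem aa_eq (X : Finset V) (v w : V) :
    aa H ((D : ℝ) + 1) (kap H ((D : ℝ) + 1) X) v w = bb H ((D : ℝ) + 1) v w +
      Mv H ((D : ℝ) + 1) v / ((D : ℝ) + 1) ^ 2 *
        ∑ u ∈ Sp H ((D : ℝ) + 1) v w, omc H ((D : ℝ) + 1) u * sg X u := by
  rw [bb_eq hD]
  unfold aa kap
  ring

theorem aa_sub_bb_abs (X : Finset V) (v w : V) :
    |aa H ((D : ℝ) + 1) (kap H ((D : ℝ) + 1) X) v w - bb H ((D : ℝ) + 1) v w| ≤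
      4 / 25 * (Sp H ((D : ℝ) + 1) v w).card / ((D : ℝ) + 1) := by
  set N : ℝ := (D : ℝ) + 1 with hN
  have hN0 : 0 < N := by rw [hN]; positivity
  rw [aa_eq hD, ← hN, add_sub_cancel_left, abs_mul]
  have h1 := sum_omc_abs hD X v w
  rw [← hN] at h1
  have h3 := one_le_Mv hD v
  have h4 := Mv_le hD v
  rw [← hN] at h3 h4
  have h5 : |Mv H N v / N ^ 2| ≤ 1 / N := by
    rw [abs_of_nonneg (by positivity), div_le_div_iff₀ (by positivity) hN0]
    nlinarith
  refine (mul_le_mul h5 h1 (abs_nonneg _) (by positivity)).trans (le_of_eq ?_)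
  ring

theorem aa_eq_bb (X : Finset V) {v : V} (w : V) (hv : 1 ≤ b3 H v) :
    aa H ((D : ℝ) + 1) (kap H ((D : ℝ) + 1) X) v w = bb H ((D : ℝ) + 1) v w := by
  rw [aa_eq hD, Sp_eq_empty hv, sum_empty, mul_zero, add_zero]

theorem bb_nonneg {v w : V} (h : t3 H v ≤ t3 H w) : 0 ≤ bb H ((D : ℝ) + 1) v w := by
  have h3 := one_le_Mv hD w
  have h4 : (t3 H v : ℝ) ≤ t3 H w := by exact_mod_cast h
  unfold bb
  exact div_nonneg (by linarith) (by linarith)

/-- If there are special vertices for `v w` then `eta_w ≥ 2 |Sp| / N`. -/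
theorem bb_ge_Sp (hD4 : 4 ≤ D) {v w : V} (h : t3 H v ≤ t3 H w) :
    2 * ((Sp H ((D : ℝ) + 1) v w).card : ℝ) / ((D : ℝ) + 1) ≤ bb H ((D : ℝ) + 1) v w := by
  set N : ℝ := (D : ℝ) + 1 with hN
  have hN5 : 5 ≤ N := by
    have : (4 : ℝ) ≤ D := by exact_mod_cast hD4
    linarith
  have h0 := bb_nonneg hD h
  rw [← hN] at h0
  by_cases hS : Sp H N v w = ∅
  · rw [hS, card_empty, Nat.cast_zero, mul_zero, zero_div]
    exact h0
  obtain ⟨u, hu⟩ := nonempty_iff_ne_empty.2 hS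
  obtain ⟨hv, hw1, hw2, -, -⟩ := Sp_b3 hu
  have ht : t3 H v = 0 := t3_eq_zero hv
  have h3 := one_le_Mv hD w
  have h4 := Mv_le hD w
  rw [← hN] at h3 h4
  have h5 : 2 * (Sp H N v w).card ≤ t3 H w :=
    (Nat.mul_le_mul_left 2 (Sp_card hN5 v w)).trans (two_b3_le_t3 H w)
  have h6 : 2 * ((Sp H N v w).card : ℝ) ≤ t3 H w := by exact_mod_cast h5
  unfold bb
  rw [ht, Nat.cast_zero, sub_zero]
  exact div_le_div₀ (Nat.cast_nonneg _) h6 (by linarith) h4

/-- `a_w ≥ .92 eta_w` -/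
theorem aa_ge (hD4 : 4 ≤ D) (X : Finset V) {v w : V} (h : t3 H v ≤ t3 H w) :
    23 / 25 * bb H ((D : ℝ) + 1) v w ≤ aa H ((D : ℝ) + 1) (kap H ((D : ℝ) + 1) X) v w := by
  have h1 := aa_sub_bb_abs hD X v w
  have h2 := bb_ge_Sp hD hD4 h
  have h3 := (abs_le.1 h1).1
  have h4 : 4 / 25 * ((Sp H ((D : ℝ) + 1) v w).card : ℝ) / ((D : ℝ) + 1) =
      2 / 25 * (2 * ((Sp H ((D : ℝ) + 1) v w).card : ℝ) / ((D : ℝ) + 1)) := by ring
  rw [h4] at h3
  linarith

theorem bb_le_two_aa (hD4 : 4 ≤ D) (X : Finset V) {v w : V} (h : t3 H v ≤ t3 H w) :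
    bb H ((D : ℝ) + 1) v w ≤ 2 * aa H ((D : ℝ) + 1) (kap H ((D : ℝ) + 1) X) v w := by
  have h1 := aa_ge hD hD4 X h
  have h2 := bb_nonneg hD h
  linarith

end caps

/-! ### The room in the star -/

theorem nn_eq_zero {H : Finset (Finset V)} {r : V → ℕ} {N : ℝ} {u v : V}
    (h : ¬ (1 ≤ b3 H v ∧ b3 H v ≤ 2 ∧ Tr H N v u)) : nn H r N u v = 0 := by
  unfold nn
  rw [card_eq_zero, filter_eq_empty_iff]
  intro v' _ hu
  obtain ⟨-, h1, h2, -, h3⟩ := Sp_b3 hu
  exact h ⟨h1, h2, h3⟩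

theorem nn_le {H : Finset (Finset V)} {D : ℕ}
    (hD : ∀ x, ∑ E ∈ H.filter (fun E => x ∈ E), (E.card - 1) ≤ D)
    {r : V → ℕ} (hr : Function.Injective r) (u v : V) :
    (nn H r ((D : ℝ) + 1) u v : ℝ) ≤ rr H ((D : ℝ) + 1) u * ((D : ℝ) + 1) := by
  have hN : (0 : ℝ) < (D : ℝ) + 1 := by positivity
  by_cases hc : crit H ((D : ℝ) + 1) u
  swap
  · rw [nn_eq_zero (fun h => hc h.2.2.1), Nat.cast_zero]
    have := rr_pos hD u
    have h2 : (0 : ℝ) < 1 / ((D : ℝ) + 1) := by positivity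
    exact mul_nonneg (by linarith) hN.le
  have h1 : nn H r ((D : ℝ) + 1) u v ≤ (hi H r u).card + (lo H r u).card := by
    refine le_trans (card_le_card ?_) (card_union_le _ _)
    intro v' hv'
    obtain ⟨h1, -, -, h2, -⟩ := Sp_b3 (mem_filter.1 hv').2
    have hne : v' ≠ u := by
      rintro rfl
      unfold crit at hc
      rw [h1, Nat.cast_zero] at hc
      linarith
    rw [mem_union]
    unfold hi lo
    rw [mem_filter, mem_filter]
    have h3 : ({u, v'} : Finset V) ∈ H := by rwa [pair_comm]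
    rcases lt_or_gt_of_ne (fun h => hne (hr h) : r v' ≠ r u) with h | h
    · exact Or.inr ⟨mem_univ _, h3, h⟩
    · exact Or.inl ⟨mem_univ _, h3, h⟩
  have h2 := deg_hilo hD r u
  have h3 := two_b3_le_t3 H u
  have h4 : nn H r ((D : ℝ) + 1) u v + 2 * b3 H u ≤ D := by omega
  have h5 : (nn H r ((D : ℝ) + 1) u v : ℝ) + 2 * b3 H u ≤ D := by exact_mod_cast h4
  unfold rr
  rw [sub_mul, div_mul_cancel₀ _ hN.ne']
  linarith

/-- The formula for `Z_v`. -/
theorem Zc_eq {H : Finset (Finset V)} {D : ℕ}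
    (hD : ∀ x, ∑ E ∈ H.filter (fun E => x ∈ E), (E.card - 1) ≤ D)
    (r : V → ℕ) {B : Finset (Finset V)} (hB : B ⊆ H.filter fun E => 3 ≤ E.card) (v : V) :
    Zc H r ((D : ℝ) + 1) (kap H ((D : ℝ) + 1) (cov B)) (cov B) v =
      Mv H ((D : ℝ) + 1) v / ((D : ℝ) + 1) ^ 2 *
        ∑ u, (nn H r ((D : ℝ) + 1) u v : ℝ) * (omc H ((D : ℝ) + 1) u * -sg (cov B) u) := by
  classical
  set N : ℝ := (D : ℝ) + 1 with hN
  set X := cov B with hX
  have h3 := one_le_Mv hD v
  rw [← hN] at h3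
  have hM0 : Mv H N v ≠ 0 := by linarith
  have hfree : ∀ v' u, u ∈ Sp H N v' v → v' ∉ X := by
    intro v' u hu hv'
    obtain ⟨h1, -⟩ := Sp_b3 hu
    rw [hX, cov, mem_biUnion] at hv'
    obtain ⟨F, hF, hvF⟩ := hv'
    have hF2 := mem_filter.1 (hB hF)
    unfold b3 at h1
    rw [card_eq_zero, filter_eq_empty_iff] at h1
    exact h1 hF2.1 ⟨hvF, hF2.2⟩
  have h5 : ∑ w ∈ lo H r v \ X, kap H N X w v = ((lo H r v \ X).card : ℝ) * (1 / Mv H N v) +
      1 / N ^ 2 * ∑ w ∈ lo H r v \ X, ∑ u ∈ Sp H N w v, omc H N u * sg X u := by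
    unfold kap
    rw [sum_add_distrib, sum_const, nsmul_eq_mul, mul_sum]
  have h6 : ∑ w ∈ lo H r v \ X, ∑ u ∈ Sp H N w v, omc H N u * sg X u =
      ∑ u, (nn H r N u v : ℝ) * (omc H N u * sg X u) := by
    have h7 : ∀ w ∈ lo H r v \ X, ∑ u ∈ Sp H N w v, omc H N u * sg X u =
        ∑ u, if u ∈ Sp H N w v then omc H N u * sg X u else 0 := by
      intro w _
      rw [← sum_filter]
      refine sum_congr ?_ fun _ _ => rfl
      ext u
      simp
    rw [sum_congr rfl h7, sum_comm]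
    refine sum_congr rfl fun u _ => ?_
    rw [← sum_filter, sum_const, nsmul_eq_mul]
    congr 2
    unfold nn
    congr 1
    ext w
    simp only [mem_filter, mem_sdiff]
    constructor
    · rintro ⟨⟨h1, -⟩, h2⟩
      exact ⟨h1, h2⟩
    · rintro ⟨h1, h2⟩
      exact ⟨⟨h1, hfree w u h2⟩, h2⟩
  have h8 : ∑ u, (nn H r N u v : ℝ) * (omc H N u * -sg X u) =
      -∑ u, (nn H r N u v : ℝ) * (omc H N u * sg X u) := by
    rw [← sum_neg_distrib]
    refine sum_congr rfl fun u _ => ?_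
    ring
  unfold Zc Cr dfree
  rw [h5, h6, h8, Nat.cast_add]
  field_simp
  ring

theorem Zc_abs {H : Finset (Finset V)} {D : ℕ}
    (hD : ∀ x, ∑ E ∈ H.filter (fun E => x ∈ E), (E.card - 1) ≤ D) (hD4 : 4 ≤ D)
    {r : V → ℕ} (hr : Function.Injective r) {B : Finset (Finset V)}
    (hB : B ⊆ H.filter fun E => 3 ≤ E.card) (v : V) :
    |Zc H r ((D : ℝ) + 1) (kap H ((D : ℝ) + 1) (cov B)) (cov B) v| ≤ 1 / 125 := by
  classical
  rw [Zc_eq hD r hB]
  have hnn := fun u => nn_le hD hr u v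
  have hom := fun u => rr_mul_omc_le (H := H) hD u
  set N : ℝ := (D : ℝ) + 1 with hN
  have hN5 : 5 ≤ N := by
    have : (4 : ℝ) ≤ D := by exact_mod_cast hD4
    linarith
  have h3 := one_le_Mv hD v
  have h4 := Mv_le hD v
  rw [← hN] at h3 h4
  have h1 : |∑ u, (nn H r N u v : ℝ) * (omc H N u * -sg (cov B) u)| ≤ N / 125 := by
    have h5 : ∑ u, (nn H r N u v : ℝ) * (omc H N u * -sg (cov B) u) =
        ∑ u ∈ univ.filter (fun u => nn H r N u v ≠ 0),
          (nn H r N u v : ℝ) * (omc H N u * -sg (cov B) u) := by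
      rw [sum_filter]
      refine sum_congr rfl fun u _ => ?_
      split_ifs with h
      · rfl
      · push Not at h
        rw [h, Nat.cast_zero, zero_mul]
    have h6 : (univ.filter (fun u => nn H r N u v ≠ 0)).card ≤ 2 := by
      by_cases hv : b3 H v ≤ 2
      · refine (Tr_card (by linarith) (not_crit_of_le hN5 hv) _ fun u hu => ?_).trans hv
        by_contra hcon
        exact (mem_filter.1 hu).2 (nn_eq_zero fun h => hcon h.2.2)
      · have h7 : univ.filter (fun u => nn H r N u v ≠ 0) = ∅ := by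
          rw [filter_eq_empty_iff]
          intro u _ h8
          exact h8 (nn_eq_zero fun h => hv h.2.1)
        rw [h7, card_empty]
        exact Nat.zero_le _
    rw [h5]
    refine (abs_sum_le_sum_abs _ _).trans ?_
    have h7 : ∀ u ∈ univ.filter (fun u => nn H r N u v ≠ 0),
        |(nn H r N u v : ℝ) * (omc H N u * -sg (cov B) u)| ≤ N / 250 := by
      intro u hu
      have hc : crit H N u := by
        by_contra hcon
        exact (mem_filter.1 hu).2 (nn_eq_zero fun h => hcon h.2.2.1)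
      rw [abs_mul, abs_mul, abs_neg, abs_sg, mul_one, abs_of_nonneg (omc_nonneg _ _ _),
        abs_of_nonneg (Nat.cast_nonneg _)]
      have h8 := hnn u
      have h9 := hom u hc
      have h10 := omc_nonneg H N u
      calc (nn H r N u v : ℝ) * omc H N u ≤ rr H N u * N * omc H N u :=
            mul_le_mul_of_nonneg_right h8 h10
        _ = N * (rr H N u * omc H N u) := by ring
        _ ≤ N * (1 / 250) := mul_le_mul_of_nonneg_left h9 (by linarith)
        _ = N / 250 := by ring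
    refine (sum_le_card_nsmul _ _ _ h7).trans ?_
    rw [nsmul_eq_mul]
    have h8 : (((univ.filter (fun u => nn H r N u v ≠ 0)).card : ℕ) : ℝ) ≤ 2 := by
      exact_mod_cast h6
    have h9 : 0 ≤ N / 250 := by positivity
    nlinarith
  rw [abs_mul, abs_of_nonneg (by positivity)]
  have h5 : Mv H N v / N ^ 2 ≤ 1 / N := by
    rw [div_le_div_iff₀ (by positivity) (by linarith)]
    nlinarith
  refine (mul_le_mul h5 h1 (abs_nonneg _) (by positivity)).trans (le_of_eq ?_)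
  field_simp

/-- The room in the star is at least `.99`. -/
theorem Cr_ge {H : Finset (Finset V)} {D : ℕ}
    (hD : ∀ x, ∑ E ∈ H.filter (fun E => x ∈ E), (E.card - 1) ≤ D) (hD4 : 4 ≤ D)
    {r : V → ℕ} (hr : Function.Injective r) {B : Finset (Finset V)}
    (hB : B ⊆ H.filter fun E => 3 ≤ E.card) (v : V) :
    99 / 100 ≤ Cr H r ((D : ℝ) + 1) (kap H ((D : ℝ) + 1) (cov B)) (cov B) v := by
  have h1 := (abs_le.1 (Zc_abs hD hD4 hr hB v)).1
  have h2 := dfree_add hD r (cov B) v (empty_subset (hi H r v))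
  rw [empty_inter, card_empty, Nat.cast_zero] at h2
  unfold Zc at h1
  linarith

end Pool.Agent.JR
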