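import Pool.Agent.JR.Cond

/-!
# JR: the unconditioned law is a QLaw
-/

set_option autoImplicit false

namespace Pool.Agent.JR

open Finset
open Pool.Agent.LawB (ev ins ali Law CB NB Conc CC ali_mem)

variable {V : Type*} [Fintype V] [DecidableEq V]

theorem qlaw_self {k N : ℕ} (hk : 0 < k) (hN1 : 1 ≤ N) {H : Finset (Finset V)}
    {w : Finset (Finset V) → ℝ} (hB : Big k N H) (h : Law (CB k) N H w) :
    QLaw (Kq k) N H w := by
  have hNr : (0 : ℝ) < N := by exact_mod_cast hN1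
  refine ⟨h.nonneg, h.total, fun B hB0 => h.supp B hB0, ?_⟩
  intro A hA hPD
  have hCB := LawB.one_le_CB k
  have h1 := h.rpt hCB hN1 k hk (fun F hF => ⟨hB.nonempty F hF, hB.card F hF⟩) ∅
    (fun _ => 1) (fun _ _ _ => rfl) (fun _ => ⟨zero_le_one, le_rfl⟩) A hA hPD
    (fun F _ => Finset.disjoint_empty_right F)
  rw [h.ev_const] at h1
  have e1 : (fun B => ins A B * (1 : ℝ)) = ins A := by
    funext B; ring
  rw [e1, Finset.card_empty] at h1
  set E := ev w (ins A) with hE
  set r := A.card with hr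
  set D := 4 * (k : ℝ) ^ 2 * CB k with hD
  have hD0 : 0 < D := by
    have : (0 : ℝ) < k := by exact_mod_cast hk
    have := LawB.CB_pos k
    positivity
  have e2 : E - (1 / (N : ℝ)) ^ r = ((N : ℝ) ^ r * E - 1) / (N : ℝ) ^ r := by
    rw [one_div, inv_pow]
    field_simp
  rw [e2, abs_div, abs_of_pos (by positivity : 0 < (N : ℝ) ^ r), div_le_iff₀ (by positivity)]
  refine h1.trans ?_
  have e3 : Kq k = 4 * D := by unfold Kq; rw [hD]; ring
  rw [e3]
  have h4 : (1 : ℝ) ≤ 4 ^ (r + 1) := one_le_pow₀ (by norm_num)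
  have e6 : (4 * D / N) ^ (r + 1) * (N : ℝ) ^ r = (4 ^ (r + 1) * D ^ (r + 1)) / N := by
    rw [div_pow, mul_pow, pow_succ (N : ℝ) r]
    field_simp
  rw [e6]
  apply div_le_div_of_nonneg_right _ hNr.le
  push_cast
  have h8 : 0 ≤ D ^ (r + 1) := by positivity
  nlinarith

end Pool.Agent.JR
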