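import Mathlib
import Pool.Agent.JR.Defs

/-!
# JR: the targets of the sections
-/

set_option autoImplicit false

namespace Pool.Agent.JR

open Finset
open Pool.Agent.LawB (ev ins ali Law)

/-- DI1: marks are edges of size three with at most two vertices in `R` -/
def StDI1 : Prop := ∀ (k : ℕ) (S0 : ℝ), ∃ (C : ℝ) (N0 : ℕ), ∀ (V : Type) [Fintype V]
  [DecidableEq V] (N : ℕ) (H : Finset (Finset V)) (R : Finset V) (Mk : Finset (Finset V)),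
  N0 ≤ N → Big k N H → (∀ w ∈ R, ¬ vh H N w) → load H N R ≤ S0 → Mk ⊆ H →
  (∀ F ∈ Mk, F.card = 3 ∧ (F ∩ R).card ≤ 2) →
  VF H N (aw R (xc H N 2)) ≤ (3.8 + C / N) *
    ∑ w ∈ R, (xc H N 2 w - (1 + xc H N 2 w) * bd H w / N - 0.16 * mk H Mk w / N) ∧
  0.4 * ∑ w ∈ R, xc H N 2 w ≤
    ∑ w ∈ R, (xc H N 2 w - (1 + xc H N 2 w) * bd H w / N - 0.16 * mk H Mk w / N)

/-- E1L -/
def StE1L : Prop := ∀ (k : ℕ) (K : ℝ), ∃ (c C : ℝ) (N0 : ℕ), 0 < c ∧ ∀ (V : Type) [Fintype V]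
  [DecidableEq V] (N : ℕ) (H : Finset (Finset V)) (w : Finset (Finset V) → ℝ) (W : Finset V),
  N0 ≤ N → Big k N H → QLaw K N H w → ∑ z ∈ W, xu H N z ≤ 1.9 →
  -C / N ≤ ev w (fun B => Xv W (xu H N) B - max (Xv W (xu H N) B) 0 / 2
    - 0.1 * (∑ z ∈ W, xu H N z) * hit W B) ∧
  (0.45 ≤ ∑ z ∈ W, xu H N z → c - C / N ≤
    ev w (fun B => Xv W (xu H N) B - max (Xv W (xu H N) B) 0 / 2
    - 0.1 * (∑ z ∈ W, xu H N z) * hit W B))

/-- E1H -/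
def StE1H : Prop := ∀ (k : ℕ) (K S0 : ℝ), ∃ (C : ℝ) (N0 : ℕ), ∀ (V : Type) [Fintype V]
  [DecidableEq V] (N : ℕ) (H : Finset (Finset V)) (w : Finset (Finset V) → ℝ) (W : Finset V)
  (Mk : Finset (Finset V)),
  N0 ≤ N → Big k N H → QLaw K N H w → (∀ z ∈ W, ¬ vh H N z) → load H N W ≤ S0 → Mk ⊆ H →
  (∀ F ∈ Mk, F.card = 3 ∧ (F ∩ W).card ≤ 2) → 1.9 ≤ ∑ z ∈ W, xc H N 2 z →
  0.011 - C / N ≤ ev w (fun B => phi (Xv W (fun z => xc H N 2 z - 0.16 * mk H Mk z / N) B))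

/-- E2 -/
def StE2 : Prop := ∀ (k : ℕ) (K S0 : ℝ), ∃ (C : ℝ) (N0 : ℕ), ∀ (V : Type) [Fintype V]
  [DecidableEq V] (N : ℕ) (H : Finset (Finset V)) (w : Finset (Finset V) → ℝ) (W : Finset V)
  (u₁ u₂ : V),
  N0 ≤ N → Big k N H → QLaw K N H w → u₁ ∈ W → u₂ ∈ W → u₁ ≠ u₂ → vh H N u₁ → vh H N u₂ →
  load H N W ≤ S0 →
  0.05 - C / N ≤ ev w (fun B => phi (Xv W
    (fun z => if 50 * td H z < N then 0.92 * xu H N z else xc H N 9 z) B))

/-- `m''` of the pair `(u, R)`, for the values `x` (marks subtracted) and the weights `a` -/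
noncomputable def m2 {V : Type*} [DecidableEq V] (H : Finset (Finset V)) (N : ℕ) (u : V)
    (R : Finset V) (x : V → ℝ) (a : Finset V → ℝ) : ℝ :=
  ∑ z ∈ R, x z - 2 * (∑ G ∈ H.filter (fun G => u ∈ G), a G) / N
    - (∑ F ∈ H.filter (fun F => u ∉ F), a F) / N

/-- E3: `x` are the values when `u` is covered; when `u` is free the values of the vertices attached
to `u` are lowered by `0.16 / N` -/
def StE3 : Prop := ∀ (k : ℕ) (K S0 : ℝ), ∃ (C : ℝ) (N0 : ℕ), ∀ (V : Type) [Fintype V]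
  [DecidableEq V] (N : ℕ) (H : Finset (Finset V)) (w : Finset (Finset V) → ℝ) (u : V)
  (R : Finset V) (Mk : Finset (Finset V)) (xx : ℝ),
  N0 ≤ N → Big k N H → QLaw K N H w → u ∉ R → vh H N u → (∀ z ∈ R, ¬ vh H N z) →
  load H N R ≤ S0 → Mk ⊆ H → (∀ F ∈ Mk, F.card = 3 ∧ (F ∩ R).card ≤ 2 ∧ u ∉ F) →
  min (2 * (bd H u : ℝ) / (N - 2 * bd H u)) 20 - 0.01 ≤ xx →
  (100 * bd H u ≤ 43 * N ∨ 0.3 ≤ m2 H N u R (fun z => xc H N 2 z - 0.16 * mk H Mk z / N)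
    (aw R (xc H N 2))) →
  0.004 - C / N ≤ ev w (fun B => if u ∈ LawB.cov B then
      phi (-1 + Xv R (fun z => xc H N 2 z - 0.16 * mk H Mk z / N) B) else
      phi (xx + Xv R (fun z => xc H N 2 z - 0.16 * mk H Mk z / N
        - 0.16 * (H.filter fun G => u ∈ G ∧ z ∈ G).card / N) B)) ∧
  ((∑ G ∈ H.filter (fun G => u ∈ G), aw R (xc H N 2) G) / N ≤
    m2 H N u R (fun z => xc H N 2 z - 0.16 * mk H Mk z / N) (aw R (xc H N 2)) →
    0.014 - C / N ≤ ev w (fun B => if u ∈ LawB.cov B then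
      phi (-1 + Xv R (fun z => xc H N 2 z - 0.16 * mk H Mk z / N) B) else
      phi (xx + Xv R (fun z => xc H N 2 z - 0.16 * mk H Mk z / N
        - 0.16 * (H.filter fun G => u ∈ G ∧ z ∈ G).card / N) B)))

end Pool.Agent.JR
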