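import Mathlib
import Pool.Agent.JR.St

/-!
# JR: the deterministic variance inequality DI1
-/

set_option autoImplicit false

namespace Pool.Agent.JR

open Finset

section

variable {V : Type} [DecidableEq V] {k N : ℕ} {H : Finset (Finset V)}

theorem DI1_swap (R' : Finset V) (f : Finset V → V → ℝ) :
    ∑ w ∈ R', ∑ F ∈ H.filter (fun F => w ∈ F), f F w = ∑ F ∈ H, ∑ w ∈ F ∩ R', f F w := by
  apply Finset.sum_comm'
  intro w F
  simp only [mem_filter, mem_inter]
  tauto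

theorem DI1_td_real (hH : Big k N H) (w : V) :
    (td H w : ℝ) = ∑ F ∈ H.filter (fun F => w ∈ F), ((F.card : ℝ) - 1) := by
  unfold td
  push_cast
  refine sum_congr rfl fun F hF => ?_
  have := hH.three F (mem_filter.1 hF).1
  rw [Nat.cast_sub (by omega), Nat.cast_one]

theorem DI1_bd_real (w : V) : (bd H w : ℝ) = ∑ _F ∈ H.filter (fun F => w ∈ F), (1 : ℝ) := by
  unfold bd
  rw [sum_const, nsmul_eq_mul, mul_one]

theorem DI1_two_bd (hH : Big k N H) (w : V) : 2 * (bd H w : ℝ) ≤ td H w := by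
  rw [DI1_td_real hH, DI1_bd_real, mul_sum]
  refine sum_le_sum fun F hF => ?_
  have : (3 : ℝ) ≤ F.card := by exact_mod_cast hH.three F (mem_filter.1 hF).1
  linarith

theorem DI1_td_le (hH : Big k N H) (w : V) : (td H w : ℝ) ≤ k * bd H w := by
  rw [DI1_td_real hH, DI1_bd_real, mul_sum]
  refine sum_le_sum fun F hF => ?_
  have : (F.card : ℝ) ≤ k := by exact_mod_cast hH.card F (mem_filter.1 hF).1
  linarith

theorem DI1_td_lt (hH : Big k N H) (w : V) : (td H w : ℝ) + 1 ≤ N := by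
  exact_mod_cast hH.deg w

theorem DI1_xu_nonneg (hH : Big k N H) (w : V) : 0 ≤ xu H N w := by
  unfold xu
  have := DI1_td_lt hH w
  exact div_nonneg (Nat.cast_nonneg _) (by linarith)

theorem DI1_xu_mul (hH : Big k N H) (w : V) : xu H N w * N = td H w * (1 + xu H N w) := by
  unfold xu
  have h := DI1_td_lt hH w
  have h2 : (N : ℝ) - td H w ≠ 0 := by
    have : (0 : ℝ) < (N : ℝ) - td H w := by linarith
    exact this.ne'
  field_simp
  ring

/-- `β (1 + xu) ≤ xu / 2` -/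
theorem DI1_beta_le (hH : Big k N H) (w : V) : (1 + xu H N w) * (bd H w) / N ≤ xu H N w / 2 := by
  have h0 := DI1_xu_mul hH w
  have h1 := DI1_two_bd hH w
  have h2 := DI1_td_lt hH w
  have h3 := DI1_xu_nonneg hH w
  have h4 : (0 : ℝ) < N := by
    have : (0 : ℝ) ≤ td H w := Nat.cast_nonneg _
    linarith
  rw [div_le_div_iff₀ h4 two_pos]
  nlinarith

theorem DI1_xc_nonneg (hH : Big k N H) (w : V) : 0 ≤ xc H N 2 w :=
  le_min (DI1_xu_nonneg hH w) zero_le_two

theorem DI1_xc_le (w : V) : xc H N 2 w ≤ 2 := min_le_right _ _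

/-- the polynomial inequality at a middle vertex -/
theorem DI1_poly {x b n A : ℝ} (hn : 0 < n) (hb0 : 0 ≤ b) (hb : b < 0.4 * n)
    (hx : (x = 2) ∨ (x ≤ 2 ∧ (1 + x) * b / n ≤ x / 2)) (hx1 : 1 / 49 ≤ x) :
    0.01 ≤ 3.8 * (x - (1 + x) * b / n) - (1 + x) ^ 2 * (b / n) - (2 * (1 + x) - 1.759) * A +
      ((1 + x) * b / n + A) ^ 2 := by
  have hβ0 : 0 ≤ b / n := div_nonneg hb0 hn.le
  have hβ : b / n < 0.4 := by
    rw [div_lt_iff₀ hn]
    exact hb
  set β := b / n with hβdef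
  have e1 : (1 + x) * b / n = (1 + x) * β := by rw [hβdef, mul_div_assoc]
  rw [e1] at hx ⊢
  have key : 3.8 * (x - (1 + x) * β) - β * (1 - β) * (1 + x) ^ 2 - (x - (1 + x) * β + 0.1205) ^ 2 ≤
      3.8 * (x - (1 + x) * β) - (1 + x) ^ 2 * β - (2 * (1 + x) - 1.759) * A +
      ((1 + x) * β + A) ^ 2 := by
    nlinarith [sq_nonneg (A - (x - (1 + x) * β + 0.1205))]
  refine le_trans ?_ key
  rcases hx with rfl | ⟨hx2, hq⟩
  · nlinarith
  · set q := (1 + x) * β with hq'
    have e2 : β * (1 - β) * (1 + x) ^ 2 = q * (1 + x - q) := by rw [hq']; ring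
    rw [e2]
    have e3 : 3.8 * (x - q) - q * (1 + x - q) - (x - q + 0.1205) ^ 2 =
        3.559 * x - x ^ 2 - 0.01452025 - q * (4.559 - x) := by ring
    rw [e3]
    have h5 : q * (4.559 - x) ≤ x / 2 * (4.559 - x) :=
      mul_le_mul_of_nonneg_right hq (by linarith)
    nlinarith [mul_nonneg (sub_nonneg.2 hx1) (sub_nonneg.2 hx2)]

/-- the number of members of `M` common to `F` and `G` -/
def DI1_c (M F G : Finset V) : ℝ := ((M.filter fun u => u ∈ F ∧ u ∈ G).card : ℝ)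

theorem DI1_c_eq (M F G : Finset V) :
    DI1_c M F G = ∑ u ∈ M, if u ∈ F ∧ u ∈ G then (1 : ℝ) else 0 := by
  unfold DI1_c
  rw [Finset.card_filter]
  push_cast
  rfl

theorem DI1_c_le_one (hH : Big k N H) {M F G : Finset V} (hF : F ∈ H) (hG : G ∈ H)
    (hFG : F ≠ G) : DI1_c M F G ≤ 1 := by
  unfold DI1_c
  have h1 : (M.filter fun u => u ∈ F ∧ u ∈ G).card ≤ (F ∩ G).card := by
    apply Finset.card_le_card
    intro u hu
    rw [mem_filter] at hu
    exact mem_inter.2 hu.2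
  exact_mod_cast h1.trans (hH.lin F hF G hG hFG)

theorem DI1_c_disj {M F G : Finset V} (h : Disjoint F G) : DI1_c M F G = 0 := by
  unfold DI1_c
  rw [Nat.cast_eq_zero, Finset.card_eq_zero, Finset.filter_eq_empty_iff]
  intro u _ hu
  exact Finset.disjoint_left.1 h hu.1 hu.2

theorem DI1_pair (hH : Big k N H) (M : Finset V) (a : Finset V → ℝ) (ha : ∀ F ∈ H, 0 ≤ a F) :
    ∑ u ∈ M, ((∑ F ∈ H.filter (fun F => u ∈ F), a F) ^ 2
      - ∑ F ∈ H.filter (fun F => u ∈ F), a F ^ 2) ≤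
    ∑ F ∈ H, ∑ G ∈ H.filter (fun G => ¬ Disjoint F G), a F * a G := by
  have h1 : ∑ u ∈ M, (∑ F ∈ H.filter (fun F => u ∈ F), a F) ^ 2 =
      ∑ F ∈ H, ∑ G ∈ H, DI1_c M F G * (a F * a G) := by
    have h2 : ∀ u, (∑ F ∈ H.filter (fun F => u ∈ F), a F) ^ 2 =
        ∑ F ∈ H, ∑ G ∈ H, (if u ∈ F ∧ u ∈ G then (1 : ℝ) else 0) * (a F * a G) := by
      intro u
      rw [sq, Finset.sum_filter, Finset.sum_mul_sum]
      refine sum_congr rfl fun F _ => sum_congr rfl fun G _ => ?_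
      by_cases hF : u ∈ F <;> by_cases hG : u ∈ G <;> simp [hF, hG]
    rw [sum_congr rfl fun u _ => h2 u, Finset.sum_comm]
    refine sum_congr rfl fun F _ => ?_
    rw [Finset.sum_comm]
    refine sum_congr rfl fun G _ => ?_
    rw [DI1_c_eq, Finset.sum_mul]
  have h3 : ∑ u ∈ M, ∑ F ∈ H.filter (fun F => u ∈ F), a F ^ 2 =
      ∑ F ∈ H, DI1_c M F F * a F ^ 2 := by
    have h2 : ∀ u, ∑ F ∈ H.filter (fun F => u ∈ F), a F ^ 2 =
        ∑ F ∈ H, (if u ∈ F ∧ u ∈ F then (1 : ℝ) else 0) * a F ^ 2 := by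
      intro u
      rw [Finset.sum_filter]
      refine sum_congr rfl fun F _ => ?_
      by_cases hF : u ∈ F <;> simp [hF]
    rw [sum_congr rfl fun u _ => h2 u, Finset.sum_comm]
    refine sum_congr rfl fun F _ => ?_
    rw [DI1_c_eq, Finset.sum_mul]
  rw [Finset.sum_sub_distrib, h1, h3, ← Finset.sum_sub_distrib]
  refine sum_le_sum fun F hF => ?_
  rw [sub_le_iff_le_add']
  have h4 : ∀ G ∈ H, DI1_c M F G * (a F * a G) ≤
      (if G = F then DI1_c M F F * a F ^ 2 else 0) +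
        (if ¬ Disjoint F G then a F * a G else 0) := by
    intro G hG
    have h5 : 0 ≤ a F * a G := mul_nonneg (ha F hF) (ha G hG)
    by_cases hGF : G = F
    · subst hGF
      rw [if_pos rfl]
      have h6 : DI1_c M G G * (a G * a G) = DI1_c M G G * a G ^ 2 := by ring
      rw [h6]
      have h7 : (0 : ℝ) ≤ if ¬ Disjoint G G then a G * a G else 0 := by
        split_ifs
        · exact le_refl _
        · exact h5
      linarith
    · rw [if_neg hGF, zero_add]
      by_cases hd : Disjoint F G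
      · rw [DI1_c_disj hd, zero_mul, if_neg (not_not.2 hd)]
      · rw [if_pos hd]
        have h6 := DI1_c_le_one hH (M := M) hF hG (Ne.symm hGF)
        nlinarith
  refine (sum_le_sum h4).trans (le_of_eq ?_)
  rw [Finset.sum_add_distrib, Finset.sum_ite_eq' H F, if_pos hF, Finset.sum_filter]

/-- few edges contain two members of `M` -/
theorem DI1_H2 (hH : Big k N H) (M : Finset V) :
    (H.filter fun F => 2 ≤ (F ∩ M).card).card ≤ M.card ^ 2 := by
  have h1 : ∀ F ∈ H.filter (fun F => 2 ≤ (F ∩ M).card), ∃ p : V × V, p.1 ≠ p.2 ∧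
      p.1 ∈ F ∩ M ∧ p.2 ∈ F ∩ M := by
    intro F hF
    obtain ⟨a, ha, b, hb, hab⟩ := Finset.one_lt_card.1 (mem_filter.1 hF).2
    exact ⟨(a, b), hab, ha, hb⟩
  rcases Finset.eq_empty_or_nonempty (H.filter fun F => 2 ≤ (F ∩ M).card) with h0 | ⟨F0, hF0⟩
  · rw [h0, Finset.card_empty]
    exact Nat.zero_le _
  have hne : Nonempty (V × V) := ⟨(h1 F0 hF0).choose⟩
  choose! p hp1 hp2 hp3 using h1
  have h2 : (H.filter fun F => 2 ≤ (F ∩ M).card).card ≤ (M ×ˢ M).card := by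
    apply Finset.card_le_card_of_injOn p
    · intro F hF
      rw [Finset.mem_coe, Finset.mem_product]
      exact ⟨(mem_inter.1 (hp2 F hF)).2, (mem_inter.1 (hp3 F hF)).2⟩
    · intro F hF G hG hFG
      by_contra hne
      have h3 := hH.lin F (mem_filter.1 hF).1 G (mem_filter.1 hG).1 hne
      have h4 : 1 < (F ∩ G).card := by
        rw [Finset.one_lt_card]
        refine ⟨(p F).1, ?_, (p F).2, ?_, hp1 F hF⟩
        · refine mem_inter.2 ⟨(mem_inter.1 (hp2 F hF)).1, ?_⟩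
          rw [hFG]
          exact (mem_inter.1 (hp2 G hG)).1
        · refine mem_inter.2 ⟨(mem_inter.1 (hp3 F hF)).1, ?_⟩
          rw [hFG]
          exact (mem_inter.1 (hp3 G hG)).1
      omega
  rw [Finset.card_product] at h2
  rw [sq]
  exact h2

/-- the sum over the edges with exactly one member of `M` -/
theorem DI1_H1 (M : Finset V) (f : Finset V → ℝ) :
    ∑ F ∈ H.filter (fun F => (F ∩ M).card = 1), f F =
      ∑ u ∈ M, ∑ F ∈ H.filter (fun F => u ∈ F ∧ (F ∩ M).card = 1), f F := by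
  have h1 : ∑ u ∈ M, ∑ F ∈ H.filter (fun F => u ∈ F ∧ (F ∩ M).card = 1), f F =
      ∑ F ∈ H.filter (fun F => (F ∩ M).card = 1), ∑ _u ∈ F ∩ M, f F := by
    apply Finset.sum_comm'
    intro u F
    simp only [mem_filter, mem_inter]
    tauto
  rw [h1]
  refine sum_congr rfl fun F hF => ?_
  rw [sum_const, (mem_filter.1 hF).2, one_smul]

theorem DI1_aw_union {M L : Finset V} (hd : Disjoint M L) (x : V → ℝ) (F : Finset V) :
    aw (M ∪ L) x F = aw M x F + aw L x F := by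
  unfold aw
  rw [Finset.inter_union_distrib_left, Finset.sum_union]
  exact Finset.disjoint_of_subset_left Finset.inter_subset_right
    (Finset.disjoint_of_subset_right Finset.inter_subset_right hd)

theorem DI1_aw_nonneg {x : V → ℝ} (hx : ∀ w, 0 ≤ x w) (M F : Finset V) : 0 ≤ aw M x F :=
  Finset.sum_nonneg fun w _ => by linarith [hx w]

theorem DI1_aw_le {x : V → ℝ} {q : ℝ} {M F : Finset V} (hx : ∀ w ∈ M, 1 + x w ≤ q) :
    aw M x F ≤ (F ∩ M).card * q := by
  unfold aw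
  rw [← nsmul_eq_mul, ← Finset.sum_const]
  exact sum_le_sum fun w hw => hx w (mem_inter.1 hw).2

/-- the coefficient of an edge -/
noncomputable def DI1_cf (Mk : Finset (Finset V)) (F : Finset V) : ℝ :=
  (F.card : ℝ) - 2 - 0.16 * (if F ∈ Mk then 1 else 0)

theorem DI1_cf_ge (hH : Big k N H) {Mk : Finset (Finset V)} {F : Finset V} (hF : F ∈ H) :
    0.84 ≤ DI1_cf Mk F := by
  unfold DI1_cf
  have : (3 : ℝ) ≤ F.card := by exact_mod_cast hH.three F hF
  split_ifs <;> linarith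

/-- the light edges -/
theorem DI1_light (hH : Big k N H) {Mk : Finset (Finset V)} {F L : Finset V} (hF : F ∈ H)
    (hMk : F ∈ Mk → F.card = 3 ∧ (F ∩ L).card ≤ 2) {aL : ℝ}
    (h1 : aL ≤ (F ∩ L).card * (50 / 49)) : aL ≤ 3.8 * DI1_cf Mk F := by
  have h3 : (3 : ℝ) ≤ F.card := by exact_mod_cast hH.three F hF
  have h4 : ((F ∩ L).card : ℝ) ≤ F.card := by exact_mod_cast Finset.card_le_card inter_subset_left
  unfold DI1_cf
  by_cases hm : F ∈ Mk
  · obtain ⟨e1, e2⟩ := hMk hm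
    have e3 : ((F ∩ L).card : ℝ) ≤ 2 := by exact_mod_cast e2
    rw [if_pos hm, e1]
    push_cast
    linarith
  · rw [if_neg hm]
    linarith

/-- the edges with one middle vertex -/
theorem DI1_one (hH : Big k N H) {Mk : Finset (Finset V)} {F L M : Finset V} (hF : F ∈ H)
    (hLM : Disjoint M L) (h1M : (F ∩ M).card = 1)
    (hMk : F ∈ Mk → F.card = 3 ∧ (F ∩ (M ∪ L)).card ≤ 2) {aL : ℝ}
    (h1 : aL ≤ (F ∩ L).card * (50 / 49)) : aL + 1.759 ≤ 3.8 * DI1_cf Mk F := by
  have h3 : (3 : ℝ) ≤ F.card := by exact_mod_cast hH.three F hF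
  have h5 : (F ∩ (M ∪ L)).card = (F ∩ M).card + (F ∩ L).card := by
    rw [Finset.inter_union_distrib_left, Finset.card_union_of_disjoint]
    exact Finset.disjoint_of_subset_left Finset.inter_subset_right
      (Finset.disjoint_of_subset_right Finset.inter_subset_right hLM)
  have h6 : (F ∩ (M ∪ L)).card ≤ F.card := Finset.card_le_card inter_subset_left
  have h4 : ((F ∩ L).card : ℝ) + 1 ≤ F.card := by
    have : (F ∩ L).card + 1 ≤ F.card := by omega
    exact_mod_cast this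
  unfold DI1_cf
  by_cases hm : F ∈ Mk
  · obtain ⟨e1, e2⟩ := hMk hm
    have e3 : ((F ∩ L).card : ℝ) ≤ 1 := by
      have : (F ∩ L).card ≤ 1 := by omega
      exact_mod_cast this
    rw [if_pos hm, e1]
    push_cast
    linarith
  · rw [if_neg hm]
    linarith

theorem DI1_mk_le {Mk : Finset (Finset V)} (hMk : Mk ⊆ H) (w : V) :
    (mk H Mk w : ℝ) ≤ ∑ F ∈ H.filter (fun F => w ∈ F), (if F ∈ Mk then (1 : ℝ) else 0) := by
  have h1 : (∑ F ∈ H.filter (fun F => w ∈ F), (if F ∈ Mk then (1 : ℝ) else 0)) =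
      ((Mk.filter fun F => w ∈ F).card : ℝ) := by
    rw [← Finset.sum_filter, Finset.sum_const, nsmul_eq_mul, mul_one]
    congr 2
    ext F
    simp only [mem_filter]
    constructor
    · rintro ⟨⟨-, h2⟩, h3⟩
      exact ⟨h3, h2⟩
    · rintro ⟨h2, h3⟩
      exact ⟨⟨hMk h2, h3⟩, h2⟩
  rw [h1]
  unfold mk
  split_ifs
  · exact le_refl _
  · rw [Nat.cast_zero]
    exact Nat.cast_nonneg _

theorem DI1_mk_le_bd {Mk : Finset (Finset V)} (hMk : Mk ⊆ H) (w : V) :
    (mk H Mk w : ℝ) ≤ bd H w := by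
  refine (DI1_mk_le hMk w).trans ?_
  rw [DI1_bd_real]
  refine sum_le_sum fun F _ => ?_
  split_ifs
  · exact le_refl _
  · exact zero_le_one

/-- the contribution of a light vertex to `m` -/
theorem DI1_lt (hH : Big k N H) {Mk : Finset (Finset V)} (hMk : Mk ⊆ H) {w : V}
    (hw : 50 * td H w < N) :
    (∑ F ∈ H.filter (fun F => w ∈ F), DI1_cf Mk F * (1 + xc H N 2 w)) / N ≤
      xc H N 2 w - (1 + xc H N 2 w) * bd H w / N - 0.16 * mk H Mk w / N := by
  have hN : (0 : ℝ) < N := by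
    have : 0 < N := by omega
    exact_mod_cast this
  have hx0 := DI1_xu_nonneg hH w
  have hxm := DI1_xu_mul hH w
  have hw' : 50 * (td H w : ℝ) < N := by exact_mod_cast hw
  have hx2 : xu H N w ≤ 2 := by
    by_contra hcon
    push Not at hcon
    nlinarith
  have hxc : xc H N 2 w = xu H N w := min_eq_left hx2
  rw [hxc]
  set x := xu H N w with hx
  have h1 := DI1_mk_le hMk w
  set mm := ∑ F ∈ H.filter (fun F => w ∈ F), (if F ∈ Mk then (1 : ℝ) else 0) with hmm
  have h2 : ∑ F ∈ H.filter (fun F => w ∈ F), DI1_cf Mk F * (1 + x) =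
      (1 + x) * (td H w - bd H w - 0.16 * mm) := by
    rw [DI1_td_real hH, DI1_bd_real, hmm, mul_sum, ← Finset.sum_sub_distrib,
      ← Finset.sum_sub_distrib, mul_sum]
    refine sum_congr rfl fun F _ => ?_
    unfold DI1_cf
    ring
  rw [h2]
  have h3 : 0 ≤ mm := Finset.sum_nonneg fun F _ => by split_ifs <;> norm_num
  have h4 : x = td H w * (1 + x) / N := by
    rw [eq_div_iff hN.ne']
    exact hxm
  have h5 : x - (1 + x) * bd H w / N - 0.16 * mk H Mk w / N =
      ((1 + x) * (td H w - bd H w) - 0.16 * mk H Mk w) / N := by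
    conv_lhs => rw [h4]
    have : (1 + td H w * (1 + x) / N) = 1 + x := by rw [← h4]
    rw [this]
    ring
  rw [h5]
  refine div_le_div_of_nonneg_right ?_ hN.le
  nlinarith [mul_nonneg hx0 h3]

/-- a vertex of `R` contributes at least `0.4 x` to `m` -/
theorem DI1_ge (hH : Big k N H) {Mk : Finset (Finset V)} (hMk : Mk ⊆ H) {w : V}
    (hN : 10 ≤ N) (hw : ¬ vh H N w) :
    0.4 * xc H N 2 w ≤ xc H N 2 w - (1 + xc H N 2 w) * bd H w / N - 0.16 * mk H Mk w / N := by
  have hN' : (10 : ℝ) ≤ N := by exact_mod_cast hN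
  have hN0 : (0 : ℝ) < N := by linarith
  have hb : (bd H w : ℝ) < 0.4 * N := by
    unfold vh at hw
    push Not at hw
    have : (5 : ℝ) * bd H w < 2 * N := by exact_mod_cast hw
    linarith
  have hb0 : (0 : ℝ) ≤ bd H w := Nat.cast_nonneg _
  have hmk := DI1_mk_le_bd hMk w
  have hmk0 : (0 : ℝ) ≤ mk H Mk w := Nat.cast_nonneg _
  rcases le_total (xu H N w) 2 with h | h
  · have hxc : xc H N 2 w = xu H N w := min_eq_left h
    rw [hxc]
    have h1 := DI1_beta_le hH w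
    have hx0 := DI1_xu_nonneg hH w
    have h2 : (mk H Mk w : ℝ) / N ≤ xu H N w / 2 := by
      refine le_trans ?_ h1
      refine div_le_div_of_nonneg_right ?_ hN0.le
      nlinarith
    have h3 : 0.16 * (mk H Mk w : ℝ) / N = 0.16 * ((mk H Mk w : ℝ) / N) := by ring
    rw [h3]
    linarith
  · have hxc : xc H N 2 w = 2 := min_eq_right h
    rw [hxc]
    by_cases hbd : bd H w ≤ 2
    · have h1 : (bd H w : ℝ) ≤ 2 := by exact_mod_cast hbd
      have h2 : (1 + 2) * (bd H w : ℝ) / N ≤ 0.6 := by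
        rw [div_le_iff₀ hN0]
        linarith
      have h3 : 0.16 * (mk H Mk w : ℝ) / N ≤ 0.1 := by
        rw [div_le_iff₀ hN0]
        linarith
      linarith
    · have h1 : mk H Mk w = 0 := by
        unfold mk
        rw [if_neg hbd]
      rw [h1]
      have h2 : (1 + 2) * (bd H w : ℝ) / N ≤ 1.2 := by
        rw [div_le_iff₀ hN0]
        linarith
      have h3 : 0.16 * ((0 : ℕ) : ℝ) / N = 0 := by simp
      rw [h3]
      linarith

theorem DI1_Qb (hH : Big k N H) {w : V} (hN : 10 ≤ N) (hw : ¬ vh H N w) :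
    (1 + xc H N 2 w) * bd H w / N ≤ xc H N 2 w := by
  have h := DI1_ge hH (Mk := ∅) (Finset.empty_subset _) hN hw
  have h0 := DI1_xc_nonneg hH w
  have h1 : mk H ∅ w = 0 := by
    unfold mk
    simp
  rw [h1] at h
  have h3 : 0.16 * ((0 : ℕ) : ℝ) / N = 0 := by simp
  rw [h3] at h
  linarith

/-- a middle vertex, all terms together -/
theorem DI1_mid (hH : Big k N H) {Mk : Finset (Finset V)} {M L : Finset V}
    (hN : 10 ≤ N) (hLM : Disjoint M L) {u : V} (hu : u ∈ M) (huv : ¬ vh H N u)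
    (hum : N ≤ 50 * td H u) (hL : ∀ w ∈ L, 50 * td H w < N)
    (hMk : ∀ F ∈ Mk, F.card = 3 ∧ (F ∩ (M ∪ L)).card ≤ 2) :
    0.01 ≤ 3.8 * (xc H N 2 u - (1 + xc H N 2 u) * bd H u / N) +
      (∑ F ∈ H.filter (fun F => u ∈ F ∧ (F ∩ M).card = 1),
        (3.8 * (DI1_cf Mk F * aw L (xc H N 2) F) - aw (M ∪ L) (xc H N 2) F ^ 2)) / N +
      ((∑ F ∈ H.filter (fun F => u ∈ F), aw (M ∪ L) (xc H N 2) F) / N) ^ 2 := by
  have hN' : (10 : ℝ) ≤ N := by exact_mod_cast hN
  have hN0 : (0 : ℝ) < N := by linarith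
  have hx0 : ∀ w, 0 ≤ xc H N 2 w := fun w => DI1_xc_nonneg hH w
  have hum' : (N : ℝ) ≤ 50 * td H u := by exact_mod_cast hum
  have hb0 : (0 : ℝ) ≤ bd H u := Nat.cast_nonneg _
  have hb : (bd H u : ℝ) < 0.4 * N := by
    unfold vh at huv
    push Not at huv
    have : (5 : ℝ) * bd H u < 2 * N := by exact_mod_cast huv
    linarith
  -- light weights
  have hlw : ∀ w ∈ L, 1 + xc H N 2 w ≤ 50 / 49 := by
    intro w hw
    have hw' : 50 * (td H w : ℝ) < N := by exact_mod_cast hL w hw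
    have h1 := DI1_xu_mul hH w
    have h2 := DI1_xu_nonneg hH w
    have h3 : xu H N w ≤ 1 / 49 := by
      by_contra hcon
      push Not at hcon
      have h4 : (td H w : ℝ) * (1 + xu H N w) ≤ N / 50 * (1 + xu H N w) :=
        mul_le_mul_of_nonneg_right (by linarith) (by linarith)
      nlinarith
    have h4 : xc H N 2 w ≤ xu H N w := min_le_left _ _
    linarith
  set x := xc H N 2 u with hx
  set A : ℝ := (∑ F ∈ H.filter (fun F => u ∈ F ∧ (F ∩ M).card = 1), aw L (xc H N 2) F) / N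
    with hA
  have hA0 : 0 ≤ A := div_nonneg (Finset.sum_nonneg fun F _ => DI1_aw_nonneg hx0 _ _) hN0.le
  have hx1 : 1 / 49 ≤ x := by
    rw [hx]
    refine le_min ?_ (by norm_num)
    have h1 := DI1_xu_mul hH u
    have h2 := DI1_xu_nonneg hH u
    by_contra hcon
    push Not at hcon
    have h4 : N / 50 * (1 + xu H N u) ≤ (td H u : ℝ) * (1 + xu H N u) :=
      mul_le_mul_of_nonneg_right (by linarith) (by linarith)
    nlinarith
  have hcase : (x = 2) ∨ (x ≤ 2 ∧ (1 + x) * (bd H u : ℝ) / N ≤ x / 2) := by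
    rcases le_total (xu H N u) 2 with h | h
    · right
      have e : x = xu H N u := min_eq_left h
      rw [e]
      exact ⟨h, DI1_beta_le hH u⟩
    · left
      exact min_eq_right h
  have hpoly := DI1_poly (A := A) hN0 hb0 hb hcase hx1
  -- edges with one middle vertex
  have h1 : -((2 * (1 + x) - 1.759) * A) - (1 + x) ^ 2 * (bd H u / N) ≤
      (∑ F ∈ H.filter (fun F => u ∈ F ∧ (F ∩ M).card = 1),
        (3.8 * (DI1_cf Mk F * aw L (xc H N 2) F) - aw (M ∪ L) (xc H N 2) F ^ 2)) / N := by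
    have h2 : ∑ F ∈ H.filter (fun F => u ∈ F ∧ (F ∩ M).card = 1),
        (-((2 * (1 + x) - 1.759) * aw L (xc H N 2) F) - (1 + x) ^ 2) ≤
        ∑ F ∈ H.filter (fun F => u ∈ F ∧ (F ∩ M).card = 1),
        (3.8 * (DI1_cf Mk F * aw L (xc H N 2) F) - aw (M ∪ L) (xc H N 2) F ^ 2) := by
      refine sum_le_sum fun F hF => ?_
      rw [mem_filter] at hF
      obtain ⟨hFH, huF, hF1⟩ := hF
      have h3 : aw (M ∪ L) (xc H N 2) F = (1 + x) + aw L (xc H N 2) F := by
        rw [DI1_aw_union hLM]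
        congr 1
        obtain ⟨v, hv⟩ := Finset.card_eq_one.1 hF1
        have h4 : u ∈ F ∩ M := mem_inter.2 ⟨huF, hu⟩
        rw [hv, mem_singleton] at h4
        unfold aw
        rw [hv, sum_singleton, ← h4]
      have h4 := DI1_aw_nonneg hx0 L F
      have h5 := DI1_one hH (Mk := Mk) hFH hLM hF1 (hMk F) (DI1_aw_le (F := F) hlw)
      rw [h3]
      nlinarith
    have h3 : ∑ F ∈ H.filter (fun F => u ∈ F ∧ (F ∩ M).card = 1),
        (-((2 * (1 + x) - 1.759) * aw L (xc H N 2) F) - (1 + x) ^ 2) =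
        -((2 * (1 + x) - 1.759) * (N * A)) -
          (1 + x) ^ 2 * ((H.filter (fun F => u ∈ F ∧ (F ∩ M).card = 1)).card : ℝ) := by
      have h4 : (N : ℝ) * A = ∑ F ∈ H.filter (fun F => u ∈ F ∧ (F ∩ M).card = 1),
          aw L (xc H N 2) F := by
        rw [hA]
        field_simp
      rw [h4, Finset.sum_sub_distrib, Finset.sum_neg_distrib, ← mul_sum, sum_const, nsmul_eq_mul]
      ring
    have h4 : ((H.filter (fun F => u ∈ F ∧ (F ∩ M).card = 1)).card : ℝ) ≤ bd H u := by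
      have : (H.filter (fun F => u ∈ F ∧ (F ∩ M).card = 1)).card ≤ bd H u := by
        unfold bd
        apply Finset.card_le_card
        intro F hF
        rw [mem_filter] at hF ⊢
        exact ⟨hF.1, hF.2.1⟩
      exact_mod_cast this
    rw [le_div_iff₀ hN0]
    refine le_trans ?_ (h3 ▸ h2)
    have h5 : (-((2 * (1 + x) - 1.759) * A) - (1 + x) ^ 2 * (bd H u / N)) * N =
        -((2 * (1 + x) - 1.759) * (N * A)) - (1 + x) ^ 2 * bd H u := by
      field_simp
    rw [h5]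
    have h6 := mul_le_mul_of_nonneg_left h4 (sq_nonneg (1 + x))
    linarith
  -- all edges at the vertex
  have h2 : (1 + x) * bd H u / N + A ≤
      (∑ F ∈ H.filter (fun F => u ∈ F), aw (M ∪ L) (xc H N 2) F) / N := by
    have h3 : ∑ F ∈ H.filter (fun F => u ∈ F), ((1 + x) + aw L (xc H N 2) F) ≤
        ∑ F ∈ H.filter (fun F => u ∈ F), aw (M ∪ L) (xc H N 2) F := by
      refine sum_le_sum fun F hF => ?_
      rw [DI1_aw_union hLM]
      have h4 : 1 + x ≤ aw M (xc H N 2) F := by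
        unfold aw
        exact Finset.single_le_sum (f := fun w => 1 + xc H N 2 w)
          (fun w _ => by have := hx0 w; linarith) (mem_inter.2 ⟨(mem_filter.1 hF).2, hu⟩)
      linarith
    have h4 : ∑ F ∈ H.filter (fun F => u ∈ F ∧ (F ∩ M).card = 1), aw L (xc H N 2) F ≤
        ∑ F ∈ H.filter (fun F => u ∈ F), aw L (xc H N 2) F := by
      apply Finset.sum_le_sum_of_subset_of_nonneg
      · intro F hF
        rw [mem_filter] at hF ⊢
        exact ⟨hF.1, hF.2.1⟩
      · intro F _ _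
        exact DI1_aw_nonneg hx0 _ _
    rw [Finset.sum_add_distrib, sum_const, nsmul_eq_mul] at h3
    have h5 : ((H.filter (fun F => u ∈ F)).card : ℝ) = bd H u := rfl
    rw [h5] at h3
    rw [hA, ← add_div]
    refine div_le_div_of_nonneg_right ?_ hN0.le
    linarith
  have h3 : ((1 + x) * bd H u / N + A) ^ 2 ≤
      ((∑ F ∈ H.filter (fun F => u ∈ F), aw (M ∪ L) (xc H N 2) F) / N) ^ 2 := by
    apply pow_le_pow_left₀ _ h2
    have : 0 ≤ (1 + x) * bd H u / N := by
      have := hx0 u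
      positivity
    linarith
  linarith

/-- the sum of the weights of the edges is at most a multiple of `m` -/
theorem DI1_sum_aw (R : Finset V) (x : V → ℝ) :
    ∑ F ∈ H, aw R x F = ∑ w ∈ R, (1 + x w) * bd H w := by
  unfold aw
  rw [← DI1_swap R (fun _ w => 1 + x w)]
  refine sum_congr rfl fun w _ => ?_
  rw [sum_const, nsmul_eq_mul, mul_comm]
  rfl

/-- middle vertices are few -/
theorem DI1_card_mid (hH : Big k N H) (hk : 0 < k) {M : Finset V} (hN : 10 ≤ N)
    (hM : ∀ u ∈ M, N ≤ 50 * td H u) {S0 : ℝ} (hS : load H N M ≤ S0) :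
    (M.card : ℝ) ≤ 50 * k * S0 := by
  have hN' : (10 : ℝ) ≤ N := by exact_mod_cast hN
  have hN0 : (0 : ℝ) < N := by linarith
  have hk0 : (0 : ℝ) < k := by exact_mod_cast hk
  have h1 : ∀ u ∈ M, 1 / (50 * (k : ℝ)) ≤ (bd H u : ℝ) / N := by
    intro u hu
    have h2 := DI1_td_le hH u
    have h3 : (N : ℝ) ≤ 50 * td H u := by exact_mod_cast hM u hu
    rw [div_le_div_iff₀ (by positivity) hN0]
    linarith
  have h2 : (M.card : ℝ) * (1 / (50 * (k : ℝ))) ≤ S0 := by
    refine le_trans ?_ hS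
    unfold load
    rw [← nsmul_eq_mul, ← sum_const]
    exact sum_le_sum h1
  rw [mul_one_div, div_le_iff₀ (by positivity)] at h2
  linarith

theorem DI1_mk_mid (hH : Big k N H) {Mk : Finset (Finset V)} {u : V}
    (hN : 100 * k < N) (hu : N ≤ 50 * td H u) : mk H Mk u = 0 := by
  unfold mk
  rw [if_neg]
  intro h
  have h1 : (td H u : ℝ) ≤ k * bd H u := DI1_td_le hH u
  have h2 : td H u ≤ k * bd H u := by exact_mod_cast h1
  have h3 : k * bd H u ≤ k * 2 := Nat.mul_le_mul_left _ h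
  omega

/-- DI1 for given numbers -/
theorem DI1_main (hH : Big k N H) {Mk : Finset (Finset V)} (hMkH : Mk ⊆ H)
    {M L : Finset V} (hk : 0 < k) (hN10 : 10 ≤ N) (hNk : 100 * k < N) (hLM : Disjoint M L)
    (hv : ∀ w ∈ M ∪ L, ¬ vh H N w) (hM : ∀ u ∈ M, N ≤ 50 * td H u)
    (hL : ∀ w ∈ L, 50 * td H w < N) (hMk : ∀ F ∈ Mk, F.card = 3 ∧ (F ∩ (M ∪ L)).card ≤ 2)
    {S0 : ℝ} (hS : load H N M ≤ S0) (hNS : 45000 * (k : ℝ) ^ 3 * S0 ≤ N) :
    VF H N (aw (M ∪ L) (xc H N 2)) ≤ (3.8 + 12 * (k : ℝ) ^ 2 / N) *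
      ∑ w ∈ M ∪ L, (xc H N 2 w - (1 + xc H N 2 w) * bd H w / N - 0.16 * mk H Mk w / N) := by
  have hN' : (10 : ℝ) ≤ N := by exact_mod_cast hN10
  have hN0 : (0 : ℝ) < N := by linarith
  have hk0 : (0 : ℝ) < k := by exact_mod_cast hk
  have hx0 : ∀ w, 0 ≤ xc H N 2 w := fun w => DI1_xc_nonneg hH w
  have hx2 : ∀ w, xc H N 2 w ≤ 2 := fun w => DI1_xc_le w
  set x := xc H N 2 with hxdef
  set a := aw (M ∪ L) x with ha
  set aL := aw L x with haL
  have ha0 : ∀ F, 0 ≤ a F := fun F => DI1_aw_nonneg hx0 _ _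
  have haL0 : ∀ F, 0 ≤ aL F := fun F => DI1_aw_nonneg hx0 _ _
  have ha3 : ∀ F ∈ H, a F ≤ 3 * k := by
    intro F hF
    have h1 : a F ≤ (F ∩ (M ∪ L)).card * 3 := DI1_aw_le fun w _ => by linarith [hx2 w]
    have h2 : ((F ∩ (M ∪ L)).card : ℝ) ≤ k := by
      exact_mod_cast (Finset.card_le_card inter_subset_left).trans (hH.card F hF)
    linarith
  set m := ∑ w ∈ M ∪ L, (x w - (1 + x w) * bd H w / N - 0.16 * mk H Mk w / N) with hm
  set Cs := ∑ F ∈ H, DI1_cf Mk F * aL F with hCs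
  -- lower bound for `m`
  have hm1 : ∑ u ∈ M, (x u - (1 + x u) * bd H u / N) + Cs / N ≤ m := by
    rw [hm, Finset.sum_union hLM]
    refine add_le_add (sum_le_sum fun u hu => ?_) ?_
    · rw [DI1_mk_mid hH hNk (hM u hu)]
      simp
    · have h1 : Cs = ∑ w ∈ L, ∑ F ∈ H.filter (fun F => w ∈ F), DI1_cf Mk F * (1 + x w) := by
        rw [DI1_swap L (fun F w => DI1_cf Mk F * (1 + x w)), hCs]
        refine sum_congr rfl fun F _ => ?_
        rw [haL]
        unfold aw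
        rw [mul_sum]
      rw [h1, Finset.sum_div]
      exact sum_le_sum fun w hw => DI1_lt hH hMkH (hL w hw)
  -- `m` bounds the sum of the weights
  have hm2 : (∑ F ∈ H, a F) / N ≤ 2.5 * m := by
    have h1 : (∑ F ∈ H, a F) / N ≤ ∑ w ∈ M ∪ L, x w := by
      rw [ha, DI1_sum_aw, Finset.sum_div]
      exact sum_le_sum fun w hw => DI1_Qb hH hN10 (hv w hw)
    have h2 : 0.4 * ∑ w ∈ M ∪ L, x w ≤ m := by
      rw [mul_sum, hm]
      exact sum_le_sum fun w hw => DI1_ge hH hMkH hN10 (hv w hw)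
    linarith
  -- split of sums over the edges
  have hsplit : ∀ f : Finset V → ℝ, ∑ F ∈ H, f F =
      ∑ F ∈ H.filter (fun F => (F ∩ M).card = 0), f F +
      ∑ F ∈ H.filter (fun F => (F ∩ M).card = 1), f F +
      ∑ F ∈ H.filter (fun F => 2 ≤ (F ∩ M).card), f F := by
    intro f
    rw [Finset.sum_filter, Finset.sum_filter, Finset.sum_filter, ← Finset.sum_add_distrib,
      ← Finset.sum_add_distrib]
    refine sum_congr rfl fun F _ => ?_
    rcases Nat.lt_or_ge (F ∩ M).card 2 with h | h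
    · rcases Nat.lt_or_ge (F ∩ M).card 1 with h' | h'
      · have h0 : (F ∩ M).card = 0 := by omega
        rw [if_pos h0, if_neg (by omega), if_neg (by omega)]
        ring
      · have h0 : (F ∩ M).card = 1 := by omega
        rw [if_neg (by omega), if_pos h0, if_neg (by omega)]
        ring
    · rw [if_neg (by omega), if_neg (by omega), if_pos h]
      ring
  have hlw : ∀ w ∈ L, 1 + x w ≤ 50 / 49 := by
    intro w hw
    have hw' : 50 * (td H w : ℝ) < N := by exact_mod_cast hL w hw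
    have h1 := DI1_xu_mul hH w
    have h2 := DI1_xu_nonneg hH w
    have h3 : xu H N w ≤ 1 / 49 := by
      by_contra hcon
      push Not at hcon
      have h4 : (td H w : ℝ) * (1 + xu H N w) ≤ N / 50 * (1 + xu H N w) :=
        mul_le_mul_of_nonneg_right (by linarith) (by linarith)
      nlinarith
    have h4 : x w ≤ xu H N w := min_le_left _ _
    linarith
  -- light edges
  have hH0 : 0 ≤ ∑ F ∈ H.filter (fun F => (F ∩ M).card = 0),
      (3.8 * (DI1_cf Mk F * aL F) - a F ^ 2) := by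
    refine Finset.sum_nonneg fun F hF => ?_
    rw [mem_filter] at hF
    have h1 : a F = aL F := by
      rw [ha, DI1_aw_union hLM]
      have h2 : F ∩ M = ∅ := Finset.card_eq_zero.1 hF.2
      have h3 : aw M x F = 0 := by
        unfold aw
        rw [h2, sum_empty]
      rw [h3, zero_add]
    have h2 : (F ∩ L).card ≤ (F ∩ (M ∪ L)).card :=
      Finset.card_le_card (Finset.inter_subset_inter_left subset_union_right)
    have h3 := DI1_light hH (Mk := Mk) (L := L) hF.1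
      (fun h => ⟨(hMk F h).1, h2.trans (hMk F h).2⟩) (aL := aL F) (DI1_aw_le hlw)
    rw [h1]
    nlinarith [haL0 F]
  -- edges with two middle vertices
  have hH2 : ∑ F ∈ H.filter (fun F => 2 ≤ (F ∩ M).card), a F ^ 2 ≤
      9 * (k : ℝ) ^ 2 * (M.card : ℝ) ^ 2 := by
    have h1 : ∀ F ∈ H.filter (fun F => 2 ≤ (F ∩ M).card), a F ^ 2 ≤ 9 * (k : ℝ) ^ 2 := by
      intro F hF
      have h2 := ha3 F (mem_filter.1 hF).1
      have h3 := pow_le_pow_left₀ (ha0 F) h2 2
      linarith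
    have h2 := sum_le_sum h1
    rw [sum_const, nsmul_eq_mul] at h2
    have h3 : ((H.filter fun F => 2 ≤ (F ∩ M).card).card : ℝ) ≤ (M.card : ℝ) ^ 2 := by
      exact_mod_cast DI1_H2 hH M
    have h4 : (0 : ℝ) ≤ 9 * (k : ℝ) ^ 2 := by positivity
    nlinarith
  have hMc := DI1_card_mid hH hk hN10 hM hS
  have hH2' : (∑ F ∈ H.filter (fun F => 2 ≤ (F ∩ M).card), a F ^ 2) / N ≤ 0.01 * M.card := by
    rw [div_le_iff₀ hN0]
    refine hH2.trans ?_
    have h1 : (0 : ℝ) ≤ M.card := Nat.cast_nonneg _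
    have h2 : 9 * (k : ℝ) ^ 2 * M.card ≤ 0.01 * N := by
      have h3 : 9 * (k : ℝ) ^ 2 * M.card ≤ 9 * (k : ℝ) ^ 2 * (50 * k * S0) :=
        mul_le_mul_of_nonneg_left hMc (by positivity)
      have h4 : 9 * (k : ℝ) ^ 2 * (50 * k * S0) = 0.01 * (45000 * (k : ℝ) ^ 3 * S0) := by ring
      linarith
    have h3 := mul_le_mul_of_nonneg_right h2 h1
    have h4 : 9 * (k : ℝ) ^ 2 * (M.card : ℝ) ^ 2 = 9 * (k : ℝ) ^ 2 * M.card * M.card := by ring
    rw [h4]
    linarith
  -- the error of the pair sum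
  have hE1 : (∑ u ∈ M, ∑ F ∈ H.filter (fun F => u ∈ F), a F ^ 2) / (N : ℝ) ^ 2 ≤
      12 * (k : ℝ) ^ 2 / N * m := by
    have h1 : ∑ u ∈ M, ∑ F ∈ H.filter (fun F => u ∈ F), a F ^ 2 ≤
        3 * (k : ℝ) ^ 2 * ∑ F ∈ H, a F := by
      rw [DI1_swap M (fun F _ => a F ^ 2), mul_sum]
      refine sum_le_sum fun F hF => ?_
      rw [sum_const, nsmul_eq_mul]
      have h2 : ((F ∩ M).card : ℝ) ≤ k := by
        exact_mod_cast (Finset.card_le_card inter_subset_left).trans (hH.card F hF)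
      have h3 : a F ^ 2 ≤ 3 * k * a F := by
        rw [sq]
        exact mul_le_mul_of_nonneg_right (ha3 F hF) (ha0 F)
      have h4 : (0 : ℝ) ≤ (F ∩ M).card := Nat.cast_nonneg _
      calc ((F ∩ M).card : ℝ) * a F ^ 2 ≤ k * (3 * k * a F) :=
            mul_le_mul h2 h3 (sq_nonneg _) hk0.le
        _ = 3 * (k : ℝ) ^ 2 * a F := by ring
    have h2 : (∑ u ∈ M, ∑ F ∈ H.filter (fun F => u ∈ F), a F ^ 2) / (N : ℝ) ^ 2 ≤
        3 * (k : ℝ) ^ 2 * ((∑ F ∈ H, a F) / N) / N := by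
      have h3 : 3 * (k : ℝ) ^ 2 * ((∑ F ∈ H, a F) / N) / N =
          (3 * (k : ℝ) ^ 2 * ∑ F ∈ H, a F) / (N : ℝ) ^ 2 := by
        field_simp
      rw [h3]
      exact div_le_div_of_nonneg_right h1 (by positivity)
    refine h2.trans ?_
    have hm0 : 0 ≤ m := by
      have : 0 ≤ (∑ F ∈ H, a F) / N := div_nonneg (Finset.sum_nonneg fun F _ => ha0 F) hN0.le
      linarith
    have h3 : 3 * (k : ℝ) ^ 2 * ((∑ F ∈ H, a F) / N) ≤ 12 * (k : ℝ) ^ 2 * m := by
      have h4 := mul_le_mul_of_nonneg_left hm2 (show (0 : ℝ) ≤ 3 * (k : ℝ) ^ 2 by positivity)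
      have h5 : 0 ≤ (k : ℝ) ^ 2 * m := by positivity
      nlinarith
    have h4 : 12 * (k : ℝ) ^ 2 / N * m = 12 * (k : ℝ) ^ 2 * m / N := by ring
    rw [h4]
    exact div_le_div_of_nonneg_right h3 hN0.le
  -- the variance functional
  have hP := DI1_pair hH M a (fun F _ => ha0 F)
  have hV : VF H N a ≤ (∑ F ∈ H, a F ^ 2) / N -
      (∑ u ∈ M, ((∑ F ∈ H.filter (fun F => u ∈ F), a F) ^ 2
        - ∑ F ∈ H.filter (fun F => u ∈ F), a F ^ 2)) / (N : ℝ) ^ 2 := by
    unfold VF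
    have := div_le_div_of_nonneg_right hP (show (0 : ℝ) ≤ (N : ℝ) ^ 2 by positivity)
    linarith
  have hmid : ∀ u ∈ M, _ := fun u hu => DI1_mid hH (Mk := Mk) hN10 hLM hu
    (hv u (mem_union_left _ hu)) (hM u hu) hL hMk
  have hmid2 := sum_le_sum hmid
  rw [sum_const, nsmul_eq_mul, Finset.sum_add_distrib, Finset.sum_add_distrib, ← mul_sum] at hmid2
  have e1 : ∑ u ∈ M, (∑ F ∈ H.filter (fun F => u ∈ F ∧ (F ∩ M).card = 1),
        (3.8 * (DI1_cf Mk F * aw L (xc H N 2) F) - aw (M ∪ L) (xc H N 2) F ^ 2)) / (N : ℝ) =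
      (∑ F ∈ H.filter (fun F => (F ∩ M).card = 1),
        (3.8 * (DI1_cf Mk F * aL F) - a F ^ 2)) / N := by
    rw [← Finset.sum_div, DI1_H1 M]
  have e2 : ∑ u ∈ M, ((∑ F ∈ H.filter (fun F => u ∈ F), aw (M ∪ L) (xc H N 2) F) / (N : ℝ)) ^ 2 =
      (∑ u ∈ M, (∑ F ∈ H.filter (fun F => u ∈ F), a F) ^ 2) / (N : ℝ) ^ 2 := by
    rw [Finset.sum_div]
    exact sum_congr rfl fun u _ => div_pow _ _ _
  rw [e1, e2] at hmid2
  have hC1 : ∑ F ∈ H.filter (fun F => (F ∩ M).card = 0), DI1_cf Mk F * aL F +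
      ∑ F ∈ H.filter (fun F => (F ∩ M).card = 1), DI1_cf Mk F * aL F ≤ Cs := by
    rw [hCs, hsplit (fun F => DI1_cf Mk F * aL F)]
    have : 0 ≤ ∑ F ∈ H.filter (fun F => 2 ≤ (F ∩ M).card), DI1_cf Mk F * aL F :=
      Finset.sum_nonneg fun F hF => mul_nonneg
        (by have := DI1_cf_ge hH (Mk := Mk) (mem_filter.1 hF).1; linarith) (haL0 F)
    linarith
  have e3 : ∀ T : Finset (Finset V), ∑ F ∈ T, (3.8 * (DI1_cf Mk F * aL F) - a F ^ 2) =
      3.8 * ∑ F ∈ T, DI1_cf Mk F * aL F - ∑ F ∈ T, a F ^ 2 := by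
    intro T
    rw [Finset.sum_sub_distrib, ← mul_sum]
  rw [e3] at hH0 hmid2
  rw [Finset.sum_sub_distrib, hsplit (fun F => a F ^ 2)] at hV
  set X0 := ∑ F ∈ H.filter (fun F => (F ∩ M).card = 0), DI1_cf Mk F * aL F
  set X1 := ∑ F ∈ H.filter (fun F => (F ∩ M).card = 1), DI1_cf Mk F * aL F
  set Y0 := ∑ F ∈ H.filter (fun F => (F ∩ M).card = 0), a F ^ 2
  set Y1 := ∑ F ∈ H.filter (fun F => (F ∩ M).card = 1), a F ^ 2
  set Y2 := ∑ F ∈ H.filter (fun F => 2 ≤ (F ∩ M).card), a F ^ 2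
  set Z1 := ∑ u ∈ M, (∑ F ∈ H.filter (fun F => u ∈ F), a F) ^ 2
  set Z2 := ∑ u ∈ M, ∑ F ∈ H.filter (fun F => u ∈ F), a F ^ 2
  set B1 := ∑ u ∈ M, (x u - (1 + x u) * bd H u / N)
  have f1 : (Y0 + Y1 + Y2) / (N : ℝ) = Y0 / N + Y1 / N + Y2 / N := by ring
  have f2 : (Z1 - Z2) / (N : ℝ) ^ 2 = Z1 / (N : ℝ) ^ 2 - Z2 / (N : ℝ) ^ 2 := by ring
  have f3 : (3.8 * X1 - Y1) / (N : ℝ) = 3.8 * (X1 / N) - Y1 / N := by ring
  have f4 : (X0 + X1) / (N : ℝ) ≤ Cs / N := div_le_div_of_nonneg_right hC1 hN0.le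
  have f5 : (X0 + X1) / (N : ℝ) = X0 / N + X1 / N := by ring
  have f6 : Y0 / (N : ℝ) ≤ 3.8 * (X0 / N) := by
    have : Y0 ≤ 3.8 * X0 := by linarith
    have h7 := div_le_div_of_nonneg_right this hN0.le
    have h8 : 3.8 * X0 / (N : ℝ) = 3.8 * (X0 / N) := by ring
    linarith
  rw [f1, f2] at hV
  rw [f3] at hmid2
  rw [f5] at f4
  have f7 : (3.8 + 12 * (k : ℝ) ^ 2 / N) * m = 3.8 * m + 12 * (k : ℝ) ^ 2 / N * m := by ring
  rw [f7]
  linarith

end

theorem thm_DI1 : StDI1 := by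
  intro k S0
  obtain ⟨N0, hN0⟩ := exists_nat_ge (45000 * (k : ℝ) ^ 3 * S0)
  refine ⟨12 * (k : ℝ) ^ 2, N0 + 100 * k + 10, ?_⟩
  intro V _ _ N H R Mk hN hH hv hS hMkH hMk
  have h1 : 10 ≤ N := by omega
  have hS2 : load H N (R.filter fun u => N ≤ 50 * td H u) ≤ S0 := by
    refine le_trans ?_ hS
    unfold load
    apply Finset.sum_le_sum_of_subset_of_nonneg (Finset.filter_subset _ _)
    intro w _ _
    positivity
  have hun : R.filter (fun u => N ≤ 50 * td H u) ∪ R.filter (fun u => ¬ N ≤ 50 * td H u) = R :=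
    Finset.filter_union_filter_not_eq _ _
  have h45 : 45000 * (k : ℝ) ^ 3 * S0 ≤ N := by
    refine hN0.trans ?_
    have : N0 ≤ N := by omega
    exact_mod_cast this
  refine ⟨?_, ?_⟩
  · rcases Nat.eq_zero_or_pos k with hk | hk
    · have hH0 : H = ∅ := by
        rw [Finset.eq_empty_iff_forall_notMem]
        intro F hF
        have h2 := hH.three F hF
        have h3 := hH.card F hF
        omega
      subst hH0
      have e1 : VF (∅ : Finset (Finset V)) N (aw R (xc ∅ N 2)) = 0 := by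
        unfold VF
        simp
      rw [e1, hk]
      have h3 : 0 ≤ ∑ w ∈ R, (xc (∅ : Finset (Finset V)) N 2 w -
          (1 + xc (∅ : Finset (Finset V)) N 2 w) * bd (∅ : Finset (Finset V)) w / N -
          0.16 * mk (∅ : Finset (Finset V)) Mk w / N) := by
        refine Finset.sum_nonneg fun w hw => ?_
        have h4 := DI1_ge hH hMkH h1 (hv w hw)
        have h5 := DI1_xc_nonneg hH w
        linarith
      have h4 : (0 : ℝ) ≤ 3.8 + 12 * ((0 : ℕ) : ℝ) ^ 2 / N := by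
        simp
        norm_num
      exact mul_nonneg h4 h3
    · have h2 := DI1_main hH hMkH (M := R.filter (fun u => N ≤ 50 * td H u))
        (L := R.filter (fun u => ¬ N ≤ 50 * td H u)) hk h1 (by omega)
        (Finset.disjoint_filter_filter_not _ _ _)
        (by rw [hun]; exact hv) (fun u hu => (mem_filter.1 hu).2)
        (fun w hw => by have := (mem_filter.1 hw).2; omega)
        (by rw [hun]; exact hMk) hS2 h45
      rw [hun] at h2
      exact h2
  · rw [mul_sum]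
    exact sum_le_sum fun w hw => DI1_ge hH hMkH h1 (hv w hw)

end Pool.Agent.JR
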