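import Pool.Agent.JR.StD

set_option autoImplicit false

namespace Pool.Agent.JR


theorem di45_neg (r u e s : ℝ) (hr : 0 < r) (hr1 : r ≤ 0.14) (he1 : e ≤ 0.001)
    (hA : (1 - r) * u - r ≤ 0) (hs : 0 ≤ s) :
    0 ≤ 1.98 * r * (1 + r) - r * (1 + u + 7 * e) + s := by
  have hu : u ≤ 0.2 := by nlinarith
  nlinarith

theorem di45_big (r p0 p2 e : ℝ) (hr : 0.1 ≤ r) (h0 : 0 ≤ p0) (h2 : 0 ≤ p2)
    (h1 : 0 ≤ 1 - p0 - p2) (he1 : e ≤ 0.001) :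
    0 ≤ 1.98 * r * (1 + r) - r * (1 + p2 - p0 + 7 * e)
      - p0 * ((1 - r) * (p2 - p0) - r + 9 * e) / 2 := by
  have h01 := mul_nonneg h0 h1
  have h11 := mul_nonneg h1 h1
  have h21 := mul_nonneg h2 h1
  have c01 : 0 ≤ 3.96 * r * (1 + r) - r + (r - 9 * e) / 2 - 14 * r * e := by nlinarith
  have c11 : 0 ≤ 1.98 * r * (1 + r) - r - 7 * r * e := by nlinarith
  have c12 : 0 ≤ 3.96 * r * (1 + r) - 3 * r - 14 * r * e := by nlinarith
  have t1 := mul_nonneg c01 h01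
  have t2 := mul_nonneg c11 h11
  have t3 := mul_nonneg c12 h21
  have c00 : 0.71 ≤ 1.98 * r * (1 + r) + (1 - r) / 2 + (r - 9 * e) / 2 - 7 * r * e := by nlinarith
  have c22 : 0.017 ≤ 1.98 * r * (1 + r) - 2 * r - 7 * r * e := by nlinarith
  have c02 : -0.18 ≤ 3.96 * r * (1 + r) - 2 * r - (1 - r) / 2 + (r - 9 * e) / 2 - 14 * r * e := by
    nlinarith
  have t4 := mul_nonneg (sub_nonneg.2 c00) (mul_nonneg h0 h0)
  have t5 := mul_nonneg (sub_nonneg.2 c22) (mul_nonneg h2 h2)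
  have t6 := mul_nonneg (sub_nonneg.2 c02) (mul_nonneg h0 h2)
  nlinarith [sq_nonneg (0.71 * p0 - 0.09 * p2), mul_nonneg h2 h2]



theorem di45_quad (A B C x y : ℝ) (hA : 0 < A) (disc : B ^ 2 ≤ 4 * A * C) :
    0 ≤ A * x ^ 2 - B * (x * y) + C * y ^ 2 := by
  have h : 0 ≤ 4 * A * (A * x ^ 2 - B * (x * y) + C * y ^ 2) := by
    have e : 4 * A * (A * x ^ 2 - B * (x * y) + C * y ^ 2) =
      (2 * A * x - B * y) ^ 2 + (4 * A * C - B ^ 2) * y ^ 2 := by ring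
    rw [e]
    exact add_nonneg (sq_nonneg _) (mul_nonneg (sub_nonneg.2 disc) (sq_nonneg _))
  exact (mul_nonneg_iff_of_pos_left (by positivity)).1 h

/-- middle range of r -/
theorem di45_mid (r p0 p2 e : ℝ) (hr : 0.005 ≤ r) (hr1 : r ≤ 0.1) (h0 : 0 ≤ p0) (h2 : 0 ≤ p2)
    (h1 : 0 ≤ 1 - p0 - p2) (he : 0 ≤ e) (he1 : e ≤ 0.001) :
    0 ≤ 1.98 * r * (1 + r) - r * (1 + p2 - p0 + 7 * e)
      - p0 * ((1 - r) * (p2 - p0) - r + 9 * e) / 2 - (1 - p0 - p2) * (9 * e * p2) / 2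
      + 1.584 * (0.1 - r) * (1 - r) * p2 ^ 2 := by
  have h01 := mul_nonneg h0 h1
  have h11 := mul_nonneg h1 h1
  have h21 := mul_nonneg h2 h1
  have c01 : 0 ≤ 3.96 * r * (1 + r) - r + (r - 9 * e) / 2 - 14 * r * e := by nlinarith
  have c11 : 0 ≤ 1.98 * r * (1 + r) - r - 7 * r * e := by nlinarith
  have c12 : 0 ≤ 3.96 * r * (1 + r) - 3 * r - 14 * r * e - 4.5 * e := by nlinarith
  have t1 := mul_nonneg c01 h01
  have t2 := mul_nonneg c11 h11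
  have t3 := mul_nonneg c12 h21
  have c00 : 0.495 + 1.97 * r + 1.98 * r ^ 2 ≤
      1.98 * r * (1 + r) + (1 - r) / 2 + (r - 9 * e) / 2 - 7 * r * e := by nlinarith
  have c22 : 0.1584 - 1.7695 * r + 3.564 * r ^ 2 ≤
      1.98 * r * (1 + r) - 2 * r - 7 * r * e + 1.584 * (0.1 - r) * (1 - r) := by nlinarith
  have c02 : -(0.5045 - 2.946 * r - 3.96 * r ^ 2) ≤
      3.96 * r * (1 + r) - 2 * r - (1 - r) / 2 + (r - 9 * e) / 2 - 14 * r * e := by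
    nlinarith
  have t4 := mul_nonneg (sub_nonneg.2 c00) (mul_nonneg h0 h0)
  have t5 := mul_nonneg (sub_nonneg.2 c22) (mul_nonneg h2 h2)
  have t6 := mul_nonneg (sub_nonneg.2 c02) (mul_nonneg h0 h2)
  have disc : (0.5045 - 2.946 * r - 3.96 * r ^ 2) ^ 2 ≤
      4 * (0.495 + 1.97 * r + 1.98 * r ^ 2) * (0.1584 - 1.7695 * r + 3.564 * r ^ 2) := by
    nlinarith [mul_nonneg (sub_nonneg.2 hr) (sub_nonneg.2 hr1), sq_nonneg r, sq_nonneg (r ^ 2),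
      mul_nonneg (mul_nonneg (sub_nonneg.2 hr) (sub_nonneg.2 hr1)) (sub_nonneg.2 hr),
      mul_nonneg (mul_nonneg (sub_nonneg.2 hr) (sub_nonneg.2 hr1)) (sub_nonneg.2 hr1)]
  have q := di45_quad _ _ _ p0 p2 (by nlinarith [sq_nonneg r] :
    0 < 0.495 + 1.97 * r + 1.98 * r ^ 2) disc
  linarith [t1, t2, t3, t4, t5, t6, q]

/-- small r -/
theorem di45_small (r p0 p2 e : ℝ) (hr : 0 < r) (hr1 : r ≤ 0.005) (h0 : 0 ≤ p0) (h2 : 0 ≤ p2)
    (h1 : 0 ≤ 1 - p0 - p2) (he : 0 ≤ e) (her : e ≤ r) (he1 : e ≤ 0.001) :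
    0 ≤ 1.98 * r * (1 + r) - r * (1 + p2 - p0 + 7 * e)
      - p0 * ((1 - r) * (p2 - p0) - r + 9 * e) / 2 - (1 - p0 - p2) * (9 * e * p2) / 2
      + 1.584 * (0.1 - r) * (1 - r) * p2 ^ 2 := by
  have h01 := mul_nonneg h0 h1
  have h11 := mul_nonneg h1 h1
  have h21 := mul_nonneg h2 h1
  have c01 : -(1.06 * e) ≤ 3.96 * r * (1 + r) - r + (r - 9 * e) / 2 - 14 * r * e := by
    nlinarith
  have c11 : 0.97 * r ≤ 1.98 * r * (1 + r) - r - 7 * r * e := by nlinarith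
  have c12 : -(3.56 * e) ≤ 3.96 * r * (1 + r) - 3 * r - 14 * r * e - 4.5 * e := by nlinarith
  have he2 : e ^ 2 ≤ 0.001 * r := by nlinarith
  have t1 := mul_nonneg (sub_nonneg.2 c01) h01
  have t2 := mul_nonneg (sub_nonneg.2 c11) h11
  have t3 := mul_nonneg (sub_nonneg.2 c12) h21
  have c00 : 0.495 ≤
      1.98 * r * (1 + r) + (1 - r) / 2 + (r - 9 * e) / 2 - 7 * r * e := by nlinarith
  have c22 : 0.149 ≤
      1.98 * r * (1 + r) - 2 * r - 7 * r * e + 1.584 * (0.1 - r) * (1 - r) := by nlinarith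
  have c02 : -0.505 ≤
      3.96 * r * (1 + r) - 2 * r - (1 - r) / 2 + (r - 9 * e) / 2 - 14 * r * e := by
    nlinarith
  have t4 := mul_nonneg (sub_nonneg.2 c00) (mul_nonneg h0 h0)
  have t5 := mul_nonneg (sub_nonneg.2 c22) (mul_nonneg h2 h2)
  have t6 := mul_nonneg (sub_nonneg.2 c02) (mul_nonneg h0 h2)
  have q1 := di45_quad (0.37 * r) (1.06 * e) 0.004 (1 - p0 - p2) p0 (by positivity)
    (by nlinarith)
  have q2 := di45_quad (0.6 * r) (3.56 * e) 0.007 (1 - p0 - p2) p2 (by positivity)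
    (by nlinarith)
  have q3 := di45_quad 0.491 0.505 0.142 p0 p2 (by norm_num) (by norm_num)
  linarith [t1, t2, t3, t4, t5, t6, q1, q2, q3]


/-- the lower bound of the left side in the variables r = 1 - 2 b, x = x4 -/
noncomputable def di45Ph (r p0 p2 x m e : ℝ) : ℝ :=
  r - m * r * (0.625 + 2.61 * r) - 0.01 * (r + m + x) +
    (1 - r) / 2 * (x + m - r * (1 + p2 - p0 + 0.776 * x + 7 * e)
      - p0 * max 0 ((1 - r) * (p2 - p0) - r + 1.776 * x + 2.2 * m + 9 * e) / 2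
      - (1 - p0 - p2) * max 0 ((1 - r) * (p2 - p0) - r - 1 + 1.776 * x + 2.2 * m + 11 * e) / 2
      + 1.6 * max 0 (0.1 - r) * p2 * (0.99 * (1 - r) * p2 - x - m / 2))

theorem di45_V0 (r p0 p2 e : ℝ) (hr : 0 < r) (hr1 : r ≤ 0.14) (h0 : 0 ≤ p0) (h2 : 0 ≤ p2)
    (h1 : 0 ≤ 1 - p0 - p2) (he : 0 ≤ e) (her : e ≤ r) (he1 : e ≤ 0.001) :
    0 ≤ 1.98 * r * (1 + r) - r * (1 + p2 - p0 + 7 * e)
      - p0 * max 0 ((1 - r) * (p2 - p0) - r + 9 * e) / 2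
      - (1 - p0 - p2) * max 0 ((1 - r) * (p2 - p0) - r - 1 + 11 * e) / 2
      + 1.6 * max 0 (0.1 - r) * p2 * (0.99 * (1 - r) * p2) := by
  have hom : 0 ≤ max 0 (0.1 - r) := le_max_left _ _
  have hK : 0 ≤ 1.6 * max 0 (0.1 - r) * p2 * (0.99 * (1 - r) * p2) := by
    have : 0 ≤ 1 - r := by linarith
    positivity
  rcases le_total ((1 - r) * (p2 - p0) - r + 9 * e) 0 with hA | hA
  · rw [max_eq_left hA, max_eq_left (by linarith)]
    have := di45_neg r (p2 - p0) e _ hr hr1 he1 (by linarith) hK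
    linarith
  · have hB : max 0 ((1 - r) * (p2 - p0) - r - 1 + 11 * e) ≤ 9 * e * p2 := by
      refine max_le (by positivity) ?_
      nlinarith [mul_nonneg (by linarith : (0:ℝ) ≤ 1 - p2) (by linarith : (0:ℝ) ≤ 1 - r - 9 * e),
        mul_nonneg h0 (by linarith : (0:ℝ) ≤ 1 - r)]
    have hB1 := mul_le_mul_of_nonneg_left hB h1
    rw [max_eq_right hA]
    rcases le_total r 0.1 with h | h
    · rw [max_eq_right (by linarith : (0:ℝ) ≤ 0.1 - r)]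
      rcases le_total r 0.005 with h' | h'
      · have := di45_small r p0 p2 e hr h' h0 h2 h1 he her he1
        linarith
      · have := di45_mid r p0 p2 e h' h h0 h2 h1 he he1
        linarith
    · have hb0 : max 0 ((1 - r) * (p2 - p0) - r - 1 + 11 * e) = 0 := by
        refine max_eq_left ?_
        nlinarith [mul_nonneg (by linarith : (0:ℝ) ≤ 1 - p2) (by linarith : (0:ℝ) ≤ 1 - r),
          mul_nonneg h0 (by linarith : (0:ℝ) ≤ 1 - r)]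
      rw [hb0]
      have := di45_big r p0 p2 e h h0 h2 h1 he1
      linarith

theorem di45_P00 (r p0 p2 e : ℝ) (hr : 0 < r) (hr1 : r ≤ 0.14) (h0 : 0 ≤ p0) (h2 : 0 ≤ p2)
    (h1 : 0 ≤ 1 - p0 - p2) (he : 0 ≤ e) (her : e ≤ r) (he1 : e ≤ 0.001) :
    0 ≤ di45Ph r p0 p2 0 0 e := by
  have h := di45_V0 r p0 p2 e hr hr1 h0 h2 h1 he her he1
  have h' := mul_nonneg (by linarith : (0:ℝ) ≤ (1 - r) / 2) h
  unfold di45Ph
  have e1 : (1 - r) * (p2 - p0) - r + 1.776 * 0 + 2.2 * 0 + 9 * e =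
    (1 - r) * (p2 - p0) - r + 9 * e := by ring
  have e2 : (1 - r) * (p2 - p0) - r - 1 + 1.776 * 0 + 2.2 * 0 + 11 * e =
    (1 - r) * (p2 - p0) - r - 1 + 11 * e := by ring
  rw [e1, e2]
  have hr3 : 0 ≤ r * r ^ 2 := by positivity
  linarith

theorem di45_om (r p2 y : ℝ) (hr : 0 < r) (hr1 : r ≤ 0.14) :
    -(0.05 * y ^ 2) ≤ 1.6 * max 0 (0.1 - r) * p2 * (0.99 * (1 - r) * p2 - y) := by
  have hom : 0 ≤ max 0 (0.1 - r) := le_max_left _ _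
  have hom1 : max 0 (0.1 - r) ≤ 0.1 := max_le (by norm_num) (by linarith)
  have h1 : -(0.3 * y ^ 2) ≤ p2 * (0.99 * (1 - r) * p2 - y) := by
    nlinarith [sq_nonneg (0.85 * p2 - 0.5 * y), sq_nonneg y,
      mul_nonneg (sq_nonneg p2) (by linarith : (0:ℝ) ≤ 0.14 - r)]
  have h2 := mul_le_mul_of_nonneg_left h1 hom
  have h3 := mul_le_mul_of_nonneg_right hom1 (by positivity : (0:ℝ) ≤ 0.3 * y ^ 2)
  nlinarith

theorem di45_P10 (r p0 p2 e : ℝ) (hr : 0 < r) (hr1 : r ≤ 0.14) (h0 : 0 ≤ p0) (h2 : 0 ≤ p2)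
    (h1 : 0 ≤ 1 - p0 - p2) (he1 : e ≤ 0.001) :
    0 ≤ di45Ph r p0 p2 0.3 0 e := by
  unfold di45Ph
  have hom := di45_om r p2 0.3 hr hr1
  have hr' : 0 ≤ 1 - r := by linarith
  have hA : p0 * max 0 ((1 - r) * (p2 - p0) - r + 1.776 * 0.3 + 2.2 * 0 + 9 * e) ≤ 0.3 := by
    rcases le_total ((1 - r) * (p2 - p0) - r + 1.776 * 0.3 + 2.2 * 0 + 9 * e) 0 with h | h
    · rw [max_eq_left h]; linarith
    · rw [max_eq_right h]
      have : (1 - r) * (p2 - p0) - r + 1.776 * 0.3 + 2.2 * 0 + 9 * e ≤ 1.5418 - 2 * p0 := by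
        nlinarith [mul_nonneg hr.le (by linarith : (0:ℝ) ≤ 1 + p2 - p0)]
      nlinarith [sq_nonneg (p0 - 0.385), mul_le_mul_of_nonneg_left this h0]
  have hB : (1 - p0 - p2) * max 0 ((1 - r) * (p2 - p0) - r - 1 + 1.776 * 0.3 + 2.2 * 0 + 11 * e)
      ≤ 0.075 := by
    rcases le_total ((1 - r) * (p2 - p0) - r - 1 + 1.776 * 0.3 + 2.2 * 0 + 11 * e) 0 with h | h
    · rw [max_eq_left h]; linarith
    · rw [max_eq_right h]
      have : (1 - r) * (p2 - p0) - r - 1 + 1.776 * 0.3 + 2.2 * 0 + 11 * e ≤ p2 - p0 - 0.4562 := by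
        nlinarith [mul_nonneg hr.le (by linarith : (0:ℝ) ≤ 1 + p2 - p0)]
      nlinarith [sq_nonneg (p2 - 0.7281), mul_le_mul_of_nonneg_left this h1,
        mul_nonneg h0 h1, mul_nonneg h0 (by linarith : (0:ℝ) ≤ 1 - p2), mul_nonneg h0 h2]
  have hin : 0.3 + 0 - r * (1 + p2 - p0 + 0.776 * 0.3 + 7 * e)
      - p0 * max 0 ((1 - r) * (p2 - p0) - r + 1.776 * 0.3 + 2.2 * 0 + 9 * e) / 2
      - (1 - p0 - p2) * max 0 ((1 - r) * (p2 - p0) - r - 1 + 1.776 * 0.3 + 2.2 * 0 + 11 * e) / 2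
      + 1.6 * max 0 (0.1 - r) * p2 * (0.99 * (1 - r) * p2 - 0.3 - 0 / 2) ≥ 0.1 - 2.25 * r := by
    have : r * (1 + p2 - p0 + 0.776 * 0.3 + 7 * e) ≤ 2.25 * r := by nlinarith
    have e3 : (0.99 * (1 - r) * p2 - 0.3 - 0 / 2 : ℝ) = 0.99 * (1 - r) * p2 - 0.3 := by ring
    rw [e3]
    linarith
  nlinarith [mul_le_mul_of_nonneg_left hin (by linarith : (0:ℝ) ≤ (1 - r) / 2)]

theorem di45_P01 (r p0 p2 e : ℝ) (hr : 0 < r) (hr1 : r ≤ 0.14) (h0 : 0 ≤ p0) (h2 : 0 ≤ p2)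
    (h1 : 0 ≤ 1 - p0 - p2) (he1 : e ≤ 0.001) :
    0 ≤ di45Ph r p0 p2 0 0.3 e := by
  unfold di45Ph
  have hom := di45_om r p2 0.15 hr hr1
  have hr' : 0 ≤ 1 - r := by linarith
  have hru := mul_nonneg hr.le (by linarith : (0:ℝ) ≤ 1 + p2 - p0)
  have hAB : p0 * max 0 ((1 - r) * (p2 - p0) - r + 1.776 * 0 + 2.2 * 0.3 + 9 * e) +
      (1 - p0 - p2) * max 0 ((1 - r) * (p2 - p0) - r - 1 + 1.776 * 0 + 2.2 * 0.3 + 11 * e)
      ≤ 0.35 := by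
    have a1 : (1 - r) * (p2 - p0) - r + 1.776 * 0 + 2.2 * 0.3 + 9 * e ≤ p2 - p0 + 0.669 := by
      nlinarith
    have b1 : (1 - r) * (p2 - p0) - r - 1 + 1.776 * 0 + 2.2 * 0.3 + 11 * e ≤ p2 - p0 - 0.329 := by
      nlinarith
    have a2 := mul_le_mul_of_nonneg_left a1 h0
    have b2 := mul_le_mul_of_nonneg_left b1 h1
    rcases le_total ((1 - r) * (p2 - p0) - r - 1 + 1.776 * 0 + 2.2 * 0.3 + 11 * e) 0 with h | h
    · rw [max_eq_left h]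
      rcases le_total ((1 - r) * (p2 - p0) - r + 1.776 * 0 + 2.2 * 0.3 + 9 * e) 0 with h' | h'
      · rw [max_eq_left h']; linarith
      · rw [max_eq_right h']
        nlinarith [sq_nonneg (p0 - 0.417), mul_nonneg h0 h1]
    · rw [max_eq_right h, max_eq_right (by linarith)]
      nlinarith [sq_nonneg (p2 - 0.583), mul_nonneg h2 h1, mul_nonneg h0 h1]
  have hin : 0 + 0.3 - r * (1 + p2 - p0 + 0.776 * 0 + 7 * e)
      - p0 * max 0 ((1 - r) * (p2 - p0) - r + 1.776 * 0 + 2.2 * 0.3 + 9 * e) / 2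
      - (1 - p0 - p2) * max 0 ((1 - r) * (p2 - p0) - r - 1 + 1.776 * 0 + 2.2 * 0.3 + 11 * e) / 2
      + 1.6 * max 0 (0.1 - r) * p2 * (0.99 * (1 - r) * p2 - 0 - 0.3 / 2) ≥ 0.12 - 2.01 * r := by
    have : r * (1 + p2 - p0 + 0.776 * 0 + 7 * e) ≤ 2.01 * r := by nlinarith
    have e3 : (0.99 * (1 - r) * p2 - 0 - 0.3 / 2 : ℝ) = 0.99 * (1 - r) * p2 - 0.15 := by ring
    rw [e3]
    linarith
  nlinarith [mul_le_mul_of_nonneg_left hin (by linarith : (0:ℝ) ≤ (1 - r) / 2)]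

theorem di45_conv (A x m : ℝ) (hx : 0 ≤ x) (hm : 0 ≤ m) (hxm : x + m ≤ 0.3) :
    max 0 (A + 1.776 * x + 2.2 * m) ≤ (1 - x / 0.3 - m / 0.3) * max 0 A +
      x / 0.3 * max 0 (A + 0.5328) + m / 0.3 * max 0 (A + 0.66) := by
  have h1 : 0 ≤ x / 0.3 := by positivity
  have h2 : 0 ≤ m / 0.3 := by positivity
  have h3 : 0 ≤ 1 - x / 0.3 - m / 0.3 := by
    have : x / 0.3 + m / 0.3 ≤ 1 := by
      rw [← add_div, div_le_one (by norm_num)]; exact hxm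
    linarith
  have g1 : 0 ≤ max 0 A := le_max_left _ _
  have g2 : 0 ≤ max 0 (A + 0.5328) := le_max_left _ _
  have g3 : 0 ≤ max 0 (A + 0.66) := le_max_left _ _
  refine max_le (by positivity) ?_
  have k1 := mul_le_mul_of_nonneg_left (le_max_right 0 A) h3
  have k2 := mul_le_mul_of_nonneg_left (le_max_right 0 (A + 0.5328)) h1
  have k3 := mul_le_mul_of_nonneg_left (le_max_right 0 (A + 0.66)) h2
  have e : A + 1.776 * x + 2.2 * m = (1 - x / 0.3 - m / 0.3) * A + x / 0.3 * (A + 0.5328) +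
    m / 0.3 * (A + 0.66) := by ring
  rw [e]
  linarith

theorem di45_comb (r p0 p2 x m e : ℝ) (hr1 : r ≤ 1) (h0 : 0 ≤ p0)
    (h1 : 0 ≤ 1 - p0 - p2) (hx : 0 ≤ x) (hm : 0 ≤ m) (hxm : x + m ≤ 0.3)
    (g00 : 0 ≤ di45Ph r p0 p2 0 0 e) (g10 : 0 ≤ di45Ph r p0 p2 0.3 0 e)
    (g01 : 0 ≤ di45Ph r p0 p2 0 0.3 e) : 0 ≤ di45Ph r p0 p2 x m e := by
  have k1 : 0 ≤ x / 0.3 := by positivity
  have k2 : 0 ≤ m / 0.3 := by positivity
  have k3 : 0 ≤ 1 - x / 0.3 - m / 0.3 := by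
    have : x / 0.3 + m / 0.3 ≤ 1 := by
      rw [← add_div, div_le_one (by norm_num)]; exact hxm
    linarith
  have cA := di45_conv ((1 - r) * (p2 - p0) - r + 9 * e) x m hx hm hxm
  have cB := di45_conv ((1 - r) * (p2 - p0) - r - 1 + 11 * e) x m hx hm hxm
  have s1 := mul_nonneg k3 g00
  have s2 := mul_nonneg k1 g10
  have s3 := mul_nonneg k2 g01
  have c : 0 ≤ (1 - r) / 4 := by linarith
  have u1 := mul_le_mul_of_nonneg_left (mul_le_mul_of_nonneg_left cA h0) c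
  have u2 := mul_le_mul_of_nonneg_left (mul_le_mul_of_nonneg_left cB h1) c
  unfold di45Ph at s1 s2 s3 ⊢
  have e1 : ∀ y z : ℝ, (1 - r) * (p2 - p0) - r + 1.776 * y + 2.2 * z + 9 * e =
    (1 - r) * (p2 - p0) - r + 9 * e + 1.776 * y + 2.2 * z := by intro y z; ring
  have e2 : ∀ y z : ℝ, (1 - r) * (p2 - p0) - r - 1 + 1.776 * y + 2.2 * z + 11 * e =
    (1 - r) * (p2 - p0) - r - 1 + 11 * e + 1.776 * y + 2.2 * z := by intro y z; ring
  rw [e1, e2] at s1 s2 s3 ⊢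
  have f1 : ∀ A : ℝ, A + 1.776 * 0 + 2.2 * 0 = A := by intro A; ring
  have f2 : ∀ A : ℝ, A + 1.776 * 0.3 + 2.2 * 0 = A + 0.5328 := by intro A; ring
  have f3 : ∀ A : ℝ, A + 1.776 * 0 + 2.2 * 0.3 = A + 0.66 := by intro A; ring
  rw [f1, f1] at s1
  rw [f2, f2] at s2
  rw [f3, f3] at s3
  linear_combination s1 + s2 + s3 + u1 + u2

theorem thm_DI45 : StDI45 := by
  intro b p0 p1 p2 qe x4 m Y e hb hb1 h0 h1 h2 hs hx hm hxm hmY hY he her he1 hq hq1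
  obtain ⟨r, hr⟩ : ∃ r : ℝ, r = 1 - 2 * b := ⟨_, rfl⟩
  have hbr : b = (1 - r) / 2 := by linarith
  have hp1 : p1 = 1 - p0 - p2 := by linarith
  subst hbr
  subst hp1
  have hr0 : 0 < r := by linarith
  have hr1 : r ≤ 0.14 := by linarith
  have er : 1 - 2 * ((1 - r) / 2) = r := by ring
  rw [er] at her ⊢
  have key := di45_comb r p0 p2 x4 m e (by linarith) h0 h1 hx hm hxm
    (di45_P00 r p0 p2 e hr0 hr1 h0 h2 h1 he her he1)
    (di45_P10 r p0 p2 e hr0 hr1 h0 h2 h1 he1)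
    (di45_P01 r p0 p2 e hr0 hr1 h0 h2 h1 he1)
  unfold di45Ph at key
  have hr' : 0 ≤ 1 - r := by linarith
  have hqr : r * qe ≤ r * (0.776 * x4 + 7 * e) := mul_le_mul_of_nonneg_left hq1 hr0.le
  have hqr0 : 0 ≤ r * qe := mul_nonneg hr0.le hq
  have hA : max 0 ((2 * ((1 - r) / 2) * (1 - p0 - p2 + 2 * p2 + qe) + x4 + Y) - 1 + 2 * e) ≤
      max 0 ((1 - r) * (p2 - p0) - r + 1.776 * x4 + 2.2 * m + 9 * e) := by
    refine max_le_max le_rfl ?_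
    linarith
  have hB : max 0 ((2 * ((1 - r) / 2) * (1 - p0 - p2 + 2 * p2 + qe) + x4 + Y) - 2 + 4 * e) ≤
      max 0 ((1 - r) * (p2 - p0) - r - 1 + 1.776 * x4 + 2.2 * m + 11 * e) := by
    refine max_le_max le_rfl ?_
    linarith
  have hA1 := mul_le_mul_of_nonneg_left (mul_le_mul_of_nonneg_left hA h0)
    (by linarith : (0:ℝ) ≤ (1 - r) / 4)
  have hB1 := mul_le_mul_of_nonneg_left (mul_le_mul_of_nonneg_left hB h1)
    (by linarith : (0:ℝ) ≤ (1 - r) / 4)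
  have hC : (1 - (1 - r) / 2) * (5 * m * r / (4 * (4 * ((1 - r) / 2) - 1))) ≤
      m * r * (0.625 + 2.61 * r) := by
    have hd : 0 < 4 * (4 * ((1 - r) / 2) - 1) := by linarith
    rw [← mul_div_assoc, div_le_iff₀ hd]
    have hmr : 0 ≤ m * r := mul_nonneg hm hr0.le
    have : (1 - (1 - r) / 2) * 5 ≤ (0.625 + 2.61 * r) * (4 * (4 * ((1 - r) / 2) - 1)) := by
      nlinarith
    nlinarith [mul_le_mul_of_nonneg_left this hmr]
  have hqr2 := mul_le_mul_of_nonneg_left hqr (by linarith : (0:ℝ) ≤ (1 - r) / 2)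
  have hD : (1 - (1 - r) / 2) * (1 - 5 * m * r / (4 * (4 * ((1 - r) / 2) - 1))) =
    (1 - (1 - r) / 2) - (1 - (1 - r) / 2) * (5 * m * r / (4 * (4 * ((1 - r) / 2) - 1))) := by ring
  rw [hD]
  linarith

end Pool.Agent.JR
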