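import Mathlib
import Pool.Agent.JR.DI1
import Pool.Agent.JR.J1
import Pool.Agent.JR.Mom

/-!
# JR: no very heavy vertex, total value at least 1.9
-/

set_option autoImplicit false

namespace Pool.Agent.JR

open Finset
open Pool.Agent.LawB (ev ins ali Law)

section

variable {V : Type} [DecidableEq V] {k N : ℕ} {H : Finset (Finset V)}

theorem E1H_xc_le (hH : Big k N H) (hN : 0 < N) (w : V) :
    xc H N 2 w ≤ 3 * k * (bd H w / N) := by
  have hN0 : (0 : ℝ) < N := by exact_mod_cast hN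
  have h1 := DI1_xu_mul hH w
  have h2 := DI1_xu_nonneg hH w
  have h3 := DI1_td_le hH w
  have h4 : xc H N 2 w * N ≤ 3 * td H w := by
    have h0 : (0 : ℝ) ≤ td H w := Nat.cast_nonneg _
    rcases le_total (xu H N w) 2 with h | h
    · have e : xc H N 2 w = xu H N w := min_eq_left h
      rw [e, h1]
      nlinarith
    · have e : xc H N 2 w = 2 := min_eq_right h
      rw [e]
      by_contra hcon
      push Not at hcon
      nlinarith
  have h5 : 3 * (k : ℝ) * (bd H w / N) = 3 * (k * bd H w) / N := by ring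
  rw [h5, le_div_iff₀ hN0]
  linarith

theorem E1H_num {m : ℝ} (hm : 0.76 ≤ m) : ∃ s : ℝ, 3 ≤ s ∧ s ≤ m + 3 ∧
    (s - m) ^ 2 + 3.8 * m ≤ (1 - 0.0115) * (4 * (s - 1)) := by
  rcases le_total m 1 with h | h
  · refine ⟨3, le_rfl, by linarith, ?_⟩
    nlinarith
  · refine ⟨m + 2, by linarith, by linarith, ?_⟩
    nlinarith

end

theorem ev_le_of_support {V : Type} [Fintype V] [DecidableEq V] {K : ℝ} {N : ℕ}
    {H : Finset (Finset V)} {w : Finset (Finset V) → ℝ} (h : QLaw K N H w)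
    {f g : Finset (Finset V) → ℝ} (hfg : ∀ B, PD B → f B ≤ g B) : ev w f ≤ ev w g := by
  unfold ev
  refine sum_le_sum fun B _ => ?_
  by_cases hB : w B = 0
  · rw [hB, zero_mul, zero_mul]
  · exact mul_le_mul_of_nonneg_left (hfg B (h.supp B hB).2) (h.nonneg B)

theorem thm_E1H : StE1H := by
  intro k K S0
  obtain ⟨C2, N2, hD⟩ := thm_DI1 k S0
  obtain ⟨C1, hQ⟩ := thm_Q2 k K (3 * k) (3 * S0) (3 * k * S0 + 5)
  obtain ⟨j1, -, j3, -, -, j6⟩ := thm_J1
  refine ⟨|C2| * (3 * k * |S0|) + |C1|, N2 + 10, ?_⟩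
  intro V _ _ N H w W Mk hN hH hL hv hS hMkH hMk hx19
  have hN1 : 0 < N := by omega
  have hN0 : (0 : ℝ) < N := by exact_mod_cast hN1
  obtain ⟨d1, d2⟩ := hD V N H W Mk (by omega) hH hv hS hMkH hMk
  have hx0 : ∀ z, 0 ≤ xc H N 2 z := fun z => DI1_xc_nonneg hH z
  have hx2 : ∀ z, xc H N 2 z ≤ 2 := fun z => DI1_xc_le z
  set x := xc H N 2 with hxdef
  set x' : V → ℝ := fun z => x z - 0.16 * mk H Mk z / N with hx'def
  set m := ∑ z ∈ W, (x z - (1 + x z) * bd H z / N - 0.16 * mk H Mk z / N) with hm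
  have hm76 : 0.76 ≤ m := by
    have := mul_le_mul_of_nonneg_left hx19 (show (0 : ℝ) ≤ 0.4 by norm_num)
    linarith
  set Sa := (∑ F ∈ H, aw W x F) / N with hSa
  have hSa' : Sa = ∑ z ∈ W, (1 + x z) * bd H z / N := by
    rw [hSa, DI1_sum_aw, Finset.sum_div]
  have hh' : ∑ z ∈ W, x' z = m + Sa := by
    rw [hm, hSa', ← Finset.sum_add_distrib]
    refine sum_congr rfl fun z _ => ?_
    rw [hx'def]
    ring
  have hload0 : 0 ≤ load H N W := by
    unfold load
    exact Finset.sum_nonneg fun z _ => by positivity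
  have hS0 : 0 ≤ S0 := hload0.trans hS
  have hk0 : (0 : ℝ) ≤ k := Nat.cast_nonneg _
  have hsumx : ∑ z ∈ W, x z ≤ 3 * k * S0 := by
    have h1 : ∑ z ∈ W, x z ≤ 3 * k * load H N W := by
      unfold load
      rw [mul_sum]
      exact sum_le_sum fun z _ => E1H_xc_le hH hN1 z
    have h2 := mul_le_mul_of_nonneg_left hS (show (0 : ℝ) ≤ 3 * k by positivity)
    linarith
  have hSa0 : 0 ≤ Sa := by
    rw [hSa]
    exact div_nonneg (Finset.sum_nonneg fun F _ => DI1_aw_nonneg hx0 _ _) hN0.le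
  have hx'le : ∀ z, x' z ≤ x z := by
    intro z
    rw [hx'def]
    have : 0 ≤ 0.16 * (mk H Mk z : ℝ) / N := by positivity
    show x z - 0.16 * (mk H Mk z : ℝ) / N ≤ x z
    linarith
  have hsumx' : ∑ z ∈ W, x' z ≤ 3 * k * S0 := (sum_le_sum fun z _ => hx'le z).trans hsumx
  have hSaS : Sa ≤ 3 * S0 := by
    rw [hSa']
    have h1 : ∑ z ∈ W, (1 + x z) * bd H z / N ≤ 3 * load H N W := by
      unfold load
      rw [mul_sum]
      refine sum_le_sum fun z _ => ?_
      have h2 := hx2 z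
      have h3 : (0 : ℝ) ≤ bd H z / N := by positivity
      have h4 : (1 + x z) * bd H z / N = (1 + x z) * (bd H z / N) := by ring
      rw [h4]
      exact mul_le_mul_of_nonneg_right (by linarith) h3
    linarith
  obtain ⟨s, hs3, hsm, hsn⟩ := E1H_num hm76
  -- the bound with the square
  have hq := hQ V N H w (aw W x) (∑ z ∈ W, x' z - s) hN1 hH hL (by
      intro F hF
      refine ⟨DI1_aw_nonneg hx0 _ _, ?_⟩
      have h1 : aw W x F ≤ (F ∩ W).card * 3 := DI1_aw_le fun z _ => by linarith [hx2 z]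
      have h2 : ((F ∩ W).card : ℝ) ≤ k := by
        exact_mod_cast (Finset.card_le_card inter_subset_left).trans (hH.card F hF)
      linarith) hSaS (by
      rw [abs_le]
      constructor <;> linarith)
  have hlow : ev w (fun B => 1 - (Ja (aw W x) B - (∑ z ∈ W, x' z - s)) ^ 2 / (4 * (s - 1))) ≤
      ev w (fun B => phi (Xv W x' B)) := by
    apply ev_le_of_support hL
    intro B hB
    have h1 : ∑ z ∈ W, x' z - Ja (aw W x) B ≤ Xv W x' B := by
      rw [j6 V W x' B hB]
      have : Ja (aw W x') B ≤ Ja (aw W x) B := by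
        unfold Ja aw
        refine sum_le_sum fun F _ => sum_le_sum fun z _ => ?_
        linarith [hx'le z]
      linarith
    have h2 := j1 (∑ z ∈ W, x' z - Ja (aw W x) B) s hs3
    have h3 := (j3 _ _ h1).1
    have h4 : (Ja (aw W x) B - (∑ z ∈ W, x' z - s)) ^ 2 =
        (∑ z ∈ W, x' z - Ja (aw W x) B - s) ^ 2 := by ring
    rw [h4]
    linarith
  refine le_trans ?_ hlow
  have hconst : ev w (fun _ => (1 : ℝ)) = 1 := by
    unfold ev
    rw [← Finset.sum_mul, hL.total, one_mul]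
  have hlin : ev w (fun B => 1 - (Ja (aw W x) B - (∑ z ∈ W, x' z - s)) ^ 2 / (4 * (s - 1))) =
      1 - ev w (fun B => (Ja (aw W x) B - (∑ z ∈ W, x' z - s)) ^ 2) / (4 * (s - 1)) := by
    rw [LawB.ev_sub w (fun _ => 1), hconst]
    congr 1
    unfold ev
    rw [Finset.sum_div]
    exact sum_congr rfl fun B _ => by ring
  rw [hlin]
  have hs4 : 0 < 4 * (s - 1) := by linarith
  have hm3 : m ≤ 3 * k * S0 := by linarith
  have h5 : (Sa - (∑ z ∈ W, x' z - s)) ^ 2 = (s - m) ^ 2 := by rw [hh']; ring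
  rw [h5] at hq
  -- error terms
  have h6 : C2 / N * m ≤ |C2| * (3 * k * |S0|) / N := by
    have h7 : C2 * m ≤ |C2| * (3 * k * |S0|) := by
      rw [abs_of_nonneg hS0]
      calc C2 * m ≤ |C2| * m := mul_le_mul_of_nonneg_right (le_abs_self _) (by linarith)
        _ ≤ |C2| * (3 * k * S0) := mul_le_mul_of_nonneg_left hm3 (abs_nonneg _)
    have h8 : C2 / N * m = C2 * m / N := by ring
    rw [h8]
    exact div_le_div_of_nonneg_right h7 hN0.le
  have h7 : C1 / N ≤ |C1| / N := div_le_div_of_nonneg_right (le_abs_self _) hN0.le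
  set E : ℝ := (|C2| * (3 * k * |S0|) + |C1|) / N with hE
  have hE0 : 0 ≤ E := by rw [hE]; positivity
  have hE' : E = |C2| * (3 * k * |S0|) / N + |C1| / N := by rw [hE, add_div]
  have h8 : ev w (fun B => (Ja (aw W x) B - (∑ z ∈ W, x' z - s)) ^ 2) ≤
      (1 - 0.0115) * (4 * (s - 1)) + E := by
    have h9 : (3.8 + C2 / N) * m = 3.8 * m + C2 / N * m := by ring
    rw [h9] at d1
    linarith
  have h9 : ev w (fun B => (Ja (aw W x) B - (∑ z ∈ W, x' z - s)) ^ 2) / (4 * (s - 1)) ≤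
      1 - 0.0115 + E := by
    rw [div_le_iff₀ hs4]
    have h10 : E ≤ E * (4 * (s - 1)) := by
      have : (1 : ℝ) ≤ 4 * (s - 1) := by linarith
      nlinarith
    linarith
  linarith

end Pool.Agent.JR
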