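import Pool.Agent.JR.St
import Pool.Agent.JR.Mom

/-!
# JR: the case E1L
-/

set_option autoImplicit false

namespace Pool.Agent.JR

open Finset
open Pool.Agent.LawB (ev ins ali Law CB NB Conc CC ali_mem ev_add ev_sub ev_smul ev_sum)

section

variable {V : Type*} [DecidableEq V]

private lemma E1L_x {k N : ℕ} {H : Finset (Finset V)} (hB : Big k N H) (z : V) :
    0 ≤ xu H N z ∧ (bd H z : ℝ) / N * (1 + xu H N z) ≤ xu H N z / 2 := by
  have h1 : (td H z : ℝ) + 1 ≤ N := by exact_mod_cast hB.deg z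
  have h2 : 2 * (bd H z : ℝ) ≤ td H z := by exact_mod_cast hB.two_bd_le z
  have h0 : (0 : ℝ) ≤ bd H z := by positivity
  have h3 : (0 : ℝ) < (N : ℝ) - td H z := by linarith
  have h4 : (0 : ℝ) < N := by linarith
  refine ⟨div_nonneg (by positivity) h3.le, ?_⟩
  have e : (bd H z : ℝ) / N * (1 + xu H N z) = (bd H z : ℝ) / ((N : ℝ) - td H z) := by
    unfold xu
    field_simp
    ring
  rw [e]
  unfold xu
  rw [div_div, mul_comm ((N : ℝ) - td H z) 2, ← div_div]
  apply div_le_div_of_nonneg_right _ h3.le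
  linarith

/-- the load is at least a multiple of the sum of the values -/
private lemma E1L_load {k N : ℕ} {H : Finset (Finset V)} (hB : Big k N H) (W : Finset V)
    (hN : 0 < N) (h : ∑ z ∈ W, xu H N z ≤ 1.9) :
    ∑ z ∈ W, xu H N z ≤ 2.9 * k * load H N W := by
  have hNr : (0 : ℝ) < N := by exact_mod_cast hN
  unfold load
  rw [Finset.mul_sum]
  apply Finset.sum_le_sum
  intro z hz
  have h1 : (td H z : ℝ) + 1 ≤ N := by exact_mod_cast hB.deg z
  have h2 : (td H z : ℝ) ≤ k * bd H z := by exact_mod_cast hB.td_le z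
  have h3 : (0 : ℝ) < (N : ℝ) - td H z := by linarith
  have h4 : xu H N z ≤ 1.9 :=
    (Finset.single_le_sum (f := fun z => xu H N z) (fun y _ => (E1L_x hB y).1) hz).trans h
  have h5 : (td H z : ℝ) ≤ 1.9 * ((N : ℝ) - td H z) := by
    unfold xu at h4
    rwa [div_le_iff₀ h3] at h4
  unfold xu
  rw [div_le_iff₀ h3]
  have h6 : (N : ℝ) ≤ 2.9 * ((N : ℝ) - td H z) := by linarith
  have h7 : (0 : ℝ) ≤ td H z / N := by positivity
  have h8 := mul_le_mul_of_nonneg_left h6 h7
  have e1 : (td H z : ℝ) / N * N = td H z := by field_simp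
  have h9 : (td H z : ℝ) / N ≤ k * bd H z / N := div_le_div_of_nonneg_right h2 hNr.le
  have h10 := mul_le_mul_of_nonneg_right h9 (by linarith : 0 ≤ 2.9 * ((N : ℝ) - td H z))
  have e2 : (k : ℝ) * bd H z / N * (2.9 * ((N : ℝ) - td H z))
      = 2.9 * k * ((bd H z : ℝ) / N) * ((N : ℝ) - td H z) := by ring
  linarith

private lemma E1L_hit (W : Finset V) (B : Finset (Finset V)) : 0 ≤ hit W B ∧ hit W B ≤ 1 := by
  unfold hit; split_ifs <;> norm_num

private lemma E1L_pos (H : Finset (Finset V)) (N : ℕ) (W : Finset V) (B : Finset (Finset V))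
    (hx : ∀ z, 0 ≤ xu H N z) :
    max (Xv W (xu H N) B) 0 ≤ (∑ z ∈ W, xu H N z) * (1 - hit W B)
      + max ((∑ z ∈ W, xu H N z) - 1) 0 * hit W B := by
  have hh : 0 ≤ ∑ z ∈ W, xu H N z := Finset.sum_nonneg fun z _ => hx z
  unfold hit
  by_cases hd : Disjoint W (LawB.cov B)
  · rw [if_pos hd, Xv_eq, Finset.disjoint_iff_inter_eq_empty.1 hd, Finset.sum_empty]
    simp only [sub_zero, mul_one, mul_zero, add_zero]
    rw [max_eq_left hh]
  · rw [if_neg hd]
    simp only [sub_self, mul_zero, zero_add, mul_one]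
    apply max_le_max _ le_rfl
    rw [Xv_eq]
    obtain ⟨z, hz1, hz2⟩ := Finset.not_disjoint_iff.1 hd
    have h1 : 1 + xu H N z ≤ ∑ u ∈ W ∩ LawB.cov B, (1 + xu H N u) :=
      Finset.single_le_sum (f := fun u => 1 + xu H N u)
        (fun u _ => by have := hx u; linarith) (Finset.mem_inter.2 ⟨hz1, hz2⟩)
    have := hx z
    linarith

private lemma E1L_quad (W : Finset V) (B : Finset (Finset V)) (θ : ℝ) :
    2 * θ * Yv W B - θ ^ 2 * (Yv W B) ^ 2 ≤ hit W B := by
  unfold hit
  by_cases hd : Disjoint W (LawB.cov B)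
  · rw [if_pos hd]
    have : Yv W B = 0 := by
      unfold Yv
      rw [Finset.disjoint_iff_inter_eq_empty.1 hd]; simp
    rw [this]; simp
  · rw [if_neg hd]
    nlinarith [sq_nonneg (1 - θ * Yv W B)]

end

theorem thm_E1L : StE1L := by
  intro k K
  obtain ⟨C2, hQ2⟩ := thm_Q2 k K k 1 0
  refine ⟨0.02 / (k + 1) ^ 2, K ^ 2 + (2 * K ^ 2 + |C2|), 1, by positivity, ?_⟩
  intro V _ _ N H w W hN hB hQ hh
  have hN' : 0 < N := by omega
  have hNr : (0 : ℝ) < N := by exact_mod_cast hN'
  have hkr : (0 : ℝ) ≤ k := by positivity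
  have hx : ∀ z, 0 ≤ xu H N z := fun z => (E1L_x hB z).1
  set h := ∑ z ∈ W, xu H N z with hhdef
  have h0 : 0 ≤ h := Finset.sum_nonneg fun z _ => hx z
  set p := ev w (hit W) with hp
  have hp0 : 0 ≤ p := by
    rw [hp]; unfold ev
    exact Finset.sum_nonneg fun B _ => mul_nonneg (hQ.nonneg B) (E1L_hit W B).1
  -- the mean of `X`
  have hmeanX : h / 2 - K ^ 2 / N ≤ ev w (Xv W (xu H N)) := by
    have e1 : ev w (Xv W (xu H N)) = h - ev w (Ja (aw W (xu H N))) := by
      have e2 : ev w (fun B => h - Ja (aw W (xu H N)) B)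
          = h - ev w (Ja (aw W (xu H N))) := by
        rw [ev_sub w (fun _ => h) (Ja (aw W (xu H N))), hQ.const']
      rw [← e2]
      have key : ∀ B, B ⊆ H → PD B → Xv W (xu H N) B = h - Ja (aw W (xu H N)) B := by
        intro B _ hPD
        rw [Xv_eq]
        have e3 : Ja (aw W (xu H N)) B = ∑ u ∈ W ∩ LawB.cov B, (1 + xu H N u) :=
          sum_cov B hPD W (fun u => 1 + xu H N u)
        rw [e3]
      apply le_antisymm
      · exact hQ.mono' fun B hBH hPD => (key B hBH hPD).le
      · exact hQ.mono' fun B hBH hPD => (key B hBH hPD).ge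
    have h1 := thm_Q1 V k N K H w (aw W (xu H N)) hN' hB hQ (fun F _ =>
      Finset.sum_nonneg fun z _ => by have := hx z; linarith)
    have e4 : (∑ F ∈ H, aw W (xu H N) F) / N = ∑ z ∈ W, (bd H z : ℝ) / N * (1 + xu H N z) := by
      have e5 : ∑ F ∈ H, aw W (xu H N) F = ∑ u ∈ W, (bd H u : ℝ) * (1 + xu H N u) :=
        sum_bd H W (fun u => 1 + xu H N u)
      rw [e5, Finset.sum_div]
      exact Finset.sum_congr rfl fun u _ => by ring
    rw [e4] at h1
    have h2 : ∑ z ∈ W, (bd H z : ℝ) / N * (1 + xu H N z) ≤ h / 2 := by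
      rw [hhdef, Finset.sum_div]
      exact Finset.sum_le_sum fun z _ => (E1L_x hB z).2
    have h3 := (abs_le.1 h1).2
    have h4 : K ^ 2 * (∑ z ∈ W, (bd H z : ℝ) / N * (1 + xu H N z)) / N ≤ K ^ 2 / N := by
      apply div_le_div_of_nonneg_right _ hNr.le
      have : ∑ z ∈ W, (bd H z : ℝ) / N * (1 + xu H N z) ≤ 1 := by linarith
      have := mul_le_mul_of_nonneg_left this (sq_nonneg K)
      linarith
    rw [e1]
    linarith
  -- the lower bound by `p`
  have hlow : h / 2 - K ^ 2 / N - h / 2 + p * (h / 2 - max (h - 1) 0 / 2 - 0.1 * h)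
      ≤ ev w (fun B => Xv W (xu H N) B - max (Xv W (xu H N) B) 0 / 2 - 0.1 * h * hit W B) := by
    have e1 : ev w (fun B => (Xv W (xu H N) B - h / 2)
        + (h / 2 - max (h - 1) 0 / 2 - 0.1 * h) * hit W B)
        = ev w (Xv W (xu H N)) - h / 2 + (h / 2 - max (h - 1) 0 / 2 - 0.1 * h) * p := by
      rw [ev_add w (fun B => Xv W (xu H N) B - h / 2),
        ev_sub w (Xv W (xu H N)) (fun _ => h / 2), ev_smul, hQ.const']
    have h1 : ev w (fun B => (Xv W (xu H N) B - h / 2)
        + (h / 2 - max (h - 1) 0 / 2 - 0.1 * h) * hit W B)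
        ≤ ev w (fun B => Xv W (xu H N) B - max (Xv W (xu H N) B) 0 / 2
          - 0.1 * h * hit W B) := by
      apply hQ.mono'
      intro B _ _
      have := E1L_pos H N W B hx
      rw [← hhdef] at this
      linarith
    rw [e1] at h1
    linarith
  have hg : 0 ≤ h / 2 - max (h - 1) 0 / 2 - 0.1 * h := by
    rcases le_total h 1 with hc | hc
    · rw [max_eq_right (by linarith)]; linarith
    · rw [max_eq_left (by linarith)]; linarith
  have hC0 : 0 ≤ 2 * K ^ 2 + |C2| := by positivity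
  constructor
  · have h1 := mul_nonneg hp0 hg
    have h2 : -(K ^ 2 + (2 * K ^ 2 + |C2|)) / N ≤ -(K ^ 2 / N) := by
      rw [neg_div, neg_le_neg_iff]
      apply div_le_div_of_nonneg_right _ hNr.le
      linarith
    linarith
  · intro h45
    have hg2 : 0.18 ≤ h / 2 - max (h - 1) 0 / 2 - 0.1 * h := by
      rcases le_total h 1 with hc | hc
      · rw [max_eq_right (by linarith)]; linarith
      · rw [max_eq_left (by linarith)]; linarith
    -- the chance to hit
    set S := load H N W with hS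
    have hS0 : 0 ≤ S := by rw [hS]; unfold load; positivity
    have hS1 : S ≤ 1 := by
      have h1 : S ≤ ∑ z ∈ W, (bd H z : ℝ) / N * (1 + xu H N z) := by
        rw [hS]; unfold load
        apply Finset.sum_le_sum
        intro z _
        have a1 : (0 : ℝ) ≤ (bd H z : ℝ) / N := by positivity
        have a2 := mul_nonneg a1 (hx z)
        linarith
      have h2 : ∑ z ∈ W, (bd H z : ℝ) / N * (1 + xu H N z) ≤ h / 2 := by
        rw [hhdef, Finset.sum_div]
        exact Finset.sum_le_sum fun z _ => (E1L_x hB z).2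
      linarith
    set a : Finset V → ℝ := fun F => ∑ u ∈ F ∩ W, (1 : ℝ) with ha
    have ha0 : ∀ F ∈ H, 0 ≤ a F ∧ a F ≤ k := by
      intro F hF
      have h3 : a F = ((F ∩ W).card : ℝ) := by rw [ha]; simp
      rw [h3]
      refine ⟨by positivity, ?_⟩
      have := (Finset.card_le_card (Finset.inter_subset_left (s₁ := F) (s₂ := W))).trans
        (hB.card F hF)
      exact_mod_cast this
    have hmean : (∑ F ∈ H, a F) / N = S := by
      have e : ∑ F ∈ H, a F = ∑ u ∈ W, (bd H u : ℝ) * 1 := sum_bd H W (fun _ => 1)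
      rw [e, Finset.sum_div, hS]
      unfold load
      exact Finset.sum_congr rfl fun u _ => by ring
    have hY : ∀ B, B ⊆ H → PD B → Yv W B = Ja a B := by
      intro B _ hPD
      rw [Yv_eq]
      exact (sum_cov B hPD W (fun _ => 1)).symm
    have q1 := (abs_le.1 (thm_Q1 V k N K H w a hN' hB hQ (fun F hF => (ha0 F hF).1))).1
    rw [hmean] at q1
    have q2 := hQ2 V N H w a 0 hN' hB hQ ha0 (by rw [hmean]; exact hS1) (by simp)
    rw [hmean] at q2
    have hV : VF H N a ≤ k * S := by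
      have h1 : VF H N a ≤ (∑ F ∈ H, a F ^ 2) / N := by
        unfold VF
        have : 0 ≤ (∑ F ∈ H, ∑ G ∈ H.filter (fun G => ¬ Disjoint F G), a F * a G)
            / (N : ℝ) ^ 2 := by
          apply div_nonneg _ (by positivity)
          exact Finset.sum_nonneg fun F hF => Finset.sum_nonneg fun G hG =>
            mul_nonneg (ha0 F hF).1 (ha0 G (Finset.mem_filter.1 hG).1).1
        linarith
      have h2 : (∑ F ∈ H, a F ^ 2) / N ≤ (∑ F ∈ H, k * a F) / N := by
        apply div_le_div_of_nonneg_right _ hNr.le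
        apply Finset.sum_le_sum
        intro F hF
        rw [sq]
        exact mul_le_mul_of_nonneg_right (ha0 F hF).2 (ha0 F hF).1
      rw [← Finset.mul_sum, mul_div_assoc, hmean] at h2
      linarith
    set θ : ℝ := 1 / (k + 1) with hθ
    have hk1 : (0 : ℝ) < k + 1 := by linarith
    have hθ0 : 0 < θ := by positivity
    have hθ1 : θ ≤ 1 := by rw [hθ, div_le_one hk1]; linarith
    have hpl : 2 * θ * ev w (Ja a) - θ ^ 2 * ev w (fun B => (Ja a B - 0) ^ 2) ≤ p := by
      have e1 : 2 * θ * ev w (Ja a) - θ ^ 2 * ev w (fun B => (Ja a B - 0) ^ 2)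
          = ev w (fun B => (2 * θ) * Ja a B - θ ^ 2 * (Ja a B - 0) ^ 2) := by
        rw [ev_sub w (fun B => (2 * θ) * Ja a B) (fun B => θ ^ 2 * (Ja a B - 0) ^ 2), ev_smul,
          ev_smul]
      rw [e1, hp]
      apply hQ.mono'
      intro B hBH hPD
      have := E1L_quad W B θ
      rw [hY B hBH hPD] at this
      rw [sub_zero]
      exact this
    have hp1 : θ * S - (2 * K ^ 2 + |C2|) / N ≤ p := by
      have r1 : K ^ 2 * S / N ≤ K ^ 2 / N := by
        apply div_le_div_of_nonneg_right _ hNr.le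
        have := mul_le_mul_of_nonneg_left hS1 (sq_nonneg K)
        linarith
      have r2 : S - K ^ 2 / N ≤ ev w (Ja a) := by linarith
      have r3 := mul_le_mul_of_nonneg_left r2 (by positivity : 0 ≤ 2 * θ)
      have r4 : ev w (fun B => (Ja a B - 0) ^ 2) ≤ (k + 1) * S + |C2| / N := by
        have s1 : (S - 0) ^ 2 ≤ S := by
          rw [sub_zero, sq]
          have := mul_le_mul_of_nonneg_right hS1 hS0
          linarith
        have s2 : C2 / N ≤ |C2| / N := div_le_div_of_nonneg_right (le_abs_self _) hNr.le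
        linarith
      have r5 := mul_le_mul_of_nonneg_left r4 (sq_nonneg θ)
      have e2 : θ ^ 2 * ((k + 1) * S + |C2| / N) = θ * S + θ ^ 2 * (|C2| / N) := by
        rw [hθ]; field_simp
      have r6 : θ ^ 2 * (|C2| / N) ≤ |C2| / N := by
        have s3 : θ ^ 2 ≤ 1 := pow_le_one₀ hθ0.le hθ1
        have s4 : 0 ≤ |C2| / N := by positivity
        have := mul_le_mul_of_nonneg_right s3 s4
        linarith
      have r7 : 2 * θ * (K ^ 2 / N) ≤ 2 * (K ^ 2 / N) := by
        have s4 : 0 ≤ K ^ 2 / N := by positivity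
        have := mul_le_mul_of_nonneg_right hθ1 s4
        linarith
      have e3 : (2 * K ^ 2 + |C2|) / N = 2 * (K ^ 2 / N) + |C2| / N := by ring
      rw [e3]
      linarith
    have hSl : 0.45 ≤ 2.9 * k * S := h45.trans (E1L_load hB W hN' hh)
    have hSl2 : 0.15 * θ ≤ S := by
      rw [hθ, mul_one_div, div_le_iff₀ hk1]
      nlinarith
    have hps : 0.15 * θ ^ 2 ≤ θ * S := by
      have := mul_le_mul_of_nonneg_left hSl2 hθ0.le
      linarith
    have hfin : 0.18 * p ≤ p * (h / 2 - max (h - 1) 0 / 2 - 0.1 * h) := by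
      have := mul_le_mul_of_nonneg_left hg2 hp0
      linarith
    have e9 : (0.02 : ℝ) / (k + 1) ^ 2 = 0.02 * θ ^ 2 := by rw [hθ]; field_simp
    have e10 : (K ^ 2 + (2 * K ^ 2 + |C2|)) / N = K ^ 2 / N + (2 * K ^ 2 + |C2|) / N := by ring
    rw [e9, e10]
    have h2 : 0 ≤ (2 * K ^ 2 + |C2|) / N := by positivity
    have h3 := sq_nonneg θ
    linarith

end Pool.Agent.JR
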