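import Pool.Agent.JR.E2d
import Pool.Agent.JR.J1
import Pool.Agent.JR.Mom
import Pool.Agent.JR.St

/-!
# JR, section E2: two very heavy vertices
-/

set_option autoImplicit false

namespace Pool.Agent.JR

open Finset
open Pool.Agent.LawB (ev ins ali Law)

variable {V : Type*} [DecidableEq V]

theorem E2_ev_le [Fintype V] {K : ℝ} {N : ℕ} {H : Finset (Finset V)}
    {w : Finset (Finset V) → ℝ} (hw : QLaw K N H w) {f g : Finset (Finset V) → ℝ}
    (h : ∀ B, B ⊆ H → PD B → f B ≤ g B) : ev w f ≤ ev w g := by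
  refine Finset.sum_le_sum fun B _ => ?_
  by_cases hB : w B = 0
  · rw [hB, zero_mul, zero_mul]
  · obtain ⟨h1, h2⟩ := hw.supp B hB
    exact mul_le_mul_of_nonneg_left (h B h1 h2) (hw.nonneg B)

theorem E2_ev_lin [Fintype V] {K : ℝ} {N : ℕ} {H : Finset (Finset V)}
    {w : Finset (Finset V) → ℝ} (hw : QLaw K N H w) (a b c : ℝ)
    (f g : Finset (Finset V) → ℝ) :
    ev w (fun B => a - b * f B - c * g B) = a - b * ev w f - c * ev w g := by
  unfold ev
  have h1 : ∑ B, w B * (a - b * f B - c * g B) =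
      a * ∑ B, w B - b * ∑ B, w B * f B - c * ∑ B, w B * g B := by
    rw [Finset.mul_sum, Finset.mul_sum, Finset.mul_sum, ← Finset.sum_sub_distrib,
      ← Finset.sum_sub_distrib]
    exact Finset.sum_congr rfl fun B _ => by ring
  rw [h1, hw.total, mul_one]

theorem E2_K [Fintype V] {K : ℝ} {N : ℕ} (hN : 0 < N) {H : Finset (Finset V)}
    {w : Finset (Finset V) → ℝ} (hw : QLaw K N H w) : 0 ≤ K := by
  have hN' : (0 : ℝ) < N := by exact_mod_cast hN
  have h1 : PD (∅ : Finset (Finset V)) := fun F hF => absurd hF (Finset.notMem_empty F)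
  have h2 := (abs_nonneg _).trans (hw.rpt ∅ (Finset.empty_subset _) h1)
  rw [Finset.card_empty, zero_add, pow_one] at h2
  by_contra h3
  exact absurd h2 (not_le.2 (div_neg_of_neg_of_pos (not_le.1 h3) hN'))

/-- the excess of an edge -/
noncomputable def E2ex (H : Finset (Finset V)) (N : ℕ) (W F : Finset V) : ℝ :=
  E2a H N W F - min (E2a H N W F) 5

theorem E2ex_nonneg (H : Finset (Finset V)) (N : ℕ) (W F : Finset V) : 0 ≤ E2ex H N W F :=
  sub_nonneg.2 (min_le_left _ _)

theorem E2ex_le {k N : ℕ} {H : Finset (Finset V)} (hB : Big k N H) (W F : Finset V) :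
    E2ex H N W F ≤ 2 * ((F ∩ W).card : ℝ) := by
  have h1 : E2ex H N W F ≤ E2a H N W F := by
    unfold E2ex
    have : 0 ≤ min (E2a H N W F) 5 := le_min (E2a_nonneg hB W F) (by norm_num)
    linarith
  refine (h1.trans (E2a_le hB W F)).trans ?_
  have h2 : ((F ∩ E2L H N W).card : ℝ) ≤ (F ∩ W).card := by
    exact_mod_cast Finset.card_le_card
      (Finset.inter_subset_inter_left (Finset.filter_subset _ _))
  have h3 : (0 : ℝ) ≤ (F ∩ W).card := Nat.cast_nonneg _
  linarith

/-- the exponential moment -/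
theorem E2_mgf {V : Type} [DecidableEq V] [Fintype V] {k N m : ℕ} {K S0 : ℝ} {H : Finset (Finset V)} (hN : 0 < N)
    (hB : Big k N H) {w : Finset (Finset V) → ℝ} (hw : QLaw K N H w)
    {W : Finset V} {u₁ u₂ : V} (h1 : u₁ ∈ W) (h2 : u₂ ∈ W) (h12 : u₁ ≠ u₂) (hv1 : vh H N u₁)
    (hv2 : vh H N u₂) (hm : (E2H H N W).card ≤ m) (hS : load H N W ≤ S0) :
    ev w (fun B => Real.exp (-(Xv W (E2x H N) B + Ja (E2ex H N W) B) / 3)) ≤
      Real.exp (-(∑ F ∈ H, E2la H N W F / N) / 3) *
        (0.6053 * Real.exp (2 ^ m * (Real.exp (10 * k / 3) * k) / N) +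
          K / N * Real.exp (K * (Real.exp (10 * k / 3) * S0))) := by
  classical
  have hN' : (0 : ℝ) < N := by exact_mod_cast hN
  have hK := E2_K hN hw
  set Sx := ∑ z ∈ W, E2x H N z with hSx
  set La := ∑ F ∈ H, E2la H N W F / N with hLa
  have h3 : ev w (fun B => Real.exp (-(Xv W (E2x H N) B + Ja (E2ex H N W) B) / 3)) ≤
      ev w (fun B => Real.exp (-Sx / 3) * ∏ F ∈ B, (1 + E2c H N W F)) := by
    refine E2_ev_le hw fun B _ hP => le_of_eq ?_
    have h4 := (thm_J1.2.2.2.2.2) V W (E2x H N) B hP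
    rw [h4]
    have h5 : Real.exp (-Sx / 3) * ∏ F ∈ B, (1 + E2c H N W F) =
        Real.exp (-Sx / 3 + ∑ F ∈ B, (E2b H N W F + min (E2a H N W F) 5) / 3) := by
      rw [Real.exp_add, Real.exp_sum]
      congr 1
      refine Finset.prod_congr rfl fun F _ => ?_
      unfold E2c
      ring
    rw [h5]
    congr 1
    rw [← Finset.sum_div]
    have h6 : Ja (aw W (E2x H N)) B = ∑ F ∈ B, (E2b H N W F + min (E2a H N W F) 5) +
        Ja (E2ex H N W) B := by
      unfold Ja
      rw [← Finset.sum_add_distrib]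
      refine Finset.sum_congr rfl fun F _ => ?_
      rw [E2_aw]
      unfold E2ex
      ring
    rw [h6]
    ring
  have h4 : ev w (fun B => Real.exp (-Sx / 3) * ∏ F ∈ B, (1 + E2c H N W F)) =
      Real.exp (-Sx / 3) * ev w (fun B => ∏ F ∈ B, (1 + E2c H N W F)) := by
    unfold ev
    rw [Finset.mul_sum]
    exact Finset.sum_congr rfl fun B _ => by ring
  rw [h4] at h3
  have h5 := E2_exp hw hK (E2g H N W) E2g_disj (E2c H N W) fun F _ => E2c_nonneg hB W F
  have h6 := E2_total hN hB h1 h2 h12 hv1 hv2 hm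
  rw [← hSx, ← hLa] at h6
  have h7 : ∏ i : V ⊕ Finset V, (1 + ∑ F ∈ H.filter (fun F => E2g H N W F = i),
      K * E2c H N W F / N) ≤ Real.exp (K * (Real.exp (10 * k / 3) * S0)) := by
    refine (E2_prod_le_exp (E2g H N W) (fun F => K * E2c H N W F / N) H fun F _ =>
      div_nonneg (mul_nonneg hK (E2c_nonneg hB W F)) hN'.le).trans ?_
    rw [Real.exp_le_exp]
    have h8 : ∑ F ∈ H, K * E2c H N W F / N ≤
        ∑ F ∈ H, K * (Real.exp (10 * k / 3) * (((F ∩ W).card : ℝ) / N)) := by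
      refine Finset.sum_le_sum fun F hF => ?_
      rw [mul_div_assoc]
      refine mul_le_mul_of_nonneg_left ?_ hK
      rw [mul_div_assoc']
      exact div_le_div_of_nonneg_right (E2c_le hB W hF) hN'.le
    refine h8.trans ?_
    rw [← Finset.mul_sum, ← Finset.mul_sum, E2_meet]
    exact mul_le_mul_of_nonneg_left (mul_le_mul_of_nonneg_left hS (Real.exp_pos _).le) hK
  have h8 : La ≤ Sx := by
    have h9 : La ≤ ∑ F ∈ H, 0.92 * ((F.card : ℝ) - 1) * E2a H N W F / N :=
      Finset.sum_le_sum fun F hF => div_le_div_of_nonneg_right (E2la_le hB W hF) hN'.le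
    refine h9.trans ((E2_shares hN hB W).trans ?_)
    exact Finset.sum_le_sum_of_subset_of_nonneg (Finset.filter_subset _ _)
      fun z _ _ => E2x_nonneg hB z
  refine h3.trans ((mul_le_mul_of_nonneg_left h5 (Real.exp_pos _).le).trans ?_)
  rw [mul_add, mul_add]
  refine add_le_add ?_ ?_
  · refine (mul_le_mul_of_nonneg_left h6 (Real.exp_pos _).le).trans ?_
    have h9 : Real.exp (-Sx / 3) * (0.778 ^ 2 * Real.exp ((Sx - La) / 3 +
        2 ^ m * (Real.exp (10 * k / 3) * k) / N)) = 0.778 ^ 2 * (Real.exp (-La / 3) *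
          Real.exp (2 ^ m * (Real.exp (10 * k / 3) * k) / N)) := by
      rw [mul_left_comm, ← Real.exp_add, ← Real.exp_add]
      congr 2
      ring
    rw [h9]
    have h10 : 0 ≤ Real.exp (-La / 3) * Real.exp (2 ^ m * (Real.exp (10 * k / 3) * k) / N) := by
      positivity
    nlinarith
  · have h9 : Real.exp (-Sx / 3) ≤ Real.exp (-La / 3) := Real.exp_le_exp.2 (by linarith)
    exact mul_le_mul h9 (mul_le_mul_of_nonneg_left h7 (div_nonneg hK hN'.le))
      (mul_nonneg (div_nonneg hK hN'.le) (Finset.prod_nonneg fun i _ => by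
        have : 0 ≤ ∑ F ∈ H.filter (fun F => E2g H N W F = i), K * E2c H N W F / N :=
          Finset.sum_nonneg fun F _ => div_nonneg (mul_nonneg hK (E2c_nonneg hB W F)) hN'.le
        linarith)) (Real.exp_pos _).le

theorem E2_expbd {t c : ℝ} (ht : 0 ≤ t) (htc : t ≤ c) : Real.exp t ≤ 1 + t * Real.exp c := by
  have h1 := Real.add_one_le_exp (-t)
  have h2 : Real.exp t * Real.exp (-t) = 1 := by
    rw [← Real.exp_add, add_neg_cancel, Real.exp_zero]
  have h3 : Real.exp t * (1 - t) ≤ 1 := by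
    rw [← h2]
    exact mul_le_mul_of_nonneg_left (by linarith) (Real.exp_pos _).le
  have h4 : t * Real.exp t ≤ t * Real.exp c :=
    mul_le_mul_of_nonneg_left (Real.exp_le_exp.2 htc) ht
  linarith

theorem E2_max {J La L : ℝ} (hc0 : 0 < La - 3 - L) :
    max (J - La + 3) 0 ≤ (4 * (La - 3 - L))⁻¹ * (J - L) ^ 2 := by
  rw [inv_mul_eq_div]
  refine max_le ?_ (div_nonneg (sq_nonneg _) (by linarith))
  rw [le_div_iff₀ (by linarith)]
  nlinarith [sq_nonneg (J - L - 2 * (La - 3 - L))]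

theorem E2_VF {H : Finset (Finset V)} {N : ℕ} {a : Finset V → ℝ} (ha : ∀ F ∈ H, 0 ≤ a F) :
    VF H N a ≤ (∑ F ∈ H, a F ^ 2) / N := by
  unfold VF
  have : 0 ≤ (∑ F ∈ H, ∑ G ∈ H.filter (fun G => ¬ Disjoint F G), a F * a G) / (N : ℝ) ^ 2 := by
    refine div_nonneg (Finset.sum_nonneg fun F hF => Finset.sum_nonneg fun G hG => ?_)
      (by positivity)
    exact mul_nonneg (ha F hF) (ha G (Finset.mem_filter.1 hG).1)
  linarith

theorem thm_E2 : StE2 := by
  intro k K S0
  set m : ℕ := ⌈50 * k * S0⌉₊ with hm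
  set C₁ : ℝ := 2 ^ m * (Real.exp (10 * k / 3) * k) with hC₁
  set C₂ : ℝ := |K| * Real.exp (|K| * (Real.exp (10 * k / 3) * |S0|)) with hC₂
  set C₃ : ℝ := 0.6053 * (C₁ * Real.exp C₁) + C₂ with hC₃
  obtain ⟨C₄, hC₄⟩ := thm_Q2 k K (2 * k) (2 * |S0|) (2 * |S0|)
  have hC₁0 : 0 ≤ C₁ := by positivity
  have hC₂0 : 0 ≤ C₂ := by positivity
  have hC₃0 : 0 ≤ C₃ := by positivity
  refine ⟨1.5405 * C₃ + K ^ 2 * (2 * |S0|) + |C₄|, 1, ?_⟩
  intro V _ _ N H w W u₁ u₂ hN1 hB hw h1 h2 h12 hv1 hv2 hS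
  classical
  have hN : 0 < N := hN1
  have hN' : (0 : ℝ) < N := by exact_mod_cast hN
  have hN1' : (1 : ℝ) ≤ N := by exact_mod_cast hN1
  have hK := E2_K hN hw
  have hload : 0 ≤ load H N W := Finset.sum_nonneg fun z _ => by positivity
  have hS0 : 0 ≤ S0 := hload.trans hS
  have hcard : (E2H H N W).card ≤ m := by
    have h3 := E2_card hN hB hS
    have h4 : ((E2H H N W).card : ℝ) ≤ m := h3.trans (Nat.le_ceil _)
    exact_mod_cast h4
  set La := ∑ F ∈ H, E2la H N W F / N with hLa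
  set L := (∑ F ∈ H, E2ex H N W F) / N with hL
  set Q := ∑ F ∈ H, E2ex H N W F ^ 2 with hQ
  have hL0 : 0 ≤ L := div_nonneg (Finset.sum_nonneg fun F _ => E2ex_nonneg H N W F) hN'.le
  have hLS : L ≤ 2 * |S0| := by
    have h3 : L ≤ 2 * load H N W := by
      rw [hL, ← E2_meet, Finset.sum_div, Finset.mul_sum]
      refine Finset.sum_le_sum fun F _ => ?_
      rw [mul_div_assoc']
      exact div_le_div_of_nonneg_right (E2ex_le hB W F) hN'.le
    rw [abs_of_nonneg hS0]
    linarith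
  have h10L : 10 * L ≤ La := by
    rw [hL, hLa, Finset.sum_div, Finset.mul_sum]
    refine Finset.sum_le_sum fun F _ => ?_
    rw [mul_div_assoc']
    exact div_le_div_of_nonneg_right (E2la_ge hB W F).1 hN'.le
  have hQL : 0.9 * (Q / N) ≤ La := by
    rw [hQ, hLa, Finset.sum_div, Finset.mul_sum]
    refine Finset.sum_le_sum fun F _ => ?_
    rw [mul_div_assoc']
    exact div_le_div_of_nonneg_right (E2la_ge hB W F).2 hN'.le
  have hLa0 : 0 ≤ La := by linarith
  -- the exponential moment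
  set G := ev w (fun B => Real.exp (-(Xv W (E2x H N) B + Ja (E2ex H N W) B) / 3)) with hG
  have hG1 : G ≤ Real.exp (-La / 3) * (0.6053 + C₃ / N) := by
    refine (E2_mgf hN hB hw h1 h2 h12 hv1 hv2 hcard hS).trans ?_
    rw [← hLa]
    refine mul_le_mul_of_nonneg_left ?_ (Real.exp_pos _).le
    have h3 : Real.exp (C₁ / N) ≤ 1 + C₁ / N * Real.exp C₁ :=
      E2_expbd (div_nonneg hC₁0 hN'.le) (div_le_self hC₁0 hN1')
    have h4 : K / N * Real.exp (K * (Real.exp (10 * k / 3) * S0)) = C₂ / N := by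
      rw [hC₂, abs_of_nonneg hK, abs_of_nonneg hS0]
      ring
    have h5 : 0.6053 + C₃ / N = 0.6053 * (1 + C₁ / N * Real.exp C₁) + C₂ / N := by
      rw [hC₃]
      ring
    rw [h4, h5]
    have h6 := mul_le_mul_of_nonneg_left h3 (by norm_num : (0 : ℝ) ≤ 0.6053)
    linarith
  have hJ1 := thm_J1
  have hA := E2_n8
  have hA0 : 0 < 3 * Real.exp (-(2 / 3)) := by positivity
  have hX : (fun B => phi (Xv W (fun z => if 50 * td H z < N then 0.92 * xu H N z else
      xc H N 9 z) B)) = fun B => phi (Xv W (E2x H N) B) := rfl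
  rw [hX]
  have hCpos : 0 ≤ K ^ 2 * (2 * |S0|) := by positivity
  have hC4pos := abs_nonneg C₄
  have hJa0 : ∀ B, 0 ≤ Ja (E2ex H N W) B := fun B =>
    Finset.sum_nonneg fun F _ => E2ex_nonneg H N W F
  rcases le_total L 0.8 with hL8 | hL8
  · -- small excess
    have h3 : ev w (fun B => 1 - 3 * Real.exp (-(2 / 3)) *
        Real.exp (-(Xv W (E2x H N) B + Ja (E2ex H N W) B) / 3) - 1 * Ja (E2ex H N W) B) ≤
        ev w (fun B => phi (Xv W (E2x H N) B)) := by
      refine E2_ev_le hw fun B _ _ => ?_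
      have h4 := hJ1.2.1 (Xv W (E2x H N) B + Ja (E2ex H N W) B)
      have h5 := (hJ1.2.2.1 (Xv W (E2x H N) B) (Xv W (E2x H N) B + Ja (E2ex H N W) B)
        (by linarith [hJa0 B])).2
      linarith
    refine le_trans ?_ h3
    have h3' := E2_ev_lin hw 1 (3 * Real.exp (-(2 / 3))) 1
      (fun B => Real.exp (-(Xv W (E2x H N) B + Ja (E2ex H N W) B) / 3)) (Ja (E2ex H N W))
    rw [h3', ← hG]
    have h4 := (abs_le.1 (thm_Q1 V k N K H w (E2ex H N W) hN hB hw
      fun F _ => E2ex_nonneg H N W F)).2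
    rw [← hL] at h4
    have h5 : Real.exp (-La / 3) ≤ 1 - 1.1628 * L := by
      have h6 : Real.exp (-La / 3) ≤ Real.exp (-(10 * L) / 3) := Real.exp_le_exp.2 (by linarith)
      have ht1 : 0 ≤ 1 - L / 0.8 := by
        rw [sub_nonneg, div_le_one (by norm_num)]
        exact hL8
      have ht0 : 0 ≤ L / 0.8 := div_nonneg hL0 (by norm_num)
      have hc := convexOn_exp.2 (Set.mem_univ 0) (Set.mem_univ (-(8 / 3))) ht1 ht0 (by ring)
      simp only [smul_eq_mul, mul_zero, zero_add, Real.exp_zero, mul_one] at hc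
      have h7 : L / 0.8 * -(8 / 3) = -(10 * L) / 3 := by ring
      rw [h7] at hc
      have h8 := mul_le_mul_of_nonneg_left E2_n11 ht0
      have h9 : L / 0.8 * 0.0697 = 0.087125 * L := by ring
      have h10 : L / 0.8 = 1.25 * L := by ring
      rw [h9] at h8
      linarith
    have hC3N : 0 ≤ C₃ / N := div_nonneg hC₃0 hN'.le
    have h6 : 3 * Real.exp (-(2 / 3)) * G ≤ 1.5405 * ((1 - 1.1628 * L) * 0.6053 + C₃ / N) := by
      have h7 : G ≤ (1 - 1.1628 * L) * 0.6053 + C₃ / N := by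
        have h8 : Real.exp (-La / 3) ≤ 1 := by
          rw [Real.exp_le_one_iff]
          linarith
        have h9 := mul_le_mul_of_nonneg_right h5 (by norm_num : (0 : ℝ) ≤ 0.6053)
        have h10 := mul_le_mul_of_nonneg_right h8 hC3N
        rw [mul_add] at hG1
        linarith
      have h8 : 0 ≤ G := Finset.sum_nonneg fun B _ => mul_nonneg (hw.nonneg B) (Real.exp_pos _).le
      exact mul_le_mul hA h7 h8 (by norm_num)
    have h7 : K ^ 2 * L / N ≤ K ^ 2 * (2 * |S0|) / N :=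
      div_le_div_of_nonneg_right (mul_le_mul_of_nonneg_left hLS (sq_nonneg K)) hN'.le
    have h8 : 0 ≤ |C₄| / N := div_nonneg hC4pos hN'.le
    have h9 : (1.5405 * C₃ + K ^ 2 * (2 * |S0|) + |C₄|) / N =
        1.5405 * (C₃ / N) + K ^ 2 * (2 * |S0|) / N + |C₄| / N := by ring
    rw [h9]
    linarith
  · -- large excess
    have hLa8 : 8 ≤ La := by linarith
    have hc0 : 0 < La - 3 - L := by linarith
    have h3 : ev w (fun B => 1 - 3 * Real.exp (-(2 / 3)) * Real.exp (La / 3 - 1) *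
        Real.exp (-(Xv W (E2x H N) B + Ja (E2ex H N W) B) / 3) -
        (4 * (La - 3 - L))⁻¹ * (Ja (E2ex H N W) B - L) ^ 2) ≤
        ev w (fun B => phi (Xv W (E2x H N) B)) := by
      refine E2_ev_le hw fun B _ _ => ?_
      set X' := Xv W (E2x H N) B + Ja (E2ex H N W) B with hX'
      set J := Ja (E2ex H N W) B with hJ
      have h4 := hJ1.2.1 (X' - La + 3)
      have h5 : Real.exp (-(X' - La + 3) / 3) = Real.exp (La / 3 - 1) * Real.exp (-X' / 3) := by
        rw [← Real.exp_add]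
        congr 1
        ring
      rw [h5] at h4
      have h6 : phi (X' - La + 3) ≤ phi (Xv W (E2x H N) B) + max (J - La + 3) 0 := by
        rcases le_total (X' - La + 3) (Xv W (E2x H N) B) with h7 | h7
        · have h8 := (hJ1.2.2.1 _ _ h7).1
          have h9 := le_max_right (J - La + 3) 0
          linarith
        · have h8 := (hJ1.2.2.1 _ _ h7).2
          have h9 := le_max_left (J - La + 3) 0
          have h10 : X' - La + 3 - Xv W (E2x H N) B = J - La + 3 := by
            rw [hX']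
            ring
          linarith
      have h7 : max (J - La + 3) 0 ≤ (4 * (La - 3 - L))⁻¹ * (J - L) ^ 2 := by
        exact E2_max hc0
      rw [mul_assoc]
      linarith
    refine le_trans ?_ h3
    have h3' := E2_ev_lin hw 1 (3 * Real.exp (-(2 / 3)) * Real.exp (La / 3 - 1))
      (4 * (La - 3 - L))⁻¹ (fun B => Real.exp (-(Xv W (E2x H N) B + Ja (E2ex H N W) B) / 3))
      (fun B => (Ja (E2ex H N W) B - L) ^ 2)
    rw [h3', ← hG]
    have hC3N : 0 ≤ C₃ / N := div_nonneg hC₃0 hN'.le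
    have h4 : 3 * Real.exp (-(2 / 3)) * Real.exp (La / 3 - 1) * G ≤
        1.5405 * (0.368 * (0.6053 + C₃ / N)) := by
      have h5 : Real.exp (La / 3 - 1) * G ≤ 0.368 * (0.6053 + C₃ / N) := by
        refine (mul_le_mul_of_nonneg_left hG1 (Real.exp_pos _).le).trans ?_
        rw [← mul_assoc, ← Real.exp_add]
        have h6 : La / 3 - 1 + -La / 3 = -1 := by ring
        rw [h6]
        exact mul_le_mul_of_nonneg_right E2_n10 (by positivity)
      have h6 : 0 ≤ Real.exp (La / 3 - 1) * G := mul_nonneg (Real.exp_pos _).le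
        (Finset.sum_nonneg fun B _ => mul_nonneg (hw.nonneg B) (Real.exp_pos _).le)
      rw [mul_assoc]
      exact mul_le_mul hA h5 h6 (by norm_num)
    have h5 := hC₄ V N H w (E2ex H N W) L hN hB hw (fun F hF => ⟨E2ex_nonneg H N W F, by
        have h6 := E2ex_le hB W F
        have h7 : ((F ∩ W).card : ℝ) ≤ k := by
          exact_mod_cast (Finset.card_le_card Finset.inter_subset_left).trans (hB.card F hF)
        linarith⟩) hLS (by rwa [abs_of_nonneg hL0])
    rw [← hL, sub_self, zero_pow (by norm_num), zero_add] at h5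
    have h6 := E2_VF (N := N) (H := H) fun F _ => E2ex_nonneg H N W F
    rw [← hQ] at h6
    have h7 : ev w (fun B => (Ja (E2ex H N W) B - L) ^ 2) ≤ La / 0.9 + |C₄| / N := by
      have h8 : C₄ / N ≤ |C₄| / N := div_le_div_of_nonneg_right (le_abs_self _) hN'.le
      have h9 : Q / N ≤ La / 0.9 := by
        rw [le_div_iff₀ (by norm_num)]
        linarith
      linarith
    have h8 : (4 * (La - 3 - L))⁻¹ * ev w (fun B => (Ja (E2ex H N W) B - L) ^ 2) ≤
        0.53 + |C₄| / N := by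
      rw [inv_mul_eq_div, div_le_iff₀ (by linarith : 0 < 4 * (La - 3 - L))]
      refine h7.trans ?_
      have h9 : 1 ≤ 4 * (La - 3 - L) := by linarith
      have h10 : 0 ≤ |C₄| / N := div_nonneg hC4pos hN'.le
      have h11 : La / 0.9 ≤ 0.53 * (4 * (La - 3 - L)) := by
        rw [div_le_iff₀ (by norm_num)]
        linarith
      nlinarith
    have h9 : (1.5405 * C₃ + K ^ 2 * (2 * |S0|) + |C₄|) / N =
        1.5405 * (C₃ / N) + K ^ 2 * (2 * |S0|) / N + |C₄| / N := by ring
    have h10 : 0 ≤ K ^ 2 * (2 * |S0|) / N := div_nonneg hCpos hN'.le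
    rw [h9]
    linarith

end Pool.Agent.JR
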