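import Pool.Agent.JR.Defs

/-!
# JR, section E2: exponential moments of additive functionals of a quasi-independent matching
-/

set_option autoImplicit false

namespace Pool.Agent.JR

open Finset
open Pool.Agent.LawB (ev ins ali Law)

variable {V : Type*} [DecidableEq V]

open Classical in
/-- the sum over the matchings in `H`, bounded by a product over groups of pairwise intersecting
edges -/
theorem E2_grp {ι : Type*} [Fintype ι] [DecidableEq ι] (g : Finset V → ι) (d : Finset V → ℝ)
    (H : Finset (Finset V)) (hd : ∀ F ∈ H, 0 ≤ d F)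
    (hg : ∀ F ∈ H, ∀ G ∈ H, F ≠ G → g F = g G → ¬ Disjoint F G) :
    ∑ A ∈ H.powerset, (if PD A then ∏ F ∈ A, d F else 0) ≤
      ∏ i : ι, (1 + ∑ F ∈ H.filter (fun F => g F = i), d F) := by
  induction H using Finset.strongInduction with
  | H H ih =>
    rcases H.eq_empty_or_nonempty with h0 | ⟨F₀, hF₀⟩
    · subst h0
      have h1 : PD (∅ : Finset (Finset V)) := fun F hF => absurd hF (Finset.notMem_empty F)
      simp [h1]
    · obtain ⟨H₁, hH₁, rfl⟩ : ∃ H₁, F₀ ∉ H₁ ∧ insert F₀ H₁ = H :=
        ⟨H.erase F₀, Finset.notMem_erase F₀ H, Finset.insert_erase hF₀⟩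
      rw [Finset.sum_powerset_insert hH₁]
      set i₀ := g F₀ with hi₀
      have hd₀ : 0 ≤ d F₀ := hd _ (Finset.mem_insert_self _ _)
      have hss : H₁ ⊂ insert F₀ H₁ := Finset.ssubset_insert hH₁
      have hss' : H₁.filter (fun F => g F ≠ i₀) ⊂ insert F₀ H₁ :=
        lt_of_le_of_lt (Finset.filter_subset _ _) hss
      have h1 := ih H₁ hss (fun F hF => hd F (Finset.mem_insert_of_mem hF))
        (fun F hF G hG => hg F (Finset.mem_insert_of_mem hF) G (Finset.mem_insert_of_mem hG))
      have h2 := ih _ hss' (fun F hF => hd F (hss'.subset hF))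
        (fun F hF G hG => hg F (hss'.subset hF) G (hss'.subset hG))
      have h3 : ∑ A ∈ H₁.powerset, (if PD (insert F₀ A) then ∏ F ∈ insert F₀ A, d F else 0) ≤
          d F₀ * ∑ A ∈ (H₁.filter (fun F => g F ≠ i₀)).powerset,
            (if PD A then ∏ F ∈ A, d F else 0) := by
        rw [Finset.mul_sum]
        have hsub : (H₁.filter (fun F => g F ≠ i₀)).powerset ⊆ H₁.powerset :=
          Finset.powerset_mono.2 (Finset.filter_subset _ _)
        rw [← Finset.sum_subset hsub (f := fun A => if PD (insert F₀ A) then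
          ∏ F ∈ insert F₀ A, d F else 0)]
        · refine Finset.sum_le_sum fun A hA => ?_
          rw [Finset.mem_powerset] at hA
          have hA1 : A ⊆ H₁ := hA.trans (Finset.filter_subset _ _)
          have hnn : 0 ≤ d F₀ * (if PD A then ∏ F ∈ A, d F else 0) := by
            refine mul_nonneg hd₀ ?_
            split_ifs
            · exact Finset.prod_nonneg fun F hF => hd F (Finset.mem_insert_of_mem (hA1 hF))
            · exact le_rfl
          by_cases hP : PD (insert F₀ A)
          · have hPA : PD A := fun F hF G hG => hP F (Finset.mem_insert_of_mem hF) G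
              (Finset.mem_insert_of_mem hG)
            rw [if_pos hP, if_pos hPA, Finset.prod_insert fun h => hH₁ (hA1 h)]
          · rw [if_neg hP]
            exact hnn
        · intro A hA hA'
          rw [Finset.mem_powerset] at hA hA'
          refine if_neg fun hP => hA' fun F hF => ?_
          rw [Finset.mem_filter]
          refine ⟨hA hF, fun hgF => ?_⟩
          have hne : F ≠ F₀ := fun h => hH₁ (h ▸ hA hF)
          exact hg F (Finset.mem_insert_of_mem (hA hF)) F₀ (Finset.mem_insert_self _ _) hne hgF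
            (hP F (Finset.mem_insert_of_mem hF) F₀ (Finset.mem_insert_self _ _) hne)
      refine (add_le_add h1 (h3.trans (mul_le_mul_of_nonneg_left h2 hd₀))).trans (le_of_eq ?_)
      rw [← Finset.mul_prod_erase Finset.univ _ (Finset.mem_univ i₀),
        ← Finset.mul_prod_erase Finset.univ (fun i => 1 + ∑ F ∈ (H₁.filter
          (fun F => g F ≠ i₀)).filter (fun F => g F = i), d F) (Finset.mem_univ i₀),
        ← Finset.mul_prod_erase Finset.univ (fun i => 1 + ∑ F ∈ (insert F₀ H₁).filter
          (fun F => g F = i), d F) (Finset.mem_univ i₀)]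
      have e1 : (insert F₀ H₁).filter (fun F => g F = i₀) =
          insert F₀ (H₁.filter fun F => g F = i₀) := by
        rw [Finset.filter_insert, if_pos hi₀.symm]
      have e2 : (H₁.filter (fun F => g F ≠ i₀)).filter (fun F => g F = i₀) = ∅ := by
        ext F
        simp only [Finset.mem_filter, Finset.notMem_empty, iff_false, not_and]
        exact fun h1 h2 => h1.2 h2
      have e3 : ∏ i ∈ Finset.univ.erase i₀, (1 + ∑ F ∈ (insert F₀ H₁).filter
          (fun F => g F = i), d F) = ∏ i ∈ Finset.univ.erase i₀, (1 + ∑ F ∈ H₁.filter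
          (fun F => g F = i), d F) := by
        refine Finset.prod_congr rfl fun i hi => ?_
        have hne : ¬ g F₀ = i := fun h => (Finset.ne_of_mem_erase hi) (h.symm.trans hi₀.symm)
        rw [Finset.filter_insert, if_neg hne]
      have e4 : ∏ i ∈ Finset.univ.erase i₀, (1 + ∑ F ∈ (H₁.filter (fun F => g F ≠ i₀)).filter
          (fun F => g F = i), d F) = ∏ i ∈ Finset.univ.erase i₀, (1 + ∑ F ∈ H₁.filter
          (fun F => g F = i), d F) := by
        refine Finset.prod_congr rfl fun i hi => ?_
        congr 2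
        ext F
        simp only [Finset.mem_filter]
        constructor
        · rintro ⟨⟨h1, -⟩, h2⟩
          exact ⟨h1, h2⟩
        · rintro ⟨h1, h2⟩
          exact ⟨⟨h1, fun h3 => Finset.ne_of_mem_erase hi (h2.symm.trans h3)⟩, h2⟩
      rw [e1, e2, e3, e4, Finset.sum_empty, Finset.sum_insert fun h => hH₁
        (Finset.mem_filter.1 h).1]
      ring

open Classical in
/-- the exponential moments -/
theorem E2_exp [Fintype V] {ι : Type*} [Fintype ι] [DecidableEq ι] {K : ℝ} {N : ℕ}
    {H : Finset (Finset V)} {w : Finset (Finset V) → ℝ} (hw : QLaw K N H w)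
    (hK : 0 ≤ K) (g : Finset V → ι)
    (hg : ∀ F ∈ H, ∀ G ∈ H, F ≠ G → g F = g G → ¬ Disjoint F G)
    (c : Finset V → ℝ) (hc : ∀ F ∈ H, 0 ≤ c F) :
    ev w (fun B => ∏ F ∈ B, (1 + c F)) ≤
      ∏ i : ι, (1 + ∑ F ∈ H.filter (fun F => g F = i), c F / N) +
        (K / N) * ∏ i : ι, (1 + ∑ F ∈ H.filter (fun F => g F = i), K * c F / N) := by
  have h1 : ev w (fun B => ∏ F ∈ B, (1 + c F)) =
      ∑ A ∈ H.powerset, (if PD A then (∏ F ∈ A, c F) * ev w (ins A) else 0) := by
    have h2 : ∀ B, w B * ∏ F ∈ B, (1 + c F) =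
        ∑ A ∈ H.powerset, (if PD A then (∏ F ∈ A, c F) * (w B * ins A B) else 0) := by
      intro B
      by_cases hB : w B = 0
      · simp [hB]
      obtain ⟨hBH, hBP⟩ := hw.supp B hB
      rw [Finset.prod_one_add, Finset.mul_sum]
      rw [← Finset.sum_subset (Finset.powerset_mono.2 hBH)]
      · refine Finset.sum_congr rfl fun A hA => ?_
        rw [Finset.mem_powerset] at hA
        have hAP : PD A := fun F hF G hG => hBP F (hA hF) G (hA hG)
        rw [if_pos hAP]
        unfold ins
        rw [if_pos hA]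
        ring
      · intro A _ hA
        rw [Finset.mem_powerset] at hA
        unfold ins
        rw [if_neg hA]
        simp
    unfold ev
    rw [Finset.sum_congr rfl fun B _ => h2 B, Finset.sum_comm]
    refine Finset.sum_congr rfl fun A _ => ?_
    by_cases hA : PD A
    · simp only [if_pos hA]
      rw [Finset.mul_sum]
    · simp only [if_neg hA]
      exact Finset.sum_const_zero
  rw [h1]
  have h3 : ∑ A ∈ H.powerset, (if PD A then (∏ F ∈ A, c F) * ev w (ins A) else 0) ≤
      ∑ A ∈ H.powerset, (if PD A then ∏ F ∈ A, (c F / N) else 0) +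
      (K / N) * ∑ A ∈ H.powerset, (if PD A then ∏ F ∈ A, (K * c F / N) else 0) := by
    rw [Finset.mul_sum, ← Finset.sum_add_distrib]
    refine Finset.sum_le_sum fun A hA => ?_
    rw [Finset.mem_powerset] at hA
    by_cases hP : PD A
    · rw [if_pos hP, if_pos hP, if_pos hP]
      have h4 := (abs_le.1 (hw.rpt A hA hP)).2
      have h5 : 0 ≤ ∏ F ∈ A, c F := Finset.prod_nonneg fun F hF => hc F (hA hF)
      have h6 : ∏ F ∈ A, (c F / N) = (∏ F ∈ A, c F) * (1 / N) ^ A.card := by
        rw [← Finset.prod_const, ← Finset.prod_mul_distrib]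
        exact Finset.prod_congr rfl fun F _ => by ring
      have h7 : ∏ F ∈ A, (K * c F / N) = (∏ F ∈ A, c F) * (K / N) ^ A.card := by
        rw [← Finset.prod_const, ← Finset.prod_mul_distrib]
        exact Finset.prod_congr rfl fun F _ => by ring
      rw [h6, h7]
      have h8 : ev w (ins A) ≤ (1 / N) ^ A.card + (K / N) ^ (A.card + 1) := by linarith
      refine (mul_le_mul_of_nonneg_left h8 h5).trans (le_of_eq ?_)
      ring
    · rw [if_neg hP, if_neg hP, if_neg hP]
      simp
  refine h3.trans (add_le_add ?_ (mul_le_mul_of_nonneg_left ?_ (div_nonneg hK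
    (Nat.cast_nonneg _))))
  · exact E2_grp g (fun F => c F / N) H (fun F hF => div_nonneg (hc F hF) (Nat.cast_nonneg _)) hg
  · exact E2_grp g (fun F => K * c F / N) H (fun F hF => div_nonneg (mul_nonneg hK (hc F hF))
      (Nat.cast_nonneg _)) hg

end Pool.Agent.JR
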