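import Pool.Agent.JR.Defs

/-!
# JR, section E2: the inequalities for one group of edges
-/

set_option autoImplicit false

namespace Pool.Agent.JR

open Finset

theorem E2_up {x y : ℝ} (h1 : 0 ≤ x) (h2 : x ≤ 1)
    (h : 1 + x + x ^ 2 / 2 + x ^ 3 / 6 + x ^ 4 / 24 + x ^ 5 / 120 + x ^ 6 * 7 / 4320 ≤ y) :
    Real.exp x ≤ y := by
  have h3 := Real.exp_bound' h1 h2 (n := 6) (by norm_num)
  refine h3.trans (le_trans (le_of_eq ?_) h)
  simp only [Finset.sum_range_succ, Finset.sum_range_zero, Nat.factorial]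
  norm_num
  try ring

theorem E2_lo {x y : ℝ} (h1 : 0 ≤ x)
    (h : y ≤ 1 + x + x ^ 2 / 2 + x ^ 3 / 6 + x ^ 4 / 24 + x ^ 5 / 120) : y ≤ Real.exp x := by
  refine (h.trans (le_of_eq ?_)).trans (Real.sum_le_exp_of_nonneg h1 6)
  simp only [Finset.sum_range_succ, Finset.sum_range_zero, Nat.factorial]
  norm_num
  try ring

theorem E2_sq {x y : ℝ} (h : Real.exp (x / 2) ≤ y) : Real.exp x ≤ y ^ 2 := by
  have h1 : Real.exp x = Real.exp (x / 2) ^ 2 := by
    rw [sq, ← Real.exp_add]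
    congr 1
    ring
  rw [h1]
  exact pow_le_pow_left₀ (Real.exp_pos _).le h 2

theorem E2_neg {x y : ℝ} (hy : 0 < y) (h : y ≤ Real.exp x) : Real.exp (-x) ≤ y⁻¹ := by
  rw [Real.exp_neg]
  exact inv_anti₀ hy h

theorem E2_n1 : Real.exp (1 / 3) ≤ 1.3957 := E2_up (by norm_num) (by norm_num) (by norm_num)

theorem E2_n2 : Real.exp (2.0376 / 3) - 1 ≤ 0.9726 := by
  have := E2_up (x := 2.0376 / 3) (y := 1.9726) (by norm_num) (by norm_num) (by norm_num)
  linarith

theorem E2_n3 : Real.exp (3.0564 / 3) - 1 ≤ 1.771 := by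
  have h1 := E2_up (x := 3.0564 / 3 / 2) (y := 1.6644) (by norm_num) (by norm_num) (by norm_num)
  have h2 := E2_sq h1
  have h3 : (1.6644 : ℝ) ^ 2 ≤ 2.771 := by norm_num
  linarith

theorem E2_n4 : Real.exp (4.0752 / 3) - 1 ≤ 2.891 := by
  have h1 := E2_up (x := 4.0752 / 3 / 2) (y := 1.97246) (by norm_num) (by norm_num) (by norm_num)
  have h2 := E2_sq h1
  have h3 : (1.97246 : ℝ) ^ 2 ≤ 3.891 := by norm_num
  linarith

theorem E2_n5 : Real.exp (5 / 3) - 1 ≤ 4.298 := by
  have h1 := E2_up (x := 5 / 3 / 2) (y := 2.3015) (by norm_num) (by norm_num) (by norm_num)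
  have h2 := E2_sq h1
  have h3 : (2.3015 : ℝ) ^ 2 ≤ 5.298 := by norm_num
  linarith

theorem E2_n6 : Real.exp (-(4 / 3)) ≤ 0.2637 := by
  have h1 := E2_lo (x := 2 / 3) (y := 1.94755) (by norm_num) (by norm_num)
  have h2 : Real.exp (4 / 3) = Real.exp (2 / 3) ^ 2 := by
    rw [sq, ← Real.exp_add]
    norm_num
  have h3 : (3.7929 : ℝ) ≤ Real.exp (4 / 3) := by
    rw [h2]
    refine le_trans ?_ (pow_le_pow_left₀ (by norm_num) h1 2)
    norm_num
  refine (E2_neg (by norm_num) h3).trans ?_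
  norm_num

theorem E2_n7 : Real.exp (-3) ≤ 0.0498 := by
  have h1 := Real.exp_one_gt_d9
  have h2 : Real.exp 3 = Real.exp 1 ^ 3 := by
    rw [← Real.exp_nat_mul]
    norm_num
  have h3 : (20.085 : ℝ) ≤ Real.exp 3 := by
    rw [h2]
    have := pow_le_pow_left₀ (by norm_num) h1.le 3
    refine le_trans ?_ this
    norm_num
  refine (E2_neg (by norm_num) h3).trans ?_
  norm_num

theorem E2_n8 : 3 * Real.exp (-(2 / 3)) ≤ 1.5405 := by
  have h1 := E2_lo (x := 2 / 3) (y := 1.9475) (by norm_num) (by norm_num)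
  have h2 := E2_neg (by norm_num) h1
  have h3 : (1.9475 : ℝ)⁻¹ ≤ 0.5135 := by norm_num
  linarith

theorem E2_n9 : 1.087 * Real.exp (0.7228 / 1.087 - 1) ≤ 0.778 := by
  have h1 := E2_lo (x := 1 - 0.7228 / 1.087) (y := 1.3979) (by norm_num) (by norm_num)
  have h2 := E2_neg (by norm_num) h1
  rw [neg_sub] at h2
  have h3 : (1.3979 : ℝ)⁻¹ ≤ 0.7155 := by norm_num
  linarith

theorem E2_n10 : Real.exp (-1) ≤ 0.368 := by
  have h1 := Real.exp_one_gt_d9
  refine (E2_neg (by norm_num) h1.le).trans ?_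
  norm_num

theorem E2_n11 : Real.exp (-(8 / 3)) ≤ 0.0697 := by
  have h1 := Real.exp_one_gt_d9
  have h2 : Real.exp (8 / 3) = Real.exp 1 ^ 2 * Real.exp (2 / 3) := by
    rw [sq, ← Real.exp_add, ← Real.exp_add]
    norm_num
  have h3 := E2_lo (x := 2 / 3) (y := 1.947) (by norm_num) (by norm_num)
  have h4 : (14.38 : ℝ) ≤ Real.exp (8 / 3) := by
    rw [h2]
    have h5 := pow_le_pow_left₀ (by norm_num) h1.le 2
    have h6 := mul_le_mul h5 h3 (by norm_num) (by positivity)
    refine le_trans ?_ h6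
    norm_num
  refine (E2_neg (by norm_num) h4).trans ?_
  norm_num

/-- chords of the exponential function -/
theorem E2_chord {a a₀ s : ℝ} (h0 : 0 ≤ a) (h1 : a ≤ a₀) (h2 : 0 < a₀)
    (hs : Real.exp (a₀ / 3) - 1 ≤ s * a₀) : Real.exp (a / 3) - 1 ≤ s * a := by
  have ht1 : 0 ≤ 1 - a / a₀ := by
    rw [sub_nonneg, div_le_one h2]
    exact h1
  have ht0 : 0 ≤ a / a₀ := div_nonneg h0 h2.le
  have hc := convexOn_exp.2 (Set.mem_univ 0) (Set.mem_univ (a₀ / 3)) ht1 ht0 (by ring)
  simp only [smul_eq_mul, mul_zero, zero_add, Real.exp_zero, mul_one] at hc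
  have h3 : a / a₀ * (a₀ / 3) = a / 3 := by field_simp
  rw [h3] at hc
  have h4 : a / a₀ * (Real.exp (a₀ / 3) - 1) ≤ a / a₀ * (s * a₀) :=
    mul_le_mul_of_nonneg_left hs (div_nonneg h0 h2.le)
  have h5 : a / a₀ * (s * a₀) = s * a := by field_simp
  linarith

/-- the left over share of an edge with `m` vertices and light part `a` -/
noncomputable def E2lo (t m a : ℝ) : ℝ := if 5 < a then 0.92 * (m - 1) * a - t else 0

theorem E2_min_gt {a : ℝ} (h : 5 < a) : min a 5 = 5 := min_eq_right h.le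

theorem E2_min_le {a : ℝ} (h : ¬ 5 < a) : min a 5 = a := min_eq_left (not_lt.1 h)

/-- light edges -/
theorem E2_light {m : ℕ} {a : ℝ} (hm : 3 ≤ m) (ha : 0 ≤ a) (ham : a ≤ 1.0188 * m) :
    Real.exp (min a 5 / 3) - 1 ≤ (0.92 * (m - 1) * a - E2lo 12.9 m a) / 3 := by
  unfold E2lo
  by_cases h : 5 < a
  · rw [if_pos h, E2_min_gt h]
    have := E2_n5
    linarith
  · rw [if_neg h, E2_min_le h, sub_zero]
    rw [not_lt] at h
    rcases Nat.lt_or_ge m 4 with h4 | h4
    · have hm' : m = 3 := by omega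
      subst hm'
      have h5 := E2_chord (a₀ := 3.0564) (s := 0.6133) ha (by norm_num at ham ⊢; linarith)
        (by norm_num) (E2_n3.trans (by norm_num))
      push_cast
      linarith
    rcases Nat.lt_or_ge m 5 with h5 | h5
    · have hm' : m = 4 := by omega
      subst hm'
      have h5 := E2_chord (a₀ := 4.0752) (s := 0.92) ha (by norm_num at ham ⊢; linarith)
        (by norm_num) (E2_n4.trans (by norm_num))
      push_cast
      linarith
    · have h6 := E2_chord (a₀ := 5) (s := 1.22) ha h (by norm_num) (E2_n5.trans (by norm_num))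
      have h7 : (5 : ℝ) ≤ m := by exact_mod_cast h5
      have h8 : 0 ≤ ((m : ℝ) - 5) * a := mul_nonneg (by linarith) ha
      nlinarith

/-- edges at one heavy vertex -/
theorem E2_heavy {m : ℕ} {a : ℝ} (hm : 3 ≤ m) (ha : 0 ≤ a) (ham : a ≤ 1.0188 * (m - 1)) :
    1.284 * (Real.exp (min a 5 / 3) - 1) ≤ (0.92 * (m - 1) * a - E2lo 18 m a) / 3 ∧
    1.3957 * (Real.exp (min a 5 / 3) - 1) ≤ (0.92 * (m - 1) * a - E2lo 18 m a) / 3 + 0.11 := by
  unfold E2lo
  by_cases h : 5 < a
  · rw [if_pos h, E2_min_gt h]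
    have := E2_n5
    constructor <;> linarith
  · rw [if_neg h, E2_min_le h, sub_zero]
    rw [not_lt] at h
    rcases Nat.lt_or_ge m 4 with h4 | h4
    · have hm' : m = 3 := by omega
      subst hm'
      have h6 : a ≤ 2.0376 := by norm_num at ham ⊢; linarith
      have h5 := E2_chord (a₀ := 2.0376) (s := 0.4776) ha h6
        (by norm_num) (E2_n2.trans (by norm_num))
      push_cast
      constructor <;> linarith
    rcases Nat.lt_or_ge m 5 with h5 | h5
    · have hm' : m = 4 := by omega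
      subst hm'
      have h5 := E2_chord (a₀ := 3.0564) (s := 0.659) ha (by norm_num at ham ⊢; linarith)
        (by norm_num) (E2_n3.trans (by norm_num))
      push_cast
      constructor <;> linarith
    rcases Nat.lt_or_ge m 6 with h6 | h6
    · have hm' : m = 5 := by omega
      subst hm'
      have h5 := E2_chord (a₀ := 4.0752) (s := 0.878) ha (by norm_num at ham ⊢; linarith)
        (by norm_num) (E2_n4.trans (by norm_num))
      push_cast
      constructor <;> linarith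
    · have h6' := E2_chord (a₀ := 5) (s := 1.09) ha h (by norm_num) (E2_n5.trans (by norm_num))
      have h7 : (6 : ℝ) ≤ m := by exact_mod_cast h6
      have h8 : 0 ≤ ((m : ℝ) - 6) * a := mul_nonneg (by linarith) ha
      constructor <;> nlinarith

/-- the left over shares, light edges -/
theorem E2_lo_light {m a : ℝ} (ha : 0 ≤ a) (ham : a ≤ 1.0188 * m) :
    10 * (a - min a 5) ≤ E2lo 12.9 m a ∧ 0.9 * (a - min a 5) ^ 2 ≤ E2lo 12.9 m a := by
  unfold E2lo
  by_cases h : 5 < a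
  · rw [if_pos h, E2_min_gt h]
    have h1 : 0.903 * a ^ 2 - 0.92 * a ≤ 0.92 * (m - 1) * a := by
      have h2 : 0 ≤ (1.0188 * m - a) * a := mul_nonneg (by linarith) ha
      nlinarith
    constructor
    · nlinarith [sq_nonneg (a - 6.05)]
    · nlinarith [sq_nonneg a]
  · rw [if_neg h, E2_min_le h]
    simp

/-- the left over shares, other edges -/
theorem E2_lo_heavy {m a : ℝ} (ha : 0 ≤ a) (ham : a ≤ 1.0188 * (m - 1)) :
    10 * (a - min a 5) ≤ E2lo 18 m a ∧ 0.9 * (a - min a 5) ^ 2 ≤ E2lo 18 m a := by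
  unfold E2lo
  by_cases h : 5 < a
  · rw [if_pos h, E2_min_gt h]
    have h1 : 0.903 * a ^ 2 ≤ 0.92 * (m - 1) * a := by
      have h2 : 0 ≤ (1.0188 * (m - 1) - a) * a := mul_nonneg (by linarith) ha
      nlinarith
    constructor
    · nlinarith [sq_nonneg (a - 5.54)]
    · nlinarith [sq_nonneg a]
  · rw [if_neg h, E2_min_le h]
    simp

/-- the value at a vertex with small `β` -/
theorem E2_b0_small {b x : ℝ} (hb0 : 0 ≤ b) (hb : b < 0.4) (hx : 2 * b / (1 - 2 * b) ≤ x) :
    (1 - b) * Real.exp (-x / 3) + 1.3957 * b ≤ 1 - 0.11 * b := by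
  have h1 : 0 < 1 - 2 * b := by linarith
  have h2 : Real.exp (-x / 3) ≤ (1 + 2 * b / (1 - 2 * b) / 3)⁻¹ := by
    have h3 : 1 + 2 * b / (1 - 2 * b) / 3 ≤ Real.exp (x / 3) := by
      have := Real.add_one_le_exp (x / 3)
      linarith
    have h4 : (0 : ℝ) < 1 + 2 * b / (1 - 2 * b) / 3 := by positivity
    have h5 := E2_neg h4 h3
    rwa [← neg_div] at h5
  have h3 : 1 + 2 * b / (1 - 2 * b) / 3 = (3 - 4 * b) / (3 * (1 - 2 * b)) := by
    have := h1.ne'
    field_simp
    ring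
  rw [h3, inv_div] at h2
  have h4 : 0 < 3 - 4 * b := by linarith
  have h5 : (1 - b) * (3 * (1 - 2 * b) / (3 - 4 * b)) ≤ 1 - 1.5057 * b := by
    rw [mul_div_assoc', div_le_iff₀ h4]
    nlinarith
  have h6 := mul_le_mul_of_nonneg_left h2 (by linarith : 0 ≤ 1 - b)
  linarith

/-- the value at a very heavy vertex -/
theorem E2_b0_large {b x : ℝ} (hb : 0.4 ≤ b) (hb1 : 2 * b < 1)
    (hx : min (2 * b / (1 - 2 * b)) 9 ≤ x) :
    (1 - b) * Real.exp (-x / 3) + 1.3957 * b ≤ 0.7228 := by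
  have h1 : 0 < 1 - 2 * b := by linarith
  rcases le_total b 0.45 with h45 | h45
  · have h2 : 2 * b / (1 - 2 * b) ≤ 9 := by
      rw [div_le_iff₀ h1]
      linarith
    rw [min_eq_left h2] at hx
    set v := 1 - 2 * b with hv
    have hbv : b = (1 - v) / 2 := by rw [hv]; ring
    have hv1 : 0.1 ≤ v := by rw [hv]; linarith
    have hv2 : v ≤ 0.2 := by rw [hv]; linarith
    have h3 : Real.exp (-x / 3) ≤ 0.2637 * (3 * v / (1 - 2 * v)) := by
      have h4 : 0 < 1 - 2 * v := by linarith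
      have h5 : (1 - 2 * v) / (3 * v) ≤ Real.exp (x / 3 - 4 / 3) := by
        refine le_trans ?_ (Real.add_one_le_exp _)
        have h6 : (1 - 2 * v) / (3 * v) = (2 * b / v) / 3 - 4 / 3 + 1 := by
          rw [hbv]
          field_simp
          ring
        rw [h6]
        linarith
      have h6 : 0 < (1 - 2 * v) / (3 * v) := by positivity
      have h7 := E2_neg h6 h5
      rw [inv_div] at h7
      have h8 : Real.exp (-x / 3) = Real.exp (-(4 / 3)) * Real.exp (-(x / 3 - 4 / 3)) := by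
        rw [← Real.exp_add]
        congr 1
        ring
      rw [h8]
      exact mul_le_mul E2_n6 h7 (Real.exp_pos _).le (by norm_num)
    have h4 := mul_le_mul_of_nonneg_left h3 (by linarith : 0 ≤ 1 - b)
    have h5 : (1 - b) * (0.2637 * (3 * v / (1 - 2 * v))) + 1.3957 * b ≤ 0.7228 := by
      have h6 : 0 < 1 - 2 * v := by linarith
      have h7 : (1 - b) * (0.2637 * (3 * v / (1 - 2 * v))) =
          (1 + v) / 2 * 0.7911 * v / (1 - 2 * v) := by
        rw [hbv]
        field_simp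
        ring
      rw [h7, ← le_sub_iff_add_le, div_le_iff₀ h6, hbv]
      nlinarith [mul_nonneg (sub_nonneg.2 hv1) (sub_nonneg.2 hv2)]
    linarith
  · have h2 : 9 ≤ 2 * b / (1 - 2 * b) := by
      rw [le_div_iff₀ h1]
      linarith
    rw [min_eq_right h2] at hx
    have h3 : Real.exp (-x / 3) ≤ 0.0498 := by
      refine le_trans (Real.exp_le_exp.2 ?_) E2_n7
      linarith
    have h4 := mul_le_mul_of_nonneg_left h3 (by linarith : 0 ≤ 1 - b)
    linarith

theorem E2_b0_mono {b b' e : ℝ} (hb : b' ≤ b) (he : e ≤ 1) :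
    (1 - b') * e + 1.3957 * b' ≤ (1 - b) * e + 1.3957 * b := by
  nlinarith

/-- the factor of a heavy vertex with `β < 0.4` -/
theorem E2_factor_small {b b' x Y D : ℝ} (hb0 : 0 ≤ b') (hb' : b' ≤ b) (hb : b < 0.4)
    (hx : 2 * b / (1 - 2 * b) ≤ x) (hD : 1.3957 * Y ≤ D + 0.11 * b') :
    Real.exp (-D) * ((1 - b') * Real.exp (-x / 3) + 1.3957 * (b' + Y)) ≤ 1 := by
  have hbn : 0 ≤ b := hb0.trans hb'
  have h1 := E2_b0_small hbn hb hx
  have hx0 : 0 ≤ x := le_trans (div_nonneg (by linarith) (by linarith)) hx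
  have he : Real.exp (-x / 3) ≤ 1 := by
    rw [Real.exp_le_one_iff]
    linarith
  have h2 : (1 - b') * Real.exp (-x / 3) + 1.3957 * b' ≤ 1 - 0.11 * b' := by
    have hx' : 2 * b' / (1 - 2 * b') ≤ x := by
      refine le_trans ?_ hx
      rw [div_le_div_iff₀ (by linarith) (by linarith)]
      nlinarith
    exact E2_b0_small hb0 (lt_of_le_of_lt hb' hb) hx'
  have h3 : (1 - b') * Real.exp (-x / 3) + 1.3957 * (b' + Y) ≤ 1 + D := by linarith
  have h4 : (1 - b') * Real.exp (-x / 3) + 1.3957 * (b' + Y) ≤ Real.exp D := by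
    have := Real.add_one_le_exp D
    linarith
  calc _ ≤ Real.exp (-D) * Real.exp D := mul_le_mul_of_nonneg_left h4 (Real.exp_pos _).le
    _ = 1 := by rw [← Real.exp_add, neg_add_cancel, Real.exp_zero]

/-- the factor of a very heavy vertex -/
theorem E2_factor_large {b b' x Y D : ℝ} (hb' : b' ≤ b) (hb : 0.4 ≤ b) (hb1 : 2 * b < 1)
    (hx : min (2 * b / (1 - 2 * b)) 9 ≤ x) (hY : 0 ≤ Y) (hD : 1.284 * Y ≤ D) :
    Real.exp (-D) * ((1 - b') * Real.exp (-x / 3) + 1.3957 * (b' + Y)) ≤ 0.778 := by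
  have h1 := E2_b0_large hb hb1 hx
  have hx0 : 0 ≤ x := by
    refine le_trans (le_min (div_nonneg (by linarith) (by linarith)) (by norm_num)) hx
  have he : Real.exp (-x / 3) ≤ 1 := by
    rw [Real.exp_le_one_iff]
    linarith
  have h2 := E2_b0_mono hb' he
  have h3 : (1 - b') * Real.exp (-x / 3) + 1.3957 * (b' + Y) ≤
      1.087 * (0.7228 / 1.087 + 1.284 * Y) := by
    have : (1.087 : ℝ) * (0.7228 / 1.087 + 1.284 * Y) = 0.7228 + 1.395708 * Y := by ring
    rw [this]
    nlinarith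
  have h4 : 0.7228 / 1.087 + 1.284 * Y ≤ Real.exp (0.7228 / 1.087 - 1 + 1.284 * Y) := by
    have := Real.add_one_le_exp (0.7228 / 1.087 - 1 + 1.284 * Y)
    linarith
  calc Real.exp (-D) * ((1 - b') * Real.exp (-x / 3) + 1.3957 * (b' + Y))
      ≤ Real.exp (-D) * (1.087 * Real.exp (0.7228 / 1.087 - 1 + 1.284 * Y)) :=
        mul_le_mul_of_nonneg_left (h3.trans (mul_le_mul_of_nonneg_left h4 (by norm_num)))
          (Real.exp_pos _).le
    _ = 1.087 * Real.exp (0.7228 / 1.087 - 1 + (1.284 * Y - D)) := by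
        rw [mul_left_comm, ← Real.exp_add]
        congr 2
        ring
    _ ≤ 1.087 * Real.exp (0.7228 / 1.087 - 1) := by
        refine mul_le_mul_of_nonneg_left (Real.exp_le_exp.2 ?_) (by norm_num)
        linarith
    _ ≤ 0.778 := E2_n9

end Pool.Agent.JR
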