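import Pool.Agent.JR.E2a
import Pool.Agent.JR.E2b

/-!
# JR, section E2: the product over the groups of edges
-/

set_option autoImplicit false

namespace Pool.Agent.JR

open Finset
open Pool.Agent.LawB (ev ins ali Law)

variable {V : Type*} [DecidableEq V]

/-- the values of section E2 -/
noncomputable def E2x (H : Finset (Finset V)) (N : ℕ) (z : V) : ℝ :=
  if 50 * td H z < N then 0.92 * xu H N z else xc H N 9 z

/-- the light vertices -/
def E2L (H : Finset (Finset V)) (N : ℕ) (W : Finset V) : Finset V :=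
  W.filter fun z => 50 * td H z < N

/-- the heavy vertices -/
def E2H (H : Finset (Finset V)) (N : ℕ) (W : Finset V) : Finset V :=
  W.filter fun z => ¬ 50 * td H z < N

theorem E2_td_lt {k N : ℕ} {H : Finset (Finset V)} (hB : Big k N H) (z : V) : td H z < N :=
  hB.deg z

theorem E2_bd_td {k N : ℕ} {H : Finset (Finset V)} (hB : Big k N H) (z : V) :
    2 * bd H z ≤ td H z := by
  unfold bd td
  rw [Finset.card_eq_sum_ones, Finset.mul_sum]
  refine Finset.sum_le_sum fun F hF => ?_
  have := hB.three F (Finset.mem_filter.1 hF).1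
  omega

theorem E2_td_bd {k N : ℕ} {H : Finset (Finset V)} (hB : Big k N H) (z : V) :
    td H z ≤ k * bd H z := by
  unfold bd td
  rw [Finset.card_eq_sum_ones, Finset.mul_sum]
  refine Finset.sum_le_sum fun F hF => ?_
  have := hB.card F (Finset.mem_filter.1 hF).1
  omega

theorem E2_sub_pos {k N : ℕ} {H : Finset (Finset V)} (hB : Big k N H) (z : V) :
    (0 : ℝ) < (N : ℝ) - td H z := by
  have : (td H z : ℝ) < N := by exact_mod_cast E2_td_lt hB z
  linarith

theorem E2_xu_nonneg {k N : ℕ} {H : Finset (Finset V)} (hB : Big k N H) (z : V) :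
    0 ≤ xu H N z := div_nonneg (Nat.cast_nonneg _) (E2_sub_pos hB z).le

theorem E2_xu_eq {k N : ℕ} {H : Finset (Finset V)} (hN : 0 < N) (hB : Big k N H) (z : V) :
    xu H N z = (td H z : ℝ) / N * (1 + xu H N z) := by
  unfold xu
  have h1 := E2_sub_pos hB z
  have h2 : (0 : ℝ) < N := by exact_mod_cast hN
  field_simp
  ring

theorem E2_xu_light {k N : ℕ} {H : Finset (Finset V)} (hB : Big k N H) {z : V}
    (hz : 50 * td H z < N) : xu H N z ≤ 1 / 49 := by
  unfold xu
  rw [div_le_div_iff₀ (E2_sub_pos hB z) (by norm_num)]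
  have : (50 * td H z : ℝ) ≤ N := by exact_mod_cast hz.le
  linarith

theorem E2x_nonneg {k N : ℕ} {H : Finset (Finset V)} (hB : Big k N H) (z : V) :
    0 ≤ E2x H N z := by
  unfold E2x xc
  split_ifs
  · exact mul_nonneg (by norm_num) (E2_xu_nonneg hB z)
  · exact le_min (E2_xu_nonneg hB z) (by norm_num)

theorem E2x_light {k N : ℕ} {H : Finset (Finset V)} (hB : Big k N H) {z : V}
    (hz : 50 * td H z < N) : E2x H N z ≤ 0.0188 := by
  unfold E2x
  rw [if_pos hz]
  have := E2_xu_light hB hz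
  linarith

theorem E2x_le {k N : ℕ} {H : Finset (Finset V)} (hB : Big k N H) (z : V) :
    E2x H N z ≤ 9 := by
  by_cases hz : 50 * td H z < N
  · exact (E2x_light hB hz).trans (by norm_num)
  · unfold E2x xc
    rw [if_neg hz]
    exact min_le_right _ _

theorem E2x_share {k N : ℕ} {H : Finset (Finset V)} (hN : 0 < N) (hB : Big k N H) {z : V}
    (hz : 50 * td H z < N) : 0.92 * ((td H z : ℝ) / N * (1 + E2x H N z)) ≤ E2x H N z := by
  have h1 := E2_xu_eq hN hB z
  have h2 : E2x H N z = 0.92 * xu H N z := by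
    unfold E2x
    rw [if_pos hz]
  have h3 := E2_xu_nonneg hB z
  have h4 : (0 : ℝ) ≤ (td H z : ℝ) / N := by positivity
  have h5 : (td H z : ℝ) / N * (1 + E2x H N z) ≤ (td H z : ℝ) / N * (1 + xu H N z) :=
    mul_le_mul_of_nonneg_left (by rw [h2]; linarith) h4
  rw [h2] at h5 ⊢
  linarith

/-- the light part of the weight of an edge -/
noncomputable def E2a (H : Finset (Finset V)) (N : ℕ) (W F : Finset V) : ℝ :=
  aw (E2L H N W) (E2x H N) F

/-- the heavy part of the weight of an edge -/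
noncomputable def E2b (H : Finset (Finset V)) (N : ℕ) (W F : Finset V) : ℝ :=
  aw (E2H H N W) (E2x H N) F

theorem E2_aw (H : Finset (Finset V)) (N : ℕ) (W F : Finset V) :
    aw W (E2x H N) F = E2b H N W F + E2a H N W F := by
  unfold E2a E2b aw E2L E2H
  have h1 : F ∩ W.filter (fun z => 50 * td H z < N) =
      (F ∩ W).filter (fun z => 50 * td H z < N) := by
    ext z
    simp only [Finset.mem_inter, Finset.mem_filter]
    tauto
  have h2 : F ∩ W.filter (fun z => ¬ 50 * td H z < N) =
      (F ∩ W).filter (fun z => ¬ 50 * td H z < N) := by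
    ext z
    simp only [Finset.mem_inter, Finset.mem_filter]
    tauto
  rw [h1, h2, add_comm]
  exact (Finset.sum_filter_add_sum_filter_not _ _ _).symm

theorem E2a_nonneg {k N : ℕ} {H : Finset (Finset V)} (hB : Big k N H) (W F : Finset V) :
    0 ≤ E2a H N W F := Finset.sum_nonneg fun z _ => by
  have := E2x_nonneg hB z
  linarith

theorem E2b_nonneg {k N : ℕ} {H : Finset (Finset V)} (hB : Big k N H) (W F : Finset V) :
    0 ≤ E2b H N W F := Finset.sum_nonneg fun z _ => by
  have := E2x_nonneg hB z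
  linarith

theorem E2a_le {k N : ℕ} {H : Finset (Finset V)} (hB : Big k N H) (W F : Finset V) :
    E2a H N W F ≤ 1.0188 * ((F ∩ E2L H N W).card : ℝ) := by
  unfold E2a aw
  have h1 : ∑ z ∈ F ∩ E2L H N W, (1 + E2x H N z) ≤ ∑ z ∈ F ∩ E2L H N W, (1.0188 : ℝ) := by
    refine Finset.sum_le_sum fun z hz => ?_
    have h2 := E2x_light hB (Finset.mem_filter.1 (Finset.mem_inter.1 hz).2).2
    linarith
  refine h1.trans (le_of_eq ?_)
  rw [Finset.sum_const, nsmul_eq_mul]
  ring

theorem E2_aw_le {k N : ℕ} {H : Finset (Finset V)} (hB : Big k N H) (W F : Finset V) :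
    aw W (E2x H N) F ≤ 10 * ((F ∩ W).card : ℝ) := by
  unfold aw
  have h1 : ∑ z ∈ F ∩ W, (1 + E2x H N z) ≤ ∑ z ∈ F ∩ W, (10 : ℝ) := by
    refine Finset.sum_le_sum fun z hz => ?_
    have h2 := E2x_le hB z
    linarith
  refine h1.trans (le_of_eq ?_)
  rw [Finset.sum_const, nsmul_eq_mul]
  ring

/-- the sums of weights over the edges at the vertices of `W` -/
theorem E2_swap (H : Finset (Finset V)) (W : Finset V) (f : Finset V → V → ℝ) :
    ∑ z ∈ W, ∑ F ∈ H.filter (fun F => z ∈ F), f F z = ∑ F ∈ H, ∑ z ∈ F ∩ W, f F z := by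
  have h1 : ∀ z ∈ W, ∑ F ∈ H.filter (fun F => z ∈ F), f F z =
      ∑ F ∈ H, if z ∈ F then f F z else 0 := fun z _ => Finset.sum_filter _ _
  have h2 : ∀ F ∈ H, ∑ z ∈ F ∩ W, f F z = ∑ z ∈ W, if z ∈ F then f F z else 0 := by
    intro F _
    rw [← Finset.sum_filter]
    refine Finset.sum_congr ?_ fun _ _ => rfl
    ext z
    simp only [Finset.mem_inter, Finset.mem_filter]
    tauto
  rw [Finset.sum_congr rfl h1, Finset.sum_congr rfl h2]
  exact Finset.sum_comm

/-- the shares of the light vertices -/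
theorem E2_shares {k N : ℕ} {H : Finset (Finset V)} (hN : 0 < N) (hB : Big k N H)
    (W : Finset V) :
    ∑ F ∈ H, 0.92 * ((F.card : ℝ) - 1) * E2a H N W F / N ≤ ∑ z ∈ E2L H N W, E2x H N z := by
  have h1 : ∑ z ∈ E2L H N W, 0.92 * ((td H z : ℝ) / N * (1 + E2x H N z)) ≤
      ∑ z ∈ E2L H N W, E2x H N z :=
    Finset.sum_le_sum fun z hz => E2x_share hN hB (Finset.mem_filter.1 hz).2
  refine le_trans (le_of_eq ?_) h1
  have h2 : ∀ z ∈ E2L H N W, 0.92 * ((td H z : ℝ) / N * (1 + E2x H N z)) =
      ∑ F ∈ H.filter (fun F => z ∈ F), 0.92 * ((F.card : ℝ) - 1) * (1 + E2x H N z) / N := by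
    intro z _
    have h3 : (td H z : ℝ) = ∑ F ∈ H.filter (fun F => z ∈ F), ((F.card : ℝ) - 1) := by
      unfold td
      rw [Nat.cast_sum]
      refine Finset.sum_congr rfl fun F hF => ?_
      have := hB.three F (Finset.mem_filter.1 hF).1
      rw [Nat.cast_sub (by omega), Nat.cast_one]
    rw [h3, Finset.sum_div, Finset.sum_mul, Finset.mul_sum]
    exact Finset.sum_congr rfl fun F _ => by ring
  rw [Finset.sum_congr rfl h2, E2_swap]
  refine Finset.sum_congr rfl fun F _ => ?_
  unfold E2a aw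
  rw [Finset.mul_sum, Finset.sum_div]

/-- the number of edges which meet `W` -/
theorem E2_meet (H : Finset (Finset V)) (N : ℕ) (W : Finset V) :
    ∑ F ∈ H, ((F ∩ W).card : ℝ) / N = load H N W := by
  unfold load
  have h1 : ∀ z ∈ W, (bd H z : ℝ) / N = ∑ F ∈ H.filter (fun F => z ∈ F), (1 : ℝ) / N := by
    intro z _
    unfold bd
    rw [Finset.sum_const, nsmul_eq_mul]
    ring
  rw [Finset.sum_congr rfl h1, E2_swap]
  refine Finset.sum_congr rfl fun F _ => ?_
  rw [Finset.sum_const, nsmul_eq_mul]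
  ring

/-- the number of heavy vertices -/
theorem E2_card {k N : ℕ} {H : Finset (Finset V)} (hN : 0 < N) (hB : Big k N H)
    {W : Finset V} {S0 : ℝ} (hS : load H N W ≤ S0) :
    ((E2H H N W).card : ℝ) ≤ 50 * k * S0 := by
  have hN' : (0 : ℝ) < N := by exact_mod_cast hN
  have h1 : ∑ z ∈ E2H H N W, (bd H z : ℝ) / N ≤ load H N W :=
    Finset.sum_le_sum_of_subset_of_nonneg (Finset.filter_subset _ _) fun z _ _ => by positivity
  have h2 : ∑ z ∈ E2H H N W, (1 : ℝ) ≤ ∑ z ∈ E2H H N W, 50 * k * ((bd H z : ℝ) / N) := by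
    refine Finset.sum_le_sum fun z hz => ?_
    have h3 := not_lt.1 (Finset.mem_filter.1 hz).2
    have h4 := E2_td_bd hB z
    have h5 : (N : ℝ) ≤ 50 * (k * bd H z) := by exact_mod_cast h3.trans (by omega)
    rw [mul_div_assoc', le_div_iff₀ hN']
    linarith
  rw [← Finset.mul_sum] at h2
  rw [Finset.sum_const, nsmul_eq_mul, mul_one] at h2
  refine h2.trans (mul_le_mul_of_nonneg_left (h1.trans hS) (by positivity))

open Classical in
/-- the label of an edge: its heavy vertex if there is exactly one -/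
noncomputable def E2g (H : Finset (Finset V)) (N : ℕ) (W F : Finset V) : V ⊕ Finset V :=
  if h : ∃ u, F ∩ E2H H N W = {u} then Sum.inl h.choose else Sum.inr F

theorem E2g_inl {H : Finset (Finset V)} {N : ℕ} {W F : Finset V} {u : V} :
    E2g H N W F = Sum.inl u ↔ F ∩ E2H H N W = {u} := by
  unfold E2g
  by_cases h : ∃ u, F ∩ E2H H N W = {u}
  · rw [dif_pos h]
    constructor
    · intro h1
      have h2 := h.choose_spec
      rwa [Sum.inl.inj h1] at h2
    · intro h1
      have h3 : ({h.choose} : Finset V) = {u} := h.choose_spec.symm.trans h1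
      exact congrArg Sum.inl (Finset.singleton_injective h3)
  · rw [dif_neg h]
    constructor
    · intro h1
      exact absurd h1 (by simp)
    · intro h1
      exact absurd ⟨u, h1⟩ h

theorem E2g_inr {H : Finset (Finset V)} {N : ℕ} {W F G : Finset V} :
    E2g H N W F = Sum.inr G ↔ (¬ ∃ u, F ∩ E2H H N W = {u}) ∧ F = G := by
  unfold E2g
  by_cases h : ∃ u, F ∩ E2H H N W = {u}
  · rw [dif_pos h]
    constructor
    · intro h1
      exact absurd h1 (by simp)
    · intro h1
      exact absurd h h1.1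
  · rw [dif_neg h]
    constructor
    · intro h1
      exact ⟨h, Sum.inr.inj h1⟩
    · rintro ⟨-, rfl⟩
      rfl

theorem E2g_disj {H : Finset (Finset V)} {N : ℕ} {W : Finset V} :
    ∀ F ∈ H, ∀ G ∈ H, F ≠ G → E2g H N W F = E2g H N W G → ¬ Disjoint F G := by
  intro F _ G _ hne hg hd
  rcases hG : E2g H N W G with u | G'
  · have h1 := E2g_inl.1 (hg.trans hG)
    have h2 := E2g_inl.1 hG
    have h3 : u ∈ F := (Finset.mem_inter.1 (h1 ▸ Finset.mem_singleton_self u)).1
    have h4 : u ∈ G := (Finset.mem_inter.1 (h2 ▸ Finset.mem_singleton_self u)).1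
    exact (Finset.disjoint_left.1 hd h3) h4
  · have h1 := (E2g_inr.1 (hg.trans hG)).2
    have h2 := (E2g_inr.1 hG).2
    exact hne (h1.trans h2.symm)

/-- the left over share of an edge -/
noncomputable def E2la (H : Finset (Finset V)) (N : ℕ) (W F : Finset V) : ℝ :=
  if F ∩ E2H H N W = ∅ then E2lo 12.9 F.card (E2a H N W F) else E2lo 18 F.card (E2a H N W F)

/-- the exponent weight of an edge -/
noncomputable def E2c (H : Finset (Finset V)) (N : ℕ) (W F : Finset V) : ℝ :=
  Real.exp ((E2b H N W F + min (E2a H N W F) 5) / 3) - 1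

theorem E2c_nonneg {k N : ℕ} {H : Finset (Finset V)} (hB : Big k N H) (W F : Finset V) :
    0 ≤ E2c H N W F := by
  unfold E2c
  rw [sub_nonneg, Real.one_le_exp_iff]
  have h1 := E2a_nonneg hB W F
  have h2 := E2b_nonneg hB W F
  have h3 : 0 ≤ min (E2a H N W F) 5 := le_min h1 (by norm_num)
  positivity

theorem E2c_le {k N : ℕ} {H : Finset (Finset V)} (hB : Big k N H) (W : Finset V)
    {F : Finset V} (hF : F ∈ H) :
    E2c H N W F ≤ Real.exp (10 * k / 3) * ((F ∩ W).card : ℝ) := by
  have h1 := E2_aw_le hB W F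
  rw [E2_aw] at h1
  have h2 : E2b H N W F + min (E2a H N W F) 5 ≤ 10 * ((F ∩ W).card : ℝ) :=
    le_trans (add_le_add_right (min_le_left _ _) _) h1
  rcases Nat.eq_zero_or_pos (F ∩ W).card with h0 | h0
  · rw [h0] at h2 ⊢
    unfold E2c
    rw [Nat.cast_zero, mul_zero] at h2 ⊢
    rw [sub_nonpos, Real.exp_le_one_iff]
    linarith
  · have h3 : (1 : ℝ) ≤ ((F ∩ W).card : ℝ) := by exact_mod_cast h0
    have h4 : ((F ∩ W).card : ℝ) ≤ k := by
      exact_mod_cast (Finset.card_le_card Finset.inter_subset_left).trans (hB.card F hF)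
    have h5 : E2c H N W F ≤ Real.exp (10 * k / 3) := by
      unfold E2c
      have h6 : Real.exp ((E2b H N W F + min (E2a H N W F) 5) / 3) ≤ Real.exp (10 * k / 3) :=
        Real.exp_le_exp.2 (by linarith)
      linarith
    have h6 := Real.exp_pos (10 * (k : ℝ) / 3)
    nlinarith

theorem E2_card_light (H : Finset (Finset V)) (N : ℕ) (W F : Finset V) :
    (F ∩ E2L H N W).card + (F ∩ E2H H N W).card ≤ F.card := by
  rw [← Finset.card_union_of_disjoint]
  · exact Finset.card_le_card (Finset.union_subset Finset.inter_subset_left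
      Finset.inter_subset_left)
  · rw [Finset.disjoint_left]
    intro z h1 h2
    have h3 := (Finset.mem_filter.1 (Finset.mem_inter.1 h1).2).2
    have h4 := (Finset.mem_filter.1 (Finset.mem_inter.1 h2).2).2
    exact h4 h3

theorem E2a_le_card {k N : ℕ} {H : Finset (Finset V)} (hB : Big k N H) (W F : Finset V) :
    E2a H N W F ≤ 1.0188 * (F.card : ℝ) := by
  refine (E2a_le hB W F).trans (mul_le_mul_of_nonneg_left ?_ (by norm_num))
  exact_mod_cast Finset.card_le_card Finset.inter_subset_left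

theorem E2a_le_card' {k N : ℕ} {H : Finset (Finset V)} (hB : Big k N H) {W F : Finset V}
    (h : F ∩ E2H H N W ≠ ∅) : E2a H N W F ≤ 1.0188 * ((F.card : ℝ) - 1) := by
  refine (E2a_le hB W F).trans (mul_le_mul_of_nonneg_left ?_ (by norm_num))
  have h1 := E2_card_light H N W F
  have h2 := Finset.card_pos.2 (Finset.nonempty_iff_ne_empty.2 h)
  have h3 : (F ∩ E2L H N W).card + 1 ≤ F.card := by omega
  have h4 : ((F ∩ E2L H N W).card : ℝ) + 1 ≤ F.card := by exact_mod_cast h3
  linarith

/-- the left over shares are large -/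
theorem E2la_ge {k N : ℕ} {H : Finset (Finset V)} (hB : Big k N H) (W F : Finset V) :
    10 * (E2a H N W F - min (E2a H N W F) 5) ≤ E2la H N W F ∧
      0.9 * (E2a H N W F - min (E2a H N W F) 5) ^ 2 ≤ E2la H N W F := by
  unfold E2la
  by_cases h : F ∩ E2H H N W = ∅
  · rw [if_pos h]
    exact E2_lo_light (E2a_nonneg hB W F) (E2a_le_card hB W F)
  · rw [if_neg h]
    exact E2_lo_heavy (E2a_nonneg hB W F) (E2a_le_card' hB h)

theorem E2la_nonneg {k N : ℕ} {H : Finset (Finset V)} (hB : Big k N H) (W F : Finset V) :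
    0 ≤ E2la H N W F :=
  le_trans (mul_nonneg (by norm_num) (sq_nonneg _)) (E2la_ge hB W F).2

theorem E2la_le {k N : ℕ} {H : Finset (Finset V)} (hB : Big k N H) (W : Finset V)
    {F : Finset V} (hF : F ∈ H) :
    E2la H N W F ≤ 0.92 * ((F.card : ℝ) - 1) * E2a H N W F := by
  have h1 : (3 : ℝ) ≤ F.card := by exact_mod_cast hB.three F hF
  have h2 := E2a_nonneg hB W F
  have h3 : 0 ≤ 0.92 * ((F.card : ℝ) - 1) * E2a H N W F :=
    mul_nonneg (by linarith) h2
  unfold E2la E2lo
  split_ifs <;> linarith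

/-- edges without heavy vertices -/
theorem E2c_light {k N : ℕ} {H : Finset (Finset V)} (hB : Big k N H) (W : Finset V)
    {F : Finset V} (hF : F ∈ H) (h : F ∩ E2H H N W = ∅) :
    E2c H N W F ≤ (0.92 * ((F.card : ℝ) - 1) * E2a H N W F - E2la H N W F) / 3 := by
  have h1 : E2b H N W F = 0 := by
    unfold E2b aw
    rw [h, Finset.sum_empty]
  unfold E2c E2la
  rw [h1, zero_add, if_pos h]
  exact E2_light (hB.three F hF) (E2a_nonneg hB W F) (E2a_le_card hB W F)

/-- the number of edges with two heavy vertices -/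
theorem E2_bad {k N : ℕ} {H : Finset (Finset V)} (hB : Big k N H) (W : Finset V) :
    (H.filter fun F => 2 ≤ (F ∩ E2H H N W).card).card ≤ 2 ^ (E2H H N W).card := by
  rw [← Finset.card_powerset]
  refine Finset.card_le_card_of_injOn (fun F => F ∩ E2H H N W) (fun F _ =>
    Finset.mem_coe.2 (Finset.mem_powerset.2 Finset.inter_subset_right)) ?_
  intro F hF G hG hFG
  rw [Finset.mem_coe, Finset.mem_filter] at hF hG
  by_contra hne
  have h1 := hB.lin F hF.1 G hG.1 hne
  have h2 : F ∩ E2H H N W ⊆ F ∩ G := by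
    intro z hz
    have h3 : z ∈ G ∩ E2H H N W := by
      have : F ∩ E2H H N W = G ∩ E2H H N W := hFG
      rwa [← this]
    exact Finset.mem_inter.2 ⟨(Finset.mem_inter.1 hz).1, (Finset.mem_inter.1 h3).1⟩
  have h3 := Finset.card_le_card h2
  omega

end Pool.Agent.JR
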