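import Pool.Agent.JR.E2c

/-!
# JR, section E2: the bound for the exponential moment
-/

set_option autoImplicit false

namespace Pool.Agent.JR

open Finset
open Pool.Agent.LawB (ev ins ali Law)

theorem E2_prod_le_exp {V ι : Type*} [Fintype ι] [DecidableEq ι] (g : Finset V → ι)
    (d : Finset V → ℝ) (H : Finset (Finset V)) (hd : ∀ F ∈ H, 0 ≤ d F) :
    ∏ i : ι, (1 + ∑ F ∈ H.filter (fun F => g F = i), d F) ≤ Real.exp (∑ F ∈ H, d F) := by
  have h1 : ∑ F ∈ H, d F = ∑ i : ι, ∑ F ∈ H.filter (fun F => g F = i), d F :=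
    (Finset.sum_fiberwise H g d).symm
  rw [h1, Real.exp_sum]
  refine Finset.prod_le_prod (fun i _ => ?_) fun i _ => ?_
  · have : 0 ≤ ∑ F ∈ H.filter (fun F => g F = i), d F :=
      Finset.sum_nonneg fun F hF => hd F (Finset.mem_filter.1 hF).1
    linarith
  · rw [add_comm]
    exact Real.add_one_le_exp _

variable {V : Type*} [DecidableEq V]

/-- `β` at a heavy vertex -/
theorem E2x_heavy {k N : ℕ} {H : Finset (Finset V)} (hN : 0 < N) (hB : Big k N H) {u : V}
    (hu : ¬ 50 * td H u < N) :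
    min (2 * ((bd H u : ℝ) / N) / (1 - 2 * ((bd H u : ℝ) / N))) 9 ≤ E2x H N u := by
  have hN' : (0 : ℝ) < N := by exact_mod_cast hN
  unfold E2x xc
  rw [if_neg hu]
  refine min_le_min ?_ le_rfl
  unfold xu
  have h1 : (2 * bd H u : ℝ) ≤ td H u := by exact_mod_cast E2_bd_td hB u
  have h2 := E2_sub_pos hB u
  have h3 : 2 * ((bd H u : ℝ) / N) / (1 - 2 * ((bd H u : ℝ) / N)) =
      (2 * bd H u : ℝ) / ((N : ℝ) - 2 * bd H u) := by
    have h4 : (N : ℝ) - 2 * bd H u ≠ 0 := by linarith
    field_simp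
  rw [h3, div_le_div_iff₀ (by linarith) h2]
  nlinarith

theorem E2_beta {k N : ℕ} {H : Finset (Finset V)} (hN : 0 < N) (hB : Big k N H) (u : V) :
    2 * ((bd H u : ℝ) / N) < 1 := by
  have hN' : (0 : ℝ) < N := by exact_mod_cast hN
  have h1 : (2 * bd H u : ℝ) ≤ td H u := by exact_mod_cast E2_bd_td hB u
  have h2 := E2_sub_pos hB u
  rw [mul_div_assoc', div_lt_one hN']
  linarith

/-- the share of an edge without the left over part -/
noncomputable def E2s (H : Finset (Finset V)) (N : ℕ) (W F : Finset V) : ℝ :=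
  (0.92 * ((F.card : ℝ) - 1) * E2a H N W F - E2la H N W F) / 3

theorem E2s_nonneg {k N : ℕ} {H : Finset (Finset V)} (hB : Big k N H) (W : Finset V)
    {F : Finset V} (hF : F ∈ H) : 0 ≤ E2s H N W F := by
  have := E2la_le hB W hF
  unfold E2s
  linarith

open Classical in
/-- the factor of a heavy vertex -/
theorem E2_factor {k N : ℕ} {H : Finset (Finset V)} (hN : 0 < N) (hB : Big k N H)
    (W : Finset V) {u : V} (hu : u ∈ E2H H N W) :
    1 + ∑ F ∈ H.filter (fun F => F ∩ E2H H N W = {u}), E2c H N W F / N ≤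
      (if vh H N u then 0.778 else 1) * Real.exp (E2x H N u / 3 +
        ∑ F ∈ H.filter (fun F => F ∩ E2H H N W = {u}), E2s H N W F / N) := by
  have hN' : (0 : ℝ) < N := by exact_mod_cast hN
  set Hs := H.filter (fun F => F ∩ E2H H N W = {u}) with hHs
  set x := E2x H N u with hx
  set b : ℝ := (bd H u : ℝ) / N with hb
  set b' : ℝ := (Hs.card : ℝ) / N with hb'
  set Y : ℝ := ∑ F ∈ Hs, (Real.exp (min (E2a H N W F) 5 / 3) - 1) / N with hY
  set D : ℝ := ∑ F ∈ Hs, E2s H N W F / N with hD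
  have hmem : ∀ F ∈ Hs, F ∈ H ∧ F ∩ E2H H N W = {u} := fun F hF => Finset.mem_filter.1 hF
  have hne : ∀ F ∈ Hs, F ∩ E2H H N W ≠ ∅ := fun F hF => by
    rw [(hmem F hF).2]
    exact Finset.singleton_ne_empty u
  have hb'b : b' ≤ b := by
    rw [hb, hb']
    refine div_le_div_of_nonneg_right ?_ hN'.le
    have h1 : Hs ⊆ H.filter (fun F => u ∈ F) := by
      intro F hF
      rw [Finset.mem_filter]
      refine ⟨(hmem F hF).1, ?_⟩
      have h2 : u ∈ F ∩ E2H H N W := by
        rw [(hmem F hF).2]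
        exact Finset.mem_singleton_self u
      exact (Finset.mem_inter.1 h2).1
    exact_mod_cast Finset.card_le_card h1
  have hb'0 : 0 ≤ b' := by positivity
  have hY0 : 0 ≤ Y := by
    refine Finset.sum_nonneg fun F _ => div_nonneg ?_ hN'.le
    have h1 : 0 ≤ min (E2a H N W F) 5 := le_min (E2a_nonneg hB W F) (by norm_num)
    have := Real.add_one_le_exp (min (E2a H N W F) 5 / 3)
    linarith
  have hkey : ∀ F ∈ Hs, 1.284 * (Real.exp (min (E2a H N W F) 5 / 3) - 1) ≤ E2s H N W F ∧
      1.3957 * (Real.exp (min (E2a H N W F) 5 / 3) - 1) ≤ E2s H N W F + 0.11 := by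
    intro F hF
    have h1 := E2_heavy (hB.three F (hmem F hF).1) (E2a_nonneg hB W F)
      (E2a_le_card' hB (hne F hF))
    unfold E2s E2la
    rw [if_neg (hne F hF)]
    exact h1
  have hA : 1.284 * Y ≤ D := by
    rw [hY, hD, Finset.mul_sum]
    refine Finset.sum_le_sum fun F hF => ?_
    rw [mul_div_assoc']
    exact div_le_div_of_nonneg_right (hkey F hF).1 hN'.le
  have hC : 1.3957 * Y ≤ D + 0.11 * b' := by
    have h1 : 0.11 * b' = ∑ F ∈ Hs, (0.11 : ℝ) / N := by
      rw [Finset.sum_const, nsmul_eq_mul, hb']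
      ring
    rw [h1, hY, hD, Finset.mul_sum, ← Finset.sum_add_distrib]
    refine Finset.sum_le_sum fun F hF => ?_
    rw [mul_div_assoc', ← add_div]
    exact div_le_div_of_nonneg_right (hkey F hF).2 hN'.le
  have hxm := E2x_heavy hN hB (Finset.mem_filter.1 hu).2
  rw [← hb, ← hx] at hxm
  have h2b := E2_beta hN hB u
  rw [← hb] at h2b
  have hc : ∀ F ∈ Hs, E2c H N W F / N = Real.exp (x / 3) * (Real.exp (1 / 3) *
      ((Real.exp (min (E2a H N W F) 5 / 3) - 1) / N)) +
      (Real.exp (x / 3) * Real.exp (1 / 3) - 1) / N := by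
    intro F hF
    have h1 : E2b H N W F = 1 + x := by
      unfold E2b aw
      rw [(hmem F hF).2, Finset.sum_singleton]
    have h2 : Real.exp ((1 + x + min (E2a H N W F) 5) / 3) =
        Real.exp (x / 3) * Real.exp (1 / 3) * Real.exp (min (E2a H N W F) 5 / 3) := by
      rw [← Real.exp_add, ← Real.exp_add]
      congr 1
      ring
    unfold E2c
    rw [h1, h2]
    ring
  have hsum : 1 + ∑ F ∈ Hs, E2c H N W F / N =
      Real.exp (x / 3) * ((1 - b') * Real.exp (-x / 3) + Real.exp (1 / 3) * (b' + Y)) := by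
    rw [Finset.sum_congr rfl hc, Finset.sum_add_distrib, ← Finset.mul_sum, ← Finset.mul_sum,
      ← hY, Finset.sum_const, nsmul_eq_mul]
    have h1 : Real.exp (x / 3) * Real.exp (-x / 3) = 1 := by
      rw [← Real.exp_add]
      have : x / 3 + -x / 3 = 0 := by ring
      rw [this, Real.exp_zero]
    have h2 : (Hs.card : ℝ) * ((Real.exp (x / 3) * Real.exp (1 / 3) - 1) / N) =
        b' * (Real.exp (x / 3) * Real.exp (1 / 3) - 1) := by
      rw [hb']
      ring
    rw [h2]
    linear_combination (b' - 1) * h1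
  have hfin : (1 - b') * Real.exp (-x / 3) + Real.exp (1 / 3) * (b' + Y) ≤
      (1 - b') * Real.exp (-x / 3) + 1.3957 * (b' + Y) := by
    have := mul_le_mul_of_nonneg_right E2_n1 (add_nonneg hb'0 hY0)
    linarith
  have hgam : Real.exp (-D) * ((1 - b') * Real.exp (-x / 3) + 1.3957 * (b' + Y)) ≤
      (if vh H N u then 0.778 else 1) := by
    by_cases hv : vh H N u
    · rw [if_pos hv]
      refine E2_factor_large hb'b ?_ h2b hxm hY0 hA
      rw [hb, le_div_iff₀ hN']
      have h1 : 2 * N ≤ 5 * bd H u := hv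
      have h2 : (2 * N : ℝ) ≤ 5 * bd H u := by exact_mod_cast h1
      linarith
    · rw [if_neg hv]
      have h1 : b < 0.4 := by
        rw [hb, div_lt_iff₀ hN']
        have h1 : ¬ 2 * N ≤ 5 * bd H u := hv
        have h2 : (5 * bd H u : ℝ) < 2 * N := by exact_mod_cast not_le.1 h1
        linarith
      refine E2_factor_small hb'0 hb'b h1 ?_ hC
      refine le_trans ?_ hxm
      refine le_min le_rfl ?_
      rw [div_le_iff₀ (by linarith)]
      linarith
  rw [hsum, Real.exp_add, mul_left_comm]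
  refine mul_le_mul_of_nonneg_left (hfin.trans ?_) (Real.exp_pos _).le
  rw [Real.exp_neg, inv_mul_le_iff₀ (Real.exp_pos _)] at hgam
  exact hgam.trans (le_of_eq (mul_comm _ _))

open Classical in
/-- the partition of the edges -/
theorem E2_part [Fintype V] (H : Finset (Finset V)) (N : ℕ) (W : Finset V)
    (f : Finset V → ℝ) :
    ∑ u ∈ E2H H N W, ∑ F ∈ H.filter (fun F => F ∩ E2H H N W = {u}), f F +
      ∑ F ∈ H.filter (fun F => ¬ ∃ u, F ∩ E2H H N W = {u}), f F = ∑ F ∈ H, f F := by
  have h1 : ∑ u ∈ E2H H N W, ∑ F ∈ H.filter (fun F => F ∩ E2H H N W = {u}), f F =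
      ∑ F ∈ H, ∑ u ∈ E2H H N W, if F ∩ E2H H N W = {u} then f F else 0 := by
    rw [Finset.sum_comm]
    exact Finset.sum_congr rfl fun u _ => Finset.sum_filter _ _
  rw [h1, Finset.sum_filter, ← Finset.sum_add_distrib]
  refine Finset.sum_congr rfl fun F _ => ?_
  by_cases h : ∃ u, F ∩ E2H H N W = {u}
  · rw [if_neg (not_not.2 h), add_zero]
    obtain ⟨u, hu⟩ := h
    have hmem : u ∈ E2H H N W := by
      have : u ∈ F ∩ E2H H N W := hu ▸ Finset.mem_singleton_self u
      exact (Finset.mem_inter.1 this).2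
    rw [Finset.sum_eq_single u]
    · rw [if_pos hu]
    · intro v _ hv
      refine if_neg fun h => hv ?_
      rw [hu] at h
      exact (Finset.singleton_injective h).symm
    · intro h
      exact absurd hmem h
  · rw [if_pos h]
    rw [Finset.sum_eq_zero, zero_add]
    intro u _
    exact if_neg fun hu => h ⟨u, hu⟩

open Classical in
/-- the product over all groups -/
theorem E2_total [Fintype V] {k N : ℕ} {H : Finset (Finset V)} (hN : 0 < N) (hB : Big k N H)
    {W : Finset V} {u₁ u₂ : V} (h1 : u₁ ∈ W) (h2 : u₂ ∈ W) (h12 : u₁ ≠ u₂) (hv1 : vh H N u₁)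
    (hv2 : vh H N u₂) {m : ℕ} (hm : (E2H H N W).card ≤ m) :
    ∏ i : V ⊕ Finset V, (1 + ∑ F ∈ H.filter (fun F => E2g H N W F = i), E2c H N W F / N) ≤
      0.778 ^ 2 * Real.exp ((∑ z ∈ W, E2x H N z - ∑ F ∈ H, E2la H N W F / N) / 3 +
        2 ^ m * (Real.exp (10 * k / 3) * k) / N) := by
  have hN' : (0 : ℝ) < N := by exact_mod_cast hN
  have hheavy : ∀ u ∈ W, vh H N u → u ∈ E2H H N W := by
    intro u hu hv
    refine Finset.mem_filter.2 ⟨hu, ?_⟩
    have h3 : 2 * N ≤ 5 * bd H u := hv
    have h4 := E2_bd_td hB u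
    omega
  rw [Fintype.prod_sum_type]
  -- the heavy vertices
  have hfirst : ∏ u : V, (1 + ∑ F ∈ H.filter (fun F => E2g H N W F = Sum.inl u),
      E2c H N W F / N) ≤ 0.778 ^ 2 * Real.exp (∑ u ∈ E2H H N W, (E2x H N u / 3 +
        ∑ F ∈ H.filter (fun F => F ∩ E2H H N W = {u}), E2s H N W F / N)) := by
    have h3 : ∀ u : V, H.filter (fun F => E2g H N W F = Sum.inl u) =
        H.filter (fun F => F ∩ E2H H N W = {u}) := by
      intro u
      refine Finset.filter_congr fun F _ => E2g_inl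
    have h4 : ∏ u : V, (1 + ∑ F ∈ H.filter (fun F => E2g H N W F = Sum.inl u),
        E2c H N W F / N) = ∏ u ∈ E2H H N W, (1 + ∑ F ∈ H.filter
        (fun F => F ∩ E2H H N W = {u}), E2c H N W F / N) := by
      rw [Finset.prod_congr rfl fun u _ => by rw [h3 u]]
      symm
      refine Finset.prod_subset (Finset.subset_univ _) fun u _ hu => ?_
      have h5 : H.filter (fun F => F ∩ E2H H N W = {u}) = ∅ := by
        rw [Finset.filter_eq_empty_iff]
        intro F _ h6
        apply hu
        have : u ∈ F ∩ E2H H N W := h6 ▸ Finset.mem_singleton_self u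
        exact (Finset.mem_inter.1 this).2
      rw [h5, Finset.sum_empty, add_zero]
    rw [h4]
    have h5 : ∏ u ∈ E2H H N W, (1 + ∑ F ∈ H.filter (fun F => F ∩ E2H H N W = {u}),
        E2c H N W F / N) ≤ ∏ u ∈ E2H H N W, ((if vh H N u then (0.778 : ℝ) else 1) *
          Real.exp (E2x H N u / 3 +
            ∑ F ∈ H.filter (fun F => F ∩ E2H H N W = {u}), E2s H N W F / N)) := by
      refine Finset.prod_le_prod (fun u _ => ?_) fun u hu => E2_factor hN hB W hu
      have : 0 ≤ ∑ F ∈ H.filter (fun F => F ∩ E2H H N W = {u}), E2c H N W F / N :=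
        Finset.sum_nonneg fun F _ => div_nonneg (E2c_nonneg hB W F) hN'.le
      linarith
    refine h5.trans ?_
    rw [Finset.prod_mul_distrib, ← Real.exp_sum]
    refine mul_le_mul_of_nonneg_right ?_ (Real.exp_pos _).le
    have h6 := hheavy u₁ h1 hv1
    have h7 : u₂ ∈ (E2H H N W).erase u₁ :=
      Finset.mem_erase.2 ⟨h12.symm, hheavy u₂ h2 hv2⟩
    rw [← Finset.mul_prod_erase _ _ h6, ← Finset.mul_prod_erase _ _ h7, if_pos hv1,
      if_pos hv2]
    have h8 : ∏ u ∈ ((E2H H N W).erase u₁).erase u₂, (if vh H N u then (0.778 : ℝ) else 1) ≤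
        1 := by
      refine Finset.prod_le_one (fun u _ => ?_) fun u _ => ?_
      · split_ifs <;> norm_num
      · split_ifs <;> norm_num
    nlinarith
  -- the other edges
  have hsecond : ∏ G : Finset V, (1 + ∑ F ∈ H.filter (fun F => E2g H N W F = Sum.inr G),
      E2c H N W F / N) ≤ Real.exp (∑ F ∈ H.filter (fun F => ¬ ∃ u, F ∩ E2H H N W = {u}),
        E2s H N W F / N + 2 ^ m * (Real.exp (10 * k / 3) * k) / N) := by
    have h3 : ∀ G : Finset V, H.filter (fun F => E2g H N W F = Sum.inr G) =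
        (H.filter (fun F => ¬ ∃ u, F ∩ E2H H N W = {u})).filter (fun F => id F = G) := by
      intro G
      rw [Finset.filter_filter]
      refine Finset.filter_congr fun F _ => E2g_inr
    rw [Finset.prod_congr rfl fun G _ => by rw [h3 G]]
    refine (E2_prod_le_exp id (fun F => E2c H N W F / N) _ fun F _ =>
      div_nonneg (E2c_nonneg hB W F) hN'.le).trans ?_
    rw [Real.exp_le_exp]
    set Hr := H.filter (fun F => ¬ ∃ u, F ∩ E2H H N W = {u}) with hHr
    set C₀ : ℝ := Real.exp (10 * k / 3) * k with hC₀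
    have hC₀' : 0 ≤ C₀ := by positivity
    have h4 : ∀ F ∈ Hr, E2c H N W F / N ≤ E2s H N W F / N +
        (if 2 ≤ (F ∩ E2H H N W).card then C₀ / N else 0) := by
      intro F hF
      rw [hHr, Finset.mem_filter] at hF
      obtain ⟨hFH, hFu⟩ := hF
      by_cases h5 : F ∩ E2H H N W = ∅
      · have h6 : ¬ 2 ≤ (F ∩ E2H H N W).card := by
          rw [h5, Finset.card_empty]
          omega
        rw [if_neg h6, add_zero]
        exact div_le_div_of_nonneg_right (E2c_light hB W hFH h5) hN'.le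
      · have h6 : 2 ≤ (F ∩ E2H H N W).card := by
          by_contra h7
          have h8 : (F ∩ E2H H N W).card ≠ 0 := by
            rwa [Ne, Finset.card_eq_zero]
          have h9 : (F ∩ E2H H N W).card = 1 := by omega
          exact hFu (Finset.card_eq_one.1 h9)
        rw [if_pos h6, ← add_div]
        refine div_le_div_of_nonneg_right ?_ hN'.le
        have h7 := E2s_nonneg hB W hFH
        have h8 := E2c_le hB W hFH
        have h9 : ((F ∩ W).card : ℝ) ≤ k := by
          exact_mod_cast (Finset.card_le_card Finset.inter_subset_left).trans (hB.card F hFH)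
        have h10 := mul_le_mul_of_nonneg_left h9 (Real.exp_pos (10 * (k : ℝ) / 3)).le
        linarith
    refine (Finset.sum_le_sum h4).trans ?_
    rw [Finset.sum_add_distrib]
    refine add_le_add_right ?_ _
    have hC₁ : 2 ^ m * C₀ / N = 2 ^ m * (C₀ / N) := mul_div_assoc _ _ _
    rw [← Finset.sum_filter, Finset.sum_const, nsmul_eq_mul, hC₁]
    refine mul_le_mul_of_nonneg_right ?_ (div_nonneg hC₀' hN'.le)
    have h5 : (Hr.filter fun F => 2 ≤ (F ∩ E2H H N W).card).card ≤ 2 ^ m := by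
      have h6 : Hr.filter (fun F => 2 ≤ (F ∩ E2H H N W).card) ⊆
          H.filter (fun F => 2 ≤ (F ∩ E2H H N W).card) :=
        Finset.filter_subset_filter _ (Finset.filter_subset _ _)
      exact (Finset.card_le_card h6).trans ((E2_bad hB W).trans
        (Nat.pow_le_pow_right (by norm_num) hm))
    exact_mod_cast h5
  have hpos : 0 ≤ ∏ G : Finset V, (1 + ∑ F ∈ H.filter (fun F => E2g H N W F = Sum.inr G),
      E2c H N W F / N) := by
    refine Finset.prod_nonneg fun G _ => ?_
    have : 0 ≤ ∑ F ∈ H.filter (fun F => E2g H N W F = Sum.inr G), E2c H N W F / N :=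
      Finset.sum_nonneg fun F _ => div_nonneg (E2c_nonneg hB W F) hN'.le
    linarith
  refine (mul_le_mul hfirst hsecond hpos (by positivity)).trans ?_
  rw [mul_assoc, ← Real.exp_add]
  refine mul_le_mul_of_nonneg_left (Real.exp_le_exp.2 ?_) (by norm_num)
  have h3 := E2_part H N W (fun F => E2s H N W F / N)
  rw [Finset.sum_add_distrib]
  have h4 : ∑ F ∈ H, E2s H N W F / N =
      (∑ F ∈ H, 0.92 * ((F.card : ℝ) - 1) * E2a H N W F / N -
        ∑ F ∈ H, E2la H N W F / N) / 3 := by
    rw [← Finset.sum_sub_distrib, Finset.sum_div]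
    refine Finset.sum_congr rfl fun F _ => ?_
    unfold E2s
    ring
  have h5 := E2_shares hN hB W
  have h6 : ∑ z ∈ W, E2x H N z = ∑ z ∈ E2L H N W, E2x H N z + ∑ z ∈ E2H H N W, E2x H N z := by
    unfold E2L E2H
    exact (Finset.sum_filter_add_sum_filter_not _ _ _).symm
  have h7 : ∑ u ∈ E2H H N W, E2x H N u / 3 = (∑ u ∈ E2H H N W, E2x H N u) / 3 :=
    (Finset.sum_div _ _ _).symm
  rw [h7]
  linarith

end Pool.Agent.JR
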