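import Mathlib.Tactic
import Mathlib.Data.Real.Basic

/-!
# JR: the numeric inequality of case E3 (one very heavy vertex)
-/

namespace Pool.Agent.JR

/-- the polynomial core, with `y = 9/4`; `r = 1 - 2b` -/
lemma e3_core {ε r m g q f : ℝ} (hr : 0 ≤ r) (hf : f ≤ 19 / 20 * m * g)
    (hP : (1 - r ^ 2) * ((17 / 4 - m) ^ 2 + 19 / 5 * m) / 18
      + (2 * r * (17 / 4 - m) + 2041 / 1000) ^ 2 / 72 + (1 + r) ^ 2 * (19 / 40) * m * g
      ≤ (1 - ε) * (1 + r)) :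
    (1 + r) / 2 * f + (1 - r) / 2 * (((2 - m + r * q + 9 / 4) ^ 2 + 19 / 5 * m
      + q * (2041 / 1000 - q)) / (4 * (9 / 4))) ≤ 1 - ε := by
  have h1 : 0 ≤ ((1 - r ^ 2) * q - (2 * r * (17 / 4 - m) + 2041 / 1000) / 2) ^ 2 := sq_nonneg _
  have h2 : (1 + r) * ((1 + r) / 2 * f + (1 - r) / 2 * (((2 - m + r * q + 9 / 4) ^ 2 + 19 / 5 * m
      + q * (2041 / 1000 - q)) / (4 * (9 / 4)))) ≤ (1 + r) * (1 - ε) := by
    have h3 : (1 + r) ^ 2 / 2 * f ≤ (1 + r) ^ 2 / 2 * (19 / 20 * m * g) :=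
      mul_le_mul_of_nonneg_left hf (by positivity)
    nlinarith [h1, h3, hP]
  exact le_of_mul_le_mul_left h2 (by linarith)

/-- the left side of the core inequality -/
noncomputable def e3P (r m g : ℝ) : ℝ := (1 - r ^ 2) * ((17 / 4 - m) ^ 2 + 19 / 5 * m) / 18
      + (2 * r * (17 / 4 - m) + 2041 / 1000) ^ 2 / 72 + (1 + r) ^ 2 * (19 / 40) * m * g

/-- it is convex in `m` -/
lemma e3P_conv {r m g m0 m1 a : ℝ} (h : m0 < m1) (h0 : m0 ≤ m) (h1 : m ≤ m1)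
    (ha : e3P r m0 g ≤ a) (hb : e3P r m1 g ≤ a) : e3P r m g ≤ a := by
  unfold e3P at *
  have k0 := mul_le_mul_of_nonneg_left ha (sub_nonneg.2 h1)
  have k1 := mul_le_mul_of_nonneg_left hb (sub_nonneg.2 h0)
  have k2 := mul_nonneg (mul_nonneg (sub_nonneg.2 h0) (sub_nonneg.2 h1)) (sub_nonneg.2 h.le)
  refine le_of_mul_le_mul_left ?_ (sub_pos.2 h)
  nlinarith [k0, k1, k2]

/-- region 1: `.4 ≤ b ≤ .43` -/
lemma e3P_R1 {r m : ℝ} (hr : 7 / 50 ≤ r) (hr2 : r ≤ 1 / 5) (hm : 0 ≤ m) (hm1 : m ≤ 1) :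
    e3P r m (233 / 100 * r - 1313 / 10000) ≤ (1 - 4 / 1000) * (1 + r) := by
  apply e3P_conv (zero_lt_one) hm hm1
  · unfold e3P
    nlinarith [mul_nonneg (sub_nonneg.2 hr) (sub_nonneg.2 hr2),
      mul_nonneg (mul_nonneg (sub_nonneg.2 hr) (sub_nonneg.2 hr2)) (sub_nonneg.2 hr)]
  · unfold e3P
    nlinarith [mul_nonneg (sub_nonneg.2 hr) (sub_nonneg.2 hr2),
      mul_nonneg (mul_nonneg (sub_nonneg.2 hr) (sub_nonneg.2 hr2)) (sub_nonneg.2 hr)]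

/-- region 1 with the better constant, `m ≥ .05` -/
lemma e3P_R1' {r m : ℝ} (hr : 7 / 50 ≤ r) (hr2 : r ≤ 1 / 5) (hm : 1 / 20 ≤ m) (hm1 : m ≤ 1) :
    e3P r m (233 / 100 * r - 1313 / 10000) ≤ (1 - 14 / 1000) * (1 + r) := by
  apply e3P_conv (by norm_num) hm hm1
  · unfold e3P
    nlinarith [mul_nonneg (sub_nonneg.2 hr) (sub_nonneg.2 hr2),
      mul_nonneg (mul_nonneg (sub_nonneg.2 hr) (sub_nonneg.2 hr2)) (sub_nonneg.2 hr)]
  · unfold e3P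
    nlinarith [mul_nonneg (sub_nonneg.2 hr) (sub_nonneg.2 hr2),
      mul_nonneg (mul_nonneg (sub_nonneg.2 hr) (sub_nonneg.2 hr2)) (sub_nonneg.2 hr)]

/-- region 2: `1/21 ≤ r ≤ .14`, `m ≥ .3` -/
lemma e3P_R2 {r m : ℝ} (hr : 1 / 21 ≤ r) (hr2 : r ≤ 7 / 50) (hm : 3 / 10 ≤ m) (hm1 : m ≤ 1) :
    e3P r m (154 / 100 * r - 206 / 10000) ≤ (1 - 14 / 1000) * (1 + r) := by
  apply e3P_conv (by norm_num) hm hm1
  · unfold e3P
    nlinarith [mul_nonneg (sub_nonneg.2 hr) (sub_nonneg.2 hr2),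
      mul_nonneg (mul_nonneg (sub_nonneg.2 hr) (sub_nonneg.2 hr2)) (sub_nonneg.2 hr)]
  · unfold e3P
    nlinarith [mul_nonneg (sub_nonneg.2 hr) (sub_nonneg.2 hr2),
      mul_nonneg (mul_nonneg (sub_nonneg.2 hr) (sub_nonneg.2 hr2)) (sub_nonneg.2 hr)]

/-- region 3: `r ≤ 1/21`, `m ≥ .3` -/
lemma e3P_R3 {r m : ℝ} (hr : 0 ≤ r) (hm : 3 / 10 ≤ m) (hm1 : m ≤ 1) :
    e3P r m (100 / 1899) ≤ (1 - 4 / 1000) * (1 + r) := by
  apply e3P_conv (by norm_num) hm hm1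
  · unfold e3P
    nlinarith [mul_nonneg hr hr, mul_nonneg (mul_nonneg hr hr) hr]
  · unfold e3P
    nlinarith [mul_nonneg hr hr, mul_nonneg (mul_nonneg hr hr) hr]

/-- region 3 with the better constant: `r ≥ .02` -/
lemma e3P_R3' {r m : ℝ} (hr : 1 / 50 ≤ r) (hm : 3 / 10 ≤ m) (hm1 : m ≤ 1) :
    e3P r m (100 / 1899) ≤ (1 - 14 / 1000) * (1 + r) := by
  apply e3P_conv (by norm_num) hm hm1
  · unfold e3P
    nlinarith [mul_nonneg (sub_nonneg.2 hr) (sub_nonneg.2 hr),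
      mul_nonneg (mul_nonneg (sub_nonneg.2 hr) (sub_nonneg.2 hr)) (sub_nonneg.2 hr)]
  · unfold e3P
    nlinarith [mul_nonneg (sub_nonneg.2 hr) (sub_nonneg.2 hr),
      mul_nonneg (mul_nonneg (sub_nonneg.2 hr) (sub_nonneg.2 hr)) (sub_nonneg.2 hr)]

/-- region 3 with the better constant: `m ≥ .36` -/
lemma e3P_R3'' {r m : ℝ} (hr : 0 ≤ r) (hm : 9 / 25 ≤ m) (hm1 : m ≤ 1) :
    e3P r m (100 / 1899) ≤ (1 - 14 / 1000) * (1 + r) := by
  apply e3P_conv (by norm_num) hm hm1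
  · unfold e3P
    nlinarith [mul_nonneg hr hr, mul_nonneg (mul_nonneg hr hr) hr]
  · unfold e3P
    nlinarith [mul_nonneg hr hr, mul_nonneg (mul_nonneg hr hr) hr]

/-- the free part -/
lemma e3_f {b q m x g : ℝ} (hb : 0 ≤ b) (hq : 0 ≤ q) (hm : 0 ≤ m) (hg : 0 < g)
    (h : 1 ≤ g * (x - 1)) :
    19 / 5 * m / (4 * (x - 1 + 46 / 25 * b * q + m)) ≤ 19 / 20 * m * g := by
  have hx1 : 0 < x - 1 := by
    by_contra hc
    have : g * (x - 1) ≤ 0 := mul_nonpos_of_nonneg_of_nonpos hg.le (not_lt.1 hc)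
    linarith
  have hbq : 0 ≤ b * q := mul_nonneg hb hq
  have hD : 0 < 4 * (x - 1 + 46 / 25 * b * q + m) := by nlinarith
  rw [div_le_iff₀ hD]
  have h1 : 0 ≤ m * (g * (x - 1) - 1) := mul_nonneg hm (sub_nonneg.2 h)
  have h2 : 0 ≤ m * g * (b * q) := mul_nonneg (mul_nonneg hm hg.le) hbq
  have h3 : 0 ≤ m * g * m := mul_nonneg (mul_nonneg hm hg.le) hm
  nlinarith [h1, h2, h3]

/-- the size of `x`, region 1 -/
lemma e3_x1 {r x : ℝ} (hr : 7 / 50 ≤ r) (hr2 : r ≤ 1 / 5)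
    (hx : min ((1 - r) / r) 20 - 1 / 100 ≤ x) : 1 ≤ (233 / 100 * r - 1313 / 10000) * (x - 1) := by
  have hr0 : 0 < r := by linarith
  have h1 : (1 - r) / r ≤ 20 := by rw [div_le_iff₀ hr0]; linarith
  rw [min_eq_left h1] at hx
  have h2 : (1 - 201 / 100 * r) / r ≤ x - 1 := by
    have : (1 - 201 / 100 * r) / r = (1 - r) / r - 1 / 100 - 1 := by field_simp; ring
    linarith
  have hg : 0 < 233 / 100 * r - 1313 / 10000 := by linarith
  refine le_trans ?_ (mul_le_mul_of_nonneg_left h2 hg.le)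
  rw [← mul_div_assoc, le_div_iff₀ hr0]
  nlinarith [mul_nonneg (sub_nonneg.2 hr) (sub_nonneg.2 hr2)]

/-- the size of `x`, region 2 -/
lemma e3_x2 {r x : ℝ} (hr : 1 / 21 ≤ r) (hr2 : r ≤ 7 / 50)
    (hx : min ((1 - r) / r) 20 - 1 / 100 ≤ x) : 1 ≤ (154 / 100 * r - 206 / 10000) * (x - 1) := by
  have hr0 : 0 < r := by linarith
  have h1 : (1 - r) / r ≤ 20 := by rw [div_le_iff₀ hr0]; linarith
  rw [min_eq_left h1] at hx
  have h2 : (1 - 201 / 100 * r) / r ≤ x - 1 := by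
    have : (1 - 201 / 100 * r) / r = (1 - r) / r - 1 / 100 - 1 := by field_simp; ring
    linarith
  have hg : 0 < 154 / 100 * r - 206 / 10000 := by linarith
  refine le_trans ?_ (mul_le_mul_of_nonneg_left h2 hg.le)
  rw [← mul_div_assoc, le_div_iff₀ hr0]
  nlinarith [mul_nonneg (sub_nonneg.2 hr) (sub_nonneg.2 hr2)]

/-- the size of `x`, region 3 -/
lemma e3_x3 {r x : ℝ} (hr0 : 0 < r) (hr2 : r ≤ 1 / 21)
    (hx : min ((1 - r) / r) 20 - 1 / 100 ≤ x) : 1 ≤ (100 / 1899 : ℝ) * (x - 1) := by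
  have h1 : 20 ≤ (1 - r) / r := by rw [le_div_iff₀ hr0]; linarith
  rw [min_eq_right h1] at hx
  linarith

/-- the size of `x` in general -/
lemma e3_x4 {r x : ℝ} (hr0 : 0 < r) (hr2 : r ≤ 1 / 5)
    (hx : min ((1 - r) / r) 20 - 1 / 100 ≤ x) : 399 / 100 ≤ x := by
  have h1 : 4 ≤ (1 - r) / r := by rw [le_div_iff₀ hr0]; linarith
  have h2 : 4 ≤ min ((1 - r) / r) 20 := le_min h1 (by norm_num)
  linarith

/-- large `m`, with `y = m + 1` -/
lemma e3_big {r m q x : ℝ} (hr : 0 ≤ r) (hr2 : r ≤ 1 / 5) (hm : 1 ≤ m) (hq : 0 ≤ q)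
    (hx : 399 / 100 ≤ x) :
    (1 + r) / 2 * (19 / 5 * m / (4 * (x - 1 + 46 / 25 * ((1 - r) / 2) * q + m)))
      + (1 - r) / 2 * (((2 - m + r * q + (m + 1)) ^ 2 + 19 / 5 * m
      + q * (2041 / 1000 - q)) / (4 * (m + 1))) ≤ 1 - 14 / 1000 := by
  have hm0 : 0 ≤ m := by linarith
  have hbq : 0 ≤ (1 - r) / 2 * q := mul_nonneg (by linarith) hq
  have hf : 19 / 5 * m / (4 * (x - 1 + 46 / 25 * ((1 - r) / 2) * q + m))
      ≤ 19 / 20 * m / (299 / 100 + m) := by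
    rw [div_le_div_iff₀ (by nlinarith) (by linarith)]
    nlinarith [mul_nonneg hm0 hbq, mul_nonneg hm0 (sub_nonneg.2 hx)]
  set f := 19 / 5 * m / (4 * (x - 1 + 46 / 25 * ((1 - r) / 2) * q + m)) with hfd
  have h1 : 0 ≤ ((1 - r ^ 2) * q - (6 * r + 2041 / 1000) / 2) ^ 2 := sq_nonneg _
  have hm1 : (0 : ℝ) < m + 1 := by linarith
  have hm2 : (0 : ℝ) < 299 / 100 + m := by linarith
  have h2 : (1 + r) * ((1 + r) / 2 * f + (1 - r) / 2 * (((2 - m + r * q + (m + 1)) ^ 2 + 19 / 5 * m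
      + q * (2041 / 1000 - q)) / (4 * (m + 1)))) ≤ (1 + r) * (1 - 14 / 1000) := by
    have h3 : (1 + r) ^ 2 / 2 * f ≤ (1 + r) ^ 2 / 2 * (19 / 20 * m / (299 / 100 + m)) :=
      mul_le_mul_of_nonneg_left hf (by positivity)
    have h4 : (1 + r) * ((1 - r) / 2 * (((2 - m + r * q + (m + 1)) ^ 2 + 19 / 5 * m
        + q * (2041 / 1000 - q)) / (4 * (m + 1))))
        ≤ ((1 - r ^ 2) * (9 + 19 / 5 * m) + (6 * r + 2041 / 1000) ^ 2 / 4) / (8 * (m + 1)) := by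
      rw [← mul_div_assoc, ← mul_div_assoc, div_le_div_iff₀ (by positivity) (by positivity)]
      have : (1 + r) * ((1 - r) / 2 * ((2 - m + r * q + (m + 1)) ^ 2 + 19 / 5 * m
        + q * (2041 / 1000 - q))) * 2
        ≤ ((1 - r ^ 2) * (9 + 19 / 5 * m) + (6 * r + 2041 / 1000) ^ 2 / 4) := by
        nlinarith [h1]
      nlinarith [mul_le_mul_of_nonneg_right this (by positivity : 0 ≤ 4 * (m + 1))]
    have h5 : (1 + r) ^ 2 / 2 * (19 / 20 * m / (299 / 100 + m))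
        + ((1 - r ^ 2) * (9 + 19 / 5 * m) + (6 * r + 2041 / 1000) ^ 2 / 4) / (8 * (m + 1))
        ≤ (1 + r) * (1 - 14 / 1000) := by
      have e : (1 + r) ^ 2 / 2 * (19 / 20 * m / (299 / 100 + m))
        + ((1 - r ^ 2) * (9 + 19 / 5 * m) + (6 * r + 2041 / 1000) ^ 2 / 4) / (8 * (m + 1))
        = ((1 + r) ^ 2 * (19 / 5) * m * (m + 1)
          + ((1 - r ^ 2) * (9 + 19 / 5 * m) + (6 * r + 2041 / 1000) ^ 2 / 4) * (299 / 100 + m))
          / (8 * (m + 1) * (299 / 100 + m)) := by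
        field_simp
        ring
      rw [e, div_le_iff₀ (by positivity)]
      have t0 : 0 ≤ m - 1 := sub_nonneg.2 hm
      have s0 : 0 ≤ 1 / 5 - r := sub_nonneg.2 hr2
      nlinarith [mul_nonneg t0 t0, mul_nonneg hr t0, mul_nonneg hr s0, mul_nonneg (mul_nonneg hr s0) t0,
        mul_nonneg (mul_nonneg hr t0) t0, mul_nonneg (mul_nonneg (mul_nonneg hr s0) t0) t0]
    have h6 : (1 + r) * ((1 + r) / 2 * f + (1 - r) / 2 * (((2 - m + r * q + (m + 1)) ^ 2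
        + 19 / 5 * m + q * (2041 / 1000 - q)) / (4 * (m + 1))))
        = (1 + r) ^ 2 / 2 * f + (1 + r) * ((1 - r) / 2 * (((2 - m + r * q + (m + 1)) ^ 2
        + 19 / 5 * m + q * (2041 / 1000 - q)) / (4 * (m + 1)))) := by ring
    rw [h6]
    linarith
  exact le_of_mul_le_mul_left h2 (by linarith)

/-- few edges at `u` meet `R` (small `m`) -/
lemma e3_small1 {r m q x : ℝ} (hr : 7 / 50 ≤ r) (hr2 : r ≤ 1 / 5) (hm : 0 ≤ m)
    (hm1 : m ≤ 1 / 20) (hq : 0 ≤ q) (hx : 399 / 100 ≤ x) (hqm : (1 - r) / 2 * q ≤ m) :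
    (1 + r) / 2 * (19 / 5 * m / (4 * (x - 1 + 46 / 25 * ((1 - r) / 2) * q + m)))
      + (1 - r) / 2 * (((2 - m + r * q + 9 / 4) ^ 2 + 19 / 5 * m
      + q * (2041 / 1000 - q)) / (4 * (9 / 4))) ≤ 1 - 14 / 1000 := by
  have hbq : 0 ≤ (1 - r) / 2 * q := mul_nonneg (by linarith) hq
  have hf : 19 / 5 * m / (4 * (x - 1 + 46 / 25 * ((1 - r) / 2) * q + m)) ≤ 1 / 50 := by
    rw [div_le_iff₀ (by nlinarith)]
    nlinarith
  have hq1 : q ≤ 1 / 8 := by nlinarith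
  have hrq : r * q ≤ 1 / 40 := by nlinarith
  have hrq0 : 0 ≤ r * q := by nlinarith
  have h1 : (2 - m + r * q + 9 / 4) ^ 2 ≤ (2 + 1 / 40 + 9 / 4) ^ 2 := by
    apply pow_le_pow_left₀ (by nlinarith)
    linarith
  have h2 : (2 - m + r * q + 9 / 4) ^ 2 + 19 / 5 * m + q * (2041 / 1000 - q) ≤ 1875 / 100 := by
    nlinarith [sq_nonneg q]
  have h3 : ((2 - m + r * q + 9 / 4) ^ 2 + 19 / 5 * m + q * (2041 / 1000 - q)) / (4 * (9 / 4))
      ≤ 1875 / 900 := by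
    rw [div_le_iff₀ (by norm_num)]
    linarith
  have h4 : (1 - r) / 2 * (((2 - m + r * q + 9 / 4) ^ 2 + 19 / 5 * m
      + q * (2041 / 1000 - q)) / (4 * (9 / 4))) ≤ (1 - r) / 2 * (1875 / 900) :=
    mul_le_mul_of_nonneg_left h3 (by linarith)
  have h5 : (1 + r) / 2 * (19 / 5 * m / (4 * (x - 1 + 46 / 25 * ((1 - r) / 2) * q + m)))
      ≤ (1 + r) / 2 * (1 / 50) := mul_le_mul_of_nonneg_left hf (by linarith)
  linarith

/-- `r ≤ .02`, `.3 ≤ m ≤ .36`, `b q ≤ m` -/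
lemma e3_small2 {r m q x : ℝ} (hr : 0 ≤ r) (hr2 : r ≤ 1 / 50) (hm : 3 / 10 ≤ m)
    (hm1 : m ≤ 9 / 25) (hq : 0 ≤ q) (hx : 1999 / 100 ≤ x) (hqm : (1 - r) / 2 * q ≤ m) :
    (1 + r) / 2 * (19 / 5 * m / (4 * (x - 1 + 46 / 25 * ((1 - r) / 2) * q + m)))
      + (1 - r) / 2 * (((2 - m + r * q + 9 / 4) ^ 2 + 19 / 5 * m
      + q * (2041 / 1000 - q)) / (4 * (9 / 4))) ≤ 1 - 14 / 1000 := by
  have hm0 : 0 ≤ m := by linarith
  set p := (1 - r) / 2 * q with hp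
  have hbq : 0 ≤ p := mul_nonneg (by linarith) hq
  have hf : 19 / 5 * m / (4 * (x - 1 + 46 / 25 * ((1 - r) / 2) * q + m)) ≤ 19 / 20 * m * (1 / 19) := by
    rw [div_le_iff₀ (by nlinarith)]
    nlinarith [mul_nonneg hm0 hbq, mul_nonneg hm0 (sub_nonneg.2 hx)]
  have h5 : (1 + r) / 2 * (19 / 5 * m / (4 * (x - 1 + 46 / 25 * ((1 - r) / 2) * q + m)))
      ≤ (1 + r) / 2 * (19 / 20 * m * (1 / 19)) := mul_le_mul_of_nonneg_left hf (by linarith)
  have h6 : (1 - r) / 2 * (((2 - m + r * q + 9 / 4) ^ 2 + 19 / 5 * m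
      + q * (2041 / 1000 - q)) / (4 * (9 / 4)))
      = ((1 - r) / 2 * (17 / 4 - m) ^ 2 + 2 * r * (17 / 4 - m) * p + r ^ 2 * q * p
        + (1 - r) / 2 * (19 / 5) * m + 2041 / 1000 * p - q * p) / 9 := by
    rw [hp]; ring
  have hq2 : 2 * p ≤ q := by rw [hp]; nlinarith
  have h7 : r ^ 2 * q * p ≤ 1 / 2500 * q * p := by
    have : r ^ 2 ≤ 1 / 2500 := by nlinarith
    exact mul_le_mul_of_nonneg_right (mul_le_mul_of_nonneg_right this hq) hbq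
  have h8 : 2 * p * p ≤ q * p := mul_le_mul_of_nonneg_right hq2 hbq
  have h9 : 2041 / 1000 * p - 2 * p * p ≤ 2041 / 1000 * m - 2 * m * m := by nlinarith
  have h10 : 2 * r * (17 / 4 - m) * p ≤ 2 * r * (17 / 4 - m) * m :=
    mul_le_mul_of_nonneg_left hqm (mul_nonneg (by linarith) (by linarith))
  have hq3 : q ≤ 1 := by nlinarith
  have h11 : 1 / 2500 * q * p ≤ 1 / 2500 * q * p := le_rfl
  rw [h6]
  nlinarith [h5, h7, h8, h9, h10, mul_nonneg hr (sub_nonneg.2 hm), mul_nonneg hr (sub_nonneg.2 hm1),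
    mul_nonneg hq hbq, mul_nonneg (sub_nonneg.2 hm) (sub_nonneg.2 hm1)]

/-- the choice of `s - 1` -/
noncomputable def e3Y (m : ℝ) : ℝ := if m ≤ 1 then 9 / 4 else m + 1

lemma e3Y_ge {m : ℝ} : 2 ≤ e3Y m := by
  unfold e3Y; split_ifs <;> linarith

lemma e3Y_le {m : ℝ} (hm : 0 ≤ m) : e3Y m ≤ m + 9 / 4 := by
  unfold e3Y; split_ifs <;> linarith

/-- **E3, numeric part.** `m = m''`, `x = x_u`, `q` = average of `a_G`; the covered part uses the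
quadratic bound with `s = 1 + e3Y m`, mean `-1 + m - (1-2b) q`, variance `3.8 m + q (2.041 - q)`. -/
theorem e3_num {b q m x : ℝ} (hb : 2 / 5 ≤ b) (hb2 : b < 1 / 2) (hq : 0 ≤ q) (hm : 0 ≤ m)
    (hx : min (2 * b / (1 - 2 * b)) 20 - 1 / 100 ≤ x) (h : b ≤ 43 / 100 ∨ 3 / 10 ≤ m) :
    (1 - b) * (19 / 5 * m / (4 * (x - 1 + 46 / 25 * b * q + m)))
      + b * (((2 - m + (1 - 2 * b) * q + e3Y m) ^ 2 + 19 / 5 * m
      + q * (2041 / 1000 - q)) / (4 * e3Y m)) ≤ 1 - 4 / 1000 := by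
  obtain ⟨r, hr⟩ : ∃ r, r = 1 - 2 * b := ⟨_, rfl⟩
  have hbr : b = (1 - r) / 2 := by linarith
  have hr0 : 0 < r := by linarith
  have hr5 : r ≤ 1 / 5 := by linarith
  subst hbr
  have e1 : 1 - 2 * ((1 - r) / 2) = r := by ring
  have e2 : 2 * ((1 - r) / 2) = 1 - r := by ring
  have e3 : 1 - (1 - r) / 2 = (1 + r) / 2 := by ring
  rw [e1, e2] at hx
  rw [e1, e3]
  unfold e3Y
  split_ifs with hm1
  · rcases lt_or_ge r (7 / 50) with h1 | h1
    · have hm3 : 3 / 10 ≤ m := by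
        rcases h with h | h
        · linarith
        · exact h
      rcases le_total r (1 / 21) with h2 | h2
      · refine e3_core hr0.le (e3_f (by linarith) hq hm (by norm_num) (e3_x3 hr0 h2 hx)) ?_
        exact e3P_R3 hr0.le hm3 hm1
      · refine e3_core hr0.le (e3_f (by linarith) hq hm (by linarith) (e3_x2 h2 h1.le hx)) ?_
        exact (e3P_R2 h2 h1.le hm3 hm1).trans (by nlinarith)
    · refine e3_core hr0.le (e3_f (by linarith) hq hm (by linarith) (e3_x1 h1 hr5 hx)) ?_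
      exact e3P_R1 h1 hr5 hm hm1
  · exact (e3_big hr0.le hr5 (by linarith) hq (e3_x4 hr0 hr5 hx)).trans (by norm_num)

/-- **E3, numeric part, `b q ≤ m`.** -/
theorem e3_num' {b q m x : ℝ} (hb : 2 / 5 ≤ b) (hb2 : b < 1 / 2) (hq : 0 ≤ q) (hm : 0 ≤ m)
    (hx : min (2 * b / (1 - 2 * b)) 20 - 1 / 100 ≤ x) (h : b ≤ 43 / 100 ∨ 3 / 10 ≤ m)
    (hqm : b * q ≤ m) :
    (1 - b) * (19 / 5 * m / (4 * (x - 1 + 46 / 25 * b * q + m)))
      + b * (((2 - m + (1 - 2 * b) * q + e3Y m) ^ 2 + 19 / 5 * m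
      + q * (2041 / 1000 - q)) / (4 * e3Y m)) ≤ 1 - 14 / 1000 := by
  obtain ⟨r, hr⟩ : ∃ r, r = 1 - 2 * b := ⟨_, rfl⟩
  have hbr : b = (1 - r) / 2 := by linarith
  have hr0 : 0 < r := by linarith
  have hr5 : r ≤ 1 / 5 := by linarith
  subst hbr
  have e1 : 1 - 2 * ((1 - r) / 2) = r := by ring
  have e2 : 2 * ((1 - r) / 2) = 1 - r := by ring
  have e3 : 1 - (1 - r) / 2 = (1 + r) / 2 := by ring
  rw [e1, e2] at hx
  rw [e1, e3]
  unfold e3Y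
  split_ifs with hm1
  · rcases lt_or_ge r (7 / 50) with h1 | h1
    · have hm3 : 3 / 10 ≤ m := by
        rcases h with h | h
        · linarith
        · exact h
      rcases le_total r (1 / 21) with h2 | h2
      · rcases le_total r (1 / 50) with h3 | h3
        · rcases le_total m (9 / 25) with h4 | h4
          · have hx2 : 1999 / 100 ≤ x := by
              have := e3_x3 hr0 h2 hx
              linarith
            exact e3_small2 hr0.le h3 hm3 h4 hq hx2 hqm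
          · refine e3_core hr0.le (e3_f (by linarith) hq hm (by norm_num) (e3_x3 hr0 h2 hx)) ?_
            exact e3P_R3'' hr0.le h4 hm1
        · refine e3_core hr0.le (e3_f (by linarith) hq hm (by norm_num) (e3_x3 hr0 h2 hx)) ?_
          exact e3P_R3' h3 hm3 hm1
      · refine e3_core hr0.le (e3_f (by linarith) hq hm (by linarith) (e3_x2 h2 h1.le hx)) ?_
        exact e3P_R2 h2 h1.le hm3 hm1
    · rcases le_total m (1 / 20) with h4 | h4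
      · exact e3_small1 h1 hr5 hm h4 hq (e3_x4 hr0 hr5 hx) hqm
      · refine e3_core hr0.le (e3_f (by linarith) hq hm (by linarith) (e3_x1 h1 hr5 hx)) ?_
        exact e3P_R1' h1 hr5 h4 hm1
  · exact (e3_big hr0.le hr5 (by linarith) hq (e3_x4 hr0 hr5 hx))

end Pool.Agent.JR
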