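import Pool.Agent.JR.E3C
import Pool.Agent.JR.E3Num

/-!
# JR: case E3
-/

set_option autoImplicit false

namespace Pool.Agent.JR

open Finset
open Pool.Agent.LawB (ev ins ali Law)

lemma e3_fin_free {β y1 y' m W N L C5 CV CQ E : ℝ} (hβ0 : 0 ≤ β) (hβ : β ≤ 1) (hy' : 1 ≤ y')
    (hy : y' ≤ y1) (hm : 0 ≤ m) (hN : 1 ≤ N) (hC5 : 0 ≤ C5) (hC5L : C5 ≤ L)
    (hW : W ≤ 19 / 5 * m + CV / N) (hCV : 0 ≤ CV)
    (hE : E ≤ (1 - β) * ((C5 / N) ^ 2 + W) + CQ / N) :
    E / (4 * y1) ≤ (1 - β) * (19 / 5 * m / (4 * y')) + (L ^ 2 + CV + |CQ|) / N := by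
  have hN0 : 0 < N := by linarith
  set X := (L ^ 2 + CV + |CQ|) / N with hX
  have hX0 : 0 ≤ X := by positivity
  have h1 : (C5 / N) ^ 2 ≤ L ^ 2 / N := by
    rw [div_pow, div_le_div_iff₀ (by positivity) hN0]
    have h2 : C5 ^ 2 ≤ L ^ 2 := pow_le_pow_left₀ hC5 hC5L 2
    have h3 : N ≤ N ^ 2 := by nlinarith
    exact mul_le_mul h2 h3 hN0.le (by positivity)
  have h4 : CQ / N ≤ |CQ| / N := by
    apply div_le_div_of_nonneg_right (le_abs_self _) hN0.le
  have h5 : 0 ≤ CV / N := by positivity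
  have h6 : 0 ≤ L ^ 2 / N := by positivity
  have h7 : E ≤ (1 - β) * (19 / 5 * m) + X := by
    have e : X = L ^ 2 / N + CV / N + |CQ| / N := by rw [hX]; ring
    have h8 : (1 - β) * ((C5 / N) ^ 2 + W) ≤ (1 - β) * (L ^ 2 / N + (19 / 5 * m + CV / N)) :=
      mul_le_mul_of_nonneg_left (by linarith) (by linarith)
    have h9 : (1 - β) * (L ^ 2 / N + CV / N) ≤ 1 * (L ^ 2 / N + CV / N) :=
      mul_le_mul_of_nonneg_right (by linarith) (by linarith)
    nlinarith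
  have h10 : 0 ≤ (1 - β) * (19 / 5 * m) := mul_nonneg (by linarith) (by linarith)
  calc E / (4 * y1) ≤ ((1 - β) * (19 / 5 * m) + X) / (4 * y1) :=
        div_le_div_of_nonneg_right h7 (by linarith)
    _ ≤ ((1 - β) * (19 / 5 * m) + X) / (4 * y') :=
        div_le_div_of_nonneg_left (by linarith) (by linarith) (by linarith)
    _ = (1 - β) * (19 / 5 * m / (4 * y')) + X / (4 * y') := by ring
    _ ≤ (1 - β) * (19 / 5 * m / (4 * y')) + X := by
        have : X / (4 * y') ≤ X := div_le_self hX0 (by linarith)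
        linarith

lemma e3_fin_cov {β y m q bq A2 Ex Mq κ N L C5 CV CQ CR E W : ℝ} (hβ : 2 / 5 ≤ β) (hβ2 : β ≤ 1)
    (hy : 2 ≤ y) (hN : 1 ≤ N) (hq : β * q = bq) (hbqL : bq ≤ L)
    (hκL : |2 + y - m - 2 * bq| ≤ L) (hC5 : 0 ≤ C5) (hC5L : C5 ≤ L)
    (hκ : κ = 2 + y - m - 2 * bq + C5 / N)
    (hA2 : A2 ≤ 2041 / 1000 * bq + 10205 / 10000 * Ex + CR / N) (hEx : 0 ≤ Ex)
    (hM : Mq + Ex ≤ m) (hW : W ≤ 19 / 5 * Mq + CV / N) (hCV : 0 ≤ CV)
    (hE : E ≤ A2 + 2 * κ * bq + κ ^ 2 * β + β * W + CQ / N) :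
    E / (4 * y) ≤ β * (((2 - m + (1 - 2 * β) * q + y) ^ 2 + 19 / 5 * m
      + q * (2041 / 1000 - q)) / (4 * y)) + (|CR| + 5 * L ^ 2 + CV + |CQ|) / N := by
  have hN0 : 0 < N := by linarith
  have hL : 0 ≤ L := hC5.trans hC5L
  set κ' := 2 + y - m - 2 * bq with hk'
  set X := (|CR| + 5 * L ^ 2 + CV + |CQ|) / N with hX
  have hX0 : 0 ≤ X := by positivity
  set e := C5 / N with he
  have he0 : 0 ≤ e := by positivity
  have heN : e ≤ L / N := div_le_div_of_nonneg_right hC5L hN0.le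
  have heL : e ≤ L := by
    refine heN.trans ?_
    exact div_le_self hL hN
  have hκ1 := abs_le.1 hκL
  have t1 : bq * e ≤ L ^ 2 / N := by
    calc bq * e ≤ L * (L / N) := mul_le_mul hbqL heN he0 hL
      _ = L ^ 2 / N := by ring
  have t2 : κ' * (e * β) ≤ L ^ 2 / N := by
    have h1 : κ' * (e * β) ≤ L * (e * β) := mul_le_mul_of_nonneg_right hκ1.2 (by positivity)
    have h2 : e * β ≤ L / N * 1 := mul_le_mul heN hβ2 (by linarith) (by positivity)
    have h3 : L * (e * β) ≤ L * (L / N * 1) := mul_le_mul_of_nonneg_left h2 hL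
    calc κ' * (e * β) ≤ L * (L / N * 1) := h1.trans h3
      _ = L ^ 2 / N := by ring
  have t3 : e ^ 2 * β ≤ L ^ 2 / N := by
    have h1 : e ^ 2 ≤ L * (L / N) := by
      rw [sq]; exact mul_le_mul heL heN he0 hL
    have h2 : e ^ 2 * β ≤ e ^ 2 * 1 := mul_le_mul_of_nonneg_left hβ2 (by positivity)
    calc e ^ 2 * β ≤ L * (L / N) := by linarith
      _ = L ^ 2 / N := by ring
  have t4 : CQ / N ≤ |CQ| / N := div_le_div_of_nonneg_right (le_abs_self _) hN0.le
  have t5 : CR / N ≤ |CR| / N := div_le_div_of_nonneg_right (le_abs_self _) hN0.le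
  have t6 : β * W ≤ β * (19 / 5 * Mq) + CV / N := by
    have h1 : β * W ≤ β * (19 / 5 * Mq + CV / N) := mul_le_mul_of_nonneg_left hW (by linarith)
    have h2 : β * (CV / N) ≤ 1 * (CV / N) := mul_le_mul_of_nonneg_right hβ2 (by positivity)
    linarith
  have t7 : 10205 / 10000 * Ex + β * (19 / 5 * Mq) ≤ β * (19 / 5 * m) := by
    have h1 : β * (19 / 5 * (Mq + Ex)) ≤ β * (19 / 5 * m) :=
      mul_le_mul_of_nonneg_left (by linarith) (by linarith)
    have h2 : 2 / 5 * (19 / 5 * Ex) ≤ β * (19 / 5 * Ex) :=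
      mul_le_mul_of_nonneg_right hβ (by linarith)
    linarith
  have key : β * ((2 - m + (1 - 2 * β) * q + y) ^ 2 + 19 / 5 * m + q * (2041 / 1000 - q))
      = β * κ' ^ 2 + 2 * κ' * bq + β * (19 / 5 * m) + 2041 / 1000 * bq := by
    rw [hk', ← hq]; ring
  have h7 : E ≤ β * ((2 - m + (1 - 2 * β) * q + y) ^ 2 + 19 / 5 * m + q * (2041 / 1000 - q)) + X := by
    rw [key]
    have e1 : X = |CR| / N + 5 * (L ^ 2 / N) + CV / N + |CQ| / N := by rw [hX]; ring
    have e2 : 2 * κ * bq + κ ^ 2 * β = 2 * κ' * bq + β * κ' ^ 2 + 2 * (bq * e) + 2 * (κ' * (e * β))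
        + e ^ 2 * β := by rw [hκ]; ring
    linarith
  have hy0 : 0 < 4 * y := by linarith
  have e3 : β * (((2 - m + (1 - 2 * β) * q + y) ^ 2 + 19 / 5 * m
      + q * (2041 / 1000 - q)) / (4 * y))
      = β * ((2 - m + (1 - 2 * β) * q + y) ^ 2 + 19 / 5 * m + q * (2041 / 1000 - q)) / (4 * y) := by
    ring
  rw [e3]
  calc E / (4 * y) ≤ (β * ((2 - m + (1 - 2 * β) * q + y) ^ 2 + 19 / 5 * m
        + q * (2041 / 1000 - q)) + X) / (4 * y) := div_le_div_of_nonneg_right h7 hy0.le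
    _ = β * ((2 - m + (1 - 2 * β) * q + y) ^ 2 + 19 / 5 * m + q * (2041 / 1000 - q)) / (4 * y)
        + X / (4 * y) := by ring
    _ ≤ _ := by
        have : X / (4 * y) ≤ X := div_le_self hX0 (by linarith)
        linarith

lemma ev_mono_supp {V : Type*} [Fintype V] [DecidableEq V] {w f g : Finset (Finset V) → ℝ}
    (hw : ∀ B, 0 ≤ w B) (h : ∀ B, w B ≠ 0 → f B ≤ g B) : ev w f ≤ ev w g := by
  unfold ev
  apply sum_le_sum
  intro B _
  by_cases h0 : w B = 0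
  · rw [h0]; simp
  · exact mul_le_mul_of_nonneg_left (h B h0) (hw B)

lemma Ja_mono {V : Type*} {a b : Finset V → ℝ} {B : Finset (Finset V)}
    (h : ∀ F ∈ B, a F ≤ b F) : Ja a B ≤ Ja b B := sum_le_sum h

lemma Mp_le {V : Type*} [DecidableEq V] {k N : ℕ} {H : Finset (Finset V)} (h : Big k N H)
    (Mk : Finset (Finset V)) (R : Finset V) : Mp H Mk N R ≤ ∑ z ∈ R, xc H N 2 z := by
  unfold Mp
  apply sum_le_sum
  intro z _
  have h1 := xc_nonneg h z
  have h2 : 0 ≤ (1 + xc H N 2 z) * bd H z / N := by positivity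
  have h3 : (0 : ℝ) ≤ 0.16 * mk H Mk z / N := by positivity
  linarith

/-- **E3** from the variance bound DI1, the moments Q3 and the facts J1. -/
theorem thm_E3_of (hD : StDI1) (hQ : StQ3) (hJ : StJ1) : StE3 := by
  intro k K S0
  obtain ⟨C1, N1, hD⟩ := hD k S0
  obtain ⟨L, hL⟩ : ∃ L : ℝ, L = 5 + 3 * k * |S0| + 600 * (k : ℝ) ^ 2 * |S0| + 6 * |S0| := ⟨_, rfl⟩
  obtain ⟨CQ, hQ⟩ := hQ k K (3 * k) (3 * S0) (3 * L)
  obtain ⟨hJ1, -, hJ3, -, -, hJ6⟩ := hJ
  obtain ⟨CV, hCVd⟩ : ∃ CV : ℝ, CV = |C1| * (3 * k * |S0|) + 54 * (k : ℝ) ^ 2 * |S0| := ⟨_, rfl⟩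
  refine ⟨(L ^ 2 + CV + |CQ|) + (|450 * (k : ℝ) ^ 3 * S0| + 5 * L ^ 2 + CV + |CQ|), max N1 1, ?_⟩
  intro V _ _ N H w u R Mk xx hN hBig hw huR hvh hnvh hload hMk hMk2 hxx hcase
  have hN1 : N1 ≤ N := (le_max_left _ _).trans hN
  have hN0 : 0 < N := (le_max_right _ _).trans hN
  have hNr : (0 : ℝ) < N := by exact_mod_cast hN0
  have hNr1 : (1 : ℝ) ≤ N := by exact_mod_cast hN0
  have hS0 : 0 ≤ S0 := le_trans (by unfold load; positivity) hload
  rw [abs_of_nonneg hS0] at hL hCVd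
  have hCV : 0 ≤ CV := by rw [hCVd]; positivity
  -- data
  obtain ⟨a, ha⟩ : ∃ a, a = aw R (xc H N 2) := ⟨_, rfl⟩
  obtain ⟨xcov, hxcov⟩ : ∃ xcov : V → ℝ, xcov = fun z => xc H N 2 z - 0.16 * mk H Mk z / N :=
    ⟨_, rfl⟩
  obtain ⟨hcv, hhcv⟩ : ∃ hcv : ℝ, hcv = ∑ z ∈ R, xcov z := ⟨_, rfl⟩
  obtain ⟨m2v, hm2v⟩ : ∃ m2v : ℝ, m2v = m2 H N u R xcov a := ⟨_, rfl⟩
  obtain ⟨β, hβ⟩ : ∃ β : ℝ, β = (bd H u : ℝ) / N := ⟨_, rfl⟩
  obtain ⟨bq, hbq⟩ : ∃ bq : ℝ, bq = (∑ G ∈ H.filter (fun G => u ∈ G), a G) / N := ⟨_, rfl⟩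
  obtain ⟨Spp, hSpp⟩ : ∃ Spp : ℝ, Spp = (∑ F ∈ H.filter (fun F => u ∉ F), a F) / N := ⟨_, rfl⟩
  obtain ⟨C5, hC5⟩ : ∃ C5 : ℝ, C5 = 600 * (k : ℝ) ^ 2 * S0 := ⟨_, rfl⟩
  obtain ⟨m, hm⟩ : ∃ m : ℝ, m = m2v + C5 / N := ⟨_, rfl⟩
  obtain ⟨att, hatt⟩ : ∃ att : ℝ, att = ∑ z ∈ R, ((pe H u z).card : ℝ) / N := ⟨_, rfl⟩
  obtain ⟨W, hW⟩ : ∃ W : ℝ, W = VF (Hm H u) N a := ⟨_, rfl⟩
  obtain ⟨xx0, hxx0⟩ : ∃ xx0 : ℝ,
    xx0 = min (2 * (bd H u : ℝ) / (N - 2 * bd H u)) 20 - 1 / 100 := ⟨_, rfl⟩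
  have ha0 : ∀ F, 0 ≤ a F := by
    intro F; rw [ha]; exact aw_nonneg (fun z => xc_nonneg hBig z) F
  have hβ1 : 2 / 5 ≤ β := by
    rw [hβ, le_div_iff₀ hNr]
    have h1 : 2 * (N : ℝ) ≤ 5 * bd H u := by exact_mod_cast hvh
    linarith
  have hb2 : 2 * (bd H u : ℝ) + 1 ≤ N := by exact_mod_cast hBig.two_bd_lt u
  have hβ2 : β < 1 / 2 := by
    rw [hβ, div_lt_iff₀ hNr]
    linarith
  have hbq0 : 0 ≤ bq := by
    rw [hbq]; exact div_nonneg (sum_nonneg fun G _ => ha0 G) hNr.le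
  have hSpp0 : 0 ≤ Spp := by
    rw [hSpp]; exact div_nonneg (sum_nonneg fun G _ => ha0 G) hNr.le
  have hsumA : (∑ F ∈ H, a F) / N ≤ 3 * S0 := by rw [ha]; exact sum_aw_le hload
  have hsplit : (∑ F ∈ H, a F) / N = bq + Spp := by
    rw [hbq, hSpp, ← add_div, sum_filter_add_sum_filter_not]
  have hC50 : 0 ≤ C5 := by rw [hC5]; positivity
  have hm2e : m2v = hcv - 2 * bq - Spp := by
    rw [hm2v, hhcv, hbq, hSpp]
    unfold m2
    ring
  obtain ⟨q, hq⟩ : ∃ q : ℝ, β * q = bq := by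
    refine ⟨bq / β, ?_⟩
    rw [mul_div_cancel₀]
    linarith
  have hq0 : 0 ≤ q := by
    by_contra hc
    have : β * q < 0 := mul_neg_of_pos_of_neg (by linarith) (not_le.1 hc)
    linarith
  -- DI1 for the edges not at `u`
  have hload' : load (Hm H u) N R ≤ S0 := by
    refine le_trans ?_ hload
    unfold load
    apply sum_le_sum
    intro z _
    have : bd (Hm H u) z ≤ bd H z := by
      have := bd_split H u z
      unfold Hm
      omega
    have h1 : (bd (Hm H u) z : ℝ) ≤ bd H z := by exact_mod_cast this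
    gcongr
  obtain ⟨hDI, hDI2⟩ := hD V N (Hm H u) R Mk hN1 (hBig.filt _)
    (fun z hz hv => hnvh z hz (by
      unfold vh at hv ⊢
      have := bd_split H u z
      unfold Hm at hv
      omega)) hload'
    (fun F hF => mem_filter.2 ⟨hMk hF, (hMk2 F hF).2.2⟩)
    (fun F hF => ⟨(hMk2 F hF).1, (hMk2 F hF).2.1⟩)
  change VF (Hm H u) N (aw R (xc (Hm H u) N 2)) ≤ (3.8 + C1 / N) * Mp (Hm H u) Mk N R at hDI
  change 0.4 * ∑ w ∈ R, xc (Hm H u) N 2 w ≤ Mp (Hm H u) Mk N R at hDI2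
  have hMp0 : 0 ≤ Mp (Hm H u) Mk N R := by
    have : 0 ≤ ∑ w ∈ R, xc (Hm H u) N 2 w := sum_nonneg fun z _ => xc_nonneg (hBig.filt _) z
    linarith
  have hsx : ∑ z ∈ R, xc H N 2 z ≤ 3 * k * S0 := sum_xc_le hBig hN0 hload
  have hMp1 : Mp (Hm H u) Mk N R ≤ 3 * k * S0 := by
    refine (Mp_le (hBig.filt _) Mk R).trans (le_trans ?_ hsx)
    exact sum_le_sum fun z _ => xc_filt_le hBig u z
  have hWle : W ≤ 19 / 5 * Mp (Hm H u) Mk N R + CV / N := by
    have h1 := E3_c2 hBig hN0 hload huR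
    rw [← ha, ← hW] at h1
    have h2 : C1 / N * Mp (Hm H u) Mk N R ≤ |C1| / N * (3 * k * S0) := by
      have h3 : C1 / N ≤ |C1| / N := div_le_div_of_nonneg_right (le_abs_self _) hNr.le
      have h4 : (0 : ℝ) ≤ |C1| / N := by positivity
      exact (mul_le_mul_of_nonneg_right h3 hMp0).trans (mul_le_mul_of_nonneg_left hMp1 h4)
    have e1 : CV / N = |C1| / N * (3 * k * S0) + 54 * (k : ℝ) ^ 2 * S0 / N := by rw [hCVd]; ring
    rw [e1]
    have e2 : (3.8 + C1 / N) * Mp (Hm H u) Mk N R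
        = 19 / 5 * Mp (Hm H u) Mk N R + C1 / N * Mp (Hm H u) Mk N R := by ring
    rw [e2] at hDI
    linarith
  have hEx0 : 0 ≤ Exx H N u R (xc H N 2) := by
    unfold Exx
    apply div_nonneg _ hNr.le
    apply sum_nonneg
    intro G hG
    have h3 : (3 : ℝ) ≤ G.card := by exact_mod_cast hBig.three G (mem_filter.1 hG).1
    rw [← ha]
    exact mul_nonneg (by linarith) (ha0 G)
  have hMm : Mp (Hm H u) Mk N R + Exx H N u R (xc H N 2) ≤ m := by
    rw [hm, hm2v, hC5, ha, hxcov]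
    exact c1 hBig hN0 hload huR Mk
  have hm0 : 0 ≤ m := by linarith
  have hxcle : hcv ≤ 3 * k * S0 := by
    refine le_trans ?_ hsx
    rw [hhcv]
    apply sum_le_sum
    intro z _
    have h3 : (0 : ℝ) ≤ 0.16 * mk H Mk z / N := by positivity
    rw [hxcov]
    exact sub_le_self _ h3
  have hC5N : C5 / N ≤ C5 := div_le_self hC50 hNr1
  have hC5N0 : 0 ≤ C5 / N := by positivity
  have hmle : m ≤ 3 * k * S0 + C5 := by
    rw [hm, hm2e]
    linarith
  have hk0 : (0 : ℝ) ≤ 3 * k * S0 := by positivity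
  obtain ⟨y, hy⟩ : ∃ y : ℝ, y = e3Y m := ⟨_, rfl⟩
  have hy2 : 2 ≤ y := by rw [hy]; exact e3Y_ge
  have hym : y ≤ m + 9 / 4 := by rw [hy]; exact e3Y_le hm0
  have hatt0 : 0 ≤ att := by rw [hatt]; positivity
  have hattle : att ≤ bq := by
    rw [hatt, hbq, ha, sum_aw, sum_div]
    apply sum_le_sum
    intro z _
    rw [filt_u_z]
    have h1 := xc_nonneg hBig z
    have h2 : ((pe H u z).card : ℝ) ≤ (1 + xc H N 2 z) * (pe H u z).card := by
      have : (0 : ℝ) ≤ (pe H u z).card := by positivity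
      nlinarith
    gcongr
  -- the size of `xx0`
  have hxx0' : 399 / 100 ≤ xx0 := by
    have h1 : (4 : ℝ) ≤ 2 * (bd H u : ℝ) / (N - 2 * bd H u) := by
      rw [le_div_iff₀ (by linarith)]
      have h1 : 2 * (N : ℝ) ≤ 5 * bd H u := by exact_mod_cast hvh
      linarith
    have h2 : 4 ≤ min (2 * (bd H u : ℝ) / (N - 2 * bd H u)) 20 := le_min h1 (by norm_num)
    rw [hxx0]; linarith
  have hxxle : xx0 ≤ xx := by
    refine le_trans (le_of_eq ?_) hxx
    rw [hxx0]; norm_num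
  obtain ⟨y1, hy1⟩ : ∃ y1 : ℝ, y1 = xx0 - 1 + m + 2 * bq - 0.16 * att := ⟨_, rfl⟩
  obtain ⟨y', hy'⟩ : ∃ y' : ℝ, y' = xx0 - 1 + 46 / 25 * β * q + m := ⟨_, rfl⟩
  have hy'1 : 1 ≤ y' := by
    rw [hy', mul_assoc, hq]; linarith
  have hyy : y' ≤ y1 := by
    rw [hy', hy1, mul_assoc, hq]; linarith
  have hy13 : 2 ≤ y1 := by
    rw [hy1]; linarith
  -- the second moments
  obtain ⟨-, hq2, -⟩ := hQ V N H w a (Spp - C5 / N) u hN0 hBig hw
    (fun F hF => ⟨ha0 F, by rw [ha]; exact aw_le hBig R hF⟩) hsumA (by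
      rw [abs_le]
      constructor <;> linarith)
  obtain ⟨-, -, hq4⟩ := hQ V N H w a (hcv - 2 - y) u hN0 hBig hw
    (fun F hF => ⟨ha0 F, by rw [ha]; exact aw_le hBig R hF⟩) hsumA (by
      have h3 : hcv = m - C5 / N + 2 * bq + Spp := by rw [hm, hm2e]; ring
      rw [abs_le]
      constructor <;> linarith)
  have hfree := e3_fin_free (β := β) (y1 := y1) (y' := y') (m := m) (W := W) (N := N) (L := L)
    (C5 := C5) (CV := CV) (CQ := CQ)
    (E := ev w (fun B => if u ∈ LawB.cov B then 0 else (Ja a B - (Spp - C5 / N)) ^ 2))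
    (by linarith) (by linarith) hy'1 hyy hm0 hNr1 hC50 (by linarith) (by linarith) hCV (by
      refine hq2.trans (le_of_eq ?_)
      rw [← hSpp, ← hβ, hW]
      unfold Hm
      ring)
  have hcovE := e3_fin_cov (β := β) (y := y) (m := m) (q := q) (bq := bq)
    (A2 := (∑ G ∈ H.filter (fun G => u ∈ G), a G ^ 2) / N)
    (Ex := Exx H N u R (xc H N 2)) (Mq := Mp (Hm H u) Mk N R)
    (κ := Spp - (hcv - 2 - y)) (N := N) (L := L) (C5 := C5) (CV := CV) (CQ := CQ)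
    (CR := 450 * (k : ℝ) ^ 3 * S0) (W := W)
    (E := ev w (fun B => if u ∈ LawB.cov B then (Ja a B - (hcv - 2 - y)) ^ 2 else 0))
    hβ1 (by linarith) hy2 hNr1 hq (by linarith) (by
      rw [abs_le]
      constructor <;> linarith) hC50 (by linarith) (by rw [hm, hm2e]; ring) (by
      have := c3 hBig hN0 hload huR
      rw [← ha, ← hbq] at this
      exact this) hEx0 hMm hWle hCV (by
      refine hq4.trans (le_of_eq ?_)
      rw [← hSpp, sum_add_distrib, sum_const, nsmul_eq_mul]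
      have e1 : ∀ G : Finset V, (a G + Spp - (hcv - 2 - y)) ^ 2
          = a G ^ 2 + 2 * (Spp - (hcv - 2 - y)) * a G + (Spp - (hcv - 2 - y)) ^ 2 := by
        intro G; ring
      simp only [e1]
      rw [sum_add_distrib, sum_add_distrib, ← mul_sum, sum_const, nsmul_eq_mul, hβ, hbq, hW]
      unfold Hm bd
      ring)
  -- the pointwise bound
  have hpt : 1 - ((1 - β) * (19 / 5 * m / (4 * y')) + β * (((2 - m + (1 - 2 * β) * q + y) ^ 2
      + 19 / 5 * m + q * (2041 / 1000 - q)) / (4 * y)))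
      - ((L ^ 2 + CV + |CQ|) + (|450 * (k : ℝ) ^ 3 * S0| + 5 * L ^ 2 + CV + |CQ|)) / N
      ≤ ev w (fun B => if u ∈ LawB.cov B then
      phi (-1 + Xv R (fun z => xc H N 2 z - 0.16 * mk H Mk z / N) B) else
      phi (xx + Xv R (fun z => xc H N 2 z - 0.16 * mk H Mk z / N
        - 0.16 * (H.filter fun G => u ∈ G ∧ z ∈ G).card / N) B)) := by
    have h1 : ev w (fun B => 1
        - (if u ∈ LawB.cov B then (Ja a B - (hcv - 2 - y)) ^ 2 else 0) / (4 * y)
        - (if u ∈ LawB.cov B then 0 else (Ja a B - (Spp - C5 / N)) ^ 2) / (4 * y1))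
        = 1 - ev w (fun B => if u ∈ LawB.cov B then (Ja a B - (hcv - 2 - y)) ^ 2 else 0) / (4 * y)
        - ev w (fun B => if u ∈ LawB.cov B then 0 else (Ja a B - (Spp - C5 / N)) ^ 2)
          / (4 * y1) := by
      unfold ev
      rw [sum_div, sum_div]
      refine Eq.trans ?_ (congrArg (fun t : ℝ => t
        - ∑ B, w B * (if u ∈ LawB.cov B then (Ja a B - (hcv - 2 - y)) ^ 2 else 0) / (4 * y)
        - ∑ B, w B * (if u ∈ LawB.cov B then 0 else (Ja a B - (Spp - C5 / N)) ^ 2)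
          / (4 * y1)) hw.total)
      simp only
      rw [← sum_sub_distrib, ← sum_sub_distrib]
      refine sum_congr rfl fun B _ => ?_
      ring
    have h2 : ev w (fun B => 1
        - (if u ∈ LawB.cov B then (Ja a B - (hcv - 2 - y)) ^ 2 else 0) / (4 * y)
        - (if u ∈ LawB.cov B then 0 else (Ja a B - (Spp - C5 / N)) ^ 2) / (4 * y1))
        ≤ ev w (fun B => if u ∈ LawB.cov B then
      phi (-1 + Xv R (fun z => xc H N 2 z - 0.16 * mk H Mk z / N) B) else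
      phi (xx + Xv R (fun z => xc H N 2 z - 0.16 * mk H Mk z / N
        - 0.16 * (H.filter fun G => u ∈ G ∧ z ∈ G).card / N) B)) := by
      apply ev_mono_supp hw.nonneg
      intro B hB0
      obtain ⟨hBH, hPD⟩ := hw.supp B hB0
      by_cases hc : u ∈ LawB.cov B
      · simp only [if_pos hc]
        rw [← hxcov, hJ6 V R xcov B hPD, ← hhcv]
        have h3 : Ja (aw R xcov) B ≤ Ja a B := by
          apply Ja_mono
          intro F _
          rw [ha]
          apply aw_mono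
          intro z
          rw [hxcov]
          have h3 : (0 : ℝ) ≤ 0.16 * mk H Mk z / N := by positivity
          exact sub_le_self _ h3
        have h4 := (hJ3 (-1 + (hcv - Ja a B)) (-1 + (hcv - Ja (aw R xcov) B)) (by linarith)).1
        have h5 := hJ1 (-1 + (hcv - Ja a B)) (1 + y) (by linarith)
        have e1 : (-1 + (hcv - Ja a B) - (1 + y)) ^ 2 = (Ja a B - (hcv - 2 - y)) ^ 2 := by ring
        have e2 : 1 + y - 1 = y := by ring
        rw [e1, e2] at h5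
        rw [zero_div, sub_zero]
        linarith
      · simp only [if_neg hc]
        have e0 : (fun z => xc H N 2 z - 0.16 * (mk H Mk z : ℝ) / N
            - 0.16 * ((H.filter fun G => u ∈ G ∧ z ∈ G).card : ℝ) / N)
            = fun z => xcov z - 0.16 * ((pe H u z).card : ℝ) / N := by
          funext z; rw [hxcov]; rfl
        rw [e0, hJ6 V R _ B hPD, sum_sub_distrib, ← hhcv]
        have e3 : ∑ z ∈ R, 0.16 * ((pe H u z).card : ℝ) / N = 0.16 * att := by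
          rw [hatt, mul_sum]
          refine sum_congr rfl fun z _ => ?_
          ring
        rw [e3]
        have h3 : Ja (aw R fun z => xcov z - 0.16 * ((pe H u z).card : ℝ) / N) B ≤ Ja a B := by
          apply Ja_mono
          intro F _
          rw [ha]
          apply aw_mono
          intro z
          rw [hxcov]
          have h3 : (0 : ℝ) ≤ 0.16 * mk H Mk z / N := by positivity
          have h4 : (0 : ℝ) ≤ 0.16 * ((pe H u z).card : ℝ) / N := by positivity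
          simp only
          linarith
        have h4 := (hJ3 (xx0 + (hcv - 0.16 * att - Ja a B)) (xx + (hcv - 0.16 * att
          - Ja (aw R fun z => xcov z - 0.16 * ((pe H u z).card : ℝ) / N) B)) (by linarith)).1
        have h5 := hJ1 (xx0 + (hcv - 0.16 * att - Ja a B)) (1 + y1) (by linarith)
        have e1 : (xx0 + (hcv - 0.16 * att - Ja a B) - (1 + y1)) ^ 2
            = (Ja a B - (Spp - C5 / N)) ^ 2 := by
          have : xx0 + (hcv - 0.16 * att - Ja a B) - (1 + y1) = -(Ja a B - (Spp - C5 / N)) := by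
            rw [hy1, hm, hm2e]; ring
          rw [this, neg_sq]
        have e2 : 1 + y1 - 1 = y1 := by ring
        rw [e1, e2] at h5
        rw [zero_div, sub_zero]
        linarith
    rw [h1] at h2
    refine le_trans ?_ h2
    have e5 : ((L ^ 2 + CV + |CQ|) + (|450 * (k : ℝ) ^ 3 * S0| + 5 * L ^ 2 + CV + |CQ|)) / (N : ℝ)
        = (L ^ 2 + CV + |CQ|) / N + (|450 * (k : ℝ) ^ 3 * S0| + 5 * L ^ 2 + CV + |CQ|) / N := by
      ring
    rw [e5]
    linarith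
  have hxx1 : min (2 * β / (1 - 2 * β)) 20 - 1 / 100 ≤ xx0 := by
    rw [hxx0]
    have e : 2 * β / (1 - 2 * β) = 2 * (bd H u : ℝ) / (N - 2 * bd H u) := by
      rw [hβ]
      have h1 : (N : ℝ) - 2 * bd H u ≠ 0 := by linarith
      have h2 : (1 : ℝ) - 2 * ((bd H u : ℝ) / N) ≠ 0 := by
        have : (1 : ℝ) - 2 * ((bd H u : ℝ) / N) = (N - 2 * bd H u) / N := by field_simp
        rw [this]
        exact div_ne_zero h1 hNr.ne'
      field_simp
    rw [e]
  have hcase' : β ≤ 43 / 100 ∨ 3 / 10 ≤ m := by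
    rcases hcase with h | h
    · left
      rw [hβ, div_le_iff₀ hNr]
      have : 100 * (bd H u : ℝ) ≤ 43 * N := by exact_mod_cast h
      linarith
    · right
      rw [← ha, ← hxcov, ← hm2v] at h
      rw [hm]
      norm_num at h ⊢
      linarith
  constructor
  · refine le_trans ?_ hpt
    have h1 := e3_num hβ1 hβ2 hq0 hm0 hxx1 hcase'
    rw [← hy', ← hy] at h1
    linarith
  · intro hqm
    refine le_trans ?_ hpt
    rw [← ha, ← hxcov, ← hm2v, ← hbq] at hqm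
    have h1 := e3_num' hβ1 hβ2 hq0 hm0 hxx1 hcase' (by rw [hq, hm]; linarith)
    rw [← hy', ← hy] at h1
    linarith

end Pool.Agent.JR
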