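import Pool.Agent.JR.St
import Pool.Agent.JR.St4
import Pool.Agent.JR.Cond

/-!
# JR: case E3, the deterministic inequalities
-/

set_option autoImplicit false

namespace Pool.Agent.JR

open Finset
open Pool.Agent.LawB (ev ins ali Law)

variable {V : Type*} [DecidableEq V]

lemma Big.filt {k N : ℕ} {H : Finset (Finset V)} (h : Big k N H) (p : Finset V → Prop)
    [DecidablePred p] : Big k N (H.filter p) := by
  refine ⟨fun F hF => h.three F (mem_filter.1 hF).1, fun F hF => h.card F (mem_filter.1 hF).1,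
    fun F hF G hG => h.lin F (mem_filter.1 hF).1 G (mem_filter.1 hG).1, fun x => ?_⟩
  refine le_trans (Nat.add_le_add_right ?_ 1) (h.deg x)
  unfold td
  apply sum_le_sum_of_subset
  intro F hF
  rw [mem_filter, mem_filter] at hF
  exact mem_filter.2 ⟨hF.1.1, hF.2⟩

/-- double counting -/
lemma sum_aw (A : Finset (Finset V)) (R : Finset V) (x : V → ℝ) :
    ∑ F ∈ A, aw R x F = ∑ z ∈ R, (1 + x z) * ((A.filter fun F => z ∈ F).card : ℝ) := by
  unfold aw
  have h1 : ∀ F ∈ A, ∑ w ∈ F ∩ R, (1 + x w) = ∑ z ∈ R, if z ∈ F then 1 + x z else 0 := by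
    intro F _
    rw [← sum_filter]
    refine sum_congr ?_ fun _ _ => rfl
    ext z
    rw [mem_filter, mem_inter]
    exact and_comm
  rw [sum_congr rfl h1, sum_comm]
  refine sum_congr rfl fun z _ => ?_
  rw [← sum_filter, sum_const, nsmul_eq_mul, mul_comm]

lemma xc_nonneg {k N : ℕ} {H : Finset (Finset V)} (h : Big k N H) (z : V) : 0 ≤ xc H N 2 z := by
  have h1 := h.deg z
  have h2 : (td H z : ℝ) + 1 ≤ N := by exact_mod_cast h1
  unfold xc xu
  exact le_min (div_nonneg (by positivity) (by linarith)) (by norm_num)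

lemma xc_le_two (H : Finset (Finset V)) (N : ℕ) (z : V) : xc H N 2 z ≤ 2 := min_le_right _ _

/-- `x (N - t) ≤ t` -/
lemma xc_mul_le {k N : ℕ} {H : Finset (Finset V)} (h : Big k N H) (z : V) :
    xc H N 2 z * (N - td H z) ≤ td H z := by
  have h1 := h.deg z
  have h2 : (td H z : ℝ) + 1 ≤ N := by exact_mod_cast h1
  have h3 : (0 : ℝ) < N - td H z := by linarith
  have h4 : xc H N 2 z ≤ xu H N z := min_le_left _ _
  calc xc H N 2 z * (N - td H z) ≤ xu H N z * (N - td H z) := mul_le_mul_of_nonneg_right h4 h3.le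
    _ = td H z := by unfold xu; field_simp

/-- `N x ≤ 3 t` -/
lemma xc_le {k N : ℕ} {H : Finset (Finset V)} (h : Big k N H) (z : V) :
    xc H N 2 z * N ≤ 3 * td H z := by
  have h1 := xc_mul_le h z
  have h2 := xc_le_two H N z
  have h3 : (0 : ℝ) ≤ td H z := by positivity
  nlinarith [mul_le_mul_of_nonneg_right h2 h3]

/-- the edges through `u` and `z` -/
def pe (H : Finset (Finset V)) (u z : V) : Finset (Finset V) := H.filter fun G => u ∈ G ∧ z ∈ G

lemma pe_card_le {k N : ℕ} {H : Finset (Finset V)} (h : Big k N H) {u z : V} (huz : u ≠ z) :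
    (pe H u z).card ≤ 1 := by
  rw [card_le_one]
  intro F hF G hG
  by_contra hne
  have hF' := mem_filter.1 hF
  have hG' := mem_filter.1 hG
  have h1 := h.lin F hF'.1 G hG'.1 hne
  have h2 : ({u, z} : Finset V) ⊆ F ∩ G := by
    intro x hx
    rw [mem_insert, mem_singleton] at hx
    rcases hx with rfl | rfl
    · exact mem_inter.2 ⟨hF'.2.1, hG'.2.1⟩
    · exact mem_inter.2 ⟨hF'.2.2, hG'.2.2⟩
  have h3 := card_le_card h2
  rw [card_pair huz] at h3
  omega

lemma filt_z (H : Finset (Finset V)) (u z : V) :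
    H.filter (fun F => z ∈ F) = (H.filter fun F => u ∉ F).filter (fun F => z ∈ F) ∪ pe H u z := by
  ext F
  simp only [mem_filter, mem_union, pe]
  by_cases hu : u ∈ F
  · simp [hu]
  · simp [hu]

lemma filt_disj (H : Finset (Finset V)) (u z : V) :
    Disjoint ((H.filter fun F => u ∉ F).filter (fun F => z ∈ F)) (pe H u z) := by
  rw [disjoint_left]
  intro F hF hG
  exact (mem_filter.1 (mem_filter.1 hF).1).2 (mem_filter.1 hG).2.1

lemma bd_split (H : Finset (Finset V)) (u z : V) :
    bd H z = bd (H.filter fun F => u ∉ F) z + (pe H u z).card := by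
  unfold bd
  rw [filt_z H u z, card_union_of_disjoint (filt_disj H u z)]

lemma td_split (H : Finset (Finset V)) (u z : V) :
    td H z = td (H.filter fun F => u ∉ F) z + ∑ F ∈ pe H u z, (F.card - 1) := by
  unfold td
  rw [filt_z H u z, sum_union (filt_disj H u z)]

/-- the capped value is Lipschitz -/
lemma cap_lip {N t t' : ℝ} (h0 : 0 ≤ t') (h1 : t' ≤ t) (h2 : t < N) :
    min (t / (N - t)) 2 - min (t' / (N - t')) 2 ≤ 9 * (t - t') / N := by
  have hN : 0 < N := by linarith
  have hN1 : 0 < N - t := by linarith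
  have hN2 : 0 < N - t' := by linarith
  rcases le_total 2 (t' / (N - t')) with h | h
  · rw [min_eq_right h]
    have : min (t / (N - t)) 2 ≤ 2 := min_le_right _ _
    have h3 : 0 ≤ 9 * (t - t') / N := div_nonneg (by linarith) hN.le
    linarith
  · rw [min_eq_left h]
    set x := min (t / (N - t)) 2 with hx
    have hx1 : x * (N - t) ≤ t := by
      have : x ≤ t / (N - t) := min_le_left _ _
      calc x * (N - t) ≤ t / (N - t) * (N - t) := mul_le_mul_of_nonneg_right this hN1.le
        _ = t := by field_simp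
    have hx2 : x ≤ 2 := min_le_right _ _
    have h3 : t' ≤ 2 * (N - t') := by
      rwa [div_le_iff₀ hN2] at h
    have h4 : x * (N - t') - t' ≤ 3 * (t - t') := by
      nlinarith [mul_le_mul_of_nonneg_right hx2 (sub_nonneg.2 h1)]
    have h5 : x - t' / (N - t') = (x * (N - t') - t') / (N - t') := by field_simp
    rw [h5, div_le_div_iff₀ hN2 hN]
    nlinarith [mul_nonneg (sub_nonneg.2 h1) (by linarith : 0 ≤ 3 * (N - t') - N)]

lemma td_filt_le (H : Finset (Finset V)) (u z : V) : td (H.filter fun F => u ∉ F) z ≤ td H z := by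
  have := td_split H u z; omega

lemma xc_lip {k N : ℕ} {H : Finset (Finset V)} (h : Big k N H) (u z : V) :
    xc H N 2 z - xc (H.filter fun F => u ∉ F) N 2 z
      ≤ 9 * ((∑ F ∈ pe H u z, (F.card - 1) : ℕ) : ℝ) / N := by
  have h1 := h.deg z
  have h2 := td_split H u z
  have h3 := cap_lip (N := N) (t := td H z) (t' := td (H.filter fun F => u ∉ F) z)
    (by positivity) (by exact_mod_cast td_filt_le H u z) (by exact_mod_cast h1)
  have e : (td H z : ℝ) - td (H.filter fun F => u ∉ F) z
      = ((∑ F ∈ pe H u z, (F.card - 1) : ℕ) : ℝ) := by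
    rw [h2]; push_cast; ring
  rw [e] at h3
  exact h3

lemma xc_filt_le {k N : ℕ} {H : Finset (Finset V)} (h : Big k N H) (u z : V) :
    xc (H.filter fun F => u ∉ F) N 2 z ≤ xc H N 2 z := by
  have h1 := h.deg z
  have h2 : (td H z : ℝ) + 1 ≤ N := by exact_mod_cast h1
  have h3 : (td (H.filter fun F => u ∉ F) z : ℝ) ≤ td H z := by exact_mod_cast td_filt_le H u z
  unfold xc xu
  refine min_le_min ?_ le_rfl
  rw [div_le_div_iff₀ (by linarith) (by linarith)]
  have h4 : (0 : ℝ) ≤ td (H.filter fun F => u ∉ F) z := by positivity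
  nlinarith

lemma pe_sum_le {k N : ℕ} {H : Finset (Finset V)} (h : Big k N H) {u z : V} (huz : u ≠ z) :
    ∑ F ∈ pe H u z, (F.card - 1) ≤ k := by
  have h1 : ∑ F ∈ pe H u z, (F.card - 1) ≤ ∑ F ∈ pe H u z, k := by
    apply sum_le_sum
    intro F hF
    have := h.card F (mem_filter.1 hF).1
    omega
  rw [sum_const, smul_eq_mul] at h1
  have h2 := pe_card_le h huz
  nlinarith

/-- the change of `x` at a vertex is at most `9k/N` -/
lemma xc_lip' {k N : ℕ} {H : Finset (Finset V)} (h : Big k N H) {u z : V} (huz : u ≠ z) :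
    xc H N 2 z - xc (H.filter fun F => u ∉ F) N 2 z ≤ 9 * k / N := by
  refine (xc_lip h u z).trans ?_
  have h1 : ((∑ F ∈ pe H u z, (F.card - 1) : ℕ) : ℝ) ≤ k := by exact_mod_cast pe_sum_le h huz
  gcongr

end Pool.Agent.JR
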