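import Pool.Agent.JR.E3A

/-!
# JR: case E3, comparison of `m''` with the sum of DI1 for the edges not at `u`
-/

set_option autoImplicit false

namespace Pool.Agent.JR

open Finset
open Pool.Agent.LawB (ev ins ali Law)

variable {V : Type*} [DecidableEq V]

/-- the edges not at `u` -/
def Hm (H : Finset (Finset V)) (u : V) : Finset (Finset V) := H.filter fun F => u ∉ F

lemma real_td_split (H : Finset (Finset V)) (u z : V) :
    (td H z : ℝ) = td (Hm H u) z + ((∑ F ∈ pe H u z, (F.card - 1) : ℕ) : ℝ) := by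
  unfold Hm
  rw [td_split H u z]; push_cast; ring

lemma pe_cast {k N : ℕ} {H : Finset (Finset V)} (h : Big k N H) (u z : V) :
    ∑ F ∈ pe H u z, ((F.card : ℝ) - 3)
      = ((∑ F ∈ pe H u z, (F.card - 1) : ℕ) : ℝ) - 2 * (pe H u z).card := by
  have e : ((∑ F ∈ pe H u z, (F.card - 1) : ℕ) : ℝ) = ∑ F ∈ pe H u z, ((F.card : ℝ) - 1) := by
    rw [Nat.cast_sum]
    refine sum_congr rfl fun F hF => ?_
    have := h.three F (mem_filter.1 hF).1
    rw [Nat.cast_sub (by omega)]; norm_num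
  rw [e, card_eq_sum_ones, Nat.cast_sum, mul_sum, ← sum_sub_distrib]
  refine sum_congr rfl fun F _ => ?_
  push_cast; ring

lemma bd_le_N {k N : ℕ} {H : Finset (Finset V)} (h : Big k N H) (z : V) : (bd H z : ℝ) ≤ N := by
  have := h.two_bd_lt z
  exact_mod_cast (by omega : bd H z ≤ N)

/-- light vertices -/
lemma vertex_light {k N : ℕ} {H : Finset (Finset V)} (h : Big k N H) (u z : V)
    (hl : 50 * td H z < N) :
    xc (Hm H u) N 2 z - (1 + xc (Hm H u) N 2 z) * bd (Hm H u) z / N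
      + (1 + xc H N 2 z) * (∑ F ∈ pe H u z, ((F.card : ℝ) - 3)) / N
    ≤ xc H N 2 z - 2 * ((1 + xc H N 2 z) * (pe H u z).card) / N
      - (1 + xc H N 2 z) * bd (Hm H u) z / N := by
  have h1 : 50 * (td H z : ℝ) < N := by exact_mod_cast hl
  have hs := real_td_split H u z
  set E := ((∑ F ∈ pe H u z, (F.card - 1) : ℕ) : ℝ) with hE
  have hE0 : 0 ≤ E := by positivity
  have ht0 : (0 : ℝ) ≤ td (Hm H u) z := by positivity
  have hN : (0 : ℝ) < N := by
    have : (0 : ℝ) ≤ td H z := by positivity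
    linarith
  have hx : xc H N 2 z = td H z / (N - td H z) := by
    unfold xc xu
    apply min_eq_left
    rw [div_le_iff₀ (by linarith)]
    linarith
  have hx' : xc (Hm H u) N 2 z = td (Hm H u) z / (N - td (Hm H u) z) := by
    unfold xc xu
    apply min_eq_left
    rw [div_le_iff₀ (by linarith)]
    linarith
  have hb : 2 * (bd (Hm H u) z : ℝ) ≤ td (Hm H u) z := by
    exact_mod_cast (h.filt _).two_bd_le z
  rw [pe_cast h u z]
  set n := ((pe H u z).card : ℝ)
  set b := (bd (Hm H u) z : ℝ)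
  set t := (td H z : ℝ)
  set t' := (td (Hm H u) z : ℝ)
  have hb0 : 0 ≤ b := by positivity
  have hD : 0 < N - t := by linarith
  have hD' : 0 < N - t' := by linarith
  have hA : 1 + t / (N - t) = N / (N - t) := by field_simp; ring
  have hB : 1 + t' / (N - t') = N / (N - t') := by field_simp; ring
  have hAB : t / (N - t) - t' / (N - t') = N / (N - t) * (N / (N - t')) * E / N := by
    have : E = t - t' := by linarith
    rw [this]; field_simp; ring
  rw [hx, hx', hA, hB]
  have key : N / (N - t) * E / N + (t / (N - t) - t' / (N - t')) * b / N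
      ≤ t / (N - t) - t' / (N - t') := by
    rw [hAB]
    have h2 : 1 ≤ N / (N - t') * (1 - b / N) := by
      have : N / (N - t') * (1 - b / N) = (N - b) / (N - t') := by field_simp
      rw [this, le_div_iff₀ hD']
      linarith
    have h3 : 0 ≤ N / (N - t) * E / N := by positivity
    have h4 := mul_le_mul_of_nonneg_left h2 h3
    calc N / (N - t) * E / N + N / (N - t) * (N / (N - t')) * E / N * b / N
        = N / (N - t) * E / N * 1 + N / (N - t) * (N / (N - t')) * E / N * b / N := by ring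
      _ ≤ N / (N - t) * E / N * (N / (N - t') * (1 - b / N))
          + N / (N - t) * (N / (N - t')) * E / N * b / N := by linarith
      _ = N / (N - t) * (N / (N - t')) * E / N := by ring
  have e1 : (t / (N - t) - t' / (N - t')) * b / N
      = (1 + t / (N - t)) * b / N - (1 + t' / (N - t')) * b / N := by ring
  rw [hA, hB] at e1
  have e2 : N / (N - t) * (E - 2 * n) / N = N / (N - t) * E / N - 2 * (N / (N - t) * n) / N := by
    ring
  rw [e2]
  linarith

/-- all vertices -/
lemma vertex_gen {k N : ℕ} {H : Finset (Finset V)} (h : Big k N H) (hN : 0 < N) {u z : V}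
    (huz : u ≠ z) :
    xc (Hm H u) N 2 z - (1 + xc (Hm H u) N 2 z) * bd (Hm H u) z / N
      + (1 + xc H N 2 z) * (∑ F ∈ pe H u z, ((F.card : ℝ) - 3)) / N
    ≤ xc H N 2 z - 2 * ((1 + xc H N 2 z) * (pe H u z).card) / N
      - (1 + xc H N 2 z) * bd (Hm H u) z / N + 12 * k / N := by
  have hNr : (0 : ℝ) < N := by exact_mod_cast hN
  rw [pe_cast h u z]
  have h1 : xc (Hm H u) N 2 z ≤ xc H N 2 z := xc_filt_le h u z
  have h2 : xc H N 2 z - xc (Hm H u) N 2 z ≤ 9 * k / N := xc_lip' h huz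
  have h3 := xc_le_two H N z
  have h4 := xc_nonneg h z
  have h5 : ((∑ F ∈ pe H u z, (F.card - 1) : ℕ) : ℝ) ≤ k := by exact_mod_cast pe_sum_le h huz
  have h6 : (bd (Hm H u) z : ℝ) ≤ N := bd_le_N (h.filt _) z
  set E := ((∑ F ∈ pe H u z, (F.card - 1) : ℕ) : ℝ) with hE
  have hE0 : 0 ≤ E := by positivity
  set n := ((pe H u z).card : ℝ)
  set b := (bd (Hm H u) z : ℝ)
  have hb0 : 0 ≤ b := by positivity
  set x := xc H N 2 z
  set x' := xc (Hm H u) N 2 z
  have k1 : (x - x') * (b / N) ≤ 9 * k / N := by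
    have : b / N ≤ 1 := by rw [div_le_one hNr]; exact h6
    have h7 : (x - x') * (b / N) ≤ (x - x') * 1 := mul_le_mul_of_nonneg_left this (by linarith)
    linarith
  have k2 : (1 + x) * (E / N) ≤ 3 * (k / N) := by
    have : E / N ≤ k / N := by gcongr
    have h8 : 0 ≤ E / N := by positivity
    nlinarith
  have e1 : (1 + x) * (E - 2 * n) / N = (1 + x) * (E / N) - 2 * ((1 + x) * n) / N := by ring
  have e2 : (x - x') * (b / N) = (1 + x) * b / N - (1 + x') * b / N := by ring
  have e3 : 12 * (k : ℝ) / N = 9 * k / N + 3 * (k / N) := by ring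
  rw [e1, e3]
  linarith

/-- the number of vertices with `t ≥ N/50` -/
lemma card_mid {k N : ℕ} {H : Finset (Finset V)} (h : Big k N H) (hN : 0 < N) {R : Finset V}
    {S0 : ℝ} (hS : load H N R ≤ S0) :
    ((R.filter fun z => ¬ 50 * td H z < N).card : ℝ) ≤ 50 * k * S0 := by
  have hNr : (0 : ℝ) < N := by exact_mod_cast hN
  have h1 : ((R.filter fun z => ¬ 50 * td H z < N).card : ℝ)
      ≤ ∑ z ∈ R.filter (fun z => ¬ 50 * td H z < N), 50 * k * ((bd H z : ℝ) / N) := by
    rw [card_eq_sum_ones, Nat.cast_sum]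
    apply sum_le_sum
    intro z hz
    have h2 := (mem_filter.1 hz).2
    have h3 : N ≤ 50 * td H z := not_lt.1 h2
    have h4 := h.td_le z
    have h5 : (N : ℝ) ≤ 50 * (k * bd H z) := by
      exact_mod_cast h3.trans (Nat.mul_le_mul_left 50 h4)
    rw [Nat.cast_one, ← mul_div_assoc, le_div_iff₀ hNr]
    linarith
  refine h1.trans ?_
  rw [← mul_sum]
  have h6 : ∑ z ∈ R.filter (fun z => ¬ 50 * td H z < N), (bd H z : ℝ) / N ≤ load H N R := by
    unfold load
    apply sum_le_sum_of_subset_of_nonneg (filter_subset _ _)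
    intro z _ _
    positivity
  have h7 : (0 : ℝ) ≤ 50 * k := by positivity
  exact mul_le_mul_of_nonneg_left (h6.trans hS) h7

lemma filt_u_z (H : Finset (Finset V)) (u z : V) :
    (H.filter fun G => u ∈ G).filter (fun G => z ∈ G) = pe H u z := by
  unfold pe
  rw [filter_filter]

lemma m2_eq (H : Finset (Finset V)) (N : ℕ) (u : V) (R : Finset V) (Mk : Finset (Finset V)) :
    m2 H N u R (fun z => xc H N 2 z - 0.16 * mk H Mk z / N) (aw R (xc H N 2))
      = ∑ z ∈ R, (xc H N 2 z - 0.16 * mk H Mk z / N - 2 * ((1 + xc H N 2 z) * (pe H u z).card) / N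
        - (1 + xc H N 2 z) * bd (Hm H u) z / N) := by
  unfold m2
  have e1 : 2 * (∑ G ∈ H.filter (fun G => u ∈ G), aw R (xc H N 2) G) / N
      = ∑ z ∈ R, 2 * ((1 + xc H N 2 z) * (pe H u z).card) / N := by
    rw [sum_aw, mul_sum, sum_div]
    refine sum_congr rfl fun z _ => ?_
    rw [filt_u_z]
  have e2 : (∑ F ∈ H.filter (fun F => u ∉ F), aw R (xc H N 2) F) / N
      = ∑ z ∈ R, (1 + xc H N 2 z) * bd (Hm H u) z / N := by
    rw [sum_aw, sum_div]
    rfl
  rw [e1, e2, ← sum_sub_distrib, ← sum_sub_distrib]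

/-- the extra of the edges of size at least four at `u` -/
noncomputable def Exx (H : Finset (Finset V)) (N : ℕ) (u : V) (R : Finset V) (x : V → ℝ) : ℝ :=
  (∑ G ∈ H.filter (fun G => u ∈ G), ((G.card : ℝ) - 3) * aw R x G) / N

lemma Exx_eq (H : Finset (Finset V)) (N : ℕ) (u : V) (R : Finset V) (x : V → ℝ) :
    Exx H N u R x = ∑ z ∈ R, (1 + x z) * (∑ F ∈ pe H u z, ((F.card : ℝ) - 3)) / N := by
  unfold Exx aw
  rw [sum_div]
  have h1 : ∀ G ∈ H.filter (fun G => u ∈ G), ((G.card : ℝ) - 3) * (∑ w ∈ G ∩ R, (1 + x w)) / N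
      = ∑ z ∈ R, if z ∈ G then ((G.card : ℝ) - 3) * (1 + x z) / N else 0 := by
    intro G _
    rw [← sum_filter, mul_sum, sum_div]
    refine sum_congr ?_ fun _ _ => rfl
    ext z
    rw [mem_filter, mem_inter]
    exact and_comm
  rw [sum_congr rfl h1, sum_comm]
  refine sum_congr rfl fun z _ => ?_
  rw [← sum_filter, filt_u_z, mul_sum, sum_div]
  refine sum_congr rfl fun G _ => ?_
  ring

/-- the sum of DI1 -/
noncomputable def Mp (H Mk : Finset (Finset V)) (N : ℕ) (R : Finset V) : ℝ :=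
  ∑ w ∈ R, (xc H N 2 w - (1 + xc H N 2 w) * bd H w / N - 0.16 * mk H Mk w / N)

lemma mk_le (H Mk : Finset (Finset V)) (u z : V) : mk H Mk z ≤ mk (Hm H u) Mk z := by
  have h1 := bd_split H u z
  unfold mk Hm
  by_cases h2 : bd H z ≤ 2
  · rw [if_pos h2, if_pos (by omega)]
  · rw [if_neg h2]; exact Nat.zero_le _

/-- **(c1)** -/
theorem c1 {k N : ℕ} {H : Finset (Finset V)} (h : Big k N H) (hN : 0 < N) {R : Finset V}
    {S0 : ℝ} (hS : load H N R ≤ S0) {u : V} (hu : u ∉ R) (Mk : Finset (Finset V)) :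
    Mp (Hm H u) Mk N R + Exx H N u R (xc H N 2)
      ≤ m2 H N u R (fun z => xc H N 2 z - 0.16 * mk H Mk z / N) (aw R (xc H N 2))
        + 600 * (k : ℝ) ^ 2 * S0 / N := by
  have hNr : (0 : ℝ) < N := by exact_mod_cast hN
  rw [m2_eq, Exx_eq]
  unfold Mp
  rw [← sum_add_distrib]
  have h1 : ∀ z ∈ R, (xc (Hm H u) N 2 z - (1 + xc (Hm H u) N 2 z) * bd (Hm H u) z / N
      - 0.16 * mk (Hm H u) Mk z / N) + (1 + xc H N 2 z) * (∑ F ∈ pe H u z, ((F.card : ℝ) - 3)) / N
      ≤ (xc H N 2 z - 0.16 * mk H Mk z / N - 2 * ((1 + xc H N 2 z) * (pe H u z).card) / N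
        - (1 + xc H N 2 z) * bd (Hm H u) z / N)
        + if ¬ 50 * td H z < N then 12 * (k : ℝ) / N else 0 := by
    intro z hz
    have huz : u ≠ z := fun e => hu (e ▸ hz)
    have h2 : 0.16 * (mk H Mk z : ℝ) / N ≤ 0.16 * mk (Hm H u) Mk z / N := by
      have : (mk H Mk z : ℝ) ≤ mk (Hm H u) Mk z := by exact_mod_cast mk_le H Mk u z
      gcongr
    by_cases hl : 50 * td H z < N
    · rw [if_neg (not_not.2 hl)]
      have := vertex_light h u z hl
      linarith
    · rw [if_pos hl]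
      have := vertex_gen h hN huz
      linarith
  refine (sum_le_sum h1).trans ?_
  rw [sum_add_distrib]
  have h3 : ∑ z ∈ R, (if ¬ 50 * td H z < N then 12 * (k : ℝ) / N else 0)
      ≤ 600 * (k : ℝ) ^ 2 * S0 / N := by
    rw [← sum_filter, sum_const, nsmul_eq_mul]
    have h4 := card_mid h hN hS
    have h5 : (0 : ℝ) ≤ 12 * (k : ℝ) / N := by positivity
    have h6 := mul_le_mul_of_nonneg_right h4 h5
    refine h6.trans (le_of_eq ?_)
    ring
  linarith

end Pool.Agent.JR
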