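import Pool.Agent.JR.E3B

/-!
# JR: case E3, the variance bounds
-/

set_option autoImplicit false

namespace Pool.Agent.JR

open Finset
open Pool.Agent.LawB (ev ins ali Law)

variable {V : Type*} [DecidableEq V]

lemma aw_nonneg {R : Finset V} {x : V → ℝ} (hx : ∀ z, 0 ≤ x z) (F : Finset V) : 0 ≤ aw R x F := by
  unfold aw
  exact sum_nonneg fun z _ => by have := hx z; linarith

lemma aw_mono {R : Finset V} {x x' : V → ℝ} (hx : ∀ z, x' z ≤ x z) (F : Finset V) :
    aw R x' F ≤ aw R x F := by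
  unfold aw
  exact sum_le_sum fun z _ => by have := hx z; linarith

lemma aw_le {k N : ℕ} {H : Finset (Finset V)} (h : Big k N H) (R : Finset V) {F : Finset V}
    (hF : F ∈ H) : aw R (xc H N 2) F ≤ 3 * k := by
  unfold aw
  have h1 : ∑ w ∈ F ∩ R, (1 + xc H N 2 w) ≤ ∑ w ∈ F ∩ R, (3 : ℝ) :=
    sum_le_sum fun z _ => by have := xc_le_two H N z; linarith
  refine h1.trans ?_
  rw [sum_const, nsmul_eq_mul]
  have h2 : ((F ∩ R).card : ℝ) ≤ k := by
    exact_mod_cast (card_le_card inter_subset_left).trans (h.card F hF)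
  linarith

lemma sum_aw_le {N : ℕ} {H : Finset (Finset V)} {R : Finset V}
    {S0 : ℝ} (hS : load H N R ≤ S0) : (∑ F ∈ H, aw R (xc H N 2) F) / N ≤ 3 * S0 := by
  rw [sum_aw, sum_div]
  have h1 : ∑ z ∈ R, (1 + xc H N 2 z) * ((H.filter fun F => z ∈ F).card : ℝ) / N
      ≤ ∑ z ∈ R, 3 * ((bd H z : ℝ) / N) := by
    apply sum_le_sum
    intro z _
    rw [mul_div_assoc]
    have h2 : (0 : ℝ) ≤ (bd H z : ℝ) / N := by positivity
    have h3 := xc_le_two H N z
    exact mul_le_mul_of_nonneg_right (by linarith) h2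
  refine h1.trans ?_
  rw [← mul_sum]
  unfold load at hS
  linarith

lemma sum_xc_le {k N : ℕ} {H : Finset (Finset V)} (h : Big k N H) (hN : 0 < N) {R : Finset V}
    {S0 : ℝ} (hS : load H N R ≤ S0) : ∑ z ∈ R, xc H N 2 z ≤ 3 * k * S0 := by
  have hNr : (0 : ℝ) < N := by exact_mod_cast hN
  have h1 : ∑ z ∈ R, xc H N 2 z ≤ ∑ z ∈ R, 3 * k * ((bd H z : ℝ) / N) := by
    apply sum_le_sum
    intro z _
    rw [← mul_div_assoc, le_div_iff₀ hNr]
    have h2 := xc_le h z
    have h3 : (td H z : ℝ) ≤ k * bd H z := by exact_mod_cast h.td_le z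
    linarith
  refine h1.trans ?_
  rw [← mul_sum]
  unfold load at hS
  exact mul_le_mul_of_nonneg_left hS (by positivity)

/-- **(c2)** -/
theorem E3_c2 {k N : ℕ} {H : Finset (Finset V)} (h : Big k N H) (hN : 0 < N) {R : Finset V}
    {S0 : ℝ} (hS : load H N R ≤ S0) {u : V} (hu : u ∉ R) :
    VF (Hm H u) N (aw R (xc H N 2)) ≤ VF (Hm H u) N (aw R (xc (Hm H u) N 2))
      + 54 * (k : ℝ) ^ 2 * S0 / N := by
  have hNr : (0 : ℝ) < N := by exact_mod_cast hN
  set a := aw R (xc H N 2) with ha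
  set a' := aw R (xc (Hm H u) N 2) with ha'
  have h0 : ∀ F, 0 ≤ a' F := fun F => aw_nonneg (fun z => xc_nonneg (h.filt _) z) F
  have h1 : ∀ F, a' F ≤ a F := fun F => aw_mono (fun z => xc_filt_le h u z) F
  have h2 : ∀ F ∈ Hm H u, a F - a' F ≤ 9 * (k : ℝ) ^ 2 / N := by
    intro F hF
    rw [ha, ha']
    unfold aw
    rw [← sum_sub_distrib]
    have h3 : ∑ z ∈ F ∩ R, ((1 + xc H N 2 z) - (1 + xc (Hm H u) N 2 z))
        ≤ ∑ z ∈ F ∩ R, (9 * k / N : ℝ) := by
      apply sum_le_sum
      intro z hz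
      have huz : u ≠ z := fun e => hu (e ▸ (mem_inter.1 hz).2)
      have := xc_lip' h huz
      unfold Hm
      linarith
    refine h3.trans ?_
    rw [sum_const, nsmul_eq_mul]
    have h4 : ((F ∩ R).card : ℝ) ≤ k := by
      exact_mod_cast (card_le_card inter_subset_left).trans (h.card F (mem_filter.1 hF).1)
    have h5 : (0 : ℝ) ≤ 9 * k / N := by positivity
    refine (mul_le_mul_of_nonneg_right h4 h5).trans (le_of_eq ?_)
    ring
  unfold VF
  have h6 : (∑ F ∈ Hm H u, a F ^ 2) / N ≤ (∑ F ∈ Hm H u, a' F ^ 2) / N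
      + 54 * (k : ℝ) ^ 2 * S0 / N := by
    rw [← add_div, div_le_div_iff_of_pos_right hNr, ← sub_le_iff_le_add', ← sum_sub_distrib]
    have h7 : ∑ F ∈ Hm H u, (a F ^ 2 - a' F ^ 2) ≤ ∑ F ∈ Hm H u, (18 * (k : ℝ) ^ 2 / N) * a F := by
      apply sum_le_sum
      intro F hF
      have h8 := h2 F hF
      have h9 := h1 F
      have h10 := h0 F
      have h11 : (a F - a' F) * (a F + a' F) ≤ 9 * (k : ℝ) ^ 2 / N * (2 * a F) := by
        apply mul_le_mul h8 (by linarith) (by linarith) (by positivity)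
      calc a F ^ 2 - a' F ^ 2 = (a F - a' F) * (a F + a' F) := by ring
        _ ≤ _ := h11
        _ = _ := by ring
    refine h7.trans ?_
    rw [← mul_sum]
    have h12 : ∑ F ∈ Hm H u, a F ≤ 3 * S0 * N := by
      have h13 := sum_aw_le hS
      rw [div_le_iff₀ hNr] at h13
      refine le_trans ?_ h13
      apply sum_le_sum_of_subset_of_nonneg (filter_subset _ _)
      intro F _ _
      exact aw_nonneg (fun z => xc_nonneg h z) F
    have h14 : (0 : ℝ) ≤ 18 * (k : ℝ) ^ 2 / N := by positivity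
    refine (mul_le_mul_of_nonneg_left h12 h14).trans (le_of_eq ?_)
    field_simp
    ring
  have h15 : (∑ F ∈ Hm H u, ∑ G ∈ (Hm H u).filter (fun G => ¬ Disjoint F G), a' F * a' G)
      / (N : ℝ) ^ 2 ≤ (∑ F ∈ Hm H u, ∑ G ∈ (Hm H u).filter (fun G => ¬ Disjoint F G), a F * a G)
      / (N : ℝ) ^ 2 := by
    apply div_le_div_of_nonneg_right _ (by positivity)
    apply sum_le_sum
    intro F _
    apply sum_le_sum
    intro G _
    exact mul_le_mul (h1 F) (h1 G) (h0 G) ((h0 F).trans (h1 F))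
  linarith

/-- **(c3)** -/
theorem c3 {k N : ℕ} {H : Finset (Finset V)} (h : Big k N H) (hN : 0 < N) {R : Finset V}
    {S0 : ℝ} (hS : load H N R ≤ S0) {u : V} (hu : u ∉ R) :
    (∑ G ∈ H.filter (fun G => u ∈ G), aw R (xc H N 2) G ^ 2) / N
      ≤ 2041 / 1000 * ((∑ G ∈ H.filter (fun G => u ∈ G), aw R (xc H N 2) G) / N)
        + 10205 / 10000 * Exx H N u R (xc H N 2) + 450 * (k : ℝ) ^ 3 * S0 / N := by
  have hNr : (0 : ℝ) < N := by exact_mod_cast hN
  set a := aw R (xc H N 2) with ha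
  have h0 : ∀ F, 0 ≤ a F := fun F => aw_nonneg (fun z => xc_nonneg h z) F
  have h1 : ∀ G ∈ H.filter (fun G => u ∈ G), a G ^ 2 ≤ 2041 / 1000 * a G
      + 10205 / 10000 * (((G.card : ℝ) - 3) * a G)
      + 9 * (k : ℝ) ^ 2 * (((R.filter fun z => ¬ 50 * td H z < N).filter fun z => z ∈ G).card : ℝ) := by
    intro G hG
    have hG' := mem_filter.1 hG
    have h3 : (3 : ℝ) ≤ G.card := by exact_mod_cast h.three G hG'.1
    rcases ((R.filter fun z => ¬ 50 * td H z < N).filter fun z => z ∈ G).eq_empty_or_nonempty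
      with he | hne
    · have hl : ∀ z ∈ G ∩ R, 1 + xc H N 2 z ≤ 10205 / 10000 := by
        intro z hz
        have hzR := (mem_inter.1 hz).2
        have hzG := (mem_inter.1 hz).1
        have hlt : 50 * td H z < N := by
          by_contra hc
          have : z ∈ (R.filter fun z => ¬ 50 * td H z < N).filter fun z => z ∈ G :=
            mem_filter.2 ⟨mem_filter.2 ⟨hzR, hc⟩, hzG⟩
          rw [he] at this
          exact absurd this (notMem_empty z)
        have h4 : 50 * (td H z : ℝ) < N := by exact_mod_cast hlt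
        have h5 := xc_mul_le h z
        have h6 := xc_nonneg h z
        have h7 : 49 * (xc H N 2 z * N) ≤ 50 * (xc H N 2 z * (N - td H z)) := by nlinarith
        have h8 : 49 * (xc H N 2 z * N) ≤ N := by linarith
        have h9 : xc H N 2 z ≤ 1 / 49 := by nlinarith
        linarith
      have h10 : a G ≤ 10205 / 10000 * ((G.card : ℝ) - 1) := by
        rw [ha]
        unfold aw
        refine (sum_le_sum hl).trans ?_
        rw [sum_const, nsmul_eq_mul]
        have h11 : (G ∩ R).card + 1 ≤ G.card := by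
          have : G ∩ R ⊆ G.erase u := by
            intro z hz
            exact mem_erase.2 ⟨fun e => hu (e ▸ (mem_inter.1 hz).2), (mem_inter.1 hz).1⟩
          have h12 := card_le_card this
          rw [card_erase_of_mem hG'.2] at h12
          have := h.three G hG'.1
          omega
        have h13 : ((G ∩ R).card : ℝ) + 1 ≤ G.card := by exact_mod_cast h11
        linarith
      have h14 := mul_le_mul_of_nonneg_right h10 (h0 G)
      have h15 : (0 : ℝ) ≤ 9 * (k : ℝ) ^ 2 * (((R.filter fun z => ¬ 50 * td H z < N).filter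
        fun z => z ∈ G).card : ℝ) := by positivity
      nlinarith
    · have h4 : (1 : ℝ) ≤ ((R.filter fun z => ¬ 50 * td H z < N).filter fun z => z ∈ G).card := by
        exact_mod_cast hne.card_pos
      have h5 : a G ≤ 3 * k := aw_le h R hG'.1
      have h6 : a G ^ 2 ≤ 9 * (k : ℝ) ^ 2 := by
        have := pow_le_pow_left₀ (h0 G) h5 2
        linarith [this]
      have h7 : 9 * (k : ℝ) ^ 2 * 1 ≤ 9 * (k : ℝ) ^ 2 * (((R.filter fun z => ¬ 50 * td H z < N).filter
        fun z => z ∈ G).card : ℝ) := mul_le_mul_of_nonneg_left h4 (by positivity)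
      have h8 : 0 ≤ ((G.card : ℝ) - 3) * a G := mul_nonneg (by linarith) (h0 G)
      have h9 := h0 G
      linarith
  have h2 := sum_le_sum h1
  rw [sum_add_distrib, sum_add_distrib, ← mul_sum, ← mul_sum, ← mul_sum] at h2
  have h3 : ∑ G ∈ H.filter (fun G => u ∈ G), (((R.filter fun z => ¬ 50 * td H z < N).filter
      fun z => z ∈ G).card : ℝ) ≤ 50 * k * S0 := by
    have h4 : ∑ G ∈ H.filter (fun G => u ∈ G), (((R.filter fun z => ¬ 50 * td H z < N).filter
      fun z => z ∈ G).card : ℝ)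
      = ∑ z ∈ R.filter (fun z => ¬ 50 * td H z < N), ((pe H u z).card : ℝ) := by
      have h5 : ∀ G : Finset V, (((R.filter fun z => ¬ 50 * td H z < N).filter fun z => z ∈ G).card : ℝ)
          = ∑ z ∈ R.filter (fun z => ¬ 50 * td H z < N), if z ∈ G then (1 : ℝ) else 0 := by
        intro G
        rw [card_eq_sum_ones, Nat.cast_sum, sum_filter]
        simp
      simp only [h5]
      rw [sum_comm]
      refine sum_congr rfl fun z _ => ?_
      rw [← sum_filter, filt_u_z, card_eq_sum_ones, Nat.cast_sum]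
      simp
    rw [h4]
    refine le_trans ?_ (card_mid h hN hS)
    rw [card_eq_sum_ones, Nat.cast_sum]
    apply sum_le_sum
    intro z hz
    have huz : u ≠ z := fun e => hu (e ▸ (mem_filter.1 hz).1)
    have := pe_card_le h huz
    exact_mod_cast this
  have h4 : 9 * (k : ℝ) ^ 2 * (∑ G ∈ H.filter (fun G => u ∈ G),
      (((R.filter fun z => ¬ 50 * td H z < N).filter fun z => z ∈ G).card : ℝ))
      ≤ 450 * (k : ℝ) ^ 3 * S0 := by
    refine (mul_le_mul_of_nonneg_left h3 (by positivity)).trans (le_of_eq ?_)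
    ring
  unfold Exx
  rw [← ha, mul_div_assoc', mul_div_assoc', ← add_div, ← add_div, div_le_div_iff_of_pos_right hNr]
  linarith

end Pool.Agent.JR
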