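import Pool.Agent.JR.E3
import Pool.Agent.JR.DI1
import Pool.Agent.JR.Mom3
import Pool.Agent.JR.J1

/-!
# JR: case E3, final form
-/

set_option autoImplicit false

namespace Pool.Agent.JR

/-- **E3.** -/
theorem thm_E3 : StE3 := thm_E3_of thm_DI1 thm_Q3 thm_J1

end Pool.Agent.JR
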