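import Pool.Agent.JR.St45
import Pool.Agent.JR.Mom3

/-!
# JR: the case E45, assembly
-/

set_option autoImplicit false

namespace Pool.Agent.JR

open Finset
open Pool.Agent.LawB (ev ins ali Law CB NB Conc CC ali_mem ev_add ev_sub ev_smul ev_sum)

private lemma E45_quad (om y c : ℝ) (hom : 0 ≤ om) (hom1 : om ≤ 0.16) :
    -(2 * c ^ 2) ≤ om * y * (0.02 * y - c) := by
  have h1 : -(12.5 * c ^ 2) ≤ y * (0.02 * y - c) := by nlinarith [sq_nonneg (y - 25 * c)]
  have h2 := mul_le_mul_of_nonneg_left h1 hom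
  have h3 : om * (12.5 * c ^ 2) ≤ 0.16 * (12.5 * c ^ 2) :=
    mul_le_mul_of_nonneg_right hom1 (by positivity)
  have e : om * y * (0.02 * y - c) = om * (y * (0.02 * y - c)) := by ring
  rw [e]
  linarith

/-- the real computation -/
private lemma E45_real (hDI : StDI45) (N Cb Cc b p0 p1 p2 q x4 m Y om TT : ℝ)
    (hN : 1000 ≤ N) (hN2 : 200 * Cc ^ 2 ≤ N) (hN3 : 100 * (|Cb| + 2 * |Cc|) ≤ N)
    (hb : 0.43 ≤ b) (hb1 : 1 / N ≤ 1 - 2 * b) (h0 : 0 ≤ p0) (h1 : 0 ≤ p1) (h2 : 0 ≤ p2)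
    (hp : p0 + p1 + p2 = 1) (hx4 : 0 ≤ x4) (hm : 0 ≤ m) (hxm : x4 + m ≤ 0.3)
    (hSF : 0 ≤ Y - m) (hSF2 : 0.84 * (Y - m) ≤ m) (hq : p1 + 2 * p2 ≤ q)
    (hq2 : q ≤ p1 + 2 * p2 + (0.776 * x4 + 7 * (1 / N)))
    (hom : om = 1.6 * max 0 (0.1 - (1 - 2 * b)))
    (hTT : 0 < om → 2 * (b * p2) - x4 - m / 2 ≤ TT) :
    0 ≤ (1 - b) * (1 - 5 * m * (1 - 2 * b) / (4 * (4 * b - 1))) - Cb * m / N
      + (b * (-1 + (2 * (b * q) + x4 + Y) - (Y - m) - Cc * (Y - m) / N) - b * q
        - b * p0 * (max 0 ((2 * (b * q) + x4 + Y) - 1 + 2 / N) / 2)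
        - b * p1 * (max 0 ((2 * (b * q) + x4 + Y) - 2 + 4 / N) / 2)
        + b * p2 * (om * (TT - Cc / N))) := by
  have hN0 : 0 < N := by linarith
  have he0 : 0 ≤ 1 / N := by positivity
  have hb2 : b < 1 / 2 := by
    have : 0 < 1 / N := by positivity
    linarith
  have he1 : 1 / N ≤ 0.001 := by
    rw [div_le_iff₀ hN0]; linarith
  have key := hDI b p0 p1 p2 (q - p1 - 2 * p2) x4 m Y (1 / N) hb hb2 h0 h1 h2 hp hx4 hm hxm
    (by linarith) (by linarith) he0 hb1 he1 (by linarith) (by linarith)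
  have e1 : 2 * b * (p1 + 2 * p2 + (q - p1 - 2 * p2)) = 2 * (b * q) := by ring
  have e2 : p1 + 2 * p2 + (q - p1 - 2 * p2) = q := by ring
  rw [e1, e2] at key
  rw [← hom] at key
  have e3 : 2 * (1 / N) = 2 / N := by ring
  have e4 : 4 * (1 / N) = 4 / N := by ring
  rw [e3, e4] at key
  have hom0 : 0 ≤ om := by
    rw [hom]
    have := le_max_left (0 : ℝ) (0.1 - (1 - 2 * b))
    linarith
  have hom1 : om ≤ 0.16 := by
    rw [hom]
    have : max (0 : ℝ) (0.1 - (1 - 2 * b)) ≤ 0.1 := max_le (by norm_num) (by linarith)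
    linarith
  -- the term with `om`
  have hO : b * p2 * (om * (1.98 * b * p2 - x4 - m / 2)) - 2 * (Cc / N) ^ 2
      ≤ b * p2 * (om * (TT - Cc / N)) := by
    rcases hom0.eq_or_lt with h | h
    · rw [← h]
      have : 0 ≤ 2 * (Cc / N) ^ 2 := by positivity
      linarith
    · have h3 := hTT h
      have h4 := E45_quad om (b * p2) (Cc / N) hom0 hom1
      have h5 : 0 ≤ om * (b * p2) := by
        have : 0 ≤ b * p2 := mul_nonneg (by linarith) h2
        positivity
      have h6 := mul_le_mul_of_nonneg_left h3 h5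
      have e5 : b * p2 * (om * (TT - Cc / N)) - b * p2 * (om * (1.98 * b * p2 - x4 - m / 2))
          = om * (b * p2) * TT - om * (b * p2) * (2 * (b * p2) - x4 - m / 2)
            + om * (b * p2) * (0.02 * (b * p2) - Cc / N) := by ring
      linarith
  -- the error terms
  have f1 : 2 * (Cc / N) ^ 2 ≤ 0.01 * (1 / N) := by
    have e6 : 2 * (Cc / N) ^ 2 = (2 * Cc ^ 2 / N) * (1 / N) := by field_simp
    rw [e6]
    apply mul_le_mul_of_nonneg_right _ he0
    rw [div_le_iff₀ hN0]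
    linarith
  have f2 : Cb * m / N + b * (Cc * (Y - m) / N) ≤ 0.01 * m := by
    have g1 : Cb * m / N ≤ |Cb| * m / N := by
      apply div_le_div_of_nonneg_right _ hN0.le
      exact mul_le_mul_of_nonneg_right (le_abs_self _) hm
    have g2 : b * (Cc * (Y - m) / N) ≤ 2 * |Cc| * m / N := by
      have g3 : b * (Cc * (Y - m) / N) = (b * Cc * (Y - m)) / N := by ring
      rw [g3]
      apply div_le_div_of_nonneg_right _ hN0.le
      have g4 : b * Cc ≤ 1 * |Cc| := by
        have g5 : b * Cc ≤ b * |Cc| := mul_le_mul_of_nonneg_left (le_abs_self _) (by linarith)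
        have g6 : b * |Cc| ≤ 1 * |Cc| := mul_le_mul_of_nonneg_right (by linarith) (abs_nonneg _)
        linarith
      have g7 : b * Cc * (Y - m) ≤ 1 * |Cc| * (Y - m) := mul_le_mul_of_nonneg_right g4 hSF
      have g8 : |Cc| * (Y - m) ≤ |Cc| * (2 * m) :=
        mul_le_mul_of_nonneg_left (by linarith) (abs_nonneg _)
      linarith
    have g9 : |Cb| * m / N + 2 * |Cc| * m / N = ((|Cb| + 2 * |Cc|) / N) * m := by ring
    have g10 : (|Cb| + 2 * |Cc|) / N ≤ 0.01 := by
      rw [div_le_iff₀ hN0]; linarith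
    have g11 := mul_le_mul_of_nonneg_right g10 hm
    linarith
  have f3 : 0.01 * (1 / N) ≤ 0.01 * (1 - 2 * b) := by linarith
  have e7 : b * (-1 + (2 * (b * q) + x4 + Y) - (Y - m) - Cc * (Y - m) / N) - b * q
        - b * p0 * (max 0 ((2 * (b * q) + x4 + Y) - 1 + 2 / N) / 2)
        - b * p1 * (max 0 ((2 * (b * q) + x4 + Y) - 2 + 4 / N) / 2)
        + b * p2 * (om * (TT - Cc / N))
      = b * (-1 + (2 * (b * q) + x4 + Y) - q - (Y - m)
        - p0 * max 0 ((2 * (b * q) + x4 + Y) - 1 + 2 / N) / 2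
        - p1 * max 0 ((2 * (b * q) + x4 + Y) - 2 + 4 / N) / 2
        + om * p2 * (1.98 * b * p2 - x4 - m / 2))
        - b * (Cc * (Y - m) / N)
        + (b * p2 * (om * (TT - Cc / N)) - b * p2 * (om * (1.98 * b * p2 - x4 - m / 2))) := by
    ring
  rw [e7]
  linarith

theorem thm_E45 (hDI : StDI45) (h45a : St45a) (h45b : St45b) (h45c : St45c) : StE45 := by
  intro k K S0
  obtain ⟨Na, ha⟩ := h45a k S0
  obtain ⟨Cb, Nb, hb⟩ := h45b k K S0
  obtain ⟨Cc, Nc, hc⟩ := h45c k K S0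
  refine ⟨max (max Na Nb) (max Nc (max 1000 (max ⌈200 * Cc ^ 2⌉₊ ⌈100 * (|Cb| + 2 * |Cc|)⌉₊))), ?_⟩
  intro V _ _ N H w u R Mk sp hN hD hQ hmarg
  have hNa : Na ≤ N := le_trans (by simp) hN
  have hNb : Nb ≤ N := le_trans (by simp) hN
  have hNc : Nc ≤ N := le_trans (by simp) hN
  have hN1 : 1000 ≤ N := le_trans (by simp) hN
  have hN2 : ⌈200 * Cc ^ 2⌉₊ ≤ N := le_trans (by simp) hN
  have hN3 : ⌈100 * (|Cb| + 2 * |Cc|)⌉₊ ≤ N := le_trans (by simp) hN
  have hN2' : 200 * Cc ^ 2 ≤ N := (Nat.le_ceil _).trans (by exact_mod_cast hN2)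
  have hN3' : 100 * (|Cb| + 2 * |Cc|) ≤ N := (Nat.le_ceil _).trans (by exact_mod_cast hN3)
  have hN1' : (1000 : ℝ) ≤ N := by exact_mod_cast hN1
  have hNr : (0 : ℝ) < N := by linarith
  obtain ⟨_, _, _, hx4, hm, hmx, hSF, hSF2, _, _, hcnt, hq1, hq2, _, hTT⟩ :=
    ha V N H u R Mk sp hNa hD
  have hfree := hb V N H w u R Mk sp hNb hD hQ hmarg
  have hcov : ∀ G ∈ HG H u, _ := fun G hG => hc V N H w u R Mk sp G hNc hD hQ hmarg hG
  set F := fun B => Psi (rho H N R sp B) (errv N (insert u R) B) 0 (Xv (insert u R) (xu H N) B)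
    with hF
  -- splitting
  have hsplit : ev w F = ev w (fun B => if u ∈ LawB.cov B then 0 else F B)
      + ∑ G ∈ HG H u, ev w (fun B => ins {G} B * F B) := by
    rw [← ev_sum, ← ev_add]
    have key : ∀ B, B ⊆ H → PD B → F B = (if u ∈ LawB.cov B then 0 else F B)
        + ∑ G ∈ HG H u, ins {G} B * F B := by
      intro B hBH hPD
      have h1 := cov_ind (H := H) B hBH hPD u (F B)
      have h2 : ∑ G ∈ HG H u, ins {G} B * F B
          = ∑ G ∈ H.filter (fun G => u ∈ G), ins {G} B * F B := rfl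
      rw [h2, ← h1]
      split_ifs <;> ring
    apply le_antisymm
    · exact hQ.mono' fun B hBH hPD => (key B hBH hPD).le
    · exact hQ.mono' fun B hBH hPD => (key B hBH hPD).ge
  rw [hsplit]
  have hbd0 : 0 < bd H u := by
    have := hD.hu
    omega
  have hbr : (0 : ℝ) < bd H u := by exact_mod_cast hbd0
  have hβ43 : 0.43 ≤ (bd H u : ℝ) / N := by
    rw [le_div_iff₀ hNr]
    have : (43 : ℝ) * N < 100 * bd H u := by exact_mod_cast hD.hu
    linarith
  have hβ1 : 1 / (N : ℝ) ≤ 1 - 2 * ((bd H u : ℝ) / N) := by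
    have : 2 * (bd H u : ℝ) + 1 ≤ N := by exact_mod_cast hD.big.two_bd_lt u
    rw [div_le_iff₀ hNr]
    have e : (1 - 2 * ((bd H u : ℝ) / N)) * N = N - 2 * bd H u := by field_simp
    rw [e]; linarith
  set β : ℝ := (bd H u : ℝ) / N with hβ
  have hβ0 : 0 < β := by positivity
  set p0 : ℝ := (cn H R u 0 : ℝ) / bd H u with hp0
  set p1 : ℝ := (cn H R u 1 : ℝ) / bd H u with hp1
  set p2 : ℝ := (c2 H R u : ℝ) / bd H u with hp2
  set q : ℝ := Sg H N R u / β with hq
  have hβq : β * q = Sg H N R u := by rw [hq]; field_simp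
  have hbp0 : β * p0 = (cn H R u 0 : ℝ) / N := by rw [hβ, hp0]; field_simp
  have hbp1 : β * p1 = (cn H R u 1 : ℝ) / N := by rw [hβ, hp1]; field_simp
  have hbp2 : β * p2 = (c2 H R u : ℝ) / N := by rw [hβ, hp2]; field_simp
  have hpsum : p0 + p1 + p2 = 1 := by
    rw [hp0, hp1, hp2, ← add_div, ← add_div, hcnt, div_self hbr.ne']
  have hqa : p1 + 2 * p2 ≤ q := by
    have e : p1 + 2 * p2 = ((cn H R u 1 : ℝ) + 2 * c2 H R u) / bd H u := by
      rw [hp1, hp2]; ring
    rw [e, hq, hβ, div_div_eq_mul_div]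
    apply div_le_div_of_nonneg_right _ hbr.le
    linarith
  have hqb : q ≤ p1 + 2 * p2 + (0.776 * x4 H N R u + 7 * (1 / N)) := by
    have e : p1 + 2 * p2 + (0.776 * x4 H N R u + 7 * (1 / N))
        = ((cn H R u 1 : ℝ) + 2 * c2 H R u + (0.776 * x4 H N R u + 7 / N) * bd H u)
          / bd H u := by
      rw [hp1, hp2]; field_simp
    rw [e, hq, hβ, div_div_eq_mul_div]
    apply div_le_div_of_nonneg_right _ hbr.le
    linarith
  have hSFe : SF H N R u = YF H Mk N R u - mm H Mk N R u := by unfold mm; ring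
  have hom : omx H N u = 1.6 * max 0 (0.1 - (1 - 2 * β)) := by
    unfold omx
    rw [hβ]
    have : 2 * (bd H u : ℝ) / N = 2 * ((bd H u : ℝ) / N) := by ring
    rw [this]
  have hTT' : 0 < omx H N u → 2 * (β * p2) - x4 H N R u - mm H Mk N R u / 2 ≤ TT N R u sp := by
    intro h
    have h1 : 0 < 0.1 - (1 - 2 * β) := by
      by_contra hcon
      push Not at hcon
      rw [hom, max_eq_left hcon] at h
      linarith
    have h2 : 9 * N ≤ 20 * bd H u := by
      have h3 : 0.45 * (N : ℝ) ≤ bd H u := by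
        have h4 : 0.45 ≤ β := by linarith
        rw [hβ, le_div_iff₀ hNr] at h4
        exact h4
      have h5 : (9 : ℝ) * N ≤ 20 * bd H u := by linarith
      exact_mod_cast h5
    have h6 := hTT h2
    rw [hbp2]
    have e : 2 * (c2 H R u : ℝ) / N = 2 * ((c2 H R u : ℝ) / N) := by ring
    rw [e] at h6
    exact h6
  -- the sum over `G`
  have hsum : β * (-1 + hh H Mk N R u - SF H N R u - Cc * SF H N R u / N) - Sg H N R u
        - β * p0 * (max 0 (hh H Mk N R u - 1 + 2 / N) / 2)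
        - β * p1 * (max 0 (hh H Mk N R u - 2 + 4 / N) / 2)
        + β * p2 * (omx H N u * (TT N R u sp - Cc / N))
      ≤ ∑ G ∈ HG H u, ev w (fun B => ins {G} B * F B) := by
    refine le_trans (le_of_eq ?_) (Finset.sum_le_sum hcov)
    rw [← Finset.sum_div]
    have hcard : ((HG H u).card : ℝ) = bd H u := rfl
    have e1 : ∑ G ∈ HG H u, (-1 + hh H Mk N R u - ax H N R G - SF H N R u
        - (if (G ∩ R).card = 0 then max 0 (hh H Mk N R u - 1 + 2 / N) / 2 else
          if (G ∩ R).card = 1 then max 0 (hh H Mk N R u - 2 + 4 / N) / 2 else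
            -(omx H N u * (TT N R u sp - Cc / N))) - Cc * SF H N R u / N)
        = bd H u * (-1 + hh H Mk N R u - SF H N R u - Cc * SF H N R u / N)
          - ∑ G ∈ HG H u, ax H N R G
          - ∑ G ∈ HG H u, (if (G ∩ R).card = 0 then max 0 (hh H Mk N R u - 1 + 2 / N) / 2 else
            if (G ∩ R).card = 1 then max 0 (hh H Mk N R u - 2 + 4 / N) / 2 else
            -(omx H N u * (TT N R u sp - Cc / N))) := by
      rw [← hcard, ← nsmul_eq_mul, ← Finset.sum_const, ← Finset.sum_sub_distrib,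
        ← Finset.sum_sub_distrib]
      exact Finset.sum_congr rfl fun G _ => by ring
    rw [e1]
    have e2 : ∑ G ∈ HG H u, (if (G ∩ R).card = 0 then max 0 (hh H Mk N R u - 1 + 2 / N) / 2 else
            if (G ∩ R).card = 1 then max 0 (hh H Mk N R u - 2 + 4 / N) / 2 else
            -(omx H N u * (TT N R u sp - Cc / N)))
        = (cn H R u 0 : ℝ) * (max 0 (hh H Mk N R u - 1 + 2 / N) / 2)
          + (cn H R u 1 : ℝ) * (max 0 (hh H Mk N R u - 2 + 4 / N) / 2)
          + (c2 H R u : ℝ) * (-(omx H N u * (TT N R u sp - Cc / N))) := by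
      have e3 : ∀ G : Finset V, (if (G ∩ R).card = 0 then
            max 0 (hh H Mk N R u - 1 + 2 / N) / 2 else
            if (G ∩ R).card = 1 then max 0 (hh H Mk N R u - 2 + 4 / N) / 2 else
            -(omx H N u * (TT N R u sp - Cc / N)))
          = (if (G ∩ R).card = 0 then (max 0 (hh H Mk N R u - 1 + 2 / N) / 2) else 0)
          + (if (G ∩ R).card = 1 then (max 0 (hh H Mk N R u - 2 + 4 / N) / 2) else 0)
          + (if 2 ≤ (G ∩ R).card then (-(omx H N u * (TT N R u sp - Cc / N))) else 0) := by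
        intro G
        by_cases h0 : (G ∩ R).card = 0
        · rw [if_pos h0, if_pos h0, if_neg (by omega), if_neg (by omega)]; ring
        · rw [if_neg h0, if_neg h0]
          by_cases h1 : (G ∩ R).card = 1
          · rw [if_pos h1, if_pos h1, if_neg (by omega)]; ring
          · rw [if_neg h1, if_neg h1, if_pos (by omega)]; ring
      rw [Finset.sum_congr rfl fun G _ => e3 G, Finset.sum_add_distrib, Finset.sum_add_distrib,
        ← Finset.sum_filter, ← Finset.sum_filter, ← Finset.sum_filter, Finset.sum_const,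
        Finset.sum_const, Finset.sum_const, nsmul_eq_mul, nsmul_eq_mul, nsmul_eq_mul]
      rfl
    rw [e2, hbp0, hbp1, hbp2, hβ]
    have e4 : Sg H N R u = (∑ G ∈ HG H u, ax H N R G) / N := rfl
    rw [e4]
    ring
  have hreal := E45_real hDI N Cb Cc β p0 p1 p2 q (x4 H N R u) (mm H Mk N R u) (YF H Mk N R u)
    (omx H N u) (TT N R u sp) hN1' hN2' hN3' hβ43 hβ1 (by positivity) (by positivity)
    (by positivity) hpsum hx4 hm (by linarith) (by rw [← hSFe]; exact hSF)
    (by rw [← hSFe]; exact hSF2) hqa hqb hom hTT'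
  rw [hβq, ← hSFe] at hreal
  have hhe : hh H Mk N R u = 2 * Sg H N R u + x4 H N R u + YF H Mk N R u := rfl
  rw [← hhe] at hreal
  have e5 : 2 * (bd H u : ℝ) / N = 2 * β := by rw [hβ]; ring
  have e6 : 4 * (bd H u : ℝ) / N = 4 * β := by rw [hβ]; ring
  rw [e5, e6] at hfree
  linarith

end Pool.Agent.JR
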