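import Pool.Agent.JR.St45

/-!
# JR, E45a: deterministic bounds in the case of one very heavy vertex
-/

set_option autoImplicit false

namespace Pool.Agent.JR

open Finset
open Pool.Agent.LawB (ev ins ali Law)

section gen

variable {V : Type*} [DecidableEq V]

private lemma E45a_dc (H' : Finset (Finset V)) (R : Finset V) (x : V → ℝ) (c : Finset V → ℝ) :
    ∑ F ∈ H', aw R x F * c F = ∑ z ∈ R, (1 + x z) * ∑ F ∈ H'.filter (fun F => z ∈ F), c F := by
  unfold aw
  simp_rw [Finset.sum_mul, Finset.mul_sum]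
  apply Finset.sum_comm'
  intro F z
  simp only [mem_inter, mem_filter]
  tauto

private lemma E45a_dc1 (H' : Finset (Finset V)) (R : Finset V) (x : V → ℝ) :
    ∑ F ∈ H', aw R x F = ∑ z ∈ R, (1 + x z) * ((H'.filter (fun F => z ∈ F)).card : ℝ) := by
  have h := E45a_dc H' R x (fun _ => 1)
  simpa using h

private lemma E45a_dc0 (H' : Finset (Finset V)) (R : Finset V) (x : V → ℝ) :
    ∑ F ∈ H', ∑ z ∈ F ∩ R, x z = ∑ z ∈ R, x z * ((H'.filter (fun F => z ∈ F)).card : ℝ) := by
  have h : ∀ z, x z * ((H'.filter (fun F => z ∈ F)).card : ℝ) =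
      ∑ F ∈ H'.filter (fun F => z ∈ F), x z := by
    intro z
    rw [Finset.sum_const, nsmul_eq_mul, mul_comm]
  simp_rw [h]
  apply Finset.sum_comm'
  intro F z
  simp only [mem_inter, mem_filter]
  tauto

private lemma E45a_split (H : Finset (Finset V)) (u : V) (c : Finset V → ℝ) :
    ∑ F ∈ H, c F = ∑ F ∈ HG H u, c F + ∑ F ∈ HF H u, c F :=
  (Finset.sum_filter_add_sum_filter_not H (fun F => u ∈ F) c).symm

private lemma E45a_splitz (H : Finset (Finset V)) (u z : V) (c : Finset V → ℝ) :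
    ∑ F ∈ H.filter (fun F => z ∈ F), c F = ∑ F ∈ (HG H u).filter (fun F => z ∈ F), c F +
      ∑ F ∈ (HF H u).filter (fun F => z ∈ F), c F := by
  rw [← Finset.sum_filter_add_sum_filter_not (H.filter (fun F => z ∈ F)) (fun F => u ∈ F) c]
  unfold HG HF
  rw [Finset.filter_comm (fun F => z ∈ F) (fun F => u ∈ F) H,
    Finset.filter_comm (fun F => z ∈ F) (fun F => u ∉ F) H]

private lemma E45a_bd (H : Finset (Finset V)) (u z : V) :
    bd H z = ((HG H u).filter (fun F => z ∈ F)).card + ((HF H u).filter (fun F => z ∈ F)).card := by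
  have h := E45a_splitz H u z (fun _ => 1)
  simp only [Finset.sum_const, nsmul_eq_mul, mul_one] at h
  unfold bd
  exact_mod_cast h

private lemma E45a_td (H : Finset (Finset V)) (h3 : ∀ F ∈ H, 3 ≤ F.card) (z : V) :
    (td H z : ℝ) = ∑ F ∈ H.filter (fun F => z ∈ F), ((F.card : ℝ) - 1) := by
  unfold td
  rw [Nat.cast_sum]
  refine Finset.sum_congr rfl fun F hF => ?_
  have h := h3 F (mem_filter.1 hF).1
  rw [Nat.cast_sub (by omega), Nat.cast_one]

private lemma E45a_g1 {k N : ℕ} {H : Finset (Finset V)} (B : Big k N H) (u z : V) (hz : z ≠ u) :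
    ((HG H u).filter (fun F => z ∈ F)).card ≤ 1 := by
  rw [Finset.card_le_one]
  intro F hF G hG
  by_contra hne
  rw [mem_filter] at hF hG
  unfold HG at hF hG
  rw [mem_filter] at hF hG
  have h1 := B.lin F hF.1.1 G hG.1.1 hne
  have h2 : ({u, z} : Finset V) ⊆ F ∩ G := by
    intro y hy
    rw [mem_insert, mem_singleton] at hy
    rw [mem_inter]
    rcases hy with rfl | rfl
    · exact ⟨hF.1.2, hG.1.2⟩
    · exact ⟨hF.2, hG.2⟩
  have h3 := Finset.card_le_card h2
  rw [Finset.card_pair (Ne.symm hz)] at h3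
  omega

private lemma E45a_aw (R : Finset V) (x : V → ℝ) (F : Finset V) :
    aw R x F = ((F ∩ R).card : ℝ) + ∑ z ∈ F ∩ R, x z := by
  unfold aw
  rw [Finset.sum_add_distrib, Finset.sum_const, nsmul_eq_mul, mul_one]

end gen

/-! ## Real inequalities -/

private lemma E45a_real (N t b g m : ℝ) (hN : 400 ≤ N) (ht : t ≤ N - 1) (h2 : 2 * b ≤ t)
    (hb : 0 ≤ b) (hg1 : g ≤ 1) (hm0 : 0 ≤ m) (hm : m ≤ b - g) (hm2 : m ≤ 2)
    (hv : 5 * b < 2 * N) :
    0 ≤ min (t / (N - t)) 2 - 0.16 * m / N - (1 + min (t / (N - t)) 2) * (b + g) / N ∧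
    (min (t / (N - t)) 2 - 0.16 * m / N - (1 + min (t / (N - t)) 2) * (b + g) / N < 0.3 →
      t / (N - t) ≤ 0.62) := by
  have hN0 : 0 < N := by linarith
  have hNt : 0 < N - t := by linarith
  obtain ⟨x, hx⟩ : ∃ x, x = t / (N - t) := ⟨_, rfl⟩
  rw [← hx]
  have hx0 : 0 ≤ x := by rw [hx]; exact div_nonneg (by linarith) hNt.le
  have hxN : x * N = (1 + x) * t := by
    have h := div_mul_cancel₀ t hNt.ne'
    rw [← hx] at h
    linarith
  rcases le_total x 2 with h | h
  · rw [min_eq_left h]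
    have hE : (x - 0.16 * m / N - (1 + x) * (b + g) / N) * N =
        (1 + x) * (t - b - g) - 0.16 * m := by
      field_simp
      linarith
    constructor
    · by_contra hneg
      push Not at hneg
      have h5 : (x - 0.16 * m / N - (1 + x) * (b + g) / N) * N < 0 := mul_neg_of_neg_of_pos hneg hN0
      rw [hE] at h5
      nlinarith [mul_nonneg hx0 (by linarith : 0 ≤ t - b - g)]
    · intro hlt
      have h5 : (x - 0.16 * m / N - (1 + x) * (b + g) / N) * N < 0.3 * N :=
        mul_lt_mul_of_pos_right hlt hN0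
      rw [hE] at h5
      have h6 : (1 + x) * (t / 2 - 1) ≤ (1 + x) * (t - b - g) :=
        mul_le_mul_of_nonneg_left (by linarith) (by linarith)
      by_contra hcon
      push Not at hcon
      nlinarith
  · rw [min_eq_right h]
    have h7 : 0.7 ≤ 2 - 0.16 * m / N - (1 + 2) * (b + g) / N := by
      rw [← sub_nonneg]
      have h8 : 2 - 0.16 * m / N - (1 + 2) * (b + g) / N - 0.7 =
          (1.3 * N - 0.16 * m - 3 * (b + g)) / N := by
        field_simp
        ring
      rw [h8]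
      apply div_nonneg _ hN0.le
      linarith
    exact ⟨by linarith, fun h9 => by linarith⟩

set_option maxHeartbeats 1000000 in
theorem thm_45a : St45a := by
  intro k S0
  refine ⟨400, ?_⟩
  intro V _ _ N H u R Mk sp hN D
  have hNr : (400 : ℝ) ≤ N := by exact_mod_cast hN
  have hN0 : (0 : ℝ) < N := by linarith
  have B := D.big
  have hzu : ∀ z ∈ R, z ≠ u := fun z hz h => D.uR (h ▸ hz)
  -- local degrees
  obtain ⟨g, hg⟩ : ∃ g : V → ℕ, g = fun z => ((HG H u).filter (fun F => z ∈ F)).card := ⟨_, rfl⟩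
  obtain ⟨f, hf⟩ : ∃ f : V → ℕ, f = fun z => ((HF H u).filter (fun F => z ∈ F)).card := ⟨_, rfl⟩
  have hbd : ∀ z, bd H z = g z + f z := fun z => by rw [hg, hf]; exact E45a_bd H u z
  have hg1 : ∀ z ∈ R, g z ≤ 1 := fun z hz => by rw [hg]; exact E45a_g1 B u z (hzu z hz)
  have hmkf : ∀ z, mk H Mk z ≤ f z := by
    intro z
    unfold mk
    split_ifs
    · rw [hf]
      apply Finset.card_le_card
      intro F hF
      rw [mem_filter] at hF ⊢
      refine ⟨?_, hF.2⟩
      unfold HF
      rw [mem_filter]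
      exact ⟨D.MkH hF.1, (D.Mk3 F hF.1).2.2⟩
    · exact Nat.zero_le _
  have hmk2 : ∀ z, mk H Mk z ≤ 2 := by
    intro z
    by_cases h : bd H z ≤ 2
    · have := hmkf z
      have := hbd z
      omega
    · unfold mk
      rw [if_neg h]
      exact Nat.zero_le _
  have htN : ∀ z, (td H z : ℝ) ≤ N - 1 := by
    intro z
    have h := B.deg z
    have h2 : ((td H z + 1 : ℕ) : ℝ) ≤ N := by exact_mod_cast h
    push_cast at h2
    linarith
  have htd : ∀ z, (td H z : ℝ) = ∑ F ∈ H.filter (fun F => z ∈ F), ((F.card : ℝ) - 1) :=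
    E45a_td H B.three
  have h3r : ∀ F ∈ H, (3 : ℝ) ≤ F.card := fun F hF => by exact_mod_cast B.three F hF
  have htb : ∀ z, 2 * (bd H z : ℝ) ≤ td H z := by
    intro z
    rw [htd, bd]
    have h : 2 * ((H.filter (fun F => z ∈ F)).card : ℝ) =
        ∑ F ∈ H.filter (fun F => z ∈ F), (2 : ℝ) := by
      rw [Finset.sum_const, nsmul_eq_mul, mul_comm]
    rw [h]
    refine Finset.sum_le_sum fun F hF => ?_
    have := h3r F (mem_filter.1 hF).1
    linarith
  have hxu0 : ∀ z, 0 ≤ xu H N z := by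
    intro z
    unfold xu
    exact div_nonneg (Nat.cast_nonneg _) (by linarith [htN z])
  have hxuN : ∀ z, xu H N z * N = (1 + xu H N z) * td H z := by
    intro z
    have h0 : (N : ℝ) - td H z ≠ 0 := by linarith [htN z]
    have h := div_mul_cancel₀ (td H z : ℝ) h0
    have h2 : xu H N z * ((N : ℝ) - td H z) = td H z := h
    linarith
  have hmkr : ∀ z, (mk H Mk z : ℝ) ≤ f z := fun z => by exact_mod_cast hmkf z
  have hmk2r : ∀ z, (mk H Mk z : ℝ) ≤ 2 := fun z => by exact_mod_cast hmk2 z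
  have hbdr : ∀ z, (bd H z : ℝ) = g z + f z := fun z => by rw [hbd]; push_cast; ring
  have hg1r : ∀ z ∈ R, (g z : ℝ) ≤ 1 := fun z hz => by exact_mod_cast hg1 z hz
  -- (1)
  have hm2 : m2 H N u R (fun z => xc H N 2 z - 0.16 * mk H Mk z / N) (aw R (xc H N 2)) =
      ∑ z ∈ R, (xc H N 2 z - 0.16 * mk H Mk z / N -
        (1 + xc H N 2 z) * ((bd H z : ℝ) + g z) / N) := by
    have e1 : ∑ G ∈ H.filter (fun G => u ∈ G), aw R (xc H N 2) G =
        ∑ z ∈ R, (1 + xc H N 2 z) * (g z : ℝ) := by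
      rw [hg]; exact E45a_dc1 (HG H u) R (xc H N 2)
    have e2 : ∑ F ∈ H.filter (fun F => u ∉ F), aw R (xc H N 2) F =
        ∑ z ∈ R, (1 + xc H N 2 z) * (f z : ℝ) := by
      rw [hf]; exact E45a_dc1 (HF H u) R (xc H N 2)
    unfold m2
    rw [e1, e2, Finset.mul_sum, Finset.sum_div, Finset.sum_div, ← Finset.sum_sub_distrib,
      ← Finset.sum_sub_distrib]
    refine Finset.sum_congr rfl fun z _ => ?_
    rw [hbdr]
    ring
  have hreal : ∀ z ∈ R, 0 ≤ xc H N 2 z - 0.16 * mk H Mk z / N -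
        (1 + xc H N 2 z) * ((bd H z : ℝ) + g z) / N ∧
      (xc H N 2 z - 0.16 * mk H Mk z / N -
        (1 + xc H N 2 z) * ((bd H z : ℝ) + g z) / N < 0.3 → xu H N z ≤ 0.62) := by
    intro z hz
    refine E45a_real N (td H z) (bd H z) (g z) (mk H Mk z) hNr (htN z) (htb z)
      (Nat.cast_nonneg _) (hg1r z hz) (Nat.cast_nonneg _) ?_ (hmk2r z) ?_
    · have := hmkr z
      have := hbdr z
      linarith
    · have h := D.hR z hz
      unfold vh at h
      push Not at h
      exact_mod_cast h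
  have hx62 : ∀ z ∈ R, xu H N z ≤ 0.62 := by
    intro z hz
    refine (hreal z hz).2 ?_
    have h1 := Finset.single_le_sum (f := fun z => xc H N 2 z - 0.16 * mk H Mk z / N -
      (1 + xc H N 2 z) * ((bd H z : ℝ) + g z) / N) (fun z hz => (hreal z hz).1) hz
    have h2 := D.m2s
    rw [hm2] at h2
    exact lt_of_le_of_lt h1 h2
  have hxcu : ∀ z ∈ R, xc H N 2 z = xu H N z := by
    intro z hz
    unfold xc
    exact min_eq_left (by linarith [hx62 z hz])
  have haw : ∀ F, aw R (xc H N 2) F = ax H N R F := by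
    intro F
    unfold ax aw
    refine Finset.sum_congr rfl fun z hz => ?_
    rw [hxcu z (mem_inter.1 hz).2]
  have hax0 : ∀ F, 0 ≤ ax H N R F := by
    intro F
    unfold ax aw
    exact Finset.sum_nonneg fun z _ => by linarith [hxu0 z]
  have haxn : ∀ F, ((F ∩ R).card : ℝ) ≤ ax H N R F := by
    intro F
    unfold ax
    rw [E45a_aw]
    have := Finset.sum_nonneg (s := F ∩ R) (f := fun z => xu H N z) (fun z _ => hxu0 z)
    linarith
  have haxn2 : ∀ F, ax H N R F ≤ 1.62 * ((F ∩ R).card : ℝ) := by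
    intro F
    unfold ax
    rw [E45a_aw]
    have h1 : ∑ z ∈ F ∩ R, xu H N z ≤ ∑ z ∈ F ∩ R, (0.62 : ℝ) :=
      Finset.sum_le_sum fun z hz => hx62 z (mem_inter.1 hz).2
    rw [Finset.sum_const, nsmul_eq_mul] at h1
    linarith
  -- (2)
  have hE2 : ∑ z ∈ R, (xu H N z - 0.16 * mk H Mk z / N) = hh H Mk N R u := by
    have e1 : ∑ z ∈ R, xu H N z = (∑ F ∈ H, ax H N R F * ((F.card : ℝ) - 1)) / N := by
      rw [eq_div_iff hN0.ne', Finset.sum_mul]
      unfold ax
      rw [E45a_dc]
      refine Finset.sum_congr rfl fun z _ => ?_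
      rw [hxuN, htd]
    rw [E45a_split H u] at e1
    have e2 : ∑ G ∈ HG H u, ax H N R G * ((G.card : ℝ) - 1) =
        2 * ∑ G ∈ HG H u, ax H N R G + ∑ G ∈ HG H u, ax H N R G * ((G.card : ℝ) - 3) := by
      rw [Finset.mul_sum, ← Finset.sum_add_distrib]
      exact Finset.sum_congr rfl fun z _ => by ring
    have e3 : ∑ z ∈ R, 0.16 * (mk H Mk z : ℝ) / N = 0.16 * (∑ z ∈ R, (mk H Mk z : ℝ)) / N := by
      rw [Finset.mul_sum, Finset.sum_div]
    rw [Finset.sum_sub_distrib, e1, e2, e3]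
    unfold hh Sg x4 YF
    ring
  -- marks
  have hMk0 : (∑ z ∈ R, (mk H Mk z : ℝ)) ≤ ∑ F ∈ Mk, ax H N R F := by
    unfold ax
    rw [E45a_dc1]
    refine Finset.sum_le_sum fun z _ => ?_
    have h1 : mk H Mk z ≤ (Mk.filter fun F => z ∈ F).card := by
      unfold mk
      split_ifs
      · exact le_refl _
      · exact Nat.zero_le _
    have h2 : (mk H Mk z : ℝ) ≤ ((Mk.filter fun F => z ∈ F).card : ℝ) := by exact_mod_cast h1
    have h3 := hxu0 z
    nlinarith [(Nat.cast_nonneg (Mk.filter fun F => z ∈ F).card : (0 : ℝ) ≤ _)]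
  have hMkF : Mk ⊆ HF H u := by
    intro F hF
    unfold HF
    rw [mem_filter]
    exact ⟨D.MkH hF, (D.Mk3 F hF).2.2⟩
  have hMk1 : ∑ F ∈ Mk, ax H N R F ≤ ∑ F ∈ HF H u, ax H N R F :=
    Finset.sum_le_sum_of_subset_of_nonneg hMkF fun F _ _ => hax0 F
  have hHF3 : ∀ F ∈ HF H u, (3 : ℝ) ≤ F.card := fun F hF => h3r F (mem_filter.1 hF).1
  have hHG3 : ∀ F ∈ HG H u, (3 : ℝ) ≤ F.card := fun F hF => h3r F (mem_filter.1 hF).1
  -- the quantity mm
  have hmmN : mm H Mk N R u * N = ∑ F ∈ HF H u, ax H N R F * ((F.card : ℝ) - 2) -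
      0.16 * ∑ z ∈ R, (mk H Mk z : ℝ) := by
    have e1 : ∑ F ∈ HF H u, ax H N R F * ((F.card : ℝ) - 2) =
        ∑ F ∈ HF H u, ax H N R F * ((F.card : ℝ) - 1) - ∑ F ∈ HF H u, ax H N R F := by
      rw [← Finset.sum_sub_distrib]
      exact Finset.sum_congr rfl fun z _ => by ring
    unfold mm YF SF
    rw [e1]
    field_simp
    ring
  have hSFN : SF H N R u * N = ∑ F ∈ HF H u, ax H N R F := by
    unfold SF
    field_simp
  have hSgN : Sg H N R u * N = ∑ F ∈ HG H u, ax H N R F := by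
    unfold Sg
    field_simp
  have hx4N : x4 H N R u * N = ∑ G ∈ HG H u, ax H N R G * ((G.card : ℝ) - 3) := by
    unfold x4
    field_simp
  have hSF0 : 0 ≤ SF H N R u := by
    unfold SF
    exact div_nonneg (Finset.sum_nonneg fun F _ => hax0 F) hN0.le
  have hx40 : 0 ≤ x4 H N R u := by
    unfold x4
    exact div_nonneg (Finset.sum_nonneg fun F hF =>
      mul_nonneg (hax0 F) (by linarith [hHG3 F hF])) hN0.le
  have hF2 : ∑ F ∈ HF H u, ax H N R F ≤ ∑ F ∈ HF H u, ax H N R F * ((F.card : ℝ) - 2) := by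
    refine Finset.sum_le_sum fun F hF => ?_
    have h1 := hHF3 F hF
    have h2 := hax0 F
    nlinarith
  have hmmSF : 0.84 * SF H N R u ≤ mm H Mk N R u := by
    have h1 : (0.84 * SF H N R u) * N ≤ mm H Mk N R u * N := by
      rw [hmmN, mul_assoc, hSFN]
      linarith
    exact le_of_mul_le_mul_right h1 hN0
  have hmm0 : 0 ≤ mm H Mk N R u := by linarith
  have hm2' : mm H Mk N R u + x4 H N R u < 0.3 := by
    have h2 := D.m2s
    unfold m2 at h2
    rw [Finset.sum_congr rfl fun G _ => haw G, Finset.sum_congr rfl fun G _ => haw G] at h2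
    have e1 : ∑ z ∈ R, (xc H N 2 z - 0.16 * mk H Mk z / N) = hh H Mk N R u := by
      rw [← hE2]
      exact Finset.sum_congr rfl fun z hz => by rw [hxcu z hz]
    rw [e1] at h2
    have e2 : hh H Mk N R u - 2 * (∑ G ∈ H.filter (fun G => u ∈ G), ax H N R G) / N
        - (∑ F ∈ H.filter (fun F => u ∉ F), ax H N R F) / N =
        mm H Mk N R u + x4 H N R u := by
      unfold hh mm SF Sg HG HF
      ring
    rw [← e2]
    exact h2
  -- (5)
  have h5 : (∑ F ∈ HF H u, ax H N R F ^ 2) / N ≤ 4.9 * mm H Mk N R u := by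
    rw [div_le_iff₀ hN0, mul_assoc, hmmN]
    have e1 : ∑ F ∈ HF H u, ax H N R F ^ 2 ≤
        ∑ F ∈ HF H u, (4.9 * (ax H N R F * ((F.card : ℝ) - 2)) -
          if F ∈ Mk then 0.784 * ax H N R F else 0) := by
      refine Finset.sum_le_sum fun F hF => ?_
      have h1 := hHF3 F hF
      have h2 := hax0 F
      have h3 := haxn2 F
      split_ifs with hM
      · obtain ⟨hc, hc2, -⟩ := D.Mk3 F hM
        have h4 : ((F ∩ R).card : ℝ) ≤ 2 := by exact_mod_cast hc2
        rw [hc]
        push_cast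
        nlinarith
      · have h4 : ((F ∩ R).card : ℝ) ≤ F.card := by
          exact_mod_cast Finset.card_le_card Finset.inter_subset_left
        nlinarith [mul_nonneg h2 (by linarith : (0 : ℝ) ≤ (F.card : ℝ) - 3)]
    have e2 : ∑ F ∈ HF H u, (if F ∈ Mk then 0.784 * ax H N R F else 0) =
        0.784 * ∑ F ∈ Mk, ax H N R F := by
      rw [Finset.sum_ite_mem, Finset.inter_eq_right.2 hMkF, Finset.mul_sum]
    rw [Finset.sum_sub_distrib, e2, ← Finset.mul_sum] at e1
    linarith
  -- the sets of vertices in the edges at u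
  have hsumn : ∀ c : V → ℝ, ∑ G ∈ HG H u, ∑ z ∈ G ∩ R, c z = ∑ z ∈ R, c z * (g z : ℝ) := by
    intro c
    rw [hg]
    exact E45a_dc0 (HG H u) R c
  have hsub : ∀ G ∈ HG H u, G ∩ R ⊆ G.erase u := by
    intro G hG z hz
    rw [mem_inter] at hz
    rw [mem_erase]
    exact ⟨hzu z hz.2, hz.1⟩
  have hncard : ∀ G ∈ HG H u, (G ∩ R).card + 1 ≤ G.card := by
    intro G hG
    have h1 := Finset.card_le_card (hsub G hG)
    have h2 : u ∈ G := (mem_filter.1 hG).2
    rw [Finset.card_erase_of_mem h2] at h1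
    have h3 := B.three G (mem_filter.1 hG).1
    omega
  have hncr : ∀ G ∈ HG H u, ((G ∩ R).card : ℝ) + 1 ≤ G.card :=
    fun G hG => by exact_mod_cast hncard G hG
  have hnt : ∑ G ∈ HG H u, ((G ∩ R).card : ℝ) ≤ N - 1 := by
    refine le_trans ?_ (htN u)
    rw [htd]
    exact Finset.sum_le_sum fun G hG => by linarith [hncr G hG]
  have hSgs : ∑ G ∈ HG H u, ax H N R G = ∑ G ∈ HG H u, ((G ∩ R).card : ℝ) +
      ∑ z ∈ R, xu H N z * (g z : ℝ) := by
    rw [← hsumn, ← Finset.sum_add_distrib]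
    refine Finset.sum_congr rfl fun G _ => ?_
    unfold ax
    rw [E45a_aw]
  have hgx : ∑ z ∈ R, xu H N z * (g z : ℝ) ≤ ∑ z ∈ R, xu H N z := by
    refine Finset.sum_le_sum fun z hz => ?_
    have h1 := hg1r z hz
    have h2 := hxu0 z
    nlinarith
  -- (3)
  have hmkS : 0.16 * (∑ z ∈ R, (mk H Mk z : ℝ)) ≤ 0.16 * (SF H N R u * N) := by
    rw [hSFN]
    linarith
  have hSum : ∑ z ∈ R, xu H N z ≤ 2.8 := by
    have e3 : ∑ z ∈ R, 0.16 * (mk H Mk z : ℝ) / N = 0.16 * (∑ z ∈ R, (mk H Mk z : ℝ)) / N := by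
      rw [Finset.mul_sum, Finset.sum_div]
    have h1 := hE2
    rw [Finset.sum_sub_distrib, e3] at h1
    have h2 : 0.16 * (∑ z ∈ R, (mk H Mk z : ℝ)) / N ≤ 0.16 * SF H N R u := by
      rw [div_le_iff₀ hN0]
      linarith
    have h3 : Sg H N R u * N ≤ N - 1 + ∑ z ∈ R, xu H N z := by
      rw [hSgN, hSgs]
      linarith
    have h4 : hh H Mk N R u = 2 * Sg H N R u + x4 H N R u + (mm H Mk N R u + SF H N R u) := by
      unfold hh mm
      ring
    rw [h4] at h1
    by_contra hcon
    push Not at hcon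
    have h6 : ∑ z ∈ R, xu H N z ≤ 2 * Sg H N R u + 0.72 := by linarith
    nlinarith
  have h6 : 2 * Sg H N R u ≤ 2 + 6 / N := by
    have h3 : Sg H N R u * N ≤ N - 1 + ∑ z ∈ R, xu H N z := by
      rw [hSgN, hSgs]
      linarith
    have h4 : (2 + 6 / (N : ℝ)) * N = 2 * N + 6 := by field_simp
    have h5 : 2 * Sg H N R u * N ≤ (2 + 6 / (N : ℝ)) * N := by
      rw [h4]
      linarith
    exact le_of_mul_le_mul_right h5 hN0
  -- numbers of edges
  have hcn : ∀ i, (cn H R u i : ℝ) = ∑ G ∈ HG H u, (if (G ∩ R).card = i then (1 : ℝ) else 0) := by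
    intro i
    unfold cn
    rw [Finset.card_filter]
    push_cast
    rfl
  have hc2 : (c2 H R u : ℝ) = ∑ G ∈ HG H u, (if 2 ≤ (G ∩ R).card then (1 : ℝ) else 0) := by
    unfold c2
    rw [Finset.card_filter]
    push_cast
    rfl
  have h7 : (cn H R u 0 : ℝ) + cn H R u 1 + c2 H R u = bd H u := by
    rw [hcn, hcn, hc2, ← Finset.sum_add_distrib, ← Finset.sum_add_distrib]
    have e1 : (bd H u : ℝ) = ∑ G ∈ HG H u, (1 : ℝ) := by
      rw [Finset.sum_const, nsmul_eq_mul, mul_one]
      rfl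
    rw [e1]
    refine Finset.sum_congr rfl fun G _ => ?_
    rcases Nat.lt_or_ge (G ∩ R).card 2 with h | h
    · rcases (by omega : (G ∩ R).card = 0 ∨ (G ∩ R).card = 1) with h' | h' <;> simp [h']
    · rw [if_neg (by omega), if_neg (by omega), if_pos h]
      ring
  have h8 : (cn H R u 1 : ℝ) + 2 * c2 H R u ≤ N * Sg H N R u := by
    rw [mul_comm (N : ℝ), hSgN, hcn, hc2, Finset.mul_sum, ← Finset.sum_add_distrib]
    refine Finset.sum_le_sum fun G _ => ?_
    have h1 := haxn G
    rcases Nat.lt_or_ge (G ∩ R).card 2 with h | h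
    · rcases (by omega : (G ∩ R).card = 0 ∨ (G ∩ R).card = 1) with h' | h'
      · rw [h'] at h1 ⊢
        simp
        simpa using h1
      · rw [h'] at h1 ⊢
        simp
        simpa using h1
    · have h2 : (2 : ℝ) ≤ (G ∩ R).card := by exact_mod_cast h
      rw [if_neg (by omega), if_pos h]
      linarith
  have h9 : N * Sg H N R u ≤ cn H R u 1 + 2 * c2 H R u +
      (0.776 * x4 H N R u + 7 / N) * bd H u := by
    have e1 : ∑ G ∈ HG H u, ((G ∩ R).card : ℝ) ≤ cn H R u 1 + 2 * c2 H R u +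
        (x4 H N R u * N) / 3 := by
      rw [hx4N, hcn, hc2, Finset.mul_sum, ← Finset.sum_add_distrib, Finset.sum_div,
        ← Finset.sum_add_distrib]
      refine Finset.sum_le_sum fun G hG => ?_
      have h1 := haxn G
      have h2 := hHG3 G hG
      have h3 := hax0 G
      have h4 := hncr G hG
      have h10 : 0 ≤ ax H N R G * ((G.card : ℝ) - 3) := mul_nonneg h3 (by linarith)
      rcases Nat.lt_or_ge (G ∩ R).card 2 with h | h
      · rcases (by omega : (G ∩ R).card = 0 ∨ (G ∩ R).card = 1) with h' | h'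
        · rw [h']
          simp
          linarith
        · rw [h']
          simp
          linarith
      · rw [if_neg (by omega), if_pos h]
        rcases Nat.lt_or_ge (G ∩ R).card 3 with h' | h'
        · have h11 : (G ∩ R).card = 2 := by omega
          rw [h11]
          push_cast
          linarith
        · have h11 : (3 : ℝ) ≤ (G ∩ R).card := by exact_mod_cast h'
          nlinarith [mul_nonneg (by linarith : (0 : ℝ) ≤ ax H N R G - 3)
            (by linarith : (0 : ℝ) ≤ (G.card : ℝ) - 3)]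
    have h43 : 43 * (N : ℝ) < 100 * bd H u := by exact_mod_cast D.hu
    have e2 : (x4 H N R u * N) / 3 ≤ 0.776 * x4 H N R u * bd H u := by nlinarith
    have e3 : (2.8 : ℝ) ≤ 7 / N * bd H u := by
      rw [div_mul_eq_mul_div, le_div_iff₀ hN0]
      linarith
    rw [mul_comm (N : ℝ), hSgN, hSgs]
    linarith
  -- (10)
  have hTTN : TT N R u sp * N = ∑ z ∈ R, (if u ∈ sp z then (1 : ℝ) else 0) := by
    unfold TT
    rw [div_mul_cancel₀ _ hN0.ne', Finset.card_filter]
    push_cast
    rfl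
  have hspg : ∀ z ∈ R, u ∈ sp z → g z = 1 := by
    intro z hz h
    obtain ⟨G, hG, huG, hzG⟩ := D.spu z hz h
    have h1 : 0 < g z := by
      rw [hg]
      apply Finset.card_pos.2
      refine ⟨G, ?_⟩
      rw [mem_filter]
      exact ⟨mem_filter.2 ⟨hG, huG⟩, hzG⟩
    have h2 := hg1 z hz
    omega
  have h10 : TT N R u sp ≤ 1 := by
    have e1 : TT N R u sp * N ≤ 1 * N := by
      rw [hTTN]
      have e2 := hsumn (fun _ => 1)
      have e3 : ∑ G ∈ HG H u, ∑ z ∈ G ∩ R, (1 : ℝ) = ∑ G ∈ HG H u, ((G ∩ R).card : ℝ) :=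
        Finset.sum_congr rfl fun G _ => by rw [Finset.sum_const, nsmul_eq_mul, mul_one]
      rw [e3] at e2
      have e4 : ∑ z ∈ R, (if u ∈ sp z then (1 : ℝ) else 0) ≤ ∑ z ∈ R, 1 * (g z : ℝ) := by
        refine Finset.sum_le_sum fun z hz => ?_
        split_ifs with h
        · rw [hspg z hz h]
          norm_num
        · positivity
      rw [← e2] at e4
      linarith
    exact le_of_mul_le_mul_right e1 hN0
  refine ⟨fun z hz => ⟨hxu0 z, hx62 z hz⟩, hE2, hSum, hx40, hmm0, hm2'.le, hSF0, hmmSF, h5, h6, h7,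
    h8, h9, h10, ?_⟩
  -- (11)
  intro h920
  have e1 : 2 * (c2 H R u : ℝ) ≤ ∑ z ∈ R, ((if u ∈ sp z then (1 : ℝ) else 0) +
      (if 3 ≤ bd H z then (1 : ℝ) else 0)) * (g z : ℝ) + x4 H N R u * N := by
    rw [← hsumn, hx4N, hc2, Finset.mul_sum, ← Finset.sum_add_distrib]
    refine Finset.sum_le_sum fun G hG => ?_
    have h1 := haxn G
    have h2 := hHG3 G hG
    have h3 := hax0 G
    have h4 := hncard G hG
    have hGH : G ∈ H := (mem_filter.1 hG).1
    have huG : u ∈ G := (mem_filter.1 hG).2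
    have h5 : 0 ≤ ax H N R G * ((G.card : ℝ) - 3) := mul_nonneg h3 (by linarith)
    have h6 : 0 ≤ ∑ z ∈ G ∩ R, ((if u ∈ sp z then (1 : ℝ) else 0) +
        (if 3 ≤ bd H z then (1 : ℝ) else 0)) := by
      refine Finset.sum_nonneg fun z _ => ?_
      positivity
    split_ifs with hc
    · have hcr : (2 : ℝ) ≤ (G ∩ R).card := by exact_mod_cast hc
      rcases Nat.lt_or_ge G.card 4 with h | h
      · have h7 : G.card = 3 := by
          have := B.three G hGH
          omega
        have h8 : (G ∩ R).card = 2 := by omega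
        have h9 : G ∩ R = G.erase u := by
          refine Finset.eq_of_subset_of_card_le (hsub G hG) ?_
          rw [Finset.card_erase_of_mem huG, h7, h8]
        have h10 : ∑ z ∈ G ∩ R, (1 : ℝ) ≤ ∑ z ∈ G ∩ R, ((if u ∈ sp z then (1 : ℝ) else 0) +
            (if 3 ≤ bd H z then (1 : ℝ) else 0)) := by
          refine Finset.sum_le_sum fun z hz => ?_
          rw [mem_inter] at hz
          by_cases hb : 3 ≤ bd H z
          · rw [if_pos hb]
            split_ifs <;> norm_num
          · have h11 : u ∈ sp z := by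
              refine D.spc z hz.2 (by omega) h920 G hGH h7 huG hz.1 fun y hy hyu _ => ?_
              have h12 : y ∈ G ∩ R := by
                rw [h9, mem_erase]
                exact ⟨hyu, hy⟩
              exact D.hR y (mem_inter.1 h12).2
            rw [if_pos h11]
            split_ifs <;> norm_num
        rw [Finset.sum_const, nsmul_eq_mul, mul_one, h8] at h10
        push_cast at h10
        linarith
      · have h7 : (4 : ℝ) ≤ G.card := by exact_mod_cast h
        nlinarith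
    · linarith
  have e2 : ∑ z ∈ R, ((if u ∈ sp z then (1 : ℝ) else 0) +
      (if 3 ≤ bd H z then (1 : ℝ) else 0)) * (g z : ℝ) ≤
      TT N R u sp * N + mm H Mk N R u * N / 2 := by
    have e3 : mm H Mk N R u * N = ∑ z ∈ R, ((1 + xu H N z) *
        (∑ F ∈ (HF H u).filter (fun F => z ∈ F), ((F.card : ℝ) - 2)) -
          0.16 * (mk H Mk z : ℝ)) := by
      rw [hmmN, Finset.sum_sub_distrib, ← Finset.mul_sum]
      unfold ax
      rw [E45a_dc]
    rw [hTTN, e3, Finset.sum_div, ← Finset.sum_add_distrib]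
    refine Finset.sum_le_sum fun z hz => ?_
    have h1 := hg1r z hz
    have h1' : (0 : ℝ) ≤ g z := Nat.cast_nonneg _
    have h2 := hxu0 z
    have h3 := hmkr z
    have h4 : (f z : ℝ) ≤ ∑ F ∈ (HF H u).filter (fun F => z ∈ F), ((F.card : ℝ) - 2) := by
      have h5 : (f z : ℝ) = ∑ F ∈ (HF H u).filter (fun F => z ∈ F), (1 : ℝ) := by
        rw [Finset.sum_const, nsmul_eq_mul, mul_one, hf]
      rw [h5]
      refine Finset.sum_le_sum fun F hF => ?_
      have := hHF3 F (mem_filter.1 hF).1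
      linarith
    have h4' : (0 : ℝ) ≤ f z := Nat.cast_nonneg _
    have h5 : (f z : ℝ) ≤ (1 + xu H N z) *
        ∑ F ∈ (HF H u).filter (fun F => z ∈ F), ((F.card : ℝ) - 2) := by nlinarith
    have h6 : (if u ∈ sp z then (1 : ℝ) else 0) * (g z : ℝ) ≤
        (if u ∈ sp z then (1 : ℝ) else 0) := by
      split_ifs <;> linarith
    have h7 : (if 3 ≤ bd H z then (1 : ℝ) else 0) * (g z : ℝ) ≤ ((1 + xu H N z) *
        (∑ F ∈ (HF H u).filter (fun F => z ∈ F), ((F.card : ℝ) - 2)) -
          0.16 * (mk H Mk z : ℝ)) / 2 := by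
      split_ifs with hb
      · have h8 : mk H Mk z = 0 := by
          unfold mk
          rw [if_neg (by omega)]
        have h9 : 2 ≤ f z := by
          have := hbd z
          have := hg1 z hz
          omega
        have h10 : (2 : ℝ) ≤ f z := by exact_mod_cast h9
        rw [h8]
        push_cast
        linarith
      · linarith
    linarith
  have e3 : (2 * (c2 H R u : ℝ) / N - x4 H N R u - mm H Mk N R u / 2) * N ≤
      TT N R u sp * N := by
    have e4 : (2 * (c2 H R u : ℝ) / N - x4 H N R u - mm H Mk N R u / 2) * N =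
        2 * (c2 H R u : ℝ) - x4 H N R u * N - mm H Mk N R u * N / 2 := by
      field_simp
    rw [e4]
    linarith
  exact le_of_mul_le_mul_right e3 hN0

end Pool.Agent.JR
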