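import Pool.Agent.JR.St45
import Pool.Agent.JR.J1
import Pool.Agent.JR.Large

/-!
# JR, module E45b: the case E45, the part where `u` is free
-/

set_option autoImplicit false
set_option linter.unusedVariables false
set_option linter.unusedSectionVars false

namespace Pool.Agent.JR

open Finset
open Pool.Agent.LawB (ev ins ali Law ev_add ev_sub ev_smul ev_sum)

section

variable {V : Type} [DecidableEq V]

/-- indicator of: `u` is free -/
private noncomputable def E45b_q (u : V) (B : Finset (Finset V)) : ℝ :=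
  if u ∈ LawB.cov B then 0 else 1

/-- indicator of `F ∈ B` -/
private noncomputable def E45b_e (F : Finset V) (B : Finset (Finset V)) : ℝ :=
  if F ∈ B then 1 else 0

private theorem E45b_q_nonneg (u : V) (B : Finset (Finset V)) : 0 ≤ E45b_q u B := by
  unfold E45b_q
  split_ifs <;> norm_num

private theorem E45b_e_nonneg (F : Finset V) (B : Finset (Finset V)) : 0 ≤ E45b_e F B := by
  unfold E45b_e
  split_ifs <;> norm_num

private theorem E45b_ee (F : Finset V) (B : Finset (Finset V)) :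
    E45b_e F B * E45b_e F B = E45b_e F B := by
  unfold E45b_e
  split_ifs <;> norm_num

private theorem E45b_ins1 (F : Finset V) (B : Finset (Finset V)) : E45b_e F B = ins {F} B := by
  unfold E45b_e ins
  simp only [singleton_subset_iff]

private theorem E45b_ins2 (F G : Finset V) (B : Finset (Finset V)) :
    E45b_e F B * E45b_e G B = ins {F, G} B := by
  unfold E45b_e ins
  by_cases hF : F ∈ B <;> by_cases hG : G ∈ B <;> simp [hF, hG, insert_subset_iff]

private theorem E45b_ins3 (F G D : Finset V) (B : Finset (Finset V)) :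
    E45b_e F B * (E45b_e G B * E45b_e D B) = ins {F, G, D} B := by
  unfold E45b_e ins
  by_cases hF : F ∈ B <;> by_cases hG : G ∈ B <;> by_cases hD : D ∈ B <;>
    simp [hF, hG, hD, insert_subset_iff]

/-- `1` minus the number of the edges at `u` in `B` -/
private theorem E45b_q_eq (H : Finset (Finset V)) (u : V) (B : Finset (Finset V)) (hBH : B ⊆ H)
    (hB : PD B) : E45b_q u B = 1 - ∑ G ∈ HG H u, E45b_e G B := by
  have h1 : ∑ G ∈ HG H u, E45b_e G B = (((HG H u).filter fun G => G ∈ B).card : ℝ) := by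
    unfold E45b_e
    rw [← sum_filter, sum_const, nsmul_eq_mul, mul_one]
  rw [h1]
  unfold E45b_q
  by_cases hu : u ∈ LawB.cov B
  · rw [if_pos hu]
    obtain ⟨G, hG, huG⟩ : ∃ G ∈ B, u ∈ G := by
      simpa [LawB.cov] using hu
    have h2 : (HG H u).filter (fun G => G ∈ B) = {G} := by
      ext D
      rw [mem_filter, mem_singleton, HG, mem_filter]
      constructor
      · rintro ⟨⟨_, huD⟩, hD⟩
        by_contra hne
        exact disjoint_left.mp (hB D hD G hG hne) huD huG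
      · rintro rfl
        exact ⟨⟨hBH hG, huG⟩, hG⟩
    rw [h2, card_singleton]
    norm_num
  · rw [if_neg hu]
    have h2 : (HG H u).filter (fun G => G ∈ B) = ∅ := by
      rw [filter_eq_empty_iff]
      intro G hG hGB
      apply hu
      rw [HG, mem_filter] at hG
      simpa [LawB.cov] using ⟨G, hGB, hG.2⟩
    rw [h2, card_empty]
    norm_num

/-- few edges at `u` meet an edge which does not contain `u` -/
private theorem E45b_meet {k N : ℕ} {H : Finset (Finset V)} (hH : Big k N H) {u : V}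
    {F : Finset V} (hF : F ∈ HF H u) :
    ((HG H u).filter fun G => ¬ Disjoint G F).card ≤ k := by
  rw [HF, mem_filter] at hF
  have h1 : (HG H u).filter (fun G => ¬ Disjoint G F) ⊆
      F.biUnion fun y => (HG H u).filter fun G => y ∈ G := by
    intro G hG
    obtain ⟨h2, h3⟩ := mem_filter.1 hG
    obtain ⟨y, hy1, hy2⟩ := not_disjoint_iff.1 h3
    exact mem_biUnion.2 ⟨y, hy2, mem_filter.2 ⟨h2, hy1⟩⟩
  refine (card_le_card h1).trans ((card_biUnion_le_card_mul F _ 1 fun y hy => ?_).trans ?_)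
  · refine card_le_one.2 fun G hG G' hG' => ?_
    rw [mem_filter, HG, mem_filter] at hG hG'
    by_contra hne
    have h2 := hH.lin G hG.1.1 G' hG'.1.1 hne
    have h3 : ({u, y} : Finset V) ⊆ G ∩ G' := by
      intro z hz
      rw [mem_insert, mem_singleton] at hz
      rcases hz with rfl | rfl
      · exact mem_inter.2 ⟨hG.1.2, hG'.1.2⟩
      · exact mem_inter.2 ⟨hG.2, hG'.2⟩
    have h4 : u ≠ y := fun h => hF.2 (h ▸ hy)
    have h5 := card_le_card h3
    rw [card_pair h4] at h5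
    omega
  · rw [mul_one]
    exact hH.card F hF.1

end

section

variable {V : Type} [Fintype V] [DecidableEq V] {k N : ℕ} {K : ℝ} {H : Finset (Finset V)}
  {w : Finset (Finset V) → ℝ}

private theorem E45b_congr (hq : QLaw K N H w) {f g : Finset (Finset V) → ℝ}
    (hfg : ∀ B, B ⊆ H → PD B → f B = g B) : ev w f = ev w g :=
  le_antisymm (hq.mono' fun B h1 h2 => (hfg B h1 h2).le)
    (hq.mono' fun B h1 h2 => (hfg B h1 h2).ge)

private theorem E45b_nonneg (hq : QLaw K N H w) {f : Finset (Finset V) → ℝ}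
    (hf : ∀ B, 0 ≤ f B) : 0 ≤ ev w f := by
  have := hq.mono' (f := fun _ => 0) (g := f) fun B _ _ => hf B
  rwa [hq.const'] at this

private theorem E45b_pow (N : ℕ) (K : ℝ) (m : ℕ) : (K / N) ^ m ≤ |K| ^ m / (N : ℝ) ^ m := by
  rw [div_pow]
  refine div_le_div_of_nonneg_right ?_ (by positivity)
  rw [← abs_pow]
  exact le_abs_self _

/-- two edges -/
private theorem E45b_P2 (hH : Big k N H) (hq : QLaw K N H w) {F G : Finset V} (hF : F ∈ H)
    (hG : G ∈ H) (hd : Disjoint F G) :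
    |ev w (fun B => E45b_e F B * E45b_e G B) - 1 / (N : ℝ) ^ 2| ≤ |K| ^ 3 / (N : ℝ) ^ 3 := by
  have hne : F ≠ G := by
    intro h
    rw [h, disjoint_self] at hd
    have := hH.three G hG
    rw [hd] at this
    simp at this
  have h1 := hq.rpt {F, G} (by
    intro x hx
    rw [mem_insert, mem_singleton] at hx
    rcases hx with rfl | rfl
    · exact hF
    · exact hG) (by
    intro x hx y hy hxy
    rw [mem_insert, mem_singleton] at hx hy
    rcases hx with rfl | rfl <;> rcases hy with rfl | rfl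
    · exact absurd rfl hxy
    · exact hd
    · exact hd.symm
    · exact absurd rfl hxy)
  rw [card_pair hne] at h1
  have e1 : ev w (fun B => E45b_e F B * E45b_e G B) = ev w (ins {F, G}) := by
    congr 1
    funext B
    exact E45b_ins2 F G B
  rw [e1]
  have e2 : (1 / (N : ℝ)) ^ 2 = 1 / (N : ℝ) ^ 2 := by rw [div_pow, one_pow]
  rw [e2] at h1
  exact h1.trans (E45b_pow N K 3)

private theorem E45b_P20 (hq : QLaw K N H w) {F G : Finset V} (hne : F ≠ G)
    (hd : ¬ Disjoint F G) : ev w (fun B => E45b_e F B * E45b_e G B) = 0 := by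
  have h1 : ev w (fun B => E45b_e F B * E45b_e G B) = ev w (fun _ => 0) := by
    refine E45b_congr hq fun B _ hB => ?_
    unfold E45b_e
    by_cases hF : F ∈ B
    · by_cases hG : G ∈ B
      · exact absurd (hB F hF G hG hne) hd
      · simp [hG]
    · simp [hF]
  rw [h1, hq.const']

/-- three edges -/
private theorem E45b_P3 (hH : Big k N H) (hq : QLaw K N H w) {F G D : Finset V} (hF : F ∈ H)
    (hG : G ∈ H) (hD : D ∈ H) (h1 : Disjoint F G) (h2 : Disjoint F D) (h3 : Disjoint G D) :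
    1 / (N : ℝ) ^ 3 - |K| ^ 4 / (N : ℝ) ^ 4 ≤
      ev w (fun B => E45b_e F B * (E45b_e G B * E45b_e D B)) := by
  have hne : ∀ A ∈ H, ∀ A' ∈ H, Disjoint A A' → A ≠ A' := by
    intro A hA A' hA' hd h
    rw [h, disjoint_self] at hd
    have := hH.three A' hA'
    rw [hd] at this
    simp at this
  have hFG := hne F hF G hG h1
  have hFD := hne F hF D hD h2
  have hGD := hne G hG D hD h3
  have h4 := hq.rpt {F, G, D} (by
    intro x hx
    rw [mem_insert, mem_insert, mem_singleton] at hx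
    rcases hx with rfl | rfl | rfl
    · exact hF
    · exact hG
    · exact hD) (by
    intro x hx y hy hxy
    rw [mem_insert, mem_insert, mem_singleton] at hx hy
    rcases hx with rfl | rfl | rfl <;> rcases hy with rfl | rfl | rfl
    · exact absurd rfl hxy
    · exact h1
    · exact h2
    · exact h1.symm
    · exact absurd rfl hxy
    · exact h3
    · exact h2.symm
    · exact h3.symm
    · exact absurd rfl hxy)
  have hc : ({F, G, D} : Finset (Finset V)).card = 3 := card_eq_three.2 ⟨F, G, D, hFG, hFD, hGD, rfl⟩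
  rw [hc] at h4
  have e1 : ev w (fun B => E45b_e F B * (E45b_e G B * E45b_e D B)) = ev w (ins {F, G, D}) := by
    congr 1
    funext B
    exact E45b_ins3 F G D B
  have e2 : (1 / (N : ℝ)) ^ 3 = 1 / (N : ℝ) ^ 3 := by rw [div_pow, one_pow]
  rw [e2] at h4
  rw [e1]
  have h5 := (abs_le.1 (h4.trans (E45b_pow N K 4))).1
  linarith

/-- the chance that `u` is free -/
private theorem E45b_Q0 (hq : QLaw K N H w) (hm : ∀ F ∈ H, ev w (ins {F}) = 1 / N) (u : V) :
    ev w (E45b_q u) = 1 - (bd H u : ℝ) / N := by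
  have h1 : ev w (E45b_q u) = ev w (fun B => 1 - ∑ G ∈ HG H u, E45b_e G B) :=
    E45b_congr hq fun B h1 h2 => E45b_q_eq H u B h1 h2
  rw [h1, ev_sub, hq.const', ev_sum]
  have h2 : ∑ G ∈ HG H u, ev w (E45b_e G) = ∑ G ∈ HG H u, (1 / (N : ℝ)) := by
    refine sum_congr rfl fun G hG => ?_
    rw [← hm G (mem_filter.1 hG).1]
    congr 1
    funext B
    exact E45b_ins1 G B
  rw [h2, sum_const, nsmul_eq_mul]
  show (1 : ℝ) - (bd H u : ℝ) * (1 / N) = _
  ring

/-- one edge away from `u` -/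
private theorem E45b_Q1 (hH : Big k N H) (hq : QLaw K N H w)
    (hm : ∀ F ∈ H, ev w (ins {F}) = 1 / N) (hN : 0 < N) (u : V) {F : Finset V}
    (hF : F ∈ HF H u) :
    |ev w (fun B => E45b_q u B * E45b_e F B) - (1 - (bd H u : ℝ) / N) / N| ≤
      (k + |K| ^ 3) / (N : ℝ) ^ 2 := by
  have hn : (0 : ℝ) < N := by exact_mod_cast hN
  have hFH : F ∈ H := (mem_filter.1 hF).1
  have huF : u ∉ F := (mem_filter.1 hF).2
  have h1 : ev w (fun B => E45b_q u B * E45b_e F B) =
      1 / N - ∑ G ∈ HG H u, ev w (fun B => E45b_e G B * E45b_e F B) := by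
    have h2 : ev w (fun B => E45b_q u B * E45b_e F B) =
        ev w (fun B => E45b_e F B - ∑ G ∈ HG H u, E45b_e G B * E45b_e F B) := by
      refine E45b_congr hq fun B h1 h2 => ?_
      rw [E45b_q_eq H u B h1 h2, sub_mul, one_mul, sum_mul]
    rw [h2, ev_sub, ev_sum, ← hm F hFH]
    congr 2
    funext B
    exact E45b_ins1 F B
  set D := (HG H u).filter fun G => Disjoint G F with hD
  set M := (HG H u).filter fun G => ¬ Disjoint G F with hM
  have hcard : (D.card : ℝ) + M.card = bd H u := by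
    have := card_filter_add_card_filter_not (s := HG H u) (fun G => Disjoint G F)
    have h2 : (HG H u).card = bd H u := rfl
    rw [h2] at this
    exact_mod_cast this
  have hMk : (M.card : ℝ) ≤ k := by exact_mod_cast E45b_meet hH hF
  have hM0 : (0 : ℝ) ≤ M.card := Nat.cast_nonneg _
  have hbn : (bd H u : ℝ) ≤ N := by
    have := hH.two_bd_lt u
    exact_mod_cast (by omega : bd H u ≤ N)
  have h2 : ∑ G ∈ HG H u, ev w (fun B => E45b_e G B * E45b_e F B) =
      ∑ G ∈ D, ev w (fun B => E45b_e G B * E45b_e F B) := by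
    rw [← sum_filter_add_sum_filter_not (HG H u) (fun G => Disjoint G F)]
    rw [add_eq_left]
    refine sum_eq_zero fun G hG => ?_
    obtain ⟨h3, h4⟩ := mem_filter.1 hG
    refine E45b_P20 hq ?_ h4
    rintro rfl
    exact huF (mem_filter.1 h3).2
  have h3 : |∑ G ∈ D, (ev w (fun B => E45b_e G B * E45b_e F B) - 1 / (N : ℝ) ^ 2)| ≤
      D.card * (|K| ^ 3 / (N : ℝ) ^ 3) := by
    refine (abs_sum_le_sum_abs _ _).trans ?_
    rw [← nsmul_eq_mul, ← sum_const]
    refine sum_le_sum fun G hG => ?_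
    obtain ⟨h3, h4⟩ := mem_filter.1 hG
    exact E45b_P2 hH hq (mem_filter.1 h3).1 hFH h4
  rw [sum_sub_distrib, sum_const, nsmul_eq_mul] at h3
  have h4 : (D.card : ℝ) * (|K| ^ 3 / (N : ℝ) ^ 3) ≤ |K| ^ 3 / (N : ℝ) ^ 2 := by
    have h5 : (D.card : ℝ) ≤ N := by linarith
    calc (D.card : ℝ) * (|K| ^ 3 / (N : ℝ) ^ 3) ≤ N * (|K| ^ 3 / (N : ℝ) ^ 3) :=
          mul_le_mul_of_nonneg_right h5 (by positivity)
      _ = _ := by field_simp
  have h5 := abs_le.1 (h3.trans h4)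
  rw [h1, h2, abs_le]
  have e1 : (1 - (bd H u : ℝ) / N) / N = 1 / N - D.card * (1 / (N : ℝ) ^ 2) -
      M.card * (1 / (N : ℝ) ^ 2) := by
    rw [← hcard]
    field_simp
    ring
  have e2 : (k + |K| ^ 3) / (N : ℝ) ^ 2 = k * (1 / (N : ℝ) ^ 2) + |K| ^ 3 / (N : ℝ) ^ 2 := by
    ring
  have h6 : (M.card : ℝ) * (1 / (N : ℝ) ^ 2) ≤ k * (1 / (N : ℝ) ^ 2) :=
    mul_le_mul_of_nonneg_right hMk (by positivity)
  have h7 : 0 ≤ (M.card : ℝ) * (1 / (N : ℝ) ^ 2) := by positivity
  have h8 : 0 ≤ k * (1 / (N : ℝ) ^ 2) := by positivity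
  rw [e1, e2]
  constructor <;> linarith

/-- two different edges away from `u` -/
private theorem E45b_Q2 (hH : Big k N H) (hq : QLaw K N H w) (hN : 0 < N) (u : V)
    {F F1 : Finset V} (hF : F ∈ HF H u) (hF1 : F1 ∈ HF H u) (hne : F ≠ F1) :
    ev w (fun B => E45b_q u B * (E45b_e F B * E45b_e F1 B)) ≤
      (1 - (bd H u : ℝ) / N) / (N : ℝ) ^ 2 + (|K| ^ 3 + 2 * k + |K| ^ 4) / (N : ℝ) ^ 3 := by
  have hn : (0 : ℝ) < N := by exact_mod_cast hN
  have hFH : F ∈ H := (mem_filter.1 hF).1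
  have hF1H : F1 ∈ H := (mem_filter.1 hF1).1
  have hbn : (bd H u : ℝ) ≤ N := by
    have := hH.two_bd_lt u
    exact_mod_cast (by omega : bd H u ≤ N)
  have hb1 : 0 ≤ 1 - (bd H u : ℝ) / N := by
    rw [sub_nonneg, div_le_one hn]
    exact hbn
  by_cases hd : Disjoint F F1
  · have h1 : ev w (fun B => E45b_q u B * (E45b_e F B * E45b_e F1 B)) =
        ev w (fun B => E45b_e F B * E45b_e F1 B) -
          ∑ G ∈ HG H u, ev w (fun B => E45b_e G B * (E45b_e F B * E45b_e F1 B)) := by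
      have h2 : ev w (fun B => E45b_q u B * (E45b_e F B * E45b_e F1 B)) =
          ev w (fun B => E45b_e F B * E45b_e F1 B -
            ∑ G ∈ HG H u, E45b_e G B * (E45b_e F B * E45b_e F1 B)) := by
        refine E45b_congr hq fun B h1 h2 => ?_
        rw [E45b_q_eq H u B h1 h2, sub_mul, one_mul, sum_mul]
      rw [h2, ev_sub, ev_sum]
    set D := (HG H u).filter fun G => Disjoint G F ∧ Disjoint G F1 with hD
    have hcard : (bd H u : ℝ) ≤ D.card + 2 * k := by
      have h2 : bd H u ≤ D.card + k + k := by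
        have h3 : HG H u ⊆ (D ∪ (HG H u).filter fun G => ¬ Disjoint G F) ∪
            (HG H u).filter fun G => ¬ Disjoint G F1 := by
          intro G hG
          by_cases h4 : Disjoint G F
          · by_cases h5 : Disjoint G F1
            · exact mem_union_left _ (mem_union_left _ (mem_filter.2 ⟨hG, h4, h5⟩))
            · exact mem_union_right _ (mem_filter.2 ⟨hG, h5⟩)
          · exact mem_union_left _ (mem_union_right _ (mem_filter.2 ⟨hG, h4⟩))
        have h4 : bd H u = (HG H u).card := rfl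
        rw [h4]
        refine (card_le_card h3).trans ((card_union_le _ _).trans ?_)
        exact Nat.add_le_add ((card_union_le _ _).trans
          (Nat.add_le_add_left (E45b_meet hH hF) _)) (E45b_meet hH hF1)
      have h3 : (bd H u : ℝ) ≤ ((D.card + k + k : ℕ) : ℝ) := by exact_mod_cast h2
      push_cast at h3
      linarith
    have hDn : (D.card : ℝ) ≤ N := by
      have h2 : D.card ≤ bd H u := card_le_card (filter_subset _ _)
      have h3 : (D.card : ℝ) ≤ bd H u := by exact_mod_cast h2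
      linarith
    have h2 : (D.card : ℝ) * (1 / (N : ℝ) ^ 3 - |K| ^ 4 / (N : ℝ) ^ 4) ≤
        ∑ G ∈ HG H u, ev w (fun B => E45b_e G B * (E45b_e F B * E45b_e F1 B)) := by
      calc (D.card : ℝ) * (1 / (N : ℝ) ^ 3 - |K| ^ 4 / (N : ℝ) ^ 4) =
            ∑ G ∈ D, (1 / (N : ℝ) ^ 3 - |K| ^ 4 / (N : ℝ) ^ 4) := by
            rw [sum_const, nsmul_eq_mul]
        _ ≤ ∑ G ∈ D, ev w (fun B => E45b_e G B * (E45b_e F B * E45b_e F1 B)) := by
            refine sum_le_sum fun G hG => ?_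
            obtain ⟨h3, h4, h5⟩ := mem_filter.1 hG
            exact E45b_P3 hH hq (mem_filter.1 h3).1 hFH hF1H h4 h5 hd
        _ ≤ _ := sum_le_sum_of_subset_of_nonneg (filter_subset _ _) fun G _ _ =>
            E45b_nonneg hq fun B => mul_nonneg (E45b_e_nonneg _ _)
              (mul_nonneg (E45b_e_nonneg _ _) (E45b_e_nonneg _ _))
    have h3 := (abs_le.1 (E45b_P2 hH hq hFH hF1H hd)).2
    have h4 : (D.card : ℝ) * (|K| ^ 4 / (N : ℝ) ^ 4) ≤ |K| ^ 4 / (N : ℝ) ^ 3 := by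
      calc (D.card : ℝ) * (|K| ^ 4 / (N : ℝ) ^ 4) ≤ N * (|K| ^ 4 / (N : ℝ) ^ 4) :=
            mul_le_mul_of_nonneg_right hDn (by positivity)
        _ = _ := by field_simp
    have h5 : ((bd H u : ℝ) - 2 * k) * (1 / (N : ℝ) ^ 3) ≤ D.card * (1 / (N : ℝ) ^ 3) :=
      mul_le_mul_of_nonneg_right (by linarith) (by positivity)
    have e1 : (1 - (bd H u : ℝ) / N) / (N : ℝ) ^ 2 +
        (|K| ^ 3 + 2 * k + |K| ^ 4) / (N : ℝ) ^ 3 =
        1 / (N : ℝ) ^ 2 + |K| ^ 3 / (N : ℝ) ^ 3 - ((bd H u : ℝ) - 2 * k) * (1 / (N : ℝ) ^ 3) +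
          |K| ^ 4 / (N : ℝ) ^ 3 := by
      field_simp
      ring
    rw [h1, e1]
    linarith
  · have h1 : ev w (fun B => E45b_q u B * (E45b_e F B * E45b_e F1 B)) = 0 := by
      refine le_antisymm ?_ (E45b_nonneg hq fun B => mul_nonneg (E45b_q_nonneg _ _)
        (mul_nonneg (E45b_e_nonneg _ _) (E45b_e_nonneg _ _)))
      rw [← E45b_P20 hq hne hd]
      refine hq.mono' fun B _ _ => ?_
      have h2 : E45b_q u B ≤ 1 := by
        unfold E45b_q
        split_ifs <;> norm_num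
      have h3 : 0 ≤ E45b_e F B * E45b_e F1 B := mul_nonneg (E45b_e_nonneg _ _) (E45b_e_nonneg _ _)
      nlinarith
    rw [h1]
    positivity

/-- the weighted number of the edges away from `u` -/
private noncomputable def E45b_J (H : Finset (Finset V)) (u : V) (a : Finset V → ℝ)
    (B : Finset (Finset V)) : ℝ := ∑ F ∈ HF H u, a F * E45b_e F B

/-- first moment -/
private theorem E45b_M1 (hH : Big k N H) (hq : QLaw K N H w)
    (hm : ∀ F ∈ H, ev w (ins {F}) = 1 / N) (hN : 0 < N) (u : V) (a : Finset V → ℝ)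
    (ha : ∀ F ∈ H, 0 ≤ a F) :
    |ev w (fun B => E45b_q u B * E45b_J H u a B) -
      (1 - (bd H u : ℝ) / N) * ((∑ F ∈ HF H u, a F) / N)| ≤
      (k + |K| ^ 3) * ((∑ F ∈ HF H u, a F) / N) / N := by
  have hn : (0 : ℝ) < N := by exact_mod_cast hN
  have h1 : ev w (fun B => E45b_q u B * E45b_J H u a B) =
      ∑ F ∈ HF H u, a F * ev w (fun B => E45b_q u B * E45b_e F B) := by
    have h2 : (fun B => E45b_q u B * E45b_J H u a B) =
        fun B => ∑ F ∈ HF H u, a F * (E45b_q u B * E45b_e F B) := by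
      funext B
      unfold E45b_J
      rw [mul_sum]
      exact sum_congr rfl fun F _ => by ring
    rw [h2, ev_sum]
    exact sum_congr rfl fun F _ => ev_smul _ _ _
  have h2 : (1 - (bd H u : ℝ) / N) * ((∑ F ∈ HF H u, a F) / N) =
      ∑ F ∈ HF H u, a F * ((1 - (bd H u : ℝ) / N) / N) := by
    rw [← sum_mul]
    ring
  have h3 : (k + |K| ^ 3) * ((∑ F ∈ HF H u, a F) / N) / N =
      ∑ F ∈ HF H u, a F * ((k + |K| ^ 3) / (N : ℝ) ^ 2) := by
    rw [← sum_mul]
    field_simp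
  rw [h1, h2, h3, ← sum_sub_distrib]
  refine (abs_sum_le_sum_abs _ _).trans (sum_le_sum fun F hF => ?_)
  have haF := ha F (mem_filter.1 hF).1
  rw [← mul_sub, abs_mul, abs_of_nonneg haF]
  exact mul_le_mul_of_nonneg_left (E45b_Q1 hH hq hm hN u hF) haF

/-- second moment -/
private theorem E45b_M2 (hH : Big k N H) (hq : QLaw K N H w)
    (hm : ∀ F ∈ H, ev w (ins {F}) = 1 / N) (hN : 0 < N) (u : V) (a : Finset V → ℝ)
    (ha : ∀ F ∈ H, 0 ≤ a F) :
    ev w (fun B => E45b_q u B * E45b_J H u a B ^ 2) ≤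
      ((∑ F ∈ HF H u, a F ^ 2) / N) * ((1 - (bd H u : ℝ) / N) + (k + |K| ^ 3) / N) +
      ((∑ F ∈ HF H u, a F) / N) ^ 2 *
        ((1 - (bd H u : ℝ) / N) + (|K| ^ 3 + 2 * k + |K| ^ 4) / N) := by
  have hn : (0 : ℝ) < N := by exact_mod_cast hN
  have hbn : (bd H u : ℝ) ≤ N := by
    have := hH.two_bd_lt u
    exact_mod_cast (by omega : bd H u ≤ N)
  have hb1 : 0 ≤ 1 - (bd H u : ℝ) / N := by
    rw [sub_nonneg, div_le_one hn]
    exact hbn
  obtain ⟨p, hp⟩ : ∃ p : ℝ, p = (1 - (bd H u : ℝ) / N) / N + (k + |K| ^ 3) / (N : ℝ) ^ 2 :=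
    ⟨_, rfl⟩
  obtain ⟨r, hr⟩ : ∃ r : ℝ, r = (1 - (bd H u : ℝ) / N) / (N : ℝ) ^ 2 +
    (|K| ^ 3 + 2 * k + |K| ^ 4) / (N : ℝ) ^ 3 := ⟨_, rfl⟩
  have hr0 : 0 ≤ r := by rw [hr]; positivity
  have h1 : ev w (fun B => E45b_q u B * E45b_J H u a B ^ 2) =
      ∑ F ∈ HF H u, ∑ F1 ∈ HF H u, (a F * a F1) *
        ev w (fun B => E45b_q u B * (E45b_e F B * E45b_e F1 B)) := by
    have h2 : (fun B => E45b_q u B * E45b_J H u a B ^ 2) =
        fun B => ∑ F ∈ HF H u, ∑ F1 ∈ HF H u, (a F * a F1) *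
          (E45b_q u B * (E45b_e F B * E45b_e F1 B)) := by
      funext B
      unfold E45b_J
      rw [pow_two, sum_mul_sum, mul_sum]
      refine sum_congr rfl fun F _ => ?_
      rw [mul_sum]
      exact sum_congr rfl fun F1 _ => by ring
    rw [h2, ev_sum]
    refine sum_congr rfl fun F _ => ?_
    rw [ev_sum]
    exact sum_congr rfl fun F1 _ => ev_smul _ _ _
  have h2 : ∀ F ∈ HF H u, ∀ F1 ∈ HF H u, (a F * a F1) *
      ev w (fun B => E45b_q u B * (E45b_e F B * E45b_e F1 B)) ≤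
      (a F * a F1) * ((if F = F1 then p else 0) + r) := by
    intro F hF F1 hF1
    have haF := ha F (mem_filter.1 hF).1
    have haF1 := ha F1 (mem_filter.1 hF1).1
    refine mul_le_mul_of_nonneg_left ?_ (mul_nonneg haF haF1)
    by_cases hne : F = F1
    · subst hne
      rw [if_pos rfl]
      have h3 : ev w (fun B => E45b_q u B * (E45b_e F B * E45b_e F B)) =
          ev w (fun B => E45b_q u B * E45b_e F B) := by
        congr 1
        funext B
        rw [E45b_ee]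
      have h4 := (abs_le.1 (E45b_Q1 hH hq hm hN u hF)).2
      rw [h3]
      linarith
    · rw [if_neg hne, zero_add, hr]
      exact E45b_Q2 hH hq hN u hF hF1 hne
  rw [h1]
  refine (sum_le_sum fun F hF => sum_le_sum fun F1 hF1 => h2 F hF F1 hF1).trans (le_of_eq ?_)
  have h3 : ∑ F ∈ HF H u, ∑ F1 ∈ HF H u, (a F * a F1) * ((if F = F1 then p else 0) + r) =
      (∑ F ∈ HF H u, a F ^ 2) * p + (∑ F ∈ HF H u, a F) ^ 2 * r := by
    have h4 : ∀ F ∈ HF H u, ∑ F1 ∈ HF H u, (a F * a F1) * ((if F = F1 then p else 0) + r) =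
        a F ^ 2 * p + a F * (∑ F1 ∈ HF H u, a F1) * r := by
      intro F hF
      have h5 : ∀ F1 ∈ HF H u, (a F * a F1) * ((if F = F1 then p else 0) + r) =
          (if F = F1 then a F * a F1 * p else 0) + a F * a F1 * r := by
        intro F1 _
        split_ifs <;> ring
      rw [sum_congr rfl h5, sum_add_distrib, sum_ite_eq, if_pos hF, ← sum_mul, ← mul_sum]
      ring
    rw [sum_congr rfl h4, sum_add_distrib, ← sum_mul, ← sum_mul, ← sum_mul]
    ring
  rw [h3, hp, hr]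
  field_simp

/-! ### the pointwise bound -/

private theorem E45b_aw_ge (R : Finset V) (H : Finset (Finset V)) (N : ℕ)
    (hx : ∀ z ∈ R, 0 ≤ xu H N z) (F : Finset V) : ((F ∩ R).card : ℝ) ≤ ax H N R F := by
  show ((F ∩ R).card : ℝ) ≤ ∑ z ∈ F ∩ R, (1 + xu H N z)
  rw [← mul_one ((F ∩ R).card : ℝ), ← nsmul_eq_mul, ← sum_const]
  refine sum_le_sum fun z hz => ?_
  have := hx z (mem_inter.1 hz).2
  linarith

private theorem E45b_Ja {u : V} {B : Finset (Finset V)} (hBH : B ⊆ H) (hu : u ∉ LawB.cov B)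
    (a : Finset V → ℝ) : Ja a B = E45b_J H u a B := by
  have h1 : B = (HF H u).filter fun F => F ∈ B := by
    ext F
    rw [mem_filter, HF, mem_filter]
    constructor
    · intro hF
      refine ⟨⟨hBH hF, fun huF => hu ?_⟩, hF⟩
      simpa [LawB.cov] using ⟨F, hF, huF⟩
    · exact fun h => h.2
  unfold Ja E45b_J E45b_e
  conv_lhs => rw [h1]
  rw [sum_filter]
  exact sum_congr rfl fun F _ => by split_ifs <;> simp

private theorem E45b_TT {R : Finset V} {u : V} {Mk : Finset (Finset V)} {sp : V → Finset V}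
    {S0 : ℝ} (hN : 0 < N) (hD : D45 k N S0 H u R Mk sp) (hx : ∀ z ∈ R, 0 ≤ xu H N z) :
    TT N R u sp ≤ Sg H N R u := by
  have hn : (0 : ℝ) < N := by exact_mod_cast hN
  unfold TT Sg
  refine div_le_div_of_nonneg_right ?_ hn.le
  have h1 : R.filter (fun z => u ∈ sp z) ⊆ (HG H u).biUnion fun G => G ∩ R := by
    intro z hz
    obtain ⟨h2, h3⟩ := mem_filter.1 hz
    obtain ⟨G, h4, h5, h6⟩ := hD.spu z h2 h3
    exact mem_biUnion.2 ⟨G, mem_filter.2 ⟨h4, h5⟩, mem_inter.2 ⟨h6, h2⟩⟩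
  have h2 : ((R.filter fun z => u ∈ sp z).card : ℝ) ≤ ((∑ G ∈ HG H u, (G ∩ R).card : ℕ) : ℝ) := by
    exact_mod_cast (card_le_card h1).trans card_biUnion_le
  refine h2.trans ?_
  push_cast
  exact sum_le_sum fun G _ => E45b_aw_ge R H N hx G

private theorem E45b_rho {R : Finset V} {u : V} {Mk : Finset (Finset V)} {sp : V → Finset V}
    {S0 : ℝ} (hN : 0 < N) (hD : D45 k N S0 H u R Mk sp) (B : Finset (Finset V)) :
    max (-(rho H N R sp B)) 0 ≤ 0.16 * (∑ z ∈ R, (mk H Mk z : ℝ)) / N + 0.16 * TT N R u sp := by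
  have hn : (0 : ℝ) < N := by exact_mod_cast hN
  have hom : ∀ y, 0 ≤ omx H N y ∧ omx H N y ≤ 0.16 := by
    intro y
    unfold omx
    have h1 : 2 * (bd H y : ℝ) / N ≤ 1 := by
      rw [div_le_one hn]
      have := hD.big.two_bd_lt y
      exact_mod_cast (by omega : 2 * bd H y ≤ N)
    have h2 : max 0 (0.1 - (1 - 2 * (bd H y : ℝ) / N)) ≤ 0.1 :=
      max_le (by norm_num) (by linarith)
    have h3 : 0 ≤ max 0 (0.1 - (1 - 2 * (bd H y : ℝ) / N)) := le_max_left _ _
    constructor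
    · linarith
    · linarith
  have hnum : (∑ z ∈ R, ((sp z).card : ℝ)) ≤ (∑ z ∈ R, (mk H Mk z : ℝ)) + N * TT N R u sp := by
    have e1 : (N : ℝ) * TT N R u sp = ∑ z ∈ R, (if u ∈ sp z then (1 : ℝ) else 0) := by
      unfold TT
      rw [← sum_filter, sum_const, nsmul_eq_mul, mul_one]
      field_simp
    rw [e1, ← sum_add_distrib]
    refine sum_le_sum fun z hz => ?_
    have h1 : (((sp z).erase u).card : ℝ) ≤ mk H Mk z := by exact_mod_cast hD.spb z hz
    by_cases hu : u ∈ sp z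
    · rw [if_pos hu]
      have h2 := card_erase_add_one hu
      have h3 : ((sp z).card : ℝ) = ((sp z).erase u).card + 1 := by exact_mod_cast h2.symm
      linarith
    · rw [if_neg hu]
      rw [erase_eq_of_notMem hu] at h1
      linarith
  have hTT : 0 ≤ TT N R u sp := by
    unfold TT
    positivity
  have e2 : 0.16 * (∑ z ∈ R, (mk H Mk z : ℝ)) / N + 0.16 * TT N R u sp =
      0.16 * ((∑ z ∈ R, (mk H Mk z : ℝ)) + N * TT N R u sp) / N := by
    field_simp
  rw [e2]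
  refine max_le ?_ (by positivity)
  have h1 : -(rho H N R sp B) = (∑ z ∈ R.filter (fun z => z ∉ LawB.cov B), ∑ y ∈ sp z,
      -(omx H N y * (if y ∈ LawB.cov B then 1 else -1))) / N := by
    unfold rho
    rw [← neg_div]
    congr 1
    simp only [sum_neg_distrib]
  rw [h1]
  refine div_le_div_of_nonneg_right ?_ hn.le
  calc ∑ z ∈ R.filter (fun z => z ∉ LawB.cov B), ∑ y ∈ sp z,
        -(omx H N y * (if y ∈ LawB.cov B then 1 else -1))
      ≤ ∑ z ∈ R.filter (fun z => z ∉ LawB.cov B), ∑ y ∈ sp z, (0.16 : ℝ) := by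
        refine sum_le_sum fun z _ => sum_le_sum fun y _ => ?_
        have := hom y
        split_ifs <;> linarith
    _ = ∑ z ∈ R.filter (fun z => z ∉ LawB.cov B), 0.16 * ((sp z).card : ℝ) := by
        refine sum_congr rfl fun z _ => ?_
        rw [sum_const, nsmul_eq_mul, mul_comm]
    _ ≤ ∑ z ∈ R, 0.16 * ((sp z).card : ℝ) :=
        sum_le_sum_of_subset_of_nonneg (filter_subset _ _) fun z _ _ => by positivity
    _ = 0.16 * ∑ z ∈ R, ((sp z).card : ℝ) := by rw [mul_sum]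
    _ ≤ _ := mul_le_mul_of_nonneg_left hnum (by norm_num)

/-- the value at a matching with `u` free -/
private theorem E45b_point {R : Finset V} {u : V} {Mk : Finset (Finset V)} {sp : V → Finset V}
    {S0 : ℝ} (hN : 0 < N) (hD : D45 k N S0 H u R Mk sp) (hx : ∀ z ∈ R, 0 ≤ xu H N z)
    (hhh : ∑ z ∈ R, (xu H N z - 0.16 * mk H Mk z / N) = hh H Mk N R u)
    (hx4 : 0 ≤ x4 H N R u) (hmm : 0 ≤ mm H Mk N R u) {B : Finset (Finset V)} (hBH : B ⊆ H)
    (hB : PD B) (hu : u ∉ LawB.cov B) :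
    1 - (E45b_J H u (ax H N R) B - SF H N R u) ^ 2 *
        ((1 - 2 * (bd H u : ℝ) / N) / (4 * (4 * (bd H u : ℝ) / N - 1))) -
      E45b_J H u (ax H N R) B / N - E45b_J H u (ax H N R) B ^ 2 / (3.6 * N) ≤
    Psi (rho H N R sp B) (errv N (insert u R) B) 0 (Xv (insert u R) (xu H N) B) := by
  have hn : (0 : ℝ) < N := by exact_mod_cast hN
  obtain ⟨J, hJ⟩ : ∃ J : ℝ, J = E45b_J H u (ax H N R) B := ⟨_, rfl⟩
  have hJa : Ja (aw R (xu H N)) B = J := by
    rw [hJ, ← E45b_Ja hBH hu]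
    rfl
  rw [← hJ]
  -- the covered vertices
  have hcov : (insert u R) ∩ LawB.cov B = R ∩ LawB.cov B := insert_inter_of_notMem hu
  have hY : Yv (insert u R) B ≤ J := by
    unfold Yv
    rw [hcov, ← hJa]
    have h1 := sum_cov B hB R fun _ => (1 : ℝ)
    rw [sum_const, nsmul_eq_mul, mul_one] at h1
    rw [← h1]
    unfold Ja
    refine sum_le_sum fun F _ => ?_
    rw [sum_const, nsmul_eq_mul, mul_one]
    exact E45b_aw_ge R H N hx F
  have hY0 : 0 ≤ Yv (insert u R) B := by unfold Yv; positivity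
  have hJ0 : 0 ≤ J := hY0.trans hY
  have herr0 : 0 ≤ errv N (insert u R) B := by
    unfold errv
    have := le_max_left (0 : ℝ) (Yv (insert u R) B - 0.45 * N)
    positivity
  have herr : errv N (insert u R) B ≤ 2 * J / N + J ^ 2 / (1.8 * N) := by
    unfold errv
    refine add_le_add ?_ ?_
    · exact div_le_div_of_nonneg_right (by linarith) hn.le
    · refine max_le (by positivity) ?_
      rw [le_div_iff₀ (by positivity)]
      nlinarith [sq_nonneg (J - 0.9 * N)]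
  -- the value of `X`
  have hXv : Xv (insert u R) (xu H N) B = xu H N u + (∑ z ∈ R, xu H N z - J) := by
    rw [← hJa, ← thm_J1.2.2.2.2.2 V R (xu H N) B hB]
    unfold Xv
    rw [sum_insert hD.uR, if_neg hu]
  have hrho := E45b_rho hN hD B
  have hTT := E45b_TT hN hD hx
  have hTT0 : 0 ≤ TT N R u sp := by
    unfold TT
    positivity
  have hmk : ∑ z ∈ R, xu H N z - 0.16 * (∑ z ∈ R, (mk H Mk z : ℝ)) / N = hh H Mk N R u := by
    rw [← hhh, sum_sub_distrib]
    congr 1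
    rw [mul_sum, sum_div]
  have hSF : hh H Mk N R u = 2 * Sg H N R u + x4 H N R u + (mm H Mk N R u + SF H N R u) := by
    unfold hh mm
    ring
  -- the value at `u`
  obtain ⟨b, hb⟩ : ∃ b : ℝ, b = (bd H u : ℝ) / N := ⟨_, rfl⟩
  have hb1 : 43 / 100 < b := by
    rw [hb, lt_div_iff₀ hn]
    have : (43 * N : ℝ) < 100 * bd H u := by exact_mod_cast hD.hu
    linarith
  have hb2 : 2 * b < 1 := by
    rw [hb, ← mul_div_assoc, div_lt_one hn]
    have := hD.big.two_bd_lt u
    exact_mod_cast (by omega : 2 * bd H u < N)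
  have hxu : 2 * b / (1 - 2 * b) ≤ xu H N u := by
    unfold xu
    have h1 : 2 * (bd H u : ℝ) ≤ td H u := by exact_mod_cast hD.big.two_bd_le u
    have h2 : (0 : ℝ) < (N : ℝ) - td H u := by
      have := hD.big.deg u
      have h3 : (td H u : ℝ) + 1 ≤ N := by exact_mod_cast this
      linarith
    have h3 : 2 * b = 2 * (bd H u : ℝ) / N := by rw [hb]; ring
    rw [div_le_div_iff₀ (by linarith) h2, h3]
    have h4 : 2 * (bd H u : ℝ) / N ≤ td H u / N := div_le_div_of_nonneg_right h1 hn.le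
    have h5 : (td H u : ℝ) / N * N = td H u := div_mul_cancel₀ _ hn.ne'
    have h6 : 2 * (bd H u : ℝ) / N * (N - td H u) = 2 * (bd H u : ℝ) / N * N -
        2 * (bd H u : ℝ) / N * td H u := by ring
    have h7 : 2 * (bd H u : ℝ) / N * N = 2 * bd H u := div_mul_cancel₀ _ hn.ne'
    rw [h6, h7]
    have h8 : (td H u : ℝ) * (1 - 2 * (bd H u : ℝ) / N) = td H u - 2 * (bd H u : ℝ) / N * td H u := by
      ring
    rw [h8]
    linarith
  obtain ⟨s, hs⟩ : ∃ s : ℝ, s = 2 * b / (1 - 2 * b) := ⟨_, rfl⟩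
  rw [← hs] at hxu
  have hs3 : 3 ≤ s := by
    rw [hs, le_div_iff₀ (by linarith)]
    linarith
  have hs1 : 4 * (s - 1) = 4 * (4 * b - 1) / (1 - 2 * b) := by
    rw [hs]
    have : 1 - 2 * b ≠ 0 := by linarith
    field_simp
    ring
  have e1 : (1 - 2 * (bd H u : ℝ) / N) / (4 * (4 * (bd H u : ℝ) / N - 1)) =
      1 / (4 * (s - 1)) := by
    rw [hs1, hb, one_div_div, mul_div_assoc, mul_div_assoc]
  rw [e1]
  -- the lower bound for `phi`
  have hphi1 := thm_J1.1 (s + SF H N R u - J) s hs3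
  have hlow : s + SF H N R u - J ≤
      Xv (insert u R) (xu H N) B - max (-(rho H N R sp B)) 0 := by
    rw [hXv]
    linarith
  have hphi2 := (thm_J1.2.2.1 _ _ hlow).1
  have hPsi := thm_J1.2.2.2.2.1 (rho H N R sp B) (errv N (insert u R) B) 0
    (Xv (insert u R) (xu H N) B) herr0
  have h0 : max (-(0 : ℝ)) 0 = 0 := by norm_num
  rw [h0] at hPsi
  have e2 : (J - SF H N R u) ^ 2 * (1 / (4 * (s - 1))) =
      (s + SF H N R u - J - s) ^ 2 / (4 * (s - 1)) := by
    rw [mul_one_div]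
    congr 1
    ring
  have e3 : (2 * J / N + J ^ 2 / (1.8 * N)) / 2 = J / N + J ^ 2 / (3.6 * N) := by
    field_simp
    ring
  rw [e2]
  have h9 : errv N (insert u R) B / 2 ≤ J / N + J ^ 2 / (3.6 * N) := by
    rw [← e3]
    linarith
  linarith

/-- the numbers -/
private theorem E45b_num {n b m sf A c1 c3 t Q0 Q1 Q2 : ℝ} (hn : 0 < n) (hb1 : 43 / 100 < b)
    (hb2 : 2 * b < 1) (hm0 : 0 ≤ m) (hm1 : m ≤ 0.3) (hsf0 : 0 ≤ sf) (hsf : 0.84 * sf ≤ m)
    (hA : A ≤ 4.9 * m) (hA0 : 0 ≤ A) (hc1 : 0 ≤ c1) (hc3 : 0 ≤ c3) (hn1 : 1 ≤ n)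
    (ht : t = (1 - 2 * b) / (4 * (4 * b - 1))) (hQ0 : Q0 = 1 - b)
    (hQ1 : |Q1 - (1 - b) * sf| ≤ c1 * sf / n)
    (hQ2 : Q2 ≤ A * ((1 - b) + c1 / n) + sf ^ 2 * ((1 - b) + c3 / n)) :
    (1 - b) * (1 - 5 * m * (1 - 2 * b) / (4 * (4 * b - 1))) -
      (4.9 * c1 + 1.2 * (c3 + 2 * c1) + 1.2 * (1 + c1) + 4.9 * (1 + c1) + 1.2 * (1 + c3)) * m / n ≤
    Q0 - t * (Q2 - 2 * sf * Q1 + sf ^ 2 * Q0) - Q1 / n - Q2 / (3.6 * n) := by
  have h4 : 0 < 4 * (4 * b - 1) := by linarith
  have ht0 : 0 ≤ t := by rw [ht]; exact div_nonneg (by linarith) h4.le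
  have ht1 : t ≤ 1 := by
    rw [ht, div_le_one h4]
    linarith
  have hinv : 0 ≤ 1 / n := by positivity
  have hinv1 : 1 / n ≤ 1 := by
    rw [div_le_one hn]
    exact hn1
  obtain ⟨i, hi⟩ : ∃ i : ℝ, i = 1 / n := ⟨_, rfl⟩
  rw [← hi] at hinv hinv1
  have hd : ∀ x : ℝ, x / n = x * i := fun x => by rw [hi]; ring
  have hd2 : Q2 / (3.6 * n) = Q2 * i / 3.6 := by
    rw [hi]
    field_simp
  have e1 : 5 * m * (1 - 2 * b) / (4 * (4 * b - 1)) = 5 * m * t := by
    rw [ht, mul_div_assoc]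
  rw [e1, hd2, hd, hd, hQ0]
  rw [hd] at hQ1
  rw [hd, hd] at hQ2
  obtain ⟨q1, q2⟩ := abs_le.1 hQ1
  have hsf1 : sf ≤ 1.2 * m := by linarith
  have hsf2 : sf ^ 2 ≤ 1.2 * m := by nlinarith
  have hsq0 : 0 ≤ sf ^ 2 := sq_nonneg _
  have hb0 : 0 ≤ 1 - b := by linarith
  -- the second moment
  have hV : Q2 - 2 * sf * Q1 + sf ^ 2 * (1 - b) ≤
      4.9 * m * (1 - b) + (4.9 * c1 + 1.2 * (c3 + 2 * c1)) * m * i := by
    have h1 : sf * ((1 - b) * sf - c1 * sf * i) ≤ sf * Q1 :=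
      mul_le_mul_of_nonneg_left (by linarith) hsf0
    have h2 : A * (1 - b) ≤ 4.9 * m * (1 - b) := mul_le_mul_of_nonneg_right hA hb0
    have h3 : A * (c1 * i) ≤ 4.9 * m * (c1 * i) :=
      mul_le_mul_of_nonneg_right hA (mul_nonneg hc1 hinv)
    have h5 : sf ^ 2 * ((c3 + 2 * c1) * i) ≤ 1.2 * m * ((c3 + 2 * c1) * i) :=
      mul_le_mul_of_nonneg_right hsf2 (mul_nonneg (by linarith) hinv)
    linarith
  have hV2 : t * (Q2 - 2 * sf * Q1 + sf ^ 2 * (1 - b)) ≤
      5 * m * t * (1 - b) + (4.9 * c1 + 1.2 * (c3 + 2 * c1)) * m * i := by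
    have h1 : t * (Q2 - 2 * sf * Q1 + sf ^ 2 * (1 - b)) ≤
        t * (4.9 * m * (1 - b) + (4.9 * c1 + 1.2 * (c3 + 2 * c1)) * m * i) :=
      mul_le_mul_of_nonneg_left hV ht0
    have h2 : 0 ≤ (4.9 * c1 + 1.2 * (c3 + 2 * c1)) * m * i := by positivity
    have h3 : t * ((4.9 * c1 + 1.2 * (c3 + 2 * c1)) * m * i) ≤
        1 * ((4.9 * c1 + 1.2 * (c3 + 2 * c1)) * m * i) := mul_le_mul_of_nonneg_right ht1 h2
    have h5 : 0 ≤ t * (m * (1 - b)) := mul_nonneg ht0 (mul_nonneg hm0 hb0)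
    linarith
  -- the error terms
  have hQ1b : Q1 ≤ 1.2 * (1 + c1) * m := by
    have h1 : (1 - b) * sf ≤ 1 * sf := mul_le_mul_of_nonneg_right (by linarith) hsf0
    have h2 : c1 * sf * i ≤ c1 * sf * 1 :=
      mul_le_mul_of_nonneg_left hinv1 (mul_nonneg hc1 hsf0)
    have h3 : (1 + c1) * sf ≤ (1 + c1) * (1.2 * m) :=
      mul_le_mul_of_nonneg_left hsf1 (by linarith)
    linarith
  have hQ2b : Q2 ≤ (4.9 * (1 + c1) + 1.2 * (1 + c3)) * m := by
    have h1 : (1 - b) + c1 * i ≤ 1 + c1 := by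
      have : c1 * i ≤ c1 * 1 := mul_le_mul_of_nonneg_left hinv1 hc1
      linarith
    have h2 : (1 - b) + c3 * i ≤ 1 + c3 := by
      have : c3 * i ≤ c3 * 1 := mul_le_mul_of_nonneg_left hinv1 hc3
      linarith
    have h3 : A * ((1 - b) + c1 * i) ≤ 4.9 * m * (1 + c1) :=
      mul_le_mul hA h1 (add_nonneg hb0 (mul_nonneg hc1 hinv)) (by linarith)
    have h5 : sf ^ 2 * ((1 - b) + c3 * i) ≤ 1.2 * m * (1 + c3) :=
      mul_le_mul hsf2 h2 (add_nonneg hb0 (mul_nonneg hc3 hinv)) (by linarith)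
    linarith
  have hE1 : Q1 * i ≤ 1.2 * (1 + c1) * m * i := mul_le_mul_of_nonneg_right hQ1b hinv
  have hE2 : Q2 * i / 3.6 ≤ (4.9 * (1 + c1) + 1.2 * (1 + c3)) * m * i := by
    have h1 : Q2 * i ≤ (4.9 * (1 + c1) + 1.2 * (1 + c3)) * m * i :=
      mul_le_mul_of_nonneg_right hQ2b hinv
    have h2 : 0 ≤ (4.9 * (1 + c1) + 1.2 * (1 + c3)) * m * i := by positivity
    rw [div_le_iff₀ (by norm_num)]
    linarith
  linarith

end

theorem thm_45b (h : St45a) : St45b := by
  intro k K S0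
  obtain ⟨N0, hN0⟩ := h k S0
  refine ⟨4.9 * (k + |K| ^ 3) + 1.2 * ((|K| ^ 3 + 2 * k + |K| ^ 4) + 2 * (k + |K| ^ 3)) +
    1.2 * (1 + (k + |K| ^ 3)) + 4.9 * (1 + (k + |K| ^ 3)) +
    1.2 * (1 + (|K| ^ 3 + 2 * k + |K| ^ 4)), max 1 N0, ?_⟩
  intro V _ _ N H w u R Mk sp hN hD hq hm
  have hN1 : 1 ≤ N := (le_max_left 1 N0).trans hN
  have hN2 : 0 < N := hN1
  have hn : (0 : ℝ) < N := by exact_mod_cast hN2
  have hn1 : (1 : ℝ) ≤ N := by exact_mod_cast hN1
  obtain ⟨a1, a2, a3, a4, a5, a6, a7, a8, a9, a10⟩ :=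
    hN0 V N H u R Mk sp ((le_max_right 1 N0).trans hN) hD
  have hx : ∀ z ∈ R, 0 ≤ xu H N z := fun z hz => (a1 z hz).1
  have ha : ∀ F ∈ H, 0 ≤ ax H N R F := fun F _ =>
    le_trans (Nat.cast_nonneg _) (E45b_aw_ge R H N hx F)
  have hM1 := E45b_M1 hD.big hq hm hN2 u (ax H N R) ha
  have hM2 := E45b_M2 hD.big hq hm hN2 u (ax H N R) ha
  have hM0 := E45b_Q0 hq hm u
  obtain ⟨t, ht⟩ : ∃ t : ℝ, t = (1 - 2 * (bd H u : ℝ) / N) / (4 * (4 * (bd H u : ℝ) / N - 1)) :=
    ⟨_, rfl⟩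
  -- the pointwise bound
  have hpt : ev w (fun B => E45b_q u B * (1 - (E45b_J H u (ax H N R) B - SF H N R u) ^ 2 * t -
      E45b_J H u (ax H N R) B / N - E45b_J H u (ax H N R) B ^ 2 / (3.6 * N))) ≤
      ev w (fun B => if u ∈ LawB.cov B then 0 else
        Psi (rho H N R sp B) (errv N (insert u R) B) 0 (Xv (insert u R) (xu H N) B)) := by
    refine hq.mono' fun B hBH hB => ?_
    unfold E45b_q
    by_cases hu : u ∈ LawB.cov B
    · rw [if_pos hu, if_pos hu, zero_mul]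
    · rw [if_neg hu, if_neg hu, one_mul, ht]
      exact E45b_point hN2 hD hx a2 a4 a5 hBH hB hu
  refine le_trans ?_ hpt
  -- linearity
  have hlin : ev w (fun B => E45b_q u B *
      (1 - (E45b_J H u (ax H N R) B - SF H N R u) ^ 2 * t -
      E45b_J H u (ax H N R) B / N - E45b_J H u (ax H N R) B ^ 2 / (3.6 * N))) =
      ev w (E45b_q u) - t * (ev w (fun B => E45b_q u B * E45b_J H u (ax H N R) B ^ 2) -
        2 * SF H N R u * ev w (fun B => E45b_q u B * E45b_J H u (ax H N R) B) +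
        SF H N R u ^ 2 * ev w (E45b_q u)) -
      ev w (fun B => E45b_q u B * E45b_J H u (ax H N R) B) / N -
      ev w (fun B => E45b_q u B * E45b_J H u (ax H N R) B ^ 2) / (3.6 * N) := by
    unfold ev
    simp only [mul_sum, sum_div, ← sum_sub_distrib, ← sum_add_distrib]
    refine sum_congr rfl fun B _ => ?_
    ring
  rw [hlin]
  have hb1 : (43 : ℝ) / 100 < (bd H u : ℝ) / N := by
    rw [lt_div_iff₀ hn]
    have : (43 * N : ℝ) < 100 * bd H u := by exact_mod_cast hD.hu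
    linarith
  have hb2 : 2 * ((bd H u : ℝ) / N) < 1 := by
    rw [← mul_div_assoc, div_lt_one hn]
    have := hD.big.two_bd_lt u
    exact_mod_cast (by omega : 2 * bd H u < N)
  have e1 : 2 * (bd H u : ℝ) / N = 2 * ((bd H u : ℝ) / N) := mul_div_assoc _ _ _
  have e2 : 4 * (bd H u : ℝ) / N = 4 * ((bd H u : ℝ) / N) := mul_div_assoc _ _ _
  rw [e1, e2] at ht
  rw [e1, e2]
  have hc1 : (0 : ℝ) ≤ k + |K| ^ 3 := by positivity
  have hc3 : (0 : ℝ) ≤ |K| ^ 3 + 2 * k + |K| ^ 4 := by positivity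
  exact E45b_num hn hb1 hb2 a5 (by linarith) a7 a8 a9 (by positivity) hc1 hc3 hn1 ht hM0 hM1 hM2

end Pool.Agent.JR
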