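import Pool.Agent.JR.St45
import Pool.Agent.JR.J1

/-!
# JR: the case E45, the part where `u` is covered by the edge `G`
-/

set_option autoImplicit false

namespace Pool.Agent.JR

open Finset
open Pool.Agent.LawB (ev ins ali Law)

section E45c

variable {V : Type} [Fintype V] [DecidableEq V]

private theorem E45c_mono {K : ℝ} {N : ℕ} {H : Finset (Finset V)} {w : Finset (Finset V) → ℝ}
    (h : QLaw K N H w) {f g : Finset (Finset V) → ℝ}
    (hfg : ∀ B, B ⊆ H → PD B → f B ≤ g B) : ev w f ≤ ev w g := by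
  unfold ev
  apply Finset.sum_le_sum
  intro B _
  by_cases hB : w B = 0
  · rw [hB, zero_mul, zero_mul]
  · exact mul_le_mul_of_nonneg_left (hfg B (h.supp B hB).1 (h.supp B hB).2) (h.nonneg B)

omit [Fintype V] in
private theorem E45c_bd {k N : ℕ} {H : Finset (Finset V)} (h : Big k N H) (y : V) :
    2 * bd H y < N := by
  have h1 : 2 * bd H y ≤ td H y := by
    unfold bd td
    rw [mul_comm]
    refine card_nsmul_le_sum _ _ 2 fun F hF => ?_
    have := h.three F (mem_filter.1 hF).1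
    omega
  have := h.deg y
  omega

omit [Fintype V] in
private theorem E45c_omx {k N : ℕ} {H : Finset (Finset V)} (h : Big k N H) (y : V) :
    0 ≤ omx H N y ∧ omx H N y ≤ 0.16 := by
  have h1 := E45c_bd h y
  have hN : (0 : ℝ) < N := by
    have : 0 < N := by omega
    exact_mod_cast this
  have h2 : (2 * (bd H y : ℝ)) / N ≤ 1 := by
    rw [div_le_one hN]
    exact_mod_cast h1.le
  unfold omx
  constructor
  · exact mul_nonneg (by norm_num) (le_max_left _ _)
  · have h3 : max 0 (0.1 - (1 - 2 * (bd H y : ℝ) / N)) ≤ 0.1 :=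
      max_le (by norm_num) (by linarith)
    linarith

variable {N : ℕ} {H : Finset (Finset V)} {R : Finset V}

omit [Fintype V] in
private theorem E45c_ax (hx : ∀ z ∈ R, 0 ≤ xu H N z ∧ xu H N z ≤ 0.62) (F : Finset V) :
    ((F ∩ R).card : ℝ) ≤ ax H N R F ∧ ax H N R F ≤ 1.62 * (F ∩ R).card := by
  unfold ax aw
  constructor
  · have h := card_nsmul_le_sum (F ∩ R) (fun z => 1 + xu H N z) 1 (fun z hz => by
      have := (hx z (mem_inter.1 hz).2).1
      linarith)
    rw [nsmul_eq_mul, mul_one] at h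
    exact h
  · have h := sum_le_card_nsmul (F ∩ R) (fun z => 1 + xu H N z) 1.62 (fun z hz => by
      have := (hx z (mem_inter.1 hz).2).2
      linarith)
    rw [nsmul_eq_mul, mul_comm] at h
    exact h

omit [Fintype V] in
private theorem E45c_sum {B : Finset (Finset V)} (hB : B ⊆ H) :
    ∑ F ∈ B, ((F ∩ R).card : ℝ) ≤ ∑ z ∈ R, (bd H z : ℝ) := by
  refine (sum_le_sum_of_subset_of_nonneg hB fun F _ _ => Nat.cast_nonneg _).trans (le_of_eq ?_)
  have h1 : ∀ F : Finset V, ((F ∩ R).card : ℝ) = ∑ z ∈ R, if z ∈ F then 1 else 0 := by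
    intro F
    rw [← sum_filter, sum_const, nsmul_eq_mul, mul_one, filter_mem_eq_inter, inter_comm]
  simp only [h1]
  rw [sum_comm]
  refine sum_congr rfl fun z _ => ?_
  rw [← sum_filter, sum_const, nsmul_eq_mul, mul_one, bd]

omit [Fintype V] in
private theorem E45c_cov (B : Finset (Finset V)) :
    ((R ∩ LawB.cov B).card : ℝ) ≤ ∑ F ∈ B, ((F ∩ R).card : ℝ) := by
  have h1 : R ∩ LawB.cov B ⊆ B.biUnion fun F => F ∩ R := by
    intro z hz
    obtain ⟨hzR, hz⟩ := mem_inter.1 hz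
    obtain ⟨F, hF, hzF⟩ := mem_biUnion.1 hz
    exact mem_biUnion.2 ⟨F, hF, mem_inter.2 ⟨hzF, hzR⟩⟩
  have h2 := (card_le_card h1).trans card_biUnion_le
  exact_mod_cast h2

/-- the error -/
private theorem E45c_err (J c S M : ℝ) (hM : 2 ≤ M) (hJ : 0 ≤ J) (hJS : J ≤ 1.62 * S * M)
    (hc : c + 3.24 * S ≤ 0.45 * M) : 2 * J / M + max 0 (c + J - 0.45 * M) ≤ J := by
  have hM0 : 0 < M := by linarith
  rcases max_cases 0 (c + J - 0.45 * M) with ⟨h, _⟩ | ⟨h, _⟩
  · rw [h, add_zero, div_le_iff₀ hM0]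
    nlinarith
  · rw [h]
    have h1 : 2 * J / M ≤ 3.24 * S := by
      rw [div_le_iff₀ hM0]
      linarith
    linarith

/-- the real inequalities -/
private theorem E45c_Psi1 (rho err X X1 D : ℝ) (hX : X1 ≤ X) (hr : X1 ≤ X + rho)
    (hD : 0 ≤ D) (he : 0 ≤ err) (h1 : X1 + err ≤ D) (h2 : X1 ≤ 2) :
    X1 - D / 2 ≤ Psi rho err 0 X := by
  unfold Psi
  refine le_min (by linarith) (le_min (by linarith) ?_)
  rcases le_total 0 X1 with h | h
  · linarith
  · linarith

private theorem E45c_Psi2 (rho err X X1 T : ℝ) (hX : X1 ≤ X) (hr : X1 + T ≤ X + rho)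
    (h1 : X1 + T ≤ (X1 - err) / 2) (h2 : X1 + T ≤ 1) :
    X1 + T ≤ Psi rho err 0 X := by
  unfold Psi
  exact le_min hr (le_min (by linarith) (by linarith))

omit [Fintype V] in
/-- the lower bound for `rho` -/
private theorem E45c_rho {k : ℕ} {u : V} {Mk : Finset (Finset V)} {sp : V → Finset V}
    {B : Finset (Finset V)} (hH : Big k N H) (hN : 0 < N) (hu : u ∈ LawB.cov B)
    (hsp : ∀ z ∈ R, ((sp z).erase u).card ≤ mk H Mk z) :
    omx H N u * (TT N R u sp - ((R ∩ LawB.cov B).card : ℝ) / N) -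
      0.16 * (∑ z ∈ R, (mk H Mk z : ℝ)) / N ≤ rho H N R sp B ∧
    -(0.16 * (∑ z ∈ R, (mk H Mk z : ℝ)) / N) ≤ rho H N R sp B := by
  have hN0 : (0 : ℝ) < N := by exact_mod_cast hN
  have h1 : ∀ z ∈ R, (if u ∈ sp z then omx H N u else 0) - 0.16 * (mk H Mk z : ℝ) ≤
      ∑ y ∈ sp z, omx H N y * (if y ∈ LawB.cov B then (1 : ℝ) else -1) := by
    intro z hz
    have h2 : -(0.16 * (mk H Mk z : ℝ)) ≤
        ∑ y ∈ (sp z).erase u, omx H N y * (if y ∈ LawB.cov B then (1 : ℝ) else -1) := by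
      have h3 := card_nsmul_le_sum ((sp z).erase u)
        (fun y => omx H N y * (if y ∈ LawB.cov B then (1 : ℝ) else -1)) (-0.16) (fun y _ => by
          have h4 := E45c_omx hH y
          show -0.16 ≤ omx H N y * (if y ∈ LawB.cov B then (1 : ℝ) else -1)
          split_ifs
          · linarith [h4.1]
          · linarith [h4.2])
      rw [nsmul_eq_mul] at h3
      have h5 : (((sp z).erase u).card : ℝ) ≤ mk H Mk z := by exact_mod_cast hsp z hz
      linarith
    by_cases hus : u ∈ sp z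
    · rw [if_pos hus, ← add_sum_erase _ _ hus, if_pos hu]
      linarith
    · rw [if_neg hus]
      rw [erase_eq_of_notMem hus] at h2
      linarith
  have h6 : omx H N u * ((R.filter fun z => u ∈ sp z).card - (R ∩ LawB.cov B).card) -
      0.16 * (∑ z ∈ R, (mk H Mk z : ℝ)) ≤
      ∑ z ∈ R.filter (fun z => z ∉ LawB.cov B), ∑ y ∈ sp z,
        omx H N y * (if y ∈ LawB.cov B then 1 else -1) ∧
      -(0.16 * (∑ z ∈ R, (mk H Mk z : ℝ))) ≤
      ∑ z ∈ R.filter (fun z => z ∉ LawB.cov B), ∑ y ∈ sp z,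
        omx H N y * (if y ∈ LawB.cov B then 1 else -1) := by
    have h7 : ∑ z ∈ R.filter (fun z => z ∉ LawB.cov B),
        ((if u ∈ sp z then omx H N u else 0) - 0.16 * (mk H Mk z : ℝ)) ≤
        ∑ z ∈ R.filter (fun z => z ∉ LawB.cov B), ∑ y ∈ sp z,
          omx H N y * (if y ∈ LawB.cov B then 1 else -1) :=
      sum_le_sum fun z hz => h1 z (mem_filter.1 hz).1
    rw [sum_sub_distrib, ← mul_sum] at h7
    have h8 : ∑ z ∈ R.filter (fun z => z ∉ LawB.cov B), (mk H Mk z : ℝ) ≤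
        ∑ z ∈ R, (mk H Mk z : ℝ) :=
      sum_le_sum_of_subset_of_nonneg (filter_subset _ _) fun _ _ _ => Nat.cast_nonneg _
    have h9 : ∑ z ∈ R.filter (fun z => z ∉ LawB.cov B), (if u ∈ sp z then omx H N u else 0) =
        omx H N u * (((R.filter (fun z => z ∉ LawB.cov B)).filter fun z => u ∈ sp z).card : ℝ) := by
      rw [← sum_filter, sum_const, nsmul_eq_mul, mul_comm]
    have h10 : (R.filter fun z => u ∈ sp z).card ≤
        ((R.filter (fun z => z ∉ LawB.cov B)).filter fun z => u ∈ sp z).card +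
          (R ∩ LawB.cov B).card := by
      refine le_trans (card_le_card ?_) (card_union_le _ _)
      intro z hz
      obtain ⟨hzR, hz⟩ := mem_filter.1 hz
      by_cases hc : z ∈ LawB.cov B
      · exact mem_union_right _ (mem_inter.2 ⟨hzR, hc⟩)
      · exact mem_union_left _ (mem_filter.2 ⟨mem_filter.2 ⟨hzR, hc⟩, hz⟩)
    have h11 : ((R.filter fun z => u ∈ sp z).card : ℝ) ≤
        ((R.filter (fun z => z ∉ LawB.cov B)).filter fun z => u ∈ sp z).card +
          (R ∩ LawB.cov B).card := by exact_mod_cast h10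
    rw [h9] at h7
    have h12 := mul_le_mul_of_nonneg_left (sub_le_iff_le_add.2 h11) (E45c_omx hH u).1
    have h13 : 0 ≤ omx H N u *
        (((R.filter (fun z => z ∉ LawB.cov B)).filter fun z => u ∈ sp z).card : ℝ) :=
      mul_nonneg (E45c_omx hH u).1 (Nat.cast_nonneg _)
    exact ⟨by linarith, by linarith⟩
  unfold rho TT
  constructor
  · rw [le_div_iff₀ hN0]
    refine le_trans (le_of_eq ?_) h6.1
    field_simp
  · rw [le_div_iff₀ hN0]
    refine le_trans (le_of_eq ?_) h6.2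
    field_simp

/-- the value of `X` -/
private theorem E45c_X {u : V} {B : Finset (Finset V)} {G : Finset V} (huR : u ∉ R)
    (hB : PD B) (hG : G ∈ B) (huG : u ∈ G) :
    Xv (insert u R) (xu H N) B = -1 + ∑ z ∈ R, xu H N z - ax H N R G -
      ∑ F ∈ B.erase G, ax H N R F := by
  have hu : u ∈ LawB.cov B := mem_biUnion.2 ⟨G, hG, huG⟩
  have h1 : Xv (insert u R) (xu H N) B = -1 + Xv R (xu H N) B := by
    unfold Xv
    rw [sum_insert huR, if_pos hu]
  rw [h1, thm_J1.2.2.2.2.2 V R (xu H N) B hB]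
  unfold Ja
  rw [← add_sum_erase _ _ hG]
  unfold ax
  ring

omit [Fintype V] in
/-- facts on the configuration -/
private theorem E45c_facts {k : ℕ} {S0 : ℝ} {u : V} {Mk : Finset (Finset V)} {sp : V → Finset V}
    {B : Finset (Finset V)} {G : Finset V} (hD : D45 k N S0 H u R Mk sp)
    (hx : ∀ z ∈ R, 0 ≤ xu H N z ∧ xu H N z ≤ 0.62) (hN : 2 ≤ N)
    (hNS : (k : ℝ) + 1 + 3.24 * |S0| ≤ 0.45 * N)
    (hB : B ⊆ H) (hG : G ∈ B) (huG : u ∈ G) :
    0 ≤ ∑ F ∈ B.erase G, ax H N R F ∧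
    ((R ∩ LawB.cov B).card : ℝ) ≤ (G ∩ R).card + ∑ F ∈ B.erase G, ax H N R F ∧
    ((G ∩ R).card : ℝ) + 1 ≤ k ∧
    0 ≤ errv N (insert u R) B ∧
    errv N (insert u R) B ≤ 2 * (1 + (G ∩ R).card) / N + ∑ F ∈ B.erase G, ax H N R F := by
  have hN0 : (0 : ℝ) < N := by
    have : 0 < N := by omega
    exact_mod_cast this
  obtain ⟨J, hJ⟩ : ∃ J, J = ∑ F ∈ B.erase G, ax H N R F := ⟨_, rfl⟩
  rw [← hJ]
  have h1 : ∀ F, ((F ∩ R).card : ℝ) ≤ ax H N R F ∧ ax H N R F ≤ 1.62 * (F ∩ R).card :=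
    E45c_ax hx
  have h2 : 0 ≤ J := by
    rw [hJ]
    exact sum_nonneg fun F _ => (Nat.cast_nonneg _).trans (h1 F).1
  have h3 : ∑ F ∈ B, ((F ∩ R).card : ℝ) ≤ (G ∩ R).card + J := by
    rw [← add_sum_erase _ _ hG, hJ]
    exact add_le_add le_rfl (sum_le_sum fun F _ => (h1 F).1)
  have h4 : ((R ∩ LawB.cov B).card : ℝ) ≤ (G ∩ R).card + J := (E45c_cov B).trans h3
  have h5 : ((G ∩ R).card : ℝ) + 1 ≤ k := by
    have h6 : (G ∩ R).card + 1 ≤ G.card := by
      have h7 : G ∩ R ⊆ G.erase u := by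
        intro z hz
        obtain ⟨hzG, hzR⟩ := mem_inter.1 hz
        refine mem_erase.2 ⟨?_, hzG⟩
        rintro rfl
        exact hD.uR hzR
      have h8 := card_le_card h7
      rw [card_erase_of_mem huG] at h8
      have := card_pos.2 ⟨u, huG⟩
      omega
    exact_mod_cast h6.trans (hD.big.card G (hB hG))
  have h6 : J ≤ 1.62 * |S0| * N := by
    have e1 : ∑ F ∈ B, ((F ∩ R).card : ℝ) ≤ ∑ z ∈ R, (bd H z : ℝ) := E45c_sum hB
    have e2 : (∑ z ∈ R, (bd H z : ℝ)) ≤ S0 * N := by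
      have := hD.ld
      unfold load at this
      rw [← sum_div, div_le_iff₀ hN0] at this
      exact this
    have e3 : J ≤ 1.62 * ∑ F ∈ B, ((F ∩ R).card : ℝ) := by
      rw [hJ, mul_sum]
      refine (sum_le_sum_of_subset_of_nonneg (erase_subset G B) fun F _ _ => ?_).trans
        (sum_le_sum fun F _ => (h1 F).2)
      exact (Nat.cast_nonneg _).trans (h1 F).1
    have e4 : S0 * N ≤ |S0| * N := mul_le_mul_of_nonneg_right (le_abs_self _) hN0.le
    linarith
  have h7 : Yv (insert u R) B ≤ 1 + (G ∩ R).card + J := by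
    unfold Yv
    have e1 : ((insert u R) ∩ LawB.cov B).card ≤ (R ∩ LawB.cov B).card + 1 := by
      refine (card_le_card (t := insert u (R ∩ LawB.cov B)) ?_).trans (card_insert_le _ _)
      intro z hz
      obtain ⟨hz1, hz2⟩ := mem_inter.1 hz
      rcases mem_insert.1 hz1 with rfl | hz1
      · exact mem_insert_self _ _
      · exact mem_insert_of_mem (mem_inter.2 ⟨hz1, hz2⟩)
    have e2 : (((insert u R) ∩ LawB.cov B).card : ℝ) ≤ (R ∩ LawB.cov B).card + 1 := by
      exact_mod_cast e1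
    linarith
  have h8 : 0 ≤ Yv (insert u R) B := Nat.cast_nonneg _
  refine ⟨h2, h4, h5, ?_, ?_⟩
  · unfold errv
    have : 0 ≤ 2 * Yv (insert u R) B / N := by positivity
    have := le_max_left 0 (Yv (insert u R) B - 0.45 * N)
    linarith
  · have h9 := E45c_err J (1 + (G ∩ R).card) |S0| N (by exact_mod_cast hN) h2 h6 (by linarith)
    unfold errv
    have h10 : 2 * Yv (insert u R) B / N ≤ 2 * (1 + (G ∩ R).card) / N + 2 * J / N := by
      rw [← add_div]
      exact div_le_div_of_nonneg_right (by linarith) hN0.le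
    have h11 : max 0 (Yv (insert u R) B - 0.45 * N) ≤
        max 0 (1 + (G ∩ R).card + J - 0.45 * N) := max_le_max le_rfl (by linarith)
    linarith

/-- the lower bound for the integrand -/
private theorem E45c_path {k : ℕ} {S0 : ℝ} {u : V} {Mk : Finset (Finset V)}
    {sp : V → Finset V} {B : Finset (Finset V)} {G : Finset V} (hD : D45 k N S0 H u R Mk sp)
    (hx : ∀ z ∈ R, 0 ≤ xu H N z ∧ xu H N z ≤ 0.62)
    (hsum : ∑ z ∈ R, (xu H N z - 0.16 * mk H Mk z / N) = hh H Mk N R u)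
    (hhh : hh H Mk N R u ≤ 2.65715 + 6 / N) (hT : TT N R u sp ≤ 1)
    (hN : 100 * (k + 4) ≤ N)
    (hNS : (k : ℝ) + 1 + 3.24 * |S0| ≤ 0.45 * N)
    (hB : B ⊆ H) (hP : PD B) (hG : G ∈ B) (huG : u ∈ G) :
    -1 + hh H Mk N R u - ax H N R G - ∑ F ∈ B.erase G, ax H N R F -
      (if (G ∩ R).card = 0 then max 0 (hh H Mk N R u - 1 + 2 / N) / 2 else
        if (G ∩ R).card = 1 then max 0 (hh H Mk N R u - 2 + 4 / N) / 2 else
        -(omx H N u * (TT N R u sp - (k + ∑ F ∈ B.erase G, ax H N R F) / N))) ≤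
    Psi (rho H N R sp B) (errv N (insert u R) B) 0 (Xv (insert u R) (xu H N) B) := by
  have hN0 : (0 : ℝ) < N := by
    have : 0 < N := by omega
    exact_mod_cast this
  obtain ⟨f1, f2, f3, f4, f5⟩ := E45c_facts hD hx (by omega) hNS hB hG huG
  have hX := E45c_X (N := N) (H := H) hD.uR hP hG huG
  obtain ⟨hr, hr0⟩ := E45c_rho (B := B) hD.big (by omega) (mem_biUnion.2 ⟨G, hG, huG⟩) hD.spb
  obtain ⟨J, hJ⟩ : ∃ J, J = ∑ F ∈ B.erase G, ax H N R F := ⟨_, rfl⟩
  rw [← hJ] at f1 f2 f5 hX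
  rw [← hJ]
  have hax := (E45c_ax hx G).1
  have hom := E45c_omx hD.big u
  obtain ⟨c, hc⟩ : ∃ c : ℝ, c = ((R ∩ LawB.cov B).card : ℝ) := ⟨_, rfl⟩
  rw [← hc] at f2 hr
  obtain ⟨m, hm⟩ : ∃ m : ℝ, m = ∑ z ∈ R, (mk H Mk z : ℝ) := ⟨_, rfl⟩
  have hm0 : 0 ≤ m := by
    rw [hm]
    exact sum_nonneg fun _ _ => Nat.cast_nonneg _
  rw [← hm] at hr hr0
  have hsum' : ∑ z ∈ R, xu H N z = hh H Mk N R u + 0.16 * m / N := by
    rw [← hsum, sum_sub_distrib, hm]
    have : ∑ z ∈ R, 0.16 * (mk H Mk z : ℝ) / N = 0.16 * (∑ z ∈ R, (mk H Mk z : ℝ)) / N := by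
      rw [mul_sum, sum_div]
    rw [this]
    ring
  rw [hsum'] at hX
  have hmN : 0 ≤ 0.16 * m / N := by positivity
  have hcN : c / N ≤ (k + J) / N :=
    div_le_div_of_nonneg_right (by linarith) hN0.le
  have hT' : omx H N u * (TT N R u sp - (k + J) / N) ≤ omx H N u * (TT N R u sp - c / N) :=
    mul_le_mul_of_nonneg_left (by linarith) hom.1
  have hT0 : 0 ≤ TT N R u sp - (TT N R u sp - (k + J) / N) := by
    have : 0 ≤ (k + J) / (N : ℝ) := by positivity
    linarith
  obtain ⟨e, he⟩ : ∃ e : ℝ, e = 1 / (N : ℝ) := ⟨_, rfl⟩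
  have he0 : 0 < e := by
    rw [he]
    positivity
  have hk0 : (0 : ℝ) ≤ k := Nat.cast_nonneg _
  have hke : ((k : ℝ) + 4) * e ≤ 0.01 := by
    have h7 : (100 * (k + 4) : ℝ) ≤ N := by exact_mod_cast hN
    rw [he, mul_one_div, div_le_iff₀ hN0]
    linarith
  have h2N : (2 : ℝ) / N = 2 * e := by rw [he]; ring
  have h4N : (4 : ℝ) / N = 4 * e := by rw [he]; ring
  have h6N : (6 : ℝ) / N = 6 * e := by rw [he]; ring
  have herr : 2 * (1 + ((G ∩ R).card : ℝ)) / N = 2 * ((1 + ((G ∩ R).card : ℝ)) * e) := by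
    rw [he]; ring
  have hke' : (1 + ((G ∩ R).card : ℝ)) * e ≤ k * e :=
    mul_le_mul_of_nonneg_right (by linarith) he0.le
  rw [herr] at f5
  rw [h6N] at hhh
  rw [h2N, h4N]
  have hX1 : -1 + hh H Mk N R u - ax H N R G - J ≤ Xv (insert u R) (xu H N) B := by
    rw [hX]
    linarith
  have homT : omx H N u * (TT N R u sp - c / N) ≤ rho H N R sp B + 0.16 * m / N := by linarith
  have hT1 : omx H N u * (TT N R u sp - (k + J) / N) ≤ 0.16 := by
    have e1 : TT N R u sp - (k + J) / N ≤ 1 := by linarith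
    have e2 := mul_le_mul_of_nonneg_left e1 hom.1
    linarith [hom.2]
  have hTT0 : 0 ≤ TT N R u sp := by
    unfold TT
    positivity
  obtain ⟨n, hn⟩ : ∃ n, n = (G ∩ R).card := ⟨_, rfl⟩
  rw [← hn] at f2 f3 f5 hax hke' ⊢
  rcases n with _ | _ | n
  · rw [if_pos rfl]
    push_cast at f3 f5 hax hke'
    refine E45c_Psi1 (rho H N R sp B) (errv N (insert u R) B)
      (Xv (insert u R) (xu H N) B) (-1 + hh H Mk N R u - ax H N R G - J)
      (max 0 (hh H Mk N R u - 1 + 2 * e)) hX1 (by rw [hX]; linarith) (le_max_left _ _) f4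
      (le_trans ?_ (le_max_right _ _)) (by linarith)
    linarith
  · rw [if_neg (by omega), if_pos rfl]
    push_cast at f3 f5 hax hke'
    refine E45c_Psi1 (rho H N R sp B) (errv N (insert u R) B)
      (Xv (insert u R) (xu H N) B) (-1 + hh H Mk N R u - ax H N R G - J)
      (max 0 (hh H Mk N R u - 2 + 4 * e)) hX1 (by rw [hX]; linarith) (le_max_left _ _) f4
      (le_trans ?_ (le_max_right _ _)) (by linarith)
    linarith
  · rw [if_neg (by omega), if_neg (by omega)]
    push_cast at f3 f5 hax hke'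
    have e3 := E45c_Psi2 (rho H N R sp B) (errv N (insert u R) B)
      (Xv (insert u R) (xu H N) B) (-1 + hh H Mk N R u - ax H N R G - J)
      (omx H N u * (TT N R u sp - (k + J) / N)) hX1 (by rw [hX]; linarith)
      (by linarith) (by linarith)
    linarith

omit [Fintype V] in
private theorem E45c_pos {A B : Finset (Finset V)} (h : A ⊆ B) : ins A B = 1 := by
  unfold ins
  rw [if_pos h]

omit [Fintype V] in
private theorem E45c_neg {A B : Finset (Finset V)} (h : ¬ A ⊆ B) : ins A B = 0 := by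
  unfold ins
  rw [if_neg h]

/-- the mean of the weights of the other edges -/
private theorem E45c_mean {K : ℝ} {w : Finset (Finset V) → ℝ} {u : V} {G : Finset V}
    (hw : QLaw K N H w) (hN : 0 < N) (hG : G ∈ H) (huG : u ∈ G)
    (ha : ∀ F, 0 ≤ ax H N R F) :
    ∑ F ∈ (HF H u).filter (fun F => Disjoint F G), ax H N R F * ev w (ins {F, G}) ≤
      SF H N R u * (1 + |K| ^ 3 / N) / N := by
  have hN0 : (0 : ℝ) < N := by exact_mod_cast hN
  have h1 : ∀ F ∈ (HF H u).filter (fun F => Disjoint F G), ev w (ins {F, G}) ≤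
      (1 + |K| ^ 3 / N) / (N : ℝ) ^ 2 := by
    intro F hF
    obtain ⟨hF, hd⟩ := mem_filter.1 hF
    obtain ⟨hFH, huF⟩ := mem_filter.1 hF
    have hne : F ≠ G := by
      rintro rfl
      exact huF huG
    have h2 := hw.rpt {F, G} (by
      intro A hA
      rcases mem_insert.1 hA with rfl | hA
      · exact hFH
      · rw [mem_singleton.1 hA]
        exact hG) (by
      intro A hA A' hA' hAA
      rcases mem_insert.1 hA with rfl | hA
      · rcases mem_insert.1 hA' with rfl | hA'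
        · exact absurd rfl hAA
        · rw [mem_singleton.1 hA']
          exact hd
      · rw [mem_singleton.1 hA] at hAA ⊢
        rcases mem_insert.1 hA' with rfl | hA'
        · exact hd.symm
        · exact absurd (mem_singleton.1 hA').symm hAA)
    rw [card_pair hne] at h2
    have h3 := (abs_le.1 h2).2
    have h4 : (K / N) ^ (2 + 1) ≤ (|K| / N) ^ 3 := by
      refine (le_abs_self _).trans (le_of_eq ?_)
      rw [abs_pow, abs_div, Nat.abs_cast]
    have h5 : (1 + |K| ^ 3 / N) / (N : ℝ) ^ 2 = (1 / N) ^ 2 + (|K| / N) ^ 3 := by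
      field_simp
    rw [h5]
    linarith
  have h2 : ∑ F ∈ (HF H u).filter (fun F => Disjoint F G), ax H N R F * ev w (ins {F, G}) ≤
      ∑ F ∈ (HF H u).filter (fun F => Disjoint F G),
        ax H N R F * ((1 + |K| ^ 3 / N) / (N : ℝ) ^ 2) :=
    sum_le_sum fun F hF => mul_le_mul_of_nonneg_left (h1 F hF) (ha F)
  have h3 : 0 ≤ (1 + |K| ^ 3 / N) / (N : ℝ) ^ 2 := by positivity
  have h4 : ∑ F ∈ (HF H u).filter (fun F => Disjoint F G),
        ax H N R F * ((1 + |K| ^ 3 / N) / (N : ℝ) ^ 2) ≤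
      ∑ F ∈ HF H u, ax H N R F * ((1 + |K| ^ 3 / N) / (N : ℝ) ^ 2) :=
    sum_le_sum_of_subset_of_nonneg (filter_subset _ _) fun F _ _ => mul_nonneg (ha F) h3
  refine (h2.trans h4).trans (le_of_eq ?_)
  rw [← sum_mul]
  unfold SF
  field_simp

end E45c

theorem thm_45c : St45a → St45c := by
  intro hA k K S0
  obtain ⟨N0, hN0⟩ := hA k S0
  refine ⟨k + 1 + 2 * |K| ^ 3, N0 + 100 * (k + 4) + ⌈((k : ℝ) + 1 + 3.24 * |S0|) / 0.45⌉₊, ?_⟩
  intro V _ _ N H w u R Mk sp G hN hD hw hmarg hG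
  obtain ⟨cc, hcc⟩ : ∃ cc, cc = ⌈((k : ℝ) + 1 + 3.24 * |S0|) / 0.45⌉₊ := ⟨_, rfl⟩
  rw [← hcc] at hN
  obtain ⟨a1, a2, -, a4, a5, a6, a7, a8, -, a10, -, -, -, a14, -⟩ :=
    hN0 V N H u R Mk sp (by omega) hD
  obtain ⟨hGH, huG⟩ := mem_filter.1 hG
  have hNpos : 0 < N := by omega
  have hN100 : 100 * (k + 4) ≤ N :=
    le_trans (le_trans (Nat.le_add_left _ N0) (Nat.le_add_right _ cc)) hN
  have hccN : cc ≤ N := le_trans (Nat.le_add_left _ _) hN
  have hNr : (0 : ℝ) < N := by exact_mod_cast hNpos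
  have hN1 : (1 : ℝ) ≤ N := by exact_mod_cast hNpos
  have hNS : (k : ℝ) + 1 + 3.24 * |S0| ≤ 0.45 * N := by
    have h1 := Nat.le_ceil (((k : ℝ) + 1 + 3.24 * |S0|) / 0.45)
    have h2 : (⌈((k : ℝ) + 1 + 3.24 * |S0|) / 0.45⌉₊ : ℝ) ≤ N := by
      rw [← hcc]
      exact_mod_cast hccN
    have h3 := h1.trans h2
    rw [div_le_iff₀ (by norm_num)] at h3
    linarith
  have hhh : hh H Mk N R u ≤ 2.65715 + 6 / N := by
    have h1 : hh H Mk N R u = 2 * Sg H N R u + x4 H N R u + (mm H Mk N R u + SF H N R u) := by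
      unfold hh mm
      ring
    rw [h1]
    linarith
  have hom := E45c_omx hD.big u
  have ha : ∀ F, 0 ≤ ax H N R F := fun F => (Nat.cast_nonneg _).trans (E45c_ax a1 F).1
  obtain ⟨α, hα⟩ : ∃ α : ℝ, α = -1 + hh H Mk N R u - ax H N R G -
      (if (G ∩ R).card = 0 then max 0 (hh H Mk N R u - 1 + 2 / N) / 2 else
        if (G ∩ R).card = 1 then max 0 (hh H Mk N R u - 2 + 4 / N) / 2 else
        -(omx H N u * (TT N R u sp - k / N))) := ⟨_, rfl⟩
  obtain ⟨β, hβ⟩ : ∃ β : ℝ, β = 1 + omx H N u / N := ⟨_, rfl⟩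
  have hβ0 : 0 ≤ β := by
    rw [hβ]
    have := div_nonneg hom.1 hNr.le
    linarith
  have key : ∀ B, B ⊆ H → PD B →
      α * ins {G} B - β * ∑ F ∈ (HF H u).filter (fun F => Disjoint F G),
        ax H N R F * ins {F, G} B ≤
      ins {G} B * Psi (rho H N R sp B) (errv N (insert u R) B) 0
        (Xv (insert u R) (xu H N) B) := by
    intro B hB hP
    by_cases hGB : G ∈ B
    · have h1 : ins {G} B = 1 := E45c_pos (singleton_subset_iff.2 hGB)
      have h2 := E45c_path hD a1 a2 hhh a14 hN100 hNS hB hP hGB huG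
      have h3 : ∑ F ∈ B.erase G, ax H N R F ≤
          ∑ F ∈ (HF H u).filter (fun F => Disjoint F G), ax H N R F * ins {F, G} B := by
        have h4 : ∀ F ∈ B.erase G, ax H N R F = ax H N R F * ins {F, G} B := by
          intro F hF
          have h5 : ins {F, G} B = 1 := by
            refine E45c_pos ?_
            intro A hA
            rcases mem_insert.1 hA with rfl | hA
            · exact mem_of_mem_erase hF
            · rw [mem_singleton.1 hA]
              exact hGB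
          rw [h5, mul_one]
        rw [sum_congr rfl h4]
        refine sum_le_sum_of_subset_of_nonneg ?_ fun F _ _ => mul_nonneg (ha F) ?_
        · intro F hF
          obtain ⟨hne, hFB⟩ := mem_erase.1 hF
          have hd := hP F hFB G hGB hne
          refine mem_filter.2 ⟨mem_filter.2 ⟨hB hFB, fun huF => ?_⟩, hd⟩
          exact disjoint_left.1 hd huF huG
        · unfold ins
          split_ifs
          · exact zero_le_one
          · exact le_rfl
      obtain ⟨J, hJ⟩ : ∃ J, J = ∑ F ∈ B.erase G, ax H N R F := ⟨_, rfl⟩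
      rw [← hJ] at h2 h3
      have hJ0 : 0 ≤ J := by
        rw [hJ]
        exact sum_nonneg fun F _ => ha F
      rw [h1, mul_one, one_mul]
      refine le_trans ?_ h2
      have h4 := mul_le_mul_of_nonneg_left h3 hβ0
      have h5 : 0 ≤ omx H N u / N * J := mul_nonneg (div_nonneg hom.1 hNr.le) hJ0
      have h6 : β * J = J + omx H N u / N * J := by
        rw [hβ]
        ring
      rw [hα]
      split_ifs
      · linarith
      · linarith
      · have h7 : omx H N u * (TT N R u sp - (k + J) / N) =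
            omx H N u * (TT N R u sp - k / N) - omx H N u / N * J := by ring
        rw [h7]
        linarith
    · have h1 : ins {G} B = 0 := E45c_neg fun h => hGB (singleton_subset_iff.1 h)
      have h2 : ∑ F ∈ (HF H u).filter (fun F => Disjoint F G), ax H N R F * ins {F, G} B = 0 := by
        refine sum_eq_zero fun F _ => ?_
        have h3 : ins {F, G} B = 0 :=
          E45c_neg fun h => hGB (h (mem_insert_of_mem (mem_singleton_self _)))
        rw [h3, mul_zero]
      rw [h1, h2]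
      simp
  have h1 := E45c_mono hw key
  refine le_trans ?_ h1
  have h2 : ev w (fun B => α * ins {G} B - β * ∑ F ∈ (HF H u).filter (fun F => Disjoint F G),
        ax H N R F * ins {F, G} B) =
      α * (1 / N) - β * ∑ F ∈ (HF H u).filter (fun F => Disjoint F G),
        ax H N R F * ev w (ins {F, G}) := by
    rw [LawB.ev_sub, LawB.ev_smul, LawB.ev_smul, LawB.ev_sum, hmarg G hGH]
    congr 2
    exact sum_congr rfl fun F _ => LawB.ev_smul w (ins {F, G}) (ax H N R F)
  rw [h2]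
  have h3 := mul_le_mul_of_nonneg_left (E45c_mean hw hNpos hGH huG ha) hβ0
  refine le_trans ?_ (sub_le_sub_left h3 _)
  have h4 : β * (SF H N R u * (1 + |K| ^ 3 / N) / N) ≤
      (SF H N R u + (k + 1 + 2 * |K| ^ 3) * SF H N R u / N) / N := by
    rw [← mul_div_assoc]
    refine div_le_div_of_nonneg_right ?_ hNr.le
    have h5 : β * (1 + |K| ^ 3 / N) ≤ 1 + (k + 1 + 2 * |K| ^ 3) / N := by
      have hK : 0 ≤ |K| ^ 3 := by positivity
      have h6 : omx H N u * |K| ^ 3 / N ≤ 0.16 * |K| ^ 3 := by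
        rw [div_le_iff₀ hNr]
        have h7 : omx H N u * |K| ^ 3 ≤ 0.16 * |K| ^ 3 :=
          mul_le_mul_of_nonneg_right hom.2 hK
        have h8 : 0.16 * |K| ^ 3 * 1 ≤ 0.16 * |K| ^ 3 * N :=
          mul_le_mul_of_nonneg_left hN1 (by positivity)
        linarith
      have h9 : β * (1 + |K| ^ 3 / N) =
          1 + (omx H N u + |K| ^ 3 + omx H N u * |K| ^ 3 / N) / N := by
        rw [hβ]
        field_simp
        ring
      rw [h9]
      have h10 : (0 : ℝ) ≤ k := Nat.cast_nonneg _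
      have h11 : omx H N u + |K| ^ 3 + omx H N u * |K| ^ 3 / N ≤ k + 1 + 2 * |K| ^ 3 := by
        linarith [hom.2]
      have h12 := div_le_div_of_nonneg_right h11 hNr.le
      linarith
    have h6 := mul_le_mul_of_nonneg_left h5 a7
    calc β * (SF H N R u * (1 + |K| ^ 3 / N)) = SF H N R u * (β * (1 + |K| ^ 3 / N)) := by ring
      _ ≤ SF H N R u * (1 + (k + 1 + 2 * |K| ^ 3) / N) := h6
      _ = SF H N R u + (k + 1 + 2 * |K| ^ 3) * SF H N R u / N := by ring
  refine le_trans ?_ (sub_le_sub_left h4 _)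
  rw [mul_one_div, ← sub_div]
  refine div_le_div_of_nonneg_right ?_ hNr.le
  rw [hα]
  split_ifs
  · linarith
  · linarith
  · have h5 : omx H N u * (TT N R u sp - (k + 1 + 2 * |K| ^ 3) / N) ≤
        omx H N u * (TT N R u sp - k / N) := by
      refine mul_le_mul_of_nonneg_left ?_ hom.1
      have hK : 0 ≤ |K| ^ 3 := by positivity
      have h6 : (k : ℝ) ≤ k + 1 + 2 * |K| ^ 3 := by linarith
      have h7 := div_le_div_of_nonneg_right h6 hNr.le
      linarith
    linarith

end Pool.Agent.JR
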