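import Pool.Agent.JR.StA
import Pool.Agent.JR.Mom
import Pool.Agent.JR.Large

/-!
# JR, module ERR: the mean of `err` is small
-/

set_option autoImplicit false

namespace Pool.Agent.JR

open Finset
open Pool.Agent.LawB (ev ins ali Law)

/-- the mean of `err` is small -/
theorem thm_ERR : StERR := by
  intro k K S0
  obtain ⟨C2, hC2⟩ := thm_Q2 k K k S0 0
  refine ⟨7 * (|S0| * (1 + K ^ 2)) + 2 * (S0 ^ 2 + k * |S0| + |C2|), ?_⟩
  intro V _ _ N H w U M hN hB hQ hS hM1 hM2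
  have hNr : (0 : ℝ) < N := by exact_mod_cast hN
  have hN1 : (1 : ℝ) ≤ N := by exact_mod_cast hN
  set a : Finset V → ℝ := fun F => ((F ∩ U).card : ℝ) with ha
  have ha0 : ∀ F ∈ H, 0 ≤ a F ∧ a F ≤ k := by
    intro F hF
    refine ⟨Nat.cast_nonneg _, ?_⟩
    have h1 : (F ∩ U).card ≤ k := (card_le_card inter_subset_left).trans (hB.card F hF)
    show ((F ∩ U).card : ℝ) ≤ k
    exact_mod_cast h1
  have hload : (∑ F ∈ H, a F) / N = load H N U := by
    have h1 := sum_bd H U (fun _ => (1 : ℝ))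
    simp only [sum_const, nsmul_eq_mul, mul_one] at h1
    rw [ha]
    unfold load
    rw [h1, sum_div]
  have hS' : (∑ F ∈ H, a F) / N ≤ S0 := by rw [hload]; exact hS
  have hs0 : 0 ≤ (∑ F ∈ H, a F) / N :=
    div_nonneg (sum_nonneg fun F hF => (ha0 F hF).1) hNr.le
  have hS0 : 0 ≤ S0 := hs0.trans hS'
  have hY : ∀ B, PD B → Yv U B = Ja a B := by
    intro B hPD
    have h1 := sum_cov B hPD U (fun _ => (1 : ℝ))
    simp only [sum_const, nsmul_eq_mul, mul_one] at h1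
    unfold Yv Ja
    rw [← h1]
  set S : ℝ := (∑ F ∈ H, a F) / N with hSdef
  have h1 : ev w (Ja a) ≤ S0 * (1 + K ^ 2) := by
    have h2 := (abs_le.1 (thm_Q1 V k N K H w a hN hB hQ fun F hF => (ha0 F hF).1)).2
    rw [← hSdef] at h2
    have h3 : K ^ 2 * S / N ≤ K ^ 2 * S :=
      div_le_self (mul_nonneg (sq_nonneg K) hs0) hN1
    have h4 : K ^ 2 * S ≤ K ^ 2 * S0 := mul_le_mul_of_nonneg_left hS' (sq_nonneg K)
    have h5 : S0 * (1 + K ^ 2) = S0 + K ^ 2 * S0 := by ring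
    rw [h5]
    linarith
  have h2 : ev w (fun B => (Ja a B) ^ 2) ≤ S0 ^ 2 + k * S0 + |C2| := by
    have h3 := hC2 V N H w a 0 hN hB hQ ha0 hS' (by simp)
    simp only [sub_zero] at h3
    rw [← hSdef] at h3
    have h4 : VF H N a ≤ k * S := by
      unfold VF
      have h5 : 0 ≤ (∑ F ∈ H, ∑ G ∈ H.filter (fun G => ¬ Disjoint F G), a F * a G) /
          (N : ℝ) ^ 2 := by
        apply div_nonneg _ (by positivity)
        refine sum_nonneg fun F hF => sum_nonneg fun G hG => ?_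
        exact mul_nonneg (ha0 F hF).1 (ha0 G (mem_filter.1 hG).1).1
      have h6 : (∑ F ∈ H, a F ^ 2) / N ≤ k * S := by
        rw [hSdef, ← mul_div_assoc, mul_sum]
        apply div_le_div_of_nonneg_right _ hNr.le
        refine sum_le_sum fun F hF => ?_
        rw [sq]
        exact mul_le_mul_of_nonneg_right (ha0 F hF).2 (ha0 F hF).1
      linarith
    have h5 : (k : ℝ) * S ≤ k * S0 := mul_le_mul_of_nonneg_left hS' (Nat.cast_nonneg k)
    have h6 : S ^ 2 ≤ S0 ^ 2 := pow_le_pow_left₀ hs0 hS' 2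
    have h7 : C2 / N ≤ |C2| :=
      (div_le_div_of_nonneg_right (le_abs_self C2) hNr.le).trans (div_le_self (abs_nonneg _) hN1)
    linarith
  have hMpos : 0 < M := by nlinarith
  have h3 : ev w (errv M U) ≤ ev w (fun B => 7 / N * Ja a B + 2 / N * (Ja a B) ^ 2) := by
    refine hQ.mono' fun B _ hPD => ?_
    unfold errv
    rw [hY B hPD]
    have hJ : 0 ≤ Ja a B := by rw [← hY B hPD]; exact Nat.cast_nonneg _
    have e1 : 2 * Ja a B / M ≤ 7 / N * Ja a B := by
      rw [div_le_iff₀ hMpos]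
      have : 7 / (N : ℝ) * Ja a B * M = 7 * Ja a B * (M / N) := by ring
      rw [this]
      have h8 : 0.3 ≤ M / N := by rw [le_div_iff₀ hNr]; exact hM1
      nlinarith
    have e2 : max 0 (Ja a B - 0.45 * M) ≤ 2 / N * (Ja a B) ^ 2 := by
      apply max_le (by positivity)
      have h8 : Ja a B - 0.45 * M ≤ Ja a B - 0.135 * N := by linarith
      refine h8.trans ?_
      have h9 : 2 / (N : ℝ) * Ja a B ^ 2 - (Ja a B - 0.135 * N) =
          2 / N * ((Ja a B - N / 4) ^ 2 + 0.005 * N ^ 2) := by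
        field_simp
        ring
      have h10 : 0 ≤ 2 / (N : ℝ) * ((Ja a B - N / 4) ^ 2 + 0.005 * N ^ 2) := by positivity
      linarith
    linarith
  have h4 : ev w (fun B => 7 / N * Ja a B + 2 / N * (Ja a B) ^ 2) =
      7 / N * ev w (Ja a) + 2 / N * ev w (fun B => (Ja a B) ^ 2) := by
    unfold ev
    rw [mul_sum, mul_sum, ← sum_add_distrib]
    exact sum_congr rfl fun B _ => by ring
  rw [h4] at h3
  have h5 : 7 / (N : ℝ) * ev w (Ja a) ≤ 7 / N * (S0 * (1 + K ^ 2)) :=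
    mul_le_mul_of_nonneg_left h1 (by positivity)
  have h6 : 2 / (N : ℝ) * ev w (fun B => (Ja a B) ^ 2) ≤ 2 / N * (S0 ^ 2 + k * S0 + |C2|) :=
    mul_le_mul_of_nonneg_left h2 (by positivity)
  rw [abs_of_nonneg hS0]
  have e : (7 * (S0 * (1 + K ^ 2)) + 2 * (S0 ^ 2 + k * S0 + |C2|)) / (N : ℝ) =
      7 / N * (S0 * (1 + K ^ 2)) + 2 / N * (S0 ^ 2 + k * S0 + |C2|) := by ring
  rw [e]
  linarith

end Pool.Agent.JR
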