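import Mathlib

set_option autoImplicit false

namespace Pool.Agent.JR

/-- DI45: a real inequality -/
def StDI45 : Prop := ∀ b p0 p1 p2 qe x4 m Y e : ℝ, 0.43 ≤ b → b < 1 / 2 → 0 ≤ p0 → 0 ≤ p1 →
  0 ≤ p2 → p0 + p1 + p2 = 1 → 0 ≤ x4 → 0 ≤ m → x4 + m ≤ 0.3 → m ≤ Y → Y ≤ 2.2 * m → 0 ≤ e →
  e ≤ 1 - 2 * b → e ≤ 0.001 → 0 ≤ qe → qe ≤ 0.776 * x4 + 7 * e →
  0.01 * ((1 - 2 * b) + m + x4) ≤
    (1 - b) * (1 - 5 * m * (1 - 2 * b) / (4 * (4 * b - 1))) +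
    b * (-1 + (2 * b * (p1 + 2 * p2 + qe) + x4 + Y) - (p1 + 2 * p2 + qe) - (Y - m)
      - p0 * max 0 ((2 * b * (p1 + 2 * p2 + qe) + x4 + Y) - 1 + 2 * e) / 2
      - p1 * max 0 ((2 * b * (p1 + 2 * p2 + qe) + x4 + Y) - 2 + 4 * e) / 2
      + 1.6 * max 0 (0.1 - (1 - 2 * b)) * p2 * (1.98 * b * p2 - x4 - m / 2))

end Pool.Agent.JR
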