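import Mathlib
import Pool.Agent.JR.St
import Pool.Agent.JR.St4
import Pool.Agent.JR.StD

/-!
# JR: the case E45 (`b_v = 0`, one very heavy vertex `u`)

`sp z` is the set `Sp(v, z)`, `om y` the size of the modification of the caps, `Mk` the marked edges.
-/

set_option autoImplicit false

namespace Pool.Agent.JR

open Finset
open Pool.Agent.LawB (ev ins ali Law)

variable {V : Type*} [DecidableEq V]

noncomputable def omx (H : Finset (Finset V)) (N : ℕ) (y : V) : ℝ :=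
  1.6 * max 0 (0.1 - (1 - 2 * (bd H y : ℝ) / N))

/-- `rho` of the value lemma -/
noncomputable def rho (H : Finset (Finset V)) (N : ℕ) (R : Finset V) (sp : V → Finset V)
    (B : Finset (Finset V)) : ℝ :=
  (∑ z ∈ R.filter (fun z => z ∉ LawB.cov B), ∑ y ∈ sp z,
    omx H N y * (if y ∈ LawB.cov B then 1 else -1)) / N

/-- the edges at `u` and away from `u` -/
def HG (H : Finset (Finset V)) (u : V) : Finset (Finset V) := H.filter fun F => u ∈ F
def HF (H : Finset (Finset V)) (u : V) : Finset (Finset V) := H.filter fun F => u ∉ F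

/-- weights -/
noncomputable def ax (H : Finset (Finset V)) (N : ℕ) (R : Finset V) (F : Finset V) : ℝ :=
  aw R (xu H N) F

noncomputable def Sg (H : Finset (Finset V)) (N : ℕ) (R : Finset V) (u : V) : ℝ :=
  (∑ G ∈ HG H u, ax H N R G) / N
noncomputable def x4 (H : Finset (Finset V)) (N : ℕ) (R : Finset V) (u : V) : ℝ :=
  (∑ G ∈ HG H u, ax H N R G * ((G.card : ℝ) - 3)) / N
noncomputable def SF (H : Finset (Finset V)) (N : ℕ) (R : Finset V) (u : V) : ℝ :=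
  (∑ F ∈ HF H u, ax H N R F) / N
noncomputable def YF (H Mk : Finset (Finset V)) (N : ℕ) (R : Finset V) (u : V) : ℝ :=
  (∑ F ∈ HF H u, ax H N R F * ((F.card : ℝ) - 1)) / N - 0.16 * (∑ z ∈ R, (mk H Mk z : ℝ)) / N
noncomputable def mm (H Mk : Finset (Finset V)) (N : ℕ) (R : Finset V) (u : V) : ℝ :=
  YF H Mk N R u - SF H N R u
noncomputable def hh (H Mk : Finset (Finset V)) (N : ℕ) (R : Finset V) (u : V) : ℝ :=
  2 * Sg H N R u + x4 H N R u + YF H Mk N R u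
/-- number of edges at `u` with exactly `i` vertices in `R` -/
def cn (H : Finset (Finset V)) (R : Finset V) (u : V) (i : ℕ) : ℕ :=
  ((HG H u).filter fun G => (G ∩ R).card = i).card
/-- number of edges at `u` with at least two vertices in `R` -/
def c2 (H : Finset (Finset V)) (R : Finset V) (u : V) : ℕ :=
  ((HG H u).filter fun G => 2 ≤ (G ∩ R).card).card
/-- number of the `z` in `R` with `u ∈ sp z`, divided by `N` -/
noncomputable def TT (N : ℕ) (R : Finset V) (u : V) (sp : V → Finset V) : ℝ :=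
  ((R.filter fun z => u ∈ sp z).card : ℝ) / N

/-- the combinatorial data -/
structure D45 (k N : ℕ) (S0 : ℝ) (H : Finset (Finset V)) (u : V) (R : Finset V)
    (Mk : Finset (Finset V)) (sp : V → Finset V) : Prop where
  big : Big k N H
  uR : u ∉ R
  hu : 43 * N < 100 * bd H u
  hR : ∀ z ∈ R, ¬ vh H N z
  ld : load H N R ≤ S0
  MkH : Mk ⊆ H
  Mk3 : ∀ F ∈ Mk, F.card = 3 ∧ (F ∩ R).card ≤ 2 ∧ u ∉ F
  sp2 : ∀ z ∈ R, (sp z).Nonempty → bd H z ≤ 2
  spu : ∀ z ∈ R, u ∈ sp z → ∃ G ∈ H, u ∈ G ∧ z ∈ G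
  spb : ∀ z ∈ R, ((sp z).erase u).card ≤ mk H Mk z
  spc : ∀ z ∈ R, bd H z ≤ 2 → 9 * N ≤ 20 * bd H u → ∀ G ∈ H, G.card = 3 → u ∈ G → z ∈ G →
    (∀ y ∈ G, y ≠ u → y ≠ z → ¬ vh H N y) → u ∈ sp z
  m2s : m2 H N u R (fun z => xc H N 2 z - 0.16 * mk H Mk z / N) (aw R (xc H N 2)) < 0.3

/-- the final target of this section -/
def StE45 : Prop := ∀ (k : ℕ) (K S0 : ℝ), ∃ N0 : ℕ, ∀ (V : Type) [Fintype V] [DecidableEq V]
  (N : ℕ) (H : Finset (Finset V)) (w : Finset (Finset V) → ℝ) (u : V) (R : Finset V)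
  (Mk : Finset (Finset V)) (sp : V → Finset V),
  N0 ≤ N → D45 k N S0 H u R Mk sp → QLaw K N H w → (∀ F ∈ H, ev w (ins {F}) = 1 / N) →
  0 ≤ ev w (fun B => Psi (rho H N R sp B) (errv N (insert u R) B) 0
    (Xv (insert u R) (xu H N) B))

/-- L1: deterministic bounds -/
def St45a : Prop := ∀ (k : ℕ) (S0 : ℝ), ∃ N0 : ℕ, ∀ (V : Type) [Fintype V] [DecidableEq V]
  (N : ℕ) (H : Finset (Finset V)) (u : V) (R : Finset V)
  (Mk : Finset (Finset V)) (sp : V → Finset V), N0 ≤ N → D45 k N S0 H u R Mk sp →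
  (∀ z ∈ R, 0 ≤ xu H N z ∧ xu H N z ≤ 0.62) ∧
  ∑ z ∈ R, (xu H N z - 0.16 * mk H Mk z / N) = hh H Mk N R u ∧
  ∑ z ∈ R, xu H N z ≤ 2.8 ∧
  0 ≤ x4 H N R u ∧ 0 ≤ mm H Mk N R u ∧ mm H Mk N R u + x4 H N R u ≤ 0.3 ∧
  0 ≤ SF H N R u ∧ 0.84 * SF H N R u ≤ mm H Mk N R u ∧
  (∑ F ∈ HF H u, ax H N R F ^ 2) / N ≤ 4.9 * mm H Mk N R u ∧
  2 * Sg H N R u ≤ 2 + 6 / N ∧
  (cn H R u 0 : ℝ) + cn H R u 1 + c2 H R u = bd H u ∧
  (cn H R u 1 : ℝ) + 2 * c2 H R u ≤ N * Sg H N R u ∧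
  N * Sg H N R u ≤ cn H R u 1 + 2 * c2 H R u +
    (0.776 * x4 H N R u + 7 / N) * bd H u ∧
  TT N R u sp ≤ 1 ∧
  (9 * N ≤ 20 * bd H u →
    2 * (c2 H R u : ℝ) / N - x4 H N R u - mm H Mk N R u / 2 ≤ TT N R u sp)

/-- L3: the part where `u` is free -/
def St45b : Prop := ∀ (k : ℕ) (K S0 : ℝ), ∃ (C : ℝ) (N0 : ℕ), ∀ (V : Type) [Fintype V]
  [DecidableEq V] (N : ℕ) (H : Finset (Finset V)) (w : Finset (Finset V) → ℝ) (u : V)
  (R : Finset V) (Mk : Finset (Finset V)) (sp : V → Finset V),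
  N0 ≤ N → D45 k N S0 H u R Mk sp → QLaw K N H w → (∀ F ∈ H, ev w (ins {F}) = 1 / N) →
  (1 - (bd H u : ℝ) / N) * (1 - 5 * mm H Mk N R u * (1 - 2 * (bd H u : ℝ) / N) /
      (4 * (4 * (bd H u : ℝ) / N - 1))) - C * mm H Mk N R u / N ≤
    ev w (fun B => if u ∈ LawB.cov B then 0 else
      Psi (rho H N R sp B) (errv N (insert u R) B) 0 (Xv (insert u R) (xu H N) B))

/-- L4: the part where `u` is covered by `G` -/
def St45c : Prop := ∀ (k : ℕ) (K S0 : ℝ), ∃ (C : ℝ) (N0 : ℕ), ∀ (V : Type) [Fintype V]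
  [DecidableEq V] (N : ℕ) (H : Finset (Finset V)) (w : Finset (Finset V) → ℝ) (u : V)
  (R : Finset V) (Mk : Finset (Finset V)) (sp : V → Finset V) (G : Finset V),
  N0 ≤ N → D45 k N S0 H u R Mk sp → QLaw K N H w → (∀ F ∈ H, ev w (ins {F}) = 1 / N) →
  G ∈ HG H u →
  (-1 + hh H Mk N R u - ax H N R G - SF H N R u
    - (if (G ∩ R).card = 0 then max 0 (hh H Mk N R u - 1 + 2 / N) / 2 else
      if (G ∩ R).card = 1 then max 0 (hh H Mk N R u - 2 + 4 / N) / 2 else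
        -(omx H N u * (TT N R u sp - C / N))) - C * SF H N R u / N) / N ≤
    ev w (fun B => ins {G} B *
      Psi (rho H N R sp B) (errv N (insert u R) B) 0 (Xv (insert u R) (xu H N) B))

end Pool.Agent.JR
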