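import Mathlib
import Pool.Agent.JR.St
import Pool.Agent.JR.St4
import Pool.Agent.JR.St45

/-!
# JR: the case F (`b_v ≥ 1`, one very heavy vertex `u`)
-/

set_option autoImplicit false

namespace Pool.Agent.JR

open Finset
open Pool.Agent.LawB (ev ins ali Law)

/-- the abstract form of F; `e` is the error of the exact parts -/
def StF : Prop := ∀ (k : ℕ) (K S0 : ℝ), ∃ N0 : ℕ, ∀ (V : Type) [Fintype V] [DecidableEq V]
  (N : ℕ) (H : Finset (Finset V)) (w : Finset (Finset V) → ℝ) (u : V) (R : Finset V)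
  (xx M e : ℝ) (Z : Finset (Finset V) → ℝ),
  N0 ≤ N → Big k N H → QLaw K N H w → u ∉ R → 43 * N < 100 * bd H u → (∀ z ∈ R, ¬ vh H N z) →
  load H N R ≤ S0 → m2 H N u R (xc H N 2) (aw R (xc H N 2)) < 0.3 →
  (∑ G ∈ HG H u, aw R (xc H N 2) G) / N ≤ m2 H N u R (xc H N 2) (aw R (xc H N 2)) →
  min (2 * (bd H u : ℝ) / (N - 2 * bd H u)) 20 - 0.01 ≤ xx → 0.3 * N ≤ M → M ≤ N → 0 ≤ e →
  (∀ B, |Z B| ≤ 0.01) →
  ev w (fun B => if u ∈ LawB.cov B then 1 else 0) ≤ (bd H u : ℝ) / N + e →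
  ∑ G ∈ HG H u, aw R (xc H N 2) G * ev w (ins {G}) ≤
    (∑ G ∈ HG H u, aw R (xc H N 2) G) / N + e →
  -e ≤ ev w (fun B => if u ∈ LawB.cov B then 0 else Z B) →
  1 - 2 * (bd H u : ℝ) / N - 4 * e + 0.004 * m2 H N u R (xc H N 2) (aw R (xc H N 2)) ≤
    ev w (fun B => Psi 0 (errv M (insert u R) B) (Z B)
      ((if u ∈ LawB.cov B then -1 else xx) + Xv R (xc H N 2) B))

/-- conditional probabilities given that `v` is free, with errors relative to `b_v` -/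
def StC1 : Prop := ∀ (k : ℕ) (C0 a0 : ℝ), ∃ (C : ℝ) (N0 : ℕ), ∀ (V : Type) [Fintype V]
  [DecidableEq V] (N : ℕ) (H : Finset (Finset V)) (w : Finset (Finset V) → ℝ) (v u : V)
  (a : Finset V → ℝ), N0 ≤ N → Big k N H → Law C0 N H w → v ≠ u → (∀ F ∈ H, v ∈ F → u ∉ F) →
  (∀ F ∈ H, 0 ≤ a F ∧ a F ≤ a0) →
  ev w (fun B => (if u ∈ LawB.cov B then 1 else 0) * ali {v} B) ≤
    ((bd H u : ℝ) / N + C * bd H v / (N : ℝ) ^ 2) * ev w (ali {v}) ∧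
  ∑ G ∈ HG H u, a G * ev w (fun B => ins {G} B * ali {v} B) ≤
    ((∑ G ∈ HG H u, a G) / N + C * bd H v / (N : ℝ) ^ 2) * ev w (ali {v})

/-- the mean of `Z` on the event that `u` is free -/
def StC3 : Prop := ∀ (k : ℕ) (K : ℝ), ∃ C : ℝ, ∀ (V : Type) [Fintype V]
  [DecidableEq V] (N : ℕ) (H : Finset (Finset V)) (w : Finset (Finset V) → ℝ) (u : V)
  (P : Finset V) (nu : V → ℝ), 0 < N → Big k N H → QLaw K N H w → u ∉ P → P.card ≤ 2 →
  (∀ y ∈ P, 0 ≤ nu y ∧ nu y ≤ 1 - 2 * (bd H y : ℝ) / N) →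
  -(C / (N : ℝ) ^ 2) ≤ ev w (fun B => if u ∈ LawB.cov B then 0 else
    ∑ y ∈ P, nu y * omx H N y * (if y ∈ LawB.cov B then -1 else 1))

end Pool.Agent.JR
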