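import Mathlib
import Pool.Agent.JR.StF
import Pool.Agent.JR.Large
import Pool.Agent.JR.J1

/-!
# JR, module F: the case of one very heavy vertex and `b_v ≥ 1`
-/

set_option autoImplicit false

namespace Pool.Agent.JR

open Finset
open Pool.Agent.LawB (ev ins ali Law ev_add ev_sub ev_smul ev_sum)

section prob

variable {V : Type*} [Fintype V] [DecidableEq V] {K : ℝ} {k N : ℕ} {H : Finset (Finset V)}
  {w : Finset (Finset V) → ℝ}

/-- indicator: `u` is covered -/
private noncomputable def F_cv (u : V) (B : Finset (Finset V)) : ℝ :=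
  if u ∈ LawB.cov B then 1 else 0

omit [Fintype V] in
private lemma F_ins_mem (F : Finset V) (B : Finset (Finset V)) :
    ins {F} B = if F ∈ B then 1 else 0 := by
  unfold LawB.ins
  by_cases h : F ∈ B
  · rw [if_pos h, if_pos (singleton_subset_iff.mpr h)]
  · rw [if_neg h, if_neg fun h' => h (singleton_subset_iff.mp h')]

omit [Fintype V] in
private lemma F_ins_insert (G : Finset V) (A B : Finset (Finset V)) :
    ins (insert G A) B = ins {G} B * ins A B := by
  unfold LawB.ins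
  by_cases h1 : G ∈ B <;> by_cases h2 : A ⊆ B <;> simp [insert_subset_iff, h1, h2]

omit [Fintype V] in
private lemma F_ins_nonneg (A B : Finset (Finset V)) : 0 ≤ ins A B := by
  unfold LawB.ins
  split_ifs <;> norm_num

omit [Fintype V] in
private lemma F_cv_eq (u : V) {B : Finset (Finset V)} (hB : B ⊆ H) (hPD : PD B) :
    F_cv u B = ∑ G ∈ HG H u, ins {G} B := by
  unfold F_cv
  by_cases hu : u ∈ LawB.cov B
  · rw [if_pos hu]
    obtain ⟨G, hG, huG⟩ : ∃ G ∈ B, u ∈ G := by simpa [LawB.cov] using hu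
    rw [sum_eq_single G]
    · rw [F_ins_mem, if_pos hG]
    · intro G' hG' hne
      rw [F_ins_mem, if_neg]
      intro hG'B
      exact disjoint_left.mp (hPD G' hG'B G hG hne) (mem_filter.mp hG').2 huG
    · intro h
      exact absurd (mem_filter.mpr ⟨hB hG, huG⟩) h
  · rw [if_neg hu, sum_eq_zero]
    intro G hG
    rw [F_ins_mem, if_neg]
    intro hGB
    apply hu
    simpa [LawB.cov] using ⟨G, hGB, (mem_filter.mp hG).2⟩

private lemma F_K (hw : QLaw K N H w) (hN : 0 < N) : 0 ≤ K := by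
  have h1 := hw.rpt ∅ (empty_subset _) (by intro F hF; simp at hF)
  have h2 : (0 : ℝ) ≤ K / N := by
    have h3 := (abs_nonneg _).trans h1
    simpa using h3
  have h4 : (0 : ℝ) < N := by exact_mod_cast hN
  rcases div_nonneg_iff.mp h2 with h | h
  · exact h.1
  · linarith [h.2]

private lemma F_nonneg (hw : QLaw K N H w) (f : Finset (Finset V) → ℝ) (hf : ∀ B, 0 ≤ f B) :
    0 ≤ ev w f := by
  unfold LawB.ev
  exact sum_nonneg fun B _ => mul_nonneg (hw.nonneg B) (hf B)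

private lemma F_zero (hw : QLaw K N H w) (A : Finset (Finset V)) (hA : ¬ PD A) :
    ev w (ins A) = 0 := by
  unfold LawB.ev
  refine sum_eq_zero fun B _ => ?_
  by_cases hB : w B = 0
  · rw [hB, zero_mul]
  · unfold LawB.ins
    rw [if_neg, mul_zero]
    intro hAB
    apply hA
    intro F hF G hG hne
    exact (hw.supp B hB).2 F (hAB hF) G (hAB hG) hne

private lemma F_le (hw : QLaw K N H w) (hN : 0 < N) (A : Finset (Finset V)) (hA : A ⊆ H) :
    ev w (ins A) ≤ (1 / N) ^ A.card + (K / N) ^ (A.card + 1) := by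
  have hK := F_K hw hN
  by_cases h : PD A
  · have := (abs_le.mp (hw.rpt A hA h)).2
    linarith
  · rw [F_zero hw A h]
    positivity

private lemma F_fr (hw : QLaw K N H w) (u : V) (A : Finset (Finset V)) :
    ev w (fun B => (1 - F_cv u B) * ins A B) =
      ev w (ins A) - ∑ G ∈ HG H u, ev w (ins (insert G A)) := by
  have h1 : ev w (fun B => (1 - F_cv u B) * ins A B) =
      ev w (fun B => ins A B - ∑ G ∈ HG H u, ins (insert G A) B) := by
    unfold LawB.ev
    refine sum_congr rfl fun B _ => ?_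
    by_cases hB : w B = 0
    · rw [hB, zero_mul, zero_mul]
    · obtain ⟨hBH, hPD⟩ := hw.supp B hB
      congr 1
      beta_reduce
      rw [F_cv_eq u hBH hPD, sub_mul, one_mul, sum_mul]
      congr 1
      exact sum_congr rfl fun G _ => (F_ins_insert G A B).symm
  rw [h1, ev_sub, ev_sum]

/-- few edges at `u` meet `A` -/
private lemma F_meet (hB : Big k N H) (u : V) (A : Finset (Finset V)) (hA : A ⊆ HF H u) :
    ((HG H u).filter fun G => ¬ ∀ F ∈ A, Disjoint G F).card ≤ A.card * k := by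
  classical
  have h1 : ∀ G ∈ (HG H u).filter (fun G => ¬ ∀ F ∈ A, Disjoint G F),
      ∃ z ∈ A.biUnion id, z ∈ G := by
    intro G hG
    have h2 := (mem_filter.mp hG).2
    push Not at h2
    obtain ⟨F, hF, hGF⟩ := h2
    obtain ⟨z, hz1, hz2⟩ := not_disjoint_iff.mp hGF
    exact ⟨z, mem_biUnion.mpr ⟨F, hF, hz2⟩, hz1⟩
  have : Nonempty V := ⟨u⟩
  choose! φ hφ using h1
  have h2 : ((HG H u).filter fun G => ¬ ∀ F ∈ A, Disjoint G F).card ≤ (A.biUnion id).card := by
    refine card_le_card_of_injOn φ (fun G hG => (hφ G hG).1) ?_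
    intro G hG G' hG' hGG'
    by_contra hne
    have hG1 := mem_filter.mp (mem_filter.mp hG).1
    have hG2 := mem_filter.mp (mem_filter.mp hG').1
    have h3 := hB.lin G hG1.1 G' hG2.1 hne
    have h4 : φ G ∈ G := (hφ G hG).2
    have h5 : φ G ∈ G' := by rw [hGG']; exact (hφ G' hG').2
    have h6 : φ G ≠ u := by
      intro h7
      obtain ⟨F, hF, hzF⟩ := mem_biUnion.mp (hφ G hG).1
      rw [h7] at hzF
      exact (mem_filter.mp (hA hF)).2 hzF
    have h7 : ({φ G, u} : Finset V) ⊆ G ∩ G' := by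
      intro z hz
      rw [mem_insert, mem_singleton] at hz
      rcases hz with rfl | rfl
      · exact mem_inter.mpr ⟨h4, h5⟩
      · exact mem_inter.mpr ⟨hG1.2, hG2.2⟩
    have h8 := card_le_card h7
    rw [card_pair h6] at h8
    omega
  refine h2.trans (card_biUnion_le_card_mul _ _ k fun F hF => ?_)
  exact hB.card F (mem_filter.mp (hA hF)).1

private lemma F_up (hB : Big k N H) (hw : QLaw K N H w) (hN : 0 < N) (u : V)
    (A : Finset (Finset V)) (hA : A ⊆ HF H u) (hPD : PD A) :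
    ev w (fun B => (1 - F_cv u B) * ins A B) ≤
      (1 / N) ^ A.card * (1 - (bd H u : ℝ) / N) +
        (A.card * k + K ^ (A.card + 1) + K ^ (A.card + 2)) * (1 / N) ^ (A.card + 1) := by
  classical
  have hK := F_K hw hN
  have hn : (0 : ℝ) < N := by exact_mod_cast hN
  have hAH : A ⊆ H := hA.trans (filter_subset _ _)
  set m := A.card with hm
  set D := (HG H u).filter fun G => ∀ F ∈ A, Disjoint G F with hD
  have hDc : (bd H u : ℝ) ≤ D.card + m * k := by
    have h1 : D.card + ((HG H u).filter fun G => ¬ ∀ F ∈ A, Disjoint G F).card =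
        (HG H u).card := by
      rw [hD]
      exact card_filter_add_card_filter_not _
    have h2 := F_meet hB u A hA
    rw [← hm] at h2
    have h3 : bd H u = (HG H u).card := rfl
    have h4 : bd H u ≤ D.card + m * k := by
      rw [h3]
      omega
    exact_mod_cast h4
  have hDu : (D.card : ℝ) ≤ bd H u := by
    have h1 : D.card ≤ (HG H u).card := card_le_card (filter_subset _ _)
    exact_mod_cast h1
  have hbN : (bd H u : ℝ) ≤ N := by
    have h1 := hB.two_bd_lt u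
    have h2 : bd H u ≤ N := by omega
    exact_mod_cast h2
  have hG : ∀ G ∈ D, (1 / (N : ℝ)) ^ (m + 1) - (K / N) ^ (m + 2) ≤ ev w (ins (insert G A)) := by
    intro G hG
    obtain ⟨h1, h2⟩ := mem_filter.mp hG
    have h3 : G ∉ A := by
      intro h4
      exact (mem_filter.mp (hA h4)).2 (mem_filter.mp h1).2
    have h4 : (insert G A).card = m + 1 := card_insert_of_notMem h3
    have h5 : PD (insert G A) := by
      intro F hF F' hF' hne
      rw [mem_insert] at hF hF'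
      rcases hF with rfl | hF <;> rcases hF' with rfl | hF'
      · exact absurd rfl hne
      · exact h2 F' hF'
      · exact (h2 F hF).symm
      · exact hPD F hF F' hF' hne
    have h6 := (abs_le.mp (hw.rpt (insert G A)
      (insert_subset (mem_filter.mp h1).1 hAH) h5)).1
    rw [h4] at h6
    linarith
  have hsum : (D.card : ℝ) * ((1 / (N : ℝ)) ^ (m + 1) - (K / N) ^ (m + 2)) ≤
      ∑ G ∈ HG H u, ev w (ins (insert G A)) := by
    calc (D.card : ℝ) * ((1 / (N : ℝ)) ^ (m + 1) - (K / N) ^ (m + 2))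
        = ∑ _G ∈ D, ((1 / (N : ℝ)) ^ (m + 1) - (K / N) ^ (m + 2)) := by
          rw [sum_const, nsmul_eq_mul]
      _ ≤ ∑ G ∈ D, ev w (ins (insert G A)) := sum_le_sum hG
      _ ≤ ∑ G ∈ HG H u, ev w (ins (insert G A)) :=
          sum_le_sum_of_subset_of_nonneg (filter_subset _ _)
            fun G _ _ => F_nonneg hw _ fun B => F_ins_nonneg _ _
  have hA1 := F_le hw hN A hAH
  rw [← hm] at hA1
  rw [F_fr hw u A]
  have e1 : (K / (N : ℝ)) ^ (m + 1) = K ^ (m + 1) * (1 / N) ^ (m + 1) := by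
    rw [← mul_pow]
    congr 1
    ring
  have e2 : (K / (N : ℝ)) ^ (m + 2) = K ^ (m + 2) * (1 / N) ^ (m + 1) * (1 / N) := by
    rw [mul_assoc, ← pow_succ, ← mul_pow]
    congr 1
    ring
  have p1 : 0 ≤ (1 / (N : ℝ)) ^ (m + 1) := by positivity
  have p2 : 0 ≤ K ^ (m + 2) * (1 / (N : ℝ)) ^ (m + 1) := by positivity
  have h1 : (D.card : ℝ) * (K / N) ^ (m + 2) ≤ K ^ (m + 2) * (1 / (N : ℝ)) ^ (m + 1) := by
    rw [e2]
    have h2 : (D.card : ℝ) * (1 / N) ≤ 1 := by
      rw [mul_one_div, div_le_one hn]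
      exact hDu.trans hbN
    calc (D.card : ℝ) * (K ^ (m + 2) * (1 / (N : ℝ)) ^ (m + 1) * (1 / N))
        = (K ^ (m + 2) * (1 / (N : ℝ)) ^ (m + 1)) * (D.card * (1 / N)) := by ring
      _ ≤ (K ^ (m + 2) * (1 / (N : ℝ)) ^ (m + 1)) * 1 := mul_le_mul_of_nonneg_left h2 p2
      _ = _ := mul_one _
  have h2 : ((bd H u : ℝ) - m * k) * (1 / (N : ℝ)) ^ (m + 1) ≤
      D.card * (1 / (N : ℝ)) ^ (m + 1) :=
    mul_le_mul_of_nonneg_right (by linarith) p1
  have h3 : (1 / (N : ℝ)) ^ m * (1 - (bd H u : ℝ) / N) =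
      (1 / (N : ℝ)) ^ m - bd H u * (1 / (N : ℝ)) ^ (m + 1) := by
    rw [pow_succ]
    field_simp
  rw [h3]
  rw [e1] at hA1
  nlinarith [hsum, h1, h2, hA1]

private lemma F_lo (hB : Big k N H) (hw : QLaw K N H w) (hN : 0 < N) (u : V)
    (F : Finset V) (hF : F ∈ HF H u) :
    (1 / N) * (1 - (bd H u : ℝ) / N) - (K ^ 2 + K ^ 3) * (1 / N) ^ 2 ≤
      ev w (fun B => (1 - F_cv u B) * ins {F} B) := by
  classical
  have hK := F_K hw hN
  have hn : (0 : ℝ) < N := by exact_mod_cast hN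
  have hFH := (mem_filter.mp hF).1
  have hbN : (bd H u : ℝ) ≤ N := by
    have h1 := hB.two_bd_lt u
    have h2 : bd H u ≤ N := by omega
    exact_mod_cast h2
  have h1 := (abs_le.mp (hw.rpt {F} (singleton_subset_iff.mpr hFH) (by
    intro G hG G' hG' hne
    rw [mem_singleton] at hG hG'
    exact absurd (hG.trans hG'.symm) hne))).1
  rw [card_singleton, pow_one] at h1
  have h2 : ∀ G ∈ HG H u, ev w (ins (insert G {F})) ≤ (1 / N) ^ 2 + (K / N) ^ 3 := by
    intro G hG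
    have h3 := F_le hw hN (insert G {F}) (by
      intro x hx
      rw [mem_insert, mem_singleton] at hx
      rcases hx with rfl | rfl
      · exact (mem_filter.mp hG).1
      · exact hFH)
    have h4 : (insert G {F} : Finset (Finset V)).card = 2 := by
      apply card_pair
      rintro rfl
      exact (mem_filter.mp hF).2 (mem_filter.mp hG).2
    rw [h4] at h3
    exact h3
  have h5 : ∑ G ∈ HG H u, ev w (ins (insert G {F})) ≤
      bd H u * ((1 / N) ^ 2 + (K / N) ^ 3) := by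
    calc ∑ G ∈ HG H u, ev w (ins (insert G {F})) ≤ ∑ _G ∈ HG H u, ((1 / (N : ℝ)) ^ 2 + (K / N) ^ 3) :=
          sum_le_sum h2
      _ = bd H u * ((1 / N) ^ 2 + (K / N) ^ 3) := by
          rw [sum_const, nsmul_eq_mul]
          rfl
  rw [F_fr hw u {F}]
  have h6 : (bd H u : ℝ) * (K / N) ^ 3 ≤ K ^ 3 * (1 / N) ^ 2 := by
    have h7 : (bd H u : ℝ) * (1 / N) ≤ 1 := by
      rw [mul_one_div, div_le_one hn]
      exact hbN
    calc (bd H u : ℝ) * (K / N) ^ 3 = (K ^ 3 * (1 / N) ^ 2) * (bd H u * (1 / N)) := by ring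
      _ ≤ (K ^ 3 * (1 / N) ^ 2) * 1 := mul_le_mul_of_nonneg_left h7 (by positivity)
      _ = _ := mul_one _
  have h8 : (K / (N : ℝ)) ^ (1 + 1) = K ^ 2 * (1 / N) ^ 2 := by ring
  rw [h8] at h1
  have h9 : (1 / (N : ℝ)) * (1 - (bd H u : ℝ) / N) = 1 / N - bd H u * (1 / N) ^ 2 := by ring
  rw [h9]
  linarith

/-- the chance that `u` is covered -/
private lemma F_cov (hB : Big k N H) (hw : QLaw K N H w) (hN : 0 < N) (u : V) :
    |ev w (F_cv u) - (bd H u : ℝ) / N| ≤ K ^ 2 / N := by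
  classical
  have hK := F_K hw hN
  have hn : (0 : ℝ) < N := by exact_mod_cast hN
  have hbN : (bd H u : ℝ) ≤ N := by
    have h1 := hB.two_bd_lt u
    have h2 : bd H u ≤ N := by omega
    exact_mod_cast h2
  have h1 : ev w (F_cv u) = ∑ G ∈ HG H u, ev w (ins {G}) := by
    rw [← ev_sum]
    unfold LawB.ev
    refine sum_congr rfl fun B _ => ?_
    by_cases hB : w B = 0
    · rw [hB, zero_mul, zero_mul]
    · rw [F_cv_eq u (hw.supp B hB).1 (hw.supp B hB).2]
  have h2 : ∀ G ∈ HG H u, |ev w (ins {G}) - 1 / N| ≤ (K / N) ^ 2 := by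
    intro G hG
    have h3 := hw.rpt {G} (singleton_subset_iff.mpr (mem_filter.mp hG).1) (by
      intro G hG G' hG' hne
      rw [mem_singleton] at hG hG'
      exact absurd (hG.trans hG'.symm) hne)
    rw [card_singleton, pow_one] at h3
    exact h3
  have h3 : ev w (F_cv u) - (bd H u : ℝ) / N = ∑ G ∈ HG H u, (ev w (ins {G}) - 1 / N) := by
    rw [h1, sum_sub_distrib, sum_const, nsmul_eq_mul, mul_one_div]
    rfl
  rw [h3]
  refine (abs_sum_le_sum_abs _ _).trans ((sum_le_sum h2).trans ?_)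
  rw [sum_const, nsmul_eq_mul]
  have h4 : ((HG H u).card : ℝ) = bd H u := rfl
  rw [h4]
  calc (bd H u : ℝ) * (K / N) ^ 2 ≤ N * (K / N) ^ 2 :=
        mul_le_mul_of_nonneg_right hbN (by positivity)
    _ = K ^ 2 / N := by
        field_simp

/-! ### the weights -/

private noncomputable def F_S1 (H : Finset (Finset V)) (u : V) (a : Finset V → ℝ)
    (B : Finset (Finset V)) : ℝ := ∑ G ∈ HG H u, a G * ins {G} B

private noncomputable def F_S2 (H : Finset (Finset V)) (u : V) (a : Finset V → ℝ)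
    (B : Finset (Finset V)) : ℝ := ∑ F ∈ HF H u, a F * ins {F} B

omit [Fintype V] in
private lemma F_Ja (u : V) (a : Finset V → ℝ) {B : Finset (Finset V)} (hB : B ⊆ H) :
    Ja a B = F_S1 H u a B + F_S2 H u a B := by
  classical
  have h1 : Ja a B = ∑ F ∈ H, a F * ins {F} B := by
    unfold Ja
    rw [← sum_subset hB]
    · refine sum_congr rfl fun F hF => ?_
      rw [F_ins_mem, if_pos hF, mul_one]
    · intro F _ hF
      rw [F_ins_mem, if_neg hF, mul_zero]
  rw [h1]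
  unfold F_S1 F_S2 HG HF
  rw [sum_filter_add_sum_filter_not]

omit [Fintype V] in
private lemma F_frS1 (u : V) (a : Finset V → ℝ) (B : Finset (Finset V)) :
    (1 - F_cv u B) * F_S1 H u a B = 0 := by
  unfold F_cv
  by_cases hu : u ∈ LawB.cov B
  · rw [if_pos hu, sub_self, zero_mul]
  · rw [if_neg hu, sub_zero, one_mul]
    refine sum_eq_zero fun G hG => ?_
    rw [F_ins_mem, if_neg, mul_zero]
    intro hGB
    apply hu
    simpa [LawB.cov] using ⟨G, hGB, (mem_filter.mp hG).2⟩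

omit [Fintype V] in
private lemma F_cv_mem (u : V) (B : Finset (Finset V)) : 0 ≤ F_cv u B ∧ F_cv u B ≤ 1 := by
  unfold F_cv
  split_ifs <;> norm_num

private lemma F_zero' (hw : QLaw K N H w) (g : Finset (Finset V) → ℝ) (A : Finset (Finset V))
    (hA : ¬ PD A) : ev w (fun B => g B * ins A B) = 0 := by
  unfold LawB.ev
  refine sum_eq_zero fun B _ => ?_
  by_cases hB : w B = 0
  · rw [hB, zero_mul]
  · unfold LawB.ins
    beta_reduce
    rw [if_neg, mul_zero, mul_zero]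
    intro hAB
    apply hA
    intro F hF G hG hne
    exact (hw.supp B hB).2 F (hAB hF) G (hAB hG) hne

private noncomputable def F_U (k : ℕ) (K : ℝ) (N m : ℕ) (b : ℝ) : ℝ :=
  (1 / N) ^ m * (1 - b) + (m * k + K ^ (m + 1) + K ^ (m + 2)) * (1 / N) ^ (m + 1)

omit [Fintype V] in
private lemma F_beta (hB : Big k N H) (hN : 0 < N) (u : V) :
    (bd H u : ℝ) / N ≤ 1 / 2 ∧ 0 ≤ (bd H u : ℝ) / N := by
  have hn : (0 : ℝ) < N := by exact_mod_cast hN
  refine ⟨?_, by positivity⟩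
  rw [div_le_iff₀ hn]
  have h1 : (2 : ℝ) * bd H u + 1 ≤ N := by exact_mod_cast hB.two_bd_lt u
  linarith

private lemma F_pair (hB : Big k N H) (hw : QLaw K N H w) (hN : 0 < N) (u : V)
    (F F' : Finset V) (hF : F ∈ HF H u) (hF' : F' ∈ HF H u) :
    ev w (fun B => (1 - F_cv u B) * (ins {F} B * ins {F'} B)) ≤
      (if F = F' then F_U k K N 1 ((bd H u : ℝ) / N) else 0) +
        F_U k K N 2 ((bd H u : ℝ) / N) := by
  classical
  have hK := F_K hw hN
  have hb := F_beta hB hN u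
  have hU2 : 0 ≤ F_U k K N 2 ((bd H u : ℝ) / N) := by
    unfold F_U
    have : 0 ≤ 1 - (bd H u : ℝ) / N := by linarith
    positivity
  have hPD1 : ∀ G : Finset V, PD ({G} : Finset (Finset V)) := by
    intro G x hx y hy hne
    rw [mem_singleton] at hx hy
    exact absurd (hx.trans hy.symm) hne
  by_cases h : F = F'
  · subst h
    rw [if_pos rfl]
    have h1 := F_up hB hw hN u {F} (singleton_subset_iff.mpr hF) (hPD1 F)
    have h2 : ∀ B, ins {F} B * ins {F} B = ins {F} B := by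
      intro B
      rw [F_ins_mem]
      split_ifs <;> norm_num
    simp only [h2]
    rw [card_singleton] at h1
    have h3 : F_U k K N 1 ((bd H u : ℝ) / N) = (1 / N) ^ 1 * (1 - (bd H u : ℝ) / N) +
        ((1 : ℕ) * k + K ^ (1 + 1) + K ^ (1 + 2)) * (1 / N) ^ (1 + 1) := rfl
    rw [← h3] at h1
    linarith
  · rw [if_neg h, zero_add]
    have h2 : ∀ B, ins {F} B * ins {F'} B = ins (insert F {F'}) B := fun B =>
      (F_ins_insert F {F'} B).symm
    simp only [h2]
    by_cases hPD : PD (insert F {F'} : Finset (Finset V))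
    · have h1 := F_up hB hw hN u (insert F {F'}) (by
        intro x hx
        rw [mem_insert, mem_singleton] at hx
        rcases hx with rfl | rfl
        · exact hF
        · exact hF') hPD
      rw [card_pair h] at h1
      exact h1
    · rw [F_zero' hw _ _ hPD]
      exact hU2

private lemma F_first (hB : Big k N H) (hw : QLaw K N H w) (hN : 0 < N) (u : V)
    (a : Finset V → ℝ) (ha : ∀ F ∈ H, 0 ≤ a F) :
    ev w (fun B => (1 - F_cv u B) * F_S2 H u a B) ≤
      (∑ F ∈ HF H u, a F) * F_U k K N 1 ((bd H u : ℝ) / N) := by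
  have h1 : (fun B => (1 - F_cv u B) * F_S2 H u a B) =
      fun B => ∑ F ∈ HF H u, a F * ((1 - F_cv u B) * ins {F} B) := by
    funext B
    unfold F_S2
    rw [mul_sum]
    exact sum_congr rfl fun F _ => by ring
  rw [h1, ev_sum, sum_mul]
  refine sum_le_sum fun F hF => ?_
  rw [ev_smul]
  refine mul_le_mul_of_nonneg_left ?_ (ha F (mem_filter.mp hF).1)
  have h2 := F_up hB hw hN u {F} (singleton_subset_iff.mpr hF) (by
    intro x hx y hy hne
    rw [mem_singleton] at hx hy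
    exact absurd (hx.trans hy.symm) hne)
  rw [card_singleton] at h2
  exact h2

private lemma F_second (hB : Big k N H) (hw : QLaw K N H w) (hN : 0 < N) (u : V)
    (a : Finset V → ℝ) (ha : ∀ F ∈ H, 0 ≤ a F) (c : ℝ) (hc : 0 ≤ c) :
    ev w (fun B => (1 - F_cv u B) * (F_S2 H u a B - c) ^ 2) ≤
      (∑ F ∈ HF H u, a F ^ 2) * F_U k K N 1 ((bd H u : ℝ) / N) +
      (∑ F ∈ HF H u, a F) ^ 2 * F_U k K N 2 ((bd H u : ℝ) / N) -
      2 * c * ((∑ F ∈ HF H u, a F) *
        ((1 / N) * (1 - (bd H u : ℝ) / N) - (K ^ 2 + K ^ 3) * (1 / N) ^ 2)) +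
      c ^ 2 * (1 - (bd H u : ℝ) / N + K ^ 2 / N) := by
  classical
  have h1 : (fun B => (1 - F_cv u B) * (F_S2 H u a B - c) ^ 2) =
      fun B => ((∑ F ∈ HF H u, ∑ F' ∈ HF H u,
        (a F * a F') * ((1 - F_cv u B) * (ins {F} B * ins {F'} B))) -
        (2 * c) * (∑ F ∈ HF H u, a F * ((1 - F_cv u B) * ins {F} B))) +
        c ^ 2 * (1 - F_cv u B) := by
    funext B
    have e1 : ∑ F ∈ HF H u, ∑ F' ∈ HF H u,
        (a F * a F') * ((1 - F_cv u B) * (ins {F} B * ins {F'} B)) =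
        (1 - F_cv u B) * (F_S2 H u a B * F_S2 H u a B) := by
      unfold F_S2
      rw [sum_mul_sum, mul_sum]
      refine sum_congr rfl fun F _ => ?_
      rw [mul_sum]
      exact sum_congr rfl fun F' _ => by ring
    have e2 : ∑ F ∈ HF H u, a F * ((1 - F_cv u B) * ins {F} B) =
        (1 - F_cv u B) * F_S2 H u a B := by
      unfold F_S2
      rw [mul_sum]
      exact sum_congr rfl fun F _ => by ring
    rw [e1, e2]
    ring
  rw [h1, ev_add, ev_sub, ev_smul, ev_smul, ev_sum]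
  have hcov := (abs_le.mp (F_cov hB hw hN u)).1
  have hconst : ev w (fun B => 1 - F_cv u B) = 1 - ev w (F_cv u) := by
    have := ev_sub w (fun _ => (1 : ℝ)) (F_cv u)
    rw [hw.const'] at this
    exact this
  have b1 : ∑ F ∈ HF H u, ev w (fun B => ∑ F' ∈ HF H u,
      (a F * a F') * ((1 - F_cv u B) * (ins {F} B * ins {F'} B))) ≤
      (∑ F ∈ HF H u, a F ^ 2) * F_U k K N 1 ((bd H u : ℝ) / N) +
      (∑ F ∈ HF H u, a F) ^ 2 * F_U k K N 2 ((bd H u : ℝ) / N) := by
    have e3 : (∑ F ∈ HF H u, a F ^ 2) * F_U k K N 1 ((bd H u : ℝ) / N) +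
        (∑ F ∈ HF H u, a F) ^ 2 * F_U k K N 2 ((bd H u : ℝ) / N) =
        ∑ F ∈ HF H u, ∑ F' ∈ HF H u, (a F * a F') *
          ((if F = F' then F_U k K N 1 ((bd H u : ℝ) / N) else 0) +
            F_U k K N 2 ((bd H u : ℝ) / N)) := by
      rw [sq (∑ F ∈ HF H u, a F), sum_mul_sum, sum_mul, sum_mul, ← sum_add_distrib]
      refine sum_congr rfl fun F hF => ?_
      rw [sum_mul]
      have e4 : ∀ F' ∈ HF H u, (a F * a F') *
          ((if F = F' then F_U k K N 1 ((bd H u : ℝ) / N) else 0) +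
            F_U k K N 2 ((bd H u : ℝ) / N)) =
          (if F = F' then (a F * a F') * F_U k K N 1 ((bd H u : ℝ) / N) else 0) +
            (a F * a F') * F_U k K N 2 ((bd H u : ℝ) / N) := by
        intro F' _
        split_ifs <;> ring
      rw [sum_congr rfl e4, sum_add_distrib, sum_ite_eq, if_pos hF]
      ring
    rw [e3]
    refine sum_le_sum fun F hF => ?_
    rw [ev_sum]
    refine sum_le_sum fun F' hF' => ?_
    rw [ev_smul]
    exact mul_le_mul_of_nonneg_left (F_pair hB hw hN u F F' hF hF')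
      (mul_nonneg (ha F (mem_filter.mp hF).1) (ha F' (mem_filter.mp hF').1))
  have b2 : (∑ F ∈ HF H u, a F) *
      ((1 / N) * (1 - (bd H u : ℝ) / N) - (K ^ 2 + K ^ 3) * (1 / N) ^ 2) ≤
      ev w (fun B => ∑ F ∈ HF H u, a F * ((1 - F_cv u B) * ins {F} B)) := by
    rw [ev_sum, sum_mul]
    refine sum_le_sum fun F hF => ?_
    rw [ev_smul]
    exact mul_le_mul_of_nonneg_left (F_lo hB hw hN u F hF) (ha F (mem_filter.mp hF).1)
  have b3 : 2 * c * ((∑ F ∈ HF H u, a F) *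
      ((1 / N) * (1 - (bd H u : ℝ) / N) - (K ^ 2 + K ^ 3) * (1 / N) ^ 2)) ≤
      2 * c * ev w (fun B => ∑ F ∈ HF H u, a F * ((1 - F_cv u B) * ins {F} B)) :=
    mul_le_mul_of_nonneg_left b2 (by linarith)
  have b4 : c ^ 2 * ev w (fun B => 1 - F_cv u B) ≤
      c ^ 2 * (1 - (bd H u : ℝ) / N + K ^ 2 / N) := by
    refine mul_le_mul_of_nonneg_left ?_ (sq_nonneg c)
    rw [hconst]
    linarith
  linarith

/-- the mean of `J` on the event that `u` is covered -/
private lemma F_covJ (hw : QLaw K N H w) (hN : 0 < N) (u : V)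
    (a : Finset V → ℝ) (ha : ∀ F ∈ H, 0 ≤ a F) :
    ev w (fun B => F_cv u B * Ja a B) ≤
      ∑ G ∈ HG H u, a G * ev w (ins {G}) +
        bd H u * ((∑ F ∈ HF H u, a F) * ((1 / N) ^ 2 + (K / N) ^ 3)) := by
  classical
  have h1 : ev w (fun B => F_cv u B * Ja a B) =
      ev w (fun B => (∑ G ∈ HG H u, a G * ins {G} B) +
        ∑ G ∈ HG H u, ∑ F ∈ HF H u, a F * ins (insert G {F}) B) := by
    unfold LawB.ev
    refine sum_congr rfl fun B _ => ?_
    by_cases hB : w B = 0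
    · rw [hB, zero_mul, zero_mul]
    · obtain ⟨hBH, hPD⟩ := hw.supp B hB
      congr 1
      beta_reduce
      rw [F_Ja u a hBH, mul_add]
      congr 1
      · have h2 := F_frS1 (H := H) u a B
        have h3 : F_cv u B * F_S1 H u a B = F_S1 H u a B := by linarith
        rw [h3]
        rfl
      · rw [F_cv_eq u hBH hPD, sum_mul]
        refine sum_congr rfl fun G _ => ?_
        unfold F_S2
        rw [mul_sum]
        refine sum_congr rfl fun F _ => ?_
        rw [F_ins_insert]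
        ring
  rw [h1, ev_add, ev_sum, ev_sum]
  have h2 : ∀ G ∈ HG H u, ev w (fun B => ∑ F ∈ HF H u, a F * ins (insert G {F}) B) ≤
      (∑ F ∈ HF H u, a F) * ((1 / N) ^ 2 + (K / N) ^ 3) := by
    intro G hG
    rw [ev_sum, sum_mul]
    refine sum_le_sum fun F hF => ?_
    rw [ev_smul]
    refine mul_le_mul_of_nonneg_left ?_ (ha F (mem_filter.mp hF).1)
    have h3 := F_le hw hN (insert G {F}) (by
      intro x hx
      rw [mem_insert, mem_singleton] at hx
      rcases hx with rfl | rfl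
      · exact (mem_filter.mp hG).1
      · exact (mem_filter.mp hF).1)
    have h4 : (insert G {F} : Finset (Finset V)).card = 2 := by
      apply card_pair
      rintro rfl
      exact (mem_filter.mp hF).2 (mem_filter.mp hG).2
    rw [h4] at h3
    exact h3
  have h3 := sum_le_sum h2
  rw [sum_const, nsmul_eq_mul] at h3
  have h4 : ∑ G ∈ HG H u, ev w (fun B => a G * ins {G} B) =
      ∑ G ∈ HG H u, a G * ev w (ins {G}) := sum_congr rfl fun G _ => ev_smul _ _ _
  rw [h4]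
  exact add_le_add_right h3 _

/-! ### pathwise estimates -/

private lemma F_path_free {s c x x' t err z : ℝ} (hs : s = 6.13) (hc : c = 1 + z)
    (hz : |z| ≤ 0.01) (hx : x' ≤ x) (ht : t = (x' - s) ^ 2) (herr : 0 ≤ err) :
    c - t / 20.48 - err / 2 ≤ Psi 0 err z x := by
  have hz' := abs_le.mp hz
  have h1 : 0 < 4 * (s - c) := by rw [hs, hc]; linarith
  have h2 : c - t / 20.48 ≤ c - t / (4 * (s - c)) := by
    have h3 : t / (4 * (s - c)) ≤ t / 20.48 := by
      apply div_le_div_of_nonneg_left (by rw [ht]; positivity) (by norm_num)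
      rw [hs, hc]
      linarith
    linarith
  have key : ∀ y : ℝ, (c - y) * (4 * (s - c)) ≤ t → c - t / (4 * (s - c)) ≤ y := by
    intro y hy
    have : c - y ≤ t / (4 * (s - c)) := by
      rw [le_div_iff₀ h1]
      exact hy
    linarith
  have k1 := key x' (by
    rw [ht]
    nlinarith [sq_nonneg (x' + s - 2 * c)])
  have k2 := key (x' / 2) (by
    rw [ht]
    have h4 : 0 ≤ (s - 2 * c) ^ 2 - c ^ 2 := by
      rw [hs, hc]
      nlinarith
    nlinarith [sq_nonneg (x' - c)])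
  have k3 : t / 20.48 ≥ 0 := by rw [ht]; positivity
  unfold Psi
  refine le_min (by linarith) (le_min (by linarith) (by rw [← hc]; linarith))

private lemma F_path_cov {X W err z : ℝ} (hW : 0 ≤ W) (hz : |z| ≤ 0.01) (hX : X ≤ 0.9)
    (h : X + err ≤ W) : X - W / 2 ≤ Psi 0 err z X := by
  have hz' := abs_le.mp hz
  unfold Psi
  exact le_min (by linarith) (le_min (by linarith) (by linarith))

private lemma F_err {n M y J S0 : ℝ} (hn : 60 * (|S0| + 2) ≤ n) (hM : 0.3 * n ≤ M)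
    (hy0 : 0 ≤ y) (hy : y ≤ J) (hyS : y ≤ S0 * n) :
    2 * (1 + y) / M + max 0 (1 + y - 0.45 * M) ≤ J + 7 / n := by
  have hS := abs_nonneg S0
  have hS' := le_abs_self S0
  have hn0 : 0 < n := by linarith
  have hM0 : 36 ≤ M := by linarith
  have hMp : 0 < M := by linarith
  have h1 : 2 / M ≤ 7 / n := by
    rw [div_le_div_iff₀ hMp hn0]
    linarith
  have h2 : 2 * (1 + y) / M = 2 / M + y * (2 / M) := by ring
  have h3 : y * (2 / M) ≤ y * 1 :=
    mul_le_mul_of_nonneg_left (by rw [div_le_one hMp]; linarith) hy0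
  rcases le_total (1 + y - 0.45 * M) 0 with h | h
  · rw [max_eq_left h, h2]
    linarith
  · rw [max_eq_right h]
    have h7 : 0 ≤ 7 / n := by positivity
    have h8 : 2 * (1 + y) / M ≤ 0.45 * M - 1 := by
      rw [div_le_iff₀ hMp]
      have h9 : 2 * (1 + y) ≤ 2 * (1 + |S0| * n) := by
        have : S0 * n ≤ |S0| * n := mul_le_mul_of_nonneg_right hS' hn0.le
        linarith
      have h10 : 8.1 * (|S0| + 2) - 1 ≤ 0.45 * M - 1 := by linarith
      have h11 : (8.1 * (|S0| + 2) - 1) * M ≤ (0.45 * M - 1) * M :=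
        mul_le_mul_of_nonneg_right h10 hMp.le
      have h12 : (8.1 * (|S0| + 2) - 1) * (0.3 * n) ≤ (8.1 * (|S0| + 2) - 1) * M :=
        mul_le_mul_of_nonneg_left hM (by linarith)
      nlinarith
    linarith

private lemma F_err' {n M y J : ℝ} (hn : 0 < n) (hM : 0.3 * n ≤ M) (hy0 : 0 ≤ y) (hy : y ≤ J) :
    (2 * y / M + max 0 (y - 0.45 * M)) / 2 ≤ J * (10 / (3 * n)) + J ^ 2 / (1.08 * n) := by
  have hMp : 0 < M := by linarith
  have hJ : 0 ≤ J := hy0.trans hy
  have h1 : 2 * y / M ≤ 2 * J / (0.3 * n) := by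
    apply div_le_div₀ (by linarith) (by linarith) (by linarith) hM
  have h2 : 2 * J / (0.3 * n) = 2 * (J * (10 / (3 * n))) := by
    field_simp
    norm_num
    ring
  have h3 : max 0 (y - 0.45 * M) ≤ J ^ 2 / (0.54 * n) := by
    refine max_le (by positivity) ?_
    have h4 : y - 0.45 * M ≤ y ^ 2 / (1.8 * M) := by
      rw [le_div_iff₀ (by linarith)]
      nlinarith [sq_nonneg (y - 0.9 * M)]
    refine h4.trans (div_le_div₀ (by positivity) ?_ (by linarith) (by linarith))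
    exact pow_le_pow_left₀ hy0 hy 2
  have h5 : J ^ 2 / (0.54 * n) = 2 * (J ^ 2 / (1.08 * n)) := by
    field_simp
    norm_num
    ring
  linarith

end prob

private lemma F_num {P EZ E2 E1 E2' EJ b ν m sf sg Sx T Q K k e : ℝ}
    (hK : 0 ≤ K) (hk : 0 ≤ k) (hν : 0 < ν) (hν1 : ν ≤ 1)
    (hP1 : P ≤ b + e) (hP2 : P ≤ b + K ^ 2 * ν) (hP3 : b - K ^ 2 * ν ≤ P)
    (hEZ : -e ≤ EZ)
    (hE2 : E2 ≤ Q * (ν * (1 - b) + (k + K ^ 2 + K ^ 3) * ν ^ 2) +
      T ^ 2 * (ν ^ 2 * (1 - b) + (2 * k + K ^ 3 + K ^ 4) * ν ^ 3) -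
      2 * sf * (T * (ν * (1 - b) - (K ^ 2 + K ^ 3) * ν ^ 2)) + sf ^ 2 * (1 - b + K ^ 2 * ν))
    (hE1 : E1 ≤ T * (ν * (1 - b) + (k + K ^ 2 + K ^ 3) * ν ^ 2))
    (hE2' : E2' ≤ Q * (ν * (1 - b) + (k + K ^ 2 + K ^ 3) * ν ^ 2) +
      T ^ 2 * (ν ^ 2 * (1 - b) + (2 * k + K ^ 3 + K ^ 4) * ν ^ 3))
    (hEJ : EJ ≤ sg + e + b * (T * ν + T * K ^ 3 * ν ^ 2))
    (hT : T * ν = sf) (hQ1 : Q * ν ≤ 2 * k * sf) (hQ2 : Q * ν ≤ 4.9 * m) (hQ0 : 0 ≤ Q)
    (hsf0 : 0 ≤ sf) (hsf : sf ≤ m) (hm : m ≤ 0.3) (hsg0 : 0 ≤ sg) (hsg : sg ≤ m)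
    (hSx : Sx = 2 * sg + m + sf) (hb : 0.43 ≤ b) (hb' : b ≤ 1 / 2)
    (hC : ((( (k + K ^ 2 + K ^ 3) * (2 * k) + (2 * k + K ^ 3 + K ^ 4) + 2 * (K ^ 2 + K ^ 3) +
      K ^ 2) / 20.48 + (10 / 3) * (1 + (k + K ^ 2 + K ^ 3)) +
      (2 * k * (1 + (k + K ^ 2 + K ^ 3)) + 1 + (2 * k + K ^ 3 + K ^ 4)) / 1.08) +
      (4 * K ^ 2 + K ^ 3 + K ^ 2 / 3 + 17.5)) * ν ≤ 0.005) :
    1 - 2 * b - 4 * e + 0.004 * m ≤ (1 - P) + EZ - E2 / 20.48 - (10 / 3 * ν) * E1 - (ν / 1.08) * E2' +
      (-1 + Sx - (2 / 3 * m + 35 * m * ν) / 2) * P - EJ := by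
  set C1 := k + K ^ 2 + K ^ 3 with hC1
  set C2 := 2 * k + K ^ 3 + K ^ 4 with hC2
  set C3 := K ^ 2 + K ^ 3 with hC3
  have h1 : 0 ≤ C1 := by positivity
  have h2 : 0 ≤ C2 := by positivity
  have h3 : 0 ≤ C3 := by positivity
  have hm0 : 0 ≤ m := hsf0.trans hsf
  have hq0 : 0 ≤ Q * ν := by positivity
  have hb1 : 0 ≤ 1 - b := by linarith
  have hsf1 : sf ^ 2 ≤ sf := by
    rw [sq]
    calc sf * sf ≤ sf * 1 := mul_le_mul_of_nonneg_left (by linarith) hsf0
      _ = sf := mul_one _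
  -- (a)
  have a1 : E1 ≤ sf * (1 + C1) := by
    have e1 : T * (ν * (1 - b) + C1 * ν ^ 2) = sf * (1 - b) + C1 * sf * ν := by
      rw [← hT]; ring
    rw [e1] at hE1
    have e2 : C1 * sf * ν ≤ C1 * sf * 1 := mul_le_mul_of_nonneg_left hν1 (by positivity)
    have e3 : 0 ≤ sf * b := mul_nonneg hsf0 (by linarith)
    linarith
  -- (b)
  have eqb : Q * (ν * (1 - b) + C1 * ν ^ 2) + T ^ 2 * (ν ^ 2 * (1 - b) + C2 * ν ^ 3) =
      Q * ν * (1 - b) + C1 * (Q * ν) * ν + sf ^ 2 * (1 - b) + C2 * sf ^ 2 * ν := by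
    rw [← hT]; ring
  have b1 : C1 * (Q * ν) * ν ≤ C1 * (2 * k * sf) * ν :=
    mul_le_mul_of_nonneg_right (mul_le_mul_of_nonneg_left hQ1 h1) hν.le
  have b2 : C2 * sf ^ 2 * ν ≤ C2 * sf * ν :=
    mul_le_mul_of_nonneg_right (mul_le_mul_of_nonneg_left hsf1 h2) hν.le
  have b3 : E2' ≤ (2 * k * (1 + C1) + 1 + C2) * sf := by
    rw [eqb] at hE2'
    have e1 : Q * ν * (1 - b) ≤ 2 * k * sf * 1 :=
      mul_le_mul hQ1 (by linarith) hb1 (by positivity)
    have e2 : sf ^ 2 * (1 - b) ≤ sf * 1 := mul_le_mul hsf1 (by linarith) hb1 hsf0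
    have e3 : C1 * (2 * k * sf) * ν ≤ C1 * (2 * k * sf) * 1 :=
      mul_le_mul_of_nonneg_left hν1 (by positivity)
    have e4 : C2 * sf * ν ≤ C2 * sf * 1 := mul_le_mul_of_nonneg_left hν1 (by positivity)
    linarith
  -- (c)
  have c1 : E2 ≤ 2.793 * m + (C1 * (2 * k) + C2 + 2 * C3 + K ^ 2) * sf * ν := by
    rw [eqb] at hE2
    have e1 : 2 * sf * (T * (ν * (1 - b) - C3 * ν ^ 2)) =
        2 * sf ^ 2 * (1 - b) - 2 * C3 * sf ^ 2 * ν := by
      rw [← hT]; ring
    rw [e1] at hE2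
    have e2 : C3 * sf ^ 2 * ν ≤ C3 * sf * ν :=
      mul_le_mul_of_nonneg_right (mul_le_mul_of_nonneg_left hsf1 h3) hν.le
    have e3 : K ^ 2 * sf ^ 2 * ν ≤ K ^ 2 * sf * ν :=
      mul_le_mul_of_nonneg_right (mul_le_mul_of_nonneg_left hsf1 (by positivity)) hν.le
    have e4 : Q * ν * (1 - b) ≤ 4.9 * m * 0.57 :=
      mul_le_mul hQ2 (by linarith) hb1 (by positivity)
    linarith
  -- (d)
  have d1 : EJ ≤ sg + e + b * sf + K ^ 3 * sf * ν := by
    have e1 : b * (T * ν + T * K ^ 3 * ν ^ 2) = b * sf + b * (K ^ 3 * sf * ν) := by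
      rw [← hT]; ring
    rw [e1] at hEJ
    have e2 : b * (K ^ 3 * sf * ν) ≤ 1 * (K ^ 3 * sf * ν) :=
      mul_le_mul_of_nonneg_right (by linarith) (by positivity)
    linarith
  -- (e)
  have s1 : sf * ν ≤ m * ν := mul_le_mul_of_nonneg_right hsf hν.le
  have f1 : (10 / 3 * ν) * E1 ≤ (10 / 3) * (1 + C1) * (m * ν) := by
    calc (10 / 3 * ν) * E1 ≤ (10 / 3 * ν) * (sf * (1 + C1)) :=
          mul_le_mul_of_nonneg_left a1 (by positivity)
      _ = (10 / 3) * (1 + C1) * (sf * ν) := by ring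
      _ ≤ _ := mul_le_mul_of_nonneg_left s1 (by positivity)
  have f2 : (ν / 1.08) * E2' ≤ (2 * k * (1 + C1) + 1 + C2) / 1.08 * (m * ν) := by
    calc (ν / 1.08) * E2' ≤ (ν / 1.08) * ((2 * k * (1 + C1) + 1 + C2) * sf) :=
          mul_le_mul_of_nonneg_left b3 (by positivity)
      _ = (2 * k * (1 + C1) + 1 + C2) / 1.08 * (sf * ν) := by ring
      _ ≤ _ := mul_le_mul_of_nonneg_left s1 (by positivity)
  have f3 : E2 / 20.48 ≤ 0.13638 * m +
      (C1 * (2 * k) + C2 + 2 * C3 + K ^ 2) / 20.48 * (m * ν) := by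
    have e1 : (C1 * (2 * k) + C2 + 2 * C3 + K ^ 2) / 20.48 * (sf * ν) ≤
        (C1 * (2 * k) + C2 + 2 * C3 + K ^ 2) / 20.48 * (m * ν) :=
      mul_le_mul_of_nonneg_left s1 (by positivity)
    have e2 : E2 / 20.48 ≤ (2.793 * m + (C1 * (2 * k) + C2 + 2 * C3 + K ^ 2) * sf * ν) / 20.48 :=
      div_le_div_of_nonneg_right c1 (by norm_num)
    have e3 : (2.793 * m + (C1 * (2 * k) + C2 + 2 * C3 + K ^ 2) * sf * ν) / 20.48 =
        2.793 / 20.48 * m + (C1 * (2 * k) + C2 + 2 * C3 + K ^ 2) / 20.48 * (sf * ν) := by ring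
    have e4 : 2.793 / 20.48 * m ≤ 0.13638 * m :=
      mul_le_mul_of_nonneg_right (by norm_num) hm0
    linarith
  have f4 : K ^ 3 * sf * ν ≤ K ^ 3 * (m * ν) := by
    have : K ^ 3 * sf * ν = K ^ 3 * (sf * ν) := by ring
    rw [this]
    exact mul_le_mul_of_nonneg_left s1 (by positivity)
  have hSx0 : 0 ≤ Sx := by linarith
  have hSx4 : Sx ≤ 4 * m := by linarith
  have hP0 : P ≤ 1 ∨ 1 < P := le_or_gt P 1
  have f5 : Sx * b - 4 * K ^ 2 * (m * ν) ≤ Sx * P := by
    have e1 : Sx * (b - K ^ 2 * ν) ≤ Sx * P := mul_le_mul_of_nonneg_left hP3 hSx0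
    have e2 : Sx * (K ^ 2 * ν) ≤ 4 * m * (K ^ 2 * ν) :=
      mul_le_mul_of_nonneg_right hSx4 (by positivity)
    linarith
  have f6 : m / 3 * P ≤ m / 3 * b + K ^ 2 / 3 * (m * ν) := by
    have e1 : m / 3 * P ≤ m / 3 * (b + K ^ 2 * ν) :=
      mul_le_mul_of_nonneg_left hP2 (by positivity)
    linarith
  have hP1' : P ≤ 1 → 17.5 * m * ν * P ≤ 17.5 * (m * ν) := by
    intro h
    have e1 : 17.5 * m * ν * P ≤ 17.5 * m * ν * 1 := mul_le_mul_of_nonneg_left h (by positivity)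
    linarith
  have hPle : P ≤ 1 := by
    -- from the bound on `ν`
    have e1 : K ^ 2 * ν ≤ 0.01 := by
      have e2 : (4 * K ^ 2 + K ^ 3 + K ^ 2 / 3 + 17.5) * ν ≤ 0.005 := by
        refine le_trans ?_ hC
        refine mul_le_mul_of_nonneg_right ?_ hν.le
        have : 0 ≤ (C1 * (2 * k) + C2 + 2 * C3 + K ^ 2) / 20.48 + (10 / 3) * (1 + C1) +
          (2 * k * (1 + C1) + 1 + C2) / 1.08 := by positivity
        linarith
      have e3 : K ^ 2 * ν ≤ (4 * K ^ 2 + K ^ 3 + K ^ 2 / 3 + 17.5) * ν := by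
        refine mul_le_mul_of_nonneg_right ?_ hν.le
        have : 0 ≤ 3 * K ^ 2 + K ^ 3 + K ^ 2 / 3 + 17.5 := by positivity
        linarith
      linarith
    linarith
  have f7 := hP1' hPle
  have f8 : (((C1 * (2 * k) + C2 + 2 * C3 + K ^ 2) / 20.48 + (10 / 3) * (1 + C1) +
      (2 * k * (1 + C1) + 1 + C2) / 1.08) + (4 * K ^ 2 + K ^ 3 + K ^ 2 / 3 + 17.5)) * (m * ν) ≤
      0.005 * m := by
    have e1 := mul_le_mul_of_nonneg_left hC hm0
    linarith
  have g1 : 0.1466 * m ≤ (8 / 3 * b - 1) * m :=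
    mul_le_mul_of_nonneg_right (by linarith) hm0
  have g2 : (1 - 2 * b) * sg ≤ (1 - 2 * b) * m :=
    mul_le_mul_of_nonneg_left hsg (by linarith)
  have g3 : Sx * b = 2 * b * sg + b * m + b * sf := by rw [hSx]; ring
  have g4 : (-1 + Sx - (2 / 3 * m + 35 * m * ν) / 2) * P =
      -P + Sx * P - m / 3 * P - 17.5 * m * ν * P := by ring
  rw [g4]
  linarith

private lemma F_lin {V : Type} [Fintype V] [DecidableEq V] (w : Finset (Finset V) → ℝ)
    (f0 f1 f2 f3 f4 f5 f6 : Finset (Finset V) → ℝ) (c2 c3 c4 c5 : ℝ) :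
    ev w (fun B => ((((f0 B + f1 B) - c2 * f2 B) - c3 * f3 B) - c4 * f4 B) +
      (c5 * f5 B - f6 B)) =
    ((((ev w f0 + ev w f1) - c2 * ev w f2) - c3 * ev w f3) - c4 * ev w f4) +
      (c5 * ev w f5 - ev w f6) := by
  rw [ev_add, ev_sub, ev_sub, ev_sub, ev_add, ev_sub, ev_smul, ev_smul, ev_smul, ev_smul]

private lemma F_core {V : Type} [Fintype V] [DecidableEq V] {K : ℝ} {k N : ℕ}
    {H : Finset (Finset V)} {w : Finset (Finset V) → ℝ} (hB : Big k N H) (hw : QLaw K N H w)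
    (hN : 0 < N) (u : V) (a : Finset V → ℝ) (ha : ∀ F, 0 ≤ a F) (haA : ∀ F ∈ H, a F ≤ 2 * k)
    (P Z : Finset (Finset V) → ℝ) (m sf sg Sx e : ℝ)
    (hsf : sf = (∑ F ∈ HF H u, a F) / N) (hsg : 0 ≤ sg)
    (hPc : ev w (F_cv u) ≤ (bd H u : ℝ) / N + e)
    (hGe : ∑ G ∈ HG H u, a G * ev w (ins {G}) ≤ sg + e)
    (hZe : -e ≤ ev w (fun B => (1 - F_cv u B) * Z B))
    (hQ2 : (∑ F ∈ HF H u, a F ^ 2) / N ≤ 4.9 * m)
    (hsfm : sf ≤ m) (hm : m ≤ 0.3) (hsgm : sg ≤ m) (hSx : Sx = 2 * sg + m + sf)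
    (hb : 0.43 ≤ (bd H u : ℝ) / N)
    (hfree : ∀ B, B ⊆ H → PD B → u ∉ LawB.cov B → 1 + Z B - (F_S2 H u a B - sf) ^ 2 / 20.48 -
      (F_S2 H u a B * (10 / (3 * N)) + F_S2 H u a B ^ 2 / (1.08 * N)) ≤ P B)
    (hcov : ∀ B, B ⊆ H → PD B → u ∈ LawB.cov B →
      -1 + Sx - Ja a B - (2 / 3 * m + 35 * m * (1 / N)) / 2 ≤ P B)
    (hC : ((( (k + K ^ 2 + K ^ 3) * (2 * k) + (2 * k + K ^ 3 + K ^ 4) + 2 * (K ^ 2 + K ^ 3) +
      K ^ 2) / 20.48 + (10 / 3) * (1 + (k + K ^ 2 + K ^ 3)) +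
      (2 * k * (1 + (k + K ^ 2 + K ^ 3)) + 1 + (2 * k + K ^ 3 + K ^ 4)) / 1.08) +
      (4 * K ^ 2 + K ^ 3 + K ^ 2 / 3 + 17.5)) * (1 / N) ≤ 0.005) :
    1 - 2 * ((bd H u : ℝ) / N) - 4 * e + 0.004 * m ≤ ev w P := by
  have hK := F_K hw hN
  have hn : (0 : ℝ) < N := by exact_mod_cast hN
  have hn1 : (1 : ℝ) ≤ N := by exact_mod_cast hN
  set ν : ℝ := 1 / N with hν
  have hν0 : 0 < ν := by positivity
  have hν1 : ν ≤ 1 := by
    rw [hν, div_le_one hn]
    exact hn1
  set b : ℝ := (bd H u : ℝ) / N with hbdef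
  set T : ℝ := ∑ F ∈ HF H u, a F with hT
  set Q : ℝ := ∑ F ∈ HF H u, a F ^ 2 with hQ
  have hT0 : 0 ≤ T := sum_nonneg fun F _ => ha F
  have hQ0 : 0 ≤ Q := sum_nonneg fun F _ => sq_nonneg _
  have hTν : T * ν = sf := by rw [hsf, hν]; ring
  have hQT : Q ≤ 2 * k * T := by
    rw [hQ, hT, mul_sum]
    refine sum_le_sum fun F hF => ?_
    rw [sq]
    exact mul_le_mul_of_nonneg_right (haA F (mem_filter.mp hF).1) (ha F)
  have hE2 := F_second hB hw hN u a (fun F _ => ha F) sf (by rw [hsf]; positivity)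
  have hE2' := F_second hB hw hN u a (fun F _ => ha F) 0 le_rfl
  have hE1 := F_first hB hw hN u a (fun F _ => ha F)
  have hEJ := F_covJ hw hN u a (fun F _ => ha F)
  have hPb := abs_le.mp (F_cov hB hw hN u)
  have hU1 : F_U k K N 1 b = ν * (1 - b) + (k + K ^ 2 + K ^ 3) * ν ^ 2 := by
    unfold F_U
    rw [Nat.cast_one]
    ring
  have hU2 : F_U k K N 2 b = ν ^ 2 * (1 - b) + (2 * k + K ^ 3 + K ^ 4) * ν ^ 3 := by
    unfold F_U
    rw [Nat.cast_two]
  rw [hU1, hU2] at hE2 hE2'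
  rw [hU1] at hE1
  have hbk : K ^ 2 / N = K ^ 2 * ν := by rw [hν]; ring
  rw [hbk] at hPb hE2
  -- the lower bound for `P`
  have hlow : ev w (fun B => ((((1 - F_cv u B) + (1 - F_cv u B) * Z B) -
      (1 / 20.48) * ((1 - F_cv u B) * (F_S2 H u a B - sf) ^ 2)) -
      (10 / 3 * ν) * ((1 - F_cv u B) * F_S2 H u a B) -
      (ν / 1.08) * ((1 - F_cv u B) * (F_S2 H u a B - 0) ^ 2)) +
      ((-1 + Sx - (2 / 3 * m + 35 * m * ν) / 2) * F_cv u B - F_cv u B * Ja a B)) ≤ ev w P := by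
    refine hw.mono' fun B hBH hPD => ?_
    by_cases hu : u ∈ LawB.cov B
    · have h1 : F_cv u B = 1 := if_pos hu
      have h2 := hcov B hBH hPD hu
      rw [h1]
      refine le_trans (le_of_eq ?_) h2
      ring
    · have h1 : F_cv u B = 0 := if_neg hu
      have h2 := hfree B hBH hPD hu
      rw [h1]
      have h3 : F_S2 H u a B * (10 / (3 * N)) = 10 / 3 * ν * F_S2 H u a B := by
        rw [hν]
        field_simp
      have h4 : F_S2 H u a B ^ 2 / (1.08 * N) = ν / 1.08 * F_S2 H u a B ^ 2 := by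
        rw [hν]
        field_simp
      rw [h3, h4] at h2
      refine le_trans (le_of_eq ?_) h2
      ring
  refine le_trans ?_ hlow
  have hdec := F_lin w (fun B => 1 - F_cv u B) (fun B => (1 - F_cv u B) * Z B)
    (fun B => (1 - F_cv u B) * (F_S2 H u a B - sf) ^ 2)
    (fun B => (1 - F_cv u B) * F_S2 H u a B)
    (fun B => (1 - F_cv u B) * (F_S2 H u a B - 0) ^ 2) (F_cv u)
    (fun B => F_cv u B * Ja a B) (1 / 20.48) (10 / 3 * ν) (ν / 1.08)
    (-1 + Sx - (2 / 3 * m + 35 * m * ν) / 2)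
  have hconst : ev w (fun B => 1 - F_cv u B) = 1 - ev w (F_cv u) := by
    have := ev_sub w (fun _ => (1 : ℝ)) (F_cv u)
    rw [hw.const'] at this
    exact this
  rw [hconst] at hdec
  refine le_trans ?_ (le_of_eq hdec.symm)
  have hbn : (bd H u : ℝ) = b * N := by
    rw [hbdef]
    field_simp
  have h1 := F_num (P := ev w (F_cv u)) (EZ := ev w (fun B => (1 - F_cv u B) * Z B))
    (E2 := ev w (fun B => (1 - F_cv u B) * (F_S2 H u a B - sf) ^ 2))
    (E1 := ev w (fun B => (1 - F_cv u B) * F_S2 H u a B))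
    (E2' := ev w (fun B => (1 - F_cv u B) * (F_S2 H u a B - 0) ^ 2))
    (EJ := ev w (fun B => F_cv u B * Ja a B)) (b := b) (ν := ν) (m := m) (sf := sf) (sg := sg)
    (Sx := Sx) (T := T) (Q := Q) (K := K) (k := k) (e := e) hK (Nat.cast_nonneg k) hν0 hν1 hPc
    (by linarith) (by linarith) hZe hE2 hE1 (by
      have := hE2'
      simpa using this) (by
      have h2 : (bd H u : ℝ) * (T * ((1 / N) ^ 2 + (K / N) ^ 3)) =
          b * (T * ν + T * K ^ 3 * ν ^ 2) := by
        rw [hbn, hν]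
        field_simp
      rw [h2] at hEJ
      linarith) hTν (by
      have h2 : Q * ν ≤ 2 * k * T * ν := mul_le_mul_of_nonneg_right hQT hν0.le
      rw [← hTν]
      linarith) (by
      have h2 : Q * ν = Q / N := by rw [hν]; ring
      rw [h2]
      exact hQ2) hQ0 (by rw [hsf]; positivity) hsfm hm hsg hsgm hSx hb (F_beta hB hN u).1 hC
  have h3 : ∀ x : ℝ, 1 / 20.48 * x = x / 20.48 := fun x => by ring
  rw [h3]
  linarith

/-- **F** -/
theorem thm_F (h45 : St45a) : StF := by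
  classical
  intro k K S0
  by_cases hK : 0 ≤ K
  swap
  · refine ⟨1, fun V _ _ N H w u R xx M e Z hN _ hw => ?_⟩
    exact absurd (F_K hw (by omega)) hK
  obtain ⟨N1, h45'⟩ := h45 k S0
  set C1 : ℝ := k + K ^ 2 + K ^ 3 with hC1
  set C2 : ℝ := 2 * k + K ^ 3 + K ^ 4 with hC2
  set A0 : ℝ := 2 * k with hA0
  set C4 : ℝ := C1 * A0 + C2 + 2 * (K ^ 2 + K ^ 3) + K ^ 2 with hC4
  set C5 : ℝ := C4 / 20.48 + (10 / 3) * (1 + C1) + (A0 * (1 + C1) + 1 + C2) / 1.08 with hC5
  set C6 : ℝ := 4 * K ^ 2 + K ^ 3 + K ^ 2 / 3 + 17.5 with hC6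
  have hk0 : (0 : ℝ) ≤ k := Nat.cast_nonneg k
  have hC1' : 0 ≤ C1 := by positivity
  have hC2' : 0 ≤ C2 := by positivity
  have hA0' : 0 ≤ A0 := by positivity
  have hC4' : 0 ≤ C4 := by positivity
  have hC5' : 0 ≤ C5 := by positivity
  have hC6' : 0 ≤ C6 := by positivity
  refine ⟨max N1 (max ⌈60 * (|S0| + 2)⌉₊ ⌈200 * (C5 + C6)⌉₊), ?_⟩
  intro V _ _ N H w u R xx M e Z hN hB hw huR hu hR hld hm2 hSgm hxx hM1 hM2 he hZ hPc hGe hZe
  have hN1 : N1 ≤ N := (le_max_left _ _).trans hN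
  have hN2 : 60 * (|S0| + 2) ≤ (N : ℝ) :=
    (Nat.le_ceil _).trans (Nat.cast_le.2 ((le_max_left _ _).trans ((le_max_right _ _).trans hN)))
  have hN3 : 200 * (C5 + C6) ≤ (N : ℝ) :=
    (Nat.le_ceil _).trans (Nat.cast_le.2 ((le_max_right _ _).trans ((le_max_right _ _).trans hN)))
  set n : ℝ := (N : ℝ) with hn
  have hS0 := abs_nonneg S0
  have hn120 : 120 ≤ n := by linarith
  have hn0 : 0 < n := by linarith
  have hNpos : 0 < N := by
    have : (0 : ℝ) < (N : ℝ) := hn0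
    exact_mod_cast this
  -- no marks
  have hmk : ∀ z, mk H (∅ : Finset (Finset V)) z = 0 := by
    intro z
    unfold mk
    split_ifs <;> simp
  let sp : V → Finset V := fun z => if bd H z ≤ 2 ∧ ∃ G ∈ H, u ∈ G ∧ z ∈ G then {u} else ∅
  have hspe : ∀ z, bd H z ≤ 2 ∧ (∃ G ∈ H, u ∈ G ∧ z ∈ G) → sp z = {u} := fun z h => if_pos h
  have hspn : ∀ z, ¬ (bd H z ≤ 2 ∧ ∃ G ∈ H, u ∈ G ∧ z ∈ G) → sp z = ∅ := fun z h => if_neg h
  have hfun : (fun z => xc H N 2 z - 0.16 * (mk H (∅ : Finset (Finset V)) z : ℝ) / N) =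
      xc H N 2 := by
    funext z
    rw [hmk z, Nat.cast_zero, mul_zero, zero_div, sub_zero]
  have hD : D45 k N S0 H u R ∅ sp := by
    refine ⟨hB, huR, hu, hR, hld, empty_subset _, fun F hF => absurd hF (notMem_empty F), ?_, ?_,
      ?_, ?_, ?_⟩
    · intro z _ hz
      by_contra hcon
      rw [hspn z fun h => hcon h.1] at hz
      exact not_nonempty_empty hz
    · intro z _ hz
      by_contra hcon
      rw [hspn z fun h => hcon h.2] at hz
      exact notMem_empty _ hz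
    · intro z _
      rw [hmk z]
      by_cases h : bd H z ≤ 2 ∧ ∃ G ∈ H, u ∈ G ∧ z ∈ G
      · rw [hspe z h]
        simp
      · rw [hspn z h]
        simp
    · intro z _ hz _ G hG _ huG hzG _
      rw [hspe z ⟨hz, G, hG, huG, hzG⟩]
      exact mem_singleton_self u
    · rw [hfun]
      exact hm2
  obtain ⟨hx, hsum, -, hx4, hmm0, -, hSF0, -, hQ, -, -, -, -, -, -⟩ := h45' V N H u R ∅ sp hN1 hD
  have hsum' : ∑ z ∈ R, xu H N z = hh H ∅ N R u := by
    rw [← hsum]
    refine sum_congr rfl fun z _ => ?_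
    rw [hmk z, Nat.cast_zero, mul_zero, zero_div, sub_zero]
  -- `xc 2 = xu` on `R`
  have hxc : ∀ z ∈ R, xc H N 2 z = xu H N z := fun z hz => by
    unfold xc
    exact min_eq_left (by linarith [(hx z hz).2])
  have haw : aw R (xc H N 2) = ax H N R := by
    funext F
    unfold aw ax aw
    exact sum_congr rfl fun z hz => by rw [hxc z (mem_inter.mp hz).2]
  have hXv : ∀ B, Xv R (xc H N 2) B = Xv R (xu H N) B := by
    intro B
    unfold Xv
    exact sum_congr rfl fun z hz => by rw [hxc z hz]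
  rw [haw] at hm2 hSgm hGe ⊢
  simp only [hXv]
  set a : Finset V → ℝ := ax H N R with ha
  set Sx : ℝ := ∑ z ∈ R, xu H N z with hSx
  set T : ℝ := ∑ F ∈ HF H u, a F with hT
  set Q : ℝ := ∑ F ∈ HF H u, a F ^ 2 with hQdef
  have hSFe : SF H N R u = T / n := rfl
  have hSge : Sg H N R u = (∑ G ∈ HG H u, a G) / n := rfl
  set m : ℝ := m2 H N u R (xc H N 2) a with hm
  set b : ℝ := (bd H u : ℝ) / n with hb
  have hsumxc : ∑ z ∈ R, xc H N 2 z = Sx := sum_congr rfl hxc
  have hme : m = mm H ∅ N R u + x4 H N R u := by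
    have h1 : m = Sx - 2 * (∑ G ∈ HG H u, a G) / n - T / n := by
      rw [hm]
      unfold m2
      rw [hsumxc]
      rfl
    rw [h1, hsum']
    unfold hh mm
    rw [hSge, hSFe]
    ring
  -- `SF ≤ mm`
  have ha0 : ∀ F, 0 ≤ a F := by
    intro F
    rw [ha]
    unfold ax aw
    exact sum_nonneg fun z hz => by linarith [(hx z (mem_inter.mp hz).2).1]
  have haA : ∀ F ∈ H, a F ≤ A0 := by
    intro F hF
    rw [ha]
    unfold ax aw
    calc ∑ z ∈ F ∩ R, (1 + xu H N z) ≤ ∑ _z ∈ F ∩ R, (2 : ℝ) :=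
          sum_le_sum fun z hz => by linarith [(hx z (mem_inter.mp hz).2).2]
      _ = 2 * ((F ∩ R).card : ℝ) := by rw [sum_const, nsmul_eq_mul, mul_comm]
      _ ≤ 2 * (k : ℝ) := by
          have h1 : (F ∩ R).card ≤ k := (card_le_card inter_subset_left).trans (hB.card F hF)
          have h2 : ((F ∩ R).card : ℝ) ≤ k := by exact_mod_cast h1
          linarith
      _ = A0 := by rw [hA0]
  have hYF : SF H N R u ≤ mm H ∅ N R u := by
    have h1 : 2 * T ≤ ∑ F ∈ HF H u, a F * ((F.card : ℝ) - 1) := by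
      rw [hT, mul_sum]
      refine sum_le_sum fun F hF => ?_
      have h2 : (3 : ℝ) ≤ F.card := by exact_mod_cast hB.three F (mem_filter.mp hF).1
      have h3 := ha0 F
      nlinarith
    have h4 : YF H ∅ N R u = (∑ F ∈ HF H u, a F * ((F.card : ℝ) - 1)) / n := by
      unfold YF
      have h5 : ∑ z ∈ R, (mk H (∅ : Finset (Finset V)) z : ℝ) = 0 :=
        sum_eq_zero fun z _ => by rw [hmk z, Nat.cast_zero]
      rw [h5, mul_zero, zero_div, sub_zero]
    unfold mm
    rw [h4, hSFe]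
    have h6 : 2 * T / n ≤ (∑ F ∈ HF H u, a F * ((F.card : ℝ) - 1)) / n :=
      div_le_div_of_nonneg_right h1 hn0.le
    have h7 : 2 * T / n = T / n + T / n := by ring
    linarith
  set sf : ℝ := SF H N R u with hsf
  have hTe : T = n * sf := by
    rw [hSFe]
    field_simp
  have hT0 : 0 ≤ T := sum_nonneg fun F _ => ha0 F
  have hsfm : sf ≤ m := by linarith
  have hm0 : 0 ≤ m := by linarith
  set sg : ℝ := Sg H N R u with hsg
  have hsg0 : 0 ≤ sg := by
    rw [hSge]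
    exact div_nonneg (sum_nonneg fun G _ => ha0 G) hn0.le
  have hsgm : sg ≤ m := hSgm
  have hYF' : YF H ∅ N R u = sf + mm H ∅ N R u := by
    unfold mm
    ring
  have hSxe : Sx = 2 * sg + m + sf := by
    rw [hsum']
    unfold hh
    rw [hYF']
    linarith
  have hSx4 : Sx ≤ 4 * m := by linarith
  have hSx0 : 0 ≤ Sx := by linarith
  -- `b`
  have hb1 : b ≤ 1 / 2 := (F_beta hB hNpos u).1
  have hb0 : 0 ≤ b := (F_beta hB hNpos u).2
  have hb2 : 0.43 ≤ b := by
    rw [hb, le_div_iff₀ hn0]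
    have : (43 : ℝ) * N < 100 * bd H u := by exact_mod_cast hu
    linarith
  have hbn : (bd H u : ℝ) = b * n := by
    rw [hb]
    field_simp
  have hxx' : 6.13 ≤ xx := by
    have h1 : 2 * (bd H u : ℝ) + 1 ≤ n := by
      rw [hn]
      exact_mod_cast hB.two_bd_lt u
    have h2 : 0 < n - 2 * (bd H u : ℝ) := by linarith
    have h3 : (6.14 : ℝ) ≤ 2 * (bd H u : ℝ) / (n - 2 * bd H u) := by
      rw [le_div_iff₀ h2, hbn]
      nlinarith
    have h4 : (6.14 : ℝ) ≤ min (2 * (bd H u : ℝ) / (n - 2 * bd H u)) 20 :=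
      le_min h3 (by norm_num)
    linarith
  -- pathwise facts
  have hJ1 := thm_J1.2.2.2.2.2 V R (xu H N)
  have hXJ : ∀ B, PD B → Xv R (xu H N) B = Sx - Ja a B := fun B hPD => hJ1 B hPD
  have hy : ∀ B, B ⊆ H → PD B → ((R ∩ LawB.cov B).card : ℝ) ≤ Ja a B ∧
      ((R ∩ LawB.cov B).card : ℝ) ≤ S0 * n := by
    intro B hBH hPD
    constructor
    · have h1 : Ja a B = ∑ z ∈ R ∩ LawB.cov B, (1 + xu H N z) :=
        sum_cov B hPD R fun z => 1 + xu H N z
      rw [h1]
      calc ((R ∩ LawB.cov B).card : ℝ) = ∑ _z ∈ R ∩ LawB.cov B, (1 : ℝ) := by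
            rw [sum_const, nsmul_eq_mul, mul_one]
        _ ≤ _ := sum_le_sum fun z hz => by linarith [(hx z (mem_inter.mp hz).1).1]
    · have h1 : ((R ∩ LawB.cov B).card : ℝ) ≤ ∑ z ∈ R, (bd H z : ℝ) := by
        calc ((R ∩ LawB.cov B).card : ℝ) = ∑ _z ∈ R ∩ LawB.cov B, (1 : ℝ) := by
              rw [sum_const, nsmul_eq_mul, mul_one]
          _ ≤ ∑ z ∈ R ∩ LawB.cov B, (bd H z : ℝ) := by
              refine sum_le_sum fun z hz => ?_
              obtain ⟨F, hF, hzF⟩ : ∃ F ∈ B, z ∈ F := by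
                simpa [LawB.cov] using (mem_inter.mp hz).2
              have h2 : 0 < bd H z := card_pos.mpr ⟨F, mem_filter.mpr ⟨hBH hF, hzF⟩⟩
              exact_mod_cast h2
          _ ≤ ∑ z ∈ R, (bd H z : ℝ) :=
              sum_le_sum_of_subset_of_nonneg inter_subset_left fun z _ _ => Nat.cast_nonneg _
      have h2 : ∑ z ∈ R, (bd H z : ℝ) ≤ S0 * n := by
        have h3 : load H N R = (∑ z ∈ R, (bd H z : ℝ)) / n := by
          unfold load
          rw [sum_div]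
        rw [h3, div_le_iff₀ hn0] at hld
        exact hld
      exact h1.trans h2
  have hYfree : ∀ B, u ∉ LawB.cov B → Yv (insert u R) B = ((R ∩ LawB.cov B).card : ℝ) := by
    intro B hu
    unfold Yv
    rw [insert_inter_of_notMem hu]
  have hYcov : ∀ B, u ∈ LawB.cov B → Yv (insert u R) B = 1 + ((R ∩ LawB.cov B).card : ℝ) := by
    intro B hu
    unfold Yv
    rw [insert_inter_of_mem hu, card_insert_of_notMem (fun h => huR (mem_inter.mp h).1),
      Nat.cast_succ, add_comm]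
  -- assembly
  have hcvfun : (fun B => if u ∈ LawB.cov B then (1 : ℝ) else 0) = F_cv u := rfl
  have hfrfun : ∀ B, (if u ∈ LawB.cov B then (0 : ℝ) else Z B) = (1 - F_cv u B) * Z B := by
    intro B
    unfold F_cv
    split_ifs
    · rw [sub_self, zero_mul]
    · rw [sub_zero, one_mul]
  simp only [hfrfun] at hZe
  have hbe : 2 * (bd H u : ℝ) / n = 2 * ((bd H u : ℝ) / N) := by rw [← hn]; ring
  rw [hbe]
  refine F_core hB hw hNpos u a ha0 haA _ Z m sf sg Sx e hSFe hsg0 hPc ?_ hZe ?_ hsfm hm2.le hsgm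
    hSxe hb2 ?_ ?_ ?_
  · rw [hSge]
    exact hGe
  · exact hQ.trans (by linarith)
  · -- `u` is free
    intro B hBH hPD hu'
    obtain ⟨hy1, hy2⟩ := hy B hBH hPD
    have hS1 := F_frS1 (H := H) u a B
    have hcv0 : F_cv u B = 0 := if_neg hu'
    rw [hcv0, sub_zero, one_mul] at hS1
    have hJ : Ja a B = F_S2 H u a B := by rw [F_Ja u a hBH, hS1, zero_add]
    rw [hJ] at hy1
    rw [if_neg hu', hXJ B hPD, hJ]
    have hc0 : (0 : ℝ) ≤ ((R ∩ LawB.cov B).card : ℝ) := Nat.cast_nonneg _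
    have herr := F_err' (n := n) (M := M) hn0 hM1 hc0 hy1
    have herr0 : 0 ≤ errv M (insert u R) B := by
      unfold errv
      rw [hYfree B hu']
      have : 0 < M := by linarith
      have h1 : 0 ≤ 2 * ((R ∩ LawB.cov B).card : ℝ) / M :=
        div_nonneg (mul_nonneg (by norm_num) hc0) this.le
      have h2 := le_max_left 0 (((R ∩ LawB.cov B).card : ℝ) - 0.45 * M)
      linarith
    have h1 := F_path_free (s := 6.13) (c := 1 + Z B) (x := xx + (Sx - F_S2 H u a B))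
      (x' := 6.13 + sf - F_S2 H u a B) (t := (F_S2 H u a B - sf) ^ 2)
      (err := errv M (insert u R) B) (z := Z B) rfl rfl (hZ B) (by linarith) (by ring) herr0
    have h2 : errv M (insert u R) B / 2 ≤
        F_S2 H u a B * (10 / (3 * N)) + F_S2 H u a B ^ 2 / (1.08 * N) := by
      unfold errv
      rw [hYfree B hu']
      exact herr
    linarith
  · -- `u` is covered
    intro B hBH hPD hu'
    obtain ⟨hy1, hy2⟩ := hy B hBH hPD
    rw [if_pos hu', hXJ B hPD]
    have hc0 : (0 : ℝ) ≤ ((R ∩ LawB.cov B).card : ℝ) := Nat.cast_nonneg _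
    have herr := F_err (n := n) (M := M) hN2 hM1 hc0 hy1 hy2
    have hJ0 : 0 ≤ Ja a B := hc0.trans hy1
    have herr' : errv M (insert u R) B ≤ Ja a B + 7 / n := by
      unfold errv
      rw [hYcov B hu']
      exact herr
    have hν : 0 < 1 / n := by positivity
    have h7 : 7 / n = 7 * (1 / n) := by ring
    have hν35 : 35 * (1 / n) ≤ 1 := by
      rw [mul_one_div, div_le_one hn0]
      linarith
    have hW : -1 + 4 * m + 7 * (1 / n) ≤ 2 / 3 * m + 35 * m * (1 / n) := by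
      rcases le_total m 0.2 with h | h
      · have h1 : 0 ≤ 35 * m * (1 / n) := mul_nonneg (mul_nonneg (by norm_num) hm0) hν.le
        linarith
      · have h1 : 7 * (1 / n) ≤ 35 * m * (1 / n) :=
          mul_le_mul_of_nonneg_right (by linarith) hν.le
        linarith
    have hW0 : 0 ≤ 2 / 3 * m + 35 * m * (1 / n) :=
      add_nonneg (mul_nonneg (by norm_num) hm0)
        (mul_nonneg (mul_nonneg (by norm_num) hm0) hν.le)
    have h1 := F_path_cov (X := -1 + (Sx - Ja a B)) (W := 2 / 3 * m + 35 * m * (1 / n))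
      (err := errv M (insert u R) B) (z := Z B) hW0 (hZ B) (by linarith) (by linarith)
    linarith
  · have hC : (C5 + C6) * (1 / n) ≤ 0.005 := by
      rw [mul_one_div, div_le_iff₀ hn0]
      linarith
    refine le_trans (le_of_eq ?_) hC
    rw [hC5, hC6, hC4, hC1, hC2, hA0]

end Pool.Agent.JR
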