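import Pool.Agent.JR.StA
import Pool.Agent.JR.J1
import Pool.Agent.JR.Mom

/-!
# JR, module W: lower bounds for the sets of the thresholds

The error of StF is the one of `insert u W`; the comparison with the error of `U` (`W_comp`) uses
the third moment of the number of covered vertices.
-/

set_option autoImplicit false

namespace Pool.Agent.JR

open Finset
open Pool.Agent.LawB (ev ins ali Law ev_add ev_sub ev_smul ev_sum ins_mem)

section mom

variable {V : Type*} [DecidableEq V]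

private noncomputable def W_sm (c : Finset V → ℝ) (S : Finset (Finset V)) (B : Finset (Finset V)) :
    ℝ := ∑ G ∈ S, c G * ins {G} B

private lemma W_sm_nonneg (c : Finset V → ℝ) (S : Finset (Finset V)) (B : Finset (Finset V))
    (hc : ∀ G ∈ S, 0 ≤ c G) : 0 ≤ W_sm c S B :=
  Finset.sum_nonneg fun G hG => mul_nonneg (hc G hG) (ins_mem _ _).1

private lemma W_mul (c : Finset V → ℝ) (q : ℝ) (S : Finset (Finset V)) (B : Finset (Finset V))
    (hc : ∀ G ∈ S, 0 ≤ c G ∧ c G ≤ q) (hq : 0 ≤ q) (hB : PD B) (F : Finset V) :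
    ins {F} B * W_sm c S B ≤ ins {F} B * (q + W_sm c (S.filter fun G => Disjoint F G) B) := by
  by_cases hF : F ∈ B
  · rw [ins_single, if_pos hF, one_mul, one_mul]
    unfold W_sm
    rw [← Finset.sum_filter_add_sum_filter_not S (fun G => Disjoint F G), add_comm q]
    have h1 : ∀ G ∈ S.filter (fun G => ¬ Disjoint F G),
        c G * ins {G} B ≤ if G = F then q else 0 := by
      intro G hG
      obtain ⟨hG1, hG2⟩ := Finset.mem_filter.1 hG
      rw [ins_single]
      by_cases h : G = F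
      · rw [if_pos h]
        by_cases hGB : G ∈ B
        · rw [if_pos hGB, mul_one]; exact (hc G hG1).2
        · rw [if_neg hGB, mul_zero]; exact hq
      · rw [if_neg h]
        have hGB : G ∉ B := by
          intro hGB
          exact hG2 (hB F hF G hGB (Ne.symm h))
        rw [if_neg hGB, mul_zero]
    have h2 : ∑ G ∈ S.filter (fun G => ¬ Disjoint F G), c G * ins {G} B ≤ q := by
      refine (Finset.sum_le_sum h1).trans ?_
      rw [Finset.sum_ite_eq']
      split_ifs
      · exact le_rfl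
      · exact hq
    linarith
  · rw [ins_single, if_neg hF, zero_mul, zero_mul]

variable [Fintype V] {K : ℝ} {k N : ℕ} {H : Finset (Finset V)} {w : Finset (Finset V) → ℝ}

private noncomputable def W_A (K : ℝ) : ℝ := 1 + |K| ^ 2 + |K| ^ 3 + |K| ^ 4

private lemma W_A_one (K : ℝ) : 1 ≤ W_A K := by
  unfold W_A
  have := abs_nonneg K
  linarith [pow_nonneg this 2, pow_nonneg this 3, pow_nonneg this 4]

private lemma W_gen {x : ℝ} (hK : 0 ≤ K) (hN : 0 < N) (j : ℕ) (hj : j = 1 ∨ j = 2 ∨ j = 3)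
    (h : |x - 1 / (N : ℝ) ^ j| ≤ (K / N) ^ (j + 1)) : x ≤ W_A K / (N : ℝ) ^ j := by
  have hNr : (1 : ℝ) ≤ N := by exact_mod_cast hN
  have h1 := (abs_le.1 h).2
  have h2 : (K / N) ^ (j + 1) ≤ K ^ (j + 1) / (N : ℝ) ^ j := by
    rw [div_pow]
    apply div_le_div_of_nonneg_left (by positivity) (by positivity)
    exact pow_le_pow_right₀ hNr (Nat.le_succ j)
  have h3 : 1 + K ^ (j + 1) ≤ W_A K := by
    unfold W_A
    rw [abs_of_nonneg hK]
    rcases hj with rfl | rfl | rfl
    · show 1 + K ^ 2 ≤ _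
      linarith [pow_nonneg hK 3, pow_nonneg hK 4]
    · show 1 + K ^ 3 ≤ _
      linarith [pow_nonneg hK 2, pow_nonneg hK 4]
    · show 1 + K ^ 4 ≤ _
      linarith [pow_nonneg hK 2, pow_nonneg hK 3]
  have h4 : 1 / (N : ℝ) ^ j + K ^ (j + 1) / (N : ℝ) ^ j ≤ W_A K / (N : ℝ) ^ j := by
    rw [← add_div]
    exact div_le_div_of_nonneg_right h3 (by positivity)
  linarith

private lemma W_P1 (hQ : QLaw K N H w) (hN : 0 < N) {F : Finset V} (hF : F ∈ H) :
    ev w (ins {F}) ≤ W_A K / N := by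
  have h := W_gen (hQ.K_nonneg hN) hN 1 (Or.inl rfl) (x := ev w (ins {F})) (by
    rw [pow_one]; exact hQ.one hF)
  rwa [pow_one] at h

private lemma W_P2 (hB : Big k N H) (hQ : QLaw K N H w) (hN : 0 < N) {F G : Finset V} (hF : F ∈ H)
    (hG : G ∈ H) (hd : Disjoint F G) : ev w (fun B => ins {F} B * ins {G} B) ≤ W_A K / (N : ℝ) ^ 2 :=
  W_gen (hQ.K_nonneg hN) hN 2 (Or.inr (Or.inl rfl)) (hQ.two hF hG (hB.nonempty F hF) hd)

private lemma W_P3 (hB : Big k N H) (hQ : QLaw K N H w) (hN : 0 < N) {E F G : Finset V}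
    (hE : E ∈ H) (hF : F ∈ H) (hG : G ∈ H) (hEF : Disjoint E F) (hEG : Disjoint E G)
    (hFG : Disjoint F G) :
    ev w (fun B => ins {E} B * (ins {F} B * ins {G} B)) ≤ W_A K / (N : ℝ) ^ 3 :=
  W_gen (hQ.K_nonneg hN) hN 3 (Or.inr (Or.inr rfl))
    (hQ.three hE hF hG (hB.nonempty E hE) (hB.nonempty F hF) hEF hEG hFG)

/-- `E [1_F T]` -/
private lemma W_m1 (hB : Big k N H) (hQ : QLaw K N H w) (hN : 0 < N) (c : Finset V → ℝ)
    (q S : ℝ) (hc : ∀ G ∈ H, 0 ≤ c G ∧ c G ≤ q) (hq : 0 ≤ q) (hS : ∑ G ∈ H, c G ≤ N * S)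
    {F : Finset V} (hF : F ∈ H) :
    ev w (fun B => ins {F} B * W_sm c H B) ≤ W_A K / N * (q + S) := by
  have hNr : (0 : ℝ) < N := by exact_mod_cast hN
  have hA := W_A_one K
  have h1 : ev w (fun B => ins {F} B * W_sm c H B) ≤ ev w (fun B => q * ins {F} B +
      ∑ G ∈ H.filter (fun G => Disjoint F G), c G * (ins {F} B * ins {G} B)) := by
    apply hQ.mono'
    intro B _ hPD
    refine (W_mul c q H B hc hq hPD F).trans (le_of_eq ?_)
    rw [mul_add, W_sm, Finset.mul_sum, mul_comm q]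
    congr 1
    exact Finset.sum_congr rfl fun G _ => by ring
  refine h1.trans ?_
  rw [ev_add, ev_smul, ev_sum]
  have h2 : ∑ G ∈ H.filter (fun G => Disjoint F G), ev w (fun B => c G * (ins {F} B * ins {G} B)) ≤
      ∑ G ∈ H, c G * (W_A K / (N : ℝ) ^ 2) := by
    refine (Finset.sum_le_sum fun G hG => ?_).trans (Finset.sum_le_sum_of_subset_of_nonneg
      (Finset.filter_subset (fun G => Disjoint F G) H) fun G hG _ =>
        mul_nonneg (hc G hG).1 (by positivity))
    obtain ⟨hG1, hG2⟩ := Finset.mem_filter.1 hG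
    rw [ev_smul]
    exact mul_le_mul_of_nonneg_left (W_P2 hB hQ hN hF hG1 hG2) (hc G hG1).1
  have h3 : ∑ G ∈ H, c G * (W_A K / (N : ℝ) ^ 2) ≤ W_A K / N * S := by
    rw [← Finset.sum_mul]
    have : W_A K / N * S = (N * S) * (W_A K / (N : ℝ) ^ 2) := by
      field_simp
    rw [this]
    exact mul_le_mul_of_nonneg_right hS (by positivity)
  have h4 : q * ev w (ins {F}) ≤ W_A K / N * q := by
    rw [mul_comm]
    exact mul_le_mul_of_nonneg_right (W_P1 hQ hN hF) hq
  have h5 : q * ev w (fun B => ins {F} B) = q * ev w (ins {F}) := rfl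
  rw [h5]
  linarith

/-- `E [1_F 1_G T]`, `F`, `G` disjoint -/
private lemma W_m2 (hB : Big k N H) (hQ : QLaw K N H w) (hN : 0 < N) (c : Finset V → ℝ)
    (q S : ℝ) (hc : ∀ G ∈ H, 0 ≤ c G ∧ c G ≤ q) (hq : 0 ≤ q) (hS : ∑ G ∈ H, c G ≤ N * S)
    {F G : Finset V} (hF : F ∈ H) (hG : G ∈ H) (hd : Disjoint F G) :
    ev w (fun B => ins {F} B * (ins {G} B * W_sm c (H.filter fun E => Disjoint F E) B)) ≤
      W_A K / (N : ℝ) ^ 2 * (q + S) := by
  have hNr : (0 : ℝ) < N := by exact_mod_cast hN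
  have hA := W_A_one K
  have h1 : ev w (fun B => ins {F} B * (ins {G} B * W_sm c (H.filter fun E => Disjoint F E) B)) ≤
      ev w (fun B => q * (ins {F} B * ins {G} B) +
      ∑ E ∈ (H.filter (fun E => Disjoint F E)).filter (fun E => Disjoint G E),
        c E * (ins {F} B * (ins {G} B * ins {E} B))) := by
    apply hQ.mono'
    intro B _ hPD
    refine (mul_le_mul_of_nonneg_left (W_mul c q (H.filter fun E => Disjoint F E) B
      (fun E hE => hc E (Finset.mem_filter.1 hE).1) hq hPD G) (ins_mem _ _).1).trans (le_of_eq ?_)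
    rw [mul_add, mul_add, W_sm, Finset.mul_sum, Finset.mul_sum]
    congr 1
    · ring
    · exact Finset.sum_congr rfl fun G _ => by ring
  refine h1.trans ?_
  rw [ev_add, ev_smul, ev_sum]
  have h2 : ∑ E ∈ (H.filter (fun E => Disjoint F E)).filter (fun E => Disjoint G E),
      ev w (fun B => c E * (ins {F} B * (ins {G} B * ins {E} B))) ≤
      ∑ E ∈ H, c E * (W_A K / (N : ℝ) ^ 3) := by
    refine (Finset.sum_le_sum fun E hE => ?_).trans (Finset.sum_le_sum_of_subset_of_nonneg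
      ((Finset.filter_subset _ _).trans (Finset.filter_subset (fun G => Disjoint F G) H))
        fun G hG _ => mul_nonneg (hc G hG).1 (by positivity))
    obtain ⟨hE1, hE2⟩ := Finset.mem_filter.1 hE
    obtain ⟨hE3, hE4⟩ := Finset.mem_filter.1 hE1
    rw [ev_smul]
    exact mul_le_mul_of_nonneg_left (W_P3 hB hQ hN hF hG hE3 hd hE4 hE2) (hc E hE3).1
  have h3 : ∑ E ∈ H, c E * (W_A K / (N : ℝ) ^ 3) ≤ W_A K / (N : ℝ) ^ 2 * S := by
    rw [← Finset.sum_mul]
    have : W_A K / (N : ℝ) ^ 2 * S = (N * S) * (W_A K / (N : ℝ) ^ 3) := by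
      field_simp
    rw [this]
    exact mul_le_mul_of_nonneg_right hS (by positivity)
  have h4 : q * ev w (fun B => ins {F} B * ins {G} B) ≤ W_A K / (N : ℝ) ^ 2 * q := by
    rw [mul_comm]
    exact mul_le_mul_of_nonneg_right (W_P2 hB hQ hN hF hG hd) hq
  linarith

/-- the third moment -/
private lemma W_m3 (hB : Big k N H) (hQ : QLaw K N H w) (hN : 0 < N) (c : Finset V → ℝ)
    (q S : ℝ) (hc : ∀ G ∈ H, 0 ≤ c G ∧ c G ≤ q) (hq : 0 ≤ q) (hS0 : 0 ≤ S)
    (hS : ∑ G ∈ H, c G ≤ N * S) :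
    ev w (fun B => W_sm c H B ^ 3) ≤ 2 * W_A K * S * (q ^ 2 + S * (q + S)) := by
  have hNr : (0 : ℝ) < N := by exact_mod_cast hN
  have hA := W_A_one K
  have key : ∀ F ∈ H, ev w (fun B => ins {F} B * W_sm c H B ^ 2) ≤
      2 * (W_A K / N) * (q ^ 2 + S * (q + S)) := by
    intro F hF
    have h1 : ev w (fun B => ins {F} B * W_sm c H B ^ 2) ≤ ev w (fun B => 2 * q ^ 2 * ins {F} B +
        2 * ∑ G ∈ H.filter (fun G => Disjoint F G),
          c G * (ins {F} B * (ins {G} B * W_sm c (H.filter fun E => Disjoint F E) B))) := by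
      apply hQ.mono'
      intro B _ hPD
      have e1 : ins {F} B * W_sm c H B ^ 2 = (ins {F} B * W_sm c H B) ^ 2 := by
        rw [mul_pow, pow_two (ins {F} B), ins_mul_self]
      have hi := (ins_mem ({F} : Finset (Finset V)) B).1
      obtain ⟨T, hT⟩ : ∃ T, T = W_sm c (H.filter fun E => Disjoint F E) B := ⟨_, rfl⟩
      have e2 : (ins {F} B * W_sm c H B) ^ 2 ≤ (ins {F} B * (q + T)) ^ 2 := by
        rw [hT]
        exact pow_le_pow_left₀ (mul_nonneg hi (W_sm_nonneg c H B fun G hG => (hc G hG).1))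
          (W_mul c q H B hc hq hPD F) 2
      have e3 : (ins {F} B * (q + T)) ^ 2 = ins {F} B * (q + T) ^ 2 := by
        rw [mul_pow, pow_two (ins {F} B), ins_mul_self]
      have e4 : ins {F} B * (q + T) ^ 2 ≤ ins {F} B * (2 * q ^ 2 + 2 * T ^ 2) := by
        apply mul_le_mul_of_nonneg_left _ hi
        nlinarith [sq_nonneg (q - T)]
      have e5 : ∑ G ∈ H.filter (fun G => Disjoint F G), c G * (ins {F} B * (ins {G} B * T)) =
          ins {F} B * (T * T) := by
        have e6 : T * T = W_sm c (H.filter fun E => Disjoint F E) B * T := by rw [← hT]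
        rw [e6, W_sm, Finset.sum_mul, Finset.mul_sum]
        exact Finset.sum_congr rfl fun G _ => by ring
      rw [e1]
      refine e2.trans ?_
      rw [e3]
      refine e4.trans (le_of_eq ?_)
      rw [← hT, e5]
      ring
    refine h1.trans ?_
    rw [ev_add, ev_smul, ev_smul, ev_sum]
    have h2 : ∑ G ∈ H.filter (fun G => Disjoint F G), ev w (fun B =>
        c G * (ins {F} B * (ins {G} B * W_sm c (H.filter fun E => Disjoint F E) B))) ≤
        ∑ G ∈ H, c G * (W_A K / (N : ℝ) ^ 2 * (q + S)) := by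
      refine (Finset.sum_le_sum fun G hG => ?_).trans (Finset.sum_le_sum_of_subset_of_nonneg
        (Finset.filter_subset (fun G => Disjoint F G) H) fun G hG _ =>
          mul_nonneg (hc G hG).1 (by positivity))
      obtain ⟨hG1, hG2⟩ := Finset.mem_filter.1 hG
      rw [ev_smul]
      exact mul_le_mul_of_nonneg_left (W_m2 hB hQ hN c q S hc hq hS hF hG1 hG2) (hc G hG1).1
    have h3 : ∑ G ∈ H, c G * (W_A K / (N : ℝ) ^ 2 * (q + S)) ≤ W_A K / N * (S * (q + S)) := by
      rw [← Finset.sum_mul]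
      have : W_A K / N * (S * (q + S)) = (N * S) * (W_A K / (N : ℝ) ^ 2 * (q + S)) := by
        field_simp
      rw [this]
      exact mul_le_mul_of_nonneg_right hS (by positivity)
    have h4 : 2 * q ^ 2 * ev w (ins {F}) ≤ 2 * q ^ 2 * (W_A K / N) :=
      mul_le_mul_of_nonneg_left (W_P1 hQ hN hF) (by positivity)
    have h5 : ev w (fun B => ins {F} B) = ev w (ins {F}) := rfl
    rw [h5]
    have h6 : 2 * (W_A K / N) * (q ^ 2 + S * (q + S)) =
        2 * q ^ 2 * (W_A K / N) + 2 * (W_A K / N * (S * (q + S))) := by ring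
    rw [h6]
    linarith
  have e0 : (fun B => W_sm c H B ^ 3) =
      fun B => ∑ F ∈ H, c F * (ins {F} B * W_sm c H B ^ 2) := by
    funext B
    obtain ⟨T, hT⟩ : ∃ T, T = W_sm c H B := ⟨_, rfl⟩
    have e1 : T ^ 3 = W_sm c H B * T ^ 2 := by rw [← hT]; ring
    rw [← hT, e1, W_sm, Finset.sum_mul]
    exact Finset.sum_congr rfl fun F _ => by ring
  rw [e0, ev_sum]
  refine (Finset.sum_le_sum fun F hF => ?_).trans (b := ∑ F ∈ H,
    c F * (2 * (W_A K / N) * (q ^ 2 + S * (q + S)))) ?_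
  · rw [ev_smul]
    exact mul_le_mul_of_nonneg_left (key F hF) (hc F hF).1
  · rw [← Finset.sum_mul]
    have : 2 * W_A K * S * (q ^ 2 + S * (q + S)) =
        (N * S) * (2 * (W_A K / N) * (q ^ 2 + S * (q + S))) := by
      field_simp
    rw [this]
    exact mul_le_mul_of_nonneg_right hS (by positivity)

end mom

section path

private lemma W_psi_e {e1 e2 z x : ℝ} (h1 : 0 ≤ e1) (h2 : 0 ≤ e2) :
    Psi 0 e1 z x ≤ Psi 0 e2 z x + e2 / 2 := by
  unfold Psi
  rw [← min_add_add_right, ← min_add_add_right]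
  refine le_min ?_ (le_min ?_ ?_)
  · exact (min_le_left _ _).trans (by linarith)
  · exact ((min_le_right _ _).trans (min_le_left _ _)).trans (by linarith)
  · exact ((min_le_right _ _).trans (min_le_right _ _)).trans (by linarith)

private lemma W_psi_lo {e1 e2 z x : ℝ} (h : x ≤ -e2) : Psi 0 e1 z x ≤ Psi 0 e2 z x := by
  unfold Psi
  refine le_min ?_ (le_min ?_ ?_)
  · exact min_le_left _ _
  · exact (min_le_left _ _).trans (by linarith)
  · exact (min_le_right _ _).trans (min_le_right _ _)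

private lemma W_psi_hi {e1 e2 z x : ℝ} (h : e2 + 2 + 2 * z ≤ x) :
    Psi 0 e1 z x ≤ Psi 0 e2 z x := by
  unfold Psi
  refine le_min ?_ (le_min ?_ ?_)
  · exact min_le_left _ _
  · exact ((min_le_right _ _).trans (min_le_right _ _)).trans (by linarith)
  · exact (min_le_right _ _).trans (min_le_right _ _)

private lemma W_err_nonneg {M Y : ℝ} (hM : 0 < M) (hY : 0 ≤ Y) :
    0 ≤ 2 * Y / M + max 0 (Y - 0.45 * M) :=
  add_nonneg (div_nonneg (by linarith) hM.le) (le_max_left _ _)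

private lemma W_err_big {N M Y : ℝ} (hN : 1 ≤ N) (hM : 0.3 * N ≤ M) (hY : 0 ≤ Y)
    (h : 1 / 2 < 2 * Y / M + max 0 (Y - 0.45 * M)) :
    2 * Y / M + max 0 (Y - 0.45 * M) ≤ 8900 * Y ^ 3 / N ^ 2 := by
  have hM0 : 0 < M := by linarith
  have h1 : 0.03 * N ≤ Y := by
    by_contra hlt
    push Not at hlt
    have h2 : max 0 (Y - 0.45 * M) = 0 := max_eq_left (by linarith)
    have h3 : 2 * Y / M < 1 / 2 := by
      rw [div_lt_iff₀ hM0]
      linarith
    rw [h2] at h
    linarith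
  have h2 : 2 * Y / M ≤ 7 * Y := by
    rw [div_le_iff₀ hM0]
    nlinarith
  have h3 : max 0 (Y - 0.45 * M) ≤ Y := max_le hY (by linarith)
  have h4 : 8 * Y ≤ 8900 * Y ^ 3 / N ^ 2 := by
    rw [le_div_iff₀ (by positivity)]
    have h5 : (0.03 * N) ^ 2 ≤ Y ^ 2 := pow_le_pow_left₀ (by linarith) h1 2
    have h6 : 8 * N ^ 2 ≤ 8900 * Y ^ 2 := by nlinarith
    have h7 := mul_le_mul_of_nonneg_left h6 hY
    nlinarith
  linarith

private lemma W_err_small {N M Y : ℝ} (hN : 1 ≤ N) (hM : 0.3 * N ≤ M) (hY : 0 ≤ Y)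
    (h : 2 * Y / M + max 0 (Y - 0.45 * M) ≤ 1 / 2) :
    2 * Y / M + max 0 (Y - 0.45 * M) ≤ 7 * Y / N := by
  have hM0 : 0 < M := by linarith
  have h0 : 0 ≤ max 0 (Y - 0.45 * M) := le_max_left _ _
  have h1 : Y ≤ 0.45 * M := by
    by_contra hlt
    push Not at hlt
    have h2 : 0.9 < 2 * Y / M := by
      rw [lt_div_iff₀ hM0]
      linarith
    linarith
  have h2 : max 0 (Y - 0.45 * M) = 0 := max_eq_left (by linarith)
  rw [h2, add_zero, div_le_div_iff₀ hM0 (by linarith)]
  nlinarith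

private lemma W_path_free {N M Y J e1 z x : ℝ} (hN : 1 ≤ N) (hM : 0.3 * N ≤ M) (hY : 0 ≤ Y)
    (hJ : 0 ≤ J) (he1 : 0 ≤ e1) (hz : |z| ≤ 0.008) (hx : 6.1 - J ≤ x) :
    Psi 0 e1 z x ≤ Psi 0 (2 * Y / M + max 0 (Y - 0.45 * M)) z x + 4450 * Y ^ 3 / N ^ 2 +
      1.2 * (Y * J) / N := by
  have hM0 : 0 < M := by linarith
  have h0 := W_err_nonneg (Y := Y) hM0 hY
  have hz2 := (abs_le.1 hz).2
  have p1 : 0 ≤ 4450 * Y ^ 3 / N ^ 2 := by positivity
  have p2 : 0 ≤ 1.2 * (Y * J) / N := by positivity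
  rcases lt_or_ge (1 / 2) (2 * Y / M + max 0 (Y - 0.45 * M)) with h | h
  · have h1 := W_err_big hN hM hY h
    have h2 := W_psi_e (z := z) (x := x) he1 h0
    have h3 : 4450 * Y ^ 3 / N ^ 2 = (8900 * Y ^ 3 / N ^ 2) / 2 := by ring
    rw [h3]
    linarith
  · rcases lt_or_ge 3 J with hJ3 | hJ3
    · have h1 := W_err_small hN hM hY h
      have h2 := W_psi_e (z := z) (x := x) he1 h0
      have h3 : 7 * Y / N / 2 ≤ 1.2 * (Y * J) / N := by
        rw [div_div, div_le_div_iff₀ (by linarith) (by linarith)]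
        have h4 : Y * 3 ≤ Y * J := mul_le_mul_of_nonneg_left hJ3.le hY
        have h5 : 7 * Y ≤ 2.4 * (Y * J) := by nlinarith
        nlinarith
      linarith
    · have h1 := W_psi_hi (e1 := e1) (e2 := 2 * Y / M + max 0 (Y - 0.45 * M)) (z := z) (x := x)
        (by linarith)
      linarith

private lemma W_path_cov {N M Y m e1 z x : ℝ} (hN : 1 ≤ N) (hM : 0.3 * N ≤ M) (hY : 0 ≤ Y)
    (hm : 0 ≤ m) (he1 : 0 ≤ e1) (hx : x ≤ -1 + 4 * m) :
    Psi 0 e1 z x ≤ Psi 0 (2 * Y / M + max 0 (Y - 0.45 * M)) z x + 4450 * Y ^ 3 / N ^ 2 +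
      28 * m * Y / N := by
  have hM0 : 0 < M := by linarith
  have h0 := W_err_nonneg (Y := Y) hM0 hY
  have p1 : 0 ≤ 4450 * Y ^ 3 / N ^ 2 := by positivity
  have p2 : 0 ≤ 28 * m * Y / N := by positivity
  rcases lt_or_ge (1 / 2) (2 * Y / M + max 0 (Y - 0.45 * M)) with h | h
  · have h1 := W_err_big hN hM hY h
    have h2 := W_psi_e (z := z) (x := x) he1 h0
    have h3 : 4450 * Y ^ 3 / N ^ 2 = (8900 * Y ^ 3 / N ^ 2) / 2 := by ring
    rw [h3]
    linarith
  · rcases lt_or_ge (1 / 8) m with hm8 | hm8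
    · have h1 := W_err_small hN hM hY h
      have h2 := W_psi_e (z := z) (x := x) he1 h0
      have h3 : 7 * Y / N / 2 ≤ 28 * m * Y / N := by
        rw [div_div, div_le_div_iff₀ (by linarith) (by linarith)]
        have h4 : Y * (1 / 8) ≤ Y * m := mul_le_mul_of_nonneg_left hm8.le hY
        have h5 : 7 * Y ≤ 56 * (Y * m) := by nlinarith
        nlinarith
      linarith
    · have h1 := W_psi_lo (e1 := e1) (e2 := 2 * Y / M + max 0 (Y - 0.45 * M)) (z := z) (x := x)
        (by linarith)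
      linarith

end path

section comb

variable {V : Type*} [DecidableEq V] {k N : ℕ} {H : Finset (Finset V)}

private lemma W_xu_nonneg (hB : Big k N H) (z : V) : 0 ≤ xu H N z := by
  unfold xu
  have h1 : (td H z : ℝ) + 1 ≤ N := by exact_mod_cast hB.deg z
  exact div_nonneg (Nat.cast_nonneg _) (by linarith)

private lemma W_xc_mem (hB : Big k N H) (z : V) : 0 ≤ xc H N 2 z ∧ xc H N 2 z ≤ 2 :=
  ⟨le_min (W_xu_nonneg hB z) (by norm_num), min_le_right _ _⟩

private lemma W_aw_mem (hB : Big k N H) (W : Finset V) {F : Finset V} (hF : F ∈ H) :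
    0 ≤ aw W (xc H N 2) F ∧ aw W (xc H N 2) F ≤ 3 * k := by
  unfold aw
  constructor
  · exact Finset.sum_nonneg fun z _ => by linarith [(W_xc_mem hB z).1]
  · have h1 : ∑ z ∈ F ∩ W, (1 + xc H N 2 z) ≤ ∑ z ∈ F ∩ W, (3 : ℝ) :=
      Finset.sum_le_sum fun z _ => by linarith [(W_xc_mem hB z).2]
    rw [Finset.sum_const, nsmul_eq_mul] at h1
    have h2 : ((F ∩ W).card : ℝ) ≤ k := by
      exact_mod_cast (Finset.card_le_card Finset.inter_subset_left).trans (hB.card F hF)
    linarith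

private lemma W_gf (H : Finset (Finset V)) (u z : V) : bd (HG H u) z + bd (HF H u) z = bd H z := by
  unfold bd HG HF
  rw [Finset.filter_filter, Finset.filter_filter]
  have h1 : (H.filter fun F => u ∈ F ∧ z ∈ F) = (H.filter fun F => z ∈ F).filter fun F => u ∈ F := by
    rw [Finset.filter_filter]
    exact Finset.filter_congr fun F _ => and_comm
  have h2 : (H.filter fun F => u ∉ F ∧ z ∈ F) =
      (H.filter fun F => z ∈ F).filter fun F => ¬ u ∈ F := by
    rw [Finset.filter_filter]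
    exact Finset.filter_congr fun F _ => and_comm
  rw [h1, h2]
  exact Finset.card_filter_add_card_filter_not (s := H.filter fun F => z ∈ F) (fun F => u ∈ F)

private lemma W_g_le (hB : Big k N H) {u z : V} (huz : u ≠ z) : bd (HG H u) z ≤ 1 := by
  unfold bd HG
  rw [Finset.card_le_one]
  intro F hF G hG
  rw [Finset.mem_filter, Finset.mem_filter] at hF hG
  by_contra hne
  have h1 := hB.lin F hF.1.1 G hG.1.1 hne
  have h2 : ({u, z} : Finset V) ⊆ F ∩ G := by
    intro y hy
    rw [Finset.mem_insert, Finset.mem_singleton] at hy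
    rcases hy with rfl | rfl
    · exact Finset.mem_inter.2 ⟨hF.1.2, hG.1.2⟩
    · exact Finset.mem_inter.2 ⟨hF.2, hG.2⟩
  have h3 := Finset.card_le_card h2
  rw [Finset.card_pair huz] at h3
  omega

private lemma W_sumG (H : Finset (Finset V)) (W : Finset V) (x : V → ℝ) :
    ∑ F ∈ H, aw W x F = ∑ z ∈ W, (bd H z : ℝ) * (1 + x z) := by
  unfold aw
  exact sum_bd H W fun z => 1 + x z

/-- the three facts on a vertex -/
private lemma W_vertex (hB : Big k N H) (hN : 8 ≤ N) {u z : V} (huz : u ≠ z)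
    (h3 : 3 ≤ td H z) (hv : ¬ vh H N z) :
    0 ≤ xc H N 2 z - 3 * ((bd (HG H u) z : ℝ) * (1 + xc H N 2 z)) / N -
      ((bd (HF H u) z : ℝ) * (1 + xc H N 2 z)) / N ∧
    (0.3 ≤ xc H N 2 z - 2 * ((bd (HG H u) z : ℝ) * (1 + xc H N 2 z)) / N -
      ((bd (HF H u) z : ℝ) * (1 + xc H N 2 z)) / N ∨
     0 ≤ xc H N 2 z - 2 * ((bd (HG H u) z : ℝ) * (1 + xc H N 2 z)) / N -
      2 * ((bd (HF H u) z : ℝ) * (1 + xc H N 2 z)) / N) := by
  have hNr : (8 : ℝ) ≤ N := by exact_mod_cast hN
  have hN0 : (0 : ℝ) < N := by linarith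
  have hd : (td H z : ℝ) + 1 ≤ N := by exact_mod_cast hB.deg z
  have hg := W_g_le hB huz
  have hgf := W_gf H u z
  have hb := hB.two_bd_le z
  have hgr : (bd (HG H u) z : ℝ) ≤ 1 := by exact_mod_cast hg
  have hgfr : (bd (HG H u) z : ℝ) + bd (HF H u) z = bd H z := by exact_mod_cast hgf
  have hg0 : (0 : ℝ) ≤ bd (HG H u) z := Nat.cast_nonneg _
  have hf0 : (0 : ℝ) ≤ bd (HF H u) z := Nat.cast_nonneg _
  rcases le_or_gt (xu H N z) 2 with h2 | h2
  · have hx : xc H N 2 z = (td H z : ℝ) / ((N : ℝ) - td H z) := min_eq_left h2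
    have hD : (0 : ℝ) < (N : ℝ) - td H z := by linarith
    have hq : (1 + xc H N 2 z) / N = 1 / ((N : ℝ) - td H z) := by
      rw [hx]
      field_simp
      ring
    have e1 : ∀ c y : ℝ, c * (y * (1 + xc H N 2 z)) / N = c * y / ((N : ℝ) - td H z) := by
      intro c y
      have : c * (y * (1 + xc H N 2 z)) / N = c * y * ((1 + xc H N 2 z) / N) := by ring
      rw [this, hq]
      ring
    have e2 : ∀ y : ℝ, (y * (1 + xc H N 2 z)) / N = y / ((N : ℝ) - td H z) := by
      intro y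
      have : (y * (1 + xc H N 2 z)) / N = y * ((1 + xc H N 2 z) / N) := by ring
      rw [this, hq]
      ring
    constructor
    · rw [e1, e2, hx, ← sub_div, ← sub_div]
      apply div_nonneg _ hD.le
      have h4 : bd H z + 2 * bd (HG H u) z ≤ td H z := by omega
      have h5 : (bd H z : ℝ) + 2 * bd (HG H u) z ≤ td H z := by exact_mod_cast h4
      linarith
    · right
      rw [e1, e1, hx, ← sub_div, ← sub_div]
      apply div_nonneg _ hD.le
      have h5 : 2 * (bd H z : ℝ) ≤ td H z := by exact_mod_cast hb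
      linarith
  · have hx : xc H N 2 z = 2 := min_eq_right h2.le
    have hv' : 5 * (bd H z : ℝ) < 2 * N := by
      unfold vh at hv
      push Not at hv
      exact_mod_cast hv
    rw [hx]
    have e1 : (2 : ℝ) - 3 * ((bd (HG H u) z : ℝ) * (1 + 2)) / N -
        ((bd (HF H u) z : ℝ) * (1 + 2)) / N =
        (2 * N - 9 * bd (HG H u) z - 3 * bd (HF H u) z) / N := by
      field_simp
      ring
    have e2 : (2 : ℝ) - 2 * ((bd (HG H u) z : ℝ) * (1 + 2)) / N -
        ((bd (HF H u) z : ℝ) * (1 + 2)) / N =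
        (2 * N - 6 * bd (HG H u) z - 3 * bd (HF H u) z) / N := by
      field_simp
      ring
    constructor
    · rw [e1]
      apply div_nonneg _ hN0.le
      linarith
    · left
      rw [e2, le_div_iff₀ hN0]
      linarith

/-- the facts on `m2` -/
private lemma W_m2_facts (hB : Big k N H) (hN : 8 ≤ N) {u : V} {W : Finset V} (huW : u ∉ W)
    (h3 : ∀ z ∈ W, 3 ≤ td H z) (hv : ∀ z ∈ W, ¬ vh H N z) :
    (∑ G ∈ HG H u, aw W (xc H N 2) G) / N ≤ m2 H N u W (xc H N 2) (aw W (xc H N 2)) ∧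
    (m2 H N u W (xc H N 2) (aw W (xc H N 2)) < 0.3 →
      (∑ F ∈ HF H u, aw W (xc H N 2) F) / N ≤ m2 H N u W (xc H N 2) (aw W (xc H N 2)) ∧
      ∑ z ∈ W, xc H N 2 z ≤ 4 * m2 H N u W (xc H N 2) (aw W (xc H N 2))) := by
  have hNr : (8 : ℝ) ≤ N := by exact_mod_cast hN
  have hN0 : (0 : ℝ) < N := by linarith
  have hne : ∀ z ∈ W, u ≠ z := fun z hz h => huW (h ▸ hz)
  obtain ⟨SG, hSG⟩ : ∃ SG, SG = (∑ G ∈ HG H u, aw W (xc H N 2) G) / N := ⟨_, rfl⟩
  obtain ⟨SF, hSF⟩ : ∃ SF, SF = (∑ F ∈ HF H u, aw W (xc H N 2) F) / N := ⟨_, rfl⟩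
  have hm : m2 H N u W (xc H N 2) (aw W (xc H N 2)) = ∑ z ∈ W, xc H N 2 z - 2 * SG - SF := by
    rw [hSG, hSF]
    unfold m2
    have e1 : ∑ G ∈ H.filter (fun G => u ∈ G), aw W (xc H N 2) G =
      ∑ G ∈ HG H u, aw W (xc H N 2) G := rfl
    have e2 : ∑ G ∈ H.filter (fun G => u ∉ G), aw W (xc H N 2) G =
      ∑ G ∈ HF H u, aw W (xc H N 2) G := rfl
    rw [e1, e2]
    ring
  have eG : SG = ∑ z ∈ W, ((bd (HG H u) z : ℝ) * (1 + xc H N 2 z)) / N := by
    rw [hSG, W_sumG, Finset.sum_div]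
  have eF : SF = ∑ z ∈ W, ((bd (HF H u) z : ℝ) * (1 + xc H N 2 z)) / N := by
    rw [hSF, W_sumG, Finset.sum_div]
  rw [hm, ← hSG, ← hSF]
  have hA : 0 ≤ ∑ z ∈ W, xc H N 2 z - 3 * SG - SF := by
    rw [eG, eF, Finset.mul_sum, ← Finset.sum_sub_distrib, ← Finset.sum_sub_distrib]
    apply Finset.sum_nonneg
    intro z hz
    have := (W_vertex hB hN (hne z hz) (h3 z hz) (hv z hz)).1
    have e : 3 * (((bd (HG H u) z : ℝ) * (1 + xc H N 2 z)) / N) =
      3 * ((bd (HG H u) z : ℝ) * (1 + xc H N 2 z)) / N := by ring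
    rw [e]
    exact this
  refine ⟨by linarith, fun hlt => ?_⟩
  have hBB : 0 ≤ ∑ z ∈ W, xc H N 2 z - 2 * SG - 2 * SF := by
    rw [eG, eF, Finset.mul_sum, Finset.mul_sum, ← Finset.sum_sub_distrib,
      ← Finset.sum_sub_distrib]
    apply Finset.sum_nonneg
    intro z hz
    have e : 2 * (((bd (HG H u) z : ℝ) * (1 + xc H N 2 z)) / N) =
      2 * ((bd (HG H u) z : ℝ) * (1 + xc H N 2 z)) / N := by ring
    have e' : 2 * (((bd (HF H u) z : ℝ) * (1 + xc H N 2 z)) / N) =
      2 * ((bd (HF H u) z : ℝ) * (1 + xc H N 2 z)) / N := by ring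
    rw [e, e']
    rcases (W_vertex hB hN (hne z hz) (h3 z hz) (hv z hz)).2 with h | h
    · exfalso
      have h4 : xc H N 2 z - 2 * ((bd (HG H u) z : ℝ) * (1 + xc H N 2 z)) / N -
          ((bd (HF H u) z : ℝ) * (1 + xc H N 2 z)) / N ≤
          ∑ y ∈ W, (xc H N 2 y - 2 * ((bd (HG H u) y : ℝ) * (1 + xc H N 2 y)) / N -
          ((bd (HF H u) y : ℝ) * (1 + xc H N 2 y)) / N) := by
        apply Finset.single_le_sum (f := fun y => xc H N 2 y - 2 * ((bd (HG H u) y : ℝ) *
          (1 + xc H N 2 y)) / N - ((bd (HF H u) y : ℝ) * (1 + xc H N 2 y)) / N) _ hz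
        intro y hy
        have h5 := (W_vertex hB hN (hne y hy) (h3 y hy) (hv y hy)).1
        have h6 : 2 * ((bd (HG H u) y : ℝ) * (1 + xc H N 2 y)) / N ≤
            3 * ((bd (HG H u) y : ℝ) * (1 + xc H N 2 y)) / N := by
          apply div_le_div_of_nonneg_right _ hN0.le
          have : 0 ≤ (bd (HG H u) y : ℝ) * (1 + xc H N 2 y) :=
            mul_nonneg (Nat.cast_nonneg _) (by linarith [(W_xc_mem hB y).1])
          linarith
        show 0 ≤ xc H N 2 y - 2 * ((bd (HG H u) y : ℝ) * (1 + xc H N 2 y)) / N -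
          ((bd (HF H u) y : ℝ) * (1 + xc H N 2 y)) / N
        linarith
      have h7 : ∑ y ∈ W, (xc H N 2 y - 2 * ((bd (HG H u) y : ℝ) * (1 + xc H N 2 y)) / N -
          ((bd (HF H u) y : ℝ) * (1 + xc H N 2 y)) / N) = ∑ z ∈ W, xc H N 2 z - 2 * SG - SF := by
        rw [eG, eF, Finset.mul_sum, Finset.sum_sub_distrib, Finset.sum_sub_distrib]
        congr 2
        exact Finset.sum_congr rfl fun y _ => by ring
      rw [h7] at h4
      linarith
    · exact h
  constructor
  · linarith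
  · linarith

end comb

section asm

variable {V : Type} [Fintype V] [DecidableEq V] {K : ℝ} {k N : ℕ} {H : Finset (Finset V)}
  {w : Finset (Finset V) → ℝ}

omit [Fintype V] in
private lemma W_Yv_nonneg (U : Finset V) (B : Finset (Finset V)) : 0 ≤ Yv U B := Nat.cast_nonneg _

omit [Fintype V] in
private lemma W_errv_nonneg {M : ℝ} (hM : 0 < M) (U : Finset V) (B : Finset (Finset V)) :
    0 ≤ errv M U B := W_err_nonneg hM (W_Yv_nonneg U B)

/-- reduction to `phi` -/
private lemma W_low (hJ : StJ1) (hQ : QLaw K N H w) {M r s : ℝ} (hM : 0 < M) (U : Finset V)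
    (Z X Y : Finset (Finset V) → ℝ) (hZ : ∀ B, |Z B| ≤ 0.008)
    (hs : ev w (errv M U) ≤ s) (hr : r ≤ ev w (fun B => phi (Y B))) (hXY : ∀ B, Y B ≤ X B) :
    r - s / 2 - 0.008 ≤ ev w (fun B => Psi 0 (errv M U B) (Z B) (X B)) := by
  obtain ⟨-, -, hmono, -, hPsi, -⟩ := hJ
  have h1 : ev w (fun B => phi (Y B)) ≤
      ev w (fun B => (Psi 0 (errv M U B) (Z B) (X B) + (1 / 2) * errv M U B) + 0.008) := by
    apply hQ.mono'
    intro B _ _
    have h2 := hPsi 0 (errv M U B) (Z B) (X B) (W_errv_nonneg hM U B)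
    have h3 : max (-(0 : ℝ)) 0 = 0 := by rw [neg_zero, max_self]
    rw [h3, sub_zero] at h2
    have h4 := (hmono (Y B) (X B) (hXY B)).1
    have h5 : max (-(Z B)) 0 ≤ 0.008 :=
      max_le (by linarith [(abs_le.1 (hZ B)).1]) (by norm_num)
    linarith
  rw [ev_add, ev_add, ev_smul, hQ.const'] at h1
  have h6 : ev w (fun B => errv M U B) = ev w (errv M U) := rfl
  rw [h6] at h1
  linarith

/-- reduction to E1L -/
private lemma W_lowL (hQ : QLaw K N H w) {M r s : ℝ} (hM : 0 < M) (U W : Finset V)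
    (Z : Finset (Finset V) → ℝ) (hB : Big k N H) (hZ : ∀ B, |Z B| ≤ 0.008)
    (hs : ev w (errv M U) ≤ s) (hh : ∑ z ∈ W, xu H N z ≤ 1.9)
    (hr : r ≤ ev w (fun B => Xv W (xu H N) B - max (Xv W (xu H N) B) 0 / 2
      - 0.1 * (∑ z ∈ W, xu H N z) * hit W B)) :
    r - s / 2 ≤ ev w (fun B => Psi 0 (errv M U B) (Z B) (Xv W (xu H N) B)) := by
  have h0 : 0 ≤ ∑ z ∈ W, xu H N z := Finset.sum_nonneg fun z _ => W_xu_nonneg hB z
  have h1 : ev w (fun B => Xv W (xu H N) B - max (Xv W (xu H N) B) 0 / 2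
      - 0.1 * (∑ z ∈ W, xu H N z) * hit W B) ≤
      ev w (fun B => Psi 0 (errv M U B) (Z B) (Xv W (xu H N) B) + (1 / 2) * errv M U B) := by
    apply hQ.mono'
    intro B _ _
    obtain ⟨X, hX⟩ : ∃ X, X = Xv W (xu H N) B := ⟨_, rfl⟩
    rw [← hX]
    have hX1 : X ≤ 1.9 := by
      rw [hX]
      refine (Finset.sum_le_sum fun z _ => ?_).trans hh
      split_ifs
      · linarith [W_xu_nonneg hB z]
      · exact le_rfl
    have he := W_errv_nonneg hM U B
    have hhit : 0 ≤ hit W B := by unfold hit; split_ifs <;> norm_num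
    have hp : 0 ≤ 0.1 * (∑ z ∈ W, xu H N z) * hit W B := by positivity
    have hz := (abs_le.1 (hZ B)).1
    have hm1 : X ≤ max X 0 := le_max_left _ _
    have hm0 : 0 ≤ max X 0 := le_max_right _ _
    have h2 : X - max X 0 / 2 - (1 / 2) * errv M U B ≤ Psi 0 (errv M U B) (Z B) X := by
      unfold Psi
      refine le_min (by linarith) (le_min (by linarith) ?_)
      have hm2 : X - max X 0 / 2 ≤ 0.95 := by
        rcases le_total X 0 with h | h
        · linarith
        · rw [max_eq_left h]; linarith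
      linarith
    linarith
  rw [ev_add, ev_smul] at h1
  have h6 : ev w (fun B => errv M U B) = ev w (errv M U) := rfl
  rw [h6] at h1
  linarith

omit [Fintype V] in
private lemma W_load (hW : ∀ z : V, 0 ≤ (bd H z : ℝ) / N) {U W : Finset V} {S0 : ℝ} (hWU : W ⊆ U)
    (hl : load H N U ≤ S0) : load H N W ≤ S0 :=
  (Finset.sum_le_sum_of_subset_of_nonneg hWU fun z _ _ => hW z).trans hl

omit [Fintype V] in
/-- the number of covered vertices as a sum -/
private lemma W_T (U : Finset V) (B : Finset (Finset V)) (hBH : B ⊆ H) (hPD : PD B) :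
    W_sm (fun F => ((F ∩ U).card : ℝ)) H B = Yv U B := by
  rw [Yv_eq, ← sum_cov B hPD U fun _ => 1]
  have h := (Ja_eq H (fun F => ((F ∩ U).card : ℝ)) B hBH).symm
  unfold W_sm
  rw [h]
  unfold Ja
  refine Finset.sum_congr rfl fun F _ => ?_
  rw [Finset.sum_const, nsmul_eq_mul, mul_one]

omit [Fintype V] in
private lemma W_csum (hN : 0 < N) {U : Finset V} {S0 : ℝ} (hl : load H N U ≤ S0) :
    ∑ F ∈ H, ((F ∩ U).card : ℝ) ≤ N * S0 := by
  have hNr : (0 : ℝ) < N := by exact_mod_cast hN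
  have h1 := sum_bd H U fun _ => 1
  have h2 : ∑ F ∈ H, ((F ∩ U).card : ℝ) = ∑ F ∈ H, ∑ u ∈ F ∩ U, (1 : ℝ) := by
    refine Finset.sum_congr rfl fun F _ => ?_
    rw [Finset.sum_const, nsmul_eq_mul, mul_one]
  rw [h2, h1]
  have h3 : ∑ u ∈ U, (bd H u : ℝ) * 1 = N * load H N U := by
    unfold load
    rw [Finset.mul_sum]
    refine Finset.sum_congr rfl fun u _ => ?_
    field_simp
  rw [h3]
  exact mul_le_mul_of_nonneg_left hl hNr.le

/-- the comparison of the two errors -/
private lemma W_comp (hJ : StJ1) (hB : Big k N H) (hQ : QLaw K N H w) (hN : 8 ≤ N)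
    {u : V} {U W : Finset V} {M S0 xx m : ℝ} (hl : load H N U ≤ S0)
    (hM : 0.3 * N ≤ M) (Z : Finset (Finset V) → ℝ) (hZ : ∀ B, |Z B| ≤ 0.008)
    (hxx : 6.1 ≤ xx) (hm0 : 0 ≤ m)
    (hSF : (∑ F ∈ HF H u, aw W (xc H N 2) F) / N ≤ m)
    (hS : ∑ z ∈ W, xc H N 2 z ≤ 4 * m) :
    ev w (fun B => Psi 0 (errv M (insert u W) B) (Z B)
        ((if u ∈ LawB.cov B then -1 else xx) + Xv W (xc H N 2) B)) ≤
      ev w (fun B => Psi 0 (errv M U B) (Z B)
        ((if u ∈ LawB.cov B then -1 else xx) + Xv W (xc H N 2) B)) +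
      8900 * W_A K * S0 * ((k : ℝ) ^ 2 + S0 * (k + S0)) / (N : ℝ) ^ 2 +
      (1.2 * W_A K * (k + S0) + 28 * W_A K * S0) * m / N := by
  have hNr : (8 : ℝ) ≤ N := by exact_mod_cast hN
  have hN0 : (0 : ℝ) < N := by linarith
  have hNpos : 0 < N := by omega
  have hM0 : 0 < M := by linarith
  have hA := W_A_one K
  have hS00 : 0 ≤ S0 := by
    refine le_trans ?_ hl
    exact Finset.sum_nonneg fun z _ => div_nonneg (Nat.cast_nonneg _) hN0.le
  obtain ⟨c, hc⟩ : ∃ c : Finset V → ℝ, c = fun F => ((F ∩ U).card : ℝ) := ⟨_, rfl⟩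
  have hcm : ∀ G ∈ H, 0 ≤ c G ∧ c G ≤ (k : ℝ) := by
    intro G hG
    rw [hc]
    refine ⟨Nat.cast_nonneg _, ?_⟩
    show ((G ∩ U).card : ℝ) ≤ k
    exact_mod_cast (Finset.card_le_card Finset.inter_subset_left).trans (hB.card G hG)
  have hcs : ∑ G ∈ H, c G ≤ N * S0 := by
    rw [hc]; exact W_csum hNpos hl
  obtain ⟨a, ha⟩ : ∃ a : Finset V → ℝ, a = aw W (xc H N 2) := ⟨_, rfl⟩
  have ham : ∀ F ∈ H, 0 ≤ a F := fun F hF => by rw [ha]; exact (W_aw_mem hB W hF).1
  rw [← ha] at hSF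
  have hHF : HF H u ⊆ H := Finset.filter_subset _ _
  have h1 : ev w (fun B => Psi 0 (errv M (insert u W) B) (Z B)
        ((if u ∈ LawB.cov B then -1 else xx) + Xv W (xc H N 2) B)) ≤
      ev w (fun B => ((Psi 0 (errv M U B) (Z B)
        ((if u ∈ LawB.cov B then -1 else xx) + Xv W (xc H N 2) B) +
        4450 / (N : ℝ) ^ 2 * W_sm c H B ^ 3) +
        1.2 / N * ∑ F ∈ HF H u, a F * (ins {F} B * W_sm c H B)) + 28 * m / N * W_sm c H B) := by
    apply hQ.mono'
    intro B hBH hPD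
    have hT : W_sm c H B = Yv U B := by rw [hc]; exact W_T U B hBH hPD
    have hY := W_Yv_nonneg U B
    have he1 := W_errv_nonneg hM0 (insert u W) B
    rw [hT]
    have hXW : Xv W (xc H N 2) B = ∑ z ∈ W, xc H N 2 z - Ja (aw W (xc H N 2)) B :=
      hJ.2.2.2.2.2 V W (xc H N 2) B hPD
    have hsum : ∑ F ∈ HF H u, a F * (ins {F} B * Yv U B) = W_sm a (HF H u) B * Yv U B := by
      unfold W_sm
      rw [Finset.sum_mul]
      exact Finset.sum_congr rfl fun F _ => by ring
    rw [hsum]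
    have hJ0 : 0 ≤ W_sm a (HF H u) B := W_sm_nonneg a _ B fun F hF => ham F (hHF hF)
    have hx0 : 0 ≤ ∑ z ∈ W, xc H N 2 z := Finset.sum_nonneg fun z _ => (W_xc_mem hB z).1
    by_cases hu : u ∈ LawB.cov B
    · rw [if_pos hu]
      have h2 := W_path_cov (N := N) (M := M) (Y := Yv U B) (m := m)
        (e1 := errv M (insert u W) B) (z := Z B)
        (x := -1 + Xv W (xc H N 2) B) (by linarith) hM hY hm0 he1 (by
          have h3 : Xv W (xc H N 2) B ≤ ∑ z ∈ W, xc H N 2 z := by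
            rw [hXW]
            have h4 : 0 ≤ Ja (aw W (xc H N 2)) B :=
              Finset.sum_nonneg fun F hF => (W_aw_mem hB W (hBH hF)).1
            linarith
          linarith)
      have h5 : 0 ≤ 1.2 / N * (W_sm a (HF H u) B * Yv U B) := by positivity
      have h6 : 4450 * Yv U B ^ 3 / (N : ℝ) ^ 2 = 4450 / (N : ℝ) ^ 2 * Yv U B ^ 3 := by ring
      have h7 : 28 * m * Yv U B / N = 28 * m / N * Yv U B := by ring
      rw [h6, h7] at h2
      have h8 : errv M U B = 2 * Yv U B / M + max 0 (Yv U B - 0.45 * M) := rfl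
      rw [h8]
      linarith
    · rw [if_neg hu]
      have hJa : Ja (aw W (xc H N 2)) B = W_sm a (HF H u) B := by
        have hsub : B ⊆ HF H u := by
          intro F hF
          refine Finset.mem_filter.2 ⟨hBH hF, fun huF => hu ?_⟩
          exact Finset.mem_biUnion.2 ⟨F, hF, huF⟩
        rw [← ha, Ja_eq (HF H u) a B hsub]
        rfl
      have h2 := W_path_free (N := N) (M := M) (Y := Yv U B) (J := W_sm a (HF H u) B)
        (e1 := errv M (insert u W) B) (z := Z B)
        (x := xx + Xv W (xc H N 2) B) (by linarith) hM hY hJ0 he1 (hZ B) (by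
          rw [hXW, hJa]
          linarith)
      have h5 : 0 ≤ 28 * m / N * Yv U B := by positivity
      have h6 : 4450 * Yv U B ^ 3 / (N : ℝ) ^ 2 = 4450 / (N : ℝ) ^ 2 * Yv U B ^ 3 := by ring
      have h7 : 1.2 * (Yv U B * W_sm a (HF H u) B) / N =
        1.2 / N * (W_sm a (HF H u) B * Yv U B) := by ring
      rw [h6, h7] at h2
      have h8 : errv M U B = 2 * Yv U B / M + max 0 (Yv U B - 0.45 * M) := rfl
      rw [h8]
      linarith
  refine h1.trans ?_
  rw [ev_add, ev_add, ev_add, ev_smul, ev_smul, ev_smul, ev_sum]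
  have m3 := W_m3 hB hQ hNpos c k S0 hcm (Nat.cast_nonneg _) hS00 hcs
  have b3 : 4450 / (N : ℝ) ^ 2 * ev w (fun B => W_sm c H B ^ 3) ≤
      8900 * W_A K * S0 * ((k : ℝ) ^ 2 + S0 * (k + S0)) / (N : ℝ) ^ 2 := by
    refine (mul_le_mul_of_nonneg_left m3 (by positivity)).trans (le_of_eq ?_)
    ring
  have b2 : 1.2 / N * ∑ F ∈ HF H u, ev w (fun B => a F * (ins {F} B * W_sm c H B)) ≤
      1.2 * W_A K * (k + S0) * m / N := by
    have h2 : ∑ F ∈ HF H u, ev w (fun B => a F * (ins {F} B * W_sm c H B)) ≤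
        ∑ F ∈ HF H u, a F * (W_A K / N * (k + S0)) := by
      apply Finset.sum_le_sum
      intro F hF
      rw [ev_smul]
      exact mul_le_mul_of_nonneg_left
        (W_m1 hB hQ hNpos c k S0 hcm (Nat.cast_nonneg _) hcs (hHF hF)) (ham F (hHF hF))
    have h3 : ∑ F ∈ HF H u, a F * (W_A K / N * (k + S0)) =
        ((∑ F ∈ HF H u, a F) / N) * (W_A K * (k + S0)) := by
      rw [← Finset.sum_mul]
      ring
    have h4 : ((∑ F ∈ HF H u, a F) / N) * (W_A K * (k + S0)) ≤ m * (W_A K * (k + S0)) :=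
      mul_le_mul_of_nonneg_right hSF (by positivity)
    have h5 : 1.2 / N * ∑ F ∈ HF H u, ev w (fun B => a F * (ins {F} B * W_sm c H B)) ≤
        1.2 / N * (m * (W_A K * (k + S0))) :=
      mul_le_mul_of_nonneg_left (by rw [h3] at h2; linarith) (by positivity)
    refine h5.trans (le_of_eq ?_)
    ring
  have b1 : 28 * m / N * ev w (fun B => W_sm c H B) ≤ 28 * W_A K * S0 * m / N := by
    have h2 : ev w (fun B => W_sm c H B) ≤ W_A K * S0 := by
      have h3 : ev w (fun B => W_sm c H B) = ∑ F ∈ H, c F * ev w (ins {F}) := by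
        unfold W_sm
        rw [ev_sum]
        exact Finset.sum_congr rfl fun F _ => ev_smul w (ins {F}) (c F)
      rw [h3]
      refine (Finset.sum_le_sum fun F hF =>
        mul_le_mul_of_nonneg_left (W_P1 hQ hNpos hF) (hcm F hF).1).trans ?_
      rw [← Finset.sum_mul]
      refine (mul_le_mul_of_nonneg_right hcs (by positivity)).trans (le_of_eq ?_)
      field_simp
    refine (mul_le_mul_of_nonneg_left h2 (by positivity)).trans (le_of_eq ?_)
    ring
  have e : (1.2 * W_A K * (k + S0) + 28 * W_A K * S0) * m / N =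
      1.2 * W_A K * (k + S0) * m / N + 28 * W_A K * S0 * m / N := by ring
  rw [e]
  linarith

omit [Fintype V] in
private lemma W_xx (hB : Big k N H) {u : V} (hu : 43 * N < 100 * bd H u) {xx : ℝ}
    (hxx : min (2 * (bd H u : ℝ) / (N - 2 * bd H u)) 20 - 0.01 ≤ xx) : 6.1 ≤ xx := by
  have h1 : 2 * (bd H u : ℝ) + 1 ≤ N := by exact_mod_cast hB.two_bd_lt u
  have h2 : 43 * (N : ℝ) < 100 * bd H u := by exact_mod_cast hu
  have h3 : (0 : ℝ) < N - 2 * bd H u := by linarith
  have h4 : 6.11 ≤ min (2 * (bd H u : ℝ) / (N - 2 * bd H u)) 20 := by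
    refine le_min ?_ (by norm_num)
    rw [le_div_iff₀ h3]
    linarith
  linarith

end asm

/-- [W] -/
theorem thm_W : StE1L → StE1H → StE2 → StE3 → StF → StERR → StW := by
  intro hE1L hE1H hE2 hE3 hFF hERR k K S0 C1
  obtain ⟨c1, D1, N1, hc1, h1L⟩ := hE1L k K
  obtain ⟨D2, N2, h1H⟩ := hE1H k K S0
  obtain ⟨D3, N3, h2⟩ := hE2 k K S0
  obtain ⟨D4, N4, h3⟩ := hE3 k K S0
  obtain ⟨N5, hF⟩ := hFF k K S0
  obtain ⟨D6, hE⟩ := hERR k K S0
  obtain ⟨D7, hD7⟩ : ∃ D7 : ℝ, D7 = 8900 * W_A K * S0 * ((k : ℝ) ^ 2 + S0 * (k + S0)) := ⟨_, rfl⟩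
  obtain ⟨D8, hD8⟩ : ∃ D8 : ℝ, D8 = 1.2 * W_A K * (k + S0) + 28 * W_A K * S0 := ⟨_, rfl⟩
  obtain ⟨N8, hN8⟩ := exists_nat_ge (250 * D8)
  refine ⟨min c1 0.003, |D1| + |D2| + |D3| + |D4| + |D6| + |D7| + 4 * |C1|,
    N1 + N2 + N3 + N4 + N5 + N8 + 8, lt_min hc1 (by norm_num), ?_⟩
  intro V _ _ N H w U W M b Z hNN hB hQ hWU hl htd hM hMN hb hbN hZ hP hPG hPZ
  have hJ := thm_J1
  have hN8' : 8 ≤ N := by omega
  have hNr : (8 : ℝ) ≤ N := by exact_mod_cast hN8'
  have hN0 : (0 : ℝ) < N := by linarith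
  have hM0 : 0 < M := by linarith
  obtain ⟨C, hC⟩ : ∃ C, C = |D1| + |D2| + |D3| + |D4| + |D6| + |D7| + 4 * |C1| := ⟨_, rfl⟩
  rw [← hC]
  have a1 := abs_nonneg D1
  have a2 := abs_nonneg D2
  have a3 := abs_nonneg D3
  have a4 := abs_nonneg D4
  have a6 := abs_nonneg D6
  have a7 := abs_nonneg D7
  have a9 := abs_nonneg C1
  have l1 := le_abs_self D1
  have l2 := le_abs_self D2
  have l3 := le_abs_self D3
  have l4 := le_abs_self D4
  have l6 := le_abs_self D6
  have l7 := le_abs_self D7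
  have l9 := le_abs_self C1
  have hS00 : 0 ≤ S0 := by
    refine le_trans ?_ hl
    exact Finset.sum_nonneg fun z _ => div_nonneg (Nat.cast_nonneg _) hN0.le
  have hlW : load H N W ≤ S0 := W_load (fun z => div_nonneg (Nat.cast_nonneg _) hN0.le) hWU hl
  have herr : ev w (errv M U) ≤ D6 / N := hE V N H w U M (by omega) hB hQ hl hM hMN
  have hcm : ∀ x y : ℝ, x + y ≤ C → x / N + y / N ≤ C / N := by
    intro x y h
    rw [← add_div]
    exact div_le_div_of_nonneg_right h hN0.le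
  have hD6 : D6 / N / 2 ≤ |D6| / N := by
    have h11 : D6 / N ≤ |D6| / N := div_le_div_of_nonneg_right l6 hN0.le
    have h12 : 0 ≤ |D6| / N := div_nonneg a6 hN0.le
    linarith
  -- items 1 and 2 together
  have item12 : (∀ z ∈ W, ¬ vh H N z) →
      -C / N ≤ ev w (fun B => Psi 0 (errv M U B) (Z B) (Xv W (xu H N) B)) ∧
      (0.45 ≤ ∑ z ∈ W, xu H N z → min c1 0.003 - C / N ≤
        ev w (fun B => Psi 0 (errv M U B) (Z B) (Xv W (xu H N) B))) := by
    intro hv
    rcases le_or_gt (∑ z ∈ W, xu H N z) 1.9 with hh | hh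
    · obtain ⟨q1, q2⟩ := h1L V N H w W (by omega) hB hQ hh
      constructor
      · have := W_lowL (r := -D1 / N) (s := D6 / N) hQ hM0 U W Z hB hZ herr hh q1
        have h4 := hcm |D1| |D6| (by rw [hC]; linarith)
        have h5 : -|D1| / N ≤ -D1 / N := div_le_div_of_nonneg_right (by linarith) hN0.le
        have h6 : -C / N = -(C / N) := by ring
        have h7 : -|D1| / N = -(|D1| / N) := by ring
        rw [h6]
        rw [h7] at h5
        linarith
      · intro h45
        have := W_lowL (r := c1 - D1 / N) (s := D6 / N) hQ hM0 U W Z hB hZ herr hh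
          (q2 h45)
        have h4 := hcm |D1| |D6| (by rw [hC]; linarith)
        have h5 : D1 / N ≤ |D1| / N := div_le_div_of_nonneg_right l1 hN0.le
        have h6 := min_le_left c1 0.003
        linarith
    · have hs : 1.9 ≤ ∑ z ∈ W, xc H N 2 z := by
        by_cases hall : ∀ z ∈ W, xu H N z ≤ 2
        · have : ∑ z ∈ W, xc H N 2 z = ∑ z ∈ W, xu H N z :=
            Finset.sum_congr rfl fun z hz => min_eq_left (hall z hz)
          rw [this]
          exact hh.le
        · push Not at hall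
          obtain ⟨z, hz, hz2⟩ := hall
          have h4 : xc H N 2 z ≤ ∑ z ∈ W, xc H N 2 z :=
            Finset.single_le_sum (f := fun y => xc H N 2 y) (fun y _ => (W_xc_mem hB y).1) hz
          have h5 : xc H N 2 z = 2 := min_eq_right hz2.le
          rw [h5] at h4
          linarith
      have hmk : ∀ z, ((mk H (∅ : Finset (Finset V)) z : ℕ) : ℝ) = 0 := by
        intro z
        unfold mk
        simp
      have q := h1H V N H w W ∅ (by omega) hB hQ hv hlW (Finset.empty_subset _)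
        (fun F hF => absurd hF (Finset.notMem_empty F)) hs
      have h4 := W_low (r := 0.011 - D2 / N) (s := D6 / N) hJ hQ hM0 U Z
        (fun B => Xv W (xu H N) B)
        (fun B => Xv W (fun z => xc H N 2 z - 0.16 * mk H (∅ : Finset (Finset V)) z / N) B)
        hZ herr q (fun B => Xv_mono W _ _ (fun z _ => by
          rw [hmk]
          have : xc H N 2 z ≤ xu H N z := min_le_left _ _
          rw [mul_zero, zero_div, sub_zero]
          exact this) B)
      have h5 := hcm |D2| |D6| (by rw [hC]; linarith)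
      have h6 : D2 / N ≤ |D2| / N := div_le_div_of_nonneg_right l2 hN0.le
      have h7 : -C / N = -(C / N) := by ring
      have h8 := min_le_right c1 0.003
      rw [h7]
      constructor
      · linarith
      · intro _
        linarith
  refine ⟨fun hv => (item12 hv).1, fun hv => (item12 hv).2, ?_, ?_⟩
  · -- item 3
    intro u₁ hu1 u₂ hu2 hne hv1 hv2
    have q := h2 V N H w W u₁ u₂ (by omega) hB hQ hu1 hu2 hne hv1 hv2 hlW
    have h4 := W_low (r := 0.05 - D3 / N) (s := D6 / N) hJ hQ hM0 U Z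
      (fun B => Xv W (xu H N) B)
      (fun B => Xv W (fun z => if 50 * td H z < N then 0.92 * xu H N z else xc H N 9 z) B)
      hZ herr q (fun B => Xv_mono W _ _ (fun z _ => by
        split_ifs
        · linarith [W_xu_nonneg hB z]
        · exact min_le_left _ _) B)
    have h5 := hcm |D3| |D6| (by rw [hC]; linarith)
    have h6 : D3 / N ≤ |D3| / N := div_le_div_of_nonneg_right l3 hN0.le
    linarith
  · -- item 4
    intro u huU huW hvu hv xx hxx
    obtain ⟨f1, f2⟩ := W_m2_facts hB hN8' huW htd hv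
    have hmk : ∀ z, ((mk H (∅ : Finset (Finset V)) z : ℕ) : ℝ) = 0 := by
      intro z
      unfold mk
      simp
    have hfun : (fun z => xc H N 2 z - 0.16 * mk H (∅ : Finset (Finset V)) z / N) =
        xc H N 2 := by
      funext z
      rw [hmk, mul_zero, zero_div, sub_zero]
    have hXX : ∀ B, (if u ∈ LawB.cov B then -1 else xx) + Xv W (xc H N 2) B ≤
        (if u ∈ LawB.cov B then -1 else xx) + Xv W (xu H N) B := by
      intro B
      have := Xv_mono W (xc H N 2) (xu H N) (fun z _ => min_le_left _ _) B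
      linarith
    by_cases hcase : 100 * bd H u ≤ 43 * N ∨ 0.3 ≤ m2 H N u W (xc H N 2) (aw W (xc H N 2))
    · refine (min_le_left _ _).trans ?_
      have q := (h3 V N H w u W ∅ xx (by omega) hB hQ huW hvu hv hlW (Finset.empty_subset _)
        (fun F hF => absurd hF (Finset.notMem_empty F)) hxx (by rw [hfun]; exact hcase)).2 (by
          rw [hfun]; exact f1)
      have h4 : 0.014 - D4 / N ≤ ev w (fun B => phi
          ((if u ∈ LawB.cov B then -1 else xx) + Xv W (xc H N 2) B)) := by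
        refine q.trans ?_
        apply hQ.mono'
        intro B _ _
        split_ifs
        · rw [hfun]
        · apply (hJ.2.2.1 _ _ _).1
          have := Xv_mono W (fun z => xc H N 2 z - 0.16 * mk H (∅ : Finset (Finset V)) z / N
            - 0.16 * (H.filter fun G => u ∈ G ∧ z ∈ G).card / N) (xc H N 2) (fun z _ => by
              rw [hmk, mul_zero, zero_div, sub_zero]
              have : 0 ≤ 0.16 * ((H.filter fun G => u ∈ G ∧ z ∈ G).card : ℝ) / N := by positivity
              linarith) B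
          linarith
      have h5 := W_low (r := 0.014 - D4 / N) (s := D6 / N) hJ hQ hM0 U Z
        (fun B => (if u ∈ LawB.cov B then -1 else xx) + Xv W (xu H N) B)
        (fun B => (if u ∈ LawB.cov B then -1 else xx) + Xv W (xc H N 2) B)
        hZ herr h4 hXX
      have h6 := hcm |D4| |D6| (by rw [hC]; linarith)
      have h7 : D4 / N ≤ |D4| / N := div_le_div_of_nonneg_right l4 hN0.le
      linarith
    · push Not at hcase
      obtain ⟨hc43, hcm2⟩ := hcase
      refine (min_le_right _ _).trans ?_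
      obtain ⟨f3, f4⟩ := f2 hcm2
      obtain ⟨m, hm⟩ : ∃ m, m = m2 H N u W (xc H N 2) (aw W (xc H N 2)) := ⟨_, rfl⟩
      rw [← hm] at f1 f3 f4
      have hm0 : 0 ≤ m := by
        refine le_trans ?_ f1
        apply div_nonneg _ hN0.le
        exact Finset.sum_nonneg fun F hF =>
          (W_aw_mem hB W (Finset.mem_filter.1 hF).1).1
      obtain ⟨e, he⟩ : ∃ e, e = |C1| * b / (N : ℝ) ^ 2 := ⟨_, rfl⟩
      have he0 : 0 ≤ e := by rw [he]; positivity
      have heC : C1 * b / (N : ℝ) ^ 2 ≤ e := by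
        rw [he]
        apply div_le_div_of_nonneg_right _ (by positivity)
        exact mul_le_mul_of_nonneg_right l9 (by linarith)
      have q := hF V N H w u W xx M e Z (by omega) hB hQ huW hc43 hv hlW hcm2
        (by rw [← hm]; exact f1) hxx hM hMN he0
        (fun B => (hZ B).trans (by norm_num))
        ((hP u huU).trans (by linarith))
        ((hPG u huU (aw W (xc H N 2)) fun F hF => W_aw_mem hB W hF).trans (by linarith))
        (le_trans (by linarith) (hPZ u huU))
      rw [← hm] at q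
      have hcomp := W_comp (u := u) (U := U) (W := W) (xx := xx) (m := m) hJ hB hQ hN8' hl hM Z hZ
        (W_xx hB hc43 hxx) hm0 f3 f4
      rw [← hD7, ← hD8] at hcomp
      have hmono : ev w (fun B => Psi 0 (errv M U B) (Z B)
          ((if u ∈ LawB.cov B then -1 else xx) + Xv W (xc H N 2) B)) ≤
          ev w (fun B => Psi 0 (errv M U B) (Z B)
          ((if u ∈ LawB.cov B then -1 else xx) + Xv W (xu H N) B)) := by
        apply hQ.mono'
        intro B _ _
        exact Psi_mono _ _ _ (hXX B)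
      have h8 : D8 * m / N ≤ 0.004 * m := by
        have hN8'' : 250 * D8 ≤ N := by
          refine hN8.trans ?_
          exact_mod_cast (by omega : N8 ≤ N)
        rw [div_le_iff₀ hN0]
        have h11 := mul_le_mul_of_nonneg_left (show D8 ≤ 0.004 * N by linarith) hm0
        linarith
      have h9 : D7 / (N : ℝ) ^ 2 ≤ |D7| * b / (N : ℝ) ^ 2 := by
        apply div_le_div_of_nonneg_right _ (by positivity)
        exact l7.trans (le_mul_of_one_le_right a7 hb)
      have h10 : 4 * e + |D7| * b / (N : ℝ) ^ 2 ≤ C * b / (N : ℝ) ^ 2 := by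
        rw [he]
        have : 4 * (|C1| * b / (N : ℝ) ^ 2) + |D7| * b / (N : ℝ) ^ 2 =
            (4 * |C1| + |D7|) * b / (N : ℝ) ^ 2 := by ring
        rw [this]
        apply div_le_div_of_nonneg_right _ (by positivity)
        apply mul_le_mul_of_nonneg_right _ (by linarith)
        rw [hC]
        linarith
      linarith

end Pool.Agent.JR
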