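import Mathlib
import Pool.Agent.JR.B0
import Pool.Agent.JR.B1
import Pool.Agent.JR.E1L
import Pool.Agent.JR.E1H
import Pool.Agent.JR.E2
import Pool.Agent.JR.E3Fin
import Pool.Agent.JR.E45
import Pool.Agent.JR.E45a
import Pool.Agent.JR.E45b
import Pool.Agent.JR.E45c
import Pool.Agent.JR.DI45
import Pool.Agent.JR.ERR
import Pool.Agent.JR.F
import Pool.Agent.JR.W

set_option autoImplicit false

namespace Pool.Agent.JR

theorem fin_B0 : StB0 :=
  thm_B0 thm_E1L thm_E1H thm_E2 thm_E3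
    (thm_E45 thm_DI45 thm_45a (thm_45b thm_45a) (thm_45c thm_45a)) thm_ERR

theorem fin_B1 : StB1 :=
  thm_B1 (thm_W thm_E1L thm_E1H thm_E2 thm_E3 (thm_F thm_45a) thm_ERR)

end Pool.Agent.JR
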