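import Pool.Agent.JR.Large

/-!
# JR, section 3: large load, final form
-/

set_option autoImplicit false

namespace Pool.Agent.JR

open Finset
open Pool.Agent.LawB (ev ins ali Law CB NB Conc CC ali_mem ev_add ev_sub ev_smul ev_sum)

variable {V : Type*} [DecidableEq V]

/-- the value of `u` at `v`, capped at ten -/
noncomputable def xl (H : Finset (Finset V)) (N : ℕ) (v u : V) : ℝ :=
  min (((td H u : ℝ) - td H v) / ((N : ℝ) - td H u)) 10

/-- the error term from the marks, for one vertex -/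
noncomputable def rl (H : Finset (Finset V)) (N : ℕ) (v u : V) : ℝ :=
  if bd H v = 0 then 0.16 * ((bd H u : ℝ) / N) else 0

lemma hundred_le_SL {k : ℕ} (hk : 0 < k) : 100 ≤ SL k := by
  have h1 := lc_pos hk
  have h2 := lc_le hk
  unfold SL
  rw [le_div_iff₀ (by positivity)]
  nlinarith

variable {k N : ℕ} {H : Finset (Finset V)}

/-- first mean inequality, for a vertex of `U` -/
lemma vertex_one (hB : Big k N H) (v u : V) (htu : td H v ≤ td H u) (htv : 10 * td H v ≤ 7 * N)
    (p : ℝ) (hp : 1 - (bd H u : ℝ) / (N - bd H v) ≤ p) :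
    0.15 * xl H N v u ≤ (1 + xl H N v u) * p - 1
      + ((td H v : ℝ) - bd H v) / ((N : ℝ) - bd H v) - rl H N v u := by
  have a1 : 2 * (bd H u : ℝ) ≤ td H u := by exact_mod_cast hB.two_bd_le u
  have a2 : 2 * (bd H v : ℝ) ≤ td H v := by exact_mod_cast hB.two_bd_le v
  have a3 : (td H u : ℝ) + 1 ≤ N := by exact_mod_cast hB.deg u
  have a4 : 10 * (td H v : ℝ) ≤ 7 * N := by exact_mod_cast htv
  have a5 : (td H v : ℝ) ≤ td H u := by exact_mod_cast htu
  have a6 : (0 : ℝ) ≤ td H u := by positivity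
  refine mean_one N (td H u) (td H v) (bd H u) (bd H v) (by linarith) (by positivity)
    (by positivity) a1 (by linarith) a2 a4 a5 (rl H N v u) ?_ p hp
  unfold rl
  by_cases hb : bd H v = 0
  · rw [if_pos hb]
    right
    refine ⟨?_, le_rfl⟩
    have h1 := hB.td_le v
    rw [hb, mul_zero] at h1
    have : td H v = 0 := by omega
    rw [this]; simp
  · rw [if_neg hb]
    left
    exact le_rfl

/-- second mean inequality, for a vertex of `U` -/
lemma vertex_two (hB : Big k N H) (v u : V) (htu : td H v ≤ td H u) (htv : 10 * td H v ≤ 7 * N)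
    (p : ℝ) (hp : 1 - (bd H u : ℝ) / (N - bd H v) ≤ p) :
    0 ≤ (1 + xl H N v u / 2) * p - 1 + ((td H v : ℝ) - bd H v) / ((N : ℝ) - bd H v) := by
  have a1 : 2 * (bd H u : ℝ) ≤ td H u := by exact_mod_cast hB.two_bd_le u
  have a2 : 2 * (bd H v : ℝ) ≤ td H v := by exact_mod_cast hB.two_bd_le v
  have a3 : (td H u : ℝ) + 1 ≤ N := by exact_mod_cast hB.deg u
  have a4 : 10 * (td H v : ℝ) ≤ 7 * N := by exact_mod_cast htv
  have a5 : (td H v : ℝ) ≤ td H u := by exact_mod_cast htu
  have a6 : (0 : ℝ) ≤ td H u := by positivity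
  exact mean_two N (td H u) (td H v) (bd H u) (bd H v) (by linarith) (by positivity)
    (by positivity) a1 (by linarith) a2 a4 a5 p hp

lemma p_le (hB : Big k N H) (v u : V) (hN : (0 : ℝ) < N) :
    1 - (bd H u : ℝ) / (N - bd H v) ≤ 1 - (bd H u : ℝ) / N := by
  have a2 : 2 * (bd H v : ℝ) + 1 ≤ N := by exact_mod_cast hB.two_bd_lt v
  have a0 : (0 : ℝ) ≤ bd H v := by positivity
  have h1 : (bd H u : ℝ) / N ≤ (bd H u : ℝ) / (N - bd H v) := by
    apply div_le_div_of_nonneg_left (by positivity) (by linarith) (by linarith)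
  linarith

variable [Fintype V]

/-- section 3 -/
theorem large (hk : 0 < k) {w : Finset (Finset V) → ℝ} (hB : Big k N H)
    (hL : Law (CB k) N H w) (hC : Conc (CC k) N H w) (v : V) (U : Finset V)
    (htu : ∀ u ∈ U, td H v ≤ td H u) (hUM : U.card + td H v ≤ N) (htv : 10 * td H v ≤ 7 * N)
    (hS : SL k ≤ load H N U) (rho z : Finset (Finset V) → ℝ)
    (hrho : ∀ B, B ⊆ H → PD B → v ∉ LawB.cov B →
      -(if bd H v = 0 then 0.16 * load H N U else 0) ≤ rho B)
    (hz : ∀ B, B ⊆ H → PD B → v ∉ LawB.cov B → -0.01 ≤ z B) :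
    0 ≤ ev (wv w v) (fun B => Psi (rho B) (errv ((N : ℝ) - td H v) U B) (z B)
        (Xv U (fun u => ((td H u : ℝ) - td H v) / ((N : ℝ) - td H u)) B))
      + U.card * (((td H v : ℝ) - bd H v) / ((N : ℝ) - bd H v)) := by
  classical
  have hN1 : 1 ≤ N := by have := hB.two_bd_lt v; omega
  have hN : (0 : ℝ) < N := by exact_mod_cast hN1
  have hS100 := (hundred_le_SL hk).trans hS
  set S := load H N U with hSdef
  set M : ℝ := (N : ℝ) - td H v with hM
  set d : ℝ := ((td H v : ℝ) - bd H v) / ((N : ℝ) - bd H v) with hd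
  set D : ℝ := U.card * d with hD
  set R0 : ℝ := if bd H v = 0 then 0.16 * S else 0 with hR0
  set x : V → ℝ := xl H N v with hx
  set h' : ℝ := ∑ u ∈ U, x u with hh'
  have hQ := qlaw_v hk hB hL v
  -- elementary facts
  have a2 : 2 * (bd H v : ℝ) ≤ td H v := by exact_mod_cast hB.two_bd_le v
  have a4 : 10 * (td H v : ℝ) ≤ 7 * N := by exact_mod_cast htv
  have a0 : (0 : ℝ) ≤ bd H v := by positivity
  have hd0 : 0 ≤ d := div_nonneg (by linarith) (by linarith)
  have hD0 : 0 ≤ D := by positivity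
  have hUcard : (U.card : ℝ) ≤ M := by
    have : ((U.card + td H v : ℕ) : ℝ) ≤ N := by exact_mod_cast hUM
    push_cast at this
    linarith
  have hx0 : ∀ u ∈ U, 0 ≤ x u ∧ x u ≤ 10 := by
    intro u hu
    have b1 : (td H u : ℝ) + 1 ≤ N := by exact_mod_cast hB.deg u
    have b2 : (td H v : ℝ) ≤ td H u := by exact_mod_cast htu u hu
    refine ⟨le_min (div_nonneg (by linarith) (by linarith)) (by norm_num), min_le_right _ _⟩
  have hh0 : 0 ≤ h' := Finset.sum_nonneg fun u hu => (hx0 u hu).1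
  have hβ : ∀ u, (bd H u : ℝ) / N ≤ 1 / 2 := by
    intro u
    have : 2 * (bd H u : ℝ) + 1 ≤ N := by exact_mod_cast hB.two_bd_lt u
    rw [div_le_iff₀ hN]; linarith
  have hβ0 : ∀ u, 0 ≤ (bd H u : ℝ) / N := fun u => by positivity
  have hSU : S ≤ U.card / 2 := by
    rw [hSdef]
    unfold load
    have : ∑ u ∈ U, (bd H u : ℝ) / N ≤ ∑ _u ∈ U, (1 / 2 : ℝ) :=
      Finset.sum_le_sum fun u _ => hβ u
    rw [Finset.sum_const, nsmul_eq_mul] at this
    linarith
  have hSM : 2 * S ≤ M := by linarith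
  have hM0 : 0 < M := by linarith
  have hR00 : 0 ≤ R0 := by
    rw [hR0]; split_ifs
    · linarith
    · exact le_rfl
  have hR0sum : ∑ u ∈ U, rl H N v u = R0 := by
    rw [hR0]
    unfold rl
    by_cases hb : bd H v = 0
    · simp only [if_pos hb]
      rw [← Finset.mul_sum]
      rfl
    · simp only [if_neg hb]
      simp
  have hη : ∀ u ∈ U, x u ≤ ((td H u : ℝ) - td H v) / ((N : ℝ) - td H u) :=
    fun u _ => min_le_left _ _
  -- the pointwise lower bound
  have point : ∀ B, B ⊆ H.filter (fun F => v ∉ F) → PD B →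
      min (Xv U x B - R0) (min (min ((Xv U x B - 2 * Yv U B / M) / 2)
        ((Xv U x B - 2 * Yv U B / M - Yv U B + 0.45 * M) / 2)) 0.99)
      ≤ Psi (rho B) (errv M U B) (z B)
        (Xv U (fun u => ((td H u : ℝ) - td H v) / ((N : ℝ) - td H u)) B) := by
    intro B hBH hPD
    have hBH' : B ⊆ H := hBH.trans (Finset.filter_subset _ _)
    have hv : v ∉ LawB.cov B := by
      intro hv
      obtain ⟨F, hF, hvF⟩ := Finset.mem_biUnion.1 hv
      exact (Finset.mem_filter.1 (hBH hF)).2 hvF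
    have h1 := hrho B hBH' hPD hv
    have h2 := hz B hBH' hPD hv
    refine le_trans ?_ (Psi_mono _ _ _ (Xv_mono U x _ hη B))
    unfold Psi
    refine min_le_min (by linarith) (min_le_min ?_ (by linarith))
    unfold errv
    rcases le_total (Yv U B) (0.45 * M) with hc | hc
    · rw [max_eq_left (by linarith)]
      refine (min_le_left _ _).trans (le_of_eq ?_)
      ring
    · rw [max_eq_right (by linarith)]
      refine (min_le_right _ _).trans (le_of_eq ?_)
      ring
  have hY0 : ∀ B, 0 ≤ Yv U B := fun B => by unfold Yv; positivity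
  have hYM : ∀ B, Yv U B / M ≤ 1 := by
    intro B
    rw [div_le_one hM0]
    refine le_trans ?_ hUcard
    unfold Yv
    exact_mod_cast Finset.card_le_card Finset.inter_subset_left
  -- the mean values
  have meanA : 0.15 * h' - D ≤ ∑ u ∈ U, ((1 + x u) * (1 - (bd H u : ℝ) / N) - 1) - R0 := by
    have h1 : ∑ u ∈ U, 0.15 * x u ≤ ∑ u ∈ U, (((1 + x u) * (1 - (bd H u : ℝ) / N) - 1)
        + d - rl H N v u) := by
      apply Finset.sum_le_sum
      intro u hu
      have := vertex_one hB v u (htu u hu) htv _ (p_le hB v u hN)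
      linarith
    rw [Finset.sum_sub_distrib, Finset.sum_add_distrib, hR0sum, ← Finset.mul_sum,
      Finset.sum_const, nsmul_eq_mul] at h1
    linarith
  have meanB : S / 2 - D ≤ ∑ u ∈ U, (x u / 2 - (bd H u : ℝ) / N * ((1 + x u) / 2)) := by
    have h1 : ∑ u ∈ U, (0 : ℝ) ≤ ∑ u ∈ U, ((x u / 2 - (bd H u : ℝ) / N * ((1 + x u) / 2))
        - 1 / 2 * ((bd H u : ℝ) / N) + d) := by
      apply Finset.sum_le_sum
      intro u hu
      have := vertex_two hB v u (htu u hu) htv _ (p_le hB v u hN)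
      linarith
    rw [Finset.sum_add_distrib, Finset.sum_sub_distrib, ← Finset.mul_sum,
      Finset.sum_const, nsmul_eq_mul, Finset.sum_const, nsmul_eq_mul, mul_zero] at h1
    have : ∑ u ∈ U, (bd H u : ℝ) / N = S := rfl
    rw [this] at h1
    linarith
  rcases le_total h' (S / 2) with hcase | hcase
  · -- case I
    have h1 : ev (wv w v) (fun B => (Xv U x B - R0)
        - (2 * h') * (if Yv U B < 0.8 * S then 1 else 0))
        ≤ ev (wv w v) (fun B => Psi (rho B) (errv M U B) (z B)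
        (Xv U (fun u => ((td H u : ℝ) - td H v) / ((N : ℝ) - td H u)) B)) := by
      apply hQ.mono'
      intro B hBH hPD
      refine le_trans ?_ (point B hBH hPD)
      have hX : Xv U x B ≤ h' - Yv U B := by
        rw [Xv_eq, Yv_eq]
        have : ∑ u ∈ U ∩ LawB.cov B, (1 : ℝ) ≤ ∑ u ∈ U ∩ LawB.cov B, (1 + x u) :=
          Finset.sum_le_sum fun u hu => by
            have := (hx0 u (Finset.mem_inter.1 hu).1).1
            linarith
        linarith
      have hy0 := hY0 B
      have hy1 := hYM B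
      have e2 : 2 * Yv U B / M = 2 * (Yv U B / M) := by ring
      rw [e2]
      have hq0 : 0 ≤ Yv U B / M := by positivity
      by_cases hYS : Yv U B < 0.8 * S
      · rw [if_pos hYS]
        have hq : Yv U B / M ≤ Yv U B / 2 :=
          div_le_div_of_nonneg_left hy0 (by norm_num) (by linarith)
        refine le_min (by linarith) (le_min (le_min ?_ ?_) ?_)
        · linarith
        · linarith
        · linarith
      · rw [if_neg hYS]
        push Not at hYS
        refine le_min (by linarith) (le_min (le_min ?_ ?_) ?_)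
        · linarith
        · linarith
        · linarith
    have h2 : ev (wv w v) (fun B => (Xv U x B - R0)
        - (2 * h') * (if Yv U B < 0.8 * S then 1 else 0))
        = ev (wv w v) (fun B => Xv U x B) - R0
          - (2 * h') * ev (wv w v) (fun B => if Yv U B < 0.8 * S then 1 else 0) := by
      rw [ev_sub (wv w v) (fun B => Xv U x B - R0)
        (fun B => (2 * h') * (if Yv U B < 0.8 * S then 1 else 0)), ev_smul,
        ev_sub (wv w v) (fun B => Xv U x B) (fun _ => R0), hQ.const']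
    have h3 : 0.15 * h' - D ≤ ev (wv w v) (fun B => Xv U x B) - R0 := by
      have e1 : ev (wv w v) (fun B => Xv U x B)
          = ∑ u ∈ U, ((1 + x u) * ev (wv w v) (ali {u}) - 1) := by
        have e2 : (fun B => Xv U x B) = fun B => ∑ u ∈ U, ((1 + x u) * ali {u} B - 1) := by
          funext B; exact Xv_eq_ali U x B
        rw [e2, ev_sum]
        apply Finset.sum_congr rfl
        intro u _
        rw [ev_sub (wv w v) (fun B => (1 + x u) * ali {u} B) (fun _ => 1), ev_smul, hQ.const']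
      rw [e1]
      have h1 : ∑ u ∈ U, 0.15 * x u ≤ ∑ u ∈ U, (((1 + x u) * ev (wv w v) (ali {u}) - 1)
          + d - rl H N v u) := by
        apply Finset.sum_le_sum
        intro u hu
        have := vertex_one hB v u (htu u hu) htv _ (free_cond hB hL v u)
        linarith
      rw [Finset.sum_sub_distrib, Finset.sum_add_distrib, hR0sum, ← Finset.mul_sum,
        Finset.sum_const, nsmul_eq_mul] at h1
      linarith
    have h4 := cond_low hk hB hL hC v U hS
    rw [← hSdef] at h4
    have h5 := mul_le_mul_of_nonneg_left h4 (by linarith : 0 ≤ 2 * h')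
    rw [h2] at h1
    linarith
  · -- case II
    set s : ℝ := min 0.99 (0.01 * S - D) with hs
    have hs1 : s ≤ 0.99 := min_le_left _ _
    have hs2 : s ≤ 0.01 * S - D := min_le_right _ _
    have hs3 : 0.99 ≤ s + D := by
      rw [hs]
      rcases le_total (0.99 : ℝ) (0.01 * S - D) with hc | hc
      · rw [min_eq_left hc]; linarith
      · rw [min_eq_right hc]; linarith
    have hMinv : 0 ≤ 1 / M ∧ 1 / M ≤ 1 := by
      refine ⟨by positivity, ?_⟩
      rw [div_le_one hM0]; linarith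
    have hSM' : S * (1 / M) ≤ 1 / 2 := by
      rw [mul_one_div, div_le_iff₀ hM0]; linarith
    set g1 : V → ℝ := fun u => 1 + x u with hg1
    set g2 : V → ℝ := fun u => (1 + x u) / 2 + 1 / M with hg2
    set g3 : V → ℝ := fun u => (1 + x u) / 2 + 1 / M + 1 / 2 with hg3
    have b1 : ∀ u ∈ U, 0 ≤ g1 u ∧ g1 u ≤ 12 := by
      intro u hu
      have := hx0 u hu
      rw [hg1]
      constructor <;> (beta_reduce; linarith)
    have b2 : ∀ u ∈ U, 0 ≤ g2 u ∧ g2 u ≤ 12 := by
      intro u hu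
      have := hx0 u hu
      rw [hg2]
      constructor <;> (beta_reduce; linarith [hMinv.1, hMinv.2])
    have b3 : ∀ u ∈ U, 0 ≤ g3 u ∧ g3 u ≤ 12 := by
      intro u hu
      have := hx0 u hu
      rw [hg3]
      constructor <;> (beta_reduce; linarith [hMinv.1, hMinv.2])
    have hSsum : ∑ u ∈ U, (bd H u : ℝ) / N = S := rfl
    -- the gaps
    have m1 : ∑ u ∈ U, (bd H u : ℝ) / N * g1 u
        = h' - ∑ u ∈ U, ((1 + x u) * (1 - (bd H u : ℝ) / N) - 1) := by
      rw [hh', ← Finset.sum_sub_distrib]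
      apply Finset.sum_congr rfl
      intro u _
      rw [hg1]; beta_reduce; ring
    have m2 : ∑ u ∈ U, (bd H u : ℝ) / N * g2 u
        = h' / 2 - ∑ u ∈ U, (x u / 2 - (bd H u : ℝ) / N * ((1 + x u) / 2)) + S * (1 / M) := by
      rw [hh', Finset.sum_div, ← Finset.sum_sub_distrib, ← hSsum, Finset.sum_mul,
        ← Finset.sum_add_distrib]
      apply Finset.sum_congr rfl
      intro u _
      rw [hg2]; beta_reduce; ring
    have m3 : ∑ u ∈ U, (bd H u : ℝ) / N * g3 u
        = h' / 2 - ∑ u ∈ U, (x u / 2 - (bd H u : ℝ) / N * ((1 + x u) / 2)) + S * (1 / M)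
          + S * (1 / 2) := by
      rw [hh', Finset.sum_div, ← Finset.sum_sub_distrib, ← hSsum, Finset.sum_mul,
        Finset.sum_mul, ← Finset.sum_add_distrib, ← Finset.sum_add_distrib]
      apply Finset.sum_congr rfl
      intro u _
      rw [hg3]; beta_reduce; ring
    have c1 := cond_excess hk hB hL hC v U g1 b1
      ((h' - R0) - ∑ u ∈ U, (bd H u : ℝ) / N * g1 u - s) (by rw [m1]; linarith) hS
    have c2 := cond_excess hk hB hL hC v U g2 b2
      (h' / 2 - ∑ u ∈ U, (bd H u : ℝ) / N * g2 u - s) (by rw [m2]; linarith) hS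
    have c3 := cond_excess hk hB hL hC v U g3 b3
      ((h' / 2 + 0.225 * M) - ∑ u ∈ U, (bd H u : ℝ) / N * g3 u - s) (by rw [m3]; linarith) hS
    have h1 : ev (wv w v) (fun B => ((s
        - max 0 (∑ u ∈ U ∩ LawB.cov B, g1 u - ∑ u ∈ U, (bd H u : ℝ) / N * g1 u
          - ((h' - R0) - ∑ u ∈ U, (bd H u : ℝ) / N * g1 u - s)))
        - max 0 (∑ u ∈ U ∩ LawB.cov B, g2 u - ∑ u ∈ U, (bd H u : ℝ) / N * g2 u
          - (h' / 2 - ∑ u ∈ U, (bd H u : ℝ) / N * g2 u - s)))
        - max 0 (∑ u ∈ U ∩ LawB.cov B, g3 u - ∑ u ∈ U, (bd H u : ℝ) / N * g3 u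
          - ((h' / 2 + 0.225 * M) - ∑ u ∈ U, (bd H u : ℝ) / N * g3 u - s)))
        ≤ ev (wv w v) (fun B => Psi (rho B) (errv M U B) (z B)
        (Xv U (fun u => ((td H u : ℝ) - td H v) / ((N : ℝ) - td H u)) B)) := by
      apply hQ.mono'
      intro B hBH hPD
      refine le_trans ?_ (point B hBH hPD)
      have e1 : ∑ u ∈ U ∩ LawB.cov B, g1 u = h' - Xv U x B := by
        rw [Xv_eq]; ring
      have e2 : ∑ u ∈ U ∩ LawB.cov B, g2 u = (h' - Xv U x B) / 2 + Yv U B * (1 / M) := by
        rw [Xv_eq, Yv_eq, Finset.sum_mul]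
        have e3 : (h' - (∑ u ∈ U, x u - ∑ u ∈ U ∩ LawB.cov B, (1 + x u))) / 2
            = ∑ u ∈ U ∩ LawB.cov B, (1 + x u) / 2 := by
          rw [← Finset.sum_div]; ring
        rw [e3, ← Finset.sum_add_distrib]
        apply Finset.sum_congr rfl
        intro u _
        rw [hg2]; beta_reduce; ring
      have e3 : ∑ u ∈ U ∩ LawB.cov B, g3 u
          = (h' - Xv U x B) / 2 + Yv U B * (1 / M) + Yv U B * (1 / 2) := by
        have e4 : ∑ u ∈ U ∩ LawB.cov B, g3 u
            = ∑ u ∈ U ∩ LawB.cov B, g2 u + ∑ u ∈ U ∩ LawB.cov B, (1 : ℝ) * (1 / 2) := by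
          rw [← Finset.sum_add_distrib]
          apply Finset.sum_congr rfl
          intro u _
          rw [hg2, hg3]; beta_reduce; ring
        rw [e4, e2, ← Finset.sum_mul, ← Yv_eq]
      rw [e1, e2, e3]
      have f1 := le_max_left (0 : ℝ) (h' - Xv U x B - ∑ u ∈ U, (bd H u : ℝ) / N * g1 u
          - ((h' - R0) - ∑ u ∈ U, (bd H u : ℝ) / N * g1 u - s))
      have f1' := le_max_right (0 : ℝ) (h' - Xv U x B - ∑ u ∈ U, (bd H u : ℝ) / N * g1 u
          - ((h' - R0) - ∑ u ∈ U, (bd H u : ℝ) / N * g1 u - s))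
      have f2 := le_max_left (0 : ℝ) ((h' - Xv U x B) / 2 + Yv U B * (1 / M)
          - ∑ u ∈ U, (bd H u : ℝ) / N * g2 u
          - (h' / 2 - ∑ u ∈ U, (bd H u : ℝ) / N * g2 u - s))
      have f2' := le_max_right (0 : ℝ) ((h' - Xv U x B) / 2 + Yv U B * (1 / M)
          - ∑ u ∈ U, (bd H u : ℝ) / N * g2 u
          - (h' / 2 - ∑ u ∈ U, (bd H u : ℝ) / N * g2 u - s))
      have f3 := le_max_left (0 : ℝ) ((h' - Xv U x B) / 2 + Yv U B * (1 / M) + Yv U B * (1 / 2)
          - ∑ u ∈ U, (bd H u : ℝ) / N * g3 u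
          - ((h' / 2 + 0.225 * M) - ∑ u ∈ U, (bd H u : ℝ) / N * g3 u - s))
      have f3' := le_max_right (0 : ℝ) ((h' - Xv U x B) / 2 + Yv U B * (1 / M) + Yv U B * (1 / 2)
          - ∑ u ∈ U, (bd H u : ℝ) / N * g3 u
          - ((h' / 2 + 0.225 * M) - ∑ u ∈ U, (bd H u : ℝ) / N * g3 u - s))
      have e2' : 2 * Yv U B / M = 2 * (Yv U B * (1 / M)) := by ring
      rw [e2']
      refine le_min (by linarith) (le_min (le_min ?_ ?_) ?_)
      · linarith
      · linarith
      · linarith
    have hsplit : ∀ P1 P2 P3 : Finset (Finset V) → ℝ,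
        ev (wv w v) (fun B => ((s - P1 B) - P2 B) - P3 B)
          = s - ev (wv w v) P1 - ev (wv w v) P2 - ev (wv w v) P3 := by
      intro P1 P2 P3
      rw [ev_sub (wv w v) (fun B => (s - P1 B) - P2 B) P3,
        ev_sub (wv w v) (fun B => s - P1 B) P2, ev_sub (wv w v) (fun _ => s) P1, hQ.const']
    have h2 := (hsplit _ _ _).symm.le.trans h1
    linarith

end Pool.Agent.JR
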