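import Mathlib
import Pool.Agent.JR.St
import Pool.Agent.JR.St4
import Pool.Agent.JR.St45
import Pool.Agent.JR.StF

/-!
# JR: targets of the assembly
-/

set_option autoImplicit false

namespace Pool.Agent.JR

open Finset
open Pool.Agent.LawB (ev ins ali Law)

/-- the mean of `err` is small -/
def StERR : Prop := ∀ (k : ℕ) (K S0 : ℝ), ∃ C : ℝ, ∀ (V : Type) [Fintype V] [DecidableEq V]
  (N : ℕ) (H : Finset (Finset V)) (w : Finset (Finset V) → ℝ) (U : Finset V) (M : ℝ), 0 < N →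
  Big k N H → QLaw K N H w → load H N U ≤ S0 → 0.3 * N ≤ M → M ≤ N →
  ev w (errv M U) ≤ C / N

/-- the properties of `sp z = Sp(v,z)`, for `b_v = 0` and `U ⊆ hi v` -/
structure SpP {V : Type*} [DecidableEq V] (N : ℕ) (H : Finset (Finset V)) (U : Finset V)
    (sp : V → Finset V) : Prop where
  two : ∀ z ∈ U, (sp z).Nonempty → bd H z ≤ 2
  tri : ∀ z ∈ U, ∀ y ∈ sp z, 9 * N ≤ 20 * bd H y ∧ ∃ x, ¬ vh H N x ∧
    ({y, z, x} : Finset V) ∈ H ∧ ({y, z, x} : Finset V).card = 3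
  comp : ∀ z ∈ U, bd H z ≤ 2 → ∀ y ∈ U, 9 * N ≤ 20 * bd H y → ∀ x, ¬ vh H N x →
    ({y, z, x} : Finset V) ∈ H → ({y, z, x} : Finset V).card = 3 → y ∈ sp z

/-- the case `b_v = 0` -/
def StB0 : Prop := ∀ (k : ℕ) (K S0 : ℝ), ∃ N0 : ℕ, ∀ (V : Type) [Fintype V] [DecidableEq V]
  (N : ℕ) (H : Finset (Finset V)) (w : Finset (Finset V) → ℝ) (U : Finset V)
  (sp : V → Finset V), N0 ≤ N → Big k N H → QLaw K N H w → (∀ F ∈ H, ev w (ins {F}) = 1 / N) →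
  SpP N H U sp → load H N U ≤ S0 → 0.9 < ∑ z ∈ U, xu H N z →
  0 ≤ ev w (fun B => Psi (rho H N U sp B) (errv N U B) 0 (Xv U (xu H N) B))

/-- lower bounds for the sets `W` of the thresholds, `b_v ≥ 1`: `b` is `b_v`, all `z ∈ W` have
`t_z > t_v ≥ 2`; `e = C b_v / N ^ 2` -/
def StW : Prop := ∀ (k : ℕ) (K S0 C1 : ℝ), ∃ (c C : ℝ) (N0 : ℕ), 0 < c ∧ ∀ (V : Type) [Fintype V]
  [DecidableEq V] (N : ℕ) (H : Finset (Finset V)) (w : Finset (Finset V) → ℝ) (U W : Finset V)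
  (M b : ℝ) (Z : Finset (Finset V) → ℝ), N0 ≤ N → Big k N H → QLaw K N H w → W ⊆ U →
  load H N U ≤ S0 → (∀ z ∈ W, 3 ≤ td H z) → 0.3 * N ≤ M → M ≤ N → 1 ≤ b → b ≤ N →
  (∀ B, |Z B| ≤ 0.008) →
  (∀ u ∈ U, ev w (fun B => if u ∈ LawB.cov B then 1 else 0) ≤
    (bd H u : ℝ) / N + C1 * b / (N : ℝ) ^ 2) →
  (∀ u ∈ U, ∀ a : Finset V → ℝ, (∀ F ∈ H, 0 ≤ a F ∧ a F ≤ 3 * k) →
    ∑ G ∈ HG H u, a G * ev w (ins {G}) ≤ (∑ G ∈ HG H u, a G) / N + C1 * b / (N : ℝ) ^ 2) →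
  (∀ u ∈ U, -(C1 * b / (N : ℝ) ^ 2) ≤ ev w (fun B => if u ∈ LawB.cov B then 0 else Z B)) →
  ((∀ z ∈ W, ¬ vh H N z) → -C / N ≤
      ev w (fun B => Psi 0 (errv M U B) (Z B) (Xv W (xu H N) B))) ∧
  ((∀ z ∈ W, ¬ vh H N z) → 0.45 ≤ ∑ z ∈ W, xu H N z → c - C / N ≤
      ev w (fun B => Psi 0 (errv M U B) (Z B) (Xv W (xu H N) B))) ∧
  (∀ u₁ ∈ W, ∀ u₂ ∈ W, u₁ ≠ u₂ → vh H N u₁ → vh H N u₂ → 0.04 - C / N ≤
      ev w (fun B => Psi 0 (errv M U B) (Z B) (Xv W (xu H N) B))) ∧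
  (∀ u ∈ U, u ∉ W → vh H N u → (∀ z ∈ W, ¬ vh H N z) → ∀ xx : ℝ,
    min (2 * (bd H u : ℝ) / (N - 2 * bd H u)) 20 - 0.01 ≤ xx →
    min (0.005 - C / N) (1 - 2 * (bd H u : ℝ) / N - C * b / (N : ℝ) ^ 2) ≤
      ev w (fun B => Psi 0 (errv M U B) (Z B)
        ((if u ∈ LawB.cov B then -1 else xx) + Xv W (xu H N) B)))

/-- the case `b_v ≥ 1`; `H` is the set of the big edges without `v`, `t = t_v`, `b = b_v` -/
def StB1 : Prop := ∀ (k : ℕ) (K S0 C1 : ℝ), ∃ N0 : ℕ, ∀ (V : Type) [Fintype V]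
  [DecidableEq V] (N : ℕ) (H : Finset (Finset V)) (w : Finset (Finset V) → ℝ) (U : Finset V)
  (t b : ℕ) (Z : Finset (Finset V) → ℝ), N0 ≤ N → Big k N H → QLaw K N H w →
  load H N U ≤ S0 → (∀ z ∈ U, t ≤ td H z) → 1 ≤ b → 2 * b ≤ t → 10 * t ≤ 7 * N →
  (∀ B, |Z B| ≤ 0.008) →
  (∀ u ∈ U, ev w (fun B => if u ∈ LawB.cov B then 1 else 0) ≤ (bd H u : ℝ) / (N - b)) →
  (∀ u ∈ U, ev w (fun B => if u ∈ LawB.cov B then 1 else 0) ≤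
    (bd H u : ℝ) / N + C1 * b / (N : ℝ) ^ 2) →
  (∀ u ∈ U, ∀ a : Finset V → ℝ, (∀ F ∈ H, 0 ≤ a F ∧ a F ≤ 3 * k) →
    ∑ G ∈ HG H u, a G * ev w (ins {G}) ≤ (∑ G ∈ HG H u, a G) / N + C1 * b / (N : ℝ) ^ 2) →
  (∀ u ∈ U, -(C1 * b / (N : ℝ) ^ 2) ≤ ev w (fun B => if u ∈ LawB.cov B then 0 else Z B)) →
  0.9 < ∑ z ∈ U, ((td H z : ℝ) - t) / (N - td H z) →
  0 ≤ ev w (fun B => Psi 0 (errv ((N : ℝ) - t) U B) (Z B)
      (Xv U (fun z => ((td H z : ℝ) - t) / (N - td H z)) B)) +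
    U.card * (((t : ℝ) - b) / (N - b))

end Pool.Agent.JR
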