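import Mathlib

set_option autoImplicit false

namespace Pool.Agent.JR

open Finset

/-- the main theorem -/
def StMain : Prop := ∀ k : ℕ, ∃ D0 : ℕ, ∀ (V : Type) [Fintype V] [DecidableEq V]
  (H : Finset (Finset V)) (D : ℕ), D0 ≤ D → (∀ E ∈ H, E.card ≤ k) →
  (∀ E ∈ H, ∀ F ∈ H, E ≠ F → (E ∩ F).card ≤ 1) →
  (∀ x, ∑ E ∈ H.filter (fun E => x ∈ E), (E.card - 1) ≤ D) →
  ∀ w : Finset V → ℝ, (∀ E ∈ H, 0 ≤ w E) →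
  ∃ M : Finset (Finset V), M ⊆ H ∧ (∀ E ∈ M, ∀ F ∈ M, E ≠ F → Disjoint E F) ∧
    (∑ E ∈ H, w E) / ((D : ℝ) + 1) ≤ ∑ E ∈ M, w E

end Pool.Agent.JR
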