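import Pool.Agent.JR.Reduce
import Pool.Agent.JR.Large2
import Pool.Agent.JR.Cond2
import Pool.Agent.JR.C1
import Pool.Agent.JR.C3
import Pool.Agent.JR.StA
import Pool.Agent.JR.StM

/-!
# JR: the main theorem from the two cases `StB0`, `StB1`
-/

set_option autoImplicit false

namespace Pool.Agent.JR

open Finset
open Pool.Agent.FBR
open Pool.Agent.LawB (ev ins ali Law Conc CB CC NB)

variable {V : Type*} [Fintype V] [DecidableEq V]

theorem big_bigs {H : Finset (Finset V)} {D k : ℕ}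
    (hD : ∀ x, ∑ E ∈ H.filter (fun E => x ∈ E), (E.card - 1) ≤ D)
    (hk : ∀ E ∈ H, E.card ≤ k) (hlin : ∀ E ∈ H, ∀ F ∈ H, E ≠ F → (E ∩ F).card ≤ 1) :
    Big k (D + 1) (bigs H) where
  three := fun F hF => (mem_filter.1 hF).2
  card := fun F hF => hk F (mem_filter.1 hF).1
  lin := fun F hF G hG => hlin F (mem_filter.1 hF).1 G (mem_filter.1 hG).1
  deg := fun x => by
    rw [← t3_eq]
    exact Nat.succ_le_succ (t3_le hD x)

theorem big_filter {H : Finset (Finset V)} {k N : ℕ} (h : Big k N H)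
    (p : Finset V → Prop) [DecidablePred p] : Big k N (H.filter p) where
  three := fun F hF => h.three F (mem_filter.1 hF).1
  card := fun F hF => h.card F (mem_filter.1 hF).1
  lin := fun F hF G hG => h.lin F (mem_filter.1 hF).1 G (mem_filter.1 hG).1
  deg := fun x => by
    refine le_trans (Nat.succ_le_succ ?_) (h.deg x)
    unfold td
    exact sum_le_sum_of_subset (filter_subset_filter _ (filter_subset _ _))

theorem bd_bigs (H : Finset (Finset V)) (x : V) : bd (bigs H) x = b3 H x := (b3_eq H x).symm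

theorem td_bigs (H : Finset (Finset V)) (x : V) : td (bigs H) x = t3 H x := (t3_eq H x).symm

/-- The vertices joined to `v` by an edge of size two are in no big edge with `v`. -/
theorem no_big {H : Finset (Finset V)}
    (hlin : ∀ E ∈ H, ∀ F ∈ H, E ≠ F → (E ∩ F).card ≤ 1) {r : V → ℕ} {v u : V}
    (hu : u ∈ hi H r v) {F : Finset V} (hF : F ∈ bigs H) (hvF : v ∈ F) (huF : u ∈ F) : False := by
  have h1 := (mem_filter.1 hu).2.1
  have hne := hi_ne hu
  have h2 := mem_filter.1 hF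
  have h3 : ({v, u} : Finset V).card = 2 := card_pair hne
  have h4 : ({v, u} : Finset V) ≠ F := fun h => by
    have := h2.2
    rw [← h, h3] at this
    omega
  have h5 := hlin _ h1 F h2.1 h4
  have h6 : ({v, u} : Finset V) ⊆ {v, u} ∩ F := by
    intro z hz
    rw [mem_inter]
    refine ⟨hz, ?_⟩
    rw [mem_insert, mem_singleton] at hz
    rcases hz with rfl | rfl
    · exact hvF
    · exact huF
  have h7 := card_le_card h6
  omega

theorem filter_off {H : Finset (Finset V)}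
    (hlin : ∀ E ∈ H, ∀ F ∈ H, E ≠ F → (E ∩ F).card ≤ 1) {r : V → ℕ} {v u : V}
    (hu : u ∈ hi H r v) :
    ((bigs H).filter fun F => v ∉ F).filter (fun F => u ∈ F) = (bigs H).filter fun F => u ∈ F := by
  ext F
  rw [mem_filter, mem_filter, mem_filter]
  constructor
  · rintro ⟨⟨h1, -⟩, h2⟩
    exact ⟨h1, h2⟩
  · rintro ⟨h1, h2⟩
    exact ⟨⟨h1, fun hv => no_big hlin hu h1 hv h2⟩, h2⟩

/-- `Z` for all sets of edges. -/
noncomputable def Zf (H : Finset (Finset V)) (r : V → ℕ) (N : ℝ) (v : V)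
    (B : Finset (Finset V)) : ℝ :=
  Mv H N v / N ^ 2 * ∑ u, (nn H r N u v : ℝ) * (omc H N u * -sg (cov B) u)

/-- The special vertices of `v`. -/
noncomputable def Pf (H : Finset (Finset V)) (r : V → ℕ) (N : ℝ) (v : V) : Finset V :=
  univ.filter fun u => nn H r N u v ≠ 0

theorem Pf_card {H : Finset (Finset V)} {r : V → ℕ} {N : ℝ} (hN5 : 5 ≤ N) (v : V) :
    (Pf H r N v).card ≤ 2 := by
  classical
  unfold Pf
  by_cases hv : b3 H v ≤ 2
  · refine (Tr_card (by linarith) (not_crit_of_le hN5 hv) _ fun u hu => ?_).trans hv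
    by_contra hcon
    exact (mem_filter.1 hu).2 (nn_eq_zero fun h => hcon h.2.2)
  · have h7 : univ.filter (fun u => nn H r N u v ≠ 0) = ∅ := by
      rw [filter_eq_empty_iff]
      intro u _ h8
      exact h8 (nn_eq_zero fun h => hv h.2.1)
    rw [h7, card_empty]
    exact Nat.zero_le _

theorem Pf_Tr {H : Finset (Finset V)} {r : V → ℕ} {N : ℝ} {v u : V} (hu : u ∈ Pf H r N v) :
    1 ≤ b3 H v ∧ b3 H v ≤ 2 ∧ Tr H N v u := by
  by_contra hcon
  exact (mem_filter.1 hu).2 (nn_eq_zero hcon)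

theorem Zf_eq_sum (H : Finset (Finset V)) (r : V → ℕ) (N : ℝ) (v : V) (B : Finset (Finset V)) :
    Zf H r N v B = ∑ u ∈ Pf H r N v, (Mv H N v * nn H r N u v / N ^ 2) * omc H N u *
      (if u ∈ LawB.cov B then -1 else 1) := by
  classical
  unfold Zf Pf
  rw [sum_filter, mul_sum]
  refine sum_congr rfl fun u _ => ?_
  have h1 : -sg (cov B) u = if u ∈ LawB.cov B then (-1 : ℝ) else 1 := by
    unfold sg
    by_cases h : u ∈ LawB.cov B
    · have h' : u ∈ cov B := h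
      rw [if_pos h, if_pos h']
    · have h' : ¬ u ∈ cov B := h
      rw [if_neg h, if_neg h', neg_neg]
  rw [h1]
  by_cases h2 : nn H r N u v = 0
  · rw [if_neg (not_not.2 h2), h2, Nat.cast_zero]
    ring
  · rw [if_pos h2]
    ring

section facts

variable {H : Finset (Finset V)} {D : ℕ}
  (hD : ∀ x, ∑ E ∈ H.filter (fun E => x ∈ E), (E.card - 1) ≤ D) (hD4 : 4 ≤ D)
  {r : V → ℕ} (hr : Function.Injective r)

include hD hr in
theorem nu_le (v u : V) :
    0 ≤ Mv H ((D : ℝ) + 1) v * nn H r ((D : ℝ) + 1) u v / ((D : ℝ) + 1) ^ 2 ∧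
    Mv H ((D : ℝ) + 1) v * nn H r ((D : ℝ) + 1) u v / ((D : ℝ) + 1) ^ 2 ≤
      rr H ((D : ℝ) + 1) u := by
  have hN : (0 : ℝ) < (D : ℝ) + 1 := by positivity
  have h1 := nn_le hD hr u v
  have h2 := one_le_Mv hD v
  have h3 := Mv_le hD v
  have h4 : (0 : ℝ) ≤ nn H r ((D : ℝ) + 1) u v := Nat.cast_nonneg _
  refine ⟨by positivity, ?_⟩
  rw [div_le_iff₀ (by positivity)]
  calc Mv H ((D : ℝ) + 1) v * nn H r ((D : ℝ) + 1) u v ≤
        ((D : ℝ) + 1) * (rr H ((D : ℝ) + 1) u * ((D : ℝ) + 1)) :=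
        mul_le_mul h3 h1 h4 hN.le
    _ = rr H ((D : ℝ) + 1) u * ((D : ℝ) + 1) ^ 2 := by ring

include hD hD4 hr in
theorem Zf_abs (v : V) (B : Finset (Finset V)) : |Zf H r ((D : ℝ) + 1) v B| ≤ 0.008 := by
  have hN5 : 5 ≤ (D : ℝ) + 1 := by
    have : (4 : ℝ) ≤ D := by exact_mod_cast hD4
    linarith
  rw [Zf_eq_sum]
  refine (abs_sum_le_sum_abs _ _).trans ?_
  have h1 : ∀ u ∈ Pf H r ((D : ℝ) + 1) v,
      |(Mv H ((D : ℝ) + 1) v * nn H r ((D : ℝ) + 1) u v / ((D : ℝ) + 1) ^ 2) *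
        omc H ((D : ℝ) + 1) u * (if u ∈ LawB.cov B then -1 else 1)| ≤ 1 / 250 := by
    intro u hu
    have hc : crit H ((D : ℝ) + 1) u := (Pf_Tr hu).2.2.1
    obtain ⟨h2, h3⟩ := nu_le hD hr v u
    have h4 := rr_mul_omc_le hD u hc
    have h5 := omc_nonneg H ((D : ℝ) + 1) u
    have h6 : |(if u ∈ LawB.cov B then (-1 : ℝ) else 1)| = 1 := by
      split_ifs <;> simp
    rw [abs_mul, abs_mul, h6, mul_one, abs_of_nonneg h2, abs_of_nonneg h5]
    exact (mul_le_mul_of_nonneg_right h3 h5).trans h4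
  refine (sum_le_card_nsmul _ _ _ h1).trans ?_
  rw [nsmul_eq_mul]
  have h2 : ((Pf H r ((D : ℝ) + 1) v).card : ℝ) ≤ 2 := by exact_mod_cast Pf_card hN5 v
  have h3 : ((Pf H r ((D : ℝ) + 1) v).card : ℝ) * (1 / 250) ≤ 2 * (1 / 250) :=
    mul_le_mul_of_nonneg_right h2 (by norm_num)
  refine h3.trans ?_
  norm_num

end facts

/-- The quantity of `reduce`. -/
noncomputable def FF (H : Finset (Finset V)) (r : V → ℕ) (N : ℝ) (v : V) (U : Finset V)
    (B : Finset (Finset V)) : ℝ :=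
  Psi (rhov H N v U B) (errv (Mv H N v) U B) (Zc H r N (kap H N (cov B)) (cov B) v)
    (Xv U (bb H N v) B)

section cases

variable {H : Finset (Finset V)} {D k : ℕ}
  (hD : ∀ x, ∑ E ∈ H.filter (fun E => x ∈ E), (E.card - 1) ≤ D) (hD4 : 4 ≤ D)
  (hkk : ∀ E ∈ H, E.card ≤ k) (hlin : ∀ E ∈ H, ∀ F ∈ H, E ≠ F → (E ∩ F).card ≤ 1)
  {r : V → ℕ} (hr : Function.Injective r) (hrt : ∀ u v, r u < r v → t3 H u ≤ t3 H v)
  (hk : 0 < k) {w : Finset (Finset V) → ℝ} (hL : Law (CB k) (D + 1) (bigs H) w)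

include hD hD4 hkk hlin hr hrt hk hL in
/-- large load -/
theorem main_large (hC : Conc (CC k) (D + 1) (bigs H) w) {v : V} {U : Finset V}
    (hv : (t3 H v : ℝ) < 7 / 10 * ((D : ℝ) + 1)) (hU : U ⊆ hi H r v)
    (hS : SL k ≤ load (bigs H) (D + 1) U) :
    0 ≤ ev (wv w v) (FF H r ((D : ℝ) + 1) v U) + U.card * dv H ((D : ℝ) + 1) v := by
  have hB := big_bigs hD hkk hlin
  have hNN : (((D + 1 : ℕ) : ℕ) : ℝ) = (D : ℝ) + 1 := by push_cast; rfl
  have hN5 : 5 ≤ (D : ℝ) + 1 := by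
    have : (4 : ℝ) ≤ D := by exact_mod_cast hD4
    linarith
  have hN0 : 0 < (D : ℝ) + 1 := by linarith
  have hUM : U.card + td (bigs H) v ≤ D + 1 := by
    rw [td_bigs]
    have h1 := deg_hilo hD r v
    have h2 := card_le_card hU
    omega
  have htv : 10 * td (bigs H) v ≤ 7 * (D + 1) := by
    rw [td_bigs]
    have h1 : 10 * (t3 H v : ℝ) ≤ 7 * ((D + 1 : ℕ) : ℝ) := by
      rw [hNN]
      linarith
    exact_mod_cast h1
  have h1 := large hk hB hL hC v U (fun u hu => by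
      rw [td_bigs, td_bigs]
      exact hi_t3 hrt (hU hu)) hUM htv hS (fun B => rhov H ((D : ℝ) + 1) v U B)
      (fun B => Zc H r ((D : ℝ) + 1) (kap H ((D : ℝ) + 1) (cov B)) (cov B) v) ?_ ?_
  · have e1 : (fun u => ((td (bigs H) u : ℝ) - td (bigs H) v) /
        (((D + 1 : ℕ) : ℝ) - td (bigs H) u)) = bb H ((D : ℝ) + 1) v := by
      funext u
      rw [td_bigs, td_bigs, hNN]
      rfl
    have e2 : ((D + 1 : ℕ) : ℝ) - td (bigs H) v = Mv H ((D : ℝ) + 1) v := by
      rw [td_bigs, hNN]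
      rfl
    have e3 : ((td (bigs H) v : ℝ) - bd (bigs H) v) / (((D + 1 : ℕ) : ℝ) - bd (bigs H) v) =
        dv H ((D : ℝ) + 1) v := by
      rw [td_bigs, bd_bigs, hNN]
      rfl
    rw [e1, e2, e3] at h1
    exact h1
  · intro B hBH _ _
    have h2 : ∀ u ∈ U \ cov B, -(if bd (bigs H) v = 0 then
        4 / 25 * ((bd (bigs H) u : ℝ) / ((D : ℝ) + 1)) else 0) ≤
        aa H ((D : ℝ) + 1) (kap H ((D : ℝ) + 1) (cov B)) v u - bb H ((D : ℝ) + 1) v u := by
      intro u hu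
      rw [bd_bigs, bd_bigs]
      split_ifs with h0
      · have h3 := (abs_le.1 (aa_sub_bb_abs hD (cov B) v u)).1
        have h4 : ((Sp H ((D : ℝ) + 1) v u).card : ℝ) ≤ b3 H u := by
          exact_mod_cast Sp_card hN5 v u
        refine le_trans ?_ h3
        rw [neg_le_neg_iff, mul_div_assoc]
        exact mul_le_mul_of_nonneg_left (div_le_div_of_nonneg_right h4 hN0.le) (by norm_num)
      · rw [aa_eq_bb hD (cov B) u (Nat.one_le_iff_ne_zero.2 h0), sub_self, neg_zero]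
    have h3 := sum_le_sum h2
    refine le_trans ?_ h3
    rw [sum_neg_distrib, neg_le_neg_iff]
    split_ifs with h0
    · rw [← mul_sum]
      have h4 : ∑ u ∈ U \ cov B, (bd (bigs H) u : ℝ) / ((D : ℝ) + 1) ≤
          load (bigs H) (D + 1) U := by
        unfold load
        rw [hNN]
        exact sum_le_sum_of_subset_of_nonneg sdiff_subset fun u _ _ => by positivity
      have h5 := mul_le_mul_of_nonneg_left h4 (by norm_num : (0 : ℝ) ≤ 4 / 25)
      refine h5.trans (le_of_eq ?_)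
      norm_num
    · rw [sum_const_zero]
  · intro B hBH _ _
    have h2 := (abs_le.1 (Zc_abs hD hD4 hr hBH v)).1
    refine le_trans ?_ h2
    norm_num

include hD hD4 hkk hlin hr hrt hk hL in
/-- small load, `b_v = 0` -/
theorem main_B0 {v : V} {U : Finset V} (hU : U ⊆ hi H r v) (hb : b3 H v = 0)
    (h0 : SpP (D + 1) (bigs H) U (Sp H ((D : ℝ) + 1) v) →
      0 ≤ ev w (fun B => Psi (rho (bigs H) (D + 1) U (Sp H ((D : ℝ) + 1) v) B)
        (errv ((D + 1 : ℕ) : ℝ) U B) 0 (Xv U (xu (bigs H) (D + 1)) B))) :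
    0 ≤ ev (wv w v) (FF H r ((D : ℝ) + 1) v U) + U.card * dv H ((D : ℝ) + 1) v := by
  have hNN : (((D + 1 : ℕ) : ℕ) : ℝ) = (D : ℝ) + 1 := by push_cast; rfl
  have hN5 : 5 ≤ (D : ℝ) + 1 := by
    have : (4 : ℝ) ≤ D := by exact_mod_cast hD4
    linarith
  have hN0 : 0 < (D : ℝ) + 1 := by linarith
  have ht : t3 H v = 0 := t3_eq_zero hb
  have hM : Mv H ((D : ℝ) + 1) v = (D : ℝ) + 1 := by
    unfold Mv
    rw [ht, Nat.cast_zero, sub_zero]
  have hd : dv H ((D : ℝ) + 1) v = 0 := by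
    unfold dv
    rw [ht, hb, Nat.cast_zero, sub_zero, zero_div]
  have hP : ev w (ali {v}) = 1 := by
    rw [ev_free hL, hb, Nat.cast_zero, zero_div, sub_zero]
  have hS : SpP (D + 1) (bigs H) U (Sp H ((D : ℝ) + 1) v) := by
    refine ⟨?_, ?_, ?_⟩
    · intro z _ hz
      obtain ⟨y, hy⟩ := hz
      rw [bd_bigs]
      exact (Sp_b3 hy).2.2.1
    · intro z _ y hy
      obtain ⟨-, -, -, -, hc, x, hx, hx1, hx2⟩ := Sp_b3 hy
      refine ⟨?_, x, ?_, mem_filter.2 ⟨hx1, hx2.ge⟩, hx2⟩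
      · rw [bd_bigs]
        unfold crit at hc
        have h1 : 9 * ((D + 1 : ℕ) : ℝ) ≤ 20 * (b3 H y : ℝ) := by
          rw [hNN]
          linarith
        exact_mod_cast h1
      · unfold vh
        rw [bd_bigs]
        intro h1
        have h2 : 2 * ((D + 1 : ℕ) : ℝ) ≤ 5 * (b3 H x : ℝ) := by exact_mod_cast h1
        rw [hNN] at h2
        linarith
    · intro z hz hz2 y hy hyc x hx hx1 hx2
      rw [bd_bigs] at hz2 hyc
      have hz1 : 1 ≤ b3 H z := by
        unfold b3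
        rw [Nat.one_le_iff_ne_zero, Ne, card_eq_zero, filter_eq_empty_iff]
        intro h1
        exact h1 (mem_filter.1 hx1).1 ⟨by simp, hx2.ge⟩
      classical
      unfold Sp
      rw [if_pos ⟨hb, hz1, hz2⟩, mem_filter]
      refine ⟨mem_univ _, (mem_filter.1 (hU hy)).2.1, ?_, x, ?_, (mem_filter.1 hx1).1, hx2⟩
      · unfold crit
        have h1 : 9 * ((D + 1 : ℕ) : ℝ) ≤ 20 * (b3 H y : ℝ) := by exact_mod_cast hyc
        rw [hNN] at h1
        linarith
      · unfold vh at hx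
        rw [bd_bigs] at hx
        push Not at hx
        have h1 : 5 * (b3 H x : ℝ) < 2 * ((D + 1 : ℕ) : ℝ) := by exact_mod_cast hx
        rw [hNN] at h1
        linarith
  refine le_trans (h0 hS) ?_
  rw [hd, mul_zero, add_zero, ev_wv, hP, div_one]
  refine hL.ev_mono fun B hBH _ => ?_
  have hvB : v ∉ cov B := by
    intro hv
    unfold cov at hv
    rw [mem_biUnion] at hv
    obtain ⟨F, hF, hvF⟩ := hv
    unfold b3 at hb
    rw [card_eq_zero, filter_eq_empty_iff] at hb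
    exact hb (mem_filter.1 (hBH hF)).1 ⟨hvF, (mem_filter.1 (hBH hF)).2⟩
  rw [ali_one, if_neg hvB, one_mul]
  have e1 : rhov H ((D : ℝ) + 1) v U B = rho (bigs H) (D + 1) U (Sp H ((D : ℝ) + 1) v) B := by
    unfold rhov rho
    have h1 : U.filter (fun z => z ∉ LawB.cov B) = U \ cov B := filter_notMem_eq_sdiff
    rw [h1, sum_div]
    refine sum_congr rfl fun z _ => ?_
    rw [aa_eq hD, add_sub_cancel_left, hM, hNN]
    have h2 : ((D : ℝ) + 1) / ((D : ℝ) + 1) ^ 2 = 1 / ((D : ℝ) + 1) := by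
      rw [div_eq_div_iff (by positivity) (by positivity)]
      ring
    rw [h2, one_div_mul_eq_div]
    congr 1
    refine sum_congr rfl fun y _ => ?_
    have h3 : omc H ((D : ℝ) + 1) y = omx (bigs H) (D + 1) y := by
      unfold omc omx rr
      rw [bd_bigs, hNN]
      norm_num
    rw [h3]
    rfl
  have e2 : Zc H r ((D : ℝ) + 1) (kap H ((D : ℝ) + 1) (cov B)) (cov B) v = 0 := by
    rw [Zc_eq hD r hBH]
    rw [sum_eq_zero, mul_zero]
    intro u _
    rw [nn_eq_zero (fun h => by omega), Nat.cast_zero, zero_mul]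
  have e3 : bb H ((D : ℝ) + 1) v = xu (bigs H) (D + 1) := by
    funext u
    unfold bb xu Mv
    rw [ht, Nat.cast_zero, sub_zero, td_bigs, hNN]
  unfold FF
  rw [e1, e2, e3, hM, hNN]

include hD hD4 hkk hlin hr hrt hk hL in
/-- small load, `b_v ≥ 1` -/
theorem main_B1 {v : V} {U : Finset V}
    (hU : U ⊆ hi H r v) (hb : 1 ≤ b3 H v)
    (h1 : 0 ≤ ev (wv w v) (fun B => Psi 0 (errv (((D + 1 : ℕ) : ℝ) - t3 H v) U B)
        (Zf H r ((D : ℝ) + 1) v B)
        (Xv U (fun z => ((td ((bigs H).filter fun F => v ∉ F) z : ℝ) - t3 H v) /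
          (((D + 1 : ℕ) : ℝ) - td ((bigs H).filter fun F => v ∉ F) z)) B)) +
      U.card * (((t3 H v : ℝ) - b3 H v) / (((D + 1 : ℕ) : ℝ) - b3 H v))) :
    0 ≤ ev (wv w v) (FF H r ((D : ℝ) + 1) v U) + U.card * dv H ((D : ℝ) + 1) v := by
  have hNN : (((D + 1 : ℕ) : ℕ) : ℝ) = (D : ℝ) + 1 := by push_cast; rfl
  have hB := big_bigs hD hkk hlin
  have hQ := qlaw_v hk hB hL v
  rw [hNN] at h1
  have hd : ((t3 H v : ℝ) - b3 H v) / ((D : ℝ) + 1 - b3 H v) = dv H ((D : ℝ) + 1) v := rfl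
  rw [hd] at h1
  refine h1.trans (add_le_add ?_ le_rfl)
  refine hQ.mono' fun B hBH _ => le_of_eq ?_
  have hBH' : B ⊆ bigs H := hBH.trans (filter_subset _ _)
  unfold FF
  have e1 : rhov H ((D : ℝ) + 1) v U B = 0 := by
    unfold rhov
    refine sum_eq_zero fun u _ => ?_
    rw [aa_eq_bb hD (cov B) u hb, sub_self]
  have e2 : Zc H r ((D : ℝ) + 1) (kap H ((D : ℝ) + 1) (cov B)) (cov B) v =
      Zf H r ((D : ℝ) + 1) v B := Zc_eq hD r hBH' v
  have e3 : Xv U (fun z => ((td ((bigs H).filter fun F => v ∉ F) z : ℝ) - t3 H v) /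
      ((D : ℝ) + 1 - td ((bigs H).filter fun F => v ∉ F) z)) B = Xv U (bb H ((D : ℝ) + 1) v) B := by
    unfold Xv
    refine sum_congr rfl fun z hz => ?_
    have h3 : td ((bigs H).filter fun F => v ∉ F) z = t3 H z := by
      rw [← td_bigs]
      unfold td
      rw [filter_off hlin (hU hz)]
    beta_reduce
    rw [h3]
    rfl
  rw [e1, e2, e3]
  rfl

include hD hD4 hkk hlin hr hk hL in
/-- the mean of `Z` on the event that `u` is free -/
theorem main_Z {v : V} {U : Finset V} (hU : U ⊆ hi H r v) {u : V} (hu : u ∈ U) :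
    -(0.64 * (3 * Kq k ^ 2 + 2 * ((k : ℝ) + 1) + 2 * Kq k ^ 3) ^ 2 / ((D + 1 : ℕ) : ℝ) ^ 2) ≤
      ev (wv w v) (fun B => if u ∈ LawB.cov B then 0 else Zf H r ((D : ℝ) + 1) v B) := by
  have hNN : (((D + 1 : ℕ) : ℕ) : ℝ) = (D : ℝ) + 1 := by push_cast; rfl
  have hN5 : 5 ≤ (D : ℝ) + 1 := by
    have : (4 : ℝ) ≤ D := by exact_mod_cast hD4
    linarith
  have hN0 : 0 < (D : ℝ) + 1 := by linarith
  have hB := big_bigs hD hkk hlin
  have hQ := qlaw_v hk hB hL v
  have hB' := big_filter hB (fun F => v ∉ F)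
  have hK : 0 ≤ Kq k := hQ.K_nonneg (Nat.succ_pos D)
  set C := 3 * Kq k ^ 2 + 2 * ((k : ℝ) + 1) + 2 * Kq k ^ 3 with hC
  have hC0 : 0 ≤ C := by positivity
  set P := Pf H r ((D : ℝ) + 1) v with hPd
  have e1 : (fun B => if u ∈ LawB.cov B then (0 : ℝ) else Zf H r ((D : ℝ) + 1) v B) =
      fun B => ∑ y ∈ P, ((Mv H ((D : ℝ) + 1) v * nn H r ((D : ℝ) + 1) y v /
        ((D : ℝ) + 1) ^ 2) * omc H ((D : ℝ) + 1) y) *
        (if u ∈ LawB.cov B then 0 else if y ∈ LawB.cov B then -1 else 1) := by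
    funext B
    rw [Zf_eq_sum]
    by_cases h : u ∈ LawB.cov B
    · simp [if_pos h]
    · simp only [if_neg h]
      rfl
  rw [e1, LawB.ev_sum]
  have h1 : ∀ y ∈ P, -(0.32 * C ^ 2 / ((D + 1 : ℕ) : ℝ) ^ 2) ≤ ev (wv w v) (fun B =>
      ((Mv H ((D : ℝ) + 1) v * nn H r ((D : ℝ) + 1) y v /
        ((D : ℝ) + 1) ^ 2) * omc H ((D : ℝ) + 1) y) *
        (if u ∈ LawB.cov B then 0 else if y ∈ LawB.cov B then -1 else 1)) := by
    intro y hy
    rw [LawB.ev_smul]
    have huy : u ≠ y := by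
      rintro rfl
      obtain ⟨-, -, -, w', -, hw1, hw2⟩ := Pf_Tr hy
      exact no_big hlin (hU hu) (mem_filter.2 ⟨hw1, hw2.ge⟩) (by simp) (by simp)
    obtain ⟨hn0, hn1⟩ := nu_le hD hr v y
    have hbu : (bd ((bigs H).filter fun F => v ∉ F) u : ℝ) / ((D + 1 : ℕ) : ℝ) ≤ 1 / 2 := by
      have h3 : 2 * (bd ((bigs H).filter fun F => v ∉ F) u : ℝ) + 1 ≤ ((D + 1 : ℕ) : ℝ) := by
        exact_mod_cast hB'.two_bd_lt u
      rw [div_le_iff₀ (by rw [hNN]; exact hN0)]
      linarith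
    have hr1 : rr H ((D : ℝ) + 1) y ≤
        1 - 2 * (bd ((bigs H).filter fun F => v ∉ F) y : ℝ) / ((D + 1 : ℕ) : ℝ) := by
      unfold rr
      rw [hNN]
      have h3 : bd ((bigs H).filter fun F => v ∉ F) y ≤ b3 H y := by
        rw [← bd_bigs]
        unfold bd
        exact card_le_card (filter_subset_filter _ (filter_subset _ _))
      have h4 : (bd ((bigs H).filter fun F => v ∉ F) y : ℝ) ≤ b3 H y := by exact_mod_cast h3
      have h5 : 2 * (bd ((bigs H).filter fun F => v ∉ F) y : ℝ) / ((D : ℝ) + 1) ≤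
          2 * (b3 H y : ℝ) / ((D : ℝ) + 1) :=
        div_le_div_of_nonneg_right (by linarith) hN0.le
      linarith
    have hNp : (0 : ℝ) < ((D + 1 : ℕ) : ℝ) := by
      rw [hNN]
      exact hN0
    have hc1 := C3_one (Nat.succ_pos D) hB' hQ u y huy
    have hom := omc_nonneg H ((D : ℝ) + 1) y
    have hom1 : omc H ((D : ℝ) + 1) y ≤ 0.16 := (omc_le hD y).trans (by norm_num)
    exact C3_real C ((D + 1 : ℕ) : ℝ)
      (1 - 2 * (bd ((bigs H).filter fun F => v ∉ F) y : ℝ) / ((D + 1 : ℕ) : ℝ))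
      (Mv H ((D : ℝ) + 1) v * nn H r ((D : ℝ) + 1) y v / ((D : ℝ) + 1) ^ 2)
      (omc H ((D : ℝ) + 1) y)
      (ev (wv w v) fun B => if u ∈ LawB.cov B then 0 else if y ∈ LawB.cov B then -1 else 1)
      ((bd ((bigs H).filter fun F => v ∉ F) u : ℝ) / ((D + 1 : ℕ) : ℝ))
      hNp hC0 hbu hn0 (hn1.trans hr1) hom hom1 hc1
  have h2 := sum_le_sum h1
  rw [sum_const, nsmul_eq_mul] at h2
  refine le_trans ?_ h2
  have h3' : P.card ≤ 2 := Pf_card (H := H) (r := r) (N := (D : ℝ) + 1) hN5 v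
  have h3 : (P.card : ℝ) ≤ 2 := Nat.cast_le_ofNat.2 h3'
  have h4 : 0 ≤ 0.32 * C ^ 2 / ((D + 1 : ℕ) : ℝ) ^ 2 := by positivity
  have h5 := mul_le_mul_of_nonneg_right h3 h4
  have h6 : 0.64 * C ^ 2 / ((D + 1 : ℕ) : ℝ) ^ 2 = 2 * (0.32 * C ^ 2 / ((D + 1 : ℕ) : ℝ) ^ 2) := by
    ring
  rw [h6]
  linarith

end cases

theorem thm_main (h0 : StB0) (h1 : StB1) : StMain := by
  intro k₀
  set k := k₀ + 1 with hkd
  have hk : 0 < k := Nat.succ_pos k₀
  obtain ⟨C1, N1, hC1⟩ := thm_C1 k (CB k) (3 * k)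
  obtain ⟨NA, hA⟩ := h0 k (Kq k) (SL k)
  set C2 : ℝ := max C1 (0.64 * (3 * Kq k ^ 2 + 2 * ((k : ℝ) + 1) + 2 * Kq k ^ 3) ^ 2) with hC2
  obtain ⟨NB', hB1⟩ := h1 k (Kq k) (SL k) C2
  refine ⟨max (max (max N1 NA) (max NB' (NB k))) (max 4 ⌈40 * CB k⌉₊), ?_⟩
  intro V _ _ H D hDD hcard hlin hD wt hwt
  have d1 : N1 ≤ D := (((le_max_left _ _).trans (le_max_left _ _)).trans (le_max_left _ _)).trans hDD
  have d2 : NA ≤ D := (((le_max_right _ _).trans (le_max_left _ _)).trans (le_max_left _ _)).trans hDD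
  have d3 : NB' ≤ D := (((le_max_left _ _).trans (le_max_right _ _)).trans (le_max_left _ _)).trans hDD
  have d4 : NB k ≤ D := (((le_max_right _ _).trans (le_max_right _ _)).trans (le_max_left _ _)).trans hDD
  have hD4 : 4 ≤ D := ((le_max_left _ _).trans (le_max_right _ _)).trans hDD
  have hDC : 40 * CB k ≤ D :=
    (Nat.le_ceil _).trans (by exact_mod_cast ((le_max_right _ _).trans (le_max_right _ _)).trans hDD)
  have hkk : ∀ E ∈ H, E.card ≤ k := fun E hE => (hcard E hE).trans (Nat.le_succ _)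
  have hB := big_bigs hD hkk hlin
  obtain ⟨w, hL, hCc⟩ := hB.exists_law hk (by omega)
  obtain ⟨r, hr, hrt⟩ := exists_rank H
  have hNN : (((D + 1 : ℕ) : ℕ) : ℝ) = (D : ℝ) + 1 := by push_cast; rfl
  have hN0 : (0 : ℝ) < (D : ℝ) + 1 := by positivity
  refine reduce hD hD4 hDC hr hrt hL ?_ wt hwt
  intro v hv U hU hh
  change 0 ≤ ev (wv w v) (FF H r ((D : ℝ) + 1) v U) + U.card * dv H ((D : ℝ) + 1) v
  by_cases hS : SL k ≤ load (bigs H) (D + 1) U
  · exact main_large hD hD4 hkk hlin hr hrt hk hL hCc hv hU hS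
  push Not at hS
  by_cases hb : b3 H v = 0
  · refine main_B0 hD hD4 hkk hlin hr hrt hk hL hU hb fun hSp => ?_
    refine hA V (D + 1) (bigs H) w U _ (by omega) hB (qlaw_self hk (by omega) hB hL)
      (fun F hF => hL.marg F hF) hSp hS.le ?_
    have ht : t3 H v = 0 := t3_eq_zero hb
    refine lt_of_lt_of_eq (lt_of_le_of_lt (by norm_num) hh) ?_
    refine sum_congr rfl fun u _ => ?_
    unfold bb xu Mv
    rw [ht, Nat.cast_zero, sub_zero, td_bigs, hNN]
  · have hb1 : 1 ≤ b3 H v := Nat.one_le_iff_ne_zero.2 hb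
    refine main_B1 hD hD4 hkk hlin hr hrt hk hL hU hb1 ?_
    have hQ := qlaw_v hk hB hL v
    have hB' := big_filter hB (fun F => v ∉ F)
    have hbd : ∀ u ∈ U, bd ((bigs H).filter fun F => v ∉ F) u = bd (bigs H) u := fun u hu => by
      unfold bd
      rw [filter_off hlin (hU hu)]
    have htd : ∀ u ∈ U, td ((bigs H).filter fun F => v ∉ F) u = t3 H u := fun u hu => by
      rw [← td_bigs]
      unfold td
      rw [filter_off hlin (hU hu)]
    have hHG : ∀ u ∈ U, HG ((bigs H).filter fun F => v ∉ F) u = HG (bigs H) u := fun u hu =>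
      filter_off hlin (hU hu)
    have hP0 : 0 < ev w (ali {v}) := lt_of_lt_of_le (by norm_num) (half_le_free hB hL v)
    have hbN : (b3 H v : ℝ) < (D : ℝ) + 1 := b3_lt hD v
    have hb1r : (1 : ℝ) ≤ b3 H v := by exact_mod_cast hb1
    have hCle : ∀ u ∈ U, ∀ C : ℝ, C ≤ C2 →
        C * (b3 H v : ℝ) / ((D + 1 : ℕ) : ℝ) ^ 2 ≤ C2 * (b3 H v : ℝ) / ((D + 1 : ℕ) : ℝ) ^ 2 :=
      fun u _ C hC => div_le_div_of_nonneg_right
        (mul_le_mul_of_nonneg_right hC (by linarith)) (by positivity)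
    have hno : ∀ u ∈ U, ∀ F ∈ bigs H, v ∈ F → u ∉ F := fun u hu F hF hvF huF =>
      no_big hlin (hU hu) hF hvF huF
    refine hB1 V (D + 1) ((bigs H).filter fun F => v ∉ F) (wv w v) U (t3 H v) (b3 H v)
      (Zf H r ((D : ℝ) + 1) v) (by omega) hB' hQ ?_ ?_ hb1 (two_b3_le_t3 H v) ?_
      (Zf_abs hD hD4 hr v) ?_ ?_ ?_ ?_ ?_
    · refine le_trans (le_of_eq ?_) hS.le
      unfold load
      exact sum_congr rfl fun u hu => by rw [hbd u hu]
    · intro z hz
      rw [htd z hz]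
      exact hi_t3 hrt (hU hz)
    · have h2 : 10 * (t3 H v : ℝ) ≤ 7 * ((D + 1 : ℕ) : ℝ) := by
        rw [hNN]
        linarith
      exact_mod_cast h2
    · intro u hu
      have h2 := free_cond hB hL v u
      have h3 : (fun B => if u ∈ LawB.cov B then (1 : ℝ) else 0) = fun B => 1 - ali {u} B := by
        funext B
        rw [ali_one]
        by_cases h : u ∈ LawB.cov B
        · have h' : u ∈ cov B := h
          rw [if_pos h, if_pos h', sub_zero]
        · have h' : ¬ u ∈ cov B := h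
          rw [if_neg h, if_neg h', sub_self]
      rw [h3, LawB.ev_sub (wv w v) (fun _ => 1), hQ.const', hbd u hu]
      rw [bd_bigs H v] at h2
      linarith
    · intro u hu
      have h2 := (hC1 V (D + 1) (bigs H) w v u (fun _ => 0) (by omega) hB hL (hi_ne (hU hu))
        (hno u hu) (fun F _ => ⟨le_rfl, by positivity⟩)).1
      rw [ev_wv, div_le_iff₀ hP0]
      have h3 : (fun B => ali {v} B * if u ∈ LawB.cov B then (1 : ℝ) else 0) =
          fun B => (if u ∈ LawB.cov B then (1 : ℝ) else 0) * ali {v} B := by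
        funext B
        rw [mul_comm]
      rw [h3, hbd u hu]
      rw [bd_bigs H v] at h2
      refine h2.trans (mul_le_mul_of_nonneg_right ?_ hP0.le)
      have h4 := hCle u hu C1 (le_max_left _ _)
      linarith
    · intro u hu a ha
      classical
      have h2 := (hC1 V (D + 1) (bigs H) w v u
        (fun F => if v ∈ F then 0 else a F) (by omega) hB hL (hi_ne (hU hu))
        (hno u hu) (fun F hF => ?_)).2
      · have h3 : ∑ G ∈ HG ((bigs H).filter fun F => v ∉ F) u, a G * ev (wv w v) (ins {G}) =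
            (∑ G ∈ HG (bigs H) u, (if v ∈ G then 0 else a G) *
              ev w (fun B => ins {G} B * ali {v} B)) / ev w (ali {v}) := by
          rw [hHG u hu, sum_div]
          refine sum_congr rfl fun G hG => ?_
          have hvG : v ∉ G := fun h => hno u hu G (mem_filter.1 hG).1 h (mem_filter.1 hG).2
          rw [if_neg hvG, ev_wv, mul_div_assoc]
          congr 3
          funext B
          rw [mul_comm]
        rw [h3, div_le_iff₀ hP0]
        have h4 : ∑ G ∈ HG (bigs H) u, (if v ∈ G then (0 : ℝ) else a G) =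
            ∑ G ∈ HG ((bigs H).filter fun F => v ∉ F) u, a G := by
          rw [hHG u hu]
          refine sum_congr rfl fun G hG => ?_
          have hvG : v ∉ G := fun h => hno u hu G (mem_filter.1 hG).1 h (mem_filter.1 hG).2
          rw [if_neg hvG]
        rw [h4, bd_bigs H v] at h2
        refine h2.trans (mul_le_mul_of_nonneg_right ?_ hP0.le)
        have h5 := hCle u hu C1 (le_max_left _ _)
        linarith
      · beta_reduce
        split_ifs with hvF
        · exact ⟨le_rfl, by positivity⟩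
        · exact ha F (mem_filter.2 ⟨hF, hvF⟩)
    · intro u hu
      refine le_trans ?_ (main_Z hD hD4 hkk hlin hr hk hL hU hu)
      rw [neg_le_neg_iff]
      refine div_le_div_of_nonneg_right ?_ (by positivity)
      have h2 : 0.64 * (3 * Kq k ^ 2 + 2 * ((k : ℝ) + 1) + 2 * Kq k ^ 3) ^ 2 ≤ C2 :=
        le_max_right _ _
      have h3 : 0 ≤ 0.64 * (3 * Kq k ^ 2 + 2 * ((k : ℝ) + 1) + 2 * Kq k ^ 3) ^ 2 := by positivity
      nlinarith
    · refine lt_of_lt_of_eq (lt_of_le_of_lt (by norm_num) hh) ?_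
      refine sum_congr rfl fun u hu => ?_
      rw [htd u hu, hNN]
      rfl

end Pool.Agent.JR
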