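import Pool.Agent.JR.Caps
import Pool.Agent.JR.Defs
import Pool.Agent.LawB.Rpt
import Pool.Agent.JR.Cond

/-!
JR, part 3 of team J, sections 1 and 2: the exact cases and the reduction of the criterion.
-/

set_option autoImplicit false

namespace Pool.Agent.JR

open Finset
open Pool.Agent.FBR
open Pool.Agent.LawB (ev ins ali Law)

variable {V : Type*} [Fintype V] [DecidableEq V]

/-- The big edges. -/
def bigs (H : Finset (Finset V)) : Finset (Finset V) := H.filter fun E => 3 ≤ E.card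

theorem b3_eq (H : Finset (Finset V)) (x : V) :
    b3 H x = ((bigs H).filter fun F => x ∈ F).card := by
  unfold b3 bigs
  rw [filter_filter]
  congr 1
  ext E
  rw [mem_filter, mem_filter, and_comm (a := x ∈ E)]

theorem t3_eq (H : Finset (Finset V)) (x : V) : t3 H x = td (bigs H) x := by
  unfold t3 td bigs
  rw [filter_filter]
  refine sum_congr ?_ fun _ _ => rfl
  ext E
  rw [mem_filter, mem_filter, and_comm (a := x ∈ E)]

theorem ali_one (x : V) (B : Finset (Finset V)) : ali {x} B = if x ∈ cov B then 0 else 1 := by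
  unfold ali
  by_cases h : x ∈ cov B
  · rw [if_pos h, if_neg]
    rw [disjoint_singleton_left]
    exact fun h' => h' h
  · rw [if_neg h, if_pos]
    rw [disjoint_singleton_left]
    exact h

theorem ali_two (x y : V) (B : Finset (Finset V)) :
    ali {x, y} B = if x ∈ cov B then 0 else if y ∈ cov B then 0 else 1 := by
  have h1 : ali {x, y} B = ali {x} B * ali {y} B := LawB.ali_insert x {y} B
  rw [h1, ali_one, ali_one]
  split_ifs <;> simp

section law

variable {H : Finset (Finset V)} {D : ℕ} {C : ℝ} {w : Finset (Finset V) → ℝ}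

theorem ev_free (h : Law C (D + 1) (bigs H) w) (v : V) :
    ev w (ali {v}) = 1 - (b3 H v : ℝ) / ((D : ℝ) + 1) := by
  rw [h.free v, ← b3_eq]
  push_cast
  rfl

/-- The exact lower bound. -/
theorem ev_free_two_ge (h : Law C (D + 1) (bigs H) w) (v u : V) :
    1 - (b3 H v : ℝ) / ((D : ℝ) + 1) - (b3 H u : ℝ) / ((D : ℝ) + 1) ≤ ev w (ali {v, u}) := by
  have h1 : ev w (fun B => (ali {v} B + ali {u} B) - 1) ≤ ev w (ali {v, u}) := by
    refine h.ev_mono fun B _ _ => ?_
    rw [ali_one, ali_one, ali_two]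
    split_ifs <;> norm_num
  have h2 := LawB.ev_sub w (fun B => ali {v} B + ali {u} B) (fun _ => 1)
  have h3 := LawB.ev_add w (ali {v}) (ali {u})
  rw [h2, h3, h.ev_const, ev_free h, ev_free h] at h1
  linarith

/-- The approximate value. -/
theorem ev_free_two_ge' (h : Law C (D + 1) (bigs H) w) {v u : V} (hvu : v ≠ u) :
    (1 - (b3 H v : ℝ) / ((D : ℝ) + 1)) * (1 - (b3 H u : ℝ) / ((D : ℝ) + 1)) - C / ((D : ℝ) + 1) ≤
      ev w (ali {v, u}) := by
  have h1 := (abs_le.1 (h.free_two hvu)).1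
  rw [← b3_eq, ← b3_eq] at h1
  push_cast at h1
  linarith

end law

section val

variable {H : Finset (Finset V)} {D : ℕ}
  (hD : ∀ x, ∑ E ∈ H.filter (fun E => x ∈ E), (E.card - 1) ≤ D) (hD4 : 4 ≤ D)
  {r : V → ℕ} (hr : Function.Injective r) (hrt : ∀ u v, r u < r v → t3 H u ≤ t3 H v)

include hrt in
theorem hi_t3 {v u : V} (hu : u ∈ hi H r v) : t3 H v ≤ t3 H u :=
  hrt _ _ (mem_filter.1 hu).2.2

theorem hi_ne {v u : V} (hu : u ∈ hi H r v) : v ≠ u := by
  rintro rfl
  exact lt_irrefl _ (mem_filter.1 hu).2.2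

include hD hD4 hrt in
theorem val_eq (X : Finset V) {v : V} {U : Finset V} (hU : U ⊆ hi H r v) :
    FBR.val H r ((D : ℝ) + 1) (kap H ((D : ℝ) + 1) X) X v U = ((U \ X).card : ℝ) +
      mg (Cr H r ((D : ℝ) + 1) (kap H ((D : ℝ) + 1) X) X v)
        (yp (Mv H ((D : ℝ) + 1) v) (dfree H r X v))
        (∑ u ∈ U \ X, aa H ((D : ℝ) + 1) (kap H ((D : ℝ) + 1) X) v u)
        (∑ u ∈ U \ X, bb H ((D : ℝ) + 1) v u) := by
  have hb : ∀ u ∈ U \ X, 0 ≤ bb H ((D : ℝ) + 1) v u := fun u hu =>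
    bb_nonneg hD (hi_t3 hrt (hU (mem_sdiff.1 hu).1))
  have hab : ∀ u ∈ U \ X, bb H ((D : ℝ) + 1) v u ≤
      2 * aa H ((D : ℝ) + 1) (kap H ((D : ℝ) + 1) X) v u := fun u hu =>
    bb_le_two_aa hD hD4 X (hi_t3 hrt (hU (mem_sdiff.1 hu).1))
  have ha : ∀ u ∈ U \ X, 0 ≤ aa H ((D : ℝ) + 1) (kap H ((D : ℝ) + 1) X) v u := fun u hu => by
    have h1 := hb u hu
    have h2 := hab u hu
    linarith
  unfold FBR.val
  rw [sum_congr rfl fun u hu => max_eq_left (ha u hu), sum_eq_zero fun u hu => min_eq_right (ha u hu),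
    sum_congr rfl fun u hu => show min (bb H ((D : ℝ) + 1) v u) (2 * max
      (aa H ((D : ℝ) + 1) (kap H ((D : ℝ) + 1) X) v u) 0) = bb H ((D : ℝ) + 1) v u by
      rw [max_eq_left (ha u hu), min_eq_left (hab u hu)]]
  ring

include hD hD4 hr hrt in
theorem val_ge_card {B : Finset (Finset V)} (hB : B ⊆ bigs H) {v : V} {U : Finset V}
    (hU : U ⊆ hi H r v) :
    ((U \ cov B).card : ℝ) ≤
      FBR.val H r ((D : ℝ) + 1) (kap H ((D : ℝ) + 1) (cov B)) (cov B) v U := by
  rw [val_eq hD hD4 hrt (cov B) hU]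
  have h1 := Cr_ge hD hD4 hr hB v
  have h2 : 0 ≤ yp (Mv H ((D : ℝ) + 1) v) (dfree H r (cov B) v) := le_max_left _ _
  have hb : ∀ u ∈ U \ cov B, 0 ≤ bb H ((D : ℝ) + 1) v u := fun u hu =>
    bb_nonneg hD (hi_t3 hrt (hU (mem_sdiff.1 hu).1))
  have h3 : 0 ≤ ∑ u ∈ U \ cov B, bb H ((D : ℝ) + 1) v u := sum_nonneg hb
  have h4 : 0 ≤ ∑ u ∈ U \ cov B, aa H ((D : ℝ) + 1) (kap H ((D : ℝ) + 1) (cov B)) v u :=
    sum_nonneg fun u hu => by
      have h5 := hb u hu
      have h6 := bb_le_two_aa hD hD4 (cov B) (hi_t3 hrt (hU (mem_sdiff.1 hu).1))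
      linarith
  have h5 : 0 ≤ mg (Cr H r ((D : ℝ) + 1) (kap H ((D : ℝ) + 1) (cov B)) (cov B) v)
        (yp (Mv H ((D : ℝ) + 1) v) (dfree H r (cov B) v))
        (∑ u ∈ U \ cov B, aa H ((D : ℝ) + 1) (kap H ((D : ℝ) + 1) (cov B)) v u)
        (∑ u ∈ U \ cov B, bb H ((D : ℝ) + 1) v u) :=
    le_min h4 (le_min (by linarith) (by linarith))
  linarith

include hD hD4 hr hrt in
theorem val_ge_half {B : Finset (Finset V)} (hB : B ⊆ bigs H) {v : V} {U : Finset V}
    (hU : U ⊆ hi H r v) (hh : ∑ u ∈ U, bb H ((D : ℝ) + 1) v u ≤ 9 / 10) :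
    ∑ u ∈ U \ cov B, (1 + bb H ((D : ℝ) + 1) v u / 2) ≤
      FBR.val H r ((D : ℝ) + 1) (kap H ((D : ℝ) + 1) (cov B)) (cov B) v U := by
  rw [val_eq hD hD4 hrt (cov B) hU]
  have h1 := Cr_ge hD hD4 hr hB v
  have h2 : 0 ≤ yp (Mv H ((D : ℝ) + 1) v) (dfree H r (cov B) v) := le_max_left _ _
  have hb : ∀ u ∈ U, 0 ≤ bb H ((D : ℝ) + 1) v u := fun u hu =>
    bb_nonneg hD (hi_t3 hrt (hU hu))
  have h3 : ∑ u ∈ U \ cov B, bb H ((D : ℝ) + 1) v u ≤ 9 / 10 :=
    (sum_le_sum_of_subset_of_nonneg sdiff_subset fun u hu _ => hb u hu).trans hh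
  have h4 : ∑ u ∈ U \ cov B, bb H ((D : ℝ) + 1) v u / 2 ≤
      ∑ u ∈ U \ cov B, aa H ((D : ℝ) + 1) (kap H ((D : ℝ) + 1) (cov B)) v u :=
    sum_le_sum fun u hu => by
      have h6 := bb_le_two_aa hD hD4 (cov B) (hi_t3 hrt (hU (mem_sdiff.1 hu).1))
      linarith
  rw [← sum_div] at h4
  have h5 : (∑ u ∈ U \ cov B, bb H ((D : ℝ) + 1) v u) / 2 ≤
      mg (Cr H r ((D : ℝ) + 1) (kap H ((D : ℝ) + 1) (cov B)) (cov B) v)
        (yp (Mv H ((D : ℝ) + 1) v) (dfree H r (cov B) v))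
        (∑ u ∈ U \ cov B, aa H ((D : ℝ) + 1) (kap H ((D : ℝ) + 1) (cov B)) v u)
        (∑ u ∈ U \ cov B, bb H ((D : ℝ) + 1) v u) :=
    le_min h4 (le_min (by linarith) (by linarith))
  rw [sum_add_distrib, sum_const, nsmul_eq_mul, mul_one, ← sum_div]
  linarith

end val

/-- The criterion for `v`, `U`. -/
def Crt (H : Finset (Finset V)) (r : V → ℕ) (D : ℕ) (w : Finset (Finset V) → ℝ) (v : V)
    (U : Finset V) : Prop :=
  Mv H ((D : ℝ) + 1) v * (U.card : ℝ) / ((D : ℝ) + 1) ≤ ev w fun B =>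
    if v ∈ cov B then 0 else FBR.val H r ((D : ℝ) + 1) (kap H ((D : ℝ) + 1) (cov B)) (cov B) v U

section cases

variable {H : Finset (Finset V)} {D : ℕ}
  (hD : ∀ x, ∑ E ∈ H.filter (fun E => x ∈ E), (E.card - 1) ≤ D) (hD4 : 4 ≤ D)
  {r : V → ℕ} (hr : Function.Injective r) (hrt : ∀ u v, r u < r v → t3 H u ≤ t3 H v)
  {C : ℝ} {w : Finset (Finset V) → ℝ} (h : Law C (D + 1) (bigs H) w)

theorem sum_ali (v : V) (U : Finset V) (f : V → ℝ) (B : Finset (Finset V)) :
    ∑ u ∈ U, f u * ali {v, u} B = if v ∈ cov B then 0 else ∑ u ∈ U \ cov B, f u := by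
  split_ifs with hv
  · refine sum_eq_zero fun u _ => ?_
    rw [ali_two, if_pos hv, mul_zero]
  · rw [← filter_notMem_eq_sdiff, sum_filter]
    refine sum_congr rfl fun u _ => ?_
    rw [ali_two, if_neg hv]
    split_ifs <;> simp

include hD hD4 hr hrt h in
/-- Case T. -/
theorem case_T (hC : C / ((D : ℝ) + 1) ≤ 1 / 40) {v : V} {U : Finset V} (hU : U ⊆ hi H r v)
    (hv : 7 / 10 * ((D : ℝ) + 1) ≤ t3 H v) : Crt H r D w v U := by
  set N : ℝ := (D : ℝ) + 1 with hN
  have hN0 : 0 < N := by rw [hN]; positivity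
  have h1 : ev w (fun B => ∑ u ∈ U, 1 * ali {v, u} B) ≤ ev w fun B =>
      if v ∈ cov B then 0 else FBR.val H r N (kap H N (cov B)) (cov B) v U := by
    refine h.ev_mono fun B hB _ => ?_
    rw [sum_ali]
    split_ifs with hvB
    · exact le_rfl
    · rw [sum_const, nsmul_eq_mul, mul_one]
      exact val_ge_card hD hD4 hr hrt hB hU
  unfold Crt
  refine le_trans ?_ h1
  have h2 := LawB.ev_sum w U (fun u B => 1 * ali {v, u} B)
  rw [h2]
  have h3 : ∀ u ∈ U, Mv H N v / N ≤ ev w (fun B => 1 * ali {v, u} B) := by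
    intro u hu
    have h4 : (fun B => 1 * ali {v, u} B) = ali {v, u} := by
      funext B
      rw [one_mul]
    rw [h4]
    refine le_trans ?_ (ev_free_two_ge' h (hi_ne (hU hu)))
    have h5 : 2 * (b3 H v : ℝ) ≤ t3 H v := by exact_mod_cast two_b3_le_t3 H v
    have h6 : 2 * (b3 H u : ℝ) ≤ t3 H u := by exact_mod_cast two_b3_le_t3 H u
    have h7 : (t3 H u : ℝ) ≤ D := by exact_mod_cast t3_le hD u
    have h7' : (t3 H v : ℝ) ≤ D := by exact_mod_cast t3_le hD v
    have h8 : (b3 H v : ℝ) / N ≤ (t3 H v : ℝ) / N / 2 := by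
      rw [div_div, div_le_div_iff₀ hN0 (by positivity)]
      nlinarith
    have h9 : (b3 H u : ℝ) / N ≤ 1 / 2 := by
      rw [div_le_div_iff₀ hN0 (by norm_num)]
      linarith
    have h10 : 7 / 10 ≤ (t3 H v : ℝ) / N := by
      rw [le_div_iff₀ hN0]
      exact hv
    have h11 : (t3 H v : ℝ) / N ≤ 1 := by
      rw [div_le_one hN0]
      linarith
    have h12 : Mv H N v / N = 1 - (t3 H v : ℝ) / N := by
      unfold Mv
      rw [sub_div, div_self hN0.ne']
    rw [h12]
    set x := (t3 H v : ℝ) / N with hx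
    have h13 : (1 - x / 2) * (1 / 2) ≤ (1 - (b3 H v : ℝ) / N) * (1 - (b3 H u : ℝ) / N) :=
      mul_le_mul (by linarith) (by linarith) (by norm_num) (by linarith)
    linarith
  have h4 := sum_le_sum h3
  rw [sum_const, nsmul_eq_mul] at h4
  refine le_trans (le_of_eq ?_) h4
  ring

include hD hD4 hr hrt h in
/-- Case R0. -/
theorem case_R0 {v : V} {U : Finset V} (hU : U ⊆ hi H r v)
    (hh : ∑ u ∈ U, bb H ((D : ℝ) + 1) v u ≤ 9 / 10) : Crt H r D w v U := by
  set N : ℝ := (D : ℝ) + 1 with hN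
  have hN0 : 0 < N := by rw [hN]; positivity
  have h1 : ev w (fun B => ∑ u ∈ U, (1 + bb H N v u / 2) * ali {v, u} B) ≤ ev w fun B =>
      if v ∈ cov B then 0 else FBR.val H r N (kap H N (cov B)) (cov B) v U := by
    refine h.ev_mono fun B hB _ => ?_
    rw [sum_ali]
    split_ifs with hvB
    · exact le_rfl
    · exact val_ge_half hD hD4 hr hrt hB hU hh
  unfold Crt
  refine le_trans ?_ h1
  have h2 := LawB.ev_sum w U (fun u B => (1 + bb H N v u / 2) * ali {v, u} B)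
  rw [h2]
  have h3 : ∀ u ∈ U, Mv H N v / N ≤ ev w (fun B => (1 + bb H N v u / 2) * ali {v, u} B) := by
    intro u hu
    rw [LawB.ev_smul w (ali {v, u})]
    have hb := bb_nonneg hD (hi_t3 hrt (hU hu))
    rw [← hN] at hb
    refine le_trans ?_ (mul_le_mul_of_nonneg_left (ev_free_two_ge h v u) (by linarith))
    rw [bb_eq hD, ← hN]
    have hMv := one_le_Mv hD v
    have hMu := one_le_Mv hD u
    rw [← hN] at hMv hMu
    have h5 : 2 * (b3 H v : ℝ) ≤ t3 H v := by exact_mod_cast two_b3_le_t3 H v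
    have h6 : 2 * (b3 H u : ℝ) ≤ t3 H u := by exact_mod_cast two_b3_le_t3 H u
    have h7 : (Mv H N v + Mv H N u) / (2 * N) ≤ 1 - (b3 H v : ℝ) / N - (b3 H u : ℝ) / N := by
      have h8 : 1 - (b3 H v : ℝ) / N - (b3 H u : ℝ) / N = (N - b3 H v - b3 H u) / N := by
        field_simp
      rw [h8, div_le_div_iff₀ (by positivity) hN0]
      unfold Mv
      nlinarith
    have h8 : 1 + (Mv H N v / Mv H N u - 1) / 2 = (Mv H N v + Mv H N u) / (2 * Mv H N u) := by
      have : Mv H N u ≠ 0 := by linarith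
      field_simp
      ring
    rw [h8]
    refine le_trans ?_ (mul_le_mul_of_nonneg_left h7 (by positivity))
    rw [div_mul_div_comm, div_le_div_iff₀ hN0 (by positivity)]
    have h9 : (Mv H N v + Mv H N u) * (Mv H N v + Mv H N u) * N -
        Mv H N v * (2 * Mv H N u * (2 * N)) = (Mv H N v - Mv H N u) ^ 2 * N := by ring
    have h10 : 0 ≤ (Mv H N v - Mv H N u) ^ 2 * N := by positivity
    linarith
  have h4 := sum_le_sum h3
  rw [sum_const, nsmul_eq_mul] at h4
  refine le_trans (le_of_eq ?_) h4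
  ring

/-- The correction of the shares. -/
noncomputable def rhov (H : Finset (Finset V)) (N : ℝ) (v : V) (U : Finset V)
    (B : Finset (Finset V)) : ℝ :=
  ∑ u ∈ U \ cov B, (aa H N (kap H N (cov B)) v u - bb H N v u)

/-- `d_v` -/
noncomputable def dv (H : Finset (Finset V)) (N : ℝ) (v : V) : ℝ :=
  ((t3 H v : ℝ) - b3 H v) / (N - b3 H v)

include hD in
theorem b3_lt (v : V) : (b3 H v : ℝ) < (D : ℝ) + 1 := by
  have h1 : 2 * b3 H v ≤ D := (two_b3_le_t3 H v).trans (t3_le hD v)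
  have h2 : 2 * (b3 H v : ℝ) ≤ D := by exact_mod_cast h1
  have h3 : (0 : ℝ) ≤ b3 H v := Nat.cast_nonneg _
  linarith

theorem Xv_sdiff (U : Finset V) (x : V → ℝ) (B : Finset (Finset V)) :
    Xv U x B = ∑ u ∈ U \ cov B, x u - (U ∩ cov B).card := by
  unfold Xv
  rw [sum_ite]
  have h1 : U.filter (fun u => u ∈ LawB.cov B) = U ∩ cov B := filter_mem_eq_inter
  have h2 : U.filter (fun u => ¬ u ∈ LawB.cov B) = U \ cov B := filter_notMem_eq_sdiff
  rw [h1, h2, sum_const, nsmul_eq_mul]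
  ring

include hD hD4 hr hrt h in
/-- The reduction of the criterion to the function `Psi`. -/
theorem case_Psi {v : V} {U : Finset V} (hU : U ⊆ hi H r v)
    (hE : 0 ≤ ev (wv w v) (fun B => Psi (rhov H ((D : ℝ) + 1) v U B)
      (errv (Mv H ((D : ℝ) + 1) v) U B)
      (Zc H r ((D : ℝ) + 1) (kap H ((D : ℝ) + 1) (cov B)) (cov B) v)
      (Xv U (bb H ((D : ℝ) + 1) v) B)) + U.card * dv H ((D : ℝ) + 1) v) :
    Crt H r D w v U := by
  set N : ℝ := (D : ℝ) + 1 with hN
  have hN0 : 0 < N := by rw [hN]; positivity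
  have hbN : (b3 H v : ℝ) < N := b3_lt hD v
  have hP : ev w (ali {v}) = 1 - (b3 H v : ℝ) / N := ev_free h v
  have hP0 : 0 < ev w (ali {v}) := by
    rw [hP, sub_pos, div_lt_one hN0]
    exact hbN
  set F : Finset (Finset V) → ℝ := fun B => Psi (rhov H N v U B) (errv (Mv H N v) U B)
      (Zc H r N (kap H N (cov B)) (cov B) v) (Xv U (bb H N v) B) with hF
  have h1 : ev (wv w v) F = ev w (fun B => ali {v} B * F B) / ev w (ali {v}) := by
    have h2 : ev (wv w v) F = (∑ B, w B * (ali {v} B * F B)) / ev w (ali {v}) := by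
      rw [sum_div]
      unfold ev
      refine sum_congr rfl fun B _ => ?_
      unfold wv
      rw [show ev w (ali {v}) = ∑ B, w B * ali {v} B from rfl]
      ring
    exact h2
  have h2 : -(U.card * dv H N v * ev w (ali {v})) ≤ ev w (fun B => ali {v} B * F B) := by
    rw [h1] at hE
    have h3 : 0 ≤ (ev w (fun B => ali {v} B * F B) / ev w (ali {v}) + U.card * dv H N v) *
        ev w (ali {v}) := mul_nonneg hE hP0.le
    rw [add_mul, div_mul_cancel₀ _ hP0.ne'] at h3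
    linarith
  have h3 : ev w (fun B => ali {v} B * F B + (U.card : ℝ) * ali {v} B) ≤ ev w fun B =>
      if v ∈ cov B then 0 else FBR.val H r N (kap H N (cov B)) (cov B) v U := by
    refine h.ev_mono fun B hB _ => ?_
    rw [ali_one]
    split_ifs with hvB
    · rw [zero_mul, mul_zero, add_zero]
    · rw [one_mul, mul_one]
      have hMv := one_le_Mv hD v
      have h4 := value_lemma hD r (kap H N (cov B)) (cov B) v hU (by rw [← hN] at *; linarith)
        (fun u hu => bb_nonneg hD (hi_t3 hrt (hU (mem_sdiff.1 hu).1)))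
        (fun u hu => bb_le_two_aa hD hD4 (cov B) (hi_t3 hrt (hU (mem_sdiff.1 hu).1)))
        (by have := Cr_ge hD hD4 hr hB v; rw [← hN] at *; linarith) (le_refl _)
      rw [← hN] at h4
      have h5 : F B = min (∑ u ∈ U \ cov B, bb H N v u - (U ∩ cov B).card +
          ∑ u ∈ U \ cov B, (aa H N (kap H N (cov B)) v u - bb H N v u))
          (min ((∑ u ∈ U \ cov B, bb H N v u - (U ∩ cov B).card -
            err (Mv H N v) (U ∩ cov B).card) / 2)
            (1 + Zc H r N (kap H N (cov B)) (cov B) v)) := by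
        rw [hF]
        unfold Psi rhov
        simp only [Xv_sdiff]
        have h6 : errv (Mv H N v) U B = err (Mv H N v) (U ∩ cov B).card := by
          unfold errv err
          have h7 : Yv U B = ((U ∩ cov B).card : ℝ) := rfl
          rw [h7]
          norm_num
        rw [h6]
      rw [h5]
      linarith
  have h4 := LawB.ev_add w (fun B => ali {v} B * F B) (fun B => (U.card : ℝ) * ali {v} B)
  rw [h4, LawB.ev_smul w (ali {v})] at h3
  unfold Crt
  refine le_trans ?_ h3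
  have h5 : Mv H N v * (U.card : ℝ) / N =
      -(U.card * dv H N v * ev w (ali {v})) + U.card * ev w (ali {v}) := by
    have h6 : N - b3 H v ≠ 0 := by linarith
    rw [hP]
    unfold dv Mv
    field_simp
    ring
  rw [h5]
  linarith

end cases

/-- The reduction: it remains to prove the criterion in the form of `case_Psi` for the vertices `v` with
`t_v < .7 N` and the sets `U` with `h(U) > .9`. -/
theorem reduce {H : Finset (Finset V)} {D : ℕ} {C : ℝ}
    (hD : ∀ x, ∑ E ∈ H.filter (fun E => x ∈ E), (E.card - 1) ≤ D) (hD4 : 4 ≤ D)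
    (hC : 40 * C ≤ D) {r : V → ℕ} (hr : Function.Injective r)
    (hrt : ∀ u v, r u < r v → t3 H u ≤ t3 H v)
    {w : Finset (Finset V) → ℝ} (h : Law C (D + 1) (bigs H) w)
    (hE : ∀ v, (t3 H v : ℝ) < 7 / 10 * ((D : ℝ) + 1) → ∀ U ⊆ hi H r v,
      9 / 10 < ∑ u ∈ U, bb H ((D : ℝ) + 1) v u →
      0 ≤ ev (wv w v) (fun B => Psi (rhov H ((D : ℝ) + 1) v U B)
      (errv (Mv H ((D : ℝ) + 1) v) U B)
      (Zc H r ((D : ℝ) + 1) (kap H ((D : ℝ) + 1) (cov B)) (cov B) v)
      (Xv U (bb H ((D : ℝ) + 1) v) B)) + U.card * dv H ((D : ℝ) + 1) v)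
    (wt : Finset V → ℝ) (hwt : ∀ E ∈ H, 0 ≤ wt E) :
    ∃ M : Finset (Finset V), M ⊆ H ∧
      (∀ E ∈ M, ∀ F ∈ M, E ≠ F → Disjoint E F) ∧
      (∑ E ∈ H, wt E) / ((D : ℝ) + 1) ≤ ∑ E ∈ M, wt E := by
  classical
  have hN0 : (0 : ℝ) < (D : ℝ) + 1 := by positivity
  have hcr : ∀ v, ∀ U ⊆ hi H r v, Crt H r D w v U := by
    intro v U hU
    by_cases h1 : 7 / 10 * ((D : ℝ) + 1) ≤ t3 H v
    · refine case_T hD hD4 hr hrt h ?_ hU h1
      rw [div_le_div_iff₀ hN0 (by norm_num)]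
      linarith
    · push Not at h1
      by_cases h2 : ∑ u ∈ U, bb H ((D : ℝ) + 1) v u ≤ 9 / 10
      · exact case_R0 hD hD4 hr hrt h hU h2
      · push Not at h2
        exact case_Psi hD hD4 hr hrt h hU (hE v h1 U hU h2)
  refine criterion_suffices H D hD r hr hrt (univ.filter fun B => w B ≠ 0) w id
    (fun B => kap H ((D : ℝ) + 1) (cov B)) (fun B _ => h.nonneg B) ?_ ?_ ?_ ?_
    (fun B v u => kap_nonneg hD hD4 (cov B) v u) ?_ ?_ wt hwt
  · rw [sum_filter_ne_zero]
    exact h.total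
  · intro B hB
    exact (h.supp B (mem_filter.1 hB).2).1
  · intro B hB
    exact (h.supp B (mem_filter.1 hB).2).2
  · intro F hF hF3
    have h1 := h.marg F (mem_filter.2 ⟨hF, hF3⟩)
    unfold ev ins at h1
    push_cast at h1
    rw [← h1, sum_filter, sum_filter]
    refine sum_congr rfl fun B _ => ?_
    simp only [id_eq, singleton_subset_iff, mul_ite, mul_one, mul_zero]
    by_cases h2 : w B = 0
    · simp [h2]
    · simp [h2]
  · intro B hB v _
    have := Cr_ge hD hD4 hr (h.supp B (mem_filter.1 hB).2).1 v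
    exact le_trans (by norm_num) this
  · intro v U hU
    refine (hcr v U hU).trans (le_of_eq ?_)
    unfold ev
    rw [sum_filter]
    refine sum_congr rfl fun B _ => ?_
    by_cases h2 : w B = 0
    · simp [h2]
    · simp [h2]

end Pool.Agent.JR
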