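import Pool.Agent.FBR.Feas

/-!
JR, part 3 of team J, section 1: the value lemma.
-/

set_option autoImplicit false

namespace Pool.Agent.JR

open Finset
open Pool.Agent.FBR

/-- Lower bound for the room in the brackets. -/
theorem yp_ge {M Y d : ℝ} (hM : 0 < M) (hd : 1 ≤ d) (hY0 : 0 ≤ Y) (hYd : Y ≤ M - 1 - d) :
    Y - (2 * Y / M + max 0 (Y - 9 / 20 * M)) ≤ yp M d := by
  set y1 := min Y (9 / 20 * M) with hy1
  have h0 : 0 ≤ y1 := le_min hY0 (by positivity)
  have h1 : Y - max 0 (Y - 9 / 20 * M) = y1 := by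
    rcases le_total Y (9 / 20 * M) with h | h
    · rw [hy1, min_eq_left h, max_eq_left (by linarith), sub_zero]
    · rw [hy1, min_eq_right h, max_eq_right (by linarith)]
      ring
  have h2 : 2 * y1 / M ≤ 2 * Y / M := by
    apply div_le_div_of_nonneg_right _ hM.le
    linarith [min_le_left Y (9 / 20 * M)]
  have h3 : Y - (2 * Y / M + max 0 (Y - 9 / 20 * M)) ≤ y1 * ((M - 2) / M) := by
    have h4 : y1 * ((M - 2) / M) = y1 - 2 * y1 / M := by
      field_simp
    rw [h4]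
    linarith
  refine h3.trans ?_
  unfold yp
  by_cases hM2 : M ≤ 2
  · refine le_trans ?_ (le_max_left _ _)
    exact mul_nonpos_of_nonneg_of_nonpos h0 (div_nonpos_of_nonpos_of_nonneg (by linarith) hM.le)
  push Not at hM2
  refine le_trans ?_ (le_max_right _ _)
  have hyY : y1 ≤ Y := min_le_left _ _
  have hyM : y1 ≤ 9 / 20 * M := min_le_right _ _
  have ha : y1 * ((M - 2) / M) ≤ psi M 1 := by
    unfold psi
    rw [mul_div_assoc', div_le_div_iff₀ hM (by norm_num)]
    nlinarith [mul_nonneg (sub_nonneg.2 hyM) (by linarith : (0 : ℝ) ≤ M - 2)]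
  refine le_min ha ?_
  have hd2 : d ≤ M - 1 - y1 := by linarith
  have hb : y1 * ((M - 2) / M) ≤ psi M (M - 1 - y1) := by
    unfold psi
    have h5 : 0 < M - 1 - y1 + 1 := by linarith
    rw [mul_div_assoc', div_le_div_iff₀ hM h5]
    have h6 : (M - 1 - y1) * (M - 1 - (M - 1 - y1)) * M - y1 * (M - 2) * (M - 1 - y1 + 1) =
        y1 * (M - 2 * y1) := by ring
    have h7 : 0 ≤ y1 * (M - 2 * y1) := mul_nonneg h0 (by linarith)
    linarith
  exact (le_min ha hb).trans (psi_min hd hd2)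

variable {V : Type*} [Fintype V] [DecidableEq V]

/-- The error in the value lemma. -/
noncomputable def err (M Y : ℝ) : ℝ := 2 * Y / M + max 0 (Y - 9 / 20 * M)

theorem err_nonneg {M Y : ℝ} (hM : 0 < M) (hY : 0 ≤ Y) : 0 ≤ err M Y :=
  add_nonneg (by positivity) (le_max_left _ _)

/-- The correction of the room in the star. -/
noncomputable def Zc (H : Finset (Finset V)) (r : V → ℕ) (N : ℝ) (κ : V → V → ℝ) (X : Finset V)
    (v : V) : ℝ := Cr H r N κ X v - (Mv H N v - dfree H r X v)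

theorem dfree_add {H : Finset (Finset V)} {D : ℕ}
    (hD : ∀ x, ∑ E ∈ H.filter (fun E => x ∈ E), (E.card - 1) ≤ D) (r : V → ℕ) (X : Finset V)
    (v : V) {U : Finset V} (hU : U ⊆ hi H r v) :
    ((U ∩ X).card : ℝ) ≤ Mv H ((D : ℝ) + 1) v - 1 - dfree H r X v := by
  have h1 := deg_hilo hD r v
  have h2 : (U ∩ X).card + (hi H r v \ X).card ≤ (hi H r v).card := by
    rw [← card_sdiff_add_card_inter (hi H r v) X, add_comm]
    exact Nat.add_le_add_left (card_le_card (inter_subset_inter_right hU)) _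
  have h3 : (lo H r v \ X).card ≤ (lo H r v).card := card_le_card sdiff_subset
  have h4 : (U ∩ X).card + dfree H r X v + t3 H v ≤ D := by
    unfold dfree
    omega
  have h5 : ((U ∩ X).card : ℝ) + dfree H r X v + t3 H v ≤ D := by exact_mod_cast h4
  unfold Mv
  linarith

/-- The value lemma. -/
theorem value_lemma {H : Finset (Finset V)} {D : ℕ}
    (hD : ∀ x, ∑ E ∈ H.filter (fun E => x ∈ E), (E.card - 1) ≤ D) (r : V → ℕ) (κ : V → V → ℝ)
    (X : Finset V) (v : V) {U : Finset V} (hU : U ⊆ hi H r v)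
    (hM : 0 < Mv H ((D : ℝ) + 1) v)
    (hb : ∀ u ∈ U \ X, 0 ≤ bb H ((D : ℝ) + 1) v u)
    (hab : ∀ u ∈ U \ X, bb H ((D : ℝ) + 1) v u ≤ 2 * aa H ((D : ℝ) + 1) κ v u)
    (hC : 0 ≤ Cr H r ((D : ℝ) + 1) κ X v)
    {h' : ℝ} (hh : h' ≤ ∑ u ∈ U \ X, bb H ((D : ℝ) + 1) v u) :
    min (h' - (U ∩ X).card + ∑ u ∈ U \ X, (aa H ((D : ℝ) + 1) κ v u - bb H ((D : ℝ) + 1) v u))
      (min ((h' - (U ∩ X).card - err (Mv H ((D : ℝ) + 1) v) (U ∩ X).card) / 2)
        (1 + Zc H r ((D : ℝ) + 1) κ X v)) ≤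
      FBR.val H r ((D : ℝ) + 1) κ X v U - U.card := by
  set N : ℝ := (D : ℝ) + 1 with hN
  have ha : ∀ u ∈ U \ X, 0 ≤ aa H N κ v u := fun u hu => by
    have h1 := hb u hu
    have h2 := hab u hu
    linarith
  have hA : ∑ u ∈ U \ X, max (aa H N κ v u) 0 = ∑ u ∈ U \ X, aa H N κ v u :=
    sum_congr rfl fun u hu => max_eq_left (ha u hu)
  have hA0 : ∑ u ∈ U \ X, min (aa H N κ v u) 0 = 0 :=
    sum_eq_zero fun u hu => min_eq_right (ha u hu)
  have hB : ∑ u ∈ U \ X, min (bb H N v u) (2 * max (aa H N κ v u) 0) =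
      ∑ u ∈ U \ X, bb H N v u :=
    sum_congr rfl fun u hu => by rw [max_eq_left (ha u hu), min_eq_left (hab u hu)]
  have hcard : (U.card : ℝ) = (U \ X).card + (U ∩ X).card := by
    rw [← card_sdiff_add_card_inter U X, Nat.cast_add]
  have hYd := dfree_add hD r X v hU
  rw [← hN] at hYd
  unfold FBR.val
  rw [hA, hA0, hB, sum_sub_distrib, hcard]
  set Y : ℝ := ((U ∩ X).card : ℝ) with hY
  have hY0 : 0 ≤ Y := Nat.cast_nonneg _
  have hSB : h' ≤ ∑ u ∈ U \ X, bb H N v u := hh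
  set SA : ℝ := ∑ u ∈ U \ X, aa H N κ v u with hSA
  set SB : ℝ := ∑ u ∈ U \ X, bb H N v u with hSBd
  have hyp0 : 0 ≤ yp (Mv H N v) (dfree H r X v) := le_max_left _ _
  by_cases hd : dfree H r X v = 0
  · have hem : U \ X = ∅ := by
      have h1 : (U \ X).card ≤ (hi H r v \ X).card := card_le_card (sdiff_subset_sdiff hU subset_rfl)
      have h2 : (hi H r v \ X).card = 0 := by
        unfold dfree at hd
        omega
      rw [h2] at h1
      exact card_eq_zero.1 (Nat.le_zero.1 h1)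
    have hSA0 : SA = 0 := by rw [hSA, hem, sum_empty]
    have hSB0 : SB = 0 := by rw [hSBd, hem, sum_empty]
    have hc0 : (((U \ X).card : ℕ) : ℝ) = 0 := by rw [hem, card_empty, Nat.cast_zero]
    rw [hSA0, hSB0, hc0, mg_zero hC hyp0]
    refine (min_le_left _ _).trans ?_
    rw [hSB0] at hSB
    linarith
  have hd1 : (1 : ℝ) ≤ (dfree H r X v : ℝ) := by
    exact_mod_cast Nat.one_le_iff_ne_zero.2 hd
  have hy := yp_ge hM hd1 hY0 hYd
  have hy' : Y - err (Mv H N v) Y ≤ yp (Mv H N v) (dfree H r X v) := hy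
  unfold mg
  have hZ : Zc H r N κ X v = Cr H r N κ X v - (Mv H N v - dfree H r X v) := rfl
  set L := min (h' - Y + (SA - SB)) (min ((h' - Y - err (Mv H N v) Y) / 2)
    (1 + Zc H r N κ X v)) with hL
  have hL1 : L ≤ h' - Y + (SA - SB) := min_le_left _ _
  have hL2 : L ≤ (h' - Y - err (Mv H N v) Y) / 2 := (min_le_right _ _).trans (min_le_left _ _)
  have hL3 : L ≤ 1 + Zc H r N κ X v := (min_le_right _ _).trans (min_le_right _ _)
  have key : L + Y ≤ min SA (min (Cr H r N κ X v) ((SB + yp (Mv H N v) (dfree H r X v)) / 2)) := by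
    refine le_min (by linarith) (le_min ?_ ?_)
    · rw [hZ] at hL3
      linarith
    · linarith
  linarith

end Pool.Agent.JR
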